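import Pool.Agent.Lib.MP_dd84fd_nt.IY.PrA

/-!
# (W2) for the primes in `[z, X]` (helper33)

`DecAt` is the body of `DecG` at one `X`. Sums, change of scale `X → Y = ⌊X5 X⌋`, `r` scales; the
remaining primes `≤ Y_r ≤ X/(log X)^(4r)` go into the error.
-/

set_option autoImplicit false

namespace Pool.MP_dd84fd_nt.IY

open Finset Pool.MP_dd84fd_nt.HX

/-- `DecG` at one `X` -/
def DecAt (α β : ℝ) (B C2 X : ℕ) (w : ℕ → ℝ) : Prop :=
  ∃ (I : ℕ) (γ al : ℕ → ℕ → ℝ) (M K : ℕ → ℕ) (a c : ℕ → ℕ → ℝ) (err : ℕ → ℝ),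
    (I : ℝ) ≤ (Real.log X) ^ C2 ∧
    (∀ i, (∀ n, |γ i n| ≤ (Real.log X) ^ C2) ∧
      ∑ n ∈ Ico 1 X, |γ i (n + 1) - γ i n| ≤ (Real.log X) ^ C2) ∧
    (∀ i l, |al i l| ≤ (Real.log X) ^ C2) ∧
    (∀ i (l : ℕ), 2 * (X : ℝ) ^ (1 - β) < l → al i l = 0) ∧
    (∀ i n, |a i n| ≤ (Real.log X) ^ C2 ∧ |c i n| ≤ (Real.log X) ^ C2) ∧
    (∀ i, (X : ℝ) ^ α / 2 ≤ M i ∧ (M i : ℝ) ≤ (X : ℝ) ^ β ∧ K i * M i ≤ X) ∧
    (∀ i m, a i m ≠ 0 → M i < m ∧ m ≤ 2 * M i ∧ (m : ℝ) ≤ (X : ℝ) ^ β ∧ m * K i ≤ X) ∧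
    (∀ n ∈ Icc 1 X, w n = ∑ i ∈ range I, γ i n * ∑ l ∈ n.divisors, al i l +
      ∑ i ∈ range I, ∑ m ∈ n.divisors, (if n / m ≤ K i then a i m * c i (n / m) else 0) +
      err n) ∧
    ∑ n ∈ Icc 1 X, err n ^ 2 ≤ X / (Real.log X) ^ B

theorem decG_iff {α β : ℝ} {B C2 : ℕ} {ww : ℕ → ℕ → ℝ} : DecG α β B C2 ww ↔
    ∃ X0 : ℕ, ∀ X : ℕ, X0 ≤ X → DecAt α β B C2 X (ww X) := Iff.rfl

private theorem pr_split (I1 I2 : ℕ) (f g : ℕ → ℝ) :
    ∑ i ∈ range (I1 + I2), (if i < I1 then f i else g (i - I1)) =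
      ∑ i ∈ range I1, f i + ∑ i ∈ range I2, g i := by
  rw [Finset.sum_range_add]
  congr 1
  · refine Finset.sum_congr rfl fun i hi => ?_
    rw [if_pos (Finset.mem_range.1 hi)]
  · refine Finset.sum_congr rfl fun i _ => ?_
    rw [if_neg (by omega), Nat.add_sub_cancel_left]

theorem decAt_add {α β : ℝ} {B C X : ℕ} {w1 w2 : ℕ → ℝ} (hL : 4 ≤ Real.log X)
    (h1 : DecAt α β (B + 1) C X w1) (h2 : DecAt α β (B + 1) C X w2) :
    DecAt α β B (C + 1) X (fun n => w1 n + w2 n) := by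
  obtain ⟨I1, γ1, al1, M1, K1, a1, c1, e1, p1, p2, p3, p4, p5, p6, p7, p8, p9⟩ := h1
  obtain ⟨I2, γ2, al2, M2, K2, a2, c2, e2, q1, q2, q3, q4, q5, q6, q7, q8, q9⟩ := h2
  have hL1 : (1 : ℝ) ≤ Real.log X := by linarith
  have hL0 : (0 : ℝ) < Real.log X := by linarith
  have hbig : ∀ x : ℝ, x ≤ (Real.log X) ^ C → x ≤ (Real.log X) ^ (C + 1) := fun x hx =>
    hx.trans (pow_le_pow_right₀ hL1 (by omega))
  refine ⟨I1 + I2, fun i n => if i < I1 then γ1 i n else γ2 (i - I1) n,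
    fun i n => if i < I1 then al1 i n else al2 (i - I1) n,
    fun i => if i < I1 then M1 i else M2 (i - I1),
    fun i => if i < I1 then K1 i else K2 (i - I1),
    fun i n => if i < I1 then a1 i n else a2 (i - I1) n,
    fun i n => if i < I1 then c1 i n else c2 (i - I1) n, fun n => e1 n + e2 n,
    ?_, ?_, ?_, ?_, ?_, ?_, ?_, ?_, ?_⟩
  · push_cast
    rw [pow_succ]
    have : 0 < (Real.log X) ^ C := by positivity
    nlinarith
  · intro i
    by_cases hi : i < I1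
    · simp only [hi, if_true]
      exact ⟨fun n => hbig _ ((p2 i).1 n), hbig _ (p2 i).2⟩
    · simp only [hi, if_false]
      exact ⟨fun n => hbig _ ((q2 _).1 n), hbig _ (q2 _).2⟩
  · intro i l
    by_cases hi : i < I1
    · simp only [hi, if_true]
      exact hbig _ (p3 i l)
    · simp only [hi, if_false]
      exact hbig _ (q3 _ l)
  · intro i l hl
    by_cases hi : i < I1
    · simp only [hi, if_true]
      exact p4 i l hl
    · simp only [hi, if_false]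
      exact q4 _ l hl
  · intro i n
    by_cases hi : i < I1
    · simp only [hi, if_true]
      exact ⟨hbig _ (p5 i n).1, hbig _ (p5 i n).2⟩
    · simp only [hi, if_false]
      exact ⟨hbig _ (q5 _ n).1, hbig _ (q5 _ n).2⟩
  · intro i
    by_cases hi : i < I1
    · simp only [hi, if_true]
      exact p6 i
    · simp only [hi, if_false]
      exact q6 _
  · intro i m
    by_cases hi : i < I1
    · simp only [hi, if_true]
      exact p7 i m
    · simp only [hi, if_false]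
      exact q7 _ m
  · intro n hn
    have s1 := pr_split I1 I2 (fun i => γ1 i n * ∑ l ∈ n.divisors, al1 i l)
      (fun i => γ2 i n * ∑ l ∈ n.divisors, al2 i l)
    have s2 := pr_split I1 I2 (fun i => ∑ m ∈ n.divisors,
      (if n / m ≤ K1 i then a1 i m * c1 i (n / m) else 0))
      (fun i => ∑ m ∈ n.divisors, (if n / m ≤ K2 i then a2 i m * c2 i (n / m) else 0))
    have t1 : ∑ i ∈ range (I1 + I2), (if i < I1 then γ1 i n else γ2 (i - I1) n) *
        ∑ l ∈ n.divisors, (if i < I1 then al1 i l else al2 (i - I1) l) =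
        ∑ i ∈ range I1, γ1 i n * ∑ l ∈ n.divisors, al1 i l +
        ∑ i ∈ range I2, γ2 i n * ∑ l ∈ n.divisors, al2 i l := by
      rw [← s1]
      refine Finset.sum_congr rfl fun i _ => ?_
      by_cases hi : i < I1
      · simp only [hi, if_true]
      · simp only [hi, if_false]
    have t2 : ∑ i ∈ range (I1 + I2), ∑ m ∈ n.divisors,
        (if n / m ≤ (if i < I1 then K1 i else K2 (i - I1)) then
          (if i < I1 then a1 i m else a2 (i - I1) m) *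
          (if i < I1 then c1 i (n / m) else c2 (i - I1) (n / m)) else 0) =
        ∑ i ∈ range I1, ∑ m ∈ n.divisors,
          (if n / m ≤ K1 i then a1 i m * c1 i (n / m) else 0) +
        ∑ i ∈ range I2, ∑ m ∈ n.divisors,
          (if n / m ≤ K2 i then a2 i m * c2 i (n / m) else 0) := by
      rw [← s2]
      refine Finset.sum_congr rfl fun i _ => ?_
      by_cases hi : i < I1
      · simp only [hi, if_true]
      · simp only [hi, if_false]
    show w1 n + w2 n = ∑ i ∈ range (I1 + I2), (if i < I1 then γ1 i n else γ2 (i - I1) n) *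
        ∑ l ∈ n.divisors, (if i < I1 then al1 i l else al2 (i - I1) l) +
        ∑ i ∈ range (I1 + I2), ∑ m ∈ n.divisors,
        (if n / m ≤ (if i < I1 then K1 i else K2 (i - I1)) then
          (if i < I1 then a1 i m else a2 (i - I1) m) *
          (if i < I1 then c1 i (n / m) else c2 (i - I1) (n / m)) else 0) + (e1 n + e2 n)
    rw [t1, t2, p8 n hn, q8 n hn]
    ring
  · have h5 : ∑ n ∈ Icc 1 X, (e1 n + e2 n) ^ 2 ≤
        ∑ n ∈ Icc 1 X, (2 * e1 n ^ 2 + 2 * e2 n ^ 2) :=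
      Finset.sum_le_sum fun n _ => by nlinarith [sq_nonneg (e1 n - e2 n)]
    refine h5.trans ?_
    rw [Finset.sum_add_distrib, ← Finset.mul_sum, ← Finset.mul_sum]
    have h6 : (4 : ℝ) * (X / (Real.log X) ^ (B + 1)) ≤ X / (Real.log X) ^ B := by
      rw [pow_succ, ← div_div, ← mul_div_assoc, div_le_iff₀ hL0, mul_comm]
      exact mul_le_mul_of_nonneg_left hL (by positivity)
    linarith

/-- change of the scale -/
theorem decAt_scale {α α' β : ℝ} {B C X Y : ℕ} {w : ℕ → ℝ} (hY : Y ≤ X) (hY1 : 1 ≤ Y)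
    (hβ0 : 0 ≤ β) (hβ : β ≤ 1) (hL : 2 ^ (B + 1) ≤ Real.log X)
    (hLY : Real.log X ≤ 2 * Real.log Y) (hα : (X : ℝ) ^ α ≤ (Y : ℝ) ^ α')
    (h : DecAt α' β (B + 1) C Y w) :
    DecAt α β B (C + 1) X (fun n => if n ≤ Y then w n else 0) := by
  obtain ⟨I, γ, al, M, K, a, c, err, p1, p2, p3, p4, p5, p6, p7, p8, p9⟩ := h
  have hYr : (1 : ℝ) ≤ (Y : ℝ) := by exact_mod_cast hY1
  have hYX : (Y : ℝ) ≤ (X : ℝ) := by exact_mod_cast hY
  have hL2 : (2 : ℝ) ≤ Real.log X := by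
    refine le_trans ?_ hL
    calc (2 : ℝ) = 2 ^ 1 := by norm_num
      _ ≤ 2 ^ (B + 1) := pow_le_pow_right₀ (by norm_num) (by omega)
  have hlog : Real.log Y ≤ Real.log X := Real.log_le_log (by linarith) hYX
  have hlY : 0 ≤ Real.log Y := Real.log_nonneg hYr
  have hpow : ∀ x : ℝ, x ≤ (Real.log Y) ^ C → x ≤ (Real.log X) ^ (C + 1) := by
    intro x hx
    refine hx.trans ((pow_le_pow_left₀ hlY hlog C).trans ?_)
    exact pow_le_pow_right₀ (by linarith) (by omega)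
  have h2pow : 2 * (Real.log Y) ^ C ≤ (Real.log X) ^ (C + 1) := by
    rw [pow_succ, mul_comm]
    exact mul_le_mul (pow_le_pow_left₀ hlY hlog C) hL2 (by norm_num) (by positivity)
  have hpY : 0 ≤ (Real.log Y) ^ C := by positivity
  have hβX : (Y : ℝ) ^ β ≤ (X : ℝ) ^ β := Real.rpow_le_rpow (by linarith) hYX hβ0
  have hβX' : (Y : ℝ) ^ (1 - β) ≤ (X : ℝ) ^ (1 - β) :=
    Real.rpow_le_rpow (by linarith) hYX (by linarith)
  refine ⟨I, fun i n => if n ≤ Y then γ i n else 0, al, M, K, a, c,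
    fun n => if n ≤ Y then err n else 0, ?_, ?_, ?_, ?_, ?_, ?_, ?_, ?_, ?_⟩
  · exact hpow _ p1
  · intro i
    refine ⟨fun n => ?_, ?_⟩
    · show |if n ≤ Y then γ i n else 0| ≤ _
      split_ifs
      · exact hpow _ ((p2 i).1 n)
      · rw [abs_zero]
        positivity
    · have h5 : ∀ n ∈ Ico 1 X, |(if n + 1 ≤ Y then γ i (n + 1) else 0) -
          (if n ≤ Y then γ i n else 0)| ≤
          (if n ∈ Ico 1 Y then |γ i (n + 1) - γ i n| else 0) +
            (if n = Y then (Real.log Y) ^ C else 0) := by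
        intro n hn
        rw [Finset.mem_Ico] at hn
        rcases lt_trichotomy n Y with h6 | h6 | h6
        · rw [if_pos (by omega : n + 1 ≤ Y), if_pos h6.le,
            if_pos (Finset.mem_Ico.2 ⟨hn.1, h6⟩), if_neg h6.ne, add_zero]
        · rw [if_neg (by omega : ¬ n + 1 ≤ Y), if_pos h6.le,
            if_neg (fun h7 => by rw [Finset.mem_Ico] at h7; omega), if_pos h6, zero_sub,
            abs_neg, zero_add]
          exact (p2 i).1 n
        · rw [if_neg (by omega : ¬ n + 1 ≤ Y), if_neg (by omega : ¬ n ≤ Y),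
            if_neg (fun h7 => by rw [Finset.mem_Ico] at h7; omega), if_neg (by omega), sub_zero,
            abs_zero, add_zero]
      refine (Finset.sum_le_sum h5).trans ?_
      rw [Finset.sum_add_distrib]
      have h6 : ∑ n ∈ Ico 1 X, (if n ∈ Ico 1 Y then |γ i (n + 1) - γ i n| else 0) ≤
          (Real.log Y) ^ C := by
        rw [← Finset.sum_filter, Finset.filter_mem_eq_inter,
          Finset.inter_eq_right.2 (Finset.Ico_subset_Ico le_rfl hY)]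
        exact (p2 i).2
      have h7 : ∑ n ∈ Ico 1 X, (if n = Y then (Real.log Y) ^ C else 0) ≤ (Real.log Y) ^ C := by
        rw [Finset.sum_ite_eq']
        split_ifs
        · exact le_rfl
        · exact hpY
      linarith
  · intro i l
    exact hpow _ (p3 i l)
  · intro i l hl
    exact p4 i l (lt_of_le_of_lt (by linarith) hl)
  · intro i n
    exact ⟨hpow _ (p5 i n).1, hpow _ (p5 i n).2⟩
  · intro i
    obtain ⟨q1, q2, q3⟩ := p6 i
    exact ⟨by linarith, q2.trans hβX, q3.trans hY⟩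
  · intro i m hm
    obtain ⟨q1, q2, q3, q4⟩ := p7 i m hm
    exact ⟨q1, q2, q3.trans hβX, q4.trans hY⟩
  · intro n hn
    rw [Finset.mem_Icc] at hn
    by_cases hnY : n ≤ Y
    · have h5 := p8 n (Finset.mem_Icc.2 ⟨hn.1, hnY⟩)
      simp only [if_pos hnY]
      exact h5
    · simp only [if_neg hnY, zero_mul, Finset.sum_const_zero, zero_add, add_zero]
      symm
      refine Finset.sum_eq_zero fun i _ => Finset.sum_eq_zero fun m hm => ?_
      have hmn := Nat.dvd_of_mem_divisors hm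
      split_ifs with h6
      · by_cases ha : a i m = 0
        · rw [ha, zero_mul]
        · exfalso
          obtain ⟨q1, q2, q3, q4⟩ := p7 i m ha
          apply hnY
          calc n = m * (n / m) := (Nat.mul_div_cancel' hmn).symm
            _ ≤ m * K i := Nat.mul_le_mul_left _ h6
            _ ≤ Y := q4
      · rfl
  · have h5 : ∑ n ∈ Icc 1 X, (if n ≤ Y then err n else 0) ^ 2 = ∑ n ∈ Icc 1 Y, err n ^ 2 := by
      have h6 : ∀ n ∈ Icc 1 X, (if n ≤ Y then err n else 0) ^ 2 =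
          if n ∈ Icc 1 Y then err n ^ 2 else 0 := by
        intro n hn
        rw [Finset.mem_Icc] at hn
        by_cases hnY : n ≤ Y
        · rw [if_pos hnY, if_pos (Finset.mem_Icc.2 ⟨hn.1, hnY⟩)]
        · rw [if_neg hnY, if_neg (fun h7 => hnY (Finset.mem_Icc.1 h7).2)]
          norm_num
      rw [Finset.sum_congr rfl h6, ← Finset.sum_filter, Finset.filter_mem_eq_inter,
        Finset.inter_eq_right.2 (Finset.Icc_subset_Icc le_rfl hY)]
    show ∑ n ∈ Icc 1 X, (if n ≤ Y then err n else 0) ^ 2 ≤ _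
    rw [h5]
    refine p9.trans ?_
    have hlY1 : 1 ≤ Real.log Y := by linarith
    have hLp : 0 < Real.log X := by linarith
    rw [div_le_div_iff₀ (by positivity) (by positivity)]
    have h6 : (Real.log X) ^ B * Real.log X ≤ 2 ^ (B + 1) * (Real.log Y) ^ (B + 1) := by
      rw [← pow_succ, ← mul_pow]
      exact pow_le_pow_left₀ hLp.le hLY _
    have h7 : (Real.log X) ^ B ≤ (Real.log Y) ^ (B + 1) := by
      have h8 : 2 ^ (B + 1) * (Real.log X) ^ B ≤ 2 ^ (B + 1) * (Real.log Y) ^ (B + 1) := by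
        refine le_trans ?_ h6
        rw [mul_comm]
        exact mul_le_mul_of_nonneg_left hL (by positivity)
      exact le_of_mul_le_mul_left h8 (by positivity)
    exact mul_le_mul hYX h7 (by positivity) (by positivity)

theorem decAt_mono {α β : ℝ} {B C C' X : ℕ} {w : ℕ → ℝ} (hL : 1 ≤ Real.log X) (hC : C ≤ C')
    (h : DecAt α β B C X w) : DecAt α β B C' X w := by
  obtain ⟨I, γ, al, M, K, a, c, err, p1, p2, p3, p4, p5, p6, p7, p8, p9⟩ := h
  have hb : (Real.log X) ^ C ≤ (Real.log X) ^ C' := pow_le_pow_right₀ hL hC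
  exact ⟨I, γ, al, M, K, a, c, err, p1.trans hb,
    fun i => ⟨fun n => ((p2 i).1 n).trans hb, (p2 i).2.trans hb⟩, fun i l => (p3 i l).trans hb,
    p4, fun i n => ⟨(p5 i n).1.trans hb, (p5 i n).2.trans hb⟩, p6, p7, p8, p9⟩

theorem decAt_err {α β : ℝ} {B C X : ℕ} {w w' : ℕ → ℝ} (hL : 4 ≤ Real.log X)
    (h : DecAt α β (B + 1) C X w)
    (hw : ∑ n ∈ Icc 1 X, (w' n - w n) ^ 2 ≤ X / (Real.log X) ^ (B + 1)) :
    DecAt α β B C X w' := by
  obtain ⟨I, γ, al, M, K, a, c, err, p1, p2, p3, p4, p5, p6, p7, p8, p9⟩ := h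
  have hL0 : (0 : ℝ) < Real.log X := by linarith
  refine ⟨I, γ, al, M, K, a, c, fun n => err n + (w' n - w n), p1, p2, p3, p4, p5, p6, p7, ?_, ?_⟩
  · intro n hn
    have h5 := p8 n hn
    linarith
  · have h5 : ∑ n ∈ Icc 1 X, (err n + (w' n - w n)) ^ 2 ≤
        ∑ n ∈ Icc 1 X, (2 * err n ^ 2 + 2 * (w' n - w n) ^ 2) :=
      Finset.sum_le_sum fun n _ => by nlinarith [sq_nonneg (err n - (w' n - w n))]
    refine h5.trans ?_
    rw [Finset.sum_add_distrib, ← Finset.mul_sum, ← Finset.mul_sum]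
    have h6 : (4 : ℝ) * (X / (Real.log X) ^ (B + 1)) ≤ X / (Real.log X) ^ B := by
      rw [pow_succ, ← div_div, ← mul_div_assoc, div_le_iff₀ hL0, mul_comm]
      exact mul_le_mul_of_nonneg_left hL (by positivity)
    linarith

theorem decAt_congr {α β : ℝ} {B C X : ℕ} {w w' : ℕ → ℝ} (h : DecAt α β B C X w)
    (hw : ∀ n ∈ Icc 1 X, w' n = w n) : DecAt α β B C X w' := by
  obtain ⟨I, γ, al, M, K, a, c, err, p1, p2, p3, p4, p5, p6, p7, p8, p9⟩ := h
  exact ⟨I, γ, al, M, K, a, c, err, p1, p2, p3, p4, p5, p6, p7,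
    fun n hn => (hw n hn).trans (p8 n hn), p9⟩

private theorem pr_logpow (ε : ℝ) (hε : 0 < ε) (k : ℕ) : ∃ X0 : ℕ, ∀ X : ℕ, X0 ≤ X →
    4 * (Real.log X) ^ k ≤ (X : ℝ) ^ ε := by
  have h := (isLittleO_log_rpow_rpow_atTop (k : ℝ) hε).bound (by norm_num : (0 : ℝ) < 1 / 4)
  have h2 : ∀ᶠ X : ℕ in Filter.atTop, ‖Real.log (X : ℝ) ^ (k : ℝ)‖ ≤
      1 / 4 * ‖(X : ℝ) ^ ε‖ := tendsto_natCast_atTop_atTop.eventually h
  obtain ⟨X0, hX0⟩ := Filter.eventually_atTop.1 h2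
  refine ⟨X0, fun X hX => ?_⟩
  have h3 := hX0 X hX
  rw [Real.rpow_natCast] at h3
  have h4 : 0 ≤ (X : ℝ) ^ ε := by positivity
  rw [Real.norm_of_nonneg h4] at h3
  have h5 := (le_abs_self (Real.log (X : ℝ) ^ k)).trans h3
  linarith

private theorem pr_log_ge (L : ℝ) : ∃ X0 : ℕ, ∀ X : ℕ, X0 ≤ X → 1 ≤ X ∧ L ≤ Real.log (X : ℝ) := by
  have hev : ∀ᶠ X : ℕ in Filter.atTop, L ≤ Real.log (X : ℝ) :=
    (Real.tendsto_log_atTop.comp tendsto_natCast_atTop_atTop).eventually_ge_atTop L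
  obtain ⟨X0, hX0⟩ := Filter.eventually_atTop.1 hev
  exact ⟨X0 + 1, fun X hX => ⟨by omega, hX0 X (by omega)⟩⟩

/-- the next scale -/
theorem pr_next (ε : ℝ) (hε : 0 < ε) (hε2 : ε ≤ 1 / 2) (N : ℕ) : ∃ X0 : ℕ, ∀ X : ℕ, X0 ≤ X →
    (X : ℝ) ^ (1 - ε) ≤ (⌊X5 X⌋₊ : ℕ) ∧ ((⌊X5 X⌋₊ : ℕ) : ℝ) ≤ X / (Real.log X) ^ 5 ∧
    ⌊X5 X⌋₊ ≤ X ∧ N ≤ ⌊X5 X⌋₊ ∧ 1 ≤ ⌊X5 X⌋₊ ∧
    Real.log X ≤ 2 * Real.log (⌊X5 X⌋₊ : ℕ) := by
  obtain ⟨X1, hX1⟩ := pr_logpow ε hε 5
  obtain ⟨X2, hX2⟩ := pr_log_ge 4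
  refine ⟨max (max X1 X2) (N ^ 2 + 1), fun X hX => ?_⟩
  simp only [max_le_iff] at hX
  obtain ⟨⟨b1, b2⟩, b3⟩ := hX
  have h1 := hX1 X b1
  obtain ⟨h2, h3⟩ := hX2 X b2
  have hXr : (1 : ℝ) ≤ X := by exact_mod_cast h2
  have hXp : (0 : ℝ) < X := by linarith
  have hL0 : 0 < Real.log (X : ℝ) := by linarith
  have hone : (1 : ℝ) ≤ (X : ℝ) ^ (1 - ε) := Real.one_le_rpow hXr (by linarith)
  have h4 : 4 * (X : ℝ) ^ (1 - ε) ≤ X5 X := by
    unfold X5
    rw [le_div_iff₀ (by positivity)]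
    calc 4 * (X : ℝ) ^ (1 - ε) * (Real.log X) ^ 5 = (X : ℝ) ^ (1 - ε) *
          (4 * (Real.log X) ^ 5) := by ring
      _ ≤ (X : ℝ) ^ (1 - ε) * (X : ℝ) ^ ε := mul_le_mul_of_nonneg_left h1 (by positivity)
      _ = X := by
          rw [← Real.rpow_add hXp]
          rw [show 1 - ε + ε = 1 by ring, Real.rpow_one]
  have h5 := Nat.lt_floor_add_one (X5 X)
  have h6 : (X : ℝ) ^ (1 - ε) ≤ (⌊X5 X⌋₊ : ℕ) := by linarith
  have h7 : ((⌊X5 X⌋₊ : ℕ) : ℝ) ≤ X / (Real.log X) ^ 5 :=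
    Nat.floor_le (by unfold X5; positivity)
  have h8 : ((⌊X5 X⌋₊ : ℕ) : ℝ) ≤ X :=
    h7.trans (div_le_self hXp.le (one_le_pow₀ (by linarith)))
  have h9 : (X : ℝ) ^ (1 / 2 : ℝ) ≤ (X : ℝ) ^ (1 - ε) :=
    Real.rpow_le_rpow_of_exponent_le hXr (by linarith)
  refine ⟨h6, h7, by exact_mod_cast h8, ?_, ?_, ?_⟩
  · have h10 : (N : ℝ) ≤ (X : ℝ) ^ (1 / 2 : ℝ) := by
      have h11 : (N : ℝ) ^ 2 ≤ X := by
        have : N ^ 2 ≤ X := by omega
        exact_mod_cast this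
      rw [← Real.sqrt_eq_rpow]
      exact Real.le_sqrt_of_sq_le h11
    have h12 : (N : ℝ) ≤ (⌊X5 X⌋₊ : ℕ) := by linarith
    exact_mod_cast h12
  · have h12 : (1 : ℝ) ≤ (⌊X5 X⌋₊ : ℕ) := by linarith
    exact_mod_cast h12
  · have h13 : Real.log ((X : ℝ) ^ (1 / 2 : ℝ)) ≤ Real.log (⌊X5 X⌋₊ : ℕ) :=
      Real.log_le_log (by positivity) (by linarith)
    rw [Real.log_rpow hXp] at h13
    linarith

/-- the primes in `(Y, X]` -/
noncomputable def pYX (Y X n : ℕ) : ℝ := if n.Prime ∧ Y < n ∧ n ≤ X then 1 else 0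

theorem pI_eq {X : ℕ} (n : ℕ) (hX : 0 ≤ X5 X) : pI X n = pYX ⌊X5 X⌋₊ X n := by
  unfold pI pYX
  by_cases h : X5 X < n ∧ n ≤ X ∧ n.Prime
  · rw [if_pos h, if_pos ⟨h.2.2, (Nat.floor_lt hX).2 h.1, h.2.1⟩]
  · rw [if_neg h, if_neg]
    rintro ⟨h1, h2, h3⟩
    exact h ⟨(Nat.floor_lt hX).1 h2, h3, h1⟩

theorem dec_scales (r : ℕ) : ∀ B : ℕ, ∃ C : ℕ, ∀ α β : ℝ, 0 < α → α + 1 / 10 < β → 2 * α < β →
    1 / 3 < β → β < 1 / 2 → ∃ X0 : ℕ, ∀ X : ℕ, X0 ≤ X → ∃ Y : ℕ,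
    (Y : ℝ) * (Real.log X) ^ (4 * r + 4) ≤ X ∧ DecAt α β B C X (pYX Y X) := by
  induction r with
  | zero =>
    intro B
    obtain ⟨C, hC⟩ := dec_pI B
    refine ⟨C, fun α β h0 h1 h1' h2 h3 => ?_⟩
    obtain ⟨X1, hX1⟩ := hC α β h0 h1 h1' h2 h3
    obtain ⟨X2, hX2⟩ := pr_log_ge 4
    refine ⟨max X1 X2, fun X hX => ⟨⌊X5 X⌋₊, ?_, ?_⟩⟩
    · obtain ⟨g1, g2⟩ := hX2 X (le_trans (le_max_right _ _) hX)
      have hXp : (0 : ℝ) < X := by exact_mod_cast g1
      have hL0 : 0 < Real.log (X : ℝ) := by linarith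
      have h7 : ((⌊X5 X⌋₊ : ℕ) : ℝ) ≤ X / (Real.log X) ^ 5 :=
        Nat.floor_le (by unfold X5; positivity)
      calc ((⌊X5 X⌋₊ : ℕ) : ℝ) * (Real.log X) ^ (4 * 0 + 4) ≤
            X / (Real.log X) ^ 5 * (Real.log X) ^ 4 :=
            mul_le_mul_of_nonneg_right h7 (by positivity)
        _ = X / Real.log X := by
            field_simp
        _ ≤ X := div_le_self hXp.le (by linarith)
    · obtain ⟨g1, g2⟩ := hX2 X (le_trans (le_max_right _ _) hX)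
      have hXp : (0 : ℝ) < X := by exact_mod_cast g1
      have hL0 : 0 < Real.log (X : ℝ) := by linarith
      refine decAt_congr (hX1 X (le_trans (le_max_left _ _) hX)) fun n _ => ?_
      exact (pI_eq n (by unfold X5; positivity)).symm
  | succ r ih =>
    intro B
    obtain ⟨C1, hC1⟩ := ih (B + 2)
    obtain ⟨C2, hC2⟩ := dec_pI (B + 1)
    refine ⟨C1 + 1 + C2 + 1, fun α β h0 h1 h1' h2 h3 => ?_⟩
    set δ : ℝ := min ((β - α - 1 / 10) / 2) ((β - 2 * α) / 4) with hδ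
    have hδ0 : 0 < δ := lt_min (by linarith) (by linarith)
    have hδ1 : δ ≤ (β - α - 1 / 10) / 2 := min_le_left _ _
    have hδ2 : δ ≤ (β - 2 * α) / 4 := min_le_right _ _
    obtain ⟨X1, hX1⟩ := hC1 (α + δ) β (by linarith) (by linarith) (by linarith) h2 h3
    obtain ⟨X2, hX2⟩ := hC2 α β h0 h1 h1' h2 h3
    set ε : ℝ := min (1 / 2) (δ / (α + δ)) with hε
    have hαδ : 0 < α + δ := by linarith
    have hε0 : 0 < ε := lt_min (by norm_num) (by positivity)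
    have hε2 : ε ≤ 1 / 2 := min_le_left _ _
    have hε3 : ε * (α + δ) ≤ δ := by
      have h5 : ε ≤ δ / (α + δ) := min_le_right _ _
      rwa [le_div_iff₀ hαδ] at h5
    obtain ⟨X3, hX3⟩ := pr_next ε hε0 hε2 X1
    obtain ⟨X4, hX4⟩ := pr_log_ge (4 + 2 ^ (B + 2) + 2 ^ (4 * r + 4))
    refine ⟨max (max X2 X3) X4, fun X hX => ?_⟩
    simp only [max_le_iff] at hX
    obtain ⟨⟨b2, b3⟩, b4⟩ := hX
    obtain ⟨n1, n2, n3, n4, n5, n6⟩ := hX3 X b3
    obtain ⟨l1, l2⟩ := hX4 X b4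
    set Y1 : ℕ := ⌊X5 X⌋₊ with hY1
    obtain ⟨Y, hY, hdY⟩ := hX1 Y1 n4
    have hXr : (1 : ℝ) ≤ X := by exact_mod_cast l1
    have hXp : (0 : ℝ) < X := by linarith
    have hp1 : (0 : ℝ) < 2 ^ (B + 2) := by positivity
    have hp2 : (0 : ℝ) < 2 ^ (4 * r + 4) := by positivity
    have hL4 : 4 ≤ Real.log (X : ℝ) := by linarith
    have hL0 : 0 < Real.log (X : ℝ) := by linarith
    have hlY : 1 ≤ Real.log (Y1 : ℝ) := by linarith
    have hYY : Y ≤ Y1 := by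
      have h5 : (Y : ℝ) * 1 ≤ (Y : ℝ) * (Real.log Y1) ^ (4 * r + 4) :=
        mul_le_mul_of_nonneg_left (one_le_pow₀ hlY) (Nat.cast_nonneg _)
      have h6 : (Y : ℝ) ≤ Y1 := by linarith
      exact_mod_cast h6
    have hα' : (X : ℝ) ^ α ≤ (Y1 : ℝ) ^ (α + δ) := by
      calc (X : ℝ) ^ α ≤ (X : ℝ) ^ ((1 - ε) * (α + δ)) :=
            Real.rpow_le_rpow_of_exponent_le hXr (by nlinarith)
        _ = ((X : ℝ) ^ (1 - ε)) ^ (α + δ) := Real.rpow_mul hXp.le _ _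
        _ ≤ (Y1 : ℝ) ^ (α + δ) := Real.rpow_le_rpow (by positivity) n1 hαδ.le
    have hs := decAt_scale (B := B + 1) n3 n5 (by linarith : (0 : ℝ) ≤ β) (by linarith)
      (by linarith) n6 hα' hdY
    refine ⟨Y, ?_, ?_⟩
    · have h5 : (Real.log (X : ℝ)) ^ (4 * r + 4) ≤
          2 ^ (4 * r + 4) * (Real.log (Y1 : ℝ)) ^ (4 * r + 4) := by
        rw [← mul_pow]
        exact pow_le_pow_left₀ hL0.le n6 _
      have h6 : (Y : ℝ) * (Real.log X) ^ (4 * r + 4) ≤ 2 ^ (4 * r + 4) * Y1 := by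
        calc (Y : ℝ) * (Real.log X) ^ (4 * r + 4) ≤
              Y * (2 ^ (4 * r + 4) * (Real.log (Y1 : ℝ)) ^ (4 * r + 4)) :=
              mul_le_mul_of_nonneg_left h5 (Nat.cast_nonneg _)
          _ = 2 ^ (4 * r + 4) * (Y * (Real.log (Y1 : ℝ)) ^ (4 * r + 4)) := by ring
          _ ≤ 2 ^ (4 * r + 4) * Y1 := mul_le_mul_of_nonneg_left hY hp2.le
      calc (Y : ℝ) * (Real.log X) ^ (4 * (r + 1) + 4) =
            (Y : ℝ) * (Real.log X) ^ (4 * r + 4) * (Real.log X) ^ 4 := by ring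
        _ ≤ 2 ^ (4 * r + 4) * Y1 * (Real.log X) ^ 4 :=
            mul_le_mul_of_nonneg_right h6 (by positivity)
        _ ≤ 2 ^ (4 * r + 4) * (X / (Real.log X) ^ 5) * (Real.log X) ^ 4 := by gcongr
        _ = X * (2 ^ (4 * r + 4) / Real.log X) := by
            field_simp
        _ ≤ X * 1 := by
            refine mul_le_mul_of_nonneg_left ?_ hXp.le
            rw [div_le_one hL0]
            linarith
        _ = X := mul_one _
    · have k1 := decAt_mono (by linarith) (show C2 ≤ C1 + 1 + C2 by omega) (hX2 X b2)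
      have k2 := decAt_mono (by linarith) (show C1 + 1 ≤ C1 + 1 + C2 by omega) hs
      refine decAt_congr (decAt_add hL4 k1 k2) fun n _ => ?_
      show pYX Y X n = pI X n + if n ≤ Y1 then pYX Y Y1 n else 0
      rw [pI_eq n (by unfold X5; positivity)]
      unfold pYX
      by_cases hp : n.Prime
      · rcases le_or_gt n Y1 with h5 | h5
        · rw [if_neg (fun h : n.Prime ∧ Y1 < n ∧ n ≤ X => not_lt.2 h5 h.2.1), if_pos h5, zero_add]
          have h6 : n ≤ X := h5.trans n3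
          simp [hp, h5, h6]
        · have h6 : Y < n := lt_of_le_of_lt hYY h5
          rw [if_neg (not_le.2 h5), add_zero]
          by_cases h7 : n ≤ X
          · rw [if_pos ⟨hp, h6, h7⟩, if_pos ⟨hp, h5, h7⟩]
          · rw [if_neg (fun h => h7 h.2.2), if_neg (fun h => h7 h.2.2)]
      · rw [if_neg (fun h => hp h.1), if_neg (fun h => hp h.1)]
        split_ifs with h5 h6
        · exact absurd h6.1 hp
        · simp
        · simp

/-- the primes in `[z, X]` -/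
theorem dec_wP (B : ℕ) : ∃ C : ℕ, ∀ α β : ℝ, 0 < α → α + 1 / 10 < β → 2 * α < β → 1 / 3 < β →
    β < 1 / 2 → DecG α β B C (fun X n => if n.Prime ∧ zt X ≤ n then 1 else 0) := by
  obtain ⟨C, hC⟩ := dec_scales B (B + 1)
  refine ⟨C, fun α β h0 h1 h1' h2 h3 => ?_⟩
  obtain ⟨X1, hX1⟩ := hC α β h0 h1 h1' h2 h3
  obtain ⟨X2, hX2⟩ := pr_log_ge 4
  obtain ⟨X3, hX3⟩ := pr_logpow (9 / 10) (by norm_num) (B + 2)
  refine ⟨max X1 (max X2 X3), fun X hX => ?_⟩
  simp only [max_le_iff] at hX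
  obtain ⟨b1, b2, b3⟩ := hX
  obtain ⟨Y, hY, hdY⟩ := hX1 X b1
  obtain ⟨g1, g2⟩ := hX2 X b2
  have g3 := hX3 X b3
  have hXr : (1 : ℝ) ≤ X := by exact_mod_cast g1
  have hXp : (0 : ℝ) < X := by linarith
  have hL0 : 0 < Real.log (X : ℝ) := by linarith
  refine decAt_err g2 hdY ?_
  have hz : (zt X : ℝ) ≤ 2 * (X : ℝ) ^ (1 / 10 : ℝ) := by
    have h3 : (zt X : ℝ) < (X : ℝ) ^ (1 / 10 : ℝ) + 1 := Nat.ceil_lt_add_one (by positivity)
    have h4 : (1 : ℝ) ≤ (X : ℝ) ^ (1 / 10 : ℝ) := Real.one_le_rpow hXr (by norm_num)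
    linarith
  have hz2 : (zt X : ℝ) * (Real.log X) ^ (B + 2) ≤ X := by
    calc (zt X : ℝ) * (Real.log X) ^ (B + 2) ≤ 2 * (X : ℝ) ^ (1 / 10 : ℝ) *
          (Real.log X) ^ (B + 2) := mul_le_mul_of_nonneg_right hz (by positivity)
      _ ≤ (X : ℝ) ^ (1 / 10 : ℝ) * (4 * (Real.log X) ^ (B + 2)) := by
          have : 0 ≤ (X : ℝ) ^ (1 / 10 : ℝ) * (Real.log X) ^ (B + 2) := by positivity
          linarith
      _ ≤ (X : ℝ) ^ (1 / 10 : ℝ) * (X : ℝ) ^ (9 / 10 : ℝ) :=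
          mul_le_mul_of_nonneg_left g3 (by positivity)
      _ = X := by
          rw [← Real.rpow_add hXp]
          norm_num
  have hY2 : (Y : ℝ) * (Real.log X) ^ (B + 2) ≤ X := by
    refine le_trans (mul_le_mul_of_nonneg_left ?_ (Nat.cast_nonneg _)) hY
    exact pow_le_pow_right₀ (by linarith) (by omega)
  have h5 : ∀ n ∈ Icc 1 X, ((if n.Prime ∧ zt X ≤ n then (1 : ℝ) else 0) - pYX Y X n) ^ 2 ≤
      if n ∈ Icc 1 (Y + zt X) then 1 else 0 := by
    intro n hn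
    rw [Finset.mem_Icc] at hn
    unfold pYX
    by_cases h6 : n ≤ Y + zt X
    · rw [if_pos (Finset.mem_Icc.2 ⟨hn.1, h6⟩)]
      split_ifs <;> norm_num
    · rw [if_neg (fun h7 => h6 (Finset.mem_Icc.1 h7).2)]
      by_cases hp : n.Prime
      · rw [if_pos ⟨hp, by omega⟩, if_pos ⟨hp, by omega, hn.2⟩]
        norm_num
      · rw [if_neg (fun h => hp h.1), if_neg (fun h => hp h.1)]
        norm_num
  refine (Finset.sum_le_sum h5).trans ?_
  have h6 : ∑ n ∈ Icc 1 X, (if n ∈ Icc 1 (Y + zt X) then (1 : ℝ) else 0) ≤ Y + zt X := by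
    rw [← Finset.sum_filter, Finset.filter_mem_eq_inter, Finset.sum_const, nsmul_eq_mul, mul_one]
    have h7 : (Icc 1 X ∩ Icc 1 (Y + zt X)).card ≤ (Icc 1 (Y + zt X)).card :=
      Finset.card_le_card Finset.inter_subset_right
    rw [Nat.card_Icc, Nat.add_sub_cancel] at h7
    exact_mod_cast h7
  refine h6.trans ?_
  rw [le_div_iff₀ (by positivity)]
  have h8 : (Y + zt X : ℝ) * (Real.log X) ^ (B + 1) * Real.log X ≤ 2 * X := by
    calc (Y + zt X : ℝ) * (Real.log X) ^ (B + 1) * Real.log X =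
          (Y : ℝ) * (Real.log X) ^ (B + 2) + (zt X : ℝ) * (Real.log X) ^ (B + 2) := by ring
      _ ≤ 2 * X := by linarith
  have h9 : (Y + zt X : ℝ) * (Real.log X) ^ (B + 1) * 4 ≤
      (Y + zt X : ℝ) * (Real.log X) ^ (B + 1) * Real.log X :=
    mul_le_mul_of_nonneg_left g2 (by positivity)
  linarith

end Pool.MP_dd84fd_nt.IY
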