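import Pool.Agent.Lib.MP_dd84fd_nt.IY.CBx
import Pool.Agent.Lib.MP_dd84fd_nt.HX.MnA
import Pool.Agent.Lib.MP_dd84fd_nt.E2.ConvRough
import Pool.Agent.Lib.MP_dd84fd_nt.E2.FBound
import Pool.Agent.Lib.MP_dd84fd_nt.E2.SingRate
import Pool.Agent.Lib.MP_dd84fd_nt.En.Sing

/-!
# IY-CMn (0.8 h): the main term

Proof. For `m, n - m` in `(X5, X]` (`log > 0`): `gr m gr (n-m) - ge m ge (n-m) ≥ ((13/20)² - (7/20)²)/(log m log (n-m)) = (3/10)/(log m log(n-m))`; otherwise both products are `0`. Multiply by `f1 m f1 (n-m) ≥ 0` and sum: the left side is at least `(3/10)(conv2 w n - 2 Σ_{m ≤ X5} f2 m f2 (n-m))`.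
`Σ_{m ≤ X5} f2 m f2 (n-m) ≤ 4 Σ_{m ≤ ⌊X5⌋} f1 m f1 (n-m) ≤ 4 (X5 SW w n + X^(1-η))` (`conv_rough`, `log ≥ 1/2`, `f2 w 1 = 0`), `SW w n ≤ SS n + 1` (`sing_rate`), `SS n ≥ 2 C2 > 0` (`SS_ge`), so it is `≤ C SS n X/L^5`. `conv2 ≥ SS JJ - X/L^12` (`conv2_ss`). `JJ n ≥ n/(8 L²)`,
`n > X/2`: all errors are `≤ (1/1000) SS JJ` for large `X`.
-/

set_option autoImplicit false

namespace Pool.MP_dd84fd_nt.IY

open Finset Pool.MP_67663b_nt.Odd Pool.MP_dd84fd_nt.En Pool.MP_dd84fd_nt.E2 Pool.MP_dd84fd_nt.HX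

theorem JJ_ge : ∃ X0 : ℕ, ∀ X : ℕ, X0 ≤ X → ∀ n : ℕ, X < 2 * n → n ≤ X →
    (n : ℝ) / (8 * (Real.log X) ^ 2) ≤ JJ n := by
  refine ⟨16, fun X hX n hn hnX => ?_⟩
  have hn8 : 8 < n := by omega
  have hL0 : 0 < Real.log X := Real.log_pos (by exact_mod_cast (by omega : 1 < X))
  have h1 : ∀ m ∈ Icc 2 (n - 2), 1 / (Real.log X) ^ 2 ≤
      1 / (Real.log (m : ℝ) * Real.log ((n - m : ℕ) : ℝ)) := by
    intro m hm
    rw [Finset.mem_Icc] at hm
    have h2 : 0 < Real.log (m : ℝ) := Real.log_pos (by exact_mod_cast (by omega : 1 < m))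
    have h3 : 0 < Real.log ((n - m : ℕ) : ℝ) :=
      Real.log_pos (by exact_mod_cast (by omega : 1 < n - m))
    have h4 : Real.log (m : ℝ) ≤ Real.log X :=
      Real.log_le_log (by exact_mod_cast (by omega : 0 < m)) (by exact_mod_cast (by omega : m ≤ X))
    have h5 : Real.log ((n - m : ℕ) : ℝ) ≤ Real.log X :=
      Real.log_le_log (by exact_mod_cast (by omega : 0 < n - m))
        (by exact_mod_cast (by omega : n - m ≤ X))
    refine one_div_le_one_div_of_le (mul_pos h2 h3) ?_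
    rw [sq]
    exact mul_le_mul h4 h5 h3.le hL0.le
  have h2 := Finset.sum_le_sum h1
  rw [Finset.sum_const, Nat.card_Icc, nsmul_eq_mul] at h2
  refine le_trans ?_ h2
  have h3 : (n : ℝ) / 8 ≤ ((n - 2 + 1 - 2 : ℕ) : ℝ) := by
    have h4 : n ≤ 8 * (n - 2 + 1 - 2) := by omega
    have h5 : (n : ℝ) ≤ 8 * ((n - 2 + 1 - 2 : ℕ) : ℝ) := by exact_mod_cast h4
    linarith
  have h4 : (n : ℝ) / (8 * (Real.log X) ^ 2) = (n : ℝ) / 8 * (1 / (Real.log X) ^ 2) := by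
    field_simp
  rw [h4]
  exact mul_le_mul_of_nonneg_right h3 (by positivity)

private theorem CMn_f2_nonneg (w n : ℕ) : 0 ≤ f2 w n :=
  div_nonneg (f1_nonneg w n) (Real.log_natCast_nonneg n)

private theorem CMn_f2_le (w n : ℕ) : f2 w n ≤ 2 * f1 w n := by
  have h0 := f1_nonneg w n
  unfold f2
  rcases Nat.lt_or_ge n 2 with h | h
  · have h1 : Real.log (n : ℝ) = 0 := by
      have : n = 0 ∨ n = 1 := by omega
      rcases this with rfl | rfl <;> simp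
    rw [h1, div_zero]
    positivity
  · have h2 : (1 / 2 : ℝ) ≤ Real.log (n : ℝ) := by
      have h3 : Real.log 2 ≤ Real.log (n : ℝ) :=
        Real.log_le_log (by norm_num) (by exact_mod_cast h)
      have := Real.log_two_gt_d9
      linarith
    rw [div_le_iff₀ (by linarith)]
    nlinarith

/-- the part with `m ≤ T` -/
private theorem CMn_low (w n t : ℕ) :
    ∑ m ∈ Icc 1 t, f2 w m * f2 w (n - m) ≤ 4 * ∑ m ∈ Icc 1 t, f1 w m * f1 w (n - m) := by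
  rw [Finset.mul_sum]
  refine Finset.sum_le_sum fun m _ => ?_
  have h1 := CMn_f2_le w m
  have h2 := CMn_f2_le w (n - m)
  calc f2 w m * f2 w (n - m) ≤ (2 * f1 w m) * (2 * f1 w (n - m)) :=
        mul_le_mul h1 h2 (CMn_f2_nonneg _ _) (by have := f1_nonneg w m; positivity)
    _ = 4 * (f1 w m * f1 w (n - m)) := by ring

/-- removing the small `m` and `n - m` -/
private theorem CMn_split (w n : ℕ) (Y : ℝ) (hY : 0 ≤ Y) (hYn : Y < n) :
    conv2 w n - 2 * ∑ m ∈ Icc 1 ⌊Y⌋₊, f2 w m * f2 w (n - m) ≤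
      ∑ m ∈ (Icc 1 (n - 1)).filter (fun m : ℕ => Y < m ∧ Y < ((n - m : ℕ) : ℝ)),
        f2 w m * f2 w (n - m) := by
  classical
  have h0 : ∀ m, 0 ≤ f2 w m * f2 w (n - m) := fun m =>
    mul_nonneg (CMn_f2_nonneg _ _) (CMn_f2_nonneg _ _)
  have h1 : conv2 w n = ∑ m ∈ (Icc 1 (n - 1)).filter (fun m : ℕ => Y < m ∧ Y < ((n - m : ℕ) : ℝ)),
        f2 w m * f2 w (n - m) +
      ∑ m ∈ (Icc 1 (n - 1)).filter (fun m : ℕ => ¬ (Y < m ∧ Y < ((n - m : ℕ) : ℝ))),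
        f2 w m * f2 w (n - m) := (Finset.sum_filter_add_sum_filter_not _ _ _).symm
  have h2 : (Icc 1 (n - 1)).filter (fun m : ℕ => ¬ (Y < m ∧ Y < ((n - m : ℕ) : ℝ))) ⊆
      (Icc 1 ⌊Y⌋₊) ∪ (Icc 1 ⌊Y⌋₊).image (fun m => n - m) := by
    intro m hm
    rw [Finset.mem_filter, Finset.mem_Icc] at hm
    obtain ⟨⟨h3, h4⟩, h5⟩ := hm
    rw [Finset.mem_union, Finset.mem_image]
    by_cases h6 : Y < m
    · right
      have h7 : ((n - m : ℕ) : ℝ) ≤ Y := by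
        by_contra h8
        exact h5 ⟨h6, not_le.1 h8⟩
      refine ⟨n - m, ?_, by omega⟩
      rw [Finset.mem_Icc]
      exact ⟨by omega, Nat.le_floor h7⟩
    · left
      rw [Finset.mem_Icc]
      exact ⟨h3, Nat.le_floor (not_lt.1 h6)⟩
  have hfl : ⌊Y⌋₊ < n := (Nat.floor_lt hY).2 hYn
  have h3 : ∑ m ∈ (Icc 1 ⌊Y⌋₊).image (fun m => n - m), f2 w m * f2 w (n - m) =
      ∑ m ∈ Icc 1 ⌊Y⌋₊, f2 w m * f2 w (n - m) := by
    rw [Finset.sum_image]
    · refine Finset.sum_congr rfl fun m hm => ?_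
      rw [Finset.mem_Icc] at hm
      have : n - (n - m) = m := by omega
      rw [this, mul_comm]
    · intro a ha b hb hab
      rw [Finset.mem_coe, Finset.mem_Icc] at ha hb
      have : n - a = n - b := hab
      omega
  have h4 := Finset.sum_le_sum_of_subset_of_nonneg h2 (f := fun m => f2 w m * f2 w (n - m))
    fun m _ _ => h0 m
  have h5 : ∑ m ∈ (Icc 1 ⌊Y⌋₊) ∪ (Icc 1 ⌊Y⌋₊).image (fun m => n - m), f2 w m * f2 w (n - m) ≤
      ∑ m ∈ Icc 1 ⌊Y⌋₊, f2 w m * f2 w (n - m) +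
        ∑ m ∈ (Icc 1 ⌊Y⌋₊).image (fun m => n - m), f2 w m * f2 w (n - m) := by
    have h6 := Finset.sum_union_inter (s₁ := Icc 1 ⌊Y⌋₊)
      (s₂ := (Icc 1 ⌊Y⌋₊).image (fun m => n - m)) (f := fun m => f2 w m * f2 w (n - m))
    have h7 : 0 ≤ ∑ m ∈ (Icc 1 ⌊Y⌋₊) ∩ (Icc 1 ⌊Y⌋₊).image (fun m => n - m),
        f2 w m * f2 w (n - m) := Finset.sum_nonneg fun m _ => h0 m
    linarith
  rw [h3] at h5
  linarith

/-- the pointwise lower bound -/
private theorem CMn_point (X w n : ℕ) (Y : ℝ) (hY : 1 ≤ Y) (hnX : n ≤ X) (gr ge : ℕ → ℝ)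
    (h1 : ∀ n : ℕ, Y < n → n ≤ X → 13 / 20 ≤ Real.log n * gr n ∧ 0 ≤ ge n ∧
      Real.log n * ge n ≤ 7 / 20)
    (h2 : ∀ n : ℕ, (n : ℝ) ≤ Y → gr n = 0 ∧ ge n = 0) :
    3 / 10 * ∑ m ∈ (Icc 1 (n - 1)).filter (fun m : ℕ => Y < m ∧ Y < ((n - m : ℕ) : ℝ)),
        f2 w m * f2 w (n - m) ≤
      cvv (fun m => gr m * f1 w m) (fun m => gr m * f1 w m) n -
        cvv (fun m => ge m * f1 w m) (fun m => ge m * f1 w m) n := by
  classical
  unfold cvv
  rw [← Finset.sum_sub_distrib, Finset.mul_sum]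
  have h3 : ∑ m ∈ Icc 1 (n - 1), (gr m * f1 w m * (gr (n - m) * f1 w (n - m)) -
      ge m * f1 w m * (ge (n - m) * f1 w (n - m))) =
      ∑ m ∈ (Icc 1 (n - 1)).filter (fun m : ℕ => Y < m ∧ Y < ((n - m : ℕ) : ℝ)),
        (gr m * f1 w m * (gr (n - m) * f1 w (n - m)) -
          ge m * f1 w m * (ge (n - m) * f1 w (n - m))) := by
    rw [Finset.sum_filter_of_ne]
    intro m _ hne
    by_contra hcon
    apply hne
    by_cases h4 : Y < m
    · have h5 : ((n - m : ℕ) : ℝ) ≤ Y := by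
        by_contra h8
        exact hcon ⟨h4, not_le.1 h8⟩
      rw [(h2 _ h5).1, (h2 _ h5).2]
      ring
    · rw [(h2 _ (not_lt.1 h4)).1, (h2 _ (not_lt.1 h4)).2]
      ring
  rw [h3]
  refine Finset.sum_le_sum fun m hm => ?_
  rw [Finset.mem_filter, Finset.mem_Icc] at hm
  obtain ⟨⟨h4, h5⟩, h6, h7⟩ := hm
  obtain ⟨a1, a2, a3⟩ := h1 m h6 (by omega)
  obtain ⟨b1, b2, b3⟩ := h1 (n - m) h7 (by omega)
  have hl1 : 0 < Real.log (m : ℝ) := Real.log_pos (by linarith)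
  have hl2 : 0 < Real.log ((n - m : ℕ) : ℝ) := Real.log_pos (by linarith)
  unfold f2
  have hf1 := f1_nonneg w m
  have hf2 := f1_nonneg w (n - m)
  set l1 := Real.log (m : ℝ) with hl1d
  set l2 := Real.log ((n - m : ℕ) : ℝ) with hl2d
  have hprod : 3 / 10 ≤ (l1 * gr m) * (l2 * gr (n - m)) - (l1 * ge m) * (l2 * ge (n - m)) := by
    have c1 : (13 / 20 : ℝ) * (13 / 20) ≤ (l1 * gr m) * (l2 * gr (n - m)) :=
      mul_le_mul a1 b1 (by norm_num) (by linarith)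
    have c2 : (l1 * ge m) * (l2 * ge (n - m)) ≤ (7 / 20 : ℝ) * (7 / 20) :=
      mul_le_mul a3 b3 (mul_nonneg hl2.le b2) (by norm_num)
    linarith
  have hd : 3 / 10 / (l1 * l2) ≤ gr m * gr (n - m) - ge m * ge (n - m) := by
    rw [div_le_iff₀ (mul_pos hl1 hl2)]
    linarith
  calc 3 / 10 * (f1 w m / l1 * (f1 w (n - m) / l2)) =
        3 / 10 / (l1 * l2) * (f1 w m * f1 w (n - m)) := by
        field_simp
    _ ≤ (gr m * gr (n - m) - ge m * ge (n - m)) * (f1 w m * f1 w (n - m)) :=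
        mul_le_mul_of_nonneg_right hd (mul_nonneg hf1 hf2)
    _ = _ := by ring

/-- the numerical estimate -/
private theorem CMn_num {c X L S J Y P E Z : ℝ} (hc : 0 < c) (hX : 0 < X) (hL : 1 ≤ L)
    (hS : c ≤ S) (hJ : X / (16 * L ^ 2) ≤ J) (hY : Y ≤ X / L ^ 5) (hY0 : 0 ≤ Y)
    (hE : E ≤ X / L ^ 12) (hP : 3840 / c * L ^ 2 * P ≤ X)
    (hL1 : 3840 * (1 + 1 / c) ≤ L) (hL2 : 480 / c ≤ L)
    (hZ : Z ≤ 4 * (Y * (S + 1) + P)) :
    27 / 100 * (S * J) ≤ 3 / 10 * ((S * J - E) - 2 * Z) := by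
  have hL0 : 0 < L := by linarith
  have hS0 : 0 < S := lt_of_lt_of_le hc hS
  have hSJ : S * (X / (16 * L ^ 2)) ≤ S * J := mul_le_mul_of_nonneg_left hJ hS0.le
  have hU : 0 < X / (16 * L ^ 2) := by positivity
  -- P
  have h1 : 8 * P ≤ 1 / 30 * (S * (X / (16 * L ^ 2))) := by
    have h2 : 1 / 30 * (c * (X / (16 * L ^ 2))) ≤ 1 / 30 * (S * (X / (16 * L ^ 2))) := by
      gcongr
    refine le_trans ?_ h2
    have h3 : 1 / 30 * (c * (X / (16 * L ^ 2))) = X / (480 / c * L ^ 2) := by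
      field_simp
      norm_num
    rw [h3, le_div_iff₀ (by positivity)]
    have h4 : 3840 / c * L ^ 2 * P = 8 * P * (480 / c * L ^ 2) := by
      ring
    linarith
  -- E
  have h2 : E ≤ 1 / 30 * (S * (X / (16 * L ^ 2))) := by
    have h3 : 1 / 30 * (c * (X / (16 * L ^ 2))) ≤ 1 / 30 * (S * (X / (16 * L ^ 2))) := by
      gcongr
    refine hE.trans (le_trans ?_ h3)
    have h4 : 1 / 30 * (c * (X / (16 * L ^ 2))) = X / (480 / c * L ^ 2) := by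
      field_simp
      norm_num
    rw [h4]
    refine div_le_div_of_nonneg_left hX.le (by positivity) ?_
    calc 480 / c * L ^ 2 ≤ L * L ^ 2 := by gcongr
      _ = L ^ 3 := by ring
      _ ≤ L ^ 12 := pow_le_pow_right₀ hL (by norm_num)
  -- Y
  have h3 : 8 * (Y * (S + 1)) ≤ 1 / 30 * (S * (X / (16 * L ^ 2))) := by
    have h4 : S + 1 ≤ S * (1 + 1 / c) := by
      have h5 : 1 ≤ S * (1 / c) := by
        rw [mul_one_div, le_div_iff₀ hc]
        linarith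
      linarith
    have h5 : 8 * (Y * (S + 1)) ≤ 8 * (X / L ^ 5 * (S * (1 + 1 / c))) := by
      have : 0 ≤ S + 1 := by linarith
      gcongr
    refine h5.trans ?_
    have h6 : (3840 * (1 + 1 / c)) * (X / (480 * L ^ 5)) ≤ L ^ 3 * (X / (480 * L ^ 5)) := by
      have h7 : L ≤ L ^ 3 := by
        calc L = L ^ 1 := (pow_one L).symm
          _ ≤ L ^ 3 := pow_le_pow_right₀ hL (by norm_num)
      have : 3840 * (1 + 1 / c) ≤ L ^ 3 := hL1.trans h7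
      gcongr
    have h7 : 8 * (X / L ^ 5 * (S * (1 + 1 / c))) =
        S * ((3840 * (1 + 1 / c)) * (X / (480 * L ^ 5))) := by
      field_simp
      norm_num
    have h8 : 1 / 30 * (S * (X / (16 * L ^ 2))) = S * (L ^ 3 * (X / (480 * L ^ 5))) := by
      field_simp
      norm_num
    rw [h7, h8]
    exact mul_le_mul_of_nonneg_left h6 hS0.le
  nlinarith

theorem main_i : ∃ D0 : ℕ, ∀ D' : ℕ, D0 ≤ D' → ∃ X0 : ℕ, ∀ X : ℕ, X0 ≤ X → ∀ gr ge : ℕ → ℝ,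
    (∀ n : ℕ, X5 X < n → n ≤ X → 13 / 20 ≤ Real.log n * gr n ∧ 0 ≤ ge n ∧
      Real.log n * ge n ≤ 7 / 20) →
    (∀ n : ℕ, (n : ℝ) ≤ X5 X → gr n = 0 ∧ ge n = 0) → ∀ n : ℕ, X < 2 * n → n ≤ X → Even n →
    27 / 100 * (SS n * JJ n) ≤ cvv (fun m => gr m * f1 (wX D' X) m) (fun m => gr m * f1 (wX D' X) m) n -
      cvv (fun m => ge m * f1 (wX D' X) m) (fun m => ge m * f1 (wX D' X) m) n := by
  obtain ⟨Cs, hCs0, hCs⟩ := sing_rate
  obtain ⟨D1, hD1, hconv⟩ := conv2_ss 12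
  refine ⟨max D1 4, fun D' hD' => ?_⟩
  have hD'1 : D1 ≤ D' := (le_max_left _ _).trans hD'
  have hD'4 : 4 ≤ D' := (le_max_right _ _).trans hD'
  obtain ⟨X1, hX1⟩ := hconv D' hD'1
  obtain ⟨η, hη0, hη1, X2, hX2⟩ := conv_rough D' (by omega)
  obtain ⟨X3, hX3⟩ := JJ_ge
  set c : ℝ := 2 * C2 with hc
  have hc0 : 0 < c := by have := C2_pos; positivity
  obtain ⟨X4, hX4⟩ := MP_log_pow (3840 / c) 2 hη0
  obtain ⟨X5', hX5'⟩ := MP_log_large (3840 * (1 + 1 / c) + 480 / c + 8 * Cs + 32)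
  obtain ⟨X6, hX6⟩ := X5_ge
  refine ⟨max (max (max X1 X2) (max X3 X4)) (max (max X5' X6) 16),
    fun X hX gr ge hg1 hg2 n hn hnX hne => ?_⟩
  simp only [max_le_iff] at hX
  obtain ⟨⟨⟨hXX1, hXX2⟩, hXX3, hXX4⟩, ⟨hXX5, hXX6⟩, hX16⟩ := hX
  have hX0 : (0 : ℝ) < X := by exact_mod_cast (by omega : 0 < X)
  have hn0 : 0 < n := by omega
  have hLL := hX5' X hXX5
  have hpow := hX4 X hXX4
  obtain ⟨hz, hX5X⟩ := hX6 X hXX6
  set L := Real.log X with hL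
  have e1 : 0 < 1 / c := by positivity
  have e2 : 0 < 480 / c := by positivity
  have hL32 : 32 ≤ L := by nlinarith
  have hL1 : 1 ≤ L := by linarith
  have hL0 : 0 < L := by linarith
  set w : ℕ := wX D' X with hw
  have hwle : (w : ℝ) ≤ L ^ D' := Nat.floor_le (pow_nonneg hL0.le _)
  have hwlt : L ^ D' < (w : ℝ) + 1 := Nat.lt_floor_add_one _
  have hLD : L ^ 4 ≤ L ^ D' := pow_le_pow_right₀ hL1 hD'4
  have hL4 : 32 * L ^ 3 ≤ L ^ 4 := by
    have : L ^ 4 = L * L ^ 3 := by ring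
    rw [this]
    gcongr
  have hL31 : L ≤ L ^ 3 := by
    calc L = L ^ 1 := (pow_one L).symm
      _ ≤ L ^ 3 := pow_le_pow_right₀ hL1 (by norm_num)
  have hL3' : L ^ 3 = L * L ^ 2 := by ring
  have hw3 : L ^ 3 ≤ w := by nlinarith
  have hwL : 8 * L ≤ w := by nlinarith
  have hwN : 2 ≤ w := by
    have : (2 : ℝ) ≤ w := by linarith
    exact_mod_cast this
  have hw0 : (0 : ℝ) < w := by linarith
  have hnr : (n : ℝ) ≤ X := by exact_mod_cast hnX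
  have hn1r : (1 : ℝ) ≤ n := by exact_mod_cast hn0
  have hlogn : Real.log n ≤ L := Real.log_le_log (by linarith) hnr
  have hlogn0 : 0 ≤ Real.log n := Real.log_nonneg hn1r
  -- singular series
  have h1 : |SS n - SW w n| ≤ Cs * (1 + Real.log n) ^ 2 / w := hCs n hn0 w (by linarith)
  have h2 : Cs * (1 + Real.log n) ^ 2 / w ≤ 1 := by
    rw [div_le_one hw0]
    have h5 : (1 + Real.log n) ^ 2 ≤ (2 * L) ^ 2 :=
      pow_le_pow_left₀ (by linarith) (by linarith) 2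
    calc Cs * (1 + Real.log n) ^ 2 ≤ Cs * (2 * L) ^ 2 := by gcongr
      _ = 4 * Cs * L ^ 2 := by ring
      _ ≤ L * L ^ 2 := by
          have : 4 * Cs ≤ L := by nlinarith
          gcongr
      _ = L ^ 3 := by ring
      _ ≤ w := hw3
  have h3 : SW w n ≤ SS n + 1 := by
    have := (abs_le.1 (h1.trans h2)).1
    linarith
  -- the low part
  have hzt : (1 : ℝ) ≤ X5 X := by
    have : (0 : ℝ) ≤ (zt X : ℝ) := Nat.cast_nonneg _
    linarith
  have hX5n : X5 X < n := by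
    have h4 : X5 X ≤ X / 4 := by
      unfold X5
      rw [← hL]
      refine div_le_div_of_nonneg_left hX0.le (by norm_num) ?_
      calc (4 : ℝ) ≤ L := by linarith
        _ = L ^ 1 := (pow_one L).symm
        _ ≤ L ^ 5 := pow_le_pow_right₀ hL1 (by norm_num)
    have h5 : (X : ℝ) < 2 * n := by exact_mod_cast hn
    linarith
  have hfl : ⌊X5 X⌋₊ < n := (Nat.floor_lt (by linarith)).2 hX5n
  have h4 := hX2 X hXX2 w hwN hwle n hnX hne hn0 ⌊X5 X⌋₊ hfl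
  have h5 := CMn_low w n ⌊X5 X⌋₊
  have h6 : (⌊X5 X⌋₊ : ℝ) ≤ X5 X := Nat.floor_le (by linarith)
  have hSS : c ≤ SS n := SS_ge n
  have h7 : ∑ m ∈ Icc 1 ⌊X5 X⌋₊, f2 w m * f2 w (n - m) ≤
      4 * (X5 X * (SS n + 1) + (X : ℝ) ^ (1 - η)) := by
    refine h5.trans ?_
    have h8 := (abs_le.1 h4).2
    have h9 : (⌊X5 X⌋₊ : ℝ) * SW w n ≤ X5 X * (SS n + 1) := by
      calc (⌊X5 X⌋₊ : ℝ) * SW w n ≤ (⌊X5 X⌋₊ : ℝ) * (SS n + 1) :=
            mul_le_mul_of_nonneg_left h3 (Nat.cast_nonneg _)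
        _ ≤ X5 X * (SS n + 1) := mul_le_mul_of_nonneg_right h6 (by linarith)
    linarith
  have h8 := CMn_split w n (X5 X) (by linarith) hX5n
  have h9 := CMn_point X w n (X5 X) hzt hnX gr ge hg1 hg2
  have h10 := (abs_le.1 (hX1 X hXX1 n hn0 hnX hne)).1
  have h11 : X / (16 * L ^ 2) ≤ JJ n := by
    refine le_trans ?_ (hX3 X hXX3 n hn hnX)
    rw [div_le_div_iff₀ (by positivity) (by positivity)]
    have h5 : (X : ℝ) < 2 * n := by exact_mod_cast hn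
    have h12 : 0 < L ^ 2 := by positivity
    nlinarith
  have h12 : 3840 / c * L ^ 2 * (X : ℝ) ^ (1 - η) ≤ X := by
    calc 3840 / c * L ^ 2 * (X : ℝ) ^ (1 - η) ≤ (X : ℝ) ^ η * (X : ℝ) ^ (1 - η) :=
          mul_le_mul_of_nonneg_right hpow (Real.rpow_nonneg hX0.le _)
      _ = X := by rw [← Real.rpow_add hX0]; norm_num
  have h13 := CMn_num (c := c) (X := X) (L := L) (S := SS n) (J := JJ n) (Y := X5 X)
    (P := (X : ℝ) ^ (1 - η)) (E := X / L ^ 12)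
    (Z := ∑ m ∈ Icc 1 ⌊X5 X⌋₊, f2 w m * f2 w (n - m)) hc0 hX0 hL1 hSS h11 le_rfl (by linarith)
    le_rfl h12 (by nlinarith) (by nlinarith) h7
  refine h13.trans (le_trans ?_ h9)
  refine mul_le_mul_of_nonneg_left (le_trans ?_ h8) (by norm_num)
  have h14 : SS n * JJ n - X / L ^ 12 ≤ conv2 w n := by linarith
  linarith

end Pool.MP_dd84fd_nt.IY
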