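import Pool.Agent.Lib.MP_dd84fd_nt.IY.CMo

/-!
# IY-CCg (0.6 h): the densities times `f1` in residue classes

Proof. `Σ_{n ≤ t, n ≡ c} gty n f1 n = Σ_{k ≤ X} Σ_j vj j k Σ_{n ≤ t, n ≡ c, X5 < n, ub j ≤ n/k < ub (j+1)} f1 n/(k log(n/k))` (`gty`, `vty_eq` with `m = n/k ≤ X`), and `mo_class` with `s = X5 X`, `a = ub j ≥ z`, `b = ub (j+1)`: `X5/k = s/k`. Error `≤ Σ_{k ≤ X} NJ K0 X^(1-η)/k ≤ K0 (L^(B'+1) + 1)(L + 1) X^(1-η) ≤ X/L^A`
(`MP_log_pow`).
-/

set_option autoImplicit false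

namespace Pool.MP_dd84fd_nt.IY

open Finset Pool.MP_67663b_nt.Odd Pool.MP_dd84fd_nt.En Pool.MP_dd84fd_nt.E2 Pool.MP_dd84fd_nt.HX

private theorem ccg_inv_sum (X : ℕ) : ∑ q ∈ Icc 1 X, (1 : ℝ) / q ≤ 1 + Real.log X := by
  have h := harmonic_le_one_add_log X
  have h2 : ((harmonic X : ℚ) : ℝ) = ∑ q ∈ Icc 1 X, (1 : ℝ) / q := by
    rw [harmonic_eq_sum_Icc]
    push_cast
    exact Finset.sum_congr rfl fun q _ => by rw [one_div]
  rw [← h2]
  exact h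

private theorem ccg_vj_le (κ : ℝ) (z : ℕ) (W : Finset ℕ → ℝ) (K0 : ℝ) (hW : ∀ T, |W T| ≤ K0)
    (j k : ℕ) : |vj κ z W j k| ≤ K0 := by
  unfold vj
  split_ifs
  · exact hW _
  · rw [abs_zero]
    exact (abs_nonneg _).trans (hW ∅)

private theorem ccg_term (κ : ℝ) (X : ℕ) (W : Finset ℕ → ℝ) (J : ℕ)
    (hv : ∀ (m : ℝ) (k : ℕ), m ≤ X → vty κ (zt X) W m k = ∑ j ∈ range J,
      vj κ (zt X) W j k * ind (ub κ (zt X) j ≤ m ∧ m < ub κ (zt X) (j + 1)))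
    (g : ℕ → ℝ) (n : ℕ) (hn : n ≤ X) :
    gty κ X W n * g n = ∑ k ∈ Icc 1 X, ∑ j ∈ range J, vj κ (zt X) W j k *
      (open Classical in if X5 X < n ∧ ub κ (zt X) j ≤ (n : ℝ) / k ∧
        (n : ℝ) / k < ub κ (zt X) (j + 1) then
        g n / ((k : ℝ) * Real.log ((n : ℝ) / k)) else 0) := by
  classical
  have hnX : (n : ℝ) ≤ X := by exact_mod_cast hn
  by_cases h : X5 X < n
  · unfold gty
    rw [if_pos ⟨h, hn⟩, Finset.sum_mul]
    refine Finset.sum_congr rfl fun k hk => ?_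
    have hk1 : (1 : ℝ) ≤ k := by exact_mod_cast (mem_Icc.1 hk).1
    have hm : (n : ℝ) / k ≤ X := (div_le_self (Nat.cast_nonneg n) hk1).trans hnX
    rw [hv _ k hm, Finset.sum_div, Finset.sum_mul]
    refine Finset.sum_congr rfl fun j _ => ?_
    unfold ind
    by_cases h2 : ub κ (zt X) j ≤ (n : ℝ) / k ∧ (n : ℝ) / k < ub κ (zt X) (j + 1)
    · rw [if_pos h2, if_pos ⟨h, h2.1, h2.2⟩]
      ring
    · rw [if_neg h2, if_neg (fun h3 => h2 ⟨h3.2.1, h3.2.2⟩)]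
      ring
  · unfold gty
    rw [if_neg (fun h2 => h h2.1), zero_mul, eq_comm]
    refine Finset.sum_eq_zero fun k _ => Finset.sum_eq_zero fun j _ => ?_
    rw [if_neg (fun h3 => h h3.1), mul_zero]

theorem cg_class (A B B' D' : ℕ) (hD : 1 ≤ D') (hB : B ≤ D') (K0 : ℝ) : ∃ X0 : ℕ, ∀ X : ℕ,
    X0 ≤ X → ∀ W : Finset ℕ → ℝ, (∀ T, |W T| ≤ K0) → ∀ q c t : ℕ, 1 ≤ q →
    (q : ℝ) ≤ (Real.log X) ^ B → Nat.Coprime c q → t ≤ X →
    |∑ n ∈ (Icc 1 t).filter (fun n => n ≡ c [MOD q]), gty (kp B' X) X W n * f1 (wX D' X) n -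
      mt B' X W t / (Nat.totient q : ℝ)| ≤ X / (Real.log X) ^ A := by
  classical
  obtain ⟨η, hη, X1, h1⟩ := mo_class D' B hD hB
  obtain ⟨X2, h2⟩ := vty_eq B'
  obtain ⟨X3, h3⟩ := X5_ge
  obtain ⟨X4, h4⟩ := MP_log_large 1
  obtain ⟨X6, h6⟩ := MP_log_pow (4 * |K0|) (B' + 2 + A) hη
  refine ⟨max (max (max X1 X2) (max X3 X4)) (max X6 1), fun X hX W hW q c t hq hqL hc ht => ?_⟩
  have hX1 : X1 ≤ X := (le_max_left _ _).trans ((le_max_left _ _).trans ((le_max_left _ _).trans hX))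
  have hX2 : X2 ≤ X := (le_max_right _ _).trans ((le_max_left _ _).trans ((le_max_left _ _).trans hX))
  have hX3 : X3 ≤ X := (le_max_left _ _).trans ((le_max_right _ _).trans ((le_max_left _ _).trans hX))
  have hX4 : X4 ≤ X := (le_max_right _ _).trans ((le_max_right _ _).trans ((le_max_left _ _).trans hX))
  have hX6 : X6 ≤ X := (le_max_left _ _).trans ((le_max_right _ _).trans hX)
  have hXone : 1 ≤ X := (le_max_right _ _).trans ((le_max_right _ _).trans hX)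
  have hX0 : (0 : ℝ) < X := by exact_mod_cast hXone
  set L : ℝ := Real.log X with hL
  have hL1 : 1 ≤ L := h4 X hX4
  have hL0 : 0 < L := by linarith
  have hK0 : 0 ≤ K0 := (abs_nonneg _).trans (hW ∅)
  have hs0 : 0 ≤ X5 X := by
    have := (h3 X hX3).1
    have hz : (0 : ℝ) ≤ zt X := Nat.cast_nonneg _
    linarith
  have hκ : 0 ≤ kp B' X := by
    unfold kp
    positivity
  have hub : ∀ j, (zt X : ℝ) ≤ ub (kp B' X) (zt X) j := by
    intro j
    unfold ub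
    have he : 1 ≤ Real.exp (kp B' X * j) := Real.one_le_exp (mul_nonneg hκ (Nat.cast_nonneg _))
    exact le_mul_of_one_le_right (Nat.cast_nonneg _) he
  -- the exchange of the sums
  have hexp : ∑ n ∈ (Icc 1 t).filter (fun n => n ≡ c [MOD q]), gty (kp B' X) X W n * f1 (wX D' X) n =
      ∑ k ∈ Icc 1 X, ∑ j ∈ range (NJ B' X), vj (kp B' X) (zt X) W j k *
        ∑ n ∈ (Icc 1 t).filter (fun n : ℕ => n ≡ c [MOD q] ∧ X5 X < (n : ℝ) ∧
          ub (kp B' X) (zt X) j ≤ (n : ℝ) / k ∧ (n : ℝ) / k < ub (kp B' X) (zt X) (j + 1)),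
          f1 (wX D' X) n / ((k : ℝ) * Real.log ((n : ℝ) / k)) := by
    have e1 : ∀ n ∈ (Icc 1 t).filter (fun n => n ≡ c [MOD q]),
        gty (kp B' X) X W n * f1 (wX D' X) n =
        ∑ k ∈ Icc 1 X, ∑ j ∈ range (NJ B' X), vj (kp B' X) (zt X) W j k *
          (if X5 X < n ∧ ub (kp B' X) (zt X) j ≤ (n : ℝ) / k ∧
            (n : ℝ) / k < ub (kp B' X) (zt X) (j + 1) then
            f1 (wX D' X) n / ((k : ℝ) * Real.log ((n : ℝ) / k)) else 0) := by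
      intro n hn
      rw [mem_filter, mem_Icc] at hn
      exact ccg_term (kp B' X) X W (NJ B' X) (h2 X hX2 W) (f1 (wX D' X)) n (hn.1.2.trans ht)
    rw [Finset.sum_congr rfl e1, Finset.sum_comm]
    refine Finset.sum_congr rfl fun k _ => ?_
    rw [Finset.sum_comm]
    refine Finset.sum_congr rfl fun j _ => ?_
    rw [← Finset.mul_sum, ← Finset.sum_filter, Finset.filter_filter]
  have hmt : mt B' X W t / (Nat.totient q : ℝ) =
      ∑ k ∈ Icc 1 X, ∑ j ∈ range (NJ B' X), vj (kp B' X) (zt X) W j k *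
        (li (max (ub (kp B' X) (zt X) j) (X5 X / k)) (min (ub (kp B' X) (zt X) (j + 1)) ((t : ℝ) / k)) /
          (Nat.totient q : ℝ)) := by
    unfold mt
    rw [Finset.sum_div]
    refine Finset.sum_congr rfl fun k _ => ?_
    rw [Finset.sum_div]
    refine Finset.sum_congr rfl fun j _ => ?_
    rw [mul_div_assoc]
  have hbound : ∀ k ∈ Icc 1 X, ∀ j ∈ range (NJ B' X),
      |vj (kp B' X) (zt X) W j k *
        (∑ n ∈ (Icc 1 t).filter (fun n : ℕ => n ≡ c [MOD q] ∧ X5 X < (n : ℝ) ∧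
          ub (kp B' X) (zt X) j ≤ (n : ℝ) / k ∧ (n : ℝ) / k < ub (kp B' X) (zt X) (j + 1)),
          f1 (wX D' X) n / ((k : ℝ) * Real.log ((n : ℝ) / k)) -
        li (max (ub (kp B' X) (zt X) j) (X5 X / k)) (min (ub (kp B' X) (zt X) (j + 1)) ((t : ℝ) / k)) /
          (Nat.totient q : ℝ))| ≤ K0 * ((X : ℝ) ^ (1 - η) / k) := by
    intro k hk j _
    rw [abs_mul]
    refine mul_le_mul (ccg_vj_le _ _ W K0 hW j k) ?_ (abs_nonneg _) hK0
    exact h1 X hX1 q c hq hqL hc t k (X5 X) (ub (kp B' X) (zt X) j) (ub (kp B' X) (zt X) (j + 1))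
      (by exact_mod_cast ht) (mem_Icc.1 hk).1 hs0 (hub j)
  have hNJ : ((NJ B' X : ℕ) : ℝ) ≤ 2 * L ^ (B' + 1) := by
    unfold NJ
    push_cast
    have hp : 1 ≤ L ^ (B' + 1) := one_le_pow₀ hL1
    have hf : ((⌊L ^ (B' + 1)⌋₊ : ℕ) : ℝ) ≤ L ^ (B' + 1) := Nat.floor_le (by positivity)
    linarith
  have hXη : 0 < (X : ℝ) ^ (1 - η) := Real.rpow_pos_of_pos hX0 _
  rw [hexp, hmt, ← Finset.sum_sub_distrib]
  calc |∑ k ∈ Icc 1 X, (∑ j ∈ range (NJ B' X), vj (kp B' X) (zt X) W j k *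
        ∑ n ∈ (Icc 1 t).filter (fun n : ℕ => n ≡ c [MOD q] ∧ X5 X < (n : ℝ) ∧
          ub (kp B' X) (zt X) j ≤ (n : ℝ) / k ∧ (n : ℝ) / k < ub (kp B' X) (zt X) (j + 1)),
          f1 (wX D' X) n / ((k : ℝ) * Real.log ((n : ℝ) / k)) -
      ∑ j ∈ range (NJ B' X), vj (kp B' X) (zt X) W j k *
        (li (max (ub (kp B' X) (zt X) j) (X5 X / k)) (min (ub (kp B' X) (zt X) (j + 1)) ((t : ℝ) / k)) /
          (Nat.totient q : ℝ)))|
      ≤ ∑ k ∈ Icc 1 X, ∑ j ∈ range (NJ B' X), K0 * ((X : ℝ) ^ (1 - η) / k) := by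
        refine (Finset.abs_sum_le_sum_abs _ _).trans (Finset.sum_le_sum fun k hk => ?_)
        rw [← Finset.sum_sub_distrib]
        refine (Finset.abs_sum_le_sum_abs _ _).trans (Finset.sum_le_sum fun j hj => ?_)
        rw [← mul_sub]
        exact hbound k hk j hj
    _ = (NJ B' X : ℝ) * K0 * (X : ℝ) ^ (1 - η) * ∑ k ∈ Icc 1 X, (1 : ℝ) / k := by
        rw [Finset.mul_sum]
        refine Finset.sum_congr rfl fun k _ => ?_
        rw [Finset.sum_const, card_range, nsmul_eq_mul]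
        ring
    _ ≤ (2 * L ^ (B' + 1)) * K0 * (X : ℝ) ^ (1 - η) * (1 + L) := by
        refine mul_le_mul ?_ (ccg_inv_sum X) (Finset.sum_nonneg fun k _ => by positivity)
          (by positivity)
        exact mul_le_mul_of_nonneg_right (mul_le_mul_of_nonneg_right hNJ hK0) hXη.le
    _ ≤ (2 * L ^ (B' + 1)) * K0 * (X : ℝ) ^ (1 - η) * (2 * L) :=
        mul_le_mul_of_nonneg_left (by linarith) (by positivity)
    _ ≤ X / L ^ A := by
        rw [le_div_iff₀ (by positivity)]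
        have h7 := h6 X hX6
        rw [abs_of_nonneg hK0] at h7
        calc (2 * L ^ (B' + 1)) * K0 * (X : ℝ) ^ (1 - η) * (2 * L) * L ^ A
            = (X : ℝ) ^ (1 - η) * (4 * K0 * L ^ (B' + 2 + A)) := by ring
          _ ≤ (X : ℝ) ^ (1 - η) * (X : ℝ) ^ η := mul_le_mul_of_nonneg_left h7 hXη.le
          _ = X := by
              rw [← Real.rpow_add hX0, sub_add_cancel, Real.rpow_one]

end Pool.MP_dd84fd_nt.IY
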