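import Pool.Agent.Lib.MP_dd84fd_nt.IY.CDefs
import Pool.Agent.Lib.MP_dd84fd_nt.E2.MinorP

/-!
# IY-CBx (0.5 h): boxes

Proof. `bx κ z m = ⌊log(m/z)/κ⌋₊`, `m ≥ z ≥ 1`: `log(m/z) ≥ 0`, `bx = j ↔ κ j ≤ log(m/z) < κ (j+1) ↔ z e^(κ j) ≤ m < z e^(κ (j+1))` (`Nat.floor_eq_iff`). `bx_lt`: `log(m/z)/κ ≤ log X · (log X)^B'` for `z ≤ m ≤ X`.
`vty_eq`: for `m < z` both sides are `0` (`ub κ z j ≥ z`); otherwise only `j = bx κ z m` contributes. `zt_ge`: `⌈X^(1/10)⌉`; `zt_log`: `log z ≥ (log X)/8`. `X5_ge`: `X/L^5 ≥ zt X + 1`, `X5 X > 1` for large `X` (`MP_log_pow`).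
-/

set_option autoImplicit false

namespace Pool.MP_dd84fd_nt.IY

open Finset Pool.MP_67663b_nt.Odd Pool.MP_dd84fd_nt.En Pool.MP_dd84fd_nt.E2 Pool.MP_dd84fd_nt.HX

theorem bx_iff {κ : ℝ} (hκ : 0 < κ) {z : ℕ} (hz : 1 ≤ z) {m : ℝ} (hm : (z : ℝ) ≤ m) (j : ℕ) :
    bx κ z m = j ↔ ub κ z j ≤ m ∧ m < ub κ z (j + 1) := by
  have hz0 : (0 : ℝ) < z := by exact_mod_cast hz
  have hmz : (0 : ℝ) < m / z := div_pos (hz0.trans_le hm) hz0
  have h1 : 1 ≤ m / z := by rwa [le_div_iff₀ hz0, one_mul]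
  have hlog : 0 ≤ Real.log (m / z) := Real.log_nonneg h1
  have ha : 0 ≤ Real.log (m / z) / κ := div_nonneg hlog hκ.le
  unfold bx ub
  rw [Nat.floor_eq_iff ha, le_div_iff₀ hκ, div_lt_iff₀ hκ, Real.le_log_iff_exp_le hmz,
    Real.log_lt_iff_lt_exp hmz, le_div_iff₀ hz0, div_lt_iff₀ hz0, mul_comm (j : ℝ) κ,
    mul_comm ((j : ℝ) + 1) κ, mul_comm (Real.exp (κ * j)) (z : ℝ),
    mul_comm (Real.exp (κ * (j + 1))) (z : ℝ)]
  push_cast
  exact Iff.rfl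

theorem zt_ge (X : ℕ) : (X : ℝ) ^ (1 / 10 : ℝ) ≤ zt X := Nat.le_ceil _

private lemma CBx_zt_one {X : ℕ} (hX : 1 ≤ X) : 1 ≤ zt X := by
  have h1 : (1 : ℝ) ≤ (X : ℝ) ^ (1 / 10 : ℝ) :=
    Real.one_le_rpow (by exact_mod_cast hX) (by norm_num)
  have h2 : (1 : ℝ) ≤ zt X := h1.trans (zt_ge X)
  exact_mod_cast h2

theorem bx_lt (B' : ℕ) : ∃ X0 : ℕ, ∀ X : ℕ, X0 ≤ X → ∀ m : ℝ, (zt X : ℝ) ≤ m → m ≤ X →
    bx (kp B' X) (zt X) m < NJ B' X := by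
  obtain ⟨X1, hX1⟩ := MP_log_large 1
  refine ⟨max X1 1, fun X hX m hm hmX => ?_⟩
  have hL : 1 ≤ Real.log X := hX1 X ((le_max_left _ _).trans hX)
  have hX1' : 1 ≤ X := (le_max_right _ _).trans hX
  have hz : 1 ≤ zt X := CBx_zt_one hX1'
  have hz1 : (1 : ℝ) ≤ zt X := by exact_mod_cast hz
  have hz0 : (0 : ℝ) < zt X := by linarith
  have hLp : 0 < (Real.log X) ^ B' := pow_pos (by linarith) _
  unfold bx NJ kp
  rw [Nat.lt_succ_iff]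
  apply Nat.floor_le_floor
  rw [div_div_eq_mul_div, div_one, pow_succ, mul_comm]
  apply mul_le_mul_of_nonneg_left _ hLp.le
  apply Real.log_le_log (div_pos (by linarith) hz0)
  rw [div_le_iff₀ hz0]
  have hX0 : (0 : ℝ) ≤ X := Nat.cast_nonneg _
  nlinarith

theorem vty_eq (B' : ℕ) : ∃ X0 : ℕ, ∀ X : ℕ, X0 ≤ X → ∀ (W : Finset ℕ → ℝ) (m : ℝ) (k : ℕ),
    m ≤ X → vty (kp B' X) (zt X) W m k = ∑ j ∈ range (NJ B' X),
      vj (kp B' X) (zt X) W j k *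
        ind (ub (kp B' X) (zt X) j ≤ m ∧ m < ub (kp B' X) (zt X) (j + 1)) := by
  classical
  obtain ⟨X1, hX1⟩ := MP_log_large 1
  obtain ⟨X2, hX2⟩ := bx_lt B'
  refine ⟨max (max X1 X2) 1, fun X hX W m k hmX => ?_⟩
  have hL : 1 ≤ Real.log X := hX1 X ((le_max_left _ _).trans ((le_max_left _ _).trans hX))
  have hX1' : 1 ≤ X := (le_max_right _ _).trans hX
  have hz : 1 ≤ zt X := CBx_zt_one hX1'
  have hz0 : (0 : ℝ) < zt X := by exact_mod_cast hz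
  have hκ : 0 < kp B' X := by
    unfold kp
    exact one_div_pos.mpr (pow_pos (by linarith) _)
  by_cases hm : (zt X : ℝ) ≤ m
  · have hbx := hX2 X ((le_max_right _ _).trans ((le_max_left _ _).trans hX)) m hm hmX
    rw [Finset.sum_eq_single (bx (kp B' X) (zt X) m)]
    · have h1 : ub (kp B' X) (zt X) (bx (kp B' X) (zt X) m) ≤ m ∧
          m < ub (kp B' X) (zt X) (bx (kp B' X) (zt X) m + 1) :=
        (bx_iff hκ hz hm _).mp rfl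
      unfold ind vty vj
      rw [if_pos h1, mul_one]
      by_cases hS : Simp (kp B' X) (zt X) k ∧
          ∀ j ∈ ty (kp B' X) (zt X) k, j < bx (kp B' X) (zt X) m
      · rw [if_pos ⟨hS.1, hm, hS.2⟩, if_pos hS]
      · rw [if_neg (fun h => hS ⟨h.1, h.2.2⟩), if_neg hS]
    · intro j _ hj
      have h1 : ¬ (ub (kp B' X) (zt X) j ≤ m ∧ m < ub (kp B' X) (zt X) (j + 1)) :=
        fun h => hj ((bx_iff hκ hz hm j).mpr h).symm
      unfold ind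
      rw [if_neg h1, mul_zero]
    · intro h
      exact absurd (Finset.mem_range.mpr hbx) h
  · have h0 : vty (kp B' X) (zt X) W m k = 0 := by
      unfold vty
      rw [if_neg (fun h => hm h.2.1)]
    rw [h0, eq_comm]
    apply Finset.sum_eq_zero
    intro j _
    have h1 : ¬ (ub (kp B' X) (zt X) j ≤ m ∧ m < ub (kp B' X) (zt X) (j + 1)) := by
      intro h
      apply hm
      refine le_trans ?_ h.1
      unfold ub
      have h2 : 1 ≤ Real.exp (kp B' X * j) :=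
        Real.one_le_exp (mul_nonneg hκ.le (Nat.cast_nonneg _))
      nlinarith
    unfold ind
    rw [if_neg h1, mul_zero]

theorem zt_log : ∃ X0 : ℕ, ∀ X : ℕ, X0 ≤ X → 2 ≤ zt X ∧ Real.log X / 10 ≤ Real.log (zt X) := by
  refine ⟨1024, fun X hX => ?_⟩
  have hX' : (1024 : ℝ) ≤ X := by exact_mod_cast hX
  have hX0 : (0 : ℝ) < X := by linarith
  have h2 : (2 : ℝ) ≤ (X : ℝ) ^ (1 / 10 : ℝ) := by
    have h3 : (2 : ℝ) = (1024 : ℝ) ^ (1 / 10 : ℝ) := by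
      rw [show (1024 : ℝ) = 2 ^ (10 : ℝ) by norm_num, ← Real.rpow_mul (by norm_num)]
      norm_num
    rw [h3]
    exact Real.rpow_le_rpow (by norm_num) hX' (by norm_num)
  have h4 := zt_ge X
  refine ⟨by exact_mod_cast h2.trans h4, ?_⟩
  have h5 : Real.log ((X : ℝ) ^ (1 / 10 : ℝ)) ≤ Real.log (zt X) :=
    Real.log_le_log (by linarith) h4
  rw [Real.log_rpow hX0] at h5
  linarith

theorem X5_ge : ∃ X0 : ℕ, ∀ X : ℕ, X0 ≤ X → (zt X : ℝ) + 1 ≤ X5 X ∧ X5 X ≤ X := by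
  obtain ⟨X1, hX1⟩ := MP_log_large 1
  obtain ⟨X2, hX2⟩ := MP_log_pow 3 5 (show (0 : ℝ) < 1 / 2 by norm_num)
  refine ⟨max (max X1 X2) 1, fun X hX => ?_⟩
  have hL : 1 ≤ Real.log X := hX1 X ((le_max_left _ _).trans ((le_max_left _ _).trans hX))
  have hP := hX2 X ((le_max_right _ _).trans ((le_max_left _ _).trans hX))
  have hX1' : (1 : ℝ) ≤ X := by exact_mod_cast (le_max_right _ _).trans hX
  have hX0 : (0 : ℝ) < X := by linarith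
  have hL5 : 1 ≤ (Real.log X) ^ 5 := one_le_pow₀ hL
  have hL50 : 0 < (Real.log X) ^ 5 := by linarith
  unfold X5
  refine ⟨?_, div_le_self hX0.le hL5⟩
  rw [le_div_iff₀ hL50]
  have h1 : (1 : ℝ) ≤ (X : ℝ) ^ (1 / 10 : ℝ) := Real.one_le_rpow hX1' (by norm_num)
  have h2 : (zt X : ℝ) < (X : ℝ) ^ (1 / 10 : ℝ) + 1 := Nat.ceil_lt_add_one (by linarith)
  have h3 : (zt X : ℝ) + 1 ≤ 3 * (X : ℝ) ^ (1 / 10 : ℝ) := by linarith
  calc ((zt X : ℝ) + 1) * (Real.log X) ^ 5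
      ≤ (3 * (X : ℝ) ^ (1 / 10 : ℝ)) * (Real.log X) ^ 5 :=
        mul_le_mul_of_nonneg_right h3 hL50.le
    _ = (X : ℝ) ^ (1 / 10 : ℝ) * (3 * (Real.log X) ^ 5) := by ring
    _ ≤ (X : ℝ) ^ (1 / 10 : ℝ) * (X : ℝ) ^ (1 / 2 : ℝ) :=
        mul_le_mul_of_nonneg_left hP (by linarith)
    _ = (X : ℝ) ^ (3 / 5 : ℝ) := by
        rw [← Real.rpow_add hX0]
        norm_num
    _ ≤ (X : ℝ) ^ (1 : ℝ) := Real.rpow_le_rpow_of_exponent_le hX1' (by norm_num)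
    _ = X := Real.rpow_one _

end Pool.MP_dd84fd_nt.IY
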