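import Pool.Agent.Lib.MP_dd84fd_nt.IY.CLi
import Pool.Agent.Lib.MP_dd84fd_nt.IY.CBx
import Pool.Agent.Lib.MP_dd84fd_nt.E2.PiSW

/-!
# IY-CPr (0.8 h): primes in intervals in residue classes

Proof. `z = zt X`, `α = max a s`, `β = min b Y`. The primes counted lie in `[α, β]` and differ from those in `(⌊α⌋, ⌊β⌋]` by at most two (end points). If `β ≤ α`: at most one prime, and `li = 0` or `li α α = 0`. Otherwise `α ≥ z`, `⌊α⌋, ⌊β⌋ ≤ Y`.
`pi_sw (A' := A + 1) (B := B + 1)` at the scale `X' = ⌊Y⌋` (`log X' ≥ L/10` for `Y ≥ z`; `q ≤ L^B ≤ (log X')^(B+1)`): `|π(t; q, c) - Li t/φ(q)| ≤ Y 10^(A+1)/L^(A+1)`, `t = ⌊α⌋, ⌊β⌋`. `Li ⌊β⌋ - Li ⌊α⌋ = Σ_{⌊α⌋ < m ≤ ⌊β⌋} 1/log m`, `li_sum`, `li_lip`: `li α β + O(6)`.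
All constants are `≤ Y/(2 L^A)` since `Y ≥ X^(1/10)` and `X` is large.
-/

set_option autoImplicit false

namespace Pool.MP_dd84fd_nt.IY

open Finset Pool.MP_67663b_nt.Odd Pool.MP_dd84fd_nt.En Pool.MP_dd84fd_nt.E2 Pool.MP_dd84fd_nt.HX

private theorem pr_count (q c : ℕ) (Y s a b : ℝ) (ha : 0 ≤ a) (hY : 0 ≤ Y) :
    (max a s ≤ min b Y →
    |(((Icc 1 ⌊Y⌋₊).filter (fun p : ℕ => p.Prime ∧ p ≡ c [MOD q] ∧ s < (p : ℝ) ∧ a ≤ (p : ℝ) ∧
        (p : ℝ) < b)).card : ℝ) -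
      ((((Icc 1 ⌊min b Y⌋₊).filter (fun n : ℕ => n.Prime ∧ n ≡ c [MOD q])).card : ℝ) -
        (((Icc 1 ⌊max a s⌋₊).filter (fun n : ℕ => n.Prime ∧ n ≡ c [MOD q])).card : ℝ))| ≤ 1) ∧
    (¬ max a s ≤ min b Y → (((Icc 1 ⌊Y⌋₊).filter (fun p : ℕ => p.Prime ∧ p ≡ c [MOD q] ∧
      s < (p : ℝ) ∧ a ≤ (p : ℝ) ∧ (p : ℝ) < b)).card : ℝ) = 0) := by
  classical
  refine ⟨fun hab => ?_, fun hab => ?_⟩
  · set α := max a s with hα
    set β := min b Y with hβ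
    have haα : a ≤ α := le_max_left _ _
    have hsα : s ≤ α := le_max_right _ _
    have hβb : β ≤ b := min_le_left _ _
    have hβY : β ≤ Y := min_le_right _ _
    have hα0 : 0 ≤ α := ha.trans haα
    have hβ0 : 0 ≤ β := hα0.trans hab
    have hN : ⌊α⌋₊ ≤ ⌊β⌋₊ := Nat.floor_le_floor hab
    have hNY : ⌊β⌋₊ ≤ ⌊Y⌋₊ := Nat.floor_le_floor hβY
    set S := (Icc 1 ⌊Y⌋₊).filter (fun p : ℕ => p.Prime ∧ p ≡ c [MOD q] ∧ s < (p : ℝ) ∧
      a ≤ (p : ℝ) ∧ (p : ℝ) < b) with hS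
    set S2 := (Icc 1 ⌊β⌋₊).filter (fun n : ℕ => n.Prime ∧ n ≡ c [MOD q]) with hS2
    set S1 := (Icc 1 ⌊α⌋₊).filter (fun n : ℕ => n.Prime ∧ n ≡ c [MOD q]) with hS1
    have e1 : S2 ⊆ insert ⌊β⌋₊ (S ∪ S1) := by
      intro p hp
      rw [hS2, mem_filter, mem_Icc] at hp
      obtain ⟨⟨p1, p2⟩, p3, p4⟩ := hp
      rw [mem_insert, mem_union]
      by_cases h1 : p ≤ ⌊α⌋₊
      · right; right
        rw [hS1, mem_filter, mem_Icc]
        exact ⟨⟨p1, h1⟩, p3, p4⟩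
      · by_cases h2 : p = ⌊β⌋₊
        · left; exact h2
        · right; left
          have h3 : α < p := by
            have := (Nat.floor_lt hα0).1 (not_le.1 h1)
            exact this
          have h4 : (p : ℝ) < β := by
            have h5 : p + 1 ≤ ⌊β⌋₊ := by omega
            have h6 := (Nat.le_floor_iff hβ0).1 h5
            push_cast at h6
            linarith
          rw [hS, mem_filter, mem_Icc]
          exact ⟨⟨p1, p2.trans hNY⟩, p3, p4, by linarith, by linarith, by linarith⟩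
    have e2 : S ∪ S1.erase ⌊α⌋₊ ⊆ S2 := by
      intro p hp
      rw [mem_union] at hp
      rw [hS2, mem_filter, mem_Icc]
      rcases hp with hp | hp
      · rw [hS, mem_filter, mem_Icc] at hp
        obtain ⟨⟨p1, p2⟩, p3, p4, p5, p6, p7⟩ := hp
        have h5 : (p : ℝ) ≤ Y := (Nat.le_floor_iff hY).1 p2
        exact ⟨⟨p1, Nat.le_floor (le_min p7.le h5)⟩, p3, p4⟩
      · have hp := mem_of_mem_erase hp
        rw [hS1, mem_filter, mem_Icc] at hp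
        exact ⟨⟨hp.1.1, hp.1.2.trans hN⟩, hp.2⟩
    have e3 : Disjoint S (S1.erase ⌊α⌋₊) := by
      rw [disjoint_left]
      intro p hp hp'
      rw [mem_erase, hS1, mem_filter, mem_Icc] at hp'
      rw [hS, mem_filter, mem_Icc] at hp
      obtain ⟨⟨p1, p2⟩, p3, p4, p5, p6, p7⟩ := hp
      obtain ⟨q1, ⟨q2, q3⟩, q4⟩ := hp'
      have h5 : α ≤ p := max_le p6 p5.le
      have h6 := Nat.floor_le_floor h5
      rw [Nat.floor_natCast] at h6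
      omega
    have f1 : S2.card ≤ S.card + S1.card + 1 :=
      (card_le_card e1).trans ((card_insert_le _ _).trans (by
        have := card_union_le S S1
        omega))
    have f2 : S.card + S1.card ≤ S2.card + 1 := by
      have h1 := card_le_card e2
      rw [card_union_of_disjoint e3] at h1
      have h2 := pred_card_le_card_erase (s := S1) (a := ⌊α⌋₊)
      omega
    have f1' : (S2.card : ℝ) ≤ S.card + S1.card + 1 := by exact_mod_cast f1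
    have f2' : (S.card : ℝ) + S1.card ≤ S2.card + 1 := by exact_mod_cast f2
    rw [abs_le]
    constructor <;> linarith
  · rw [Nat.cast_eq_zero, card_eq_zero, filter_eq_empty_iff]
    rintro p hp ⟨p3, p4, p5, p6, p7⟩
    rw [mem_Icc] at hp
    have h5 : (p : ℝ) ≤ Y := (Nat.le_floor_iff hY).1 hp.2
    apply hab
    exact (max_le p6 p5.le).trans (le_min p7.le h5)

theorem pr_class (A B : ℕ) : ∃ X0 : ℕ, ∀ X : ℕ, X0 ≤ X → ∀ q c : ℕ, 1 ≤ q →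
    (q : ℝ) ≤ (Real.log X) ^ B → Nat.Coprime c q → ∀ Y s a b : ℝ, (zt X : ℝ) ≤ Y → Y ≤ X →
    (zt X : ℝ) ≤ a →
    |(((Icc 1 ⌊Y⌋₊).filter (fun p : ℕ => p.Prime ∧ p ≡ c [MOD q] ∧ s < (p : ℝ) ∧ a ≤ (p : ℝ) ∧
        (p : ℝ) < b)).card : ℝ) - li (max a s) (min b Y) / (Nat.totient q : ℝ)| ≤
      Y / (Real.log X) ^ A := by
  classical
  obtain ⟨X1, hX1⟩ := pi_sw (A + 1) (B + 1)
  obtain ⟨X2, hX2⟩ := zt_log
  obtain ⟨X3, hX3⟩ := MP_log_pow 14 A (ε := 1 / 10) (by norm_num)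
  have hloglim : Filter.Tendsto (fun X : ℕ => Real.log (X : ℝ)) Filter.atTop Filter.atTop :=
    Real.tendsto_log_atTop.comp tendsto_natCast_atTop_atTop
  obtain ⟨X4, hX4⟩ := Filter.eventually_atTop.1
    ((hloglim.eventually_ge_atTop ((10 : ℝ) ^ (B + 1))).and
      (hloglim.eventually_ge_atTop (4 * (10 : ℝ) ^ (A + 1))))
  refine ⟨max (max X1 X2) (max (max X3 X4) (X1 ^ 10 + 3)), fun X hX q c hq hqB hc Y s a b hY hYX ha => ?_⟩
  have hXX1 : X1 ≤ X := ((le_max_left _ _).trans (le_max_left _ _)).trans hX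
  obtain ⟨hz2, hzL⟩ := hX2 X (((le_max_right _ _).trans (le_max_left _ _)).trans hX)
  have h14 := hX3 X ((((le_max_left _ _).trans (le_max_left _ _)).trans (le_max_right _ _)).trans hX)
  obtain ⟨hL1, hL2⟩ :=
    hX4 X ((((le_max_right _ _).trans (le_max_left _ _)).trans (le_max_right _ _)).trans hX)
  have hXbig : X1 ^ 10 + 3 ≤ X := ((le_max_right _ _).trans (le_max_right _ _)).trans hX
  set L := Real.log (X : ℝ) with hL
  have hzt := zt_ge X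
  have hLpos : 0 < L := lt_of_lt_of_le (by positivity) hL2
  have hz2' : (2 : ℝ) ≤ zt X := by exact_mod_cast hz2
  have hY0 : 0 ≤ Y := by linarith
  have ha0 : 0 ≤ a := by linarith
  have hφ : (1 : ℝ) ≤ (Nat.totient q : ℝ) := by
    exact_mod_cast Nat.totient_pos.2 (by omega)
  have hφ0 : (0 : ℝ) < (Nat.totient q : ℝ) := by linarith
  obtain ⟨hc1, hc2⟩ := pr_count q c Y s a b ha0 hY0
  by_cases hab : max a s ≤ min b Y
  · have h0 := hc1 hab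
    set α := max a s with hα
    set β := min b Y with hβ
    have haα : a ≤ α := le_max_left _ _
    have hβY : β ≤ Y := min_le_right _ _
    have hα2 : 2 ≤ α := by linarith
    have hβ2 : 2 ≤ β := hα2.trans hab
    have hN : ⌊α⌋₊ ≤ ⌊β⌋₊ := Nat.floor_le_floor hab
    have hNY : ⌊β⌋₊ ≤ ⌊Y⌋₊ := Nat.floor_le_floor hβY
    have hN1 : 2 ≤ ⌊α⌋₊ := Nat.le_floor (by exact_mod_cast hα2)
    have hN2 : 2 ≤ ⌊β⌋₊ := hN1.trans hN
    have hzY : zt X ≤ ⌊Y⌋₊ := Nat.le_floor hY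
    have hX1z : X1 ≤ ⌊Y⌋₊ := by
      refine le_trans ?_ hzY
      have h1 : (X1 : ℝ) ≤ zt X := by
        refine le_trans ?_ hzt
        have h2 : ((X1 : ℝ) ^ 10) ≤ X := by
          have h3 : X1 ^ 10 ≤ X := by omega
          exact_mod_cast h3
        have h3 : (X1 : ℝ) = ((X1 : ℝ) ^ 10) ^ (1 / 10 : ℝ) := by
          rw [← Real.rpow_natCast, ← Real.rpow_mul (Nat.cast_nonneg _)]
          norm_num
        rw [h3]
        exact Real.rpow_le_rpow (by positivity) h2 (by norm_num)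
      exact_mod_cast h1
    have hlogY : L / 10 ≤ Real.log (⌊Y⌋₊ : ℝ) := by
      refine hzL.trans (Real.log_le_log (by linarith) ?_)
      exact_mod_cast hzY
    have hlogY0 : 0 < Real.log (⌊Y⌋₊ : ℝ) := lt_of_lt_of_le (by positivity) hlogY
    have hqB' : (q : ℝ) ≤ (Real.log (⌊Y⌋₊ : ℝ)) ^ (B + 1) := by
      refine hqB.trans ?_
      have h1 : (L / 10) ^ (B + 1) ≤ (Real.log (⌊Y⌋₊ : ℝ)) ^ (B + 1) :=
        pow_le_pow_left₀ (by positivity) hlogY _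
      refine le_trans ?_ h1
      rw [div_pow, le_div_iff₀ (by positivity), pow_succ L B]
      exact mul_le_mul_of_nonneg_left hL1 (by positivity)
    have hpi : ∀ t : ℕ, t ≤ ⌊Y⌋₊ →
        |(((Icc 1 t).filter (fun n => n.Prime ∧ n ≡ c [MOD q])).card : ℝ) -
          Li t / (Nat.totient q : ℝ)| ≤ Y * 10 ^ (A + 1) / L ^ (A + 1) := by
      intro t ht
      refine (hX1 ⌊Y⌋₊ hX1z q c hq hqB' hc t ht).trans ?_
      rw [div_le_div_iff₀ (by positivity) (by positivity)]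
      have h1 : (L / 10) ^ (A + 1) ≤ (Real.log (⌊Y⌋₊ : ℝ)) ^ (A + 1) :=
        pow_le_pow_left₀ (by positivity) hlogY _
      have h2 : (⌊Y⌋₊ : ℝ) ≤ Y := Nat.floor_le hY0
      have h3 : L ^ (A + 1) ≤ 10 ^ (A + 1) * (Real.log (⌊Y⌋₊ : ℝ)) ^ (A + 1) := by
        rw [div_pow, div_le_iff₀ (by positivity)] at h1
        linarith
      calc (⌊Y⌋₊ : ℝ) * L ^ (A + 1) ≤ Y * (10 ^ (A + 1) * (Real.log (⌊Y⌋₊ : ℝ)) ^ (A + 1)) :=
            mul_le_mul h2 h3 (by positivity) hY0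
        _ = Y * 10 ^ (A + 1) * (Real.log (⌊Y⌋₊ : ℝ)) ^ (A + 1) := by ring
    have p1 := hpi ⌊α⌋₊ (hN.trans hNY)
    have p2 := hpi ⌊β⌋₊ hNY
    have hLi : Li ⌊β⌋₊ - Li ⌊α⌋₊ = ∑ m ∈ Ioc ⌊α⌋₊ ⌊β⌋₊, 1 / Real.log (m : ℝ) := by
      unfold Li
      have h1 : Icc 2 ⌊β⌋₊ = Icc 2 ⌊α⌋₊ ∪ Ioc ⌊α⌋₊ ⌊β⌋₊ := by
        ext m; simp only [mem_union, mem_Icc, mem_Ioc]; omega
      have h2 : Disjoint (Icc 2 ⌊α⌋₊) (Ioc ⌊α⌋₊ ⌊β⌋₊) := by
        rw [disjoint_left]; intro m; simp only [mem_Icc, mem_Ioc]; omega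
      rw [h1, sum_union h2]; ring
    have p3 := li_sum ⌊α⌋₊ ⌊β⌋₊ hN1 hN
    rw [← hLi] at p3
    have p4 := li_lip (⌊α⌋₊ : ℝ) α (⌊β⌋₊ : ℝ) β (by exact_mod_cast hN1) hα2
      (by exact_mod_cast hN2) hβ2
    have p5 : |(⌊α⌋₊ : ℝ) - α| ≤ 1 := by
      rw [abs_le]
      have h1 := Nat.floor_le (show 0 ≤ α by linarith)
      have h2 := Nat.lt_floor_add_one α
      constructor <;> linarith
    have p6 : |(⌊β⌋₊ : ℝ) - β| ≤ 1 := by
      rw [abs_le]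
      have h1 := Nat.floor_le (show 0 ≤ β by linarith)
      have h2 := Nat.lt_floor_add_one β
      constructor <;> linarith
    have p7 : |(Li ⌊β⌋₊ - Li ⌊α⌋₊) - li α β| ≤ 6 := by
      have h1 : (Li ⌊β⌋₊ - Li ⌊α⌋₊) - li α β =
        (Li ⌊β⌋₊ - Li ⌊α⌋₊ - li (⌊α⌋₊ : ℝ) (⌊β⌋₊ : ℝ)) + (li (⌊α⌋₊ : ℝ) (⌊β⌋₊ : ℝ) - li α β) := by ring
      rw [h1]
      refine (abs_add_le _ _).trans ?_
      linarith
    have p8 : |(Li ⌊β⌋₊ - Li ⌊α⌋₊) / (Nat.totient q : ℝ) - li α β / (Nat.totient q : ℝ)| ≤ 6 := by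
      rw [← sub_div, abs_div, abs_of_pos hφ0, div_le_iff₀ hφ0]
      nlinarith
    set cS := (((Icc 1 ⌊Y⌋₊).filter (fun p : ℕ => p.Prime ∧ p ≡ c [MOD q] ∧ s < (p : ℝ) ∧
      a ≤ (p : ℝ) ∧ (p : ℝ) < b)).card : ℝ) with hcS
    set c2 := (((Icc 1 ⌊β⌋₊).filter (fun n : ℕ => n.Prime ∧ n ≡ c [MOD q])).card : ℝ) with hc2'
    set c1 := (((Icc 1 ⌊α⌋₊).filter (fun n : ℕ => n.Prime ∧ n ≡ c [MOD q])).card : ℝ) with hc1'
    have p9 : |cS - li α β / (Nat.totient q : ℝ)| ≤ 7 + 2 * (Y * 10 ^ (A + 1) / L ^ (A + 1)) := by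
      have h1 : cS - li α β / (Nat.totient q : ℝ) = (cS - (c2 - c1)) +
        ((c2 - Li ⌊β⌋₊ / (Nat.totient q : ℝ)) - (c1 - Li ⌊α⌋₊ / (Nat.totient q : ℝ))) +
        ((Li ⌊β⌋₊ - Li ⌊α⌋₊) / (Nat.totient q : ℝ) - li α β / (Nat.totient q : ℝ)) := by
        rw [sub_div]; ring
      rw [h1]
      have h2 := abs_add_le ((cS - (c2 - c1)) +
        ((c2 - Li ⌊β⌋₊ / (Nat.totient q : ℝ)) - (c1 - Li ⌊α⌋₊ / (Nat.totient q : ℝ))))
        ((Li ⌊β⌋₊ - Li ⌊α⌋₊) / (Nat.totient q : ℝ) - li α β / (Nat.totient q : ℝ))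
      have h3 := abs_add_le (cS - (c2 - c1))
        ((c2 - Li ⌊β⌋₊ / (Nat.totient q : ℝ)) - (c1 - Li ⌊α⌋₊ / (Nat.totient q : ℝ)))
      have h4 := abs_sub (c2 - Li ⌊β⌋₊ / (Nat.totient q : ℝ))
        (c1 - Li ⌊α⌋₊ / (Nat.totient q : ℝ))
      linarith
    refine p9.trans ?_
    have q1 : 7 ≤ Y / L ^ A / 2 := by
      rw [div_div, le_div_iff₀ (by positivity)]
      linarith
    have q2 : 2 * (Y * 10 ^ (A + 1) / L ^ (A + 1)) ≤ Y / L ^ A / 2 := by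
      rw [← mul_div_assoc, div_div, div_le_div_iff₀ (by positivity) (by positivity), pow_succ L A]
      have h1 : Y * (L ^ A) * (4 * 10 ^ (A + 1)) ≤ Y * (L ^ A) * L :=
        mul_le_mul_of_nonneg_left hL2 (by positivity)
      nlinarith
    linarith
  · rw [hc2 hab]
    have h1 : li (max a s) (min b Y) = 0 := by
      unfold li; rw [if_neg hab]
    rw [h1, zero_div, sub_zero, abs_zero]
    positivity

end Pool.MP_dd84fd_nt.IY
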