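import Pool.Agent.Lib.MP_dd84fd_nt.IY.CWs
import Pool.Agent.Lib.MP_dd84fd_nt.IY.CPr

/-!
# IY-CCw (0.8 h): type functions in residue classes

Proof. `Σ_{n ≤ t, n ≡ c} wty n = Σ_{k ≤ X} Σ_{p prime, X5 < k p ≤ t, k p ≡ c} vty p k` (`wty_sum`, `n = k p`) `= Σ_k Σ_j vj j k #{p : p prime, k p ≡ c, X5/k < p ≤ t/k, ub j ≤ p < ub (j+1)}` (`vty_eq`). `vj j k = 0` unless `k` is simple, in particular rough: coprime to `q` (its prime factors are
`≥ zt X > L^B ≥ q`), choose `c'` with `k c' ≡ c`. `t/k < z`: the inner count is `0` and `li = 0` (`max ≥ ub j ≥ z > t/k ≥ min`; `li a b = 0` for `b < a`). `t/k ≥ z`: `pr_class (A'')` with `Y = t/k`, `s = X5/k`, `a = ub j ≥ z`, `b = ub (j+1)`: error `≤ K0 (X/k)/L^A''` for each of the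
`NJ ≤ L^(B'+1) + 1` boxes, `Σ_{k ≤ X} 1/k ≤ L + 1`. `A'' = A + B' + 4`.
-/

set_option autoImplicit false

namespace Pool.MP_dd84fd_nt.IY

open Finset Pool.MP_67663b_nt.Odd Pool.MP_dd84fd_nt.En Pool.MP_dd84fd_nt.E2 Pool.MP_dd84fd_nt.HX

private theorem cw_swap (X t q c : ℕ) (ht : t ≤ X) (s : ℝ) (F : ℕ → ℕ → ℝ) :
    ∑ n ∈ (Icc 1 t).filter (fun n => n ≡ c [MOD q]), (if s < (n : ℝ) then
      ∑ k ∈ n.divisors.filter (fun k => (n / k).Prime), F (n / k) k else 0) =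
    ∑ k ∈ Icc 1 X, ∑ p ∈ (Icc 1 (t / k)).filter (fun p => p.Prime ∧ k * p ≡ c [MOD q] ∧
      s < ((k * p : ℕ) : ℝ)), F p k := by
  classical
  rw [← sum_filter, filter_filter]
  rw [sum_comm' (t' := Icc 1 X) (s' := fun k => (Icc 1 t).filter (fun n => n ≡ c [MOD q] ∧
    s < (n : ℝ) ∧ k ∣ n ∧ (n / k).Prime))]
  · refine sum_congr rfl fun k hk => ?_
    rw [mem_Icc] at hk
    refine sum_nbij' (fun n => n / k) (fun p => k * p) ?_ ?_ ?_ ?_ ?_
    · intro n hn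
      simp only [mem_filter, mem_Icc] at hn ⊢
      obtain ⟨⟨h1, h2⟩, h3, h4, h5, h6⟩ := hn
      have h7 : k * (n / k) = n := Nat.mul_div_cancel' h5
      rw [h7]
      exact ⟨⟨h6.one_lt.le, Nat.div_le_div_right h2⟩, h6, h3, h4⟩
    · intro p hp
      simp only [mem_filter, mem_Icc] at hp ⊢
      obtain ⟨⟨h1, h2⟩, h3, h4, h5⟩ := hp
      have h6 : k * p ≤ t := by
        have h7 := (Nat.le_div_iff_mul_le (by omega)).1 h2
        rw [mul_comm]; exact h7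
      refine ⟨⟨Nat.mul_pos (by omega) (by omega), h6⟩, h4, h5, dvd_mul_right _ _, ?_⟩
      rw [Nat.mul_div_cancel_left _ (by omega)]
      exact h3
    · intro n hn
      simp only [mem_filter, mem_Icc] at hn
      exact Nat.mul_div_cancel' hn.2.2.2.1
    · intro p hp
      exact Nat.mul_div_cancel_left _ (by omega)
    · intro n hn
      rfl
  · intro n k
    simp only [mem_filter, mem_Icc, Nat.mem_divisors]
    constructor
    · rintro ⟨⟨⟨h1, h2⟩, h3, h4⟩, ⟨h5, h6⟩, h7⟩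
      have h8 := Nat.le_of_dvd (by omega) h5
      have h9 := Nat.pos_of_dvd_of_pos h5 (by omega)
      exact ⟨⟨⟨h1, h2⟩, h3, h4, h5, h7⟩, by omega, by omega⟩
    · rintro ⟨⟨⟨h1, h2⟩, h3, h4, h5, h7⟩, h8⟩
      exact ⟨⟨⟨h1, h2⟩, h3, h4⟩, ⟨h5, by omega⟩, h7⟩

private theorem cw_inv {q k c : ℕ} (hq : 1 ≤ q) (hk : Nat.Coprime k q) (hc : Nat.Coprime c q) :
    ∃ c' : ℕ, Nat.Coprime c' q ∧ ∀ p : ℕ, (k * p ≡ c [MOD q] ↔ p ≡ c' [MOD q]) := by
  have : NeZero q := ⟨by omega⟩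
  have h1 : IsUnit (k : ZMod q) := (ZMod.isUnit_iff_coprime k q).2 hk
  obtain ⟨u, hu⟩ := h1
  set c' : ℕ := (((u⁻¹ : (ZMod q)ˣ) : ZMod q) * (c : ZMod q)).val with hc'
  have h2 : ((c' : ℕ) : ZMod q) = ((u⁻¹ : (ZMod q)ˣ) : ZMod q) * (c : ZMod q) := by
    rw [hc', ZMod.natCast_val, ZMod.cast_id', id]
  have h3 : ((k * c' : ℕ) : ZMod q) = (c : ZMod q) := by
    rw [Nat.cast_mul, h2, ← hu, ← mul_assoc, Units.mul_inv, one_mul]
  have h4 : k * c' ≡ c [MOD q] := (ZMod.natCast_eq_natCast_iff _ _ _).1 h3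
  have h5 : Nat.Coprime (k * c') q := by
    have h6 := h4.gcd_eq
    rw [Nat.Coprime, h6]; exact hc
  refine ⟨c', Nat.Coprime.coprime_mul_left h5, fun p => ⟨fun h => ?_, fun h => ?_⟩⟩
  · have h6 : k * p ≡ k * c' [MOD q] := h.trans h4.symm
    exact Nat.ModEq.cancel_left_of_coprime (by rw [Nat.gcd_comm]; exact hk) h6
  · exact (h.mul_left k).trans h4

private theorem cw_harm (X : ℕ) : ∑ k ∈ Icc 1 X, 1 / (k : ℝ) ≤ 1 + Real.log X := by
  have h1 := harmonic_le_one_add_log X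
  rw [harmonic_eq_sum_Icc] at h1
  push_cast at h1
  simpa [one_div] using h1

private theorem cw_ind (S : Finset ℕ) (P : ℕ → Prop) [DecidablePred P] :
    ∑ i ∈ S, ind (P i) = ((S.filter P).card : ℝ) := by
  rw [card_filter]
  push_cast
  refine sum_congr rfl fun i _ => ?_
  unfold ind
  by_cases h : P i
  · rw [if_pos h, if_pos h]
  · rw [if_neg h, if_neg h]

theorem cw_class (A B B' : ℕ) (K0 : ℝ) : ∃ X0 : ℕ, ∀ X : ℕ, X0 ≤ X → ∀ W : Finset ℕ → ℝ,
    (∀ T, |W T| ≤ K0) → ∀ q c t : ℕ, 1 ≤ q → (q : ℝ) ≤ (Real.log X) ^ B → Nat.Coprime c q →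
    t ≤ X → |∑ n ∈ (Icc 1 t).filter (fun n => n ≡ c [MOD q]), wty (kp B' X) X W n -
      mt B' X W t / (Nat.totient q : ℝ)| ≤ X / (Real.log X) ^ A := by
  classical
  obtain ⟨X1, hX1⟩ := pr_class (A + B' + 3) B
  obtain ⟨X2, hX2⟩ := zt_log
  obtain ⟨X3, hX3⟩ := MP_log_pow 2 B (ε := 1 / 10) (by norm_num)
  obtain ⟨X5', hX5⟩ := wty_sum
  obtain ⟨X6, hX6⟩ := vty_eq B'
  have hloglim : Filter.Tendsto (fun X : ℕ => Real.log (X : ℝ)) Filter.atTop Filter.atTop :=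
    Real.tendsto_log_atTop.comp tendsto_natCast_atTop_atTop
  obtain ⟨X4, hX4⟩ := Filter.eventually_atTop.1
    ((hloglim.eventually_ge_atTop (4 * |K0|)).and (hloglim.eventually_ge_atTop 1))
  refine ⟨max (max X1 X2) (max (max X3 X4) (max X5' X6)), fun X hX W hW q c t hq hqB hc ht => ?_⟩
  have hpr := hX1 X (((le_max_left _ _).trans (le_max_left _ _)).trans hX)
  obtain ⟨hz2, hzL⟩ := hX2 X (((le_max_right _ _).trans (le_max_left _ _)).trans hX)
  have hBz := hX3 X ((((le_max_left _ _).trans (le_max_left _ _)).trans (le_max_right _ _)).trans hX)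
  obtain ⟨hL1, hL2⟩ :=
    hX4 X ((((le_max_right _ _).trans (le_max_left _ _)).trans (le_max_right _ _)).trans hX)
  have hws := hX5 X ((((le_max_left _ _).trans (le_max_right _ _)).trans (le_max_right _ _)).trans hX)
  have hve := hX6 X ((((le_max_right _ _).trans (le_max_right _ _)).trans (le_max_right _ _)).trans hX)
  set L := Real.log (X : ℝ) with hL
  have hLpos : 0 < L := by linarith
  have hzt := zt_ge X
  have hK0 : 0 ≤ K0 := (abs_nonneg _).trans (hW ∅)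
  rw [abs_of_nonneg hK0] at hL1
  have hκ : 0 < kp B' X := by unfold kp; positivity
  have hX0 : (0 : ℝ) ≤ X := Nat.cast_nonneg _
  have hφ : (1 : ℝ) ≤ (Nat.totient q : ℝ) := by
    exact_mod_cast Nat.totient_pos.2 (by omega)
  -- step 1
  have s1 : ∑ n ∈ (Icc 1 t).filter (fun n => n ≡ c [MOD q]), wty (kp B' X) X W n =
      ∑ k ∈ Icc 1 X, ∑ p ∈ (Icc 1 (t / k)).filter (fun p => p.Prime ∧ k * p ≡ c [MOD q] ∧
        X5 X < ((k * p : ℕ) : ℝ)), vty (kp B' X) (zt X) W (p : ℝ) k := by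
    rw [← cw_swap X t q c ht (X5 X) (fun p k => vty (kp B' X) (zt X) W (p : ℝ) k)]
    refine sum_congr rfl fun n hn => ?_
    rw [mem_filter, mem_Icc] at hn
    split_ifs with h
    · exact hws (kp B' X) hκ W n (mem_Icc.2 ⟨hn.1.1, hn.1.2.trans ht⟩) h
    · unfold wty
      rw [if_neg (fun h' => h h'.1)]
  -- step 2
  have s2 : ∀ k ∈ Icc 1 X, ∑ p ∈ (Icc 1 (t / k)).filter (fun p => p.Prime ∧
        k * p ≡ c [MOD q] ∧ X5 X < ((k * p : ℕ) : ℝ)), vty (kp B' X) (zt X) W (p : ℝ) k =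
      ∑ j ∈ range (NJ B' X), vj (kp B' X) (zt X) W j k *
        (((Icc 1 (t / k)).filter (fun p : ℕ => p.Prime ∧ k * p ≡ c [MOD q] ∧
          X5 X < ((k * p : ℕ) : ℝ) ∧ ub (kp B' X) (zt X) j ≤ (p : ℝ) ∧
            (p : ℝ) < ub (kp B' X) (zt X) (j + 1))).card : ℝ) := by
    intro k hk
    rw [mem_Icc] at hk
    have h1 : ∀ p ∈ (Icc 1 (t / k)).filter (fun p => p.Prime ∧
        k * p ≡ c [MOD q] ∧ X5 X < ((k * p : ℕ) : ℝ)), vty (kp B' X) (zt X) W (p : ℝ) k =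
        ∑ j ∈ range (NJ B' X), vj (kp B' X) (zt X) W j k *
          ind (ub (kp B' X) (zt X) j ≤ (p : ℝ) ∧ (p : ℝ) < ub (kp B' X) (zt X) (j + 1)) := by
      intro p hp
      rw [mem_filter, mem_Icc] at hp
      refine hve W p k ?_
      have h2 : p ≤ X := (hp.1.2.trans (Nat.div_le_self _ _)).trans ht
      exact_mod_cast h2
    rw [sum_congr rfl h1, sum_comm]
    refine sum_congr rfl fun j _ => ?_
    rw [← mul_sum]
    congr 1
    rw [cw_ind, filter_filter]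
    congr 2
    ext p
    simp only [mem_filter, and_assoc]
  -- step 3
  have s3 : ∀ k ∈ Icc 1 X, ∀ j ∈ range (NJ B' X), |vj (kp B' X) (zt X) W j k *
        (((Icc 1 (t / k)).filter (fun p : ℕ => p.Prime ∧ k * p ≡ c [MOD q] ∧
          X5 X < ((k * p : ℕ) : ℝ) ∧ ub (kp B' X) (zt X) j ≤ (p : ℝ) ∧
            (p : ℝ) < ub (kp B' X) (zt X) (j + 1))).card : ℝ) -
      vj (kp B' X) (zt X) W j k *
        li (max (ub (kp B' X) (zt X) j) (X5 X / k))
          (min (ub (kp B' X) (zt X) (j + 1)) ((t : ℝ) / k)) / (Nat.totient q : ℝ)| ≤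
      K0 * (X / k / L ^ (A + B' + 3)) := by
    intro k hk j _
    rw [mem_Icc] at hk
    have hk0 : (0 : ℝ) < k := by exact_mod_cast (show 0 < k by omega)
    rw [mul_div_assoc, ← mul_sub, abs_mul]
    by_cases hv : vj (kp B' X) (zt X) W j k = 0
    · rw [hv, abs_zero, zero_mul]
      positivity
    have hs : Simp (kp B' X) (zt X) k := by
      by_contra hs
      apply hv
      unfold vj
      rw [if_neg (fun h => hs h.1)]
    have hv1 : |vj (kp B' X) (zt X) W j k| ≤ K0 := by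
      unfold vj
      split_ifs
      · exact hW _
      · rw [abs_zero]; exact hK0
    refine mul_le_mul hv1 ?_ (abs_nonneg _) hK0
    have hub : (zt X : ℝ) ≤ ub (kp B' X) (zt X) j := by
      unfold ub
      have h1 : 1 ≤ Real.exp (kp B' X * j) := Real.one_le_exp (by positivity)
      have h2 : (0 : ℝ) ≤ zt X := Nat.cast_nonneg _
      nlinarith
    have hcop : Nat.Coprime k q := by
      refine Nat.coprime_of_dvd fun p hp hpk hpq => ?_
      have h1 : zt X ≤ p := hs.1.2 p (Nat.mem_primeFactors.2 ⟨hp, hpk, by omega⟩)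
      have h2 : p ≤ q := Nat.le_of_dvd (by omega) hpq
      have h3 : (zt X : ℝ) ≤ q := by exact_mod_cast h1.trans h2
      have h4 : 0 < L ^ B := by positivity
      linarith
    obtain ⟨c', hc'1, hc'2⟩ := cw_inv hq hcop hc
    have hcard : (Icc 1 (t / k)).filter (fun p : ℕ => p.Prime ∧ k * p ≡ c [MOD q] ∧
          X5 X < ((k * p : ℕ) : ℝ) ∧ ub (kp B' X) (zt X) j ≤ (p : ℝ) ∧
            (p : ℝ) < ub (kp B' X) (zt X) (j + 1)) =
        (Icc 1 ⌊(t : ℝ) / k⌋₊).filter (fun p : ℕ => p.Prime ∧ p ≡ c' [MOD q] ∧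
          X5 X / k < (p : ℝ) ∧ ub (kp B' X) (zt X) j ≤ (p : ℝ) ∧
            (p : ℝ) < ub (kp B' X) (zt X) (j + 1)) := by
      rw [Nat.floor_div_natCast, Nat.floor_natCast]
      ext p
      rw [mem_filter, mem_filter, hc'2 p, div_lt_iff₀ hk0]
      push_cast
      rw [mul_comm (k : ℝ) (p : ℝ)]
    rw [hcard]
    have htX : (t : ℝ) ≤ X := by exact_mod_cast ht
    have hk1 : (1 : ℝ) ≤ k := by exact_mod_cast hk.1
    have htk : (t : ℝ) / k ≤ X / k := by gcongr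
    have hXk : (X : ℝ) / k ≤ X := div_le_self hX0 hk1
    by_cases hzt : (zt X : ℝ) ≤ (t : ℝ) / k
    · refine (hpr q c' hq hqB hc'1 ((t : ℝ) / k) (X5 X / k) (ub (kp B' X) (zt X) j)
        (ub (kp B' X) (zt X) (j + 1)) hzt (htk.trans hXk) hub).trans ?_
      gcongr
    · rw [not_le] at hzt
      have h1 : (Icc 1 ⌊(t : ℝ) / k⌋₊).filter (fun p : ℕ => p.Prime ∧ p ≡ c' [MOD q] ∧
          X5 X / k < (p : ℝ) ∧ ub (kp B' X) (zt X) j ≤ (p : ℝ) ∧
            (p : ℝ) < ub (kp B' X) (zt X) (j + 1)) = ∅ := by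
        rw [filter_eq_empty_iff]
        rintro p hp ⟨_, _, _, h5, _⟩
        rw [mem_Icc] at hp
        have h6 : (p : ℝ) ≤ (t : ℝ) / k := (Nat.le_floor_iff (by positivity)).1 hp.2
        linarith
      have h2 : li (max (ub (kp B' X) (zt X) j) (X5 X / k))
          (min (ub (kp B' X) (zt X) (j + 1)) ((t : ℝ) / k)) = 0 := by
        unfold li
        rw [if_neg]
        intro h
        have h3 := (le_max_left (ub (kp B' X) (zt X) j) (X5 X / k)).trans
          (h.trans (min_le_right _ _))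
        linarith
      rw [h1, h2]
      simp only [card_empty, Nat.cast_zero, zero_div, sub_zero, abs_zero]
      positivity
  -- step 4
  have s4 : ∑ n ∈ (Icc 1 t).filter (fun n => n ≡ c [MOD q]), wty (kp B' X) X W n -
      mt B' X W t / (Nat.totient q : ℝ) = ∑ k ∈ Icc 1 X, ∑ j ∈ range (NJ B' X),
      (vj (kp B' X) (zt X) W j k *
        (((Icc 1 (t / k)).filter (fun p : ℕ => p.Prime ∧ k * p ≡ c [MOD q] ∧
          X5 X < ((k * p : ℕ) : ℝ) ∧ ub (kp B' X) (zt X) j ≤ (p : ℝ) ∧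
            (p : ℝ) < ub (kp B' X) (zt X) (j + 1))).card : ℝ) -
      vj (kp B' X) (zt X) W j k *
        li (max (ub (kp B' X) (zt X) j) (X5 X / k))
          (min (ub (kp B' X) (zt X) (j + 1)) ((t : ℝ) / k)) / (Nat.totient q : ℝ)) := by
    rw [s1, sum_congr rfl s2]
    unfold mt
    rw [sum_div, ← sum_sub_distrib]
    refine sum_congr rfl fun k _ => ?_
    rw [sum_div, ← sum_sub_distrib]
  rw [s4]
  refine (abs_sum_le_sum_abs _ _).trans ?_
  have s5 : ∀ k ∈ Icc 1 X, |∑ j ∈ range (NJ B' X),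
      (vj (kp B' X) (zt X) W j k *
        (((Icc 1 (t / k)).filter (fun p : ℕ => p.Prime ∧ k * p ≡ c [MOD q] ∧
          X5 X < ((k * p : ℕ) : ℝ) ∧ ub (kp B' X) (zt X) j ≤ (p : ℝ) ∧
            (p : ℝ) < ub (kp B' X) (zt X) (j + 1))).card : ℝ) -
      vj (kp B' X) (zt X) W j k *
        li (max (ub (kp B' X) (zt X) j) (X5 X / k))
          (min (ub (kp B' X) (zt X) (j + 1)) ((t : ℝ) / k)) / (Nat.totient q : ℝ))| ≤
      (NJ B' X : ℝ) * (K0 * (X / k / L ^ (A + B' + 3))) := by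
    intro k hk
    refine (abs_sum_le_sum_abs _ _).trans ((sum_le_sum (s3 k hk)).trans ?_)
    rw [sum_const, card_range, nsmul_eq_mul]
  refine (sum_le_sum s5).trans ?_
  have s6 : ∑ k ∈ Icc 1 X, (NJ B' X : ℝ) * (K0 * (X / k / L ^ (A + B' + 3))) =
      (NJ B' X : ℝ) * (K0 * X / L ^ (A + B' + 3)) * ∑ k ∈ Icc 1 X, 1 / (k : ℝ) := by
    rw [mul_sum]
    refine sum_congr rfl fun k _ => ?_
    ring
  rw [s6]
  have hNJ : (NJ B' X : ℝ) ≤ 2 * L ^ (B' + 1) := by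
    unfold NJ
    push_cast
    have h1 := Nat.floor_le (show 0 ≤ (Real.log (X : ℝ)) ^ (B' + 1) by positivity)
    have h2 : 1 ≤ L ^ (B' + 1) := one_le_pow₀ hL2
    linarith
  have hh : ∑ k ∈ Icc 1 X, 1 / (k : ℝ) ≤ 2 * L := by
    have := cw_harm X
    linarith
  have hh0 : 0 ≤ ∑ k ∈ Icc 1 X, 1 / (k : ℝ) := sum_nonneg fun k _ => by positivity
  calc (NJ B' X : ℝ) * (K0 * X / L ^ (A + B' + 3)) * ∑ k ∈ Icc 1 X, 1 / (k : ℝ)
      ≤ (2 * L ^ (B' + 1)) * (K0 * X / L ^ (A + B' + 3)) * (2 * L) := by gcongr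
    _ = 4 * K0 * X / L ^ (A + 1) := by
      rw [eq_div_iff (by positivity)]
      have h1 : L ^ (A + B' + 3) = L ^ (B' + 1) * L * L ^ (A + 1) := by ring
      rw [h1]
      field_simp
      ring
    _ ≤ X / L ^ A := by
      rw [div_le_div_iff₀ (by positivity) (by positivity), pow_succ L A]
      have h1 : X * L ^ A * (4 * K0) ≤ X * L ^ A * L :=
        mul_le_mul_of_nonneg_left hL1 (by positivity)
      nlinarith

end Pool.MP_dd84fd_nt.IY
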