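import Pool.Agent.Lib.MP_dd84fd_nt.IY.CBx
import Pool.Agent.Lib.MP_dd84fd_nt.E2.RoughClass

/-!
# IY-CZ (0.3 h): classes which are not coprime to the modulus

Proof. A prime `p ∣ (c, q)` divides `n`; `p ≤ q ≤ L^B`: so `p ≤ wX D' X = ⌊L^D'⌋` (`B ≤ D'`) and `n` is not coprime to `primorial (wX D' X)`: `f1 = 0`; and `p < zt X` for large `X`, so `n` is not `zt`-rough, not simple, `wty = 0`. (As `non_cop` in HX/MjZ.)
-/

set_option autoImplicit false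

namespace Pool.MP_dd84fd_nt.IY

open Finset Pool.MP_67663b_nt.Odd Pool.MP_dd84fd_nt.En Pool.MP_dd84fd_nt.E2 Pool.MP_dd84fd_nt.HX

theorem non_cop_i (B B' D' : ℕ) (hB : B ≤ D') : ∃ X0 : ℕ, ∀ X : ℕ, X0 ≤ X →
    ∀ q c : ℕ, 1 ≤ q → (q : ℝ) ≤ (Real.log X) ^ B → ¬ Nat.Coprime c q → ∀ W : Finset ℕ → ℝ,
    ∀ n ∈ Icc 1 X, n ≡ c [MOD q] → wty (kp B' X) X W n = 0 ∧ f1 (wX D' X) n = 0 := by
  obtain ⟨X2, h2⟩ := MP_log_pow 2 B (ε := 1 / 10) (by norm_num)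
  obtain ⟨X3, h3⟩ := MP_log_large 1
  refine ⟨max X2 (max X3 1), ?_⟩
  intro X hX q c hq hqL hcop W n hn hnc
  simp only [max_le_iff] at hX
  obtain ⟨hXb, hXc, hXd⟩ := hX
  have hL1 : 1 ≤ Real.log X := h3 X hXc
  obtain ⟨p, hp, hpc, hpq⟩ := Nat.Prime.not_coprime_iff_dvd.1 hcop
  have hpn : p ∣ n := (Nat.ModEq.dvd_iff hnc hpq).2 hpc
  have hpqle : p ≤ q := Nat.le_of_dvd (by omega) hpq
  have hpL : (p : ℝ) ≤ (Real.log X) ^ B := le_trans (by exact_mod_cast hpqle) hqL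
  rw [mem_Icc] at hn
  refine ⟨?_, ?_⟩
  · unfold wty
    rw [if_neg]
    intro hr
    have h4 := hr.2.2.1.2 p (Nat.mem_primeFactors.2 ⟨hp, hpn, by omega⟩)
    have h5 : (zt X : ℝ) ≤ p := by exact_mod_cast h4
    have h6 := h2 X hXb
    have h7 := zt_ge X
    have h8 : 1 ≤ (Real.log X) ^ B := one_le_pow₀ hL1
    linarith
  · have hpw : p ≤ wX D' X := by
      unfold wX
      refine Nat.le_floor (hpL.trans ?_)
      exact pow_le_pow_right₀ hL1 hB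
    unfold f1
    rw [if_neg]
    exact Nat.not_coprime_of_dvd_of_dvd hp.one_lt hpn
      ((hp.dvd_primorial_iff).2 hpw)

end Pool.MP_dd84fd_nt.IY
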