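import Pool.Agent.Lib.MP_dd84fd_nt.IY.CE
import Pool.Agent.Lib.MP_dd84fd_nt.IY.CCw
import Pool.Agent.Lib.MP_dd84fd_nt.IY.CCg
import Pool.Agent.Lib.MP_dd84fd_nt.IY.CZ

/-!
# IY-CMaj (0.4 h): the major arcs, `MajI`

Proof. `D0 = B + 1`; `class_exp0` with `u = wty - gty f1`; non-coprime classes: `non_cop_i`, all terms `0`; coprime classes: `cw_class`, `cg_class` with exponent `A + B + 2`, the main terms `mt/φ(q)` cancel: `2 X/L^(A+B+2) ≤ X/L^(A+B+1)`.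
-/

set_option autoImplicit false

namespace Pool.MP_dd84fd_nt.IY

open Finset Pool.MP_67663b_nt.Odd Pool.MP_dd84fd_nt.En Pool.MP_dd84fd_nt.E2 Pool.MP_dd84fd_nt.HX

theorem maj_i (A B B' : ℕ) (K0 : ℝ) : ∃ D0 : ℕ, ∀ D' : ℕ, D0 ≤ D' → ∃ X0 : ℕ, ∀ X : ℕ,
    X0 ≤ X → ∀ W : Finset ℕ → ℝ, (∀ T, |W T| ≤ K0) → ∀ θ : ℝ, Ht ((Real.log X) ^ B) X θ →
    ‖∑ n ∈ Icc 1 X, ((wty (kp B' X) X W n - gty (kp B' X) X W n * f1 (wX D' X) n : ℝ) : ℂ) *
      ee ((n : ℝ) * θ)‖ ≤ X / (Real.log X) ^ A := by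
  refine ⟨B + 1, fun D' hD' => ?_⟩
  have hD1 : 1 ≤ D' := by omega
  have hBD : B ≤ D' := by omega
  obtain ⟨X1, hX1⟩ := class_exp0 A B
  obtain ⟨X2, hX2⟩ := non_cop_i B B' D' hBD
  obtain ⟨X3, hX3⟩ := cw_class (A + B + 2) B B' K0
  obtain ⟨X4, hX4⟩ := cg_class (A + B + 2) B B' D' hD1 hBD K0
  obtain ⟨X5', hX5⟩ : ∃ X0 : ℕ, ∀ X : ℕ, X0 ≤ X → 2 ≤ Real.log X := by
    obtain ⟨X0, hX0⟩ := Filter.eventually_atTop.1
      ((Real.tendsto_log_atTop.comp tendsto_natCast_atTop_atTop).eventually_ge_atTop 2)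
    exact ⟨X0, fun X hX => hX0 X hX⟩
  refine ⟨max (max X1 X2) (max X3 (max X4 X5')), ?_⟩
  intro X hX W hW θ hθ
  have h1 : X1 ≤ X := (le_max_left _ _).trans ((le_max_left _ _).trans hX)
  have h2 : X2 ≤ X := (le_max_right _ _).trans ((le_max_left _ _).trans hX)
  have h3 : X3 ≤ X := (le_max_left _ _).trans ((le_max_right _ _).trans hX)
  have h45 : max X4 X5' ≤ X := (le_max_right _ _).trans ((le_max_right _ _).trans hX)
  have h4 : X4 ≤ X := (le_max_left _ _).trans h45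
  have h5 : X5' ≤ X := (le_max_right _ _).trans h45
  have hL := hX5 X h5
  have hL0 : 0 < Real.log X := by linarith
  have hXn : (0 : ℝ) ≤ X := Nat.cast_nonneg X
  refine hX1 X h1 (fun n => wty (kp B' X) X W n - gty (kp B' X) X W n * f1 (wX D' X) n) ?_ θ hθ
  intro q b t hq hqL ht
  by_cases hc : Nat.Coprime b q
  · have e1 := hX3 X h3 W hW q b t hq hqL hc ht
    have e2 := hX4 X h4 W hW q b t hq hqL hc ht
    have e3 : (X : ℝ) / (Real.log X) ^ (A + B + 2) + X / (Real.log X) ^ (A + B + 2) ≤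
        X / (Real.log X) ^ (A + B + 1) := by
      rw [← add_div, div_le_div_iff₀ (pow_pos hL0 _) (pow_pos hL0 _)]
      have e4 : (Real.log X) ^ (A + B + 2) = (Real.log X) ^ (A + B + 1) * Real.log X := by
        rw [← pow_succ]
      have e5 : 0 < (Real.log X) ^ (A + B + 1) := pow_pos hL0 _
      rw [e4]
      nlinarith [mul_nonneg hXn e5.le, mul_nonneg (mul_nonneg hXn e5.le) (sub_nonneg.2 hL)]
    rw [sum_sub_distrib]
    rw [abs_le] at e1 e2 ⊢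
    constructor <;> linarith [e1.1, e1.2, e2.1, e2.2]
  · have e1 : ∑ n ∈ (Icc 1 t).filter (fun n => n ≡ b [MOD q]),
        (wty (kp B' X) X W n - gty (kp B' X) X W n * f1 (wX D' X) n) = 0 := by
      apply sum_eq_zero
      intro n hn
      rw [mem_filter, mem_Icc] at hn
      obtain ⟨e2, e3⟩ := hX2 X h2 q b hq hqL hc W n
        (mem_Icc.2 ⟨hn.1.1, hn.1.2.trans ht⟩) hn.2
      rw [e2, e3, mul_zero, sub_zero]
    rw [e1, abs_zero]
    positivity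

end Pool.MP_dd84fd_nt.IY
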