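import Pool.Agent.Lib.MP_dd84fd_nt.IY.CBx
import Pool.Agent.Lib.MP_dd84fd_nt.HX.SvRs

/-!
# IY-CSup (0.5 h): the densities are `O(1/log X)`

Proof. `|vty m k| ≤ K0 [k rough for zt]`, and `0` for `m = n/k < zt X`; so `|gty n| ≤ Σ_{k ≤ X rough} K0/(k log zt) ≤ (10 K0/L) Σ 1/k`. `zt X ≥ zz X` (`1/10 > 1/20`): `Rgh (zt X) k → Rgh (zz X) k`, and `Σ rg (zz X) k/k ≤ C` (`rs_all`). `0 ≤ K0` (apply the hypothesis to `T = ∅`).
-/

set_option autoImplicit false

namespace Pool.MP_dd84fd_nt.IY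

open Finset Pool.MP_67663b_nt.Odd Pool.MP_dd84fd_nt.En Pool.MP_dd84fd_nt.E2 Pool.MP_dd84fd_nt.HX

private theorem CSup_zz_le {X : ℕ} (hX : 1 ≤ X) : zz X ≤ zt X := by
  unfold zz zt
  refine Nat.ceil_mono ?_
  exact Real.rpow_le_rpow_of_exponent_le (by exact_mod_cast hX) (by norm_num)

theorem gty_sup (B' : ℕ) (K0 : ℝ) : ∃ (C : ℝ) (X0 : ℕ), 0 < C ∧ ∀ X : ℕ, X0 ≤ X →
    ∀ W : Finset ℕ → ℝ, (∀ T, |W T| ≤ K0) → ∀ n : ℕ,
    |gty (kp B' X) X W n| ≤ C / Real.log X := by
  classical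
  obtain ⟨C, X1, hC, h1⟩ := rs_all
  obtain ⟨X2, h2⟩ := zt_log
  refine ⟨10 * |K0| * C + 1, max (max X1 X2) 3, by positivity, ?_⟩
  intro X hX W hW n
  have hX3 : 3 ≤ X := (le_max_right _ _).trans hX
  have hX1 : X1 ≤ X := ((le_max_left _ _).trans (le_max_left _ _)).trans hX
  have hX2 : X2 ≤ X := ((le_max_right _ _).trans (le_max_left _ _)).trans hX
  obtain ⟨hz2, hzl⟩ := h2 X hX2
  have hXr : (3 : ℝ) ≤ (X : ℝ) := by exact_mod_cast hX3
  have hL : 0 < Real.log X := Real.log_pos (by linarith)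
  have hK0 : 0 ≤ K0 := (abs_nonneg _).trans (hW ∅)
  rw [abs_of_nonneg hK0]
  have hz0 : (0 : ℝ) < (zt X : ℝ) := by
    have : 0 < zt X := by omega
    exact_mod_cast this
  have hfin : 10 * K0 * C / Real.log X ≤ (10 * K0 * C + 1) / Real.log X :=
    div_le_div_of_nonneg_right (by linarith) hL.le
  unfold gty
  split_ifs with hn
  · have hterm : ∀ k ∈ Icc 1 X,
        |vty (kp B' X) (zt X) W ((n : ℝ) / k) k / (k * Real.log ((n : ℝ) / k))| ≤
          10 * K0 / Real.log X * (rg (zz X) k / k) := by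
      intro k hk
      have hk1 : 1 ≤ k := (mem_Icc.1 hk).1
      have hk0 : (0 : ℝ) < (k : ℝ) := by exact_mod_cast hk1
      unfold vty
      split_ifs with hv
      · have hrg : rg (zz X) k = 1 := by
          unfold rg
          rw [if_pos]
          refine ⟨hv.1.1.1, fun p hp => ?_⟩
          exact (CSup_zz_le (by omega)).trans (hv.1.1.2 p hp)
        rw [hrg, abs_div]
        have hlog : Real.log X / 10 ≤ Real.log ((n : ℝ) / k) :=
          hzl.trans (Real.log_le_log hz0 hv.2.1)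
        have hden : 0 < (k : ℝ) * Real.log ((n : ℝ) / k) :=
          mul_pos hk0 (lt_of_lt_of_le (by positivity) hlog)
        rw [abs_of_pos hden]
        calc |W (insert (bx (kp B' X) (zt X) ((n : ℝ) / k)) (ty (kp B' X) (zt X) k))| /
              ((k : ℝ) * Real.log ((n : ℝ) / k))
            ≤ K0 / ((k : ℝ) * Real.log ((n : ℝ) / k)) :=
              div_le_div_of_nonneg_right (hW _) hden.le
          _ ≤ K0 / ((k : ℝ) * (Real.log X / 10)) :=
              div_le_div_of_nonneg_left hK0 (by positivity)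
                (mul_le_mul_of_nonneg_left hlog hk0.le)
          _ = 10 * K0 / Real.log X * (1 / k) := by
              field_simp
      · rw [zero_div, abs_zero]
        have := (rg_nonneg (zz X) k).1
        positivity
    calc |∑ k ∈ Icc 1 X,
          vty (kp B' X) (zt X) W ((n : ℝ) / k) k / (k * Real.log ((n : ℝ) / k))|
        ≤ ∑ k ∈ Icc 1 X,
          |vty (kp B' X) (zt X) W ((n : ℝ) / k) k / (k * Real.log ((n : ℝ) / k))| :=
          Finset.abs_sum_le_sum_abs _ _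
      _ ≤ ∑ k ∈ Icc 1 X, 10 * K0 / Real.log X * (rg (zz X) k / k) :=
          Finset.sum_le_sum hterm
      _ = 10 * K0 / Real.log X * ∑ k ∈ Icc 1 X, rg (zz X) k / k := by
          rw [Finset.mul_sum]
      _ ≤ 10 * K0 / Real.log X * C :=
          mul_le_mul_of_nonneg_left (h1 X hX1) (by positivity)
      _ = 10 * K0 * C / Real.log X := by ring
      _ ≤ (10 * K0 * C + 1) / Real.log X := hfin
  · rw [abs_zero]
    positivity

end Pool.MP_dd84fd_nt.IY
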