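import Pool.Agent.Lib.MP_dd84fd_nt.IY.CBx

/-!
# IY-CTV (0.7 h): the densities have variation at most a power of `log X`

Proof. `gty n = Σ_{k ≤ X} (1/k) Σ_j vj j k G_{k,j}(n)`, `G_{k,j}(n) = [X5 < n][ub j ≤ n/k < ub (j+1)]/log(n/k)` for `n ≤ X` (`vty_eq`): an indicator function of an interval of integers times a positive decreasing function `≤ 8/L ≤ 1` (`n/k ≥ zt X`): `Σ_n |G(n+1) - G(n)| ≤ 2` (it is `0`, jumps to a value `≤ 1`,
decreases, jumps to `0`). Total `≤ Σ_{k ≤ X} (1/k) NJ K0 2 ≤ 2 K0 (L + 1)(L^(B'+1) + 1) ≤ L^(B'+3)` for large `X`.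
-/

set_option autoImplicit false

namespace Pool.MP_dd84fd_nt.IY

open Finset Pool.MP_67663b_nt.Odd Pool.MP_dd84fd_nt.En Pool.MP_dd84fd_nt.E2 Pool.MP_dd84fd_nt.HX

theorem CTV_tele (G : ℕ → ℝ) (X : ℕ) (hX : 1 ≤ X) :
    ∑ n ∈ Ico 1 X, (G (n + 1) - G n) = G X - G 1 := by
  induction X, hX using Nat.le_induction with
  | base => simp
  | succ X hX ih =>
    rw [Finset.sum_Ico_succ_top (by omega), ih]
    ring

/-- variation of a decreasing function on an interval, extended by `0` -/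
theorem CTV_var (G : ℕ → ℝ) (S : ℕ → Prop) (X : ℕ)
    (hS : ∀ a b c, S a → S b → a ≤ c → c ≤ b → S c)
    (h0 : ∀ n, ¬ S n → G n = 0) (h1 : ∀ n, 0 ≤ G n ∧ G n ≤ 1)
    (hanti : ∀ n, S n → S (n + 1) → G (n + 1) ≤ G n) :
    ∑ n ∈ Ico 1 X, |G (n + 1) - G n| ≤ 3 := by
  classical
  rcases Nat.lt_or_ge X 1 with hX | hX
  · rw [Finset.Ico_eq_empty (by omega), sum_empty]
    norm_num
  have hpos : ∀ n, |G (n + 1) - G n| ≤
      2 * (if ¬ S n ∧ S (n + 1) then 1 else 0) - (G (n + 1) - G n) := by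
    intro n
    by_cases hc : ¬ S n ∧ S (n + 1)
    · rw [if_pos hc]
      have a := h1 n
      have b := h1 (n + 1)
      rw [abs_le]
      constructor <;> linarith
    · rw [if_neg hc]
      have hle : G (n + 1) ≤ G n := by
        by_cases hs : S (n + 1)
        · have hsn : S n := by
            by_contra h
            exact hc ⟨h, hs⟩
          exact hanti n hsn hs
        · rw [h0 _ hs]
          exact (h1 n).1
      rw [abs_of_nonpos (by linarith)]
      linarith
  have hcard : ∑ n ∈ Ico 1 X, (if ¬ S n ∧ S (n + 1) then (1 : ℝ) else 0) ≤ 1 := by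
    rw [← Finset.sum_filter, sum_const, nsmul_eq_mul, mul_one]
    have h2 : ((Ico 1 X).filter (fun n => ¬ S n ∧ S (n + 1))).card ≤ 1 := by
      rw [Finset.card_le_one]
      intro a ha b hb
      rw [mem_filter] at ha hb
      rcases lt_trichotomy a b with hab | hab | hab
      · exfalso
        exact hb.2.1 (hS (a + 1) (b + 1) b ha.2.2 hb.2.2 (by omega) (by omega))
      · exact hab
      · exfalso
        exact ha.2.1 (hS (b + 1) (a + 1) a hb.2.2 ha.2.2 (by omega) (by omega))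
    exact_mod_cast h2
  calc ∑ n ∈ Ico 1 X, |G (n + 1) - G n| ≤
      ∑ n ∈ Ico 1 X, (2 * (if ¬ S n ∧ S (n + 1) then (1 : ℝ) else 0) - (G (n + 1) - G n)) :=
        sum_le_sum fun n _ => hpos n
    _ = 2 * ∑ n ∈ Ico 1 X, (if ¬ S n ∧ S (n + 1) then (1 : ℝ) else 0) - (G X - G 1) := by
        rw [sum_sub_distrib, ← mul_sum, CTV_tele G X hX]
    _ ≤ 3 := by
        have a := h1 X
        have b := h1 1
        linarith

/-- the elementary pieces -/
noncomputable def CTV_G (B' X k j n : ℕ) : ℝ :=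
  open Classical in if X5 X < n ∧ ub (kp B' X) (zt X) j ≤ (n : ℝ) / k ∧
    (n : ℝ) / k < ub (kp B' X) (zt X) (j + 1) then 1 / Real.log ((n : ℝ) / k) else 0

theorem gty_var (B' : ℕ) (K0 : ℝ) : ∃ X0 : ℕ, ∀ X : ℕ, X0 ≤ X → ∀ W : Finset ℕ → ℝ,
    (∀ T, |W T| ≤ K0) →
    ∑ n ∈ Ico 1 X, |gty (kp B' X) X W (n + 1) - gty (kp B' X) X W n| ≤
      (Real.log X) ^ (B' + 3) := by
  classical
  obtain ⟨X1, hX1⟩ := vty_eq B'
  obtain ⟨X2, hX2⟩ := zt_log
  have hlogt := Real.tendsto_log_atTop.comp tendsto_natCast_atTop_atTop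
  obtain ⟨X3, hX3⟩ := Filter.eventually_atTop.mp
    (hlogt.eventually (Filter.eventually_ge_atTop (max 10 (12 * K0))))
  refine ⟨max (max X1 X2) (max X3 1), fun X hX W hW => ?_⟩
  have hXX1 : X1 ≤ X := ((le_max_left _ _).trans (le_max_left _ _)).trans hX
  have hXX2 : X2 ≤ X := ((le_max_right _ _).trans (le_max_left _ _)).trans hX
  have hXX3 : X3 ≤ X := ((le_max_left _ _).trans (le_max_right _ _)).trans hX
  have hX1' : 1 ≤ X := ((le_max_right _ _).trans (le_max_right _ _)).trans hX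
  have hv := hX1 X hXX1
  obtain ⟨hz2, hzl⟩ := hX2 X hXX2
  have hL := hX3 X hXX3
  simp only [Function.comp_apply] at hL
  have hL8 : 10 ≤ Real.log (X : ℝ) := (le_max_left _ _).trans hL
  have hLK : 12 * K0 ≤ Real.log (X : ℝ) := (le_max_right _ _).trans hL
  set L := Real.log (X : ℝ) with hLdef
  have hL0 : 0 < L := by linarith
  have hK0 : 0 ≤ K0 := (abs_nonneg _).trans (hW ∅)
  have hkp : 0 < kp B' X := by
    unfold kp
    rw [← hLdef]
    positivity
  have hz1 : (1 : ℝ) ≤ zt X := by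
    have : 1 ≤ zt X := by omega
    exact_mod_cast this
  have hub : ∀ j, (zt X : ℝ) ≤ ub (kp B' X) (zt X) j := by
    intro j
    unfold ub
    have h1 : 1 ≤ Real.exp (kp B' X * j) := Real.one_le_exp (by positivity)
    nlinarith
  -- value of the pieces
  have hGlog : ∀ k j n : ℕ, ub (kp B' X) (zt X) j ≤ (n : ℝ) / k → 1 ≤ Real.log ((n : ℝ) / k) := by
    intro k j n h
    have h1 : Real.log (zt X) ≤ Real.log ((n : ℝ) / k) :=
      Real.log_le_log (by linarith) ((hub j).trans h)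
    have h2 : 1 ≤ L / 10 := by linarith
    linarith
  have hvar : ∀ k j : ℕ, ∑ n ∈ Ico 1 X, |CTV_G B' X k j (n + 1) - CTV_G B' X k j n| ≤ 3 := by
    intro k j
    apply CTV_var (CTV_G B' X k j) (fun n : ℕ => X5 X < n ∧
      ub (kp B' X) (zt X) j ≤ (n : ℝ) / k ∧ (n : ℝ) / k < ub (kp B' X) (zt X) (j + 1))
    · intro a b c ha hb hac hcb
      have hac' : (a : ℝ) ≤ c := by exact_mod_cast hac
      have hcb' : (c : ℝ) ≤ b := by exact_mod_cast hcb
      have hk : (0 : ℝ) ≤ k := Nat.cast_nonneg k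
      exact ⟨lt_of_lt_of_le ha.1 hac', ha.2.1.trans (div_le_div_of_nonneg_right hac' hk),
        lt_of_le_of_lt (div_le_div_of_nonneg_right hcb' hk) hb.2.2⟩
    · intro n hn
      unfold CTV_G
      rw [if_neg hn]
    · intro n
      unfold CTV_G
      split_ifs with h
      · have h1 := hGlog k j n h.2.1
        constructor
        · positivity
        · rw [div_le_one (by linarith)]
          exact h1
      · constructor <;> norm_num
    · intro n hn hn1
      unfold CTV_G
      rw [if_pos hn, if_pos hn1]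
      have h1 := hGlog k j n hn.2.1
      have h2 : (n : ℝ) / k ≤ ((n + 1 : ℕ) : ℝ) / k := by
        have hk : (0 : ℝ) ≤ k := Nat.cast_nonneg k
        apply div_le_div_of_nonneg_right _ hk
        push_cast
        linarith
      have h3 : 0 < (n : ℝ) / k := lt_of_lt_of_le (by linarith) ((hub j).trans hn.2.1)
      have h4 := Real.log_le_log h3 h2
      exact one_div_le_one_div_of_le (by linarith) h4
  -- decomposition of the density
  have hdec : ∀ n ∈ Icc 1 X, gty (kp B' X) X W n =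
      ∑ k ∈ Icc 1 X, ∑ j ∈ range (NJ B' X),
        vj (kp B' X) (zt X) W j k / k * CTV_G B' X k j n := by
    intro n hn
    rw [mem_Icc] at hn
    unfold gty
    by_cases h5 : X5 X < n
    · rw [if_pos ⟨h5, hn.2⟩]
      refine sum_congr rfl fun k hk => ?_
      rw [mem_Icc] at hk
      have hk1 : (1 : ℝ) ≤ k := by exact_mod_cast hk.1
      have hnX : (n : ℝ) ≤ X := by exact_mod_cast hn.2
      have hm : (n : ℝ) / k ≤ X := (div_le_self (Nat.cast_nonneg n) hk1).trans hnX
      rw [hv W _ k hm, sum_div]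
      refine sum_congr rfl fun j _ => ?_
      unfold CTV_G ind
      by_cases hc : ub (kp B' X) (zt X) j ≤ (n : ℝ) / k ∧
          (n : ℝ) / k < ub (kp B' X) (zt X) (j + 1)
      · rw [if_pos hc, if_pos ⟨h5, hc⟩]
        rw [mul_one, div_mul_div_comm, mul_one]
      · rw [if_neg hc, if_neg (fun h => hc h.2), mul_zero, mul_zero, zero_div]
    · rw [if_neg (fun h => h5 h.1)]
      symm
      refine sum_eq_zero fun k _ => sum_eq_zero fun j _ => ?_
      unfold CTV_G
      rw [if_neg (fun h => h5 h.1), mul_zero]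
  have hvj : ∀ j k, |vj (kp B' X) (zt X) W j k| ≤ K0 := by
    intro j k
    unfold vj
    split_ifs
    · exact hW _
    · rw [abs_zero]
      exact hK0
  have hNJ : (NJ B' X : ℝ) ≤ L ^ (B' + 1) + 1 := by
    unfold NJ
    push_cast
    rw [← hLdef]
    have := Nat.floor_le (pow_nonneg hL0.le (B' + 1))
    linarith
  have hharm : ∑ k ∈ Icc 1 X, 1 / (k : ℝ) ≤ 1 + L := by
    have h1 := harmonic_le_one_add_log X
    rw [harmonic_eq_sum_Icc] at h1
    push_cast at h1
    simpa only [one_div] using h1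
  calc ∑ n ∈ Ico 1 X, |gty (kp B' X) X W (n + 1) - gty (kp B' X) X W n|
      = ∑ n ∈ Ico 1 X, |∑ k ∈ Icc 1 X, ∑ j ∈ range (NJ B' X),
          vj (kp B' X) (zt X) W j k / k * (CTV_G B' X k j (n + 1) - CTV_G B' X k j n)| := by
        refine sum_congr rfl fun n hn => ?_
        rw [mem_Ico] at hn
        rw [hdec (n + 1) (mem_Icc.2 ⟨by omega, by omega⟩), hdec n (mem_Icc.2 ⟨hn.1, by omega⟩),
          ← sum_sub_distrib]
        congr 1
        refine sum_congr rfl fun k _ => ?_
        rw [← sum_sub_distrib]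
        refine sum_congr rfl fun j _ => ?_
        ring
    _ ≤ ∑ n ∈ Ico 1 X, ∑ k ∈ Icc 1 X, ∑ j ∈ range (NJ B' X),
          K0 * (1 / (k : ℝ)) * |CTV_G B' X k j (n + 1) - CTV_G B' X k j n| := by
        refine sum_le_sum fun n _ => ?_
        refine (abs_sum_le_sum_abs _ _).trans (sum_le_sum fun k _ => ?_)
        refine (abs_sum_le_sum_abs _ _).trans (sum_le_sum fun j _ => ?_)
        rw [abs_mul, abs_div, Nat.abs_cast]
        apply mul_le_mul_of_nonneg_right _ (abs_nonneg _)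
        rw [mul_one_div]
        exact div_le_div_of_nonneg_right (hvj j k) (Nat.cast_nonneg k)
    _ = ∑ k ∈ Icc 1 X, ∑ j ∈ range (NJ B' X), K0 * (1 / (k : ℝ)) *
          ∑ n ∈ Ico 1 X, |CTV_G B' X k j (n + 1) - CTV_G B' X k j n| := by
        rw [sum_comm]
        refine sum_congr rfl fun k _ => ?_
        rw [sum_comm]
        refine sum_congr rfl fun j _ => ?_
        rw [mul_sum]
    _ ≤ ∑ k ∈ Icc 1 X, ∑ j ∈ range (NJ B' X), K0 * (1 / (k : ℝ)) * 3 := by
        refine sum_le_sum fun k _ => sum_le_sum fun j _ => ?_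
        exact mul_le_mul_of_nonneg_left (hvar k j) (by positivity)
    _ = 3 * K0 * (NJ B' X : ℝ) * ∑ k ∈ Icc 1 X, 1 / (k : ℝ) := by
        rw [mul_sum]
        refine sum_congr rfl fun k _ => ?_
        rw [sum_const, card_range, nsmul_eq_mul]
        ring
    _ ≤ 3 * K0 * (L ^ (B' + 1) + 1) * (1 + L) := by gcongr
    _ ≤ L ^ (B' + 3) := by
        have hp1 : 1 ≤ L ^ (B' + 1) := one_le_pow₀ (by linarith)
        have h1 : (L ^ (B' + 1) + 1) * (1 + L) ≤ 4 * L ^ (B' + 2) := by
          have h2 : L ^ (B' + 1) + 1 ≤ 2 * L ^ (B' + 1) := by linarith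
          have h3 : 1 + L ≤ 2 * L := by linarith
          calc (L ^ (B' + 1) + 1) * (1 + L) ≤ (2 * L ^ (B' + 1)) * (2 * L) := by gcongr
            _ = 4 * L ^ (B' + 2) := by ring
        calc 3 * K0 * (L ^ (B' + 1) + 1) * (1 + L) = 3 * K0 * ((L ^ (B' + 1) + 1) * (1 + L)) := by
              ring
          _ ≤ 3 * K0 * (4 * L ^ (B' + 2)) := by gcongr
          _ = (12 * K0) * L ^ (B' + 2) := by ring
          _ ≤ L * L ^ (B' + 2) := by gcongr
          _ = L ^ (B' + 3) := by ring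

end Pool.MP_dd84fd_nt.IY
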