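import Pool.Agent.Lib.MP_dd84fd_nt.IX.Defs
import Pool.Agent.Lib.MP_dd84fd_nt.IY.CMaj
import Pool.Agent.Lib.MP_dd84fd_nt.IY.CSup
import Pool.Agent.Lib.MP_dd84fd_nt.IY.CTV

/-!
# IY-CW (0.4 h): the family of type functions satisfies `W1` and `MajI`

Proof. `zI X ≤ zt X` for `X ≥ 1`. `wty` is `0` or `W T` with `n` rough, so `|wty n| ≤ K0 rg (zI X) n`; `gty_sup`: `|gty n| ≤ C/log X ≤ K0` for `X` large (`1 ≤ K0`); `gty_var` for the variation. `MajI`: `maj_i` with `WI ww gg (-1)` unfolded (`fI gg X w n = gg X n * f1 w n`).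
-/

set_option autoImplicit false

namespace Pool.MP_dd84fd_nt.IY

open Finset Pool.MP_67663b_nt.Odd Pool.MP_dd84fd_nt.En Pool.MP_dd84fd_nt.E2 Pool.MP_dd84fd_nt.HX
open Pool.MP_dd84fd_nt.IX (W1 MajI WI fI zI)

theorem w1_i (B' K0 : ℕ) (hK : 1 ≤ K0) (W : ℕ → Finset ℕ → ℝ) (hW : ∀ X T, |W X T| ≤ K0) :
    W1 K0 (B' + 3) (fun X => wty (kp B' X) X (W X)) (fun X => gty (kp B' X) X (W X)) := by
  obtain ⟨C, X1, hC, hs⟩ := gty_sup B' (K0 : ℝ)
  obtain ⟨X2, hv⟩ := gty_var B' (K0 : ℝ)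
  have hK' : (1 : ℝ) ≤ K0 := by exact_mod_cast hK
  refine ⟨X1 + X2 + ⌈Real.exp C⌉₊ + 1, fun X hX => ⟨fun n => ⟨?_, ?_⟩, ?_⟩⟩
  · show |wty (kp B' X) X (W X) n| ≤ K0 * rg (zI X) n
    unfold wty
    split_ifs with h
    · have hr : rg (zI X) n = 1 := by
        unfold rg
        refine if_pos ⟨h.2.2.1.1, fun p hp => le_trans ?_ (h.2.2.1.2 p hp)⟩
        have hX1 : (1 : ℝ) ≤ X := by
          have : 1 ≤ X := by omega
          exact_mod_cast this
        unfold zI zt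
        exact Nat.ceil_le_ceil (Real.rpow_le_rpow_of_exponent_le hX1 (by norm_num))
      rw [hr, mul_one]
      exact hW X _
    · rw [abs_zero]
      have hr : 0 ≤ rg (zI X) n := by
        unfold rg
        split_ifs <;> norm_num
      positivity
  · show |gty (kp B' X) X (W X) n| ≤ K0
    have h1 := hs X (by omega) (W X) (hW X) n
    have hXe : Real.exp C ≤ (X : ℝ) := by
      refine (Nat.le_ceil _).trans ?_
      exact_mod_cast (show ⌈Real.exp C⌉₊ ≤ X by omega)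
    have hX0 : (0 : ℝ) < X := lt_of_lt_of_le (Real.exp_pos C) hXe
    have hlog : C ≤ Real.log X := by
      rw [Real.le_log_iff_exp_le hX0]
      exact hXe
    have hlp : 0 < Real.log X := lt_of_lt_of_le hC hlog
    have h2 : C / Real.log X ≤ 1 := by
      rw [div_le_one hlp]
      exact hlog
    linarith
  · exact hv X (by omega) (W X) (hW X)

theorem majI_i (B' K0 : ℕ) (W : ℕ → Finset ℕ → ℝ) (hW : ∀ X T, |W X T| ≤ K0) :
    MajI (fun X => wty (kp B' X) X (W X)) (fun X => gty (kp B' X) X (W X)) := by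
  intro A B
  obtain ⟨D0, hD⟩ := maj_i A B B' (K0 : ℝ)
  refine ⟨D0, fun D' hD' => ?_⟩
  obtain ⟨X0, hX0⟩ := hD D' hD'
  refine ⟨X0, fun X hX θ hθ => ?_⟩
  have h := hX0 X hX (W X) (hW X) θ hθ
  have e : WI (fun X => wty (kp B' X) X (W X)) (fun X => gty (kp B' X) X (W X)) (-1)
      (wX D' X) X θ = ∑ n ∈ Icc 1 X, ((wty (kp B' X) X (W X) n -
        gty (kp B' X) X (W X) n * f1 (wX D' X) n : ℝ) : ℂ) * ee ((n : ℝ) * θ) := by
    unfold WI fI
    refine Finset.sum_congr rfl fun n _ => ?_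
    congr 2
    ring
  rw [e]
  exact h

end Pool.MP_dd84fd_nt.IY
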