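import Pool.Agent.Lib.MP_dd84fd_nt.IY.BTy2

/-!
# IY-BF (0.4 h): the function `F`

Proof. `Ff_simple`: every `m ∣ n` is simple with `ty m ⊆ ty n` (so `#ty m ≤ 10`) and `n/m` rough: the term is `lam (ty m)`; `sum_div_ty`. `Ff_rough`: a non-zero term has `m` rough (simple) and `rg (n/m) ≠ 0`, so `n = m (n/m)` rough (`HX.rgh_mul_iff`). `Ff_abs`: each term is `≤ 2^13` (`0 ≤ rg ≤ 1`).
`card_div`: `n` rough, `n ≤ X < z^11`: at most 10 prime factors with multiplicity (`Ω(n) ≤ 10`: `z^Ω ≤ n`), `#divisors ≤ 2^Ω` (`HX.card_divisors_le_two_pow` in DcRg; see `HX.rg_divisors` for the same argument).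
-/

set_option autoImplicit false

namespace Pool.MP_dd84fd_nt.IY

open Finset Pool.MP_dd84fd_nt.HX

theorem Ff_simple {κ : ℝ} {z n : ℕ} {lam : Finset ℕ → ℝ} (h : Simp κ z n)
    (hc : (ty κ z n).card ≤ 10) : Ff κ z lam n = ∑ S ∈ (ty κ z n).powerset, lam S := by
  rw [← sum_div_ty h lam]
  unfold Ff
  refine Finset.sum_congr rfl fun m hm => ?_
  have hmn : m ∣ n := Nat.dvd_of_mem_divisors hm
  have hms := simp_dvd h hmn
  have hm0 : 0 < m := Nat.pos_of_mem_divisors hm
  have hsub : ty κ z m ⊆ ty κ z n :=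
    Finset.image_subset_image (Nat.primeFactors_mono hmn h.1.1)
  have hrg : rg z (n / m) = 1 := by
    unfold rg
    rw [if_pos]
    have h1 : m * (n / m) = n := Nat.mul_div_cancel' hmn
    have h2 : Rgh z (m * (n / m)) := by
      rw [h1]
      exact h.1
    exact ((rgh_mul_iff z m (n / m)).1 h2).2
  unfold lamN
  rw [if_pos ⟨hms, (Finset.card_le_card hsub).trans hc⟩, hrg, mul_one]

theorem Ff_rough {κ : ℝ} {z n : ℕ} {lam : Finset ℕ → ℝ} (hn : n ≠ 0) (h : ¬ Rgh z n) :
    Ff κ z lam n = 0 := by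
  unfold Ff
  refine Finset.sum_eq_zero fun m hm => ?_
  have hmn : m ∣ n := Nat.dvd_of_mem_divisors hm
  by_cases h1 : Simp κ z m ∧ (ty κ z m).card ≤ 10
  · by_cases h2 : Rgh z (n / m)
    · exfalso
      apply h
      have h3 : m * (n / m) = n := Nat.mul_div_cancel' hmn
      rw [← h3]
      exact (rgh_mul_iff z m (n / m)).2 ⟨h1.1.1, h2⟩
    · unfold rg
      rw [if_neg h2, mul_zero]
  · unfold lamN
    rw [if_neg h1, zero_mul]

theorem Ff_abs {κ : ℝ} {z n : ℕ} {lam : Finset ℕ → ℝ} (hl : ∀ S, |lam S| ≤ 2 ^ 13) :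
    |Ff κ z lam n| ≤ 2 ^ 13 * n.divisors.card := by
  unfold Ff
  refine (Finset.abs_sum_le_sum_abs _ _).trans ?_
  have h4 : ∀ m ∈ n.divisors, |lamN κ z lam m * rg z (n / m)| ≤ (2 : ℝ) ^ 13 := by
    intro m _
    rw [abs_mul]
    have h1 : |lamN κ z lam m| ≤ (2 : ℝ) ^ 13 := by
      unfold lamN
      split_ifs
      · exact hl _
      · rw [abs_zero]
        positivity
    have h2 := rg_nonneg z (n / m)
    have h3 : |rg z (n / m)| ≤ 1 := by
      rw [abs_of_nonneg h2.1]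
      exact h2.2
    calc |lamN κ z lam m| * |rg z (n / m)| ≤ (2 : ℝ) ^ 13 * 1 :=
          mul_le_mul h1 h3 (abs_nonneg _) (by positivity)
      _ = (2 : ℝ) ^ 13 := mul_one _
  refine (Finset.sum_le_sum h4).trans ?_
  rw [Finset.sum_const, nsmul_eq_mul, mul_comm]

theorem card_div {z n X : ℕ} (hz : 1 ≤ z) (hr : Rgh z n) (hn : n ≤ X)
    (hX : (X : ℝ) < (z : ℝ) ^ 11) : n.divisors.card ≤ 2 ^ 10 := by
  have hX' : X < z ^ 11 := by exact_mod_cast hX
  have hn0 : n ≠ 0 := hr.1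
  have hz2 : 2 ≤ z := by
    by_contra hc
    have h1 : z = 1 := by omega
    rw [h1, one_pow] at hX'
    omega
  have h3 : z ^ ArithmeticFunction.cardFactors n ≤ n := by
    rw [ArithmeticFunction.cardFactors_apply]
    calc z ^ n.primeFactorsList.length ≤ n.primeFactorsList.prod := by
          refine List.pow_card_le_prod _ _ fun p hp => ?_
          exact hr.2 p (by rwa [Nat.mem_primeFactors_iff_mem_primeFactorsList])
      _ = n := Nat.prod_primeFactorsList hn0
  have h4 : ArithmeticFunction.cardFactors n < 11 := by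
    have h5 : z ^ ArithmeticFunction.cardFactors n < z ^ 11 := lt_of_le_of_lt (h3.trans hn) hX'
    exact (Nat.pow_lt_pow_iff_right (by omega)).1 h5
  exact (card_divisors_le_two_pow n hn0).trans (Nat.pow_le_pow_right (by norm_num) (by omega))

end Pool.MP_dd84fd_nt.IY
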