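import Pool.Agent.Lib.MP_dd84fd_nt.IY.BDefs

/-!
# IY-BPar (0.6 h): inequalities between the parameters

Proof. Comparisons of powers of `X` (`Real.rpow_le_rpow_of_exponent_le`, `Real.rpow_add`), `X^(1/10) ≤ zt X ≤ X^(1/10) + 1 ≤ 2 X^(1/10)`; `α + 1/10 < β`: `4 X^(α+1/10) (log X)^k ≤ X^β` for large `X` (`isLittleO_log_rpow...` or `Real.isLittleO_pow_log_id_atTop`; the same is done in `HX/DcPar.lean`).
`X^α (2 X^(1-β) zt) (log X)^5 ≤ X` follows from the inequality before with `k = 5` multiplied by `X^(1-β)`. `kp B' X = 1/(log X)^B' ≤ 1/log X` for `B' ≥ 1`, small; `log (3/2) > 0.4`, `log (4/3) > 0.28`.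
-/

set_option autoImplicit false

namespace Pool.MP_dd84fd_nt.IY

open Finset Pool.MP_dd84fd_nt.HX

private theorem logpow (ε : ℝ) (hε : 0 < ε) (k : ℕ) : ∃ X0 : ℕ, ∀ X : ℕ, X0 ≤ X →
    4 * (Real.log X) ^ k ≤ (X : ℝ) ^ ε := by
  have h := (isLittleO_log_rpow_rpow_atTop (k : ℝ) hε).bound (by norm_num : (0 : ℝ) < 1 / 4)
  have h2 : ∀ᶠ X : ℕ in Filter.atTop, ‖Real.log (X : ℝ) ^ (k : ℝ)‖ ≤
      1 / 4 * ‖(X : ℝ) ^ ε‖ := tendsto_natCast_atTop_atTop.eventually h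
  obtain ⟨X0, hX0⟩ := Filter.eventually_atTop.1 h2
  refine ⟨X0, fun X hX => ?_⟩
  have h3 := hX0 X hX
  rw [Real.rpow_natCast] at h3
  have h4 : 0 ≤ (X : ℝ) ^ ε := by positivity
  rw [Real.norm_of_nonneg h4] at h3
  have h5 := (le_abs_self (Real.log (X : ℝ) ^ k)).trans h3
  linarith

private theorem log_ge (L : ℝ) : ∃ X0 : ℕ, ∀ X : ℕ, X0 ≤ X → L ≤ Real.log (X : ℝ) := by
  have hev : ∀ᶠ X : ℕ in Filter.atTop, L ≤ Real.log (X : ℝ) :=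
    (Real.tendsto_log_atTop.comp tendsto_natCast_atTop_atTop).eventually_ge_atTop L
  exact Filter.eventually_atTop.1 hev

theorem b_par (α β : ℝ) (h0 : 0 < α) (h1 : α + 1 / 10 < β) (h2 : β < 1 / 2) (k : ℕ) :
    ∃ X0 : ℕ, ∀ X : ℕ, X0 ≤ X → 1 ≤ X ∧ (k : ℝ) + 4 ≤ Real.log X ∧
      1 ≤ Real.log (Real.log X) ∧ 2 ≤ zt X ∧ (X : ℝ) ^ (1 / 10 : ℝ) ≤ zt X ∧
      (zt X : ℝ) ≤ 2 * (X : ℝ) ^ (1 / 10 : ℝ) ∧ (X : ℝ) < (zt X : ℝ) ^ 11 ∧ 2 ≤ (X : ℝ) ^ α ∧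
      2 * (X : ℝ) ^ α * zt X * (Real.log X) ^ k ≤ (X : ℝ) ^ β ∧
      (X : ℝ) ^ β * (X : ℝ) ^ (1 - β) = X ∧ 2 * (X : ℝ) ^ β ≤ (X : ℝ) ^ (1 - β) ∧
      (X : ℝ) ^ α * (2 * (X : ℝ) ^ (1 - β) * zt X) ≤ X5 X ∧ 1 ≤ X5 X := by
  have hε : 0 < β - α - 1 / 10 := by linarith
  obtain ⟨X1, hX1⟩ := log_ge ((k : ℝ) + 4)
  obtain ⟨X2, hX2⟩ := logpow α h0 0
  obtain ⟨X3, hX3⟩ := logpow (1 - 2 * β) (by linarith) 0
  obtain ⟨X4, hX4⟩ := logpow _ hε k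
  obtain ⟨X6, hX6⟩ := logpow _ hε 5
  refine ⟨max (max X1 X2) (max (max X3 X4) (max X6 2)), fun X hX => ?_⟩
  simp only [max_le_iff] at hX
  obtain ⟨⟨g1, g2⟩, ⟨g3, g4⟩, g6, g7⟩ := hX
  have e1 := hX1 X g1
  have e2 := hX2 X g2
  have e3 := hX3 X g3
  have e4 := hX4 X g4
  have e6 := hX6 X g6
  rw [pow_zero, mul_one] at e2 e3
  have hk : (0 : ℝ) ≤ k := Nat.cast_nonneg k
  have hlog : (4 : ℝ) ≤ Real.log (X : ℝ) := by linarith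
  have hXr : (1 : ℝ) < (X : ℝ) := by exact_mod_cast (by omega : 1 < X)
  have hXp : (0 : ℝ) < (X : ℝ) := by linarith
  have ha1 : (1 : ℝ) < (X : ℝ) ^ (1 / 10 : ℝ) := Real.one_lt_rpow hXr (by norm_num)
  have hz1 : (X : ℝ) ^ (1 / 10 : ℝ) ≤ zt X := Nat.le_ceil _
  have hz2 : (zt X : ℝ) ≤ 2 * (X : ℝ) ^ (1 / 10 : ℝ) := by
    have h3 : (zt X : ℝ) < (X : ℝ) ^ (1 / 10 : ℝ) + 1 := Nat.ceil_lt_add_one (by positivity)
    linarith
  have ha10 : ((X : ℝ) ^ (1 / 10 : ℝ)) ^ 10 = X := by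
    rw [← Real.rpow_natCast, ← Real.rpow_mul hXp.le]
    norm_num
  have hga : ∀ m : ℕ, 4 * (Real.log X) ^ m ≤ (X : ℝ) ^ (β - α - 1 / 10) →
      2 * (X : ℝ) ^ α * zt X * (Real.log X) ^ m ≤ (X : ℝ) ^ β := by
    intro m hm
    have hlm : 0 ≤ (Real.log X) ^ m := by positivity
    calc 2 * (X : ℝ) ^ α * zt X * (Real.log X) ^ m
        ≤ 2 * (X : ℝ) ^ α * (2 * (X : ℝ) ^ (1 / 10 : ℝ)) * (Real.log X) ^ m := by gcongr
      _ = ((X : ℝ) ^ α * (X : ℝ) ^ (1 / 10 : ℝ)) * (4 * (Real.log X) ^ m) := by ring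
      _ ≤ ((X : ℝ) ^ α * (X : ℝ) ^ (1 / 10 : ℝ)) * (X : ℝ) ^ (β - α - 1 / 10) := by gcongr
      _ = (X : ℝ) ^ β := by
          rw [← Real.rpow_add hXp, ← Real.rpow_add hXp]
          congr 1
          ring
  have hbb : (X : ℝ) ^ β * (X : ℝ) ^ (1 - β) = X := by
    rw [← Real.rpow_add hXp]
    have h5 : β + (1 - β) = 1 := by ring
    rw [h5, Real.rpow_one]
  have hX5 : (X : ℝ) ^ α * (2 * (X : ℝ) ^ (1 - β) * zt X) ≤ X5 X := by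
    rw [X5, le_div_iff₀ (by positivity)]
    calc (X : ℝ) ^ α * (2 * (X : ℝ) ^ (1 - β) * zt X) * (Real.log X) ^ 5
        = (2 * (X : ℝ) ^ α * zt X * (Real.log X) ^ 5) * (X : ℝ) ^ (1 - β) := by ring
      _ ≤ (X : ℝ) ^ β * (X : ℝ) ^ (1 - β) := by
          gcongr
          exact hga 5 e6
      _ = X := hbb
  refine ⟨by omega, e1, ?_, ?_, hz1, hz2, ?_, by linarith, hga k e4, hbb, ?_, hX5, ?_⟩
  · rw [Real.le_log_iff_exp_le (by linarith)]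
    linarith [Real.exp_one_lt_three]
  · have h3 : (1 : ℕ) < zt X := by
      have : (1 : ℝ) < zt X := lt_of_lt_of_le ha1 hz1
      exact_mod_cast this
    omega
  · calc (X : ℝ) = ((X : ℝ) ^ (1 / 10 : ℝ)) ^ 10 * 1 := by rw [ha10, mul_one]
      _ < ((X : ℝ) ^ (1 / 10 : ℝ)) ^ 10 * (X : ℝ) ^ (1 / 10 : ℝ) := by
          rw [ha10]
          exact mul_lt_mul_of_pos_left ha1 hXp
      _ = ((X : ℝ) ^ (1 / 10 : ℝ)) ^ 11 := by ring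
      _ ≤ (zt X : ℝ) ^ 11 := pow_le_pow_left₀ (by positivity) hz1 11
  · calc 2 * (X : ℝ) ^ β ≤ (X : ℝ) ^ (1 - 2 * β) * (X : ℝ) ^ β := by
          gcongr
          linarith
      _ = (X : ℝ) ^ (1 - β) := by
          rw [← Real.rpow_add hXp]
          congr 1
          ring
  · have h3 : (1 : ℝ) ≤ (X : ℝ) ^ (1 - β) := Real.one_le_rpow hXr.le (by linarith)
    have h4 : (1 : ℝ) ≤ zt X := by linarith
    have h5 : (2 : ℝ) ≤ (X : ℝ) ^ α := by linarith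
    calc (1 : ℝ) ≤ 2 * (2 * 1 * 1) := by norm_num
      _ ≤ (X : ℝ) ^ α * (2 * (X : ℝ) ^ (1 - β) * zt X) := by gcongr
      _ ≤ X5 X := hX5

theorem kp_par (B' : ℕ) (hB : 1 ≤ B') : ∃ X0 : ℕ, ∀ X : ℕ, X0 ≤ X → 0 < kp B' X ∧
    kp B' X ≤ 1 / 100 ∧ 11 * kp B' X ≤ Real.log (3 / 2) ∧
    Real.log (3 / 2) + 10 * kp B' X < Real.log 2 := by
  obtain ⟨X0, hX0⟩ := log_ge 1000
  refine ⟨X0, fun X hX => ?_⟩
  have hlog := hX0 X hX
  have h1 : (1000 : ℝ) ≤ (Real.log X) ^ B' := by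
    calc (1000 : ℝ) ≤ (Real.log X) ^ 1 := by rw [pow_one]; exact hlog
      _ ≤ (Real.log X) ^ B' := pow_le_pow_right₀ (by linarith) hB
  have h2 : kp B' X ≤ 1 / 1000 := by
    rw [kp]
    exact one_div_le_one_div_of_le (by norm_num) h1
  have h3 : 0 < kp B' X := by
    rw [kp]
    positivity
  have h4 : (1 : ℝ) / 3 ≤ Real.log (3 / 2) := by
    have := Real.one_sub_inv_le_log_of_pos (by norm_num : (0 : ℝ) < 3 / 2)
    norm_num at this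
    linarith
  have h5 : Real.log (3 / 2) + 1 / 4 ≤ Real.log 2 := by
    have h6 := Real.one_sub_inv_le_log_of_pos (by norm_num : (0 : ℝ) < 4 / 3)
    have h7 : Real.log 2 = Real.log (3 / 2) + Real.log (4 / 3) := by
      rw [← Real.log_mul (by norm_num) (by norm_num)]
      norm_num
    norm_num at h6
    linarith
  exact ⟨h3, by linarith, by linarith, by linarith⟩

end Pool.MP_dd84fd_nt.IY
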