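import Pool.Agent.Lib.MP_dd84fd_nt.IY.BTy1

/-!
# IY-BTy2 (0.7 h): divisors of simple numbers and subsets of the type

Proof. `n` simple: the divisors of `n` are the products `∏ p ∈ P', p`, `P' ⊆ n.primeFactors` (n squarefree; `primeFactors (∏ P') = P'`: `Nat.primeFactors_prod`; the same bijection is in `HX/DcSmo.lean` (`DcSmo_sum`)), and `P' ↦ image (bx κ z) P'` is a bijection between the subsets of `n.primeFactors` and the subsets of `ty κ z n`
(injective on `primeFactors`). `sum_div_ty`: compose. `one_split`: the only `m ∣ n` with `ty m = S` is the product of the primes with box in `S`; then `n/m` is simple (`simp_dvd`) and `ty (n/m) = ty n \ S` (`simp_split` with `n = m (n/m)`). Alternatively apply `sum_div_ty` to `F S' = if S' = S then 1 else 0`: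
for `m ∣ n` the term is `F (ty m)` (if `ty m = S` then automatically `ty (n/m) = ty n \ S`).
-/

set_option autoImplicit false

namespace Pool.MP_dd84fd_nt.IY

open Finset Pool.MP_dd84fd_nt.HX

theorem sum_div_ty {κ : ℝ} {z n : ℕ} (h : Simp κ z n) (F : Finset ℕ → ℝ) :
    ∑ m ∈ n.divisors, F (ty κ z m) = ∑ S ∈ (ty κ z n).powerset, F S := by
  classical
  have hn0 : n ≠ 0 := h.2.1.ne_zero
  refine Finset.sum_nbij (fun m => ty κ z m) ?_ ?_ ?_ (fun _ _ => rfl)
  · intro m hm
    rw [mem_powerset]
    exact Finset.image_subset_image (Nat.primeFactors_mono (Nat.dvd_of_mem_divisors hm) hn0)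
  · intro m hm m' hm' he
    have hm1 := Nat.dvd_of_mem_divisors (Finset.mem_coe.1 hm)
    have hm1' := Nat.dvd_of_mem_divisors (Finset.mem_coe.1 hm')
    have key : ∀ a b : ℕ, a ∣ n → b ∣ n → ty κ z a = ty κ z b →
        a.primeFactors ⊆ b.primeFactors := by
      intro a b ha hb hab p hp
      have h1 : bx κ z p ∈ ty κ z b := by
        rw [← hab]
        exact Finset.mem_image_of_mem _ hp
      obtain ⟨q, hq, hqp⟩ := Finset.mem_image.1 h1
      have h2 := h.2.2 q (Nat.primeFactors_mono hb hn0 hq) p (Nat.primeFactors_mono ha hn0 hp) hqp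
      rw [← h2]
      exact hq
    have he' : ty κ z m = ty κ z m' := he
    have h3 : m.primeFactors = m'.primeFactors :=
      Finset.Subset.antisymm (key m m' hm1 hm1' he') (key m' m hm1' hm1 he'.symm)
    rw [← Nat.prod_primeFactors_of_squarefree (h.2.1.squarefree_of_dvd hm1), h3,
      Nat.prod_primeFactors_of_squarefree (h.2.1.squarefree_of_dvd hm1')]
  · intro S hS
    have hS1 : S ⊆ ty κ z n := mem_powerset.1 (Finset.mem_coe.1 hS)
    have hpr : ∀ p ∈ n.primeFactors.filter (fun p : ℕ => bx κ z p ∈ S), p.Prime := fun p hp =>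
      Nat.prime_of_mem_primeFactors (mem_filter.1 hp).1
    refine ⟨∏ p ∈ n.primeFactors.filter (fun p : ℕ => bx κ z p ∈ S), p, ?_, ?_⟩
    · rw [Finset.mem_coe, Nat.mem_divisors]
      refine ⟨?_, hn0⟩
      exact (Finset.prod_dvd_prod_of_subset _ n.primeFactors (fun p => p)
        (filter_subset _ _)).trans (Nat.prod_primeFactors_dvd n)
    · show ty κ z _ = S
      unfold ty
      rw [Nat.primeFactors_prod hpr]
      ext j
      rw [Finset.mem_image]
      constructor
      · rintro ⟨p, hp, rfl⟩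
        exact (mem_filter.1 hp).2
      · intro hj
        obtain ⟨p, hp, hpj⟩ := Finset.mem_image.1 (hS1 hj)
        exact ⟨p, mem_filter.2 ⟨hp, by rw [hpj]; exact hj⟩, hpj⟩

theorem one_split {κ : ℝ} {z n : ℕ} (h : Simp κ z n) {S : Finset ℕ} (hS : S ⊆ ty κ z n) :
    ∑ m ∈ n.divisors, tI κ z S m * tI κ z (ty κ z n \ S) (n / m) = 1 := by
  classical
  have h1 : ∀ m ∈ n.divisors, tI κ z S m * tI κ z (ty κ z n \ S) (n / m) =
      (fun S' : Finset ℕ => if S' = S then (1 : ℝ) else 0) (ty κ z m) := by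
    intro m hm
    have hmn := Nat.dvd_of_mem_divisors hm
    have hs1 : Simp κ z m := simp_dvd h hmn
    have hs2 : Simp κ z (n / m) := simp_dvd h (Nat.div_dvd_of_dvd hmn)
    have hs : Simp κ z (m * (n / m)) := by rwa [Nat.mul_div_cancel' hmn]
    obtain ⟨hd, hu⟩ := simp_split hs
    rw [Nat.mul_div_cancel' hmn] at hu
    show tI κ z S m * tI κ z (ty κ z n \ S) (n / m) = if ty κ z m = S then (1 : ℝ) else 0
    by_cases he : ty κ z m = S
    · rw [if_pos he]
      have h2 : ty κ z (n / m) = ty κ z n \ S := by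
        rw [hu, ← he, Finset.union_sdiff_cancel_left hd]
      unfold tI
      rw [if_pos ⟨hs1, he⟩, if_pos ⟨hs2, h2⟩, one_mul]
    · rw [if_neg he]
      unfold tI
      rw [if_neg (fun h3 => he h3.2), zero_mul]
  rw [Finset.sum_congr rfl h1, sum_div_ty h (fun S' : Finset ℕ => if S' = S then (1 : ℝ) else 0),
    Finset.sum_ite_eq', if_pos (mem_powerset.2 hS)]

end Pool.MP_dd84fd_nt.IY
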