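import Pool.Agent.Lib.MP_dd84fd_nt.IY.BDefs

/-!
# IY-BTy3 (0.6 h): sizes of simple numbers

Proof. For a real number `m ≥ z`: `vlog j = log z + κ j` and `j = bx κ z m = ⌊(log m - log z)/κ⌋` give `vlog (bx m) ≤ log m < vlog (bx m) + κ`. `n` simple: `n = ∏ p` (squarefree, `Nat.prod_primeFactors_of_squarefree`), `log n = Σ log p`, `Σ_{p} vlog (bx p) = sg (ty n)` (`Finset.sum_image`, injective), `#ty = #primeFactors` (`Finset.card_image_of_injOn`).
`card_ty`: `z^#primeFactors ≤ n ≤ X < z^11`. `ty_lt`: `bx p ≤ log X / κ = (log X)^(B'+1)` (`κ = kp B' X`), `NJ = ⌊(log X)^(B'+1)⌋ + 1`. `lamN_supp`: `lamN m ≠ 0`: `m` simple, `#ty ≤ 10`, `log m ≤ sg (ty m) + 10 κ ≤ (1-β) log X + log (3/2) + 10 κ < (1-β) log X + log 2`.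
-/

set_option autoImplicit false

namespace Pool.MP_dd84fd_nt.IY

open Finset Pool.MP_dd84fd_nt.HX

theorem vlog_eq (κ : ℝ) (z j : ℕ) (hz : 1 ≤ z) : vlog κ z j = Real.log z + κ * j := by
  have hz0 : (z : ℝ) ≠ 0 := by
    have : (1 : ℝ) ≤ (z : ℝ) := by exact_mod_cast hz
    linarith
  unfold vlog ub
  rw [Real.log_mul hz0 (Real.exp_ne_zero _), Real.log_exp]

theorem vlog_bx {κ : ℝ} {z : ℕ} (hκ : 0 < κ) (hz : 1 ≤ z) {m : ℝ} (hm : (z : ℝ) ≤ m) :
    vlog κ z (bx κ z m) ≤ Real.log m ∧ Real.log m < vlog κ z (bx κ z m) + κ := by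
  have hz1 : (1 : ℝ) ≤ (z : ℝ) := by exact_mod_cast hz
  have hz0 : (0 : ℝ) < (z : ℝ) := by linarith
  have hm0 : 0 < m := by linarith
  rw [vlog_eq κ z _ hz]
  have hl : Real.log (m / z) = Real.log m - Real.log z := Real.log_div hm0.ne' hz0.ne'
  have hnn : 0 ≤ Real.log (m / z) / κ := by
    refine div_nonneg (Real.log_nonneg ?_) hκ.le
    rw [le_div_iff₀ hz0, one_mul]
    exact hm
  have h1 : ((bx κ z m : ℕ) : ℝ) ≤ Real.log (m / z) / κ := Nat.floor_le hnn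
  have h2 : Real.log (m / z) / κ < (bx κ z m : ℕ) + 1 := Nat.lt_floor_add_one _
  rw [le_div_iff₀ hκ] at h1
  rw [div_lt_iff₀ hκ] at h2
  constructor
  · linarith
  · linarith

theorem log_US (κ : ℝ) (z : ℕ) (hz : 1 ≤ z) (S : Finset ℕ) :
    Real.log (US κ z S) = sg (vlog κ z) S := by
  unfold US sg vlog
  refine Real.log_prod ?_
  intro j _
  have hz1 : (1 : ℝ) ≤ (z : ℝ) := by exact_mod_cast hz
  have : 0 < ub κ z j := by
    unfold ub
    exact mul_pos (by linarith) (Real.exp_pos _)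
  exact this.ne'

theorem card_ty_eq {κ : ℝ} {z n : ℕ} (h : Simp κ z n) :
    (ty κ z n).card = n.primeFactors.card := by
  unfold ty
  refine Finset.card_image_of_injOn ?_
  intro p hp q hq hpq
  exact h.2.2 p hp q hq hpq

theorem sg_ty {κ : ℝ} {z n : ℕ} (hκ : 0 < κ) (hz : 1 ≤ z) (h : Simp κ z n) :
    sg (vlog κ z) (ty κ z n) ≤ Real.log n ∧
      Real.log n ≤ sg (vlog κ z) (ty κ z n) + κ * (ty κ z n).card := by
  have hn : (n : ℝ) = ∏ p ∈ n.primeFactors, (p : ℝ) := by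
    conv_lhs => rw [← Nat.prod_primeFactors_of_squarefree h.2.1]
    push_cast
    rfl
  have hl : Real.log n = ∑ p ∈ n.primeFactors, Real.log p := by
    rw [hn]
    refine Real.log_prod ?_
    intro p hp
    exact_mod_cast (Nat.prime_of_mem_primeFactors hp).ne_zero
  have hs : sg (vlog κ z) (ty κ z n) = ∑ p ∈ n.primeFactors, vlog κ z (bx κ z p) := by
    unfold sg ty
    refine Finset.sum_image ?_
    intro p hp q hq hpq
    exact h.2.2 p hp q hq hpq
  have hb : ∀ p ∈ n.primeFactors, vlog κ z (bx κ z p) ≤ Real.log p ∧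
      Real.log p < vlog κ z (bx κ z p) + κ := by
    intro p hp
    exact vlog_bx hκ hz (by exact_mod_cast h.1.2 p hp)
  rw [card_ty_eq h, hs, hl]
  constructor
  · exact Finset.sum_le_sum fun p hp => (hb p hp).1
  · have h1 : ∑ p ∈ n.primeFactors, Real.log p ≤
        ∑ p ∈ n.primeFactors, (vlog κ z (bx κ z p) + κ) :=
      Finset.sum_le_sum fun p hp => (hb p hp).2.le
    rw [Finset.sum_add_distrib, Finset.sum_const, nsmul_eq_mul] at h1
    linarith

theorem card_ty {κ : ℝ} {z n X : ℕ} (hz : 1 ≤ z) (h : Simp κ z n) (hn : n ≤ X)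
    (hX : (X : ℝ) < (z : ℝ) ^ 11) : (ty κ z n).card ≤ 10 := by
  by_contra hc
  rw [card_ty_eq h] at hc
  have h9 : 11 ≤ n.primeFactors.card := by omega
  have h1 : z ^ n.primeFactors.card ≤ n := by
    conv_rhs => rw [← Nat.prod_primeFactors_of_squarefree h.2.1]
    exact Finset.pow_card_le_prod _ _ _ (fun p hp => h.1.2 p hp)
  have h2 : z ^ 11 ≤ z ^ n.primeFactors.card := Nat.pow_le_pow_right hz h9
  have h3 : z ^ 11 ≤ X := (h2.trans h1).trans hn
  have h4 : ((z : ℝ)) ^ 11 ≤ (X : ℝ) := by exact_mod_cast h3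
  linarith

theorem ty_lt (B' : ℕ) : ∃ X0 : ℕ, ∀ X : ℕ, X0 ≤ X → ∀ n : ℕ, n ≤ X →
    Simp (kp B' X) (zt X) n → ty (kp B' X) (zt X) n ⊆ range (NJ B' X) := by
  refine ⟨3, fun X hX n hn hs j hj => ?_⟩
  unfold ty at hj
  rw [Finset.mem_image] at hj
  obtain ⟨p, hp, rfl⟩ := hj
  rw [Finset.mem_range]
  unfold NJ
  refine Nat.lt_succ_of_le ?_
  have hX1 : (1 : ℝ) < (X : ℝ) := by exact_mod_cast (by omega : 1 < X)
  have hlX : 0 < Real.log X := Real.log_pos hX1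
  have hn0 : n ≠ 0 := hs.1.1
  have hpn : p ≤ n := Nat.le_of_dvd (Nat.pos_of_ne_zero hn0) (Nat.dvd_of_mem_primeFactors hp)
  have hpX : (p : ℝ) ≤ (X : ℝ) := by exact_mod_cast hpn.trans hn
  have hp0 : (0 : ℝ) < (p : ℝ) := by
    exact_mod_cast (Nat.prime_of_mem_primeFactors hp).pos
  have hz1 : (1 : ℝ) ≤ (zt X : ℝ) := by
    have h1 : (1 : ℝ) ≤ (X : ℝ) ^ (1 / 10 : ℝ) := Real.one_le_rpow hX1.le (by norm_num)
    exact h1.trans (Nat.le_ceil _)
  unfold bx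
  refine Nat.floor_le_floor ?_
  have hl : Real.log ((p : ℝ) / zt X) ≤ Real.log X := by
    refine Real.log_le_log (by positivity) ?_
    exact (div_le_self hp0.le hz1).trans hpX
  unfold kp
  rw [div_div_eq_mul_div, div_one, pow_succ, mul_comm]
  exact mul_le_mul_of_nonneg_left hl (by positivity)

theorem lamN_supp {β κ : ℝ} {X : ℕ} (hX : 1 ≤ X) (hκ : 0 < κ) (hz : 1 ≤ zt X)
    (hk : Real.log (3 / 2) + 10 * κ < Real.log 2) {lam : Finset ℕ → ℝ} (h : AdmL β κ X lam) {m : ℕ}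
    (hm : lamN κ (zt X) lam m ≠ 0) :
    Rgh (zt X) m ∧ (m : ℝ) < 2 * (X : ℝ) ^ (1 - β) := by
  classical
  unfold lamN at hm
  split_ifs at hm with hc
  · obtain ⟨hs, hcard⟩ := hc
    refine ⟨hs.1, ?_⟩
    have h1 := h.2 _ hm
    have h2 := (sg_ty hκ hz hs).2
    have hc8 : ((ty κ (zt X) m).card : ℝ) ≤ 10 := by exact_mod_cast hcard
    have h3 : κ * ((ty κ (zt X) m).card : ℝ) ≤ 10 * κ := by nlinarith
    have hX0 : (0 : ℝ) < (X : ℝ) := by exact_mod_cast hX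
    have hm0 : (0 : ℝ) < (m : ℝ) := by
      exact_mod_cast Nat.pos_of_ne_zero hs.1.1
    have hX2 : 0 < 2 * (X : ℝ) ^ (1 - β) := by positivity
    rw [← Real.log_lt_log_iff hm0 hX2, Real.log_mul (by norm_num) (by positivity),
      Real.log_rpow hX0]
    linarith
  · exact absurd rfl hm

end Pool.MP_dd84fd_nt.IY
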