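import Pool.Agent.Lib.MP_dd84fd_nt.IY.CUs

/-!
# IY-CDen (0.5 h): lower bound for the density of `rm + ep`; positivity; linearity

Proof. `gty_add`: `vty` is additive in `W`. `gty_nonneg`: every non-zero term has `k` simple, `m = n/k ≥ z`, type `T = insert (bx m) (ty k)` with `US T` in the range (`us_v`), `#T ≥ 1`: `0 ≤ E T` (`#T = 1`: `E T = 0`), and `k log(n/k) > 0`.
`gty_lower`: the term `k = 1`: `1` is simple (no prime factors), `ty 1 = ∅`, `zt X ≤ X5 X < n`, `vty n 1 = (R + E) {bx n} = 1` (`us_v` with `k = 1`): gives `1/log n`. The terms `k ≥ 2` are `≥ 0`: `k ≥ 2` has a prime factor, so `#T ≥ 2` and `R T + E T ≥ 0`.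
-/

set_option autoImplicit false

namespace Pool.MP_dd84fd_nt.IY

open Finset Pool.MP_67663b_nt.Odd Pool.MP_dd84fd_nt.En Pool.MP_dd84fd_nt.E2 Pool.MP_dd84fd_nt.HX

theorem gty_add (κ : ℝ) (X : ℕ) (R E : Finset ℕ → ℝ) (n : ℕ) :
    gty κ X (fun T => R T + E T) n = gty κ X R n + gty κ X E n := by
  classical
  unfold gty
  by_cases h : X5 X < n ∧ n ≤ X
  · rw [if_pos h, if_pos h, if_pos h, ← sum_add_distrib]
    refine sum_congr rfl fun k _ => ?_
    rw [← add_div]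
    congr 1
    unfold vty
    split_ifs
    · rfl
    · rw [add_zero]
  · rw [if_neg h, if_neg h, if_neg h, add_zero]

/-- the terms of `gty` are nonnegative if `W` is nonnegative at the types in the range -/
private lemma CDen_term (B' : ℕ) (hB : 1 ≤ B') : ∃ X0 : ℕ, ∀ X : ℕ, X0 ≤ X →
    ∀ R E : Finset ℕ → ℝ, TyCL (kp B' X) X R E → ∀ n : ℕ, X5 X < n → n ≤ X → ∀ k : ℕ, 1 ≤ k →
    0 ≤ vty (kp B' X) (zt X) E ((n : ℝ) / k) k / (k * Real.log ((n : ℝ) / k)) ∧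
    0 ≤ vty (kp B' X) (zt X) (fun T => R T + E T) ((n : ℝ) / k) k /
      (k * Real.log ((n : ℝ) / k)) := by
  classical
  obtain ⟨X1, hX1⟩ := us_v B' hB
  obtain ⟨X2, hX2⟩ := zt_log
  refine ⟨max X1 X2, fun X hX R E hT n hn5 hnX k hk => ?_⟩
  have hus := hX1 X ((le_max_left _ _).trans hX) n k hn5 hnX hk
  obtain ⟨hz2, -⟩ := hX2 X ((le_max_right _ _).trans hX)
  have hz2' : (2 : ℝ) ≤ zt X := by exact_mod_cast hz2
  have hk1 : (1 : ℝ) ≤ k := by exact_mod_cast hk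
  by_cases h : Simp (kp B' X) (zt X) k ∧ (zt X : ℝ) ≤ (n : ℝ) / k ∧
      ∀ j ∈ ty (kp B' X) (zt X) k, j < bx (kp B' X) (zt X) ((n : ℝ) / k)
  · obtain ⟨h1, h2, h3⟩ := hus h.1 h.2.1 h.2.2
    have hT' := hT _ h1 h2
    have hlog : 0 ≤ Real.log ((n : ℝ) / k) := Real.log_nonneg (by linarith [h.2.1])
    have hden : 0 ≤ (k : ℝ) * Real.log ((n : ℝ) / k) := mul_nonneg (by linarith) hlog
    unfold vty
    rw [if_pos h, if_pos h]
    rcases Nat.eq_zero_or_pos k.primeFactors.card with h0 | h0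
    · rw [h0, zero_add] at h3
      obtain ⟨hR, hE⟩ := hT'.1 h3
      simp only [hR, hE]
      constructor
      · rw [zero_div]
      · rw [add_zero]
        exact div_nonneg zero_le_one hden
    · obtain ⟨-, hRE, hE⟩ := hT'.2 (by omega)
      exact ⟨div_nonneg hE hden, div_nonneg hRE hden⟩
  · unfold vty
    rw [if_neg h, if_neg h, zero_div]
    exact ⟨le_refl _, le_refl _⟩

theorem gty_nonneg (B' : ℕ) (hB : 1 ≤ B') : ∃ X0 : ℕ, ∀ X : ℕ, X0 ≤ X →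
    ∀ R E : Finset ℕ → ℝ, TyCL (kp B' X) X R E → ∀ n : ℕ, 0 ≤ gty (kp B' X) X E n := by
  classical
  obtain ⟨X1, hX1⟩ := CDen_term B' hB
  refine ⟨X1, fun X hX R E hT n => ?_⟩
  unfold gty
  by_cases h : X5 X < n ∧ n ≤ X
  · rw [if_pos h]
    refine sum_nonneg fun k hk => ?_
    exact (hX1 X hX R E hT n h.1 h.2 k (mem_Icc.1 hk).1).1
  · rw [if_neg h]

theorem gty_lower (B' : ℕ) (hB : 1 ≤ B') : ∃ X0 : ℕ, ∀ X : ℕ, X0 ≤ X →
    ∀ R E : Finset ℕ → ℝ, TyCL (kp B' X) X R E → ∀ n : ℕ, X5 X < n → n ≤ X →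
    1 / Real.log n ≤ gty (kp B' X) X R n + gty (kp B' X) X E n := by
  classical
  obtain ⟨X1, hX1⟩ := CDen_term B' hB
  obtain ⟨X2, hX2⟩ := us_v B' hB
  obtain ⟨X3, hX3⟩ := X5_ge
  refine ⟨max (max X1 X2) (max X3 1), fun X hX R E hT n hn5 hnX => ?_⟩
  have hXX1 : X1 ≤ X := ((le_max_left _ _).trans (le_max_left _ _)).trans hX
  have hXX2 : X2 ≤ X := ((le_max_right _ _).trans (le_max_left _ _)).trans hX
  have hXX3 : X3 ≤ X := ((le_max_left _ _).trans (le_max_right _ _)).trans hX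
  have hX1' : 1 ≤ X := ((le_max_right _ _).trans (le_max_right _ _)).trans hX
  obtain ⟨h5, -⟩ := hX3 X hXX3
  have hsimp : Simp (kp B' X) (zt X) 1 := by
    refine ⟨⟨one_ne_zero, ?_⟩, squarefree_one, ?_⟩
    · intro p hp
      simp at hp
    · intro p hp
      simp at hp
  have hty : ty (kp B' X) (zt X) 1 = ∅ := by
    unfold ty
    simp
  have hn1 : (zt X : ℝ) ≤ (n : ℝ) / (1 : ℕ) := by
    rw [Nat.cast_one, div_one]
    linarith
  have hall : ∀ j ∈ ty (kp B' X) (zt X) 1, j < bx (kp B' X) (zt X) ((n : ℝ) / (1 : ℕ)) := by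
    rw [hty]
    intro j hj
    simp at hj
  obtain ⟨h1, h2, h3⟩ := hX2 X hXX2 n 1 hn5 hnX le_rfl hsimp hn1 hall
  have h3' : (insert (bx (kp B' X) (zt X) ((n : ℝ) / (1 : ℕ))) (ty (kp B' X) (zt X) 1)).card
      = 1 := by
    rw [h3]
    simp
  obtain ⟨hR, hE⟩ := (hT _ h1 h2).1 h3'
  have hone : vty (kp B' X) (zt X) (fun T => R T + E T) ((n : ℝ) / (1 : ℕ)) 1 /
      ((1 : ℕ) * Real.log ((n : ℝ) / (1 : ℕ))) = 1 / Real.log n := by
    unfold vty
    rw [if_pos ⟨hsimp, hn1, hall⟩]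
    simp only [hR, hE]
    rw [Nat.cast_one, div_one, one_mul, add_zero]
  rw [← gty_add, ← hone]
  unfold gty
  rw [if_pos ⟨hn5, hnX⟩]
  exact Finset.single_le_sum (f := fun k : ℕ => vty (kp B' X) (zt X) (fun T => R T + E T)
      ((n : ℝ) / k) k / (k * Real.log ((n : ℝ) / k)))
    (fun k hk => (hX1 X hXX1 R E hT n hn5 hnX k (mem_Icc.1 hk).1).2) (mem_Icc.2 ⟨le_rfl, hX1'⟩)

end Pool.MP_dd84fd_nt.IY
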