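import Pool.Agent.Lib.MP_dd84fd_nt.IY.TDefs
import Pool.Agent.Lib.MP_dd84fd_nt.HX.Iface

/-!
# Theorem I, part C (densities, major arcs, main term): definitions (helper5)

`kp B' X = (log X)^(-B')`. `li a b = ∫_a^b du / log u` (`0` if `b < a`). `NJ` bounds the boxes of the
numbers `≤ X`. `vj` = value of `v(., k)` on box `j`. `mt` = common main term of the class sums.
-/

set_option autoImplicit false

namespace Pool.MP_dd84fd_nt.IY

open Finset Pool.MP_67663b_nt.Odd Pool.MP_dd84fd_nt.En Pool.MP_dd84fd_nt.E2 Pool.MP_dd84fd_nt.HX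

/-- `(log X)^(-B')` -/
noncomputable def kp (B' X : ℕ) : ℝ := 1 / (Real.log X) ^ B'

/-- `∫_a^b du / log u` (`0` if `b < a`) -/
noncomputable def li (a b : ℝ) : ℝ := if a ≤ b then ∫ u in a..b, 1 / Real.log u else 0

/-- all boxes of numbers `≤ X` are `< NJ` -/
noncomputable def NJ (B' X : ℕ) : ℕ := ⌊(Real.log X) ^ (B' + 1)⌋₊ + 1

/-- the value of `v(., k)` on box `j` -/
noncomputable def vj (κ : ℝ) (z : ℕ) (W : Finset ℕ → ℝ) (j k : ℕ) : ℝ :=
  open Classical in if Simp κ z k ∧ ∀ i ∈ ty κ z k, i < j then W (insert j (ty κ z k)) else 0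

/-- the main term of the class sums up to `t` -/
noncomputable def mt (B' X : ℕ) (W : Finset ℕ → ℝ) (t : ℕ) : ℝ :=
  ∑ k ∈ Icc 1 X, ∑ j ∈ range (NJ B' X), vj (kp B' X) (zt X) W j k *
    li (max (ub (kp B' X) (zt X) j) (X5 X / k)) (min (ub (kp B' X) (zt X) (j + 1)) ((t : ℝ) / k))

/-- indicator function of the primes in `(X5, X]` -/
noncomputable def pI (X n : ℕ) : ℝ :=
  open Classical in if X5 X < n ∧ n ≤ X ∧ n.Prime then 1 else 0

/-- the hypotheses on the types in Lemma CL -/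
def TyCL (κ : ℝ) (X : ℕ) (R E : Finset ℕ → ℝ) : Prop :=
  ∀ T : Finset ℕ, X5 X / 2 ≤ US κ (zt X) T → US κ (zt X) T ≤ X →
    (T.card = 1 → R T = 1 ∧ E T = 0) ∧ (2 ≤ T.card → R T ≤ 0 ∧ 0 ≤ R T + E T ∧ 0 ≤ E T)

end Pool.MP_dd84fd_nt.IY
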