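import Pool.Agent.Lib.MP_dd84fd_nt.IY.BFm
import Pool.Agent.Lib.MP_dd84fd_nt.IY.CDefs

/-!
# Theorem I: interface between the densities, the numerics and the scale theorem

`Clo`: the circle method output for one family. `FinalAB`: two-sided bound for `g` from bounds
`a ≤ log n · (density of R)`, `log n · (density of E) ≤ b`, `log n · (density of R + E) ≤ c`.
-/

set_option autoImplicit false

namespace Pool.MP_dd84fd_nt.IY

open Finset Pool.MP_67663b_nt.Odd Pool.MP_dd84fd_nt.En Pool.MP_dd84fd_nt.E2 Pool.MP_dd84fd_nt.HX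

/-- the circle method output for one family -/
def Clo (B' D' X : ℕ) (W : Finset ℕ → ℝ) (n : ℕ) : Prop :=
  |cvv (wty (kp B' X) X W) (wty (kp B' X) X W) n -
    cvv (fun m => gty (kp B' X) X W m * f1 (wX D' X) m)
      (fun m => gty (kp B' X) X W m * f1 (wX D' X) m) n| ≤ X / (Real.log X) ^ 5

/-- the two-sided bound for `g` -/
def FinalAB : Prop := ∀ B' : ℕ, 1 ≤ B' → ∀ a b c δ : ℝ, 0 < δ → 0 ≤ a → 0 ≤ b →
  ∃ D0 : ℕ, ∀ D' : ℕ, D0 ≤ D' → ∃ X0 : ℕ, ∀ X : ℕ, X0 ≤ X → ∀ R E : Finset ℕ → ℝ,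
    TyCL (kp B' X) X R E →
    (∀ n : ℕ, X5 X < n → n ≤ X → a ≤ Real.log n * gty (kp B' X) X R n ∧
      Real.log n * gty (kp B' X) X E n ≤ b ∧
      Real.log n * gty (kp B' X) X (fun T => R T + E T) n ≤ c) →
    ∀ n : ℕ, X < 2 * n → n ≤ X → Even n → Clo B' D' X R n → Clo B' D' X E n →
      Clo B' D' X (fun T => R T + E T) n →
      (a ^ 2 - b ^ 2 - δ) * (SS n * JJ n) ≤ g n ∧ (g n : ℝ) ≤ (c ^ 2 + δ) * (SS n * JJ n)

end Pool.MP_dd84fd_nt.IY
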