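import Pool.Agent.Lib.MP_dd84fd_nt.IY.Fin
import Pool.Agent.Lib.MP_dd84fd_nt.IY.FabDefs
import Pool.Agent.Lib.MP_dd84fd_nt.IY.CDen
import Pool.Agent.Lib.MP_dd84fd_nt.IY.CW
import Pool.Agent.Lib.MP_dd84fd_nt.En.Sing

/-!
# Theorem I at one scale: from GEN, the final inequality and the numerics

`NumA κ`: the bounds for the densities. `FinalAB`: the final inequality. `scale_of`: these and
`GenI` give `ScaleI κ`.
-/

set_option autoImplicit false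

namespace Pool.MP_dd84fd_nt.IY

open Finset Pool.MP_67663b_nt.Odd Pool.MP_dd84fd_nt.En Pool.MP_dd84fd_nt.E2 Pool.MP_dd84fd_nt.LS
  Pool.MP_dd84fd_nt.GX Pool.MP_dd84fd_nt.HX

/-- the bounds for the densities of the families at `(th, e)` -/
def NumI (th e f s : ℝ) : Prop := ∀ B' : ℕ, 1 ≤ B' → ∃ X0 : ℕ, ∀ X : ℕ, X0 ≤ X →
  ∀ n : ℕ, X5 X < n → n ≤ X →
    1 - f ≤ Real.log n * gty (kp B' X) X (rmT (aI th e) (bI th e) (kp B' X) X) n ∧
    Real.log n * gty (kp B' X) X (spT (aI th e) (bI th e) (kp B' X) X) n ≤ 1 + s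

/-- the numerics for every `th` -/
def NumA (κ : ℝ) : Prop := ∀ th : ℝ, 2 / 5 < th → th < 1 / 2 → ∃ e0 f s : ℝ, 0 < e0 ∧ f ≤ 1 ∧
  0 ≤ f + s ∧ 2 * f - f ^ 2 + (f + s) ^ 2 < κ * (1 - 2 * th) ^ 2 ∧
  (1 + s) ^ 2 - 1 < κ * (1 - 2 * th) ^ 2 ∧ ∀ e : ℝ, 0 < e → e ≤ e0 → NumI th e f s

theorem scale_JJ (n : ℕ) : 0 ≤ JJ n := by
  unfold JJ
  refine Finset.sum_nonneg fun m _ => ?_
  exact div_nonneg zero_le_one (mul_nonneg (Real.log_natCast_nonneg _) (Real.log_natCast_nonneg _))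

theorem scale_of (κ : ℝ) (hG : IX.GenI) (hF : FinalAB) (hN : NumA κ) : ScaleI κ := by
  classical
  obtain ⟨B, hB⟩ := hG 5
  obtain ⟨B0, hB0⟩ := decI_fam B
  obtain ⟨B', hB'0, hB'1⟩ : ∃ B' : ℕ, B0 ≤ B' ∧ 1 ≤ B' := ⟨max B0 1, le_max_left _ _, le_max_right _ _⟩
  obtain ⟨C2, hC2⟩ := hB0 B' hB'0
  obtain ⟨C, hC⟩ := hB (2 ^ 24) (B' + 3) C2
  refine ⟨C + 1, fun th hth hth2 => ?_⟩
  obtain ⟨e1, f, s, he1, hf1, hfs, hl, hu, hnum'⟩ := hN th hth hth2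
  obtain ⟨δ, hδ, hδ1, hδ2⟩ : ∃ δ : ℝ, 0 < δ ∧
      2 * f - f ^ 2 + (f + s) ^ 2 + δ ≤ κ * (1 - 2 * th) ^ 2 ∧
      (1 + s) ^ 2 - 1 + δ ≤ κ * (1 - 2 * th) ^ 2 := by
    refine ⟨min (κ * (1 - 2 * th) ^ 2 - (2 * f - f ^ 2 + (f + s) ^ 2))
      (κ * (1 - 2 * th) ^ 2 - ((1 + s) ^ 2 - 1)), lt_min (by linarith) (by linarith), ?_, ?_⟩
    · have := min_le_left (κ * (1 - 2 * th) ^ 2 - (2 * f - f ^ 2 + (f + s) ^ 2))
        (κ * (1 - 2 * th) ^ 2 - ((1 + s) ^ 2 - 1))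
      linarith
    · have := min_le_right (κ * (1 - 2 * th) ^ 2 - (2 * f - f ^ 2 + (f + s) ^ 2))
        (κ * (1 - 2 * th) ^ 2 - ((1 + s) ^ 2 - 1))
      linarith
  have hab : 1 - κ * (1 - 2 * th) ^ 2 ≤ (1 - f) ^ 2 - (f + s) ^ 2 - δ := by
    have i1 : (1 - f) ^ 2 = 1 - 2 * f + f ^ 2 := by ring
    rw [i1]
    linarith
  have hc : (1 + s) ^ 2 + δ ≤ 1 + κ * (1 - 2 * th) ^ 2 := by linarith
  refine ⟨min e1 ((th - 2 / 5) / 100), lt_min he1 (by linarith), fun e he hee K => ?_⟩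
  have hA : IX.Adm th e := ⟨hth, hth2.le, he, hee.trans (min_le_right _ _)⟩
  obtain ⟨d1, d2, d3⟩ := hC2 th e hA
  have bR : ∀ (X : ℕ) (T : Finset ℕ), |rmT (aI th e) (bI th e) (kp B' X) X T| ≤
      ((2 ^ 24 : ℕ) : ℝ) := fun X T => (rmT_bd _ _ _ X T).1.trans (by norm_num)
  have bE : ∀ (X : ℕ) (T : Finset ℕ), |epT (aI th e) (bI th e) (kp B' X) X T| ≤
      ((2 ^ 24 : ℕ) : ℝ) := fun X T => (rmT_bd _ _ _ X T).2.trans (by norm_num)
  have bS : ∀ (X : ℕ) (T : Finset ℕ), |spT (aI th e) (bI th e) (kp B' X) X T| ≤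
      ((2 ^ 24 : ℕ) : ℝ) := by
    intro X T
    obtain ⟨s1, s2⟩ := rmT_bd (aI th e) (bI th e) (kp B' X) X T
    calc |spT (aI th e) (bI th e) (kp B' X) X T| ≤ |rmT (aI th e) (bI th e) (kp B' X) X T| +
          |epT (aI th e) (bI th e) (kp B' X) X T| := abs_add_le _ _
      _ ≤ 2 ^ 23 + 2 ^ 23 := add_le_add s1 s2
      _ = ((2 ^ 24 : ℕ) : ℝ) := by norm_num
  obtain ⟨D1, hD1⟩ := hC th e hA _ _ (w1_i B' _ (by norm_num)
    (fun X => rmT (aI th e) (bI th e) (kp B' X) X) bR) d1 (majI_i B' _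
    (fun X => rmT (aI th e) (bI th e) (kp B' X) X) bR) K
  obtain ⟨D2, hD2⟩ := hC th e hA _ _ (w1_i B' _ (by norm_num)
    (fun X => epT (aI th e) (bI th e) (kp B' X) X) bE) d2 (majI_i B' _
    (fun X => epT (aI th e) (bI th e) (kp B' X) X) bE) K
  obtain ⟨D3, hD3⟩ := hC th e hA _ _ (w1_i B' _ (by norm_num)
    (fun X => spT (aI th e) (bI th e) (kp B' X) X) bS) d3 (majI_i B' _
    (fun X => spT (aI th e) (bI th e) (kp B' X) X) bS) K
  obtain ⟨D4, hD4⟩ := hF B' hB'1 (1 - f) (f + s) (1 + s) δ hδ (by linarith) hfs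
  set D' := max (max D1 D2) (max D3 D4) with hD'
  obtain ⟨X1, h1⟩ := hD1 D' ((le_max_left _ _).trans (le_max_left _ _))
  obtain ⟨X2, h2⟩ := hD2 D' ((le_max_right _ _).trans (le_max_left _ _))
  obtain ⟨X3, h3⟩ := hD3 D' ((le_max_left _ _).trans (le_max_right _ _))
  obtain ⟨X4, h4⟩ := hD4 D' ((le_max_right _ _).trans (le_max_right _ _))
  obtain ⟨X5', h5⟩ := hnum' e he (hee.trans (min_le_left _ _)) B' hB'1
  obtain ⟨X6, h6⟩ := tyclI th e hA B' hB'1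
  obtain ⟨X7, h7⟩ := MP_log_large 3
  obtain ⟨X8, h8⟩ : ∃ X8 : ℕ, ∀ X : ℕ, X8 ≤ X → (3 : ℝ) ≤ (X : ℝ) ^ (e / 20) := by
    have h := ((tendsto_rpow_atTop (by positivity : (0 : ℝ) < e / 20)).comp
      (tendsto_natCast_atTop_atTop (R := ℝ))).eventually_ge_atTop 3
    obtain ⟨X0, h1⟩ := Filter.eventually_atTop.1 h
    exact ⟨X0, fun X hX => h1 X hX⟩
  refine ⟨max (max (max X1 X2) (max X3 X4)) (max (max X5' X6) (max X7 (max X8 1))),
    fun X hX => ?_⟩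
  simp only [max_le_iff] at hX
  obtain ⟨⟨⟨x1, x2⟩, x3, x4⟩, ⟨x5, x6⟩, x7, x8, x9⟩ := hX
  obtain ⟨Da, Ea, a1, a2, a3, a4⟩ := h1 X x1
  obtain ⟨Db, Eb, b1, b2, b3, b4⟩ := h2 X x2
  obtain ⟨Dc, Ec, c1, c2, c3, c4⟩ := h3 X x3
  have hL : 3 ≤ Real.log (X : ℝ) := h7 X x7
  have hX0 : (0 : ℝ) < X := by exact_mod_cast (by omega : 0 < X)
  refine ⟨Da ∪ (Db ∪ Dc), ?_, ?_, ?_⟩
  · have i1 : ((Da ∪ (Db ∪ Dc)).card : ℝ) ≤ Da.card + (Db.card + Dc.card) := by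
      have := (card_union_le Da (Db ∪ Dc)).trans
        (Nat.add_le_add_left (card_union_le Db Dc) _)
      exact_mod_cast this
    have i2 : (0 : ℝ) ≤ Real.log X ^ C := by positivity
    calc ((Da ∪ (Db ∪ Dc)).card : ℝ) ≤ 3 * Real.log X ^ C := by linarith
      _ ≤ Real.log X * Real.log X ^ C := mul_le_mul_of_nonneg_right hL i2
      _ = Real.log X ^ (C + 1) := by ring
  · intro d hd
    rcases mem_union.1 hd with hd | hd
    · exact a2 d hd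
    rcases mem_union.1 hd with hd | hd
    · exact b2 d hd
    · exact c2 d hd
  · have hsub : (Icc 1 X).filter (fun n => X < 2 * n ∧ Even n ∧
        (∀ d ∈ Da ∪ (Db ∪ Dc), ¬ d ∣ n) ∧ Bad (κ * (1 - 2 * th) ^ 2) n) ⊆ Ea ∪ (Eb ∪ Ec) := by
      intro n hn
      rw [mem_filter, mem_Icc] at hn
      obtain ⟨⟨n1, n2⟩, n3, n4, n5, n6⟩ := hn
      by_contra hcon
      rw [mem_union, mem_union, not_or, not_or] at hcon
      obtain ⟨k1, k2, k3⟩ := hcon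
      have q1 := a4 n n3 n2 n4 k1 fun d hd => n5 d (mem_union_left _ hd)
      have q2 := b4 n n3 n2 n4 k2 fun d hd => n5 d (mem_union_right _ (mem_union_left _ hd))
      have q3 := c4 n n3 n2 n4 k3 fun d hd => n5 d (mem_union_right _ (mem_union_right _ hd))
      have hnu : ∀ m : ℕ, X5 X < m → m ≤ X →
          1 - f ≤ Real.log m * gty (kp B' X) X (rmT (aI th e) (bI th e) (kp B' X) X) m ∧
          Real.log m * gty (kp B' X) X (epT (aI th e) (bI th e) (kp B' X) X) m ≤ f + s ∧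
          Real.log m * gty (kp B' X) X (fun T => rmT (aI th e) (bI th e) (kp B' X) X T +
            epT (aI th e) (bI th e) (kp B' X) X T) m ≤ 1 + s := by
        intro m hm hmX
        obtain ⟨t1, t2⟩ := h5 X x5 m hm hmX
        have t3 : gty (kp B' X) X (spT (aI th e) (bI th e) (kp B' X) X) m =
            gty (kp B' X) X (rmT (aI th e) (bI th e) (kp B' X) X) m +
            gty (kp B' X) X (epT (aI th e) (bI th e) (kp B' X) X) m :=
          gty_add _ _ _ _ _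
        refine ⟨t1, ?_, t2⟩
        rw [t3, mul_add] at t2
        linarith
      obtain ⟨r1, r2⟩ := h4 X x4 _ _ (h6 X x6) hnu n n3 n2 n4 q1 q2 q3
      have hSJ : 0 ≤ SS n * JJ n := by
        have s1 : 2 * Pool.MP_dd84fd_nt.En.C2 ≤ SS n := SS_ge n
        have s2 : 0 < Pool.MP_dd84fd_nt.En.C2 := C2_pos
        exact mul_nonneg (by linarith) (scale_JJ n)
      unfold Bad at n6
      have r3 := (mul_le_mul_of_nonneg_right hab hSJ).trans r1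
      have r4 := r2.trans (mul_le_mul_of_nonneg_right hc hSJ)
      have r5 : |(g n : ℝ) - SS n * JJ n| ≤ κ * (1 - 2 * th) ^ 2 * (SS n * JJ n) := by
        rw [abs_le]
        constructor
        · linarith
        · linarith
      linarith
    have i1 : (((Icc 1 X).filter (fun n => X < 2 * n ∧ Even n ∧
        (∀ d ∈ Da ∪ (Db ∪ Dc), ¬ d ∣ n) ∧ Bad (κ * (1 - 2 * th) ^ 2) n)).card : ℝ) ≤
        Ea.card + (Eb.card + Ec.card) := by
      have := (card_le_card hsub).trans ((card_union_le Ea (Eb ∪ Ec)).trans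
        (Nat.add_le_add_left (card_union_le Eb Ec) _))
      exact_mod_cast this
    have i2 : (X : ℝ) ^ (th - e / 5) = (X : ℝ) ^ (e / 20) * (X : ℝ) ^ (th - e / 4) := by
      rw [← Real.rpow_add hX0]
      congr 1
      ring
    rw [i2]
    have i3 : 0 ≤ (X : ℝ) ^ (th - e / 4) := by positivity
    calc _ ≤ 3 * (X : ℝ) ^ (th - e / 4) := by linarith
      _ ≤ _ := mul_le_mul_of_nonneg_right (h8 X x8) i3

end Pool.MP_dd84fd_nt.IY
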