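import Pool.Agent.Lib.MP_dd84fd_nt.IY.CUs

/-!
# IY-CCl (0.5 h): Lemma CL for numbers, vector sieve

Proof. `cl_num`: outside `(X5, X]` all are `0`. `n` in `(X5, X]` prime: `n ≥ zt X`, so `n` is simple with one prime factor: `#ty n = 1`, `US` in the range (`us_n`): `R = 1`, `E = 0`, `pI = 1`. `n` simple not prime (`n > 1` squarefree): at least two prime factors, `#ty n ≥ 2`: `R ≤ 0 ≤ R + E`, `0 ≤ E`, `pI = 0`. `n` not simple: `wty = 0`, and `n` is not prime.
`vec_sieve`: `e = P - r`, `0 ≤ e ≤ E`: `P m P m' - r m r m' = r m e m' + e m P m'`; sum over `m + m' = n` (symmetric): `Σ e m' (r m + P m) ≥ Σ e m' r m ≥ - Σ e m' E m ≥ - Σ E m' E m` (`P ≥ 0`, `r ≥ -E` because `r ≥ P - E`).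
`pI_le_g`: `pI X m pI X (n-m) ≤ [m, n - m prime]`.
-/

set_option autoImplicit false

namespace Pool.MP_dd84fd_nt.IY

open Finset Pool.MP_67663b_nt.Odd Pool.MP_dd84fd_nt.En Pool.MP_dd84fd_nt.E2 Pool.MP_dd84fd_nt.HX

private theorem simp_prime {κ : ℝ} {z n : ℕ} (hn : n.Prime) (hz : z ≤ n) : Simp κ z n := by
  refine ⟨⟨hn.ne_zero, fun p hp => ?_⟩, hn.prime.squarefree, fun p hp q hq _ => ?_⟩
  · rw [hn.primeFactors, mem_singleton] at hp
    rw [hp]; exact hz
  · rw [hn.primeFactors, mem_singleton] at hp hq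
    rw [hp, hq]

private theorem two_le_pf {n : ℕ} (h1 : 1 < n) (hsq : Squarefree n) (hp : ¬ n.Prime) :
    2 ≤ n.primeFactors.card := by
  by_contra hc
  have hc' : n.primeFactors.card = 0 ∨ n.primeFactors.card = 1 := by omega
  rcases hc' with h | h
  · rw [card_eq_zero, Nat.primeFactors_eq_empty] at h
    omega
  · obtain ⟨p, hpp⟩ := card_eq_one.1 h
    have h2 := Nat.prod_primeFactors_of_squarefree hsq
    rw [hpp, prod_singleton] at h2
    apply hp
    rw [← h2]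
    exact Nat.prime_of_mem_primeFactors (n := n) (by rw [hpp]; simp)

theorem cl_num (B' : ℕ) (hB : 1 ≤ B') : ∃ X0 : ℕ, ∀ X : ℕ, X0 ≤ X → ∀ R E : Finset ℕ → ℝ,
    TyCL (kp B' X) X R E → ∀ n : ℕ, wty (kp B' X) X R n ≤ pI X n ∧
      pI X n ≤ wty (kp B' X) X R n + wty (kp B' X) X E n ∧ 0 ≤ wty (kp B' X) X E n := by
  classical
  obtain ⟨X1, hX1⟩ := us_n B' hB
  obtain ⟨X2, hX2⟩ := X5_ge
  refine ⟨max X1 X2, fun X hX R E hT n => ?_⟩
  have h1 := hX1 X ((le_max_left _ _).trans hX)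
  have h2 := hX2 X ((le_max_right _ _).trans hX)
  have hpi0 : 0 ≤ pI X n := by
    unfold pI; split_ifs <;> norm_num
  by_cases hs : X5 X < n ∧ n ≤ X ∧ Simp (kp B' X) (zt X) n
  · have hR : wty (kp B' X) X R n = R (ty (kp B' X) (zt X) n) := by
      unfold wty; rw [if_pos hs]
    have hE : wty (kp B' X) X E n = E (ty (kp B' X) (zt X) n) := by
      unfold wty; rw [if_pos hs]
    obtain ⟨hs1, hs2, hs3⟩ := hs
    obtain ⟨u1, u2, u3⟩ := h1 n hs1 hs2 hs3
    have hnX : (n : ℝ) ≤ X := by exact_mod_cast hs2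
    obtain ⟨t1, t2⟩ := hT (ty (kp B' X) (zt X) n) u1 (u2.trans hnX)
    rw [hR, hE]
    by_cases hp : n.Prime
    · have hpi : pI X n = 1 := by
        unfold pI; rw [if_pos ⟨hs1, hs2, hp⟩]
      have hc : (ty (kp B' X) (zt X) n).card = 1 := by
        rw [u3, hp.primeFactors, card_singleton]
      obtain ⟨a1, a2⟩ := t1 hc
      rw [hpi, a1, a2]; norm_num
    · have hpi : pI X n = 0 := by
        unfold pI; rw [if_neg (fun h => hp h.2.2)]
      have hn1 : 1 < n := by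
        have h3 : (0 : ℝ) ≤ zt X := Nat.cast_nonneg _
        have h4 : (1 : ℝ) < n := by linarith [h2.1]
        exact_mod_cast h4
      have hc : 2 ≤ (ty (kp B' X) (zt X) n).card := by
        rw [u3]; exact two_le_pf hn1 hs3.2.1 hp
      obtain ⟨a1, a2, a3⟩ := t2 hc
      rw [hpi]
      exact ⟨a1, a2, a3⟩
  · have hR : wty (kp B' X) X R n = 0 := by
      unfold wty; rw [if_neg hs]
    have hE : wty (kp B' X) X E n = 0 := by
      unfold wty; rw [if_neg hs]
    have hpi : pI X n = 0 := by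
      unfold pI
      rw [if_neg]
      rintro ⟨a1, a2, a3⟩
      apply hs
      refine ⟨a1, a2, simp_prime a3 ?_⟩
      have h4 : (zt X : ℝ) ≤ n := by linarith [h2.1]
      exact_mod_cast h4
    rw [hR, hE, hpi]; norm_num

theorem vec_sieve (P r e : ℕ → ℝ) (hP : ∀ n, 0 ≤ P n) (h : ∀ n, r n ≤ P n ∧ P n ≤ r n + e n ∧
    0 ≤ e n) (n : ℕ) : cvv r r n - cvv e e n ≤ cvv P P n := by
  unfold cvv
  rw [← sum_sub_distrib]
  refine sum_le_sum fun m _ => ?_
  obtain ⟨a1, a2, a3⟩ := h m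
  obtain ⟨b1, b2, b3⟩ := h (n - m)
  have c1 := mul_nonneg (sub_nonneg.2 a1) (hP (n - m))
  have c2 := mul_nonneg (sub_nonneg.2 b1) (hP m)
  have c3 : (P m - r m) * (P (n - m) - r (n - m)) ≤ e m * e (n - m) :=
    mul_le_mul (by linarith) (by linarith) (by linarith) a3
  nlinarith

theorem pI_le_g (X n : ℕ) : cvv (pI X) (pI X) n ≤ g n := by
  classical
  unfold cvv g
  rw [card_eq_sum_ones]
  push_cast
  rw [sum_filter]
  have h0 : ∀ m, m ∈ Icc 1 (n - 1) → m ∈ range (n + 1) := by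
    intro m hm
    rw [mem_Icc] at hm
    rw [mem_range]; omega
  refine (sum_le_sum (g := fun m => if Nat.Prime m ∧ Nat.Prime (n - m) then (1 : ℝ) else 0)
    fun m _ => ?_).trans (sum_le_sum_of_subset_of_nonneg h0 fun m _ _ => ?_)
  · unfold pI
    by_cases h1 : X5 X < (m : ℝ) ∧ m ≤ X ∧ m.Prime
    · by_cases h2 : X5 X < ((n - m : ℕ) : ℝ) ∧ (n - m) ≤ X ∧ (n - m).Prime
      · rw [if_pos h1, if_pos h2, if_pos ⟨h1.2.2, h2.2.2⟩]; norm_num
      · rw [if_neg h2, mul_zero]; split_ifs <;> norm_num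
    · rw [if_neg h1, zero_mul]; split_ifs <;> norm_num
  · split_ifs <;> norm_num

end Pool.MP_dd84fd_nt.IY
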