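import Pool.Agent.Lib.MP_dd84fd_nt.IY.BDefs

/-!
# IY-BTy1 (0.4 h): types of products

Proof. `Rgh`: `HX.rgh_mul_iff` (DcRg). Squarefree: `Nat.squarefree_mul_iff` (coprime). `simp_mul`: disjoint types give disjoint sets of prime factors (a common prime has one box in both types), so `m`, `k` are coprime (`Nat.disjoint_primeFactors` / `Nat.Coprime`), `(m k).primeFactors = union` (`Nat.Coprime.primeFactors_mul`); two primes in one box lie in the same factor.
`simp_split`: `m k` squarefree gives `m`, `k` coprime; a common box would give two different primes of `m k` in one box. `ty` is an image: `Finset.image_union`.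
-/

set_option autoImplicit false

namespace Pool.MP_dd84fd_nt.IY

open Finset Pool.MP_dd84fd_nt.HX

private theorem rgh_dvd {z n m : ℕ} (h : Rgh z n) (hm : m ∣ n) : Rgh z m := by
  obtain ⟨k, rfl⟩ := hm
  exact ((rgh_mul_iff z m k).1 h).1

theorem simp_dvd {κ : ℝ} {z n m : ℕ} (h : Simp κ z n) (hm : m ∣ n) : Simp κ z m := by
  obtain ⟨h1, h2, h3⟩ := h
  have hsub := Nat.primeFactors_mono hm h1.1
  exact ⟨rgh_dvd h1 hm, h2.squarefree_of_dvd hm,
    fun p hp q hq hpq => h3 p (hsub hp) q (hsub hq) hpq⟩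

private theorem ty_mul {κ : ℝ} {z m k : ℕ} (hm : m ≠ 0) (hk : k ≠ 0) :
    ty κ z (m * k) = ty κ z m ∪ ty κ z k := by
  unfold ty
  rw [Nat.primeFactors_mul hm hk, Finset.image_union]

private theorem mem_ty {κ : ℝ} {z m p : ℕ} (hp : p ∈ m.primeFactors) : bx κ z p ∈ ty κ z m :=
  Finset.mem_image_of_mem _ hp

theorem simp_mul {κ : ℝ} {z m k : ℕ} (hm : Simp κ z m) (hk : Simp κ z k)
    (hd : Disjoint (ty κ z m) (ty κ z k)) :
    Simp κ z (m * k) ∧ ty κ z (m * k) = ty κ z m ∪ ty κ z k := by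
  obtain ⟨m1, m2, m3⟩ := hm
  obtain ⟨k1, k2, k3⟩ := hk
  have hcop : Nat.Coprime m k := by
    refine (Nat.disjoint_primeFactors m1.1 k1.1).1 ?_
    rw [Finset.disjoint_left]
    intro p hpm hpk
    exact (Finset.disjoint_left.1 hd) (mem_ty hpm) (mem_ty hpk)
  refine ⟨⟨(rgh_mul_iff z m k).2 ⟨m1, k1⟩, (Nat.squarefree_mul hcop).2 ⟨m2, k2⟩, ?_⟩,
    ty_mul m1.1 k1.1⟩
  intro p hp q hq hpq
  rw [Nat.primeFactors_mul m1.1 k1.1, Finset.mem_union] at hp hq
  rcases hp with hp | hp <;> rcases hq with hq | hq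
  · exact m3 p hp q hq hpq
  · exact absurd (hpq ▸ mem_ty hp) (fun h' => (Finset.disjoint_left.1 hd) h' (mem_ty hq))
  · exact absurd (hpq ▸ mem_ty hp) (fun h' => (Finset.disjoint_left.1 hd) (mem_ty hq) h')
  · exact k3 p hp q hq hpq

theorem simp_split {κ : ℝ} {z m k : ℕ} (h : Simp κ z (m * k)) :
    Disjoint (ty κ z m) (ty κ z k) ∧ ty κ z (m * k) = ty κ z m ∪ ty κ z k := by
  obtain ⟨h1, h2, h3⟩ := h
  have hm : m ≠ 0 := left_ne_zero_of_mul h1.1
  have hk : k ≠ 0 := right_ne_zero_of_mul h1.1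
  refine ⟨?_, ty_mul hm hk⟩
  have hcop : Nat.Coprime m k := Nat.coprime_of_squarefree_mul h2
  rw [Finset.disjoint_left]
  intro j hjm hjk
  unfold ty at hjm hjk
  obtain ⟨p, hp, hpj⟩ := Finset.mem_image.1 hjm
  obtain ⟨q, hq, hqj⟩ := Finset.mem_image.1 hjk
  have hpm : p ∈ (m * k).primeFactors := by
    rw [Nat.primeFactors_mul hm hk]; exact Finset.mem_union_left _ hp
  have hqm : q ∈ (m * k).primeFactors := by
    rw [Nat.primeFactors_mul hm hk]; exact Finset.mem_union_right _ hq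
  have hpq : p = q := h3 p hpm q hqm (hpj.trans hqj.symm)
  subst hpq
  exact (Finset.disjoint_left.1 hcop.disjoint_primeFactors) hp hq

end Pool.MP_dd84fd_nt.IY
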