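import Pool.Agent.Lib.MP_dd84fd_nt.IY.CBx
import Pool.Agent.Lib.MP_dd84fd_nt.IY.BTy1

/-!
# IY-CWs: a simple number is its largest prime factor times a simple number

Proof. `n > X5 X > 1`. Suppose `n` is simple, `T = ty n`. `bx κ z` is injective on the prime factors of `n`, so the prime factor `p` with the largest box is unique; `k = n/p` is simple, `ty k = T \ {bx p}` (all in lower boxes), so `vty p k = W T`. For another prime factor `p'`, `k' = n/p'`
has the prime factor `p` in a higher box: `vty p' k' = 0`. If `n` is not simple and `n/k = p` is prime, `k` simple, `p ≥ z`, all boxes of `k` lower than that of `p`: then `n = p k` is simple, contradiction; so all `vty = 0`.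
-/

set_option autoImplicit false

namespace Pool.MP_dd84fd_nt.IY

open Finset Pool.MP_67663b_nt.Odd Pool.MP_dd84fd_nt.En Pool.MP_dd84fd_nt.E2 Pool.MP_dd84fd_nt.HX

private theorem CWs_prime {κ : ℝ} {z q : ℕ} (hq : q.Prime) (hz : z ≤ q) :
    Simp κ z q ∧ ty κ z q = {bx κ z q} := by
  refine ⟨⟨⟨hq.ne_zero, fun p hp => ?_⟩, hq.prime.squarefree, fun p hp r hr _ => ?_⟩, ?_⟩
  · rw [Nat.Prime.primeFactors hq, Finset.mem_singleton] at hp
    rw [hp]
    exact hz
  · rw [Nat.Prime.primeFactors hq, Finset.mem_singleton] at hp hr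
    rw [hp, hr]
  · unfold ty
    rw [Nat.Prime.primeFactors hq, Finset.image_singleton]

theorem wty_sum : ∃ X0 : ℕ, ∀ X : ℕ, X0 ≤ X → ∀ κ : ℝ, 0 < κ → ∀ W : Finset ℕ → ℝ,
    ∀ n ∈ Icc 1 X, X5 X < n →
    wty κ X W n = ∑ k ∈ n.divisors.filter (fun k => (n / k).Prime),
      vty κ (zt X) W ((n / k : ℕ) : ℝ) k := by
  classical
  obtain ⟨X1, hX1⟩ := X5_ge
  refine ⟨X1, fun X hX κ hκ W n hn h5 => ?_⟩
  rw [Finset.mem_Icc] at hn
  obtain ⟨hn1, hnX⟩ := hn
  have hX5 := (hX1 X hX).1
  have hn2 : 1 < n := by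
    have h1 : (1 : ℝ) ≤ X5 X := by
      have : (0 : ℝ) ≤ (zt X : ℝ) := Nat.cast_nonneg _
      linarith
    exact_mod_cast lt_of_le_of_lt h1 h5
  unfold wty
  by_cases hs : Simp κ (zt X) n
  · rw [if_pos ⟨h5, hnX, hs⟩]
    have hne : n.primeFactors.Nonempty := Nat.nonempty_primeFactors.2 hn2
    obtain ⟨p, hp, hmax⟩ := Finset.exists_max_image n.primeFactors (fun p : ℕ => bx κ (zt X) p) hne
    have hpp := (Nat.mem_primeFactors.1 hp).1
    have hpn := (Nat.mem_primeFactors.1 hp).2.1
    have hn0 : n ≠ 0 := by omega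
    have hk0 : n / (n / p) = p := Nat.div_div_self hpn hn0
    rw [Finset.sum_eq_single (n / p)]
    · rw [hk0]
      have hmul : p * (n / p) = n := Nat.mul_div_cancel' hpn
      have hs' : Simp κ (zt X) (p * (n / p)) := by rw [hmul]; exact hs
      obtain ⟨hd, ht⟩ := simp_split hs'
      rw [hmul] at ht
      have hpz : zt X ≤ p := hs.1.2 p hp
      obtain ⟨_, hty⟩ := CWs_prime (κ := κ) hpp hpz
      have hks : Simp κ (zt X) (n / p) := simp_dvd hs (Nat.div_dvd_of_dvd hpn)
      unfold vty
      have hlt : ∀ j ∈ ty κ (zt X) (n / p), j < bx κ (zt X) (p : ℝ) := by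
        intro j hj
        have hj' : j ∈ ty κ (zt X) n := by
          rw [ht]
          exact Finset.mem_union_right _ hj
        unfold ty at hj'
        rw [Finset.mem_image] at hj'
        obtain ⟨q, hq, rfl⟩ := hj'
        have h1 := hmax q hq
        refine lt_of_le_of_ne h1 fun he => ?_
        rw [hty, Finset.disjoint_singleton_left] at hd
        exact hd (he ▸ hj)
      rw [if_pos ⟨hks, by exact_mod_cast hpz, hlt⟩, ht, hty, Finset.insert_eq]
    · intro k hk hkne
      rw [Finset.mem_filter, Nat.mem_divisors] at hk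
      obtain ⟨⟨hkn, _⟩, hq⟩ := hk
      unfold vty
      rw [if_neg]
      rintro ⟨_, _, hj⟩
      have hqne : p ≠ n / k := by
        rintro rfl
        apply hkne
        rw [Nat.div_div_self hkn hn0]
      have hmul : n / k * k = n := Nat.div_mul_cancel hkn
      have hpk : p ∣ k := by
        have h1 : p ∣ n / k * k := by rw [hmul]; exact hpn
        rcases (Nat.Prime.dvd_mul hpp).1 h1 with h2 | h2
        · exact absurd ((Nat.prime_dvd_prime_iff_eq hpp hq).1 h2) hqne
        · exact h2
      have hk0' : k ≠ 0 := by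
        rintro rfl
        rw [Nat.div_zero] at hq
        exact Nat.not_prime_zero hq
      have h2 := hj (bx κ (zt X) p) (by
        unfold ty
        exact Finset.mem_image_of_mem (fun q : ℕ => bx κ (zt X) (q : ℝ))
          (Nat.mem_primeFactors.2 ⟨hpp, hpk, hk0'⟩))
      have h3 := hmax (n / k) (Nat.mem_primeFactors.2 ⟨hq, Nat.div_dvd_of_dvd hkn, hn0⟩)
      exact absurd h2 (not_lt.2 h3)
    · intro hcon
      exfalso
      apply hcon
      rw [Finset.mem_filter, Nat.mem_divisors, hk0]
      exact ⟨⟨Nat.div_dvd_of_dvd hpn, hn0⟩, hpp⟩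
  · rw [if_neg (fun h => hs h.2.2)]
    symm
    refine Finset.sum_eq_zero fun k hk => ?_
    rw [Finset.mem_filter, Nat.mem_divisors] at hk
    obtain ⟨⟨hkn, hn0⟩, hq⟩ := hk
    unfold vty
    rw [if_neg]
    rintro ⟨hks, hz, hj⟩
    apply hs
    have hz' : zt X ≤ n / k := by exact_mod_cast hz
    obtain ⟨hqs, hqt⟩ := CWs_prime (κ := κ) hq hz'
    have hd : Disjoint (ty κ (zt X) (n / k)) (ty κ (zt X) k) := by
      rw [hqt, Finset.disjoint_singleton_left]
      intro h1
      exact absurd (hj _ h1) (lt_irrefl _)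
    have h2 := (simp_mul hqs hks hd).1
    rwa [Nat.div_mul_cancel hkn] at h2

end Pool.MP_dd84fd_nt.IY
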