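import Pool.Agent.Lib.MP_dd84fd_nt.IY.CBx

/-!
# IY-CUs (0.5 h): the product of the left end points

Proof. `ub (bx m) ≤ m < ub (bx m) e^κ` (`bx_iff`, `ub (j+1) = ub j e^κ`). `n` simple: the boxes of the prime factors are different, `n = Π p` (squarefree), `US (ty n) = Π ub (bx p)` (`Finset.prod_image`), so `US ≤ n ≤ US e^(κ #ty n)`; every `ub ≥ z ≥ X^(1/10)`, so `#ty n ≤ 8` for `n ≤ X`
(9 primes give `≥ X^(9/8) > X`). `us_v`: the same for `k` simple and a real number `m = n/k` in a higher box: `US (insert (bx m) (ty k)) = ub (bx m) US (ty k)`, between `n e^(-9κ)` and `n`; `e^(-9κ) ≥ 1/2` for `κ ≤ 1/L`, `X` large; so `≥ X5 X/2`.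
-/

set_option autoImplicit false

namespace Pool.MP_dd84fd_nt.IY

open Finset Pool.MP_67663b_nt.Odd Pool.MP_dd84fd_nt.En Pool.MP_dd84fd_nt.E2 Pool.MP_dd84fd_nt.HX

private theorem CUs_ub_succ (κ : ℝ) (z j : ℕ) : ub κ z (j + 1) = ub κ z j * Real.exp κ := by
  unfold ub
  rw [mul_assoc, ← Real.exp_add]
  push_cast
  ring_nf

private theorem CUs_ub_pos (κ : ℝ) {z : ℕ} (hz : 1 ≤ z) (j : ℕ) : 0 < ub κ z j := by
  unfold ub
  have : (0 : ℝ) < z := by exact_mod_cast hz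
  positivity

private theorem CUs_basic {κ : ℝ} (hκ : 0 < κ) {z : ℕ} (hz : 1 ≤ z) {k : ℕ} (hs : Simp κ z k) :
    US κ z (ty κ z k) ≤ k ∧ (k : ℝ) ≤ US κ z (ty κ z k) * Real.exp κ ^ k.primeFactors.card ∧
      (ty κ z k).card = k.primeFactors.card ∧ (z : ℝ) ^ k.primeFactors.card ≤ k ∧
      0 < US κ z (ty κ z k) := by
  obtain ⟨⟨hk0, hrough⟩, hsq, hinj⟩ := hs
  have hinj' : Set.InjOn (fun p : ℕ => bx κ z p) (k.primeFactors : Set ℕ) := by
    intro p hp q hq h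
    exact hinj p (by exact_mod_cast hp) q (by exact_mod_cast hq) h
  have hUS : US κ z (ty κ z k) = ∏ p ∈ k.primeFactors, ub κ z (bx κ z (p : ℝ)) := by
    unfold US ty
    rw [Finset.prod_image hinj']
  have hk : (k : ℝ) = ∏ p ∈ k.primeFactors, (p : ℝ) := by
    have h := Nat.prod_primeFactors_of_squarefree hsq
    rw [← Nat.cast_prod, h]
  have hb : ∀ p ∈ k.primeFactors, ub κ z (bx κ z (p : ℝ)) ≤ (p : ℝ) ∧
      (p : ℝ) < ub κ z (bx κ z (p : ℝ) + 1) := by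
    intro p hp
    have hzp : (z : ℝ) ≤ (p : ℝ) := by exact_mod_cast hrough p hp
    exact (bx_iff hκ hz hzp _).1 rfl
  refine ⟨?_, ?_, ?_, ?_, ?_⟩
  · rw [hUS]
    conv_rhs => rw [hk]
    exact Finset.prod_le_prod (fun p _ => (CUs_ub_pos κ hz _).le) (fun p hp => (hb p hp).1)
  · rw [hUS]
    conv_lhs => rw [hk]
    rw [← Finset.prod_const, ← Finset.prod_mul_distrib]
    refine Finset.prod_le_prod (fun p _ => by positivity) (fun p hp => ?_)
    rw [← CUs_ub_succ]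
    exact (hb p hp).2.le
  · unfold ty
    exact Finset.card_image_of_injOn hinj'
  · conv_rhs => rw [hk]
    rw [← Finset.prod_const]
    refine Finset.prod_le_prod (fun p _ => by positivity) (fun p hp => ?_)
    exact_mod_cast hrough p hp
  · rw [hUS]
    exact Finset.prod_pos (fun p _ => CUs_ub_pos κ hz _)

private theorem CUs_card {X c : ℕ} (hX : 2 ≤ X) (h : ((zt X : ℕ) : ℝ) ^ c ≤ X) : c ≤ 10 := by
  by_contra hc
  have hX1 : (1 : ℝ) < (X : ℝ) := by exact_mod_cast hX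
  have hr : (1 : ℝ) < (X : ℝ) ^ (1 / 10 : ℝ) := Real.one_lt_rpow hX1 (by norm_num)
  have hr8 : ((X : ℝ) ^ (1 / 10 : ℝ)) ^ 10 = X := by
    rw [← Real.rpow_natCast, ← Real.rpow_mul (by linarith)]
    norm_num
  have h1 : ((X : ℝ) ^ (1 / 10 : ℝ)) ^ c ≤ X :=
    (pow_le_pow_left₀ (by linarith) (zt_ge X) c).trans h
  have h2 : ((X : ℝ) ^ (1 / 10 : ℝ)) ^ 10 < ((X : ℝ) ^ (1 / 10 : ℝ)) ^ c :=
    pow_lt_pow_right₀ hr (by omega)
  rw [hr8] at h2
  linarith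

private theorem CUs_exp {κ : ℝ} (hκ1 : κ ≤ 1 / 22) {c : ℕ} (hc : c ≤ 11) (hκ : 0 < κ) :
    Real.exp κ ^ c ≤ 2 := by
  have h1 : Real.exp κ ^ c ≤ Real.exp κ ^ 11 :=
    pow_le_pow_right₀ (Real.one_le_exp hκ.le) hc
  have h2 : Real.exp κ ^ 11 ≤ Real.exp (1 / 2) := by
    rw [← Real.exp_nat_mul]
    apply Real.exp_le_exp.2
    push_cast
    linarith
  have h3 := Real.add_one_le_exp (-(1 / 2) : ℝ)
  have h4 : Real.exp (1 / 2) * Real.exp (-(1 / 2)) = 1 := by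
    rw [← Real.exp_add]
    simp
  have h5 : 0 < Real.exp (1 / 2 : ℝ) := Real.exp_pos _
  nlinarith

private theorem CUs_X0 (B' : ℕ) (hB : 1 ≤ B') : ∃ X0 : ℕ, ∀ X : ℕ, X0 ≤ X →
    2 ≤ X ∧ 1 ≤ zt X ∧ 0 < kp B' X ∧ kp B' X ≤ 1 / 22 := by
  refine ⟨max ⌈Real.exp 22⌉₊ 2, fun X hX => ?_⟩
  have hX2 : 2 ≤ X := (le_max_right _ _).trans hX
  have hXe : Real.exp 22 ≤ (X : ℝ) :=
    (Nat.le_ceil _).trans (by exact_mod_cast (le_max_left _ _).trans hX)
  have hL : (22 : ℝ) ≤ Real.log X := by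
    rw [Real.le_log_iff_exp_le (by positivity)]
    exact hXe
  have hLB : (22 : ℝ) ≤ (Real.log X) ^ B' := by
    calc (22 : ℝ) ≤ (Real.log X) ^ 1 := by rw [pow_one]; exact hL
      _ ≤ (Real.log X) ^ B' := pow_le_pow_right₀ (by linarith) hB
  refine ⟨hX2, ?_, ?_, ?_⟩
  · have h1 := zt_ge X
    have h2 : (0 : ℝ) < (X : ℝ) ^ (1 / 10 : ℝ) := Real.rpow_pos_of_pos (by positivity) _
    have h3 : (0 : ℝ) < (zt X : ℝ) := lt_of_lt_of_le h2 h1
    have h4 : 0 < zt X := by exact_mod_cast h3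
    omega
  · unfold kp
    positivity
  · unfold kp
    exact one_div_le_one_div_of_le (by norm_num) hLB

theorem us_n (B' : ℕ) (hB : 1 ≤ B') : ∃ X0 : ℕ, ∀ X : ℕ, X0 ≤ X → ∀ n : ℕ, X5 X < n → n ≤ X →
    Simp (kp B' X) (zt X) n →
    X5 X / 2 ≤ US (kp B' X) (zt X) (ty (kp B' X) (zt X) n) ∧
      US (kp B' X) (zt X) (ty (kp B' X) (zt X) n) ≤ n ∧
      (ty (kp B' X) (zt X) n).card = n.primeFactors.card := by
  obtain ⟨X0, h0⟩ := CUs_X0 B' hB
  refine ⟨X0, fun X hX n hn hnX hs => ?_⟩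
  obtain ⟨hX2, hz, hκ, hκ1⟩ := h0 X hX
  obtain ⟨h1, h2, h3, h4, h5⟩ := CUs_basic hκ hz hs
  have hnX' : (n : ℝ) ≤ (X : ℝ) := by exact_mod_cast hnX
  have hc := CUs_card hX2 (h4.trans hnX')
  have he := CUs_exp hκ1 (c := n.primeFactors.card) (by omega) hκ
  refine ⟨?_, h1, h3⟩
  have h6 : (n : ℝ) ≤ US (kp B' X) (zt X) (ty (kp B' X) (zt X) n) * 2 :=
    h2.trans (mul_le_mul_of_nonneg_left he h5.le)
  linarith

theorem us_v (B' : ℕ) (hB : 1 ≤ B') : ∃ X0 : ℕ, ∀ X : ℕ, X0 ≤ X → ∀ n k : ℕ, X5 X < n →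
    n ≤ X → 1 ≤ k → Simp (kp B' X) (zt X) k → (zt X : ℝ) ≤ (n : ℝ) / k →
    (∀ j ∈ ty (kp B' X) (zt X) k, j < bx (kp B' X) (zt X) ((n : ℝ) / k)) →
    X5 X / 2 ≤ US (kp B' X) (zt X)
        (insert (bx (kp B' X) (zt X) ((n : ℝ) / k)) (ty (kp B' X) (zt X) k)) ∧
      US (kp B' X) (zt X)
        (insert (bx (kp B' X) (zt X) ((n : ℝ) / k)) (ty (kp B' X) (zt X) k)) ≤ X ∧
      (insert (bx (kp B' X) (zt X) ((n : ℝ) / k)) (ty (kp B' X) (zt X) k)).card =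
        k.primeFactors.card + 1 := by
  obtain ⟨X0, h0⟩ := CUs_X0 B' hB
  refine ⟨X0, fun X hX n k hn hnX hk hs hzk hj => ?_⟩
  obtain ⟨hX2, hz, hκ, hκ1⟩ := h0 X hX
  obtain ⟨h1, h2, h3, h4, h5⟩ := CUs_basic hκ hz hs
  set κ := kp B' X with hκd
  set z := zt X with hzd
  set b := bx κ z ((n : ℝ) / k) with hb
  have hnot : b ∉ ty κ z k := fun h => lt_irrefl _ (hj b h)
  have hk0 : (0 : ℝ) < (k : ℝ) := by exact_mod_cast hk
  have hz1 : (1 : ℝ) ≤ (z : ℝ) := by exact_mod_cast hz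
  have hnX' : (n : ℝ) ≤ (X : ℝ) := by exact_mod_cast hnX
  have hn0 : (0 : ℝ) ≤ (n : ℝ) := by positivity
  have hkn : (k : ℝ) ≤ n := by
    rw [le_div_iff₀ hk0] at hzk
    nlinarith
  have hc := CUs_card hX2 (h4.trans (hkn.trans hnX'))
  have he := CUs_exp hκ1 (c := k.primeFactors.card + 1) (by omega) hκ
  obtain ⟨hb1, hb2⟩ := (bx_iff hκ hz hzk b).1 rfl
  rw [CUs_ub_succ] at hb2
  have hub := CUs_ub_pos κ hz b
  have hUS : US κ z (insert b (ty κ z k)) = ub κ z b * US κ z (ty κ z k) := by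
    unfold US
    exact Finset.prod_insert hnot
  have hnk : (n : ℝ) / k * k = n := div_mul_cancel₀ _ hk0.ne'
  refine ⟨?_, ?_, ?_⟩
  · have h6 : (n : ℝ) ≤ (ub κ z b * Real.exp κ) *
        (US κ z (ty κ z k) * Real.exp κ ^ k.primeFactors.card) := by
      rw [← hnk]
      exact mul_le_mul hb2.le h2 hk0.le (by positivity)
    have h7 : (ub κ z b * Real.exp κ) * (US κ z (ty κ z k) * Real.exp κ ^ k.primeFactors.card) =
        US κ z (insert b (ty κ z k)) * Real.exp κ ^ (k.primeFactors.card + 1) := by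
      rw [hUS, pow_succ]
      ring
    have h8 : 0 ≤ US κ z (insert b (ty κ z k)) := by
      rw [hUS]
      positivity
    have h9 := mul_le_mul_of_nonneg_left he h8
    rw [h7] at h6
    linarith
  · rw [hUS]
    calc ub κ z b * US κ z (ty κ z k) ≤ (n : ℝ) / k * k :=
          mul_le_mul hb1 h1 h5.le (by positivity)
      _ = n := hnk
      _ ≤ X := hnX'
  · rw [Finset.card_insert_of_notMem hnot, h3]

end Pool.MP_dd84fd_nt.IY
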