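import Pool.Agent.Lib.MP_dd84fd_nt.IY.BTy3
import Pool.Agent.Lib.MP_dd84fd_nt.IY.BPar

/-!
# IY-BTy4 (0.6 h): Lemma CL for the types `rmT`, `epT`; bounds

Proof. `log (US T) = sg v T` (`log_US`), `v = vlog κ z ≥ 0`. `X5 X / 2 ≤ US T ≤ X` gives `x - (log 2 + 5 l) ≤ sg v T ≤ x` (`x = log X`, `l = log log X`). `#T ≤ 10` since every `ub ≥ zt X`, `X < zt^11`. `2 ≤ #T`: if `gdT` then both are `0`, otherwise `cl_core3` (BCz) with `a = α x`, `b = β x` (`50 l ≤ (3/10 - α) x`, `50 l ≤ (β - 2/5) x` for large `X`); `0 ≤ E`: `lamE_nonneg`.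
`T = {j}`: `¬ gdT` (`sg ∅ = 0 < α x`; `sg {j} ≥ x - log 2 - 5 l > β x`), `powerset {j} = {∅, {j}}`: `lamR ∅ = 1`, the other three values are `0` (`sg {j} > x/2 + 6 l`, `> α x`, `|0 - x/2| > 6 l`).
Bounds: `#powerset ≤ 2^10`, `|lamR| ≤ 515`, `|lamE| ≤ 1030`. `adm_R`, `adm_E`: each non-zero piece has `sg ≤ x/2`, or `≤ x/2 + 6 l`, or `≤ α x`, or `≤ x - b + log (3/2)`, all `≤ (1-β) x + log (3/2)` for large `X` (`β < 1/2`).
-/

set_option autoImplicit false

namespace Pool.MP_dd84fd_nt.IY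

open Finset Pool.MP_dd84fd_nt.HX

private theorem ty4_lamR (v : ℕ → ℝ) (x a b l : ℝ) (S : Finset ℕ) :
    |lamR3 v x a b l S| ≤ 2052 := by
  unfold lamR3
  have h0 := cR_bd v x a S
  have h1 : |(if sg v S ≤ x / 2 then (-1 : ℝ) ^ S.card else 0)| ≤ 1 := by
    split_ifs
    · rw [abs_neg_one_pow]
    · simp
  rw [abs_le] at h1
  obtain ⟨h2, h3⟩ := h1
  obtain ⟨h4, h5⟩ := h0
  rw [abs_le]
  constructor
  · split_ifs at * <;> linarith
  · split_ifs at * <;> linarith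

private theorem ty4_lamE (v : ℕ → ℝ) (x a b l : ℝ) (S : Finset ℕ) :
    |lamE3 v x a b l S| ≤ 4099 := by
  rw [abs_of_nonneg (lamE3_nonneg v x a b l S)]
  unfold lamE3
  obtain ⟨h4, h5⟩ := cE_nonneg v x a S
  split_ifs <;> linarith

private theorem ty4_lamS (v : ℕ → ℝ) (x a b l : ℝ) (S : Finset ℕ) :
    |lamR3 v x a b l S + lamE3 v x a b l S| ≤ 2 ^ 13 := by
  refine (abs_add_le _ _).trans ((add_le_add (ty4_lamR v x a b l S)
    (ty4_lamE v x a b l S)).trans ?_)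
  norm_num

private theorem ty4_Wl {α β κ : ℝ} {X : ℕ} {lam : Finset ℕ → ℝ} (h : ∀ S, |lam S| ≤ 2 ^ 13)
    (T : Finset ℕ) : |Wl α β κ X lam T| ≤ 2 ^ 23 := by
  unfold Wl wT
  split_ifs with h8 hg
  · simp
  · calc |∑ S ∈ T.powerset, lam S| ≤ ∑ S ∈ T.powerset, |lam S| := Finset.abs_sum_le_sum_abs _ _
      _ ≤ ∑ _S ∈ T.powerset, (2 : ℝ) ^ 13 := Finset.sum_le_sum fun S _ => h S
      _ = 2 ^ T.card * 2 ^ 13 := by
          rw [Finset.sum_const, Finset.card_powerset, nsmul_eq_mul]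
          push_cast
          ring
      _ ≤ 2 ^ 10 * 2 ^ 13 := by
          have : (2 : ℝ) ^ T.card ≤ 2 ^ 10 := pow_le_pow_right₀ (by norm_num) h8
          linarith
      _ ≤ 2 ^ 23 := by norm_num
  · simp

theorem rmT_bd (α β κ : ℝ) (X : ℕ) (T : Finset ℕ) :
    |rmT α β κ X T| ≤ 2 ^ 23 ∧ |epT α β κ X T| ≤ 2 ^ 23 :=
  ⟨ty4_Wl (fun S => (ty4_lamR _ _ _ _ _ S).trans (by norm_num)) T,
    ty4_Wl (fun S => (ty4_lamE _ _ _ _ _ S).trans (by norm_num)) T⟩

private theorem ty4_big (c : ℝ) (hc : 0 < c) : ∃ X0 : ℕ, ∀ X : ℕ, X0 ≤ X →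
    1 ≤ X ∧ 4 ≤ Real.log X ∧ 1 ≤ Real.log (Real.log X) ∧ 2 ≤ zt X ∧ (X : ℝ) < (zt X : ℝ) ^ 11 ∧
      30 * Real.log (Real.log X) + 30 < c * Real.log X ∧ (X : ℝ) ^ (1 / 10 : ℝ) ≤ zt X := by
  obtain ⟨X1, hX1⟩ := b_par (1 / 8) (3 / 8) (by norm_num) (by norm_num) (by norm_num) 0
  have ht : Filter.Tendsto (fun X : ℕ => Real.log (X : ℝ)) Filter.atTop Filter.atTop :=
    Real.tendsto_log_atTop.comp tendsto_natCast_atTop_atTop
  have h1 := (Real.isLittleO_log_id_atTop.bound (show (0 : ℝ) < c / 100 by positivity))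
  have h2 : ∀ᶠ X : ℕ in Filter.atTop, ‖Real.log (Real.log (X : ℝ))‖ ≤
      c / 100 * ‖id (Real.log (X : ℝ))‖ := ht.eventually h1
  have h3 : ∀ᶠ X : ℕ in Filter.atTop, 100 / c ≤ Real.log (X : ℝ) := ht.eventually_ge_atTop _
  obtain ⟨X2, hX2⟩ := Filter.eventually_atTop.1 (h2.and h3)
  refine ⟨max X1 X2, fun X hX => ?_⟩
  obtain ⟨g1, g2, g3, g4, g5, _, g7, _⟩ := hX1 X (le_trans (le_max_left _ _) hX)
  obtain ⟨g8, g9⟩ := hX2 X (le_trans (le_max_right _ _) hX)
  have g2' : 4 ≤ Real.log (X : ℝ) := by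
    have := g2
    push_cast at this
    linarith
  refine ⟨g1, g2', g3, g4, g7, ?_, g5⟩
  rw [Real.norm_eq_abs, Real.norm_eq_abs, id, abs_of_nonneg (by linarith : (0:ℝ) ≤ Real.log X)] at g8
  have g10 := (le_abs_self _).trans g8
  have g11 : 100 ≤ c * Real.log X := by
    rw [div_le_iff₀ hc] at g9
    linarith
  linarith

theorem tycl (α β : ℝ) (h0 : 0 < α) (h1 : α < 3 / 10) (h1' : 2 / 5 < β) (h2 : β < 1 / 2)
    (B' : ℕ) (hB : 1 ≤ B') :
    ∃ X0 : ℕ, ∀ X : ℕ, X0 ≤ X →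
      TyCL (kp B' X) X (rmT α β (kp B' X) X) (epT α β (kp B' X) X) := by
  classical
  obtain ⟨X1, hX1⟩ := ty4_big ((3 / 10 - α) / 2) (by linarith)
  obtain ⟨X2, hX2⟩ := ty4_big (1 / 2) (by norm_num)
  obtain ⟨X3, hX3⟩ := kp_par B' hB
  obtain ⟨X4, hX4⟩ := ty4_big ((β - 2 / 5) / 2) (by linarith)
  refine ⟨max (max X1 X2) (max X3 X4), fun X hX => ?_⟩
  simp only [max_le_iff] at hX
  obtain ⟨g1, g2, g3, g4, g5, g6, gz⟩ := hX1 X hX.1.1
  obtain ⟨_, _, _, _, _, g7, _⟩ := hX2 X hX.1.2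
  obtain ⟨_, _, _, _, _, g8, _⟩ := hX4 X hX.2.2
  obtain ⟨k1, _, k3, _⟩ := hX3 X hX.2.1
  intro T hT1 hT2
  set κ := kp B' X with hκ
  set x := Real.log (X : ℝ) with hx
  set l := Real.log x with hl
  have hz1 : 1 ≤ zt X := by omega
  have hzr : (1 : ℝ) ≤ zt X := by exact_mod_cast hz1
  have hv : ∀ j, 0 ≤ vlog κ (zt X) j := by
    intro j
    rw [vlog_eq κ _ j hz1]
    have := Real.log_nonneg hzr
    positivity
  have hzj : ∀ j, x / 10 - l ≤ vlog κ (zt X) j := by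
    intro j
    rw [vlog_eq κ _ j hz1]
    have h3 : Real.log ((X : ℝ) ^ (1 / 10 : ℝ)) ≤ Real.log (zt X) :=
      Real.log_le_log (Real.rpow_pos_of_pos (by exact_mod_cast g1) _) gz
    rw [Real.log_rpow (by exact_mod_cast g1)] at h3
    have h4 : 0 ≤ κ * (j : ℝ) := by positivity
    linarith
  have hlog2 : Real.log 2 < 1 := by
    have := Real.log_two_lt_d9
    linarith
  have hlog2' : 0 < Real.log 2 := Real.log_pos (by norm_num)
  have hl32 : Real.log (3 / 2) < 1 / 2 := log32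
  have hXp : (0 : ℝ) < X := by exact_mod_cast g1
  have hxp : 0 < x := by linarith
  have hX5 : 0 < X5 X := by
    unfold X5
    positivity
  have hUp : 0 < US κ (zt X) T := lt_of_lt_of_le (by positivity) hT1
  have hlo : x - (Real.log 2 + 5 * l) ≤ sg (vlog κ (zt X)) T := by
    rw [← log_US κ _ hz1]
    have h3 := Real.log_le_log (by positivity) hT1
    have h4 : Real.log (X5 X / 2) = x - (Real.log 2 + 5 * l) := by
      unfold X5
      rw [Real.log_div (by positivity) (by norm_num), Real.log_div hXp.ne' (by positivity),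
        Real.log_pow]
      push_cast
      ring
    rw [h4] at h3
    exact h3
  have hhi : sg (vlog κ (zt X)) T ≤ x := by
    rw [← log_US κ _ hz1]
    exact Real.log_le_log hUp hT2
  have hT8 : T.card ≤ 10 := by
    by_contra hc
    have hc9 : 11 ≤ T.card := by omega
    have h5 : (zt X : ℝ) ^ T.card ≤ US κ (zt X) T := by
      unfold US
      rw [← Finset.prod_const]
      refine Finset.prod_le_prod (fun _ _ => by positivity) fun j _ => ?_
      unfold ub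
      have h6 : (1 : ℝ) ≤ Real.exp (κ * j) := Real.one_le_exp (by positivity)
      nlinarith
    have h7 : (zt X : ℝ) ^ 11 ≤ (zt X : ℝ) ^ T.card := pow_le_pow_right₀ hzr hc9
    linarith
  have ha : α * x ≤ x / 2 := by nlinarith
  have hRdef : rmT α β κ X T = if gdT (vlog κ (zt X)) κ (α * x) (β * x) T then 0 else
      ∑ S ∈ T.powerset, lamR3 (vlog κ (zt X)) x (α * x) (β * x) l S := by
    unfold rmT Wl wT
    rw [if_pos hT8]
  have hEdef : epT α β κ X T = if gdT (vlog κ (zt X)) κ (α * x) (β * x) T then 0 else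
      ∑ S ∈ T.powerset, lamE3 (vlog κ (zt X)) x (α * x) (β * x) l S := by
    unfold epT Wl wT
    rw [if_pos hT8]
  refine ⟨fun hc1 => ?_, fun hc2 => ?_⟩
  · obtain ⟨j, rfl⟩ := Finset.card_eq_one.1 hc1
    have hsg1 : sg (vlog κ (zt X)) ({j} : Finset ℕ) > x / 2 + 6 * l := by linarith
    have hsg0 : sg (vlog κ (zt X)) (∅ : Finset ℕ) = 0 := by simp [sg]
    have hax : α * x < x / 2 := by nlinarith
    have hbx : β * x < x / 2 := by nlinarith
    have hg : ¬ gdT (vlog κ (zt X)) κ (α * x) (β * x) {j} := by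
      rintro ⟨S, hS, hS1, hS2⟩
      rcases Finset.subset_singleton_iff.1 hS with rfl | rfl
      · rw [hsg0] at hS1
        have : 0 < α * x := by positivity
        linarith
      · linarith
    have hps : ({j} : Finset ℕ).powerset = {∅, {j}} := by
      ext S
      simp [Finset.subset_singleton_iff]
    have hne : (∅ : Finset ℕ) ∉ ({{j}} : Finset (Finset ℕ)) := by
      simp
    have hbd0 : ¬ bdS (vlog κ (zt X)) x l (∅ : Finset ℕ) := by
      unfold bdS
      rw [hsg0, zero_sub, abs_neg, abs_of_nonneg (by positivity)]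
      linarith
    have hbd1 : ¬ bdS (vlog κ (zt X)) x l ({j} : Finset ℕ) := by
      unfold bdS
      intro h8
      have := (abs_le.1 h8).2
      linarith
    rw [hRdef, hEdef, if_neg hg, if_neg hg, hps, Finset.sum_insert hne, Finset.sum_insert hne,
      Finset.sum_singleton, Finset.sum_singleton]
    have q0 : ¬ hiS (vlog κ (zt X)) x (β * x) ∅ := by
      rintro ⟨h9, _⟩
      rw [hsg0] at h9
      linarith
    have q1 : ¬ hiS (vlog κ (zt X)) x (β * x) {j} := by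
      rintro ⟨_, h9⟩
      have := hl32
      nlinarith
    have w0 : sg (vlog κ (zt X)) ∅ ≤ x / 2 := by
      rw [hsg0]
      positivity
    have w1 : ¬ sg (vlog κ (zt X)) {j} ≤ x / 2 := by
      intro h9
      linarith
    have r0 : lamR3 (vlog κ (zt X)) x (α * x) (β * x) l ∅ = 1 := by
      unfold lamR3
      rw [if_neg hbd0, if_neg q0, if_pos w0]
      simp
    have r1 : lamR3 (vlog κ (zt X)) x (α * x) (β * x) l {j} = 0 := by
      unfold lamR3
      rw [if_neg hbd1, if_neg q1, if_neg w1]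
      simp
    have e0 : lamE3 (vlog κ (zt X)) x (α * x) (β * x) l ∅ = 0 := by
      unfold lamE3
      rw [if_neg hbd0, if_neg q0]
      simp
    have e1 : lamE3 (vlog κ (zt X)) x (α * x) (β * x) l {j} = 0 := by
      unfold lamE3
      rw [if_neg hbd1, if_neg q1]
      simp
    rw [r0, r1, e0, e1]
    norm_num
  · rw [hRdef, hEdef]
    by_cases hg : gdT (vlog κ (zt X)) κ (α * x) (β * x) T
    · rw [if_pos hg, if_pos hg]
      norm_num
    · rw [if_neg hg, if_neg hg]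
      have hcl := cl_core3 (a := α * x) (b := β * x) hv k3 g3 (by positivity) (by linarith)
        (by linarith) (by nlinarith) (fun j _ => hzj j) hc2 hT8 hlo hhi hg
      exact ⟨hcl.1, hcl.2, Finset.sum_nonneg fun S _ => lamE3_nonneg _ _ _ _ _ S⟩

private theorem ty4_c (α β : ℝ) (h2 : β < 1 / 2) : ∃ X0 : ℕ, ∀ X : ℕ, X0 ≤ X → ∀ κ : ℝ,
    ∀ S, (1 - β) * Real.log X + Real.log (3 / 2) < sg (vlog κ (zt X)) S →
      lamR3 (vlog κ (zt X)) (Real.log X) (α * Real.log X) (β * Real.log X)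
        (Real.log (Real.log X)) S = 0 ∧
      lamE3 (vlog κ (zt X)) (Real.log X) (α * Real.log X) (β * Real.log X)
        (Real.log (Real.log X)) S = 0 := by
  obtain ⟨X1, hX1⟩ := ty4_big (1 / 2 - β) (by linarith)
  refine ⟨X1, fun X hX κ S hcon => ?_⟩
  obtain ⟨g1, g2, g3, g4, g5, g6, _⟩ := hX1 X hX
  have hlog : 0 < Real.log (3 / 2 : ℝ) := Real.log_pos (by norm_num)
  have c1 : ¬ sg (vlog κ (zt X)) S ≤ Real.log X / 2 := by
    intro h
    nlinarith
  have c2 : ¬ hiS (vlog κ (zt X)) (Real.log X) (β * Real.log X) S := by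
    rintro ⟨_, h⟩
    nlinarith
  have c3 : ¬ bdS (vlog κ (zt X)) (Real.log X) (Real.log (Real.log X)) S := by
    intro h
    have := (abs_le.1 h).2
    nlinarith
  constructor
  · unfold lamR3
    rw [if_neg c1, if_neg c2, if_neg c3]
    simp
  · unfold lamE3
    rw [if_neg c2, if_neg c3]
    simp

theorem adm_R (α β : ℝ) (h2 : β < 1 / 2) : ∃ X0 : ℕ, ∀ X : ℕ, X0 ≤ X → ∀ κ : ℝ,
    AdmL β κ X (lamR3 (vlog κ (zt X)) (Real.log X) (α * Real.log X) (β * Real.log X)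
      (Real.log (Real.log X))) := by
  obtain ⟨X1, hX1⟩ := ty4_c α β h2
  refine ⟨X1, fun X hX κ => ⟨fun S => (ty4_lamR _ _ _ _ _ S).trans (by norm_num),
    fun S hS => ?_⟩⟩
  by_contra hcon
  exact hS (hX1 X hX κ S (not_le.1 hcon)).1

theorem adm_E (α β : ℝ) (h2 : β < 1 / 2) : ∃ X0 : ℕ, ∀ X : ℕ, X0 ≤ X → ∀ κ : ℝ,
    AdmL β κ X (lamE3 (vlog κ (zt X)) (Real.log X) (α * Real.log X) (β * Real.log X)
      (Real.log (Real.log X))) := by
  obtain ⟨X1, hX1⟩ := ty4_c α β h2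
  refine ⟨X1, fun X hX κ => ⟨fun S => (ty4_lamE _ _ _ _ _ S).trans (by norm_num),
    fun S hS => ?_⟩⟩
  by_contra hcon
  exact hS (hX1 X hX κ S (not_le.1 hcon)).2

theorem adm_S (α β : ℝ) (h2 : β < 1 / 2) : ∃ X0 : ℕ, ∀ X : ℕ, X0 ≤ X → ∀ κ : ℝ,
    AdmL β κ X (fun S => lamR3 (vlog κ (zt X)) (Real.log X) (α * Real.log X) (β * Real.log X)
      (Real.log (Real.log X)) S + lamE3 (vlog κ (zt X)) (Real.log X) (α * Real.log X)
      (β * Real.log X) (Real.log (Real.log X)) S) := by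
  obtain ⟨X1, hX1⟩ := ty4_c α β h2
  refine ⟨X1, fun X hX κ => ⟨fun S => ty4_lamS _ _ _ _ _ S, fun S hS => ?_⟩⟩
  by_contra hcon
  obtain ⟨c1, c2⟩ := hX1 X hX κ S (not_le.1 hcon)
  apply hS
  show lamR3 _ _ _ _ _ S + lamE3 _ _ _ _ _ S = 0
  rw [c1, c2, add_zero]

/-- the type function of the majorant `rm + ep` -/
theorem spT_eq (α β κ : ℝ) (X : ℕ) : spT α β κ X = Wl α β κ X
    (fun S => lamR3 (vlog κ (zt X)) (Real.log X) (α * Real.log X) (β * Real.log X)
      (Real.log (Real.log X)) S + lamE3 (vlog κ (zt X)) (Real.log X) (α * Real.log X)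
      (β * Real.log X) (Real.log (Real.log X)) S) := by
  funext T
  unfold spT rmT epT Wl wT
  split_ifs
  · simp
  · rw [← Finset.sum_add_distrib]
  · simp

end Pool.MP_dd84fd_nt.IY
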