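import Pool.Agent.Lib.MP_dd84fd_nt.IY.NDefs

/-!
# IY-NSb (0.5 h): sublists and subsets

Proof. `subs_sum`: induction on `ps`: for `a :: ps` (nodup): `(a :: ps).toFinset.powerset = insert a ps.toFinset`: `Finset.sum_powerset_insert`; for `Q ⊆ ps.toFinset`, `a ∉ Q`: `Σ_{insert a Q} c = c a + Σ_Q c`, `card + 1` (add the element on the right: `x.1 + c`). `subs_any`: if `subs l` has an element with property `P`, apply `subs_sum` with `f x = if P x then 1 else 0` (the sum is `> 0`).
`gd_ext`, `top_ext`: the elements of `subs l` are elements of `subs (l' ++ l)` (induction on `l'`, `subs l ⊆ subs (c :: l)`); `l.sum + c + c ≤ (l' ++ c :: l).sum + c`.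
-/

set_option autoImplicit false

namespace Pool.MP_dd84fd_nt.IY

open Finset Pool.MP_67663b_nt.Odd Pool.MP_dd84fd_nt.En Pool.MP_dd84fd_nt.E2 Pool.MP_dd84fd_nt.HX

theorem subs_sum (c : ℕ → ℕ) (ps : List ℕ) (hn : ps.Nodup) (f : ℕ × ℕ → ℝ) :
    ∑ Q ∈ ps.toFinset.powerset, f (∑ p ∈ Q, c p, Q.card) = ((subs (ps.map c)).map f).sum := by
  induction ps generalizing f with
  | nil => simp [subs]
  | cons a ps ih =>
    rw [List.nodup_cons] at hn
    have ha : a ∉ ps.toFinset := by
      rw [List.mem_toFinset]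
      exact hn.1
    rw [List.toFinset_cons, Finset.sum_powerset_insert ha, List.map_cons]
    have h1 := ih hn.2 f
    have h2 := ih hn.2 (fun x => f (x.1 + c a, x.2 + 1))
    unfold subs
    rw [List.map_append, List.sum_append, List.map_map, h1]
    congr 1
    rw [show (f ∘ fun x : ℕ × ℕ => (x.1 + c a, x.2 + 1)) =
      (fun x : ℕ × ℕ => f (x.1 + c a, x.2 + 1)) from rfl, ← h2]
    refine Finset.sum_congr rfl fun Q hQ => ?_
    have hQa : a ∉ Q := fun h => ha ((Finset.mem_powerset.1 hQ) h)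
    rw [Finset.sum_insert hQa, Finset.card_insert_of_notMem hQa, add_comm (c a)]

private theorem subs_mem (c : ℕ → ℕ) (ps : List ℕ) (hn : ps.Nodup) :
    ∀ x ∈ subs (ps.map c), ∃ Q ∈ ps.toFinset.powerset, (∑ p ∈ Q, c p, Q.card) = x := by
  induction ps with
  | nil =>
    intro x hx
    refine ⟨∅, by simp, ?_⟩
    simp only [List.map_nil, subs, List.mem_singleton] at hx
    rw [hx]
    simp
  | cons a ps ih =>
    rw [List.nodup_cons] at hn
    have ha : a ∉ ps.toFinset := by
      rw [List.mem_toFinset]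
      exact hn.1
    intro x hx
    rw [List.map_cons, subs, List.mem_append, List.mem_map] at hx
    rcases hx with hx | ⟨y, hy, rfl⟩
    · obtain ⟨Q, hQ, hQx⟩ := ih hn.2 x hx
      refine ⟨Q, ?_, hQx⟩
      rw [Finset.mem_powerset, List.toFinset_cons] at *
      exact hQ.trans (Finset.subset_insert _ _)
    · obtain ⟨Q, hQ, hQy⟩ := ih hn.2 y hy
      have hQa : a ∉ Q := fun h => ha ((Finset.mem_powerset.1 hQ) h)
      refine ⟨insert a Q, ?_, ?_⟩
      · rw [Finset.mem_powerset, List.toFinset_cons]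
        exact Finset.insert_subset_insert _ (Finset.mem_powerset.1 hQ)
      · rw [Finset.sum_insert hQa, Finset.card_insert_of_notMem hQa, ← hQy, add_comm (c a)]

theorem subs_any (c : ℕ → ℕ) (ps : List ℕ) (hn : ps.Nodup) (P : ℕ × ℕ → Bool)
    (h : (subs (ps.map c)).any P = true) :
    ∃ Q ∈ ps.toFinset.powerset, P (∑ p ∈ Q, c p, Q.card) = true := by
  rw [List.any_eq_true] at h
  obtain ⟨x, hx, hPx⟩ := h
  obtain ⟨Q, hQ, hQx⟩ := subs_mem c ps hn x hx
  exact ⟨Q, hQ, by rw [hQx]; exact hPx⟩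

private theorem subs_append (l' l : List ℕ) : ∀ x ∈ subs l, x ∈ subs (l' ++ l) := by
  induction l' with
  | nil => intro x hx; exact hx
  | cons a l' ih =>
    intro x hx
    rw [List.cons_append, subs, List.mem_append]
    exact Or.inl (ih x hx)

theorem gd_ext (P : Prm) (l' l : List ℕ) (h : (subs l).any (inw P) = true) : HR P (l' ++ l) = 0 := by
  rw [List.any_eq_true] at h
  obtain ⟨x, hx, hix⟩ := h
  have h1 : (subs (l' ++ l)).any (inw P) = true :=
    List.any_eq_true.2 ⟨x, subs_append l' l x hx, hix⟩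
  unfold HR wc
  rw [if_neg, Nat.cast_zero, zero_mul, zero_div]
  rintro ⟨h2, _⟩
  rw [h1] at h2
  exact absurd h2 (by decide)

theorem top_ext (P : Prm) (l' l : List ℕ) (c : ℕ) (h : P.G < l.sum + 2 * c) :
    HR P (l' ++ c :: l) = 0 := by
  unfold HR wc
  rw [if_neg, Nat.cast_zero, zero_mul, zero_div]
  rintro ⟨_, h2⟩
  have h3 := (h2 c (by simp)).2
  rw [List.sum_append, List.sum_cons] at h3
  omega

theorem sm_ext (P : Prm) (l' l : List ℕ) (c : ℕ) (h : P.sm < c) : HR P (l' ++ c :: l) = 0 := by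
  unfold HR wc
  rw [if_neg, Nat.cast_zero, zero_mul, zero_div]
  rintro ⟨_, h2⟩
  have h3 := (h2 c (by simp)).1
  omega

end Pool.MP_dd84fd_nt.IY
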