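import Pool.Agent.Lib.MP_dd84fd_nt.IY.NSg
import Pool.Agent.Lib.MP_dd84fd_nt.IY.NSb

/-!
# IY-NHp: helper lemmas on simple numbers and cells (helper5, from IX/NWb)
-/

set_option autoImplicit false

namespace Pool.MP_dd84fd_nt.IY

open Finset Pool.MP_67663b_nt.Odd Pool.MP_dd84fd_nt.En Pool.MP_dd84fd_nt.E2 Pool.MP_dd84fd_nt.HX

theorem n_inj {κ : ℝ} {z k : ℕ} (h : Simp κ z k) :
    Set.InjOn (fun p : ℕ => bx κ z p) (k.primeFactors : Set ℕ) := by
  intro p hp q hq hpq
  exact h.2.2 p hp q hq hpq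

/-- prime factors are at most `m` -/
theorem n_le {κ : ℝ} (hκ : 0 < κ) {z : ℕ} (hz : 1 ≤ z) {k : ℕ} (hS : Simp κ z k)
    {m : ℝ} (hm : (z : ℝ) ≤ m) (hj : ∀ j ∈ ty κ z k, j < bx κ z m) {p : ℕ}
    (hp : p ∈ k.primeFactors) : (p : ℝ) ≤ m := by
  have hzp : (z : ℝ) ≤ p := by exact_mod_cast hS.1.2 p hp
  have h1 : bx κ z p < bx κ z m := hj _ (mem_image_of_mem _ hp)
  have h2 := ((bx_iff hκ hz hzp (bx κ z p)).1 rfl).2
  have h3 := ((bx_iff hκ hz hm (bx κ z m)).1 rfl).1
  have h4 : ub κ z (bx κ z p + 1) ≤ ub κ z (bx κ z m) := by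
    unfold ub
    refine mul_le_mul_of_nonneg_left (Real.exp_le_exp.2 ?_) (Nat.cast_nonneg _)
    refine mul_le_mul_of_nonneg_left ?_ hκ.le
    exact_mod_cast h1
  linarith

theorem n_cel (P : Prm) {X : ℕ} (hL : 0 < Real.log X) (p : ℕ) :
    (cel P X p : ℝ) * Real.log X ≤ (P.G : ℝ) * Real.log p ∧
      (P.G : ℝ) * Real.log p < ((cel P X p : ℝ) + 1) * Real.log X := by
  have h0 : 0 ≤ Real.log (p : ℝ) := Real.log_natCast_nonneg p
  have h1 : 0 ≤ (P.G : ℝ) * (Real.log p / Real.log X) := by positivity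
  have h2 := Nat.floor_le h1
  have h3 := Nat.lt_floor_add_one ((P.G : ℝ) * (Real.log p / Real.log X))
  have e : (P.G : ℝ) * Real.log p = (P.G : ℝ) * (Real.log p / Real.log X) * Real.log X := by
    field_simp
  unfold cel
  constructor
  · rw [e]
    exact mul_le_mul_of_nonneg_right h2 hL.le
  · rw [e]
    exact mul_lt_mul_of_pos_right h3 hL

theorem n_log {Q : Finset ℕ} (hQ : ∀ p ∈ Q, p.Prime) :
    Real.log ((∏ p ∈ Q, p : ℕ) : ℝ) = ∑ p ∈ Q, Real.log p := by
  rw [Nat.cast_prod, Real.log_prod]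
  intro p hp
  exact_mod_cast (hQ p hp).ne_zero

theorem n_logk {k : ℕ} (hk : Squarefree k) :
    Real.log k = ∑ p ∈ k.primeFactors, Real.log p := by
  rw [← n_log fun p hp => Nat.prime_of_mem_primeFactors hp,
    Nat.prod_primeFactors_of_squarefree hk]

/-- the list of the cells -/
theorem n_list (P : Prm) {X k : ℕ} (hk : Squarefree k) :
    (k.primeFactorsList.reverse).Nodup ∧ (k.primeFactorsList.reverse).toFinset = k.primeFactors ∧
    (cL P X k).reverse = (k.primeFactorsList.reverse).map (cel P X) ∧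
    (cL P X k).reverse.length = k.primeFactors.card ∧
    (cL P X k).reverse.sum = ∑ p ∈ k.primeFactors, cel P X p := by
  have h0 : k ≠ 0 := hk.ne_zero
  have h1 : k.primeFactorsList.Nodup := (Nat.squarefree_iff_nodup_primeFactorsList h0).1 hk
  have h2 : k.primeFactorsList.toFinset = k.primeFactors := rfl
  refine ⟨List.nodup_reverse.2 h1, ?_, ?_, ?_, ?_⟩
  · rw [List.toFinset_reverse, h2]
  · unfold cL
    rw [List.map_reverse]
  · unfold cL
    rw [List.length_reverse, List.length_map, ← List.toFinset_card_of_nodup h1, h2]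
  · unfold cL
    rw [List.sum_reverse, ← h2, List.sum_toFinset _ h1]

open Classical in
theorem n_nbd {X k : ℕ} (hX : 1 ≤ X) (hL : 1 ≤ Real.log X) (hk : Squarefree k)
    (P : Finset ℕ → Prop)
    (hP : ∀ Q ⊆ k.primeFactors, P Q →
      |∑ p ∈ Q, Real.log p - Real.log X / 2| ≤ 12 * Real.log (Real.log X)) :
    ((k.primeFactors.powerset.filter P).card : ℝ) ≤ nbd X k := by
  have hXR : (0 : ℝ) < X := by exact_mod_cast hX
  have hL0 : 0 < Real.log X := by linarith
  unfold nbd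
  rw [Nat.cast_le]
  refine Finset.card_le_card_of_injOn (fun Q => ∏ p ∈ Q, p) ?_ ?_
  · intro Q hQ
    have hQ' := Finset.mem_filter.1 (Finset.mem_coe.1 hQ)
    have hQk := Finset.mem_powerset.1 hQ'.1
    have hpr : ∀ p ∈ Q, p.Prime := fun p hp => Nat.prime_of_mem_primeFactors (hQk hp)
    have hb := abs_le.1 (hP Q hQk hQ'.2)
    rw [← n_log hpr] at hb
    have hd0 : 0 < ∏ p ∈ Q, p := Finset.prod_pos fun p hp => (hpr p hp).pos
    have hdR : (0 : ℝ) < ((∏ p ∈ Q, p : ℕ) : ℝ) := by exact_mod_cast hd0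
    have hsq : 0 < Real.sqrt X := Real.sqrt_pos.2 hXR
    have hlp : 0 < (Real.log X) ^ 12 := pow_pos hL0 _
    have e1 : Real.log (Real.sqrt X) = Real.log X / 2 := Real.log_sqrt hXR.le
    have e2 : Real.log ((Real.log X) ^ 12) = 12 * Real.log (Real.log X) := by
      rw [Real.log_pow]
      norm_num
    refine Finset.mem_coe.2 (Finset.mem_filter.2 ⟨Nat.mem_divisors.2 ⟨?_, hk.ne_zero⟩, ?_, ?_⟩)
    · have h1 := Finset.prod_dvd_prod_of_subset Q k.primeFactors (fun p => p) hQk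
      rwa [Nat.prod_primeFactors_of_squarefree hk] at h1
    · rw [← Real.log_le_log_iff (div_pos hsq hlp) hdR, Real.log_div hsq.ne' hlp.ne', e1, e2]
      linarith [hb.1]
    · rw [← Real.log_le_log_iff hdR (mul_pos hlp hsq), Real.log_mul hlp.ne' hsq.ne', e1, e2]
      linarith [hb.2]
  · intro Q hQ Q' hQ' h
    have h1 := Finset.mem_powerset.1 (Finset.mem_filter.1 (Finset.mem_coe.1 hQ)).1
    have h2 := Finset.mem_powerset.1 (Finset.mem_filter.1 (Finset.mem_coe.1 hQ')).1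
    rw [← Nat.primeFactors_prod fun p hp => Nat.prime_of_mem_primeFactors (h1 hp),
      ← Nat.primeFactors_prod fun p hp => Nat.prime_of_mem_primeFactors (h2 hp)]
    exact congrArg Nat.primeFactors h

theorem n_head (l : List ℕ) : (l = [] ∧ l.headD 0 = 0) ∨ l.headD 0 ∈ l := by
  cases l with
  | nil => exact Or.inl ⟨rfl, rfl⟩
  | cons a l => exact Or.inr List.mem_cons_self

end Pool.MP_dd84fd_nt.IY
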