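import Pool.Agent.Lib.MP_dd84fd_nt.IY.NHa
import Pool.Agent.Lib.MP_dd84fd_nt.IY.NHp
import Pool.Agent.Lib.MP_dd84fd_nt.IY.BTy4

/-!
# Theorem I, numerics: the value of the type functions at one `k` (helper33)

`tri`: the type `T` of the box of `n/k` and the boxes of `k` has a window set (values `0`), or `k` has
a divisor near `√X`, or `T` is a bad type without edge sets. `nhc`: the values for `th ≥ 0.43`.
-/

set_option autoImplicit false

namespace Pool.MP_dd84fd_nt.IY

open Finset Pool.MP_67663b_nt.Odd Pool.MP_dd84fd_nt.En Pool.MP_dd84fd_nt.E2 Pool.MP_dd84fd_nt.HX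

/-- parameters for large `X` -/
theorem nhc_big (c : ℝ) (hc : 0 < c) (B' : ℕ) (hB : 1 ≤ B') : ∃ X0 : ℕ, ∀ X : ℕ, X0 ≤ X →
    1 ≤ X ∧ 4 ≤ Real.log X ∧ 1 ≤ Real.log (Real.log X) ∧ 2 ≤ zt X ∧
      100 * Real.log (Real.log X) + 100 ≤ c * Real.log X ∧ Real.log X / 10 ≤ Real.log (zt X) ∧
      0 < kp B' X ∧ kp B' X ≤ 1 / 100 ∧ 11 * kp B' X ≤ Real.log (3 / 2) := by
  obtain ⟨X1, hX1⟩ := zt_log
  have ht : Filter.Tendsto (fun X : ℕ => Real.log (X : ℝ)) Filter.atTop Filter.atTop :=
    Real.tendsto_log_atTop.comp tendsto_natCast_atTop_atTop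
  have h1 := (Real.isLittleO_log_id_atTop.bound (show (0 : ℝ) < c / 200 by positivity))
  have h2 : ∀ᶠ X : ℕ in Filter.atTop, ‖Real.log (Real.log (X : ℝ))‖ ≤
      c / 200 * ‖id (Real.log (X : ℝ))‖ := ht.eventually h1
  have h3 : ∀ᶠ X : ℕ in Filter.atTop, 200 / c ≤ Real.log (X : ℝ) := ht.eventually_ge_atTop _
  have h4 : ∀ᶠ X : ℕ in Filter.atTop, Real.exp 1 + 4 ≤ Real.log (X : ℝ) :=
    ht.eventually_ge_atTop _
  obtain ⟨X2, hX2⟩ := Filter.eventually_atTop.1 (h2.and (h3.and h4))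
  obtain ⟨X3, hX3⟩ := kp_par B' hB
  refine ⟨max (max X1 X2) (max X3 1), fun X hX => ?_⟩
  simp only [max_le_iff] at hX
  obtain ⟨⟨b1, b2⟩, b3, b4⟩ := hX
  obtain ⟨g4, g5⟩ := hX1 X b1
  obtain ⟨g8, g9, g10⟩ := hX2 X b2
  obtain ⟨k1, k2, k3, _⟩ := hX3 X b3
  have he := Real.exp_pos 1
  have g2 : 4 ≤ Real.log (X : ℝ) := by linarith
  have g3 : 1 ≤ Real.log (Real.log (X : ℝ)) := by
    rw [Real.le_log_iff_exp_le (by linarith)]
    linarith
  refine ⟨b4, g2, g3, g4, ?_, g5, k1, k2, k3⟩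
  rw [Real.norm_eq_abs, Real.norm_eq_abs, id, abs_of_nonneg (by linarith : (0:ℝ) ≤ Real.log X)] at g8
  have g11 := (le_abs_self _).trans g8
  have g12 : 200 ≤ c * Real.log X := by
    rw [div_le_iff₀ hc] at g9
    linarith
  linarith

/-- the three kinds of types -/
theorem tri (α β : ℝ) (h0 : 0 < α) (h1 : α < 3 / 10) (h2 : 2 / 5 < β) (h3 : β < 1 / 2)
    (B' : ℕ) (hB : 1 ≤ B') : ∃ X0 : ℕ, ∀ X : ℕ, X0 ≤ X → ∀ n k : ℕ, X5 X < n → n ≤ X → 1 ≤ k →
    Simp (kp B' X) (zt X) k → (zt X : ℝ) ≤ (n : ℝ) / k →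
    (∀ j ∈ ty (kp B' X) (zt X) k, j < bx (kp B' X) (zt X) ((n : ℝ) / k)) →
    ∀ T : Finset ℕ, T = insert (bx (kp B' X) (zt X) ((n : ℝ) / k)) (ty (kp B' X) (zt X) k) →
    (T.card = k.primeFactors.card + 1 ∧ k.primeFactors.card ≤ 9) ∧
    ((rmT α β (kp B' X) X T = 0 ∧ epT α β (kp B' X) X T = 0) ∨ (1 : ℝ) ≤ nbd X k ∨
      (BT (vlog (kp B' X) (zt X)) (kp B' X) (Real.log X) (α * Real.log X) (β * Real.log X)
        (Real.log (Real.log X)) T ∧
      rmT α β (kp B' X) X T = FS (vlog (kp B' X) (zt X)) (Real.log X) (α * Real.log X)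
        (β * Real.log X) T ∧
      epT α β (kp B' X) X T = ES (vlog (kp B' X) (zt X)) (Real.log X) (α * Real.log X)
        (β * Real.log X) T)) := by
  classical
  have hc0 : 0 < min (3 / 10 - α) (β - 2 / 5) := lt_min (by linarith) (by linarith)
  obtain ⟨X1, hX1⟩ := nhc_big _ hc0 B' hB
  obtain ⟨X2, hX2⟩ := sg_n B' hB
  obtain ⟨X3, hX3⟩ := sg_cells ⟨20, 0, 0, fun _ _ => 0⟩ (by norm_num) B'
  refine ⟨max X1 (max X2 X3), ?_⟩
  intro X hX n k hn hnX hk hS hz hj T hT
  simp only [max_le_iff] at hX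
  obtain ⟨b1, b2, b3⟩ := hX
  obtain ⟨g1, g2, g3, g4, g5, g6, g7, g8, g9⟩ := hX1 X b1
  obtain ⟨hcard, ht1, ht2⟩ := hX2 X b2 n k hn hnX hk hS hz hj
  have hcells := hX3 X b3 k hS
  rw [← hT] at ht1 ht2
  set L := Real.log (X : ℝ) with hLd
  set l := Real.log L with hld
  set κ := kp B' X with hκd
  set z := zt X with hzd
  set T0 := ty κ z k with hT0
  set j0 := bx κ z ((n : ℝ) / k) with hj0
  have hj0T : j0 ∉ T0 := fun h => lt_irrefl _ (hj j0 h)
  have hT0c : T0.card = k.primeFactors.card :=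
    Finset.card_image_of_injOn (n_inj hS)
  have hTc : T.card = k.primeFactors.card + 1 := by
    rw [hT, Finset.card_insert_of_notMem hj0T, hT0c]
  have hT10 : T.card ≤ 10 := by omega
  refine ⟨⟨hTc, hcard⟩, ?_⟩
  have hRdef : rmT α β κ X T = if gdT (vlog κ z) κ (α * L) (β * L) T then 0 else
      ∑ S ∈ T.powerset, lamR3 (vlog κ z) L (α * L) (β * L) l S := by
    unfold rmT Wl wT
    rw [if_pos hT10]
  have hEdef : epT α β κ X T = if gdT (vlog κ z) κ (α * L) (β * L) T then 0 else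
      ∑ S ∈ T.powerset, lamE3 (vlog κ z) L (α * L) (β * L) l S := by
    unfold epT Wl wT
    rw [if_pos hT10]
  by_cases hg : gdT (vlog κ z) κ (α * L) (β * L) T
  · left
    rw [hRdef, hEdef, if_pos hg, if_pos hg]
    exact ⟨rfl, rfl⟩
  right
  have hlog2 : Real.log 2 < 7 / 10 := by
    have := Real.log_two_lt_d9
    linarith
  by_cases hbd : ∃ S ⊆ T, bdS (vlog κ z) L l S
  · left
    obtain ⟨S, hST, hSb⟩ := hbd
    -- a subset of `T0` near the square root
    obtain ⟨S', hS', hb'⟩ : ∃ S' ⊆ T0, |sg (vlog κ z) S' - L / 2| ≤ 11 * l + 7 / 10 := by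
      unfold bdS at hSb
      have hSb' := abs_le.1 hSb
      by_cases hjS : j0 ∈ S
      · refine ⟨T \ S, ?_, ?_⟩
        · intro j hjm
          have h4 := Finset.mem_sdiff.1 hjm
          rw [hT, Finset.mem_insert] at h4
          rcases h4.1 with h5 | h5
          · exact absurd (h5 ▸ hjS) h4.2
          · exact h5
        · rw [sg_compl _ hST, abs_le]
          constructor <;> linarith
      · refine ⟨S, ?_, ?_⟩
        · intro j hjm
          have h4 := hST hjm
          rw [hT, Finset.mem_insert] at h4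
          rcases h4 with h5 | h5
          · exact absurd (h5 ▸ hjm) hjS
          · exact h5
        · rw [abs_le]
          constructor <;> linarith
    obtain ⟨Q, hQ, hQS⟩ : ∃ Q ⊆ k.primeFactors, Q.image (fun p : ℕ => bx κ z p) = S' := by
      rw [hT0] at hS'
      unfold ty at hS'
      obtain ⟨Q, hQ, hQS⟩ := Finset.subset_image_iff.1 hS'
      exact ⟨Q, by exact_mod_cast hQ, hQS⟩
    obtain ⟨_, _, _, c4⟩ := hcells Q hQ
    rw [hQS] at c4
    have c5 : (Q.card : ℝ) * κ ≤ 9 / 100 := by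
      have h5 : (Q.card : ℝ) ≤ 9 := by
        have := (Finset.card_le_card hQ).trans hcard
        exact_mod_cast this
      calc (Q.card : ℝ) * κ ≤ 9 * κ := mul_le_mul_of_nonneg_right h5 g7.le
        _ ≤ 9 / 100 := by linarith
    have h6 : |∑ p ∈ Q, Real.log p - L / 2| ≤ 12 * l := by
      have h7 := abs_le.1 c4
      have h8 := abs_le.1 hb'
      rw [abs_le]
      constructor <;> linarith
    obtain ⟨P, hP⟩ : ∃ P : Finset ℕ → Prop, ∀ Q', P Q' ↔ Q' = Q := ⟨fun Q' => Q' = Q, fun _ => Iff.rfl⟩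
    have h9 := n_nbd (X := X) g1 (by linarith) hS.2.1 P
      (fun Q' _ he => by rw [(hP Q').1 he]; exact h6)
    refine le_trans ?_ h9
    rw [Nat.one_le_cast, Nat.one_le_iff_ne_zero, ← Nat.pos_iff_ne_zero, Finset.card_pos]
    exact ⟨Q, Finset.mem_filter.2 ⟨Finset.mem_powerset.2 hQ, (hP Q).2 rfl⟩⟩
  · right
    have hnb : ∀ S ⊆ T, ¬ bdS (vlog κ z) L l S := fun S hS hb => hbd ⟨S, hS, hb⟩
    have hfe : T.powerset.filter (fun S => bdS (vlog κ z) L l S) = ∅ := by
      rw [Finset.filter_eq_empty_iff]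
      intro S hS
      exact hnb S (Finset.mem_powerset.1 hS)
    have hz1 : 1 ≤ z := by omega
    have hzr : (1 : ℝ) ≤ z := by exact_mod_cast hz1
    have hcm : min (3 / 10 - α) (β - 2 / 5) * L ≤ (3 / 10 - α) * L :=
      mul_le_mul_of_nonneg_right (min_le_left _ _) (by linarith)
    have hcm' : min (3 / 10 - α) (β - 2 / 5) * L ≤ (β - 2 / 5) * L :=
      mul_le_mul_of_nonneg_right (min_le_right _ _) (by linarith)
    have hL0 : 0 < L := by linarith
    refine ⟨?_, ?_, ?_⟩
    · refine ⟨?_, g9, g3, by positivity, by linarith, by linarith, by nlinarith, ?_, ht1, ht2,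
        hg, hnb⟩
      · intro j
        rw [vlog_eq κ _ j hz1]
        have := Real.log_nonneg hzr
        positivity
      · intro j _
        rw [vlog_eq κ _ j hz1]
        have h4 : 0 ≤ κ * (j : ℝ) := by positivity
        linarith
    · rw [hRdef, if_neg hg]
      have := sum_lamR3 (vlog κ z) L (α * L) (β * L) l T
      rw [hfe, Finset.card_empty, Nat.cast_zero, mul_zero, sub_zero] at this
      exact this
    · rw [hEdef, if_neg hg]
      have := sum_lamE3 (vlog κ z) L (α * L) (β * L) l T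
      rw [hfe, Finset.card_empty, Nat.cast_zero, mul_zero, add_zero] at this
      exact this

/-- a large number times two small primes with a product above the square root -/
def P3 (α β : ℝ) (X n k : ℕ) : Prop :=
  k.primeFactors.card = 2 ∧ (∀ p ∈ k.primeFactors, Real.log p ≤ α * Real.log X + 1) ∧
    Real.log X / 2 ≤ Real.log k ∧ β * Real.log X - 1 ≤ Real.log ((n : ℝ) / k)

/-- four small numbers -/
def P4 (α : ℝ) (X n k : ℕ) : Prop :=
  k.primeFactors.card = 3 ∧ (∀ p ∈ k.primeFactors, Real.log p ≤ α * Real.log X + 1) ∧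
    Real.log ((n : ℝ) / k) ≤ α * Real.log X + 1

open Classical in
/-- **the values at one `k` for `th ≥ 0.43`** -/
theorem nhc (α β : ℝ) (h0 : 0 < α) (h1 : α < 3 / 10) (h2 : 3 / 7 < β) (h3 : β < 1 / 2)
    (h4 : 3 * α / 2 < β) (B' : ℕ) (hB : 1 ≤ B') : ∃ X0 : ℕ, ∀ X : ℕ, X0 ≤ X → ∀ n k : ℕ,
    X5 X < n → n ≤ X → 2 ≤ k → Simp (kp B' X) (zt X) k → (zt X : ℝ) ≤ (n : ℝ) / k →
    (∀ j ∈ ty (kp B' X) (zt X) k, j < bx (kp B' X) (zt X) ((n : ℝ) / k)) →
    ∀ T : Finset ℕ, T = insert (bx (kp B' X) (zt X) ((n : ℝ) / k)) (ty (kp B' X) (zt X) k) →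
    -rmT α β (kp B' X) X T ≤ 2 * (if P3 α β X n k then 1 else 0) + 2 ^ 24 * nbd X k ∧
    epT α β (kp B' X) X T ≤ 2 * (if P3 α β X n k then 1 else 0) +
      6 * (if P4 α X n k then 1 else 0) + 2 ^ 24 * nbd X k ∧
    spT α β (kp B' X) X T ≤ 6 * (if P4 α X n k then 1 else 0) + 2 ^ 24 * nbd X k := by
  have hc0 : 0 < min (β - 3 * α / 2) (7 * β - 3) := lt_min (by linarith) (by linarith)
  obtain ⟨X1, hX1⟩ := nhc_big _ hc0 B' hB
  obtain ⟨X2, hX2⟩ := tri α β h0 h1 (by linarith) h3 B' hB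
  refine ⟨max X1 X2, ?_⟩
  intro X hX n k hn hnX hk hS hz hj T hT
  simp only [max_le_iff] at hX
  obtain ⟨b1, b2⟩ := hX
  obtain ⟨g1, g2, g3, g4, g5, g6, g7, g8, g9⟩ := hX1 X b1
  obtain ⟨⟨hTc, hcard⟩, h5⟩ := hX2 X b2 n k hn hnX (by omega) hS hz hj T hT
  have hn0 : (0 : ℝ) ≤ (nbd X k : ℝ) := Nat.cast_nonneg _
  have hi3 : (0 : ℝ) ≤ (if P3 α β X n k then 1 else 0) := by split_ifs <;> norm_num
  have hi4 : (0 : ℝ) ≤ (if P4 α X n k then 1 else 0) := by split_ifs <;> norm_num
  rcases h5 with ⟨e1, e2⟩ | h5 | ⟨hBT, e1, e2⟩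
  · have e3 : spT α β (kp B' X) X T = 0 := by
      unfold spT
      rw [e1, e2, add_zero]
    rw [e1, e2, e3]
    refine ⟨?_, ?_, ?_⟩ <;> linarith
  · obtain ⟨c1, c2⟩ := rmT_bd α β (kp B' X) X T
    have c3 := abs_le.1 c1
    have c4 := abs_le.1 c2
    have e3 : spT α β (kp B' X) X T = rmT α β (kp B' X) X T + epT α β (kp B' X) X T := rfl
    rw [e3]
    refine ⟨?_, ?_, ?_⟩ <;> linarith
  · set L := Real.log (X : ℝ) with hLd
    set l := Real.log L with hld
    set κ := kp B' X with hκd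
    set z := zt X with hzd
    have hz1 : 1 ≤ z := by omega
    have hL0 : 0 < L := by linarith
    have hcm : min (β - 3 * α / 2) (7 * β - 3) * L ≤ (β - 3 * α / 2) * L :=
      mul_le_mul_of_nonneg_right (min_le_left _ _) (by linarith)
    have hcm' : min (β - 3 * α / 2) (7 * β - 3) * L ≤ (7 * β - 3) * L :=
      mul_le_mul_of_nonneg_right (min_le_right _ _) (by linarith)
    have h2c : 2 ≤ T.card := by
      have h6 : k.primeFactors.Nonempty := by
        rw [Nat.nonempty_primeFactors]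
        omega
      have := Finset.card_pos.2 h6
      omega
    have e3 : spT α β κ X T = FS (vlog κ z) L (α * L) (β * L) T +
        ES (vlog κ z) L (α * L) (β * L) T := by
      unfold spT
      rw [e1, e2]
    have hpz : ∀ p ∈ k.primeFactors, (z : ℝ) ≤ p := fun p hp => by
      exact_mod_cast hS.1.2 p hp
    have hvp : ∀ p ∈ k.primeFactors, vlog κ z (bx κ z p) ≤ Real.log p ∧
        Real.log p < vlog κ z (bx κ z p) + κ := fun p hp => vlog_bx g7 hz1 (hpz p hp)
    have hvn := vlog_bx g7 hz1 hz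
    set j0 := bx κ z ((n : ℝ) / k) with hj0
    have hj0T : j0 ∈ T := by
      rw [hT]
      exact Finset.mem_insert_self _ _
    have hj0T' : j0 ∉ ty κ z k := fun h => lt_irrefl _ (hj j0 h)
    have hbT : ∀ p ∈ k.primeFactors, bx κ z p ∈ T := fun p hp => by
      rw [hT]
      exact Finset.mem_insert_of_mem (mem_image_of_mem _ hp)
    have hbne : ∀ p ∈ k.primeFactors, bx κ z p ≠ j0 := fun p hp he =>
      hj0T' (he ▸ mem_image_of_mem _ hp)
    have hax := hBT.hax
    rw [e1, e2, e3]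
    rcases hBT.r2_hi (by linarith) (by linarith) h2c with ⟨f1, f2⟩ | ⟨hc3, hO, f1, f2⟩ |
      ⟨hc4, hsm, f1, f2⟩
    · rw [f1, f2]
      refine ⟨?_, ?_, ?_⟩ <;> linarith
    · -- a medium box and two small ones
      obtain ⟨q, hq, hqa, hqx, hqs⟩ := hO
      have hq0 : q = j0 := by
        by_contra hne
        have h6 := hqs j0 hj0T (fun h => hne h.symm)
        have h7 : q ∈ ty κ z k := by
          rw [hT, Finset.mem_insert] at hq
          rcases hq with h8 | h8
          · exact absurd h8 hne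
          · exact h8
        have h8 := hj q h7
        have h9 : vlog κ z q ≤ vlog κ z j0 := by
          rw [vlog_eq κ z q hz1, vlog_eq κ z j0 hz1]
          have h10 : (q : ℝ) ≤ j0 := by exact_mod_cast h8.le
          have := mul_le_mul_of_nonneg_left h10 g7.le
          linarith
        linarith
      rw [hq0] at hqa hqx hqs
      have h6 : β * L - 1 / 2 < vlog κ z j0 := by
        rcases hBT.dich (Finset.singleton_subset_iff.2 hj0T) with h7 | h7
        · rw [BT.sg_single] at h7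
          linarith
        · rwa [BT.sg_single] at h7
      have h7 : vlog κ z j0 < L / 2 - 6 * l := by
        rcases hBT.fl (Finset.singleton_subset_iff.2 hj0T) with h8 | h8
        · rwa [BT.sg_single] at h8
        · rw [BT.sg_single] at h8
          linarith
      have h8 : sg (vlog κ z) T = vlog κ z j0 + sg (vlog κ z) (ty κ z k) := by
        rw [hT]
        unfold sg
        exact Finset.sum_insert hj0T'
      have h9 : sg (vlog κ z) (ty κ z k) ≤ Real.log k := by
        rw [n_logk hS.2.1]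
        unfold sg ty
        rw [Finset.sum_image (n_inj hS)]
        exact Finset.sum_le_sum fun p hp => (hvp p hp).1
      have hP : P3 α β X n k := by
        refine ⟨by omega, ?_, ?_, ?_⟩
        · intro p hp
          have := hqs _ (hbT p hp) (hbne p hp)
          have := (hvp p hp).2
          rw [← hLd]
          linarith
        · have h10 := hBT.hlo
          have h11 := Real.log_two_lt_d9
          rw [← hLd]
          linarith
        · rw [← hLd]
          linarith [hvn.1]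
      rw [f1, f2, if_pos hP]
      refine ⟨?_, ?_, ?_⟩ <;> linarith
    · have hP : P4 α X n k := by
        refine ⟨by omega, ?_, ?_⟩
        · intro p hp
          have := hsm _ (hbT p hp)
          have := (hvp p hp).2
          rw [← hLd]
          linarith
        · have := hsm _ hj0T
          rw [← hLd]
          linarith [hvn.2]
      rw [f1, f2, if_pos hP]
      refine ⟨?_, ?_, ?_⟩ <;> linarith

end Pool.MP_dd84fd_nt.IY
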