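import Pool.Agent.Lib.MP_dd84fd_nt.IY.BRep
import Pool.Agent.Lib.MP_dd84fd_nt.IY.BPar
import Pool.Agent.Lib.MP_dd84fd_nt.HX.DcTwo
import Pool.Agent.Lib.BV.DivMom
import Pool.Agent.Lib.BV.DivMom

/-!
# IY-BBlk (1.0 h): blocks and the cut at `X5`

Proof. As `HX.dec2_of_dec1` (DcTwo.lean), without `1/log n`. `η = 1/L^B2`, `u_j = X^α (1+η)^j`, `J = ⌊L / log (1+η)⌋ + 2` blocks (`≤ L^(B2+2)`); for `X^α < m ≤ X^β` let `jj m` be the `j < J` with `u_j < m ≤ u_(j+1)`. Index `t = i J + j`. `a'_t(m) = a_i(m) [u_j < m ≤ u_(j+1)]`, `M_t = ⌊min u_j X^β⌋`, `K_t = ⌊X / u_(j+1)⌋` (if `u_j > X^β` the block is empty: take `K_t = 0`), `c'_t(k) = c_i(k) [k > X5/u_j]`.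
Then `M < m ≤ 2 M` (`u_j ≥ X^α ≥ 100`, `η ≤ 1/10`: `u_(j+1) ≤ 2 (u_j - 1)`), `M ≥ X^α/2`, `K M ≤ X`, `m K ≤ X`. For `n ≤ X5` every term `m k = n` has `m > u_j`, `k > X5/u_j`: none; so the block sum is `0`. For `X5 < n ≤ X` the block sum and `Σ_i Σ_m a c` differ only by terms `m k = n`, `u_j < m ≤ (1+η) u_j`, with `k ≤ X5/u_j` (then `n ≤ (1+η) X5`) or `k > X/u_(j+1)` (then `n > X/(1+η)`).
So the error is `|err| + L^(3C) τ(n) [X5 < n ≤ (1+η) X5 or X/(1+η) < n ≤ X]`; the set has at most `2 η X + 2 ≤ 3 η X` elements; Cauchy-Schwarz and `BV.div_mom 4`: `Σ ≤ 2 X/L^(B+2) + 2 L^(6C) (3 η X)^(1/2) (X (1+L)^C4)^(1/2) ≤ X/L^B` for `B1 = B + 2`, `B2` large in terms of `B, C, C4`.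
-/

set_option autoImplicit false

namespace Pool.MP_dd84fd_nt.IY

open Finset Pool.MP_dd84fd_nt.HX

/-- the number of exceptional `n` -/
theorem bbk_card {X : ℕ} {κ Y : ℝ} (hκ : 0 < κ) (hY0 : 0 ≤ Y) (hY : Y ≤ X)
    (h1 : 1 ≤ κ * X) {A : Finset ℕ} (hA : ∀ n ∈ A, n ≤ X ∧ ((X : ℝ) / (1 + κ) < (n : ℝ) ∨
      (Y < (n : ℝ) ∧ (n : ℝ) ≤ (1 + κ) * Y))) :
    (A.card : ℝ) ≤ 4 * (κ * X) := by
  classical
  have hX0 : (0 : ℝ) ≤ X := Nat.cast_nonneg _
  have h5 : A ⊆ Ioc ⌊(X : ℝ) / (1 + κ)⌋₊ X ∪ Ioc ⌊Y⌋₊ ⌊(1 + κ) * Y⌋₊ := by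
    intro n hn
    obtain ⟨g1, g2⟩ := hA n hn
    rw [Finset.mem_union, Finset.mem_Ioc, Finset.mem_Ioc]
    rcases g2 with g2 | ⟨g2, g3⟩
    · left
      refine ⟨?_, g1⟩
      rw [Nat.floor_lt (by positivity)]
      exact g2
    · right
      refine ⟨?_, Nat.le_floor g3⟩
      rw [Nat.floor_lt hY0]
      exact g2
  have h6 := (Finset.card_le_card h5).trans (Finset.card_union_le _ _)
  rw [Nat.card_Ioc, Nat.card_Ioc] at h6
  have k1 : ((X - ⌊(X : ℝ) / (1 + κ)⌋₊ : ℕ) : ℝ) ≤ κ * X + 1 := by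
    have h8 : ⌊(X : ℝ) / (1 + κ)⌋₊ ≤ X := by
      have h9 : (⌊(X : ℝ) / (1 + κ)⌋₊ : ℝ) ≤ X := by
        refine (Nat.floor_le (by positivity)).trans ?_
        rw [div_le_iff₀ (by linarith)]
        nlinarith
      exact_mod_cast h9
    rw [Nat.cast_sub h8]
    have h7 := Nat.lt_floor_add_one ((X : ℝ) / (1 + κ))
    have h10 : (X : ℝ) - X / (1 + κ) ≤ κ * X := by
      have h9 : (X : ℝ) - X / (1 + κ) = κ * X / (1 + κ) := by
        field_simp
        ring
      rw [h9, div_le_iff₀ (by linarith)]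
      nlinarith [mul_nonneg hκ.le hX0]
    linarith
  have k2 : ((⌊(1 + κ) * Y⌋₊ - ⌊Y⌋₊ : ℕ) : ℝ) ≤ κ * Y + 1 := by
    have h8 : ⌊Y⌋₊ ≤ ⌊(1 + κ) * Y⌋₊ := Nat.floor_le_floor (by nlinarith)
    rw [Nat.cast_sub h8]
    have h7 := Nat.lt_floor_add_one Y
    have h9 : (⌊(1 + κ) * Y⌋₊ : ℝ) ≤ (1 + κ) * Y := Nat.floor_le (by positivity)
    linarith
  have h7 : (A.card : ℝ) ≤ ((X - ⌊(X : ℝ) / (1 + κ)⌋₊ : ℕ) : ℝ) +
      ((⌊(1 + κ) * Y⌋₊ - ⌊Y⌋₊ : ℕ) : ℝ) := by exact_mod_cast h6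
  nlinarith

/-- the second moment over the exceptional set -/
theorem bbk_moment {X C4 b : ℕ} {L κ : ℝ} (hL : 2 ≤ L) (hκ : κ = 1 / L ^ (2 * b))
    (h4 : ∑ n ∈ Icc 1 X, (n.divisors.card : ℝ) ^ 4 ≤ X * (1 + L) ^ C4) {A : Finset ℕ}
    (hA : A ⊆ Icc 1 X) (hcard : (A.card : ℝ) ≤ 4 * (κ * X)) :
    ∑ n ∈ A, (n.divisors.card : ℝ) ^ 2 ≤ 2 * X * L ^ C4 / L ^ b := by
  have hL0 : 0 < L := by linarith
  have hX0 : (0 : ℝ) ≤ X := Nat.cast_nonneg _
  have hL2 : 1 + L ≤ L ^ 2 := by nlinarith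
  have hT4 : ∑ n ∈ A, (n.divisors.card : ℝ) ^ 4 ≤ X * L ^ (2 * C4) := by
    have h5 : ∑ n ∈ A, (n.divisors.card : ℝ) ^ 4 ≤ ∑ n ∈ Icc 1 X, (n.divisors.card : ℝ) ^ 4 :=
      Finset.sum_le_sum_of_subset_of_nonneg hA fun _ _ _ => by positivity
    refine h5.trans (h4.trans (mul_le_mul_of_nonneg_left ?_ hX0))
    calc (1 + L) ^ C4 ≤ (L ^ 2) ^ C4 := pow_le_pow_left₀ (by linarith) hL2 C4
      _ = L ^ (2 * C4) := by rw [pow_mul]
  have h5 : (∑ n ∈ A, (n.divisors.card : ℝ) ^ 2) ^ 2 ≤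
      (A.card : ℝ) * ∑ n ∈ A, (n.divisors.card : ℝ) ^ 4 := by
    have h6 := sq_sum_le_card_mul_sum_sq (s := A) (f := fun n => (n.divisors.card : ℝ) ^ 2)
    refine h6.trans (le_of_eq ?_)
    congr 1
    refine Finset.sum_congr rfl fun n _ => ?_
    ring
  have h6 : (A.card : ℝ) * ∑ n ∈ A, (n.divisors.card : ℝ) ^ 4 ≤
      (2 * X * L ^ C4 / L ^ b) ^ 2 := by
    have h7 : (A.card : ℝ) * ∑ n ∈ A, (n.divisors.card : ℝ) ^ 4 ≤
        4 * (κ * X) * (X * L ^ (2 * C4)) :=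
      mul_le_mul hcard hT4 (Finset.sum_nonneg fun _ _ => by positivity)
        (by rw [hκ]; positivity)
    refine h7.trans (le_of_eq ?_)
    rw [hκ, div_pow, mul_pow, mul_pow, ← pow_mul, ← pow_mul, mul_comm b 2, mul_comm C4 2]
    ring
  exact le_of_sq_le_sq (h5.trans h6) (by positivity)

open Classical in
/-- the pointwise comparison -/
theorem bbk_point {I J : ℕ} {a c : ℕ → ℕ → ℝ} {S : ℝ} {Kp : ℕ → ℕ} {jj : ℕ → ℕ}
    {P : ℕ → Prop} {Q : ℕ → ℕ → Prop} (hJ : 0 < J)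
    (hac : ∀ i n, |a i n| ≤ S ∧ |c i n| ≤ S) (hP : ∀ i m, a i m ≠ 0 → P m)
    (hjj : ∀ m, P m → jj m < J) {n : ℕ} (hn : 1 ≤ n) {Bad : Prop}
    (hbad : ∀ m k : ℕ, P m → 1 ≤ k → m * k = n → ¬ (k ≤ Kp (jj m) ∧ Q (jj m) k) → Bad) :
    |(∑ i ∈ range I, ∑ m ∈ n.divisors, a i m * c i (n / m)) -
      ∑ t ∈ range (I * J), ∑ m ∈ n.divisors, (if n / m ≤ Kp (t % J) then
        (if P m ∧ jj m = t % J then a (t / J) m else 0) *
        (if Q (t % J) (n / m) then c (t / J) (n / m) else 0) else 0)| ≤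
      I * S ^ 2 * (if Bad then (n.divisors.card : ℝ) else 0) := by
  have hS : 0 ≤ S := (abs_nonneg _).trans (hac 0 0).1
  have e1 := dcw_sum (fun i j => ∑ m ∈ n.divisors, (if n / m ≤ Kp j then
        (if P m ∧ jj m = j then a i m else 0) *
        (if Q j (n / m) then c i (n / m) else 0) else 0)) J hJ I
  rw [e1, ← Finset.sum_sub_distrib]
  have e2 : ∀ i ∈ range I, (∑ m ∈ n.divisors, a i m * c i (n / m)) -
      ∑ j ∈ range J, ∑ m ∈ n.divisors, (if n / m ≤ Kp j then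
        (if P m ∧ jj m = j then a i m else 0) *
        (if Q j (n / m) then c i (n / m) else 0) else 0) =
        ∑ m ∈ n.divisors, a i m * c i (n / m) *
          (if n / m ≤ Kp (jj m) ∧ Q (jj m) (n / m) then 0 else 1) := by
    intro i _
    rw [Finset.sum_comm, ← Finset.sum_sub_distrib]
    refine Finset.sum_congr rfl fun m hm => ?_
    by_cases ha : a i m = 0
    · rw [ha]
      simp
    · have hPm := hP i m ha
      rw [Finset.sum_eq_single_of_mem (jj m) (Finset.mem_range.mpr (hjj m hPm))]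
      · rw [if_pos (⟨hPm, rfl⟩ : P m ∧ jj m = jj m)]
        by_cases g1 : n / m ≤ Kp (jj m)
        · by_cases g2 : Q (jj m) (n / m)
          · rw [if_pos g1, if_pos g2, if_pos ⟨g1, g2⟩]
            ring
          · rw [if_pos g1, if_neg g2, if_neg (fun h => g2 h.2)]
            ring
        · rw [if_neg g1, if_neg (fun h => g1 h.1)]
          ring
      · intro j _ hj
        rw [if_neg (fun h : P m ∧ jj m = j => hj h.2.symm)]
        simp
  rw [Finset.sum_congr rfl e2]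
  have e3 : ∀ i ∈ range I, |∑ m ∈ n.divisors, a i m * c i (n / m) *
          (if n / m ≤ Kp (jj m) ∧ Q (jj m) (n / m) then 0 else 1)| ≤
      S ^ 2 * (if Bad then (n.divisors.card : ℝ) else 0) := by
    intro i _
    refine (Finset.abs_sum_le_sum_abs _ _).trans ?_
    have e4 : S ^ 2 * (if Bad then (n.divisors.card : ℝ) else 0) =
        ∑ m ∈ n.divisors, (if Bad then S ^ 2 else 0) := by
      rw [Finset.sum_const, nsmul_eq_mul]
      split_ifs <;> ring
    rw [e4]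
    refine Finset.sum_le_sum fun m hm => ?_
    have hmn : m ∣ n := Nat.dvd_of_mem_divisors hm
    have hk : 1 ≤ n / m := Nat.div_pos (Nat.le_of_dvd hn hmn) (Nat.pos_of_dvd_of_pos hmn hn)
    have e5 : (0 : ℝ) ≤ (if Bad then S ^ 2 else 0) := by
      split_ifs
      · positivity
      · exact le_rfl
    by_cases ha : a i m = 0
    · rw [ha, zero_mul, zero_mul, abs_zero]
      exact e5
    · have hPm := hP i m ha
      by_cases g : n / m ≤ Kp (jj m) ∧ Q (jj m) (n / m)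
      · rw [if_pos g, mul_zero, abs_zero]
        exact e5
      · have hB : Bad := hbad m (n / m) hPm hk (Nat.mul_div_cancel' hmn) g
        rw [if_neg g, mul_one, if_pos hB, abs_mul, sq]
        exact mul_le_mul (hac i m).1 (hac i (n / m)).2 (abs_nonneg _) hS
  refine (Finset.abs_sum_le_sum_abs _ _).trans ((Finset.sum_le_sum e3).trans ?_)
  rw [Finset.sum_const, Finset.card_range, nsmul_eq_mul]
  apply le_of_eq
  ring

/-- the parameters -/
theorem bbk_par (α β : ℝ) (h0 : 0 < α) (h2 : β < 1 / 2) (h3 : α ≤ β) (k : ℕ) :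
    ∃ X0 : ℕ, ∀ X : ℕ, X0 ≤ X → 1 ≤ X ∧ 8 ≤ Real.log X ∧
    (Real.log X) ^ k ≤ X ∧ 4 ≤ (X : ℝ) ^ α ∧ (X : ℝ) ^ α ≤ (X : ℝ) ^ β ∧
      (X : ℝ) ^ β ≤ Real.exp (Real.log X) * (X : ℝ) ^ α := by
  have h1 : ∀ᶠ x : ℝ in Filter.atTop, ‖(Real.log x) ^ k‖ ≤ 1 * ‖(id x : ℝ)‖ :=
    (Real.isLittleO_pow_log_id_atTop (n := k)).bound one_pos
  obtain ⟨Y, hY⟩ := Filter.eventually_atTop.mp h1
  obtain ⟨Z, hZ⟩ := Filter.eventually_atTop.mp
    ((tendsto_rpow_atTop h0).eventually_ge_atTop (4 : ℝ))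
  refine ⟨max (max ⌈Y⌉₊ ⌈Real.exp 8⌉₊) (max ⌈Z⌉₊ 1), fun X hX => ?_⟩
  simp only [max_le_iff] at hX
  obtain ⟨⟨k1, k2⟩, k3, k4⟩ := hX
  have hX1 : (1 : ℝ) ≤ X := by exact_mod_cast k4
  have hX0 : (0 : ℝ) < X := by linarith
  have h8 : Real.exp 8 ≤ X := (Nat.le_ceil _).trans (by exact_mod_cast k2)
  have hlog : 8 ≤ Real.log X := by rwa [Real.le_log_iff_exp_le hX0]
  have hY1 := hY X ((Nat.le_ceil _).trans (by exact_mod_cast k1))
  rw [one_mul, Real.norm_of_nonneg (by positivity), id, Real.norm_of_nonneg hX0.le] at hY1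
  have hZ1 := hZ X ((Nat.le_ceil _).trans (by exact_mod_cast k3))
  refine ⟨k4, hlog, hY1, hZ1, Real.rpow_le_rpow_of_exponent_le hX1 h3, ?_⟩
  rw [Real.exp_log hX0]
  have e2 : (X : ℝ) ^ β ≤ X := by
    calc (X : ℝ) ^ β ≤ (X : ℝ) ^ (1 : ℝ) := Real.rpow_le_rpow_of_exponent_le hX1 (by linarith)
      _ = X := Real.rpow_one _
  nlinarith

/-- the final bound -/
theorem bbk_last {L X s1 s2 : ℝ} {B : ℕ} (hL : 8 ≤ L) (hX : 0 ≤ X)
    (h1 : s1 ≤ X / L ^ (B + 2)) (h2 : s2 ≤ 2 * (X / L ^ (B + 2))) :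
    2 * s1 + 2 * s2 ≤ X / L ^ B := by
  have hL0 : 0 < L := by linarith
  have g5 : (6 : ℝ) * (X / L ^ (B + 2)) ≤ X / L ^ B := by
    have e1 : (6 : ℝ) ≤ L ^ 2 := by nlinarith
    rw [pow_add, ← div_div, ← mul_div_assoc, div_le_iff₀ (by positivity), mul_comm]
    exact mul_le_mul_of_nonneg_left e1 (by positivity)
  linarith

theorem bbk_alg {L X : ℝ} {C C4 B b : ℕ} (hL : 0 < L) (hb : b = 6 * C + C4 + B + 2) :
    L ^ (6 * C) * (2 * X * L ^ C4 / L ^ b) = 2 * (X / L ^ (B + 2)) := by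
  have e1 : L ^ b = L ^ (6 * C) * L ^ C4 * L ^ (B + 2) := by
    rw [← pow_add, ← pow_add, hb]
    congr 1
  rw [e1]
  field_simp

theorem blk (C B : ℕ) : ∃ C' : ℕ, ∀ α β : ℝ, 0 < α → α + 1 / 10 < β → β < 1 / 2 →
    ∃ X0 : ℕ, ∀ X : ℕ, X0 ≤ X → ∀ F : ℕ → ℝ, BRepG α β X C (B + 2) F →
      BlkG α β X C' B F := by
  classical
  obtain ⟨C4, hC4⟩ := Pool.BV.div_mom 4
  set b : ℕ := 6 * C + C4 + B + 2 with hb
  refine ⟨C + 2 * b + 2, fun α β h0 h1 h2 => ?_⟩
  obtain ⟨X2, hX2⟩ := bbk_par α β h0 h2 (by linarith) (2 * b)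
  refine ⟨X2, fun X hX F hF => ?_⟩
  obtain ⟨hX1', hlog, hlX, hU4, hUy, hyU⟩ := hX2 X hX
  obtain ⟨I, a, c, err, f3, f4, f5, f6, f7⟩ := hF
  set L : ℝ := Real.log X with hL
  set U : ℝ := (X : ℝ) ^ α with hU
  set y : ℝ := (X : ℝ) ^ β with hy
  have hX0 : (0 : ℝ) < X := by exact_mod_cast hX1'
  have hL0 : 0 < L := by linarith
  have hU0 : 0 < U := by linarith
  have hX5 : X5 X = X / L ^ 5 := rfl
  have hX50 : 0 ≤ X5 X := by rw [hX5]; positivity
  have hX5X : X5 X ≤ X := by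
    rw [hX5]
    exact div_le_self hX0.le (one_le_pow₀ (by linarith))
  set κ : ℝ := 1 / L ^ (2 * b) with hκ
  have hLb : (2 : ℝ) ≤ L ^ (2 * b) := by
    calc (2 : ℝ) ≤ L ^ 1 := by rw [pow_one]; linarith
      _ ≤ L ^ (2 * b) := pow_le_pow_right₀ (by linarith) (by omega)
  have hκ0 : 0 < κ := by rw [hκ]; positivity
  have hκ2 : κ ≤ 1 / 2 := by
    rw [hκ]
    exact one_div_le_one_div_of_le (by norm_num) hLb
  have hκX : 1 ≤ κ * X := by
    rw [hκ, one_div, inv_mul_eq_div, le_div_iff₀ (by positivity), one_mul]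
    exact hlX
  set J : ℕ := ⌈2 * L * L ^ (2 * b)⌉₊ with hJd
  have hJ0 : 0 < J := Nat.ceil_pos.mpr (by positivity)
  have hJ1 : 2 * L ≤ κ * J := by
    have h2 : 2 * L * L ^ (2 * b) ≤ J := Nat.le_ceil _
    rw [hκ, one_div, inv_mul_eq_div, le_div_iff₀ (by positivity)]
    exact h2
  have hJ2 : (J : ℝ) ≤ L ^ (2 * b + 2) := dcw_J hlog (Nat.ceil_lt_add_one (by positivity))
  obtain ⟨jj, hjj⟩ := dcw_block hκ0 (by linarith) (by linarith : 1 ≤ U) hyU hJ1 hJ0
  set Mp : ℕ → ℝ := fun j => min (U * (1 + κ) ^ j) y with hMp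
  set Kp : ℕ → ℕ := fun j => ⌊X / (Mp j * (1 + κ))⌋₊ with hKp
  have hMU : ∀ j, U ≤ Mp j := by
    intro j
    refine le_min ?_ hUy
    have : (1 : ℝ) ≤ (1 + κ) ^ j := one_le_pow₀ (by linarith)
    nlinarith
  have hM0 : ∀ j, 0 < Mp j := fun j => lt_of_lt_of_le hU0 (hMU j)
  have hMy : ∀ j, Mp j ≤ y := fun j => min_le_right _ _
  have hKM : ∀ j, (Kp j : ℝ) * (Mp j * (1 + κ)) ≤ X := by
    intro j
    have h2 : 0 < Mp j * (1 + κ) := mul_pos (hM0 j) (by linarith)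
    have h3 : (Kp j : ℝ) ≤ X / (Mp j * (1 + κ)) := Nat.floor_le (by positivity)
    rwa [le_div_iff₀ h2] at h3
  have hblk : ∀ m : ℕ, (U < m ∧ (m : ℝ) ≤ y) → Mp (jj m) < m ∧
      (m : ℝ) ≤ Mp (jj m) * (1 + κ) ∧ jj m < J := by
    intro m hm
    obtain ⟨g1, g2, g3⟩ := hjj m hm.1 hm.2
    have e : Mp (jj m) = U * (1 + κ) ^ (jj m) := min_eq_left (g1.le.trans hm.2)
    rw [e]
    exact ⟨g1, g2, g3⟩
  have hfl : ∀ j, ((⌊Mp j⌋₊ : ℕ) : ℝ) ≤ Mp j := fun j => Nat.floor_le (hM0 j).le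
  have hfl2 : ∀ j, Mp j - 1 < ((⌊Mp j⌋₊ : ℕ) : ℝ) := by
    intro j
    have := Nat.lt_floor_add_one (Mp j)
    linarith
  set P : ℕ → Prop := fun m => U < (m : ℝ) ∧ (m : ℝ) ≤ y with hP
  set Q : ℕ → ℕ → Prop := fun j k => X5 X < Mp j * (k : ℝ) with hQ
  set a' : ℕ → ℕ → ℝ := fun t m => if (P m ∧ jj m = t % J) then a (t / J) m else 0 with ha'
  set c' : ℕ → ℕ → ℝ := fun t k => if Q (t % J) k then c (t / J) k else 0 with hc'
  have ha0 : ∀ t m, a' t m ≠ 0 → P m ∧ jj m = t % J := by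
    intro t m hne
    by_contra hcon
    exact hne (if_neg hcon)
  have hLC : L ^ C ≤ L ^ (C + 2 * b + 2) := pow_le_pow_right₀ (by linarith) (by omega)
  refine ⟨I * J, fun t => ⌊Mp (t % J)⌋₊, fun t => Kp (t % J), a', c', fun n =>
    (if X5 X < (n : ℝ) then F n else 0) - ∑ t ∈ range (I * J), ∑ m ∈ n.divisors,
      (if n / m ≤ Kp (t % J) then a' t m * c' t (n / m) else 0), ?_, ?_, ?_, ?_, ?_, ?_⟩
  · push_cast
    calc (I : ℝ) * J ≤ L ^ C * L ^ (2 * b + 2) :=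
          mul_le_mul f3 hJ2 (by positivity) (by positivity)
      _ = L ^ (C + 2 * b + 2) := by rw [← pow_add]; rfl
  · intro t n
    constructor
    · simp only [ha']
      split_ifs
      · exact (f4 _ _).1.trans hLC
      · rw [abs_zero]; positivity
    · simp only [hc']
      split_ifs with hn
      · exact (f4 _ _).2.trans hLC
      · rw [abs_zero]; positivity
  · intro t
    refine ⟨?_, (hfl _).trans (hMy _), ?_⟩
    · have g1 := hfl2 (t % J)
      have g2 := hMU (t % J)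
      linarith
    · have h2 := hKM (t % J)
      have h3 : (Kp (t % J) : ℝ) * ((⌊Mp (t % J)⌋₊ : ℕ) : ℝ) ≤
          Kp (t % J) * (Mp (t % J) * (1 + κ)) := by
        apply mul_le_mul_of_nonneg_left _ (by positivity)
        have := hM0 (t % J)
        have := hfl (t % J)
        nlinarith
      exact_mod_cast h3.trans h2
  · intro t m hne
    obtain ⟨g1, g2⟩ := ha0 t m hne
    obtain ⟨g3, g4, _⟩ := hblk m g1
    rw [g2] at g3 g4
    have g5 := hfl (t % J)
    have g6 := hfl2 (t % J)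
    have g7 := hMU (t % J)
    refine ⟨?_, ?_, g1.2, ?_⟩
    · have : ((⌊Mp (t % J)⌋₊ : ℕ) : ℝ) < m := by linarith
      exact_mod_cast this
    · have g8 : (m : ℝ) ≤ 2 * ((⌊Mp (t % J)⌋₊ : ℕ) : ℝ) := by
        have g9 : Mp (t % J) * (1 + κ) ≤ Mp (t % J) * (1 + 1 / 2) :=
          mul_le_mul_of_nonneg_left (by linarith) (hM0 _).le
        linarith
      exact_mod_cast g8
    · have h2 := hKM (t % J)
      have g8 : (m : ℝ) * Kp (t % J) ≤ X := by
        calc (m : ℝ) * Kp (t % J) ≤ Mp (t % J) * (1 + κ) * Kp (t % J) :=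
              mul_le_mul_of_nonneg_right g4 (by positivity)
          _ = Kp (t % J) * (Mp (t % J) * (1 + κ)) := by ring
          _ ≤ X := h2
      exact_mod_cast g8
  · intro n _
    ring
  · -- the error
    set A : Finset ℕ := (Icc 1 X).filter fun n => (X : ℝ) / (1 + κ) < (n : ℝ) ∨
      (X5 X < (n : ℝ) ∧ (n : ℝ) ≤ (1 + κ) * X5 X) with hA
    have hAX : A ⊆ Icc 1 X := Finset.filter_subset _ _
    have hAc : (A.card : ℝ) ≤ 4 * (κ * X) := bbk_card hκ0 hX50 hX5X hκX fun n hn => by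
      rw [hA, Finset.mem_filter, Finset.mem_Icc] at hn
      exact ⟨hn.1.2, hn.2⟩
    have hAm := bbk_moment (X := X) (C4 := C4) (b := b) (L := L) (κ := κ) (by linarith) hκ
      (hC4 X hX1').1 hAX hAc
    have hpt : ∀ n ∈ Icc 1 X, ((if X5 X < (n : ℝ) then F n else 0) -
        ∑ t ∈ range (I * J), ∑ m ∈ n.divisors,
          (if n / m ≤ Kp (t % J) then a' t m * c' t (n / m) else 0)) ^ 2 ≤
        2 * err n ^ 2 + 2 * (L ^ (6 * C) *
          (if n ∈ A then (n.divisors.card : ℝ) ^ 2 else 0)) := by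
      intro n hn
      have hn1 := (Finset.mem_Icc.mp hn).1
      have hnX := (Finset.mem_Icc.mp hn).2
      have hpos : (0 : ℝ) ≤ (if n ∈ A then (n.divisors.card : ℝ) ^ 2 else 0) := by
        split_ifs
        · positivity
        · exact le_rfl
      by_cases h5 : X5 X < (n : ℝ)
      · rw [if_pos h5, f6 n h5 hnX]
        have hpt1 := bbk_point (I := I) (J := J) (a := a) (c := c) (S := L ^ C)
          (Kp := Kp) (jj := jj) (P := P) (Q := Q) hJ0 f4
          (fun i m hne => f5 i m hne) (fun m hm => (hblk m hm).2.2) hn1 (Bad := n ∈ A) (by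
            intro m k hm hk hmk hnot
            obtain ⟨g1, g2, _⟩ := hblk m hm
            have hk0 : (0 : ℝ) < k := by exact_mod_cast hk
            have hmk' : (n : ℝ) = (m : ℝ) * k := by
              rw [← hmk]
              push_cast
              ring
            rw [hA, Finset.mem_filter]
            refine ⟨hn, ?_⟩
            by_cases g3 : k ≤ Kp (jj m)
            · right
              refine ⟨h5, ?_⟩
              have g4 : ¬ (X5 X < Mp (jj m) * (k : ℝ)) := fun h => hnot ⟨g3, h⟩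
              rw [not_lt] at g4
              calc (n : ℝ) = (m : ℝ) * k := hmk'
                _ ≤ Mp (jj m) * (1 + κ) * k := mul_le_mul_of_nonneg_right g2 hk0.le
                _ = (1 + κ) * (Mp (jj m) * k) := by ring
                _ ≤ (1 + κ) * X5 X := mul_le_mul_of_nonneg_left g4 (by linarith)
            · left
              have g4 : (X : ℝ) / (Mp (jj m) * (1 + κ)) < k := by
                rw [not_le] at g3
                exact (Nat.floor_lt (by have := hM0 (jj m); positivity)).mp g3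
              have g5 : 0 < Mp (jj m) * (1 + κ) := mul_pos (hM0 _) (by linarith)
              rw [div_lt_iff₀ g5] at g4
              rw [div_lt_iff₀ (by linarith), hmk']
              have g6 : Mp (jj m) * k < (m : ℝ) * k := mul_lt_mul_of_pos_right g1 hk0
              have g7 : Mp (jj m) * k * (1 + κ) < (m : ℝ) * k * (1 + κ) :=
                mul_lt_mul_of_pos_right g6 (by linarith)
              linarith)
        set S1 : ℝ := ∑ i ∈ range I, ∑ m ∈ n.divisors, a i m * c i (n / m) with hS1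
        set S2 : ℝ := ∑ t ∈ range (I * J), ∑ m ∈ n.divisors,
          (if n / m ≤ Kp (t % J) then a' t m * c' t (n / m) else 0) with hS2
        have hpt2 : |S1 - S2| ≤ I * (L ^ C) ^ 2 *
            (if n ∈ A then (n.divisors.card : ℝ) else 0) := by
          rw [hS2]
          simp only [ha', hc']
          convert hpt1
        have hpt3 : |S1 - S2| ≤ L ^ (3 * C) * (if n ∈ A then (n.divisors.card : ℝ) else 0) := by
          refine hpt2.trans ?_
          have e0 : (0 : ℝ) ≤ (if n ∈ A then (n.divisors.card : ℝ) else 0) := by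
            split_ifs
            · positivity
            · exact le_rfl
          refine mul_le_mul_of_nonneg_right ?_ e0
          calc (I : ℝ) * (L ^ C) ^ 2 ≤ L ^ C * (L ^ C) ^ 2 :=
                mul_le_mul_of_nonneg_right f3 (by positivity)
            _ = L ^ (3 * C) := by ring
        have hsq : (S1 - S2) ^ 2 ≤ L ^ (6 * C) *
            (if n ∈ A then (n.divisors.card : ℝ) ^ 2 else 0) := by
          have e1 := pow_le_pow_left₀ (abs_nonneg _) hpt3 2
          rw [sq_abs] at e1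
          refine e1.trans (le_of_eq ?_)
          split_ifs
          · ring
          · ring
        have e2 : S1 + err n - S2 = err n + (S1 - S2) := by ring
        rw [e2]
        nlinarith [sq_nonneg (err n - (S1 - S2))]
      · rw [if_neg h5]
        have e1 : ∑ t ∈ range (I * J), ∑ m ∈ n.divisors,
            (if n / m ≤ Kp (t % J) then a' t m * c' t (n / m) else 0) = 0 := by
          refine Finset.sum_eq_zero fun t _ => Finset.sum_eq_zero fun m hm => ?_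
          have hmn : m ∣ n := Nat.dvd_of_mem_divisors hm
          have hk : 1 ≤ n / m := Nat.div_pos (Nat.le_of_dvd hn1 hmn)
            (Nat.pos_of_dvd_of_pos hmn hn1)
          by_cases ha : a' t m = 0
          · rw [ha, zero_mul, ite_self]
          · obtain ⟨g1, g2⟩ := ha0 t m ha
            obtain ⟨g3, g4, _⟩ := hblk m g1
            rw [g2] at g3
            have g5 : c' t (n / m) = 0 := by
              refine if_neg ?_
              intro g6
              apply h5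
              have hk0 : (0 : ℝ) < ((n / m : ℕ) : ℝ) := by exact_mod_cast hk
              have g6' : X5 X < Mp (t % J) * ((n / m : ℕ) : ℝ) := g6
              have g7 : Mp (t % J) * ((n / m : ℕ) : ℝ) < (m : ℝ) * ((n / m : ℕ) : ℝ) :=
                mul_lt_mul_of_pos_right g3 hk0
              have g8 : (m : ℝ) * ((n / m : ℕ) : ℝ) = n := by
                exact_mod_cast Nat.mul_div_cancel' hmn
              linarith
            rw [g5, mul_zero, ite_self]
        rw [e1]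
        have : 0 ≤ L ^ (6 * C) * (if n ∈ A then (n.divisors.card : ℝ) ^ 2 else 0) :=
          mul_nonneg (by positivity) hpos
        nlinarith [sq_nonneg (err n)]
    refine (Finset.sum_le_sum hpt).trans ?_
    rw [Finset.sum_add_distrib, ← Finset.mul_sum, ← Finset.mul_sum]
    refine bbk_last hlog hX0.le f7 ?_
    rw [← Finset.mul_sum, ← Finset.sum_filter, Finset.filter_mem_eq_inter,
      Finset.inter_eq_right.mpr hAX]
    refine (mul_le_mul_of_nonneg_left hAm (by positivity)).trans (le_of_eq ?_)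
    exact bbk_alg hL0 (by omega)

end Pool.MP_dd84fd_nt.IY
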