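import Mathlib

/-!
# Theorem I, part B: combinatorics of the types (helper33)

`T` is the set of boxes of the prime factors of `n`; `v j ≥ 0` is the logarithm of the left end point of box `j`, `sg v S = Σ_{j ∈ S} v j` the logarithm of `U_S`;
`x = log X`, `a = log yA`, `b = log yB`, `l = log log X`, `κ` = logarithmic length of the boxes.
-/

set_option autoImplicit false

namespace Pool.MP_dd84fd_nt.IY

open Finset

/-- the logarithm of `U_S` -/
noncomputable def sg (v : ℕ → ℝ) (S : Finset ℕ) : ℝ := ∑ j ∈ S, v j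

/-- some subset of the type `T` lies in the type II window -/
def gdT (v : ℕ → ℝ) (κ a b : ℝ) (T : Finset ℕ) : Prop :=
  ∃ S ⊆ T, a < sg v S ∧ sg v S + 11 * κ ≤ b

/-- the set is high and below the type I level -/
def hiS (v : ℕ → ℝ) (x b : ℝ) (S : Finset ℕ) : Prop :=
  x / 2 < sg v S ∧ sg v S ≤ x - b + Real.log (3 / 2)

/-- the set is near the square root -/
def bdS (v : ℕ → ℝ) (x l : ℝ) (S : Finset ℕ) : Prop := |sg v S - x / 2| ≤ 6 * l

open Classical in
/-- the value of a weight on a type -/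
noncomputable def wT (v : ℕ → ℝ) (κ a b : ℝ) (lam : Finset ℕ → ℝ) (T : Finset ℕ) : ℝ :=
  if gdT v κ a b T then 0 else ∑ S ∈ T.powerset, lam S

theorem sg_compl (v : ℕ → ℝ) {S T : Finset ℕ} (h : S ⊆ T) : sg v (T \ S) = sg v T - sg v S := by
  unfold sg
  rw [← Finset.sum_sdiff h]
  ring

theorem sg_nonneg {v : ℕ → ℝ} (h : ∀ j, 0 ≤ v j) (S : Finset ℕ) : 0 ≤ sg v S :=
  Finset.sum_nonneg fun _ _ => h _

theorem sg_mono {v : ℕ → ℝ} (h : ∀ j, 0 ≤ v j) {S T : Finset ℕ} (hST : S ⊆ T) :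
    sg v S ≤ sg v T :=
  Finset.sum_le_sum_of_subset_of_nonneg hST fun _ _ _ => h _

open Classical in
/-- `lw` -/
noncomputable def lwS (v : ℕ → ℝ) (x : ℝ) (T : Finset ℕ) : ℝ :=
  ∑ S ∈ T.powerset, if sg v S ≤ x / 2 then (-1 : ℝ) ^ S.card else 0

theorem alt_sum {T : Finset ℕ} (h : T.Nonempty) :
    ∑ S ∈ T.powerset, (-1 : ℝ) ^ S.card = 0 := by
  have := Finset.sum_powerset_neg_one_pow_card_of_nonempty h
  have h2 : (((∑ m ∈ T.powerset, (-1 : ℤ) ^ m.card : ℤ)) : ℝ) = 0 := by rw [this]; simp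
  push_cast at h2
  exact h2

open Classical in
/-- even number of primes -/
theorem lw_even {v : ℕ → ℝ} {x : ℝ} {T : Finset ℕ} (hne : T.Nonempty) (hev : Even T.card)
    (hfl : ∀ S ⊆ T, (sg v S ≤ x / 2 ↔ ¬ sg v (T \ S) ≤ x / 2)) : lwS v x T = 0 := by
  have h1 : lwS v x T = ∑ S ∈ T.powerset, if ¬ sg v S ≤ x / 2 then (-1 : ℝ) ^ S.card else 0 := by
    unfold lwS
    refine Finset.sum_nbij' (fun S => T \ S) (fun S => T \ S) ?_ ?_ ?_ ?_ ?_
    · intro S _
      exact Finset.mem_powerset.mpr Finset.sdiff_subset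
    · intro S _
      exact Finset.mem_powerset.mpr Finset.sdiff_subset
    · intro S hS
      exact Finset.sdiff_sdiff_eq_self (Finset.mem_powerset.mp hS)
    · intro S hS
      exact Finset.sdiff_sdiff_eq_self (Finset.mem_powerset.mp hS)
    · intro S hS
      have hS' := Finset.mem_powerset.mp hS
      have h3 := hfl S hS'
      have h4 : (-1 : ℝ) ^ (T \ S).card = (-1 : ℝ) ^ S.card := by
        have h5 : (T \ S).card + S.card = T.card := Finset.card_sdiff_add_card_eq_card hS'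
        have h6 : (-1 : ℝ) ^ (T \ S).card * (-1 : ℝ) ^ S.card = 1 := by
          rw [← pow_add, h5]
          exact hev.neg_one_pow
        rcases neg_one_pow_eq_or ℝ S.card with h7 | h7 <;> rw [h7] at h6 ⊢ <;> linarith
      by_cases h : sg v S ≤ x / 2
      · rw [if_pos h, if_pos (h3.mp h), h4]
      · rw [if_neg h]
        have : sg v (T \ S) ≤ x / 2 := by
          by_contra hc
          exact h (h3.mpr hc)
        rw [if_neg (not_not.mpr this)]
  have h2 : lwS v x T + lwS v x T = 0 := by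
    nth_rewrite 2 [h1]
    unfold lwS
    rw [← Finset.sum_add_distrib]
    refine (Finset.sum_congr rfl fun S _ => ?_).trans (alt_sum hne)
    by_cases h : sg v S ≤ x / 2 <;> simp [h]
  linarith

open Classical in
/-- a high single -/
theorem lw_single {v : ℕ → ℝ} {x : ℝ} {T : Finset ℕ} (hv : ∀ j, 0 ≤ v j) {p : ℕ} (hp : p ∈ T) (h2 : 2 ≤ T.card)
    (hh : x / 2 < sg v {p})
    (hfl : ∀ S ⊆ T, (sg v S ≤ x / 2 ↔ ¬ sg v (T \ S) ≤ x / 2)) : lwS v x T = 0 := by
  have h1 : lwS v x T = ∑ S ∈ (T.erase p).powerset, (-1 : ℝ) ^ S.card := by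
    unfold lwS
    rw [← Finset.sum_filter]
    refine Finset.sum_congr ?_ fun _ _ => rfl
    ext S
    rw [Finset.mem_filter, Finset.mem_powerset, Finset.mem_powerset]
    constructor
    · rintro ⟨hS, hl⟩
      intro j hj
      refine Finset.mem_erase.mpr ⟨?_, hS hj⟩
      rintro rfl
      have := sg_mono hv (Finset.singleton_subset_iff.mpr hj)
      linarith
    · intro hS
      have hS' : S ⊆ T := hS.trans (Finset.erase_subset _ _)
      refine ⟨hS', (hfl S hS').mpr ?_⟩
      have hp2 : p ∉ S := fun h => (Finset.mem_erase.mp (hS h)).1 rfl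
      have := sg_mono hv (Finset.singleton_subset_iff.mpr (Finset.mem_sdiff.mpr ⟨hp, hp2⟩))
      linarith
  rw [h1]
  apply alt_sum
  rw [← Finset.card_pos, Finset.card_erase_of_mem hp]
  omega

open Classical in
/-- three primes, all singles low -/
theorem lw_three {v : ℕ → ℝ} {x : ℝ} {T : Finset ℕ} (hx : 0 ≤ x) (h3 : T.card = 3)
    (hs : ∀ j ∈ T, sg v {j} ≤ x / 2)
    (hfl : ∀ S ⊆ T, (sg v S ≤ x / 2 ↔ ¬ sg v (T \ S) ≤ x / 2)) : lwS v x T = -2 := by
  have key : ∀ S ∈ T.powerset, (sg v S ≤ x / 2 ↔ S.card ≤ 1) := by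
    have h1 : ∀ S ⊆ T, S.card ≤ 1 → sg v S ≤ x / 2 := by
      intro S hS hc
      rcases Nat.le_one_iff_eq_zero_or_eq_one.mp hc with h0 | h0
      · rw [Finset.card_eq_zero.mp h0]
        simp only [sg, Finset.sum_empty]
        linarith
      · obtain ⟨j, rfl⟩ := Finset.card_eq_one.mp h0
        exact hs j (hS (Finset.mem_singleton_self j))
    intro S hS
    have hS' := Finset.mem_powerset.mp hS
    refine ⟨fun hl => ?_, h1 S hS'⟩
    by_contra hc
    have h5 : (T \ S).card + S.card = T.card := Finset.card_sdiff_add_card_eq_card hS'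
    exact (hfl S hS').mp hl (h1 _ Finset.sdiff_subset (by omega))
  have e1 : lwS v x T = ∑ S ∈ T.powerset, if S.card ≤ 1 then (-1 : ℝ) ^ S.card else 0 := by
    unfold lwS
    refine Finset.sum_congr rfl fun S hS => ?_
    by_cases h : sg v S ≤ x / 2
    · rw [if_pos h, if_pos ((key S hS).mp h)]
    · rw [if_neg h, if_neg (fun h' => h ((key S hS).mpr h'))]
  rw [e1]
  rw [Finset.sum_powerset_apply_card (fun m => if m ≤ 1 then (-1 : ℝ) ^ m else 0) , h3]
  simp [Finset.sum_range_succ]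
  norm_num

end Pool.MP_dd84fd_nt.IY
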