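import Pool.Agent.Lib.MP_dd84fd_nt.IY.BRep
import Pool.Agent.Lib.MP_dd84fd_nt.IY.BPar

/-!
# IY-BCl3 (0.6 h): the three type II pieces of `F`

Proof. `Ac z lam0 Z l ≠ 0` implies `Z ≤ l < Z q0`, `q0 = (sm z l).minFac`, so `q0 ≠ 1`, `sm z l ≠ 1`, `q0` is a prime `< z` (`HX.sm_smo`) and `l < Z z`. Classes: `τ l = cl κ q0 ≤ log z/κ ≤ (log X)^(B'+1)`, `I = ⌊(log X)^(B'+1)⌋ + 1 ≤ (log X)^(B'+2)`, `Q i s = ∀ p ∈ s.primeFactors, i ≤ cl κ p`. `C = B' + 2` (`2^13 ≤ log X`).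
`low_rep`: `Z = 2 X^α`: `X^α < 2 X^α ≤ l < 2 X^α z ≤ X^β`: `brg_cls`. `high_rep`: `Z = 2 X^(1-β)`: for `X5 < n ≤ X`, `l ∣ n`: `n/l ≤ X/(2 X^(1-β)) = X^β/2` and `n/l > X5/(2 X^(1-β) z) ≥ X^α` (`b_par`): `brg_cls'`. `mid_rep`: `brg_sum` with one term (`s = {0}`). `ac_abs`: `|mr| ≤ 1` (`HX.mr_le`).
-/

set_option autoImplicit false

namespace Pool.MP_dd84fd_nt.IY

open Finset Pool.MP_dd84fd_nt.HX

theorem ac_abs {z : ℕ} {lam0 : ℕ → ℝ} {Z : ℝ} (h : ∀ m, |lam0 m| ≤ 2 ^ 13) (l : ℕ) :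
    |Ac z lam0 Z l| ≤ 2 ^ 13 := by
  unfold Ac
  split_ifs
  · rw [abs_mul]
    calc |lam0 (ro z l)| * |mr (sm z l)| ≤ 2 ^ 13 * 1 :=
          mul_le_mul (h _) (mr_le _) (abs_nonneg _) (by norm_num)
      _ = 2 ^ 13 := mul_one _
  · rw [abs_zero]
    norm_num

theorem ac_sm {z : ℕ} {lam0 : ℕ → ℝ} {Z : ℝ} {l : ℕ} (h : Ac z lam0 Z l ≠ 0) :
    sm z l ≠ 1 := by
  intro h1
  apply h
  unfold Ac
  rw [if_neg]
  rintro ⟨h2, h3⟩
  rw [h1, Nat.minFac_one, Nat.cast_one, mul_one] at h3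
  exact absurd h2 (not_le.2 h3)

private theorem bcl3_supp {z : ℕ} {lam0 : ℕ → ℝ} {Z : ℝ} (hZ : 0 < Z) {l : ℕ}
    (h : Ac z lam0 Z l ≠ 0) :
    Z ≤ (l : ℝ) ∧ (l : ℝ) < Z * z ∧ (sm z l).minFac < z ∧ 1 ≤ (sm z l).minFac := by
  have h1 := ac_sm h
  have h2 : Z ≤ (l : ℝ) ∧ (l : ℝ) < Z * ((sm z l).minFac : ℝ) := by
    by_contra hcon
    apply h
    unfold Ac
    rw [if_neg hcon]
  have hp : (sm z l).minFac.Prime := Nat.minFac_prime h1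
  have h3 : (sm z l).minFac < z :=
    sm_smo z l _ (Nat.mem_primeFactors.2 ⟨hp, Nat.minFac_dvd _, (sm_pos z l).ne'⟩)
  refine ⟨h2.1, h2.2.trans_le ?_, h3, hp.one_lt.le⟩
  have h4 : ((sm z l).minFac : ℝ) ≤ z := by exact_mod_cast h3.le
  exact mul_le_mul_of_nonneg_left h4 hZ.le

private theorem bcl3_cl {B' X q : ℕ} (hX : 1 ≤ X) (hL : 1 ≤ Real.log X) (hq : 1 ≤ q) (hqX : q ≤ X) :
    cl (kp B' X) q < NJ B' X := by
  have hl : 0 < Real.log X := by linarith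
  have h1 : Real.log q / kp B' X ≤ (Real.log X) ^ (B' + 1) := by
    have h2 : Real.log q ≤ Real.log X :=
      Real.log_le_log (by exact_mod_cast hq) (by exact_mod_cast hqX)
    unfold kp
    rw [div_div_eq_mul_div, div_one, pow_succ, mul_comm]
    exact mul_le_mul_of_nonneg_left h2 (by positivity)
  unfold cl NJ
  exact Nat.lt_succ_of_le (Nat.floor_le_floor h1)

private theorem bcl3_NJ {B' X : ℕ} (hL : 2 ≤ Real.log X) :
    (NJ B' X : ℝ) ≤ (Real.log X) ^ (B' + 2) := by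
  have h1 : (1 : ℝ) ≤ (Real.log X) ^ (B' + 1) := one_le_pow₀ (by linarith)
  unfold NJ
  rw [Nat.cast_add, Nat.cast_one]
  calc (⌊(Real.log X) ^ (B' + 1)⌋₊ : ℝ) + 1 ≤ (Real.log X) ^ (B' + 1) + (Real.log X) ^ (B' + 1) :=
        add_le_add (Nat.floor_le (by linarith)) h1
    _ = (Real.log X) ^ (B' + 1) * 2 := by ring
    _ ≤ (Real.log X) ^ (B' + 1) * Real.log X := mul_le_mul_of_nonneg_left hL (by linarith)
    _ = (Real.log X) ^ (B' + 2) := by ring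

private theorem bcl3_pow {X C : ℕ} (hL : 8192 ≤ Real.log X) (hC : 1 ≤ C) :
    (2 : ℝ) ^ 13 ≤ (Real.log X) ^ C := by
  calc (2 : ℝ) ^ 13 ≤ (Real.log X) ^ 1 := by rw [pow_one]; norm_num; linarith
    _ ≤ (Real.log X) ^ C := pow_le_pow_right₀ (by linarith) hC

private theorem bcl3_zX {X : ℕ} (hX : 1 ≤ X) : zt X ≤ X := by
  unfold zt
  refine Nat.ceil_le.2 ?_
  have h1 : (1 : ℝ) ≤ X := by exact_mod_cast hX
  calc (X : ℝ) ^ (1 / 10 : ℝ) ≤ (X : ℝ) ^ (1 : ℝ) :=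
        Real.rpow_le_rpow_of_exponent_le h1 (by norm_num)
    _ = X := Real.rpow_one _

theorem low_rep (B' : ℕ) (hB : 1 ≤ B') : ∃ C : ℕ, ∀ α β : ℝ, 0 < α → α + 1 / 10 < β →
    β < 1 / 2 → ∃ X0 : ℕ, ∀ X : ℕ, X0 ≤ X → ∀ lam0 : ℕ → ℝ, (∀ m, |lam0 m| ≤ 2 ^ 13) →
    ∀ B : ℕ, BRepG α β X C B (TBg (kp B' X) (zt X) (Ac (zt X) lam0 (2 * (X : ℝ) ^ α))) := by
  refine ⟨B' + 2, fun α β h0 h1 h2 => ?_⟩
  obtain ⟨X0, hX0⟩ := b_par α β h0 h1 h2 8192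
  refine ⟨X0, fun X hX lam0 hlam B => ?_⟩
  obtain ⟨g1, g2, -, g4, g5, g6, -, g8, g9, -, -, -, -⟩ := hX0 X hX
  norm_num at g2
  have hL : (1 : ℝ) ≤ Real.log X := by linarith
  have hZ : (0 : ℝ) < 2 * (X : ℝ) ^ α := by linarith
  have hI := bcl3_NJ (B' := B') (X := X) (by linarith)
  have h := brg_cls (α := α) (β := β) (B := B) (I := NJ B' X) hL hI
    (Ac (zt X) lam0 (2 * (X : ℝ) ^ α)) (fun l => cl (kp B' X) (sm (zt X) l).minFac)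
    (fun i s => ∀ p ∈ s.primeFactors, i ≤ cl (kp B' X) p)
    (fun n => (ac_abs hlam n).trans (bcl3_pow (by linarith) (by omega))) (fun m hm => by
      obtain ⟨k1, k2, k3, k4⟩ := bcl3_supp hZ hm
      refine ⟨by linarith, ?_, bcl3_cl g1 hL k4 (k3.le.trans (bcl3_zX g1))⟩
      refine k2.le.trans (le_trans ?_ g9)
      exact le_mul_of_one_le_right (by positivity) (one_le_pow₀ hL))
  refine brg_congr (fun n _ _ => ?_) h
  unfold TBg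
  refine Finset.sum_congr rfl fun l _ => ?_
  congr

theorem high_rep (B' : ℕ) (hB : 1 ≤ B') : ∃ C : ℕ, ∀ α β : ℝ, 0 < α → α + 1 / 10 < β →
    β < 1 / 2 → ∃ X0 : ℕ, ∀ X : ℕ, X0 ≤ X → ∀ lam0 : ℕ → ℝ, (∀ m, |lam0 m| ≤ 2 ^ 13) →
    ∀ B : ℕ, BRepG α β X C B
      (TBg (kp B' X) (zt X) (Ac (zt X) lam0 (2 * (X : ℝ) ^ (1 - β)))) := by
  refine ⟨B' + 2, fun α β h0 h1 h2 => ?_⟩
  obtain ⟨X0, hX0⟩ := b_par α β h0 h1 h2 8192
  refine ⟨X0, fun X hX lam0 hlam B => ?_⟩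
  obtain ⟨g1, g2, -, g4, g5, g6, -, g8, g9, g10, g11, g12, -⟩ := hX0 X hX
  norm_num at g2
  have hL : (1 : ℝ) ≤ Real.log X := by linarith
  have hXp : (0 : ℝ) < X := by exact_mod_cast g1
  have hpb : (0 : ℝ) < (X : ℝ) ^ (1 - β) := Real.rpow_pos_of_pos hXp _
  have hZ : (0 : ℝ) < 2 * (X : ℝ) ^ (1 - β) := by linarith
  have hI := bcl3_NJ (B' := B') (X := X) (by linarith)
  have h := brg_cls' (α := α) (β := β) (B := B) (I := NJ B' X) hL hI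
    (Ac (zt X) lam0 (2 * (X : ℝ) ^ (1 - β)))
    (fun l => cl (kp B' X) (sm (zt X) l).minFac)
    (fun i s => ∀ p ∈ s.primeFactors, i ≤ cl (kp B' X) p)
    (fun n => (ac_abs hlam n).trans (bcl3_pow (by linarith) (by omega)))
    (fun l n hl hln hn1 hn2 => by
      obtain ⟨k1, k2, k3, k4⟩ := bcl3_supp hZ hl
      have hl0 : (0 : ℝ) < l := by linarith
      have hl0' : (l : ℝ) ≠ 0 := hl0.ne'
      have hn2' : (n : ℝ) ≤ X := by exact_mod_cast hn2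
      rw [Nat.cast_div hln hl0']
      refine ⟨?_, ?_, bcl3_cl g1 hL k4 (k3.le.trans (bcl3_zX g1))⟩
      · rw [lt_div_iff₀ hl0]
        have h5 : 0 < (X : ℝ) ^ α := by linarith
        calc (X : ℝ) ^ α * l < (X : ℝ) ^ α * (2 * (X : ℝ) ^ (1 - β) * zt X) :=
              mul_lt_mul_of_pos_left k2 h5
          _ ≤ X5 X := g12
          _ < n := hn1
      · rw [div_le_iff₀ hl0]
        have h6 : 0 < (X : ℝ) ^ β := Real.rpow_pos_of_pos hXp _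
        calc (n : ℝ) ≤ X := hn2'
          _ = (X : ℝ) ^ β * (X : ℝ) ^ (1 - β) := g10.symm
          _ ≤ (X : ℝ) ^ β * l := mul_le_mul_of_nonneg_left (by linarith) h6.le)
  refine brg_congr (fun n _ _ => ?_) h
  unfold TBg
  refine Finset.sum_congr rfl fun l _ => ?_
  congr

theorem mid_rep : ∃ C X0 : ℕ, ∀ (α β : ℝ) (X : ℕ), X0 ≤ X → ∀ lam0 : ℕ → ℝ,
    (∀ m, |lam0 m| ≤ 2 ^ 13) → (∀ m, lam0 m ≠ 0 → (X : ℝ) ^ α < m ∧ (m : ℝ) ≤ (X : ℝ) ^ β) →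
    ∀ B : ℕ, BRepG α β X C B (fun n => ∑ m ∈ n.divisors, lam0 m * rg (zt X) (n / m)) := by
  obtain ⟨X0, hX0⟩ := b_par (1 / 10) (3 / 10) (by norm_num) (by norm_num) (by norm_num) 8192
  refine ⟨1, X0, fun α β X hX lam0 hlam hw B => ?_⟩
  obtain ⟨g1, g2, -⟩ := hX0 X hX
  norm_num at g2
  have hL : (1 : ℝ) ≤ Real.log X := by linarith
  have h3 := bcl3_pow (X := X) (C := 1) (by linarith) le_rfl
  have h := brg_sum (α := α) (β := β) (B := B) (C := 1) hL ({0} : Finset ℕ)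
    (by rw [Finset.card_singleton, Nat.cast_one, pow_one]; exact hL)
    (fun _ => lam0) (fun _ => rg (zt X))
    (fun t _ n => ⟨(hlam n).trans h3, by
      rw [abs_of_nonneg (rg_nonneg _ _).1]
      exact (rg_nonneg _ _).2.trans (le_trans (by norm_num) h3)⟩)
    (fun t _ m hm => hw m hm)
  simpa using h

end Pool.MP_dd84fd_nt.IY
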