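import Pool.Agent.Lib.MP_dd84fd_nt.IY.BCl

/-!
# Theorem I, part B: Lemma CL with better coefficients (helper88), for `th > 2/5`

Coefficients of a high set `H` (`x/2 < sg v H`, complement above `b`): `0` if `H` contains a box above `√X`; `μ(H)` if it contains a medium box
(above `a`, at most `x/2`); otherwise (small boxes only) `0` for pairs, `-#{p ∈ H : H \ p low}` for triples, `-2` for four boxes.
-/

set_option autoImplicit false

namespace Pool.MP_dd84fd_nt.IY

open Finset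

open Classical in
/-- the number of low middle sets `H \ p` -/
noncomputable def nlS (v : ℕ → ℝ) (x a : ℝ) (H : Finset ℕ) : ℝ :=
  ((H.filter (fun p => a < sg v (H.erase p) ∧ sg v (H.erase p) ≤ x / 2)).card : ℝ)

open Classical in
/-- coefficients of high sets, minorant -/
noncomputable def cR (v : ℕ → ℝ) (x a : ℝ) (H : Finset ℕ) : ℝ :=
  if ∃ p ∈ H, x / 2 < sg v {p} then 0
  else if ∃ p ∈ H, a < sg v {p} then (-1 : ℝ) ^ H.card
  else if H.card = 3 then -nlS v x a H else if H.card = 4 then -2 else 0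

open Classical in
/-- coefficients of high sets, error -/
noncomputable def cE (v : ℕ → ℝ) (x a : ℝ) (H : Finset ℕ) : ℝ :=
  if ∃ p ∈ H, a < sg v {p} then 0
  else if H.card = 2 then 2
  else if H.card = 3 then nlS v x a H else if H.card = 4 then 3 else 0

open Classical in
/-- weights of the minorant -/
noncomputable def lamR3 (v : ℕ → ℝ) (x a b l : ℝ) (S : Finset ℕ) : ℝ :=
  (if sg v S ≤ x / 2 then (-1 : ℝ) ^ S.card else 0) + (if hiS v x b S then cR v x a S else 0) -
    (if bdS v x l S then 2048 else 0)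

open Classical in
/-- weights of the majorant of the error -/
noncomputable def lamE3 (v : ℕ → ℝ) (x a b l : ℝ) (S : Finset ℕ) : ℝ :=
  (if hiS v x b S then cE v x a S else 0) + (if bdS v x l S then 4096 else 0)

theorem half_cardZ (T : Finset ℕ) (M : Finset (Finset ℕ)) (hM : ∀ S ∈ M, S ⊆ T)
    (hc : ∀ S ∈ M, T \ S ∈ M) (q : Finset ℕ → Prop) [DecidablePred q]
    (hq : ∀ S ∈ M, (q S ↔ ¬ q (T \ S))) : 2 * (M.filter q).card = M.card := by
  have h1 : (M.filter q).card = (M.filter (fun S => ¬ q S)).card := by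
    refine Finset.card_nbij' (fun S => T \ S) (fun S => T \ S) ?_ ?_ ?_ ?_
    · intro S hS
      have hS' := Finset.mem_filter.mp hS
      exact Finset.mem_filter.mpr ⟨hc S hS'.1, (hq S hS'.1).mp hS'.2⟩
    · intro S hS
      have hS' := Finset.mem_filter.mp hS
      refine Finset.mem_filter.mpr ⟨hc S hS'.1, ?_⟩
      have := hq S hS'.1
      tauto
    · intro S hS
      exact Finset.sdiff_sdiff_eq_self (hM S (Finset.mem_filter.mp hS).1)
    · intro S hS
      exact Finset.sdiff_sdiff_eq_self (hM S (Finset.mem_filter.mp hS).1)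
  have h2 := Finset.card_filter_add_card_filter_not (s := M) (p := q)
  omega

theorem nlS_nonneg (v : ℕ → ℝ) (x a : ℝ) (H : Finset ℕ) : 0 ≤ nlS v x a H := by
  unfold nlS
  positivity

open Classical in
theorem nlS_le (v : ℕ → ℝ) (x a : ℝ) (H : Finset ℕ) : nlS v x a H ≤ H.card := by
  unfold nlS
  exact_mod_cast Finset.card_filter_le _ _

theorem cE_nonneg (v : ℕ → ℝ) (x a : ℝ) (H : Finset ℕ) : 0 ≤ cE v x a H ∧ cE v x a H ≤ 3 := by
  unfold cE
  have h1 := nlS_nonneg v x a H
  have h2 := nlS_le v x a H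
  split_ifs with h3 h4 h5 h6
  · norm_num
  · norm_num
  · rw [h5] at h2
    push_cast at h2
    exact ⟨h1, h2⟩
  · norm_num
  · norm_num

theorem cR_bd (v : ℕ → ℝ) (x a : ℝ) (H : Finset ℕ) : -3 ≤ cR v x a H ∧ cR v x a H ≤ 1 := by
  unfold cR
  have h1 := nlS_nonneg v x a H
  have h2 := nlS_le v x a H
  split_ifs with h3 h4 h5 h6
  · norm_num
  · rcases neg_one_pow_eq_or ℝ H.card with h7 | h7 <;> rw [h7] <;> norm_num
  · rw [h5] at h2
    push_cast at h2
    constructor <;> linarith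
  · norm_num
  · norm_num

theorem cR_cE (v : ℕ → ℝ) (x a : ℝ) (H : Finset ℕ) : -1 ≤ cR v x a H + cE v x a H := by
  unfold cR cE
  have h8 : -1 ≤ (-1 : ℝ) ^ H.card := by
    rcases neg_one_pow_eq_or ℝ H.card with h7 | h7 <;> rw [h7] <;> norm_num
  split_ifs <;> linarith [nlS_nonneg v x a H]

/-- small boxes only -/
theorem cR_small {v : ℕ → ℝ} {x a : ℝ} {H : Finset ℕ} (hax : a ≤ x / 2)
    (h : ∀ p ∈ H, sg v {p} ≤ a) : cR v x a H =
      if H.card = 3 then -nlS v x a H else if H.card = 4 then -2 else 0 := by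
  unfold cR
  rw [if_neg, if_neg]
  · rintro ⟨p, hp, h1⟩
    linarith [h p hp]
  · rintro ⟨p, hp, h1⟩
    linarith [h p hp]

theorem cE_small {v : ℕ → ℝ} {x a : ℝ} {H : Finset ℕ}
    (h : ∀ p ∈ H, sg v {p} ≤ a) : cE v x a H = if H.card = 2 then 2
      else if H.card = 3 then nlS v x a H else if H.card = 4 then 3 else 0 := by
  unfold cE
  rw [if_neg]
  rintro ⟨p, hp, h1⟩
  linarith [h p hp]

theorem cR_small_nonpos {v : ℕ → ℝ} {x a : ℝ} {H : Finset ℕ} (hax : a ≤ x / 2)
    (h : ∀ p ∈ H, sg v {p} ≤ a) : cR v x a H ≤ 0 ∧ 0 ≤ cR v x a H + cE v x a H := by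
  rw [cR_small hax h, cE_small h]
  have := nlS_nonneg v x a H
  split_ifs <;> (try omega) <;> constructor <;> (try norm_num) <;> linarith

/-- the standing hypotheses on a bad type -/
structure BT (v : ℕ → ℝ) (κ x a b l : ℝ) (T : Finset ℕ) : Prop where
  hv : ∀ j, 0 ≤ v j
  hk : 11 * κ ≤ Real.log (3 / 2)
  hl : 1 ≤ l
  ha0 : 0 ≤ a
  hA : a + 50 * l ≤ 3 * x / 10
  hB : 2 * x / 5 + 50 * l ≤ b
  hb2 : b ≤ x / 2
  hz : ∀ j ∈ T, x / 10 - l ≤ v j
  hlo : x - (Real.log 2 + 5 * l) ≤ sg v T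
  hhi : sg v T ≤ x
  hgd : ¬ ∃ S ⊆ T, a < sg v S ∧ sg v S + 11 * κ ≤ b
  hnb : ∀ S ⊆ T, ¬ bdS v x l S

theorem log32 : Real.log (3 / 2) < 1 / 2 := by
  have h1 : Real.log (3 / 2) < 3 / 2 - 1 := Real.log_lt_sub_one_of_pos (by norm_num) (by norm_num)
  linarith

namespace BT

variable {v : ℕ → ℝ} {κ x a b l : ℝ} {T : Finset ℕ}

theorem sumlo (h : BT v κ x a b l T) : x - 6 * l ≤ sg v T := by
  have h1 := h.hlo
  have h2 := h.hl
  have := Real.log_two_lt_d9
  linarith

theorem dich (h : BT v κ x a b l T) {S : Finset ℕ} (hS : S ⊆ T) : sg v S ≤ a ∨ b - 1 / 2 < sg v S := by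
  by_contra hc
  rw [not_or, not_le, not_lt] at hc
  exact h.hgd ⟨S, hS, hc.1, by linarith [log32, h.hk]⟩

theorem fl (h : BT v κ x a b l T) {S : Finset ℕ} (hS : S ⊆ T) :
    sg v S < x / 2 - 6 * l ∨ x / 2 + 6 * l < sg v S := by
  have h1 := h.hnb S hS
  unfold bdS at h1
  rw [abs_le, not_and_or] at h1
  rcases h1 with h2 | h2
  · left
    linarith
  · right
    linarith

theorem hfl (h : BT v κ x a b l T) : ∀ S ⊆ T, (sg v S ≤ x / 2 ↔ ¬ sg v (T \ S) ≤ x / 2) := by
  intro S hS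
  have h1 := sg_compl v hS
  have h2 := h.sumlo
  have h3 := h.hhi
  have h4 := h.hl
  rcases h.fl hS with h5 | h5 <;> constructor
  · intro _
    rw [not_le]
    linarith
  · intro _
    linarith
  · intro h6
    linarith
  · intro h6
    exact absurd (by linarith : sg v (T \ S) ≤ x / 2) h6

theorem xl (h : BT v κ x a b l T) : 500 * l ≤ x := by
  linarith [h.hB, h.hb2]

theorem hax (h : BT v κ x a b l T) : a ≤ x / 2 := by
  linarith [h.hA, h.hl, h.xl]

theorem hi_iff (h : BT v κ x a b l T) {S : Finset ℕ} (hS : S ⊆ T) :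
    hiS v x b S ↔ x / 2 < sg v S ∧ a < sg v (T \ S) := by
  have h1 := sg_compl v hS
  have h2 := h.sumlo
  have h3 := h.hhi
  have h4 := h.hl
  have h5 := h.hA
  have h6 := h.hB
  have h7 := log32
  have h8 := h.xl
  unfold hiS
  constructor
  · rintro ⟨a1, a2⟩
    exact ⟨a1, by linarith⟩
  · rintro ⟨a1, a2⟩
    refine ⟨a1, ?_⟩
    have h9 : b < sg v (T \ S) + 11 * κ := by
      by_contra hc
      exact h.hgd ⟨T \ S, Finset.sdiff_subset, a2, by linarith⟩
    linarith [h.hk]

theorem sg_ge (h : BT v κ x a b l T) {S : Finset ℕ} (hS : S ⊆ T) :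
    (S.card : ℝ) * (x / 10 - l) ≤ sg v S := by
  calc (S.card : ℝ) * (x / 10 - l) = ∑ j ∈ S, (x / 10 - l) := by
        rw [Finset.sum_const, nsmul_eq_mul]
    _ ≤ ∑ j ∈ S, v j := Finset.sum_le_sum fun j hj => h.hz j (hS hj)
    _ = sg v S := rfl

theorem three (h : BT v κ x a b l T) {S : Finset ℕ} (hS : S ⊆ T) (h3 : 3 ≤ S.card) :
    b - 1 / 2 < sg v S := by
  rcases h.dich hS with h1 | h1
  · exfalso
    have h2 := h.sg_ge hS
    have h4 : (3 : ℝ) ≤ S.card := by exact_mod_cast h3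
    have h5 := h.xl
    have h6 := h.hl
    have h7 := h.hA
    have h8 : 3 * (x / 10 - l) ≤ (S.card : ℝ) * (x / 10 - l) :=
      mul_le_mul_of_nonneg_right h4 (by linarith)
    linarith
  · exact h1

/-- sum over a disjoint union -/
theorem sg_union {S S' : Finset ℕ} (hd : Disjoint S S') : sg v (S ∪ S') = sg v S + sg v S' := by
  unfold sg
  exact Finset.sum_union hd

theorem sg_single (v : ℕ → ℝ) (p : ℕ) : sg v {p} = v p := by
  unfold sg
  rw [Finset.sum_singleton]

theorem sg_erase (v : ℕ → ℝ) {T : Finset ℕ} {p : ℕ} (hp : p ∈ T) :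
    sg v (T.erase p) = sg v T - sg v {p} := by
  unfold sg
  rw [Finset.sum_singleton, ← Finset.add_sum_erase T v hp]
  ring

/-- at least three elements: the sum is at least `b` plus the remaining ones -/
theorem many (h : BT v κ x a b l T) {S : Finset ℕ} (hS : S ⊆ T) {k : ℕ} (h3 : k + 3 ≤ S.card) :
    b - 1 / 2 + k * (x / 10 - l) < sg v S := by
  obtain ⟨U, hU, hU3⟩ := Finset.exists_subset_card_eq (show 3 ≤ S.card by omega)
  have h1 := h.three (hU.trans hS) (by omega)
  have h2 := h.sg_ge (S := S \ U) (Finset.sdiff_subset.trans hS)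
  have h4 : k ≤ (S \ U).card := by
    rw [Finset.card_sdiff_of_subset hU]
    omega
  have h5 : (k : ℝ) ≤ (S \ U).card := by exact_mod_cast h4
  have h6 := sg_compl v hU
  have h7 : (k : ℝ) * (x / 10 - l) ≤ ((S \ U).card : ℝ) * (x / 10 - l) :=
    mul_le_mul_of_nonneg_right h5 (by linarith [h.xl, h.hl])
  linarith

theorem card_le (h : BT v κ x a b l T) : T.card ≤ 7 := by
  by_contra hc
  obtain ⟨U, hU, hU3⟩ := Finset.exists_subset_card_eq (show 3 ≤ T.card by omega)
  have h1 := h.three hU (by omega)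
  have h2 := h.many (S := T \ U) Finset.sdiff_subset (k := 2) (by
    rw [Finset.card_sdiff_of_subset hU]
    omega)
  have h3 := sg_compl v hU
  have h4 := h.hhi
  have h5 := h.hB
  have h6 := h.hl
  push_cast at h2
  linarith

end BT

end Pool.MP_dd84fd_nt.IY
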