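import Pool.Agent.Lib.MP_dd84fd_nt.IY.BCz

/-!
# Theorem I, part B: Lemma CL with better coefficients, the cases (helper88)
-/

set_option autoImplicit false

namespace Pool.MP_dd84fd_nt.IY

open Finset

open Classical in
/-- value of the minorant on a type, without the edge terms -/
noncomputable def FS (v : ℕ → ℝ) (x a b : ℝ) (T : Finset ℕ) : ℝ :=
  ∑ S ∈ T.powerset, ((if sg v S ≤ x / 2 then (-1 : ℝ) ^ S.card else 0) +
    (if hiS v x b S then cR v x a S else 0))

open Classical in
/-- value of the error majorant on a type, without the edge terms -/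
noncomputable def ES (v : ℕ → ℝ) (x a b : ℝ) (T : Finset ℕ) : ℝ :=
  ∑ S ∈ T.powerset, (if hiS v x b S then cE v x a S else 0)

open Classical in
theorem FS_eq (v : ℕ → ℝ) (x a b : ℝ) (T : Finset ℕ) : FS v x a b T =
    lwS v x T + ∑ S ∈ T.powerset, (if hiS v x b S then cR v x a S else 0) := by
  unfold FS lwS
  rw [Finset.sum_add_distrib]

open Classical in
theorem ES_nonneg (v : ℕ → ℝ) (x a b : ℝ) (T : Finset ℕ) : 0 ≤ ES v x a b T := by
  refine Finset.sum_nonneg fun S _ => ?_
  have := (cE_nonneg v x a S).1
  split_ifs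
  · exact this
  · exact le_rfl

namespace BT

variable {v : ℕ → ℝ} {κ x a b l : ℝ} {T : Finset ℕ}

open Classical in
/-- a box above `√X` -/
theorem case_big (h : BT v κ x a b l T) (h2 : 2 ≤ T.card) {p : ℕ} (hp : p ∈ T)
    (hpx : x / 2 < sg v {p}) : FS v x a b T = 0 ∧ ES v x a b T = 0 := by
  have hin : ∀ S ∈ T.powerset, hiS v x b S → p ∈ S := by
    intro S hS hi
    by_contra hc
    have hST := Finset.mem_powerset.mp hS
    have h1 : sg v S ≤ sg v (T.erase p) := sg_mono h.hv (fun j hj =>
      Finset.mem_erase.mpr ⟨fun he => hc (he ▸ hj), hST hj⟩)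
    rw [sg_erase v hp] at h1
    linarith [hi.1, h.hhi]
  constructor
  · rw [FS_eq, lw_single h.hv hp h2 hpx h.hfl, Finset.sum_eq_zero, add_zero]
    intro S hS
    by_cases hi : hiS v x b S
    · rw [if_pos hi]
      unfold cR
      rw [if_pos ⟨p, hin S hS hi, hpx⟩]
    · rw [if_neg hi]
  · unfold ES
    refine Finset.sum_eq_zero fun S hS => ?_
    by_cases hi : hiS v x b S
    · rw [if_pos hi]
      unfold cE
      rw [if_pos ⟨p, hin S hS hi, by linarith [h.hax]⟩]
    · rw [if_neg hi]

/-- no box above `√X`: at least three boxes -/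
theorem three_le (h : BT v κ x a b l T) (h2 : 2 ≤ T.card) (hs : ∀ j ∈ T, sg v {j} ≤ x / 2) :
    3 ≤ T.card := by
  by_contra hc
  obtain ⟨i, j, hij, rfl⟩ := Finset.card_eq_two.mp (by omega : T.card = 2)
  have h1 := h.sumlo
  have e1 : sg v ({i, j} : Finset ℕ) = sg v {i} + sg v {j} := by
    unfold sg
    rw [Finset.sum_pair hij, Finset.sum_singleton, Finset.sum_singleton]
  have hi := hs i (by simp)
  have hj := hs j (by simp)
  have h3 := h.fl (S := {i}) (by simp)
  have h4 := h.fl (S := {j}) (by simp)
  have h5 := h.hl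
  rcases h3 with h3 | h3 <;> rcases h4 with h4 | h4 <;> linarith

/-- two medium boxes: at most three boxes -/
theorem two_med (h : BT v κ x a b l T) {p q : ℕ} (hp : p ∈ T) (hq : q ∈ T) (hpq : p ≠ q)
    (hpa : a < sg v {p}) (hqa : a < sg v {q}) : T.card ≤ 3 := by
  by_contra hc
  have hp1 : b - 1 / 2 < sg v {p} := by
    rcases h.dich (S := {p}) (by simpa using hp) with h1 | h1
    · linarith
    · exact h1
  have hq1 : b - 1 / 2 < sg v {q} := by
    rcases h.dich (S := {q}) (by simpa using hq) with h1 | h1
    · linarith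
    · exact h1
  have hq2 : q ∈ T.erase p := Finset.mem_erase.mpr ⟨hpq.symm, hq⟩
  have e1 := sg_erase v hp
  have e2 := sg_erase v hq2
  have hc2 : 2 ≤ ((T.erase p).erase q).card := by
    rw [Finset.card_erase_of_mem hq2, Finset.card_erase_of_mem hp]
    omega
  have h3 := h.sg_ge (S := (T.erase p).erase q)
    ((Finset.erase_subset _ _).trans (Finset.erase_subset _ _))
  have h4 : (2 : ℝ) ≤ ((T.erase p).erase q).card := by exact_mod_cast hc2
  have h5 : 2 * (x / 10 - l) ≤ (((T.erase p).erase q).card : ℝ) * (x / 10 - l) :=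
    mul_le_mul_of_nonneg_right h4 (by linarith [h.xl, h.hl])
  have h6 := h.hhi
  have h7 := h.hB
  have h8 := h.hl
  linarith

/-- a medium box: at most five boxes -/
theorem one_med (h : BT v κ x a b l T) {q : ℕ} (hq : q ∈ T) (hqa : a < sg v {q}) :
    T.card ≤ 5 := by
  by_contra hc
  have hq1 : b - 1 / 2 < sg v {q} := by
    rcases h.dich (S := {q}) (by simpa using hq) with h1 | h1
    · linarith
    · exact h1
  have h2 := h.many (S := T.erase q) (Finset.erase_subset _ _) (k := 2) (by
    rw [Finset.card_erase_of_mem hq]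
    omega)
  have e1 := sg_erase v hq
  have h6 := h.hhi
  have h7 := h.hB
  have h8 := h.hl
  push_cast at h2
  linarith

theorem sg_empty (v : ℕ → ℝ) : sg v (∅ : Finset ℕ) = 0 := by
  unfold sg
  simp

/-- a subset of a set of small boxes -/
theorem sub_small {U : Finset ℕ} (hU : ∀ p ∈ U, sg v {p} ≤ a) {S : Finset ℕ} (hS : S ⊆ U) :
    ∀ p ∈ S, sg v {p} ≤ a := fun p hp => hU p (hS hp)

/-- high sets have at least two elements and a complement which is not small -/
theorem hi_two (h : BT v κ x a b l T) (hs : ∀ j ∈ T, sg v {j} ≤ x / 2) {S : Finset ℕ}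
    (hS : S ⊆ T) (hi : hiS v x b S) : 2 ≤ S.card ∧ (T \ S).Nonempty := by
  constructor
  · by_contra hc
    rcases Nat.le_one_iff_eq_zero_or_eq_one.mp (by omega : S.card ≤ 1) with h0 | h0
    · have h1 := hi.1
      rw [Finset.card_eq_zero.mp h0, sg_empty] at h1
      linarith [h.xl, h.hl]
    · obtain ⟨j, rfl⟩ := Finset.card_eq_one.mp h0
      have := hs j (hS (Finset.mem_singleton_self j))
      linarith [hi.1]
  · by_contra hc
    rw [Finset.not_nonempty_iff_eq_empty] at hc
    have h1 := ((h.hi_iff hS).mp hi).2
    rw [hc, sg_empty] at h1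
    linarith [h.ha0]

open Classical in
/-- three boxes -/
theorem sum_three (h : BT v κ x a b l T) (hs : ∀ j ∈ T, sg v {j} ≤ x / 2) (h3 : T.card = 3)
    (c : Finset ℕ → ℝ) : ∑ S ∈ T.powerset, (if hiS v x b S then c S else 0) =
      ∑ t ∈ T.filter (fun t => a < sg v {t}), c (T.erase t) := by
  rw [← Finset.sum_filter]
  symm
  refine Finset.sum_bij (fun t _ => T.erase t) ?_ ?_ ?_ ?_
  · intro t ht
    have ht' := Finset.mem_filter.mp ht
    refine Finset.mem_filter.mpr ⟨Finset.mem_powerset.mpr (Finset.erase_subset _ _), ?_⟩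
    have hc : T \ T.erase t = {t} := Finset.sdiff_erase_self ht'.1
    rw [h.hi_iff (Finset.erase_subset _ _), hc]
    refine ⟨?_, ht'.2⟩
    rw [sg_erase v ht'.1]
    rcases h.fl (S := {t}) (by simpa using ht'.1) with h1 | h1
    · linarith [h.sumlo]
    · linarith [hs t ht'.1, h.hl]
  · intro t ht t' ht' he
    by_contra hne
    have h1 : t ∈ T.erase t' := Finset.mem_erase.mpr ⟨hne, (Finset.mem_filter.mp ht).1⟩
    have he' : T.erase t = T.erase t' := he
    rw [← he'] at h1
    exact (Finset.mem_erase.mp h1).1 rfl
  · intro S hS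
    have hS' := Finset.mem_filter.mp hS
    have hST := Finset.mem_powerset.mp hS'.1
    obtain ⟨h1, h2⟩ := h.hi_two hs hST hS'.2
    have h4 : (T \ S).card + S.card = T.card := Finset.card_sdiff_add_card_eq_card hST
    have h5 := Finset.card_pos.mpr h2
    obtain ⟨t, ht⟩ := Finset.card_eq_one.mp (by omega : (T \ S).card = 1)
    have htm : t ∈ T \ S := by rw [ht]; simp
    have htT := (Finset.mem_sdiff.mp htm).1
    have h6 := ((h.hi_iff hST).mp hS'.2).2
    rw [ht] at h6
    refine ⟨t, Finset.mem_filter.mpr ⟨htT, h6⟩, ?_⟩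
    ext j
    rw [Finset.mem_erase]
    constructor
    · rintro ⟨h7, h8⟩
      by_contra hc
      have : j ∈ T \ S := Finset.mem_sdiff.mpr ⟨h8, hc⟩
      rw [ht, Finset.mem_singleton] at this
      exact h7 this
    · intro hj
      refine ⟨?_, hST hj⟩
      rintro rfl
      exact (Finset.mem_sdiff.mp htm).2 hj
  · intro t _
    rfl

open Classical in
/-- three boxes, none above `√X` -/
theorem case_three (h : BT v κ x a b l T) (hs : ∀ j ∈ T, sg v {j} ≤ x / 2) (h3 : T.card = 3) :
    (FS v x a b T = 0 ∧ ES v x a b T = 0 ∧ 2 ≤ (T.filter (fun t => a < sg v {t})).card) ∨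
    (FS v x a b T = -2 ∧ ES v x a b T = 2 ∧ (T.filter (fun t => a < sg v {t})).card = 1) := by
  have hx0 : 0 ≤ x := by linarith [h.xl, h.hl]
  have hlw := lw_three hx0 h3 hs h.hfl
  set M := T.filter (fun t => a < sg v {t}) with hM
  have hMm : ∀ t, t ∈ M ↔ t ∈ T ∧ a < sg v {t} := by
    intro t
    rw [hM, Finset.mem_filter]
  have hM1 : 1 ≤ M.card := by
    by_contra hc
    have h0 : M = ∅ := Finset.card_eq_zero.mp (by omega)
    have h1 : sg v T ≤ 3 * a := by
      calc sg v T = ∑ j ∈ T, v j := rfl
        _ ≤ ∑ j ∈ T, a := by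
            refine Finset.sum_le_sum fun j hj => ?_
            by_contra hc'
            have : j ∈ M := (hMm j).mpr ⟨hj, by rw [sg_single]; linarith⟩
            rw [h0] at this
            simp at this
        _ = 3 * a := by rw [Finset.sum_const, h3, nsmul_eq_mul]; norm_num
    linarith [h.sumlo, h.hA, h.hl, h.xl]
  have hM2 : M.card ≤ 2 := by
    by_contra hc
    have h0 : M = T := by
      refine Finset.eq_of_subset_of_card_le (Finset.filter_subset _ _) ?_
      change T.card ≤ M.card
      omega
    have h1 : 3 * (b - 1 / 2) ≤ sg v T := by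
      calc 3 * (b - 1 / 2) = ∑ j ∈ T, (b - 1 / 2) := by
            rw [Finset.sum_const, h3, nsmul_eq_mul]; norm_num
        _ ≤ ∑ j ∈ T, v j := by
            refine Finset.sum_le_sum fun j hj => ?_
            have hj' : j ∈ M := by rw [h0]; exact hj
            have h4 := ((hMm j).mp hj').2
            rcases h.dich (S := {j}) (by simpa using hj) with h5 | h5
            · linarith
            · rw [sg_single] at h5
              linarith
    linarith [h.hhi, h.hB, h.hl, h.xl]
  have key : ∀ t ∈ M, cR v x a (T.erase t) = (if M.card = 2 then 1 else 0) ∧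
      cE v x a (T.erase t) = (if M.card = 2 then 0 else 2) := by
    intro t ht
    have htT := ((hMm t).mp ht).1
    have hcd : (T.erase t).card = 2 := by
      rw [Finset.card_erase_of_mem htT]
      omega
    have hnb : ¬ ∃ p ∈ T.erase t, x / 2 < sg v {p} := by
      rintro ⟨p, hp, h1⟩
      linarith [hs p (Finset.erase_subset _ _ hp)]
    have hiff : (∃ p ∈ T.erase t, a < sg v {p}) ↔ M.card = 2 := by
      constructor
      · rintro ⟨p, hp, h1⟩
        have hp' := Finset.mem_erase.mp hp
        have hpM : p ∈ M := (hMm p).mpr ⟨hp'.2, h1⟩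
        have : 1 < M.card := Finset.one_lt_card.mpr ⟨p, hpM, t, ht, hp'.1⟩
        omega
      · intro h1
        obtain ⟨p, hp, hpt⟩ := Finset.exists_mem_ne (by omega : 1 < M.card) t
        exact ⟨p, Finset.mem_erase.mpr ⟨hpt, ((hMm p).mp hp).1⟩, ((hMm p).mp hp).2⟩
    unfold cR cE
    rw [if_neg hnb]
    by_cases h2 : M.card = 2
    · rw [if_pos (hiff.mpr h2), if_pos (hiff.mpr h2), if_pos h2, if_pos h2, hcd]
      norm_num
    · rw [if_neg (fun h' => h2 (hiff.mp h')), if_neg (fun h' => h2 (hiff.mp h')), if_neg h2,
        if_neg h2, hcd]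
      norm_num
  have hF : FS v x a b T = -2 + ∑ t ∈ M, (if M.card = 2 then (1 : ℝ) else 0) := by
    rw [FS_eq, hlw, h.sum_three hs h3, ← hM]
    congr 1
    exact Finset.sum_congr rfl fun t ht => (key t ht).1
  have hE : ES v x a b T = ∑ t ∈ M, (if M.card = 2 then (0 : ℝ) else 2) := by
    unfold ES
    rw [h.sum_three hs h3, ← hM]
    exact Finset.sum_congr rfl fun t ht => (key t ht).2
  rw [Finset.sum_const, nsmul_eq_mul] at hF hE
  rcases (by omega : M.card = 1 ∨ M.card = 2) with h1 | h1
  · right
    rw [hF, hE, h1]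
    norm_num
  · left
    rw [hF, hE, h1]
    norm_num

open Classical in
/-- small boxes only: nonpositive, and the sum with the error is nonnegative -/
theorem small_sum_sign (h : BT v κ x a b l T) (hsm : ∀ j ∈ T, sg v {j} ≤ a) :
    ∑ S ∈ T.powerset, (if hiS v x b S then cR v x a S else 0) ≤ 0 ∧
    0 ≤ ∑ S ∈ T.powerset, (if hiS v x b S then cR v x a S else 0) + ES v x a b T := by
  constructor
  · refine Finset.sum_nonpos fun S hS => ?_
    have := (cR_small_nonpos h.hax (sub_small hsm (Finset.mem_powerset.mp hS))).1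
    split_ifs
    · exact this
    · exact le_rfl
  · unfold ES
    rw [← Finset.sum_add_distrib]
    refine Finset.sum_nonneg fun S hS => ?_
    have := (cR_small_nonpos h.hax (sub_small hsm (Finset.mem_powerset.mp hS))).2
    split_ifs
    · exact this
    · norm_num

open Classical in
/-- four small boxes -/
theorem case_four_small (h : BT v κ x a b l T) (hsm : ∀ j ∈ T, sg v {j} ≤ a) (h4 : T.card = 4) :
    FS v x a b T = 0 ∧ ES v x a b T = 6 := by
  have hs : ∀ j ∈ T, sg v {j} ≤ x / 2 := fun j hj => (hsm j hj).trans h.hax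
  have hl := h.hl
  have hB := h.hB
  have hA := h.hA
  have hxl := h.xl
  have hlo := h.sumlo
  have hhi := h.hhi
  have hcard : ∀ S ∈ T.powerset, hiS v x b S → S.card = 2 := by
    intro S hS hi
    have hST := Finset.mem_powerset.mp hS
    have h1 := (h.hi_two hs hST hi).1
    have h2 := ((h.hi_iff hST).mp hi).2
    have h5 : (T \ S).card + S.card = T.card := Finset.card_sdiff_add_card_eq_card hST
    by_contra hc
    have h6 : (T \ S).card ≤ 1 := by omega
    rcases Nat.le_one_iff_eq_zero_or_eq_one.mp h6 with h0 | h0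
    · rw [Finset.card_eq_zero.mp h0, sg_empty] at h2
      linarith [h.ha0]
    · obtain ⟨j, hj⟩ := Finset.card_eq_one.mp h0
      have hjT : j ∈ T := Finset.sdiff_subset (hj ▸ Finset.mem_singleton_self j : j ∈ T \ S)
      rw [hj] at h2
      linarith [hsm j hjT]
  constructor
  · rw [FS_eq, lw_even (Finset.card_pos.mp (by omega)) (by rw [h4]; decide) h.hfl,
      Finset.sum_eq_zero, zero_add]
    intro S hS
    by_cases hi : hiS v x b S
    · rw [if_pos hi, cR_small h.hax (sub_small hsm (Finset.mem_powerset.mp hS)), hcard S hS hi]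
      norm_num
    · rw [if_neg hi]
  · unfold ES
    rw [← Finset.sum_filter]
    have h1 : ∀ S ∈ T.powerset.filter (fun S => hiS v x b S), cE v x a S = 2 := by
      intro S hS
      have hS' := Finset.mem_filter.mp hS
      rw [cE_small (sub_small hsm (Finset.mem_powerset.mp hS'.1)), hcard S hS'.1 hS'.2]
      norm_num
    rw [Finset.sum_congr rfl h1, Finset.sum_const, nsmul_eq_mul]
    have hpair : ∀ L ∈ T.powersetCard 2, sg v L ≤ 2 * a := by
      intro L hL
      have hL' := Finset.mem_powersetCard.mp hL
      obtain ⟨i, j, hij, rfl⟩ := Finset.card_eq_two.mp hL'.2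
      have e1 : sg v ({i, j} : Finset ℕ) = sg v {i} + sg v {j} := by
        unfold sg
        rw [Finset.sum_pair hij, Finset.sum_singleton, Finset.sum_singleton]
      have := hsm i (hL'.1 (by simp))
      have := hsm j (hL'.1 (by simp))
      linarith
    have hcl : ∀ S ∈ T.powersetCard 2, T \ S ∈ T.powersetCard 2 := by
      intro S hS
      have hS' := Finset.mem_powersetCard.mp hS
      have h5 : (T \ S).card + S.card = T.card := Finset.card_sdiff_add_card_eq_card hS'.1
      exact Finset.mem_powersetCard.mpr ⟨Finset.sdiff_subset, by omega⟩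
    have h2 : T.powerset.filter (fun S => hiS v x b S) =
        (T.powersetCard 2).filter (fun S => ¬ sg v S ≤ x / 2) := by
      ext S
      rw [Finset.mem_filter, Finset.mem_filter]
      constructor
      · rintro ⟨hS, hi⟩
        exact ⟨Finset.mem_powersetCard.mpr ⟨Finset.mem_powerset.mp hS, hcard S hS hi⟩,
          not_le.mpr hi.1⟩
      · rintro ⟨hS, hi⟩
        have hS' := Finset.mem_powersetCard.mp hS
        refine ⟨Finset.mem_powerset.mpr hS'.1, ?_⟩
        rw [h.hi_iff hS'.1, sg_compl v hS'.1]
        exact ⟨not_le.mp hi, by linarith [hpair S hS]⟩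
    have h3 := half_cardZ T (T.powersetCard 2) (fun S hS => (Finset.mem_powersetCard.mp hS).1) hcl
      (fun S => ¬ sg v S ≤ x / 2) (fun S hS => by
        have := h.hfl S (Finset.mem_powersetCard.mp hS).1
        tauto)
    have h6 : (T.powersetCard 2).card = 6 := by
      rw [Finset.card_powersetCard, h4]
      decide
    rw [h6] at h3
    rw [h2]
    have h7 : ((T.powersetCard 2).filter (fun S => ¬ sg v S ≤ x / 2)).card = 3 := by omega
    rw [h7]
    norm_num

open Classical in
/-- sums over the powerset of a three element set -/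
theorem sum_pow_three {U : Finset ℕ} (hU : U.card = 3) (f : Finset ℕ → ℝ) :
    ∑ S ∈ U.powerset, f S = f ∅ + ∑ t ∈ U, f {t} + ∑ S ∈ U.powersetCard 2, f S + f U := by
  rw [Finset.sum_powerset, hU, Finset.sum_range_succ, Finset.sum_range_succ,
    Finset.sum_range_succ, Finset.sum_range_succ, Finset.sum_range_zero]
  have e0 : U.powersetCard 0 = {∅} := Finset.powersetCard_zero U
  have e1 : ∑ S ∈ U.powersetCard 1, f S = ∑ t ∈ U, f {t} := by
    rw [Finset.powersetCard_one, Finset.sum_map]
    rfl
  have e3 : U.powersetCard 3 = {U} := by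
    rw [← hU]
    exact Finset.powersetCard_self U
  rw [e0, e1, e3, Finset.sum_singleton, Finset.sum_singleton]
  ring

open Classical in
/-- one medium and three small boxes -/
theorem case_four_med (h : BT v κ x a b l T) (hs : ∀ j ∈ T, sg v {j} ≤ x / 2) (h4 : T.card = 4)
    {q : ℕ} (hq : q ∈ T) (hqa : a < sg v {q}) :
    FS v x a b T = 0 ∧ ES v x a b T ≤ 2 := by
  set U := T.erase q with hU
  have hUT : U ⊆ T := Finset.erase_subset _ _
  have hqU : q ∉ U := Finset.notMem_erase q T
  have hTU : T = insert q U := (Finset.insert_erase hq).symm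
  have hU3 : U.card = 3 := by
    rw [hU, Finset.card_erase_of_mem hq, h4]
  have hsm : ∀ p ∈ U, sg v {p} ≤ a := by
    intro p hp
    by_contra hc
    have := h.two_med hq (hUT hp) (fun he => hqU (he ▸ hp)) hqa (not_le.mp hc)
    omega
  have hcomp : T \ U = {q} := Finset.sdiff_erase_self hq
  have hqx : sg v {q} < x / 2 - 6 * l := by
    rcases h.fl (S := {q}) (by simpa using hq) with h1 | h1
    · exact h1
    · linarith [hs q hq, h.hl]
  have hUhi : hiS v x b U := by
    rw [h.hi_iff hUT, hcomp]
    refine ⟨?_, hqa⟩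
    rw [hU, sg_erase v hq]
    linarith [h.sumlo]
  -- subsets of `U` which are high
  have hsub : ∀ S ∈ U.powerset, S ≠ U → hiS v x b S → S.card = 2 := by
    intro S hS hne hi
    have hSU := Finset.mem_powerset.mp hS
    have h1 := (h.hi_two hs (hSU.trans hUT) hi).1
    have h2 := Finset.card_lt_card (Finset.ssubset_iff_subset_ne.mpr ⟨hSU, hne⟩)
    omega
  have hnb : ∀ H ⊆ T, ¬ ∃ p ∈ H, x / 2 < sg v {p} := by
    rintro H hH ⟨p, hp, h1⟩
    linarith [hs p (hH hp)]
  have hins : ∀ S ∈ U.powerset, insert q S ⊆ T := by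
    intro S hS
    rw [hTU]
    exact Finset.insert_subset_insert q (Finset.mem_powerset.mp hS)
  have hinsc : ∀ S ∈ U.powerset, T \ insert q S = U \ S := by
    intro S hS
    rw [hTU, Finset.insert_sdiff_insert]
    ext j
    simp only [Finset.mem_sdiff, Finset.mem_insert, not_or]
    constructor
    · rintro ⟨h1, _, h2⟩
      exact ⟨h1, h2⟩
    · rintro ⟨h1, h2⟩
      exact ⟨h1, fun he => hqU (he ▸ h1), h2⟩
  have hF1 : ∑ S ∈ U.powerset, (if hiS v x b S then cR v x a S else 0) = -nlS v x a U := by
    rw [Finset.sum_eq_single U]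
    · rw [if_pos hUhi, cR_small h.hax hsm, if_pos hU3]
    · intro S hS hne
      by_cases hi : hiS v x b S
      · rw [if_pos hi, cR_small h.hax (sub_small hsm (Finset.mem_powerset.mp hS)),
          hsub S hS hne hi]
        norm_num
      · rw [if_neg hi]
    · intro hc
      exact absurd (Finset.mem_powerset_self U) hc
  have hq2 : ∀ t ∈ U, (hiS v x b (insert q {t}) ↔
      a < sg v (U.erase t) ∧ sg v (U.erase t) ≤ x / 2) := by
    intro t ht
    have hps : ({t} : Finset ℕ) ∈ U.powerset := by
      rw [Finset.mem_powerset, Finset.singleton_subset_iff]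
      exact ht
    rw [h.hi_iff (hins _ hps), hinsc _ hps, ← Finset.erase_eq]
    have h1 := h.hfl _ (hins _ hps)
    rw [hinsc _ hps, ← Finset.erase_eq] at h1
    constructor
    · rintro ⟨h2, h3⟩
      refine ⟨h3, ?_⟩
      by_contra hc
      linarith [h1.mpr hc]
    · rintro ⟨h2, h3⟩
      refine ⟨?_, h2⟩
      by_contra hc
      exact (h1.mp (not_lt.mp hc)) h3
  have hF2 : ∑ S ∈ U.powerset, (if hiS v x b (insert q S) then cR v x a (insert q S) else 0) =
      nlS v x a U := by
    rw [sum_pow_three hU3]
    have t0 : (if hiS v x b (insert q ∅) then cR v x a (insert q ∅) else 0) = 0 := by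
      rw [if_neg]
      intro hi
      have h1 := (h.hi_two hs (by simpa using hq) hi).1
      simp at h1
    have t3 : (if hiS v x b (insert q U) then cR v x a (insert q U) else 0) = 0 := by
      rw [if_neg]
      rw [← hTU]
      intro hi
      have h1 := (h.hi_two hs (Finset.Subset.refl T) hi).2
      simp at h1
    have t2 : ∑ S ∈ U.powersetCard 2, (if hiS v x b (insert q S) then cR v x a (insert q S)
        else 0) = 0 := by
      refine Finset.sum_eq_zero fun S hS => ?_
      have hS' := Finset.mem_powersetCard.mp hS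
      have hps := Finset.mem_powerset.mpr hS'.1
      rw [if_neg]
      intro hi
      have h2 := ((h.hi_iff (hins S hps)).mp hi).2
      rw [hinsc S hps] at h2
      have h5 : (U \ S).card + S.card = U.card := Finset.card_sdiff_add_card_eq_card hS'.1
      obtain ⟨j, hj⟩ := Finset.card_eq_one.mp (by omega : (U \ S).card = 1)
      have hjU : j ∈ U := Finset.sdiff_subset (hj ▸ Finset.mem_singleton_self j : j ∈ U \ S)
      rw [hj] at h2
      linarith [hsm j hjU]
    have t1 : ∑ t ∈ U, (if hiS v x b (insert q {t}) then cR v x a (insert q {t}) else 0) =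
        nlS v x a U := by
      unfold nlS
      rw [Finset.card_filter]
      push_cast
      refine Finset.sum_congr rfl fun t ht => ?_
      by_cases hi : hiS v x b (insert q {t})
      · rw [if_pos hi, if_pos ((hq2 t ht).mp hi)]
        unfold cR
        have hps : ({t} : Finset ℕ) ∈ U.powerset := by
          rw [Finset.mem_powerset, Finset.singleton_subset_iff]
          exact ht
        rw [if_neg (hnb _ (hins _ hps)), if_pos ⟨q, Finset.mem_insert_self _ _, hqa⟩]
        have : (insert q {t} : Finset ℕ).card = 2 := by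
          rw [Finset.card_insert_of_notMem, Finset.card_singleton]
          rw [Finset.mem_singleton]
          exact fun he => hqU (he ▸ ht)
        rw [this]
        norm_num
      · rw [if_neg hi, if_neg (fun h' => hi ((hq2 t ht).mpr h'))]
    rw [t0, t1, t2, t3]
    ring
  constructor
  · rw [FS_eq, lw_even (Finset.card_pos.mp (by omega)) (by rw [h4]; decide) h.hfl, zero_add]
    nth_rewrite 1 [hTU]
    rw [Finset.sum_powerset_insert hqU, hF1, hF2]
    ring
  · unfold ES
    nth_rewrite 1 [hTU]
    rw [Finset.sum_powerset_insert hqU]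
    have e2 : ∑ S ∈ U.powerset, (if hiS v x b (insert q S) then cE v x a (insert q S) else 0)
        = 0 := by
      refine Finset.sum_eq_zero fun S _ => ?_
      have : cE v x a (insert q S) = 0 := by
        unfold cE
        rw [if_pos ⟨q, Finset.mem_insert_self _ _, hqa⟩]
      rw [this, ite_self]
    have hqb : b - 1 / 2 < sg v {q} := by
      rcases h.dich (S := {q}) (by simpa using hq) with h1 | h1
      · linarith
      · exact h1
    have hUs : sg v U = sg v T - sg v {q} := by rw [hU, sg_erase v hq]
    have e1 : ∑ S ∈ U.powerset, (if hiS v x b S then cE v x a S else 0) ≤ 2 := by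
      rw [sum_pow_three hU3]
      have t0 : (if hiS v x b ∅ then cE v x a ∅ else 0) = 0 := by
        rw [if_neg]
        intro hi
        have h1 := (h.hi_two hs (by simp) hi).1
        simp at h1
      have t1 : ∑ t ∈ U, (if hiS v x b {t} then cE v x a {t} else 0) = 0 := by
        refine Finset.sum_eq_zero fun t ht => ?_
        rw [if_neg]
        intro hi
        have h1 := (h.hi_two hs (by simpa using hUT ht) hi).1
        simp at h1
      have t2 : ∑ S ∈ U.powersetCard 2, (if hiS v x b S then cE v x a S else 0) = 0 := by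
        refine Finset.sum_eq_zero fun S hS => ?_
        have hS' := Finset.mem_powersetCard.mp hS
        rw [if_neg]
        intro hi
        have h1 := sg_compl v hS'.1
        have h2 := h.sg_ge (S := U \ S) (Finset.sdiff_subset.trans hUT)
        have h5 : (U \ S).card + S.card = U.card := Finset.card_sdiff_add_card_eq_card hS'.1
        have h6 : (U \ S).card = 1 := by omega
        rw [h6] at h2
        push_cast at h2
        linarith [hi.1, h.hl, h.hB, h.hhi]
      have t3 : (if hiS v x b U then cE v x a U else 0) ≤ 2 := by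
        rw [if_pos hUhi, cE_small hsm, if_neg (by omega), if_pos hU3]
        by_contra hc
        have h1 : (U.filter (fun p => a < sg v (U.erase p) ∧ sg v (U.erase p) ≤ x / 2)).card = 3 := by
          have h2 := Finset.card_filter_le U
            (fun p => a < sg v (U.erase p) ∧ sg v (U.erase p) ≤ x / 2)
          have h3 : ¬ (U.filter
              (fun p => a < sg v (U.erase p) ∧ sg v (U.erase p) ≤ x / 2)).card ≤ 2 := by
            intro h3
            apply hc
            unfold nlS
            exact_mod_cast h3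
          omega
        have h2 : ∀ p ∈ U, a < sg v (U.erase p) := by
          intro p hp
          have h3 : U.filter (fun p => a < sg v (U.erase p) ∧ sg v (U.erase p) ≤ x / 2) = U :=
            Finset.eq_of_subset_of_card_le (Finset.filter_subset _ _) (by omega)
          rw [← h3] at hp
          exact (Finset.mem_filter.mp hp).2.1
        have h3 : ∀ p ∈ U, b - 1 / 2 < sg v U - v p := by
          intro p hp
          have h4 := h2 p hp
          rcases h.dich ((Finset.erase_subset p U).trans hUT) with h5 | h5
          · linarith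
          · rw [sg_erase v hp, sg_single] at h5
            exact h5
        have h6 : (3 : ℝ) * (b - 1 / 2) ≤ 3 * sg v U - sg v U := by
          have h7 : ∑ p ∈ U, (b - 1 / 2) ≤ ∑ p ∈ U, (sg v U - v p) :=
            Finset.sum_le_sum fun p hp => (h3 p hp).le
          rw [Finset.sum_const, Finset.sum_sub_distrib, Finset.sum_const, hU3, nsmul_eq_mul,
            nsmul_eq_mul] at h7
          have h8 : ∑ p ∈ U, v p = sg v U := rfl
          rw [h8] at h7
          push_cast at h7
          exact h7
        linarith [h.hl, h.hB, h.hhi]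
      linarith
    linarith

end BT

end Pool.MP_dd84fd_nt.IY
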