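import Pool.Agent.Lib.MP_dd84fd_nt.IY.BCz2

/-!
# Theorem I, part B: Lemma CL with better coefficients, five to seven boxes and the final form (helper88)
-/

set_option autoImplicit false

namespace Pool.MP_dd84fd_nt.IY

open Finset

namespace BT

variable {v : ℕ → ℝ} {κ x a b l : ℝ} {T : Finset ℕ}

/-- complement of a set which is not small is not larger than the rest -/
theorem compl_gt (h : BT v κ x a b l T) {S : Finset ℕ} (hS : S ⊆ T) (hSa : sg v S ≤ a) :
    x / 2 < sg v (T \ S) ∧ ¬ hiS v x b (T \ S) := by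
  have h1 := sg_compl v hS
  refine ⟨by linarith [h.sumlo, h.hA, h.hl, h.xl], fun hi => ?_⟩
  have h2 := ((h.hi_iff Finset.sdiff_subset).mp hi).2
  rw [Finset.sdiff_sdiff_eq_self hS] at h2
  linarith

open Classical in
/-- one medium and four small boxes -/
theorem case_five_med (h : BT v κ x a b l T) (hs : ∀ j ∈ T, sg v {j} ≤ x / 2) (h5 : T.card = 5)
    {q : ℕ} (hq : q ∈ T) (hqa : a < sg v {q}) :
    FS v x a b T = 0 ∧ ES v x a b T = 3 := by
  set U := T.erase q with hU
  have hUT : U ⊆ T := Finset.erase_subset _ _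
  have hqU : q ∉ U := Finset.notMem_erase q T
  have hTU : T = insert q U := (Finset.insert_erase hq).symm
  have hU4 : U.card = 4 := by
    rw [hU, Finset.card_erase_of_mem hq, h5]
  have hsm : ∀ p ∈ U, sg v {p} ≤ a := by
    intro p hp
    by_contra hc
    have := h.two_med hq (hUT hp) (fun he => hqU (he ▸ hp)) hqa (not_le.mp hc)
    omega
  have hl := h.hl
  have hB := h.hB
  have hA := h.hA
  have hxl := h.xl
  have hlo := h.sumlo
  have hhi := h.hhi
  have hqb : b - 1 / 2 < sg v {q} := by
    rcases h.dich (S := {q}) (by simpa using hq) with h1 | h1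
    · linarith
    · exact h1
  have hqx : sg v {q} < x / 2 - 6 * l := by
    rcases h.fl (S := {q}) (by simpa using hq) with h1 | h1
    · exact h1
    · linarith [hs q hq, h.hl]
  have hUs : sg v U = sg v T - sg v {q} := by rw [hU, sg_erase v hq]
  have hcomp : T \ U = {q} := Finset.sdiff_erase_self hq
  -- triples and pairs of `U`
  have h3 : ∀ S ⊆ U, S.card = 3 → sg v S ≤ x / 2 := by
    intro S hS hc
    have h1 := sg_compl v hS
    have h2 := h.sg_ge (S := U \ S) (Finset.sdiff_subset.trans hUT)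
    have h4 : (U \ S).card + S.card = U.card := Finset.card_sdiff_add_card_eq_card hS
    have h6 : (U \ S).card = 1 := by omega
    rw [h6] at h2
    push_cast at h2
    linarith
  have h3' : ∀ S ⊆ U, S.card = 3 → b - 1 / 2 < sg v S := fun S hS hc =>
    h.three (hS.trans hUT) (by omega)
  have h1' : ∀ p ∈ U, sg v {p} < x - 2 * b + 1 := by
    intro p hp
    have h1 := h3' (U.erase p) (Finset.erase_subset _ _) (by
      rw [Finset.card_erase_of_mem hp, hU4])
    rw [sg_erase v hp] at h1
    linarith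
  have h2' : ∀ S ⊆ U, S.card = 2 → sg v S ≤ a := by
    intro S hS hc
    rcases h.dich (hS.trans hUT) with h1 | h1
    · exact h1
    · exfalso
      obtain ⟨i, j, hij, rfl⟩ := Finset.card_eq_two.mp hc
      have e1 : sg v ({i, j} : Finset ℕ) = sg v {i} + sg v {j} := by
        unfold sg
        rw [Finset.sum_pair hij, Finset.sum_singleton, Finset.sum_singleton]
      have := h1' i (hS (by simp))
      have := h1' j (hS (by simp))
      linarith
  have hnb : ∀ H ⊆ T, ¬ ∃ p ∈ H, x / 2 < sg v {p} := by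
    rintro H hH ⟨p, hp, h1⟩
    linarith [hs p (hH hp)]
  have hins : ∀ S ∈ U.powerset, insert q S ⊆ T := by
    intro S hS
    rw [hTU]
    exact Finset.insert_subset_insert q (Finset.mem_powerset.mp hS)
  have hinsc : ∀ S ∈ U.powerset, T \ insert q S = U \ S := by
    intro S hS
    rw [hTU, Finset.insert_sdiff_insert]
    ext j
    simp only [Finset.mem_sdiff, Finset.mem_insert, not_or]
    constructor
    · rintro ⟨h1, _, h2⟩
      exact ⟨h1, h2⟩
    · rintro ⟨h1, h2⟩
      exact ⟨h1, fun he => hqU (he ▸ h1), h2⟩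
  have hle : ∀ S ∈ U.powerset, S.card ≤ 4 := by
    intro S hS
    rw [← hU4]
    exact Finset.card_le_card (Finset.mem_powerset.mp hS)
  -- values on the subsets of `U`
  have hnot : ∀ S ∈ U.powerset, S.card ≤ 3 → sg v S ≤ x / 2 := by
    intro S hS hc
    have hSU := Finset.mem_powerset.mp hS
    rcases (by omega : S.card = 0 ∨ S.card = 1 ∨ S.card = 2 ∨ S.card = 3) with h0 | h0 | h0 | h0
    · rw [Finset.card_eq_zero.mp h0, sg_empty]
      linarith
    · obtain ⟨j, rfl⟩ := Finset.card_eq_one.mp h0
      exact hs j (hUT (hSU (Finset.mem_singleton_self j)))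
    · linarith [h2' S hSU h0]
    · exact h3 S hSU h0
  have hUhi : hiS v x b U := by
    rw [h.hi_iff hUT, hcomp]
    exact ⟨by linarith, hqa⟩
  have f1 : ∀ S ∈ U.powerset, (if sg v S ≤ x / 2 then (-1 : ℝ) ^ S.card else 0) +
      (if hiS v x b S then cR v x a S else 0) =
      (fun m => if m = 4 then -2 else (-1 : ℝ) ^ m) S.card := by
    intro S hS
    simp only
    by_cases hc : S.card = 4
    · have hSU : S = U := Finset.eq_of_subset_of_card_le (Finset.mem_powerset.mp hS) (by omega)
      rw [if_pos hc, hSU, if_pos hUhi, if_neg (by linarith [hUhi.1]), cR_small h.hax hsm, hU4]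
      norm_num
    · have h1 := hnot S hS (by have := hle S hS; omega)
      rw [if_neg hc, if_pos h1, if_neg (fun hi => by linarith [hi.1]), add_zero]
  have f2 : ∀ S ∈ U.powerset, (if sg v (insert q S) ≤ x / 2 then (-1 : ℝ) ^ (insert q S).card
      else 0) + (if hiS v x b (insert q S) then cR v x a (insert q S) else 0) =
      (fun m => if m = 0 then -1 else if m = 1 then (1 : ℝ) else 0) S.card := by
    intro S hS
    simp only
    have hSU := Finset.mem_powerset.mp hS
    have hqS : q ∉ S := fun hc => hqU (hSU hc)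
    have hic : (insert q S).card = S.card + 1 := Finset.card_insert_of_notMem hqS
    have h4 : (U \ S).card + S.card = U.card := Finset.card_sdiff_add_card_eq_card hSU
    rcases (by omega : S.card = 0 ∨ S.card = 1 ∨ 2 ≤ S.card) with h0 | h0 | h0
    · have hS0 : S = ∅ := Finset.card_eq_zero.mp h0
      subst hS0
      have e1 : insert q (∅ : Finset ℕ) = {q} := by simp
      rw [e1, if_pos (hs q hq), if_neg (fun hi => by linarith [hi.1, hs q hq])]
      norm_num
    · have hhiq : hiS v x b (insert q S) := by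
        rw [h.hi_iff (hins S hS), hinsc S hS]
        have h6 := h3' (U \ S) Finset.sdiff_subset (by omega)
        have h7 := h3 (U \ S) Finset.sdiff_subset (by omega)
        refine ⟨?_, by linarith⟩
        by_contra hc
        have h8 := h.hfl _ (hins S hS)
        rw [hinsc S hS] at h8
        exact (h8.mp (not_lt.mp hc)) h7
      rw [if_neg (by linarith [hhiq.1]), if_pos hhiq]
      unfold cR
      rw [if_neg (hnb _ (hins S hS)), if_pos ⟨q, Finset.mem_insert_self _ _, hqa⟩, hic, h0]
      norm_num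
    · have h6 : sg v (U \ S) ≤ a := by
        rcases (by omega : (U \ S).card = 2 ∨ (U \ S).card = 1 ∨ (U \ S).card = 0)
          with h7 | h7 | h7
        · exact h2' _ Finset.sdiff_subset h7
        · obtain ⟨j, hj⟩ := Finset.card_eq_one.mp h7
          have hjU : j ∈ U := Finset.sdiff_subset (hj ▸ Finset.mem_singleton_self j : j ∈ U \ S)
          rw [hj]
          exact hsm j hjU
        · rw [Finset.card_eq_zero.mp h7, sg_empty]
          exact h.ha0
      rw [← hinsc S hS] at h6
      have h7 := h.compl_gt Finset.sdiff_subset h6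
      rw [Finset.sdiff_sdiff_eq_self (hins S hS)] at h7
      rw [if_neg (by linarith [h7.1]), if_neg h7.2, if_neg (by omega), if_neg (by omega)]
      norm_num
  constructor
  · unfold FS
    nth_rewrite 1 [hTU]
    rw [Finset.sum_powerset_insert hqU, Finset.sum_congr rfl f1, Finset.sum_congr rfl f2,
      Finset.sum_powerset_apply_card (fun m => if m = 4 then -2 else (-1 : ℝ) ^ m),
      Finset.sum_powerset_apply_card (fun m => if m = 0 then -1 else if m = 1 then (1 : ℝ) else 0),
      hU4]
    simp only [Finset.sum_range_succ, Finset.sum_range_zero, nsmul_eq_mul]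
    norm_num [Nat.choose]
  · unfold ES
    nth_rewrite 1 [hTU]
    rw [Finset.sum_powerset_insert hqU]
    have e2 : ∑ S ∈ U.powerset, (if hiS v x b (insert q S) then cE v x a (insert q S) else 0)
        = 0 := by
      refine Finset.sum_eq_zero fun S _ => ?_
      have : cE v x a (insert q S) = 0 := by
        unfold cE
        rw [if_pos ⟨q, Finset.mem_insert_self _ _, hqa⟩]
      rw [this, ite_self]
    rw [e2, add_zero, Finset.sum_eq_single U]
    · rw [if_pos hUhi, cE_small hsm, hU4]
      norm_num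
    · intro S hS hne
      rw [if_neg]
      intro hi
      have h6 := Finset.card_lt_card (Finset.ssubset_iff_subset_ne.mpr
        ⟨Finset.mem_powerset.mp hS, hne⟩)
      linarith [hi.1, hnot S hS (by omega)]
    · intro hc
      exact absurd (Finset.mem_powerset_self U) hc

open Classical in
/-- six boxes -/
theorem case_six (h : BT v κ x a b l T) (h6 : T.card = 6) :
    FS v x a b T ≤ 0 ∧ 0 ≤ FS v x a b T + ES v x a b T ∧ -60 ≤ FS v x a b T ∧
      FS v x a b T + ES v x a b T ≤ 15 := by
  have hsm : ∀ j ∈ T, sg v {j} ≤ a := by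
    intro j hj
    by_contra hc
    have := h.one_med hj (not_le.mp hc)
    omega
  have hs : ∀ j ∈ T, sg v {j} ≤ x / 2 := fun j hj => (hsm j hj).trans h.hax
  have hl := h.hl
  have hB := h.hB
  have hA := h.hA
  have hxl := h.xl
  have hlo := h.sumlo
  have hhi := h.hhi
  have hax := h.hax
  have hcs : ∀ S ⊆ T, (T \ S).card + S.card = 6 := by
    intro S hS
    rw [← h6]
    exact Finset.card_sdiff_add_card_eq_card hS
  -- high sets have three or four elements
  have hcard : ∀ S ⊆ T, hiS v x b S → S.card = 3 ∨ S.card = 4 := by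
    intro S hS hi
    have h1 := hcs S hS
    have h2 := (h.hi_two hs hS hi).1
    have h3 := ((h.hi_iff hS).mp hi).2
    have h5 : S.card ≠ 2 := by
      intro hc
      have h4 := h.many (S := T \ S) Finset.sdiff_subset (k := 1) (by omega)
      push_cast at h4
      rw [sg_compl v hS] at h4
      linarith [hi.1]
    have h7 : ¬ (T \ S).card ≤ 1 := by
      intro hc
      rcases Nat.le_one_iff_eq_zero_or_eq_one.mp hc with h0 | h0
      · rw [Finset.card_eq_zero.mp h0, sg_empty] at h3
        linarith [h.ha0]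
      · obtain ⟨j, hj⟩ := Finset.card_eq_one.mp h0
        have hjT : j ∈ T := Finset.sdiff_subset (hj ▸ Finset.mem_singleton_self j : j ∈ T \ S)
        rw [hj] at h3
        linarith [hsm j hjT]
    omega
  have h1 := h.small_sum_sign hsm
  have e1 : FS v x a b T = ∑ S ∈ T.powerset, (if hiS v x b S then cR v x a S else 0) := by
    rw [FS_eq, lw_even (Finset.card_pos.mp (by omega)) (by rw [h6]; decide) h.hfl, zero_add]
  have hcl : ∀ S ∈ T.powersetCard 3, T \ S ∈ T.powersetCard 3 := by
    intro S hS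
    have hS' := Finset.mem_powersetCard.mp hS
    have := hcs S hS'.1
    exact Finset.mem_powersetCard.mpr ⟨Finset.sdiff_subset, by omega⟩
  have hhalf := half_cardZ T (T.powersetCard 3) (fun S hS => (Finset.mem_powersetCard.mp hS).1) hcl
      (fun S => ¬ sg v S ≤ x / 2) (fun S hS => by
        have := h.hfl S (Finset.mem_powersetCard.mp hS).1
        tauto)
  have c3 : (T.powersetCard 3).card = 20 := by
    rw [Finset.card_powersetCard, h6]
    decide
  have c4 : (T.powersetCard 4).card = 15 := by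
    rw [Finset.card_powersetCard, h6]
    decide
  rw [c3] at hhalf
  have c3' : ((T.powersetCard 3).filter (fun S => ¬ sg v S ≤ x / 2)).card = 10 := by omega
  set A3 := (T.powersetCard 3).filter (fun S => ¬ sg v S ≤ x / 2) with hA3
  -- the sum over high sets
  have hsplit : ∀ f : Finset ℕ → ℝ, ∑ S ∈ T.powerset, (if hiS v x b S then f S else 0) =
      ∑ S ∈ T.powersetCard 3, (if hiS v x b S then f S else 0) +
      ∑ S ∈ T.powersetCard 4, (if hiS v x b S then f S else 0) := by
    intro f
    rw [Finset.sum_powerset, h6]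
    simp only [Finset.sum_range_succ, Finset.sum_range_zero]
    have z : ∀ k, k ≠ 3 → k ≠ 4 → ∑ S ∈ T.powersetCard k, (if hiS v x b S then f S else 0) = 0 := by
      intro k hk3 hk4
      refine Finset.sum_eq_zero fun S hS => ?_
      have hS' := Finset.mem_powersetCard.mp hS
      rw [if_neg]
      intro hi
      rcases hcard S hS'.1 hi with h8 | h8 <;> omega
    rw [z 0 (by norm_num) (by norm_num), z 1 (by norm_num) (by norm_num),
      z 2 (by norm_num) (by norm_num), z 5 (by norm_num) (by norm_num),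
      z 6 (by norm_num) (by norm_num)]
    ring
  refine ⟨by rw [e1]; exact h1.1, by rw [e1]; exact h1.2, ?_, ?_⟩
  · rw [e1, hsplit]
    have s3 : -30 ≤ ∑ S ∈ T.powersetCard 3, (if hiS v x b S then cR v x a S else 0) := by
      have h8 : ∑ S ∈ T.powersetCard 3, (if ¬ sg v S ≤ x / 2 then (-3 : ℝ) else 0) ≤
          ∑ S ∈ T.powersetCard 3, (if hiS v x b S then cR v x a S else 0) := by
        refine Finset.sum_le_sum fun S hS => ?_
        have := (cR_bd v x a S).1
        by_cases hi : hiS v x b S
        · rw [if_pos hi, if_pos (not_le.mpr hi.1)]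
          exact this
        · rw [if_neg hi]
          split_ifs <;> norm_num
      rw [← Finset.sum_filter, ← hA3, Finset.sum_const, c3'] at h8
      norm_num at h8
      exact h8
    have s4 : -30 ≤ ∑ S ∈ T.powersetCard 4, (if hiS v x b S then cR v x a S else 0) := by
      have h8 : ∑ S ∈ T.powersetCard 4, (-2 : ℝ) ≤
          ∑ S ∈ T.powersetCard 4, (if hiS v x b S then cR v x a S else 0) := by
        refine Finset.sum_le_sum fun S hS => ?_
        have hS' := Finset.mem_powersetCard.mp hS
        rw [cR_small hax (sub_small hsm hS'.1), hS'.2]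
        split_ifs <;> norm_num at *
      rw [Finset.sum_const, c4] at h8
      norm_num at h8
      exact h8
    linarith
  · have e2 : FS v x a b T + ES v x a b T =
        ∑ S ∈ T.powerset, (if hiS v x b S then cR v x a S + cE v x a S else 0) := by
      rw [e1]
      unfold ES
      rw [← Finset.sum_add_distrib]
      refine Finset.sum_congr rfl fun S _ => ?_
      split_ifs <;> ring
    rw [e2, hsplit]
    have s3 : ∑ S ∈ T.powersetCard 3, (if hiS v x b S then cR v x a S + cE v x a S else 0) = 0 := by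
      refine Finset.sum_eq_zero fun S hS => ?_
      have hS' := Finset.mem_powersetCard.mp hS
      rw [cR_small hax (sub_small hsm hS'.1), cE_small (sub_small hsm hS'.1), hS'.2]
      norm_num
    have s4 : ∑ S ∈ T.powersetCard 4, (if hiS v x b S then cR v x a S + cE v x a S else 0) ≤
        15 := by
      have h8 : ∑ S ∈ T.powersetCard 4, (if hiS v x b S then cR v x a S + cE v x a S else 0) ≤
          ∑ S ∈ T.powersetCard 4, (1 : ℝ) := by
        refine Finset.sum_le_sum fun S hS => ?_
        have hS' := Finset.mem_powersetCard.mp hS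
        rw [cR_small hax (sub_small hsm hS'.1), cE_small (sub_small hsm hS'.1), hS'.2]
        split_ifs <;> norm_num at *
      rw [Finset.sum_const, c4] at h8
      norm_num at h8
      exact h8
    linarith

open Classical in
/-- seven boxes -/
theorem case_seven (h : BT v κ x a b l T) (h7 : T.card = 7) :
    FS v x a b T = -90 ∧ ES v x a b T = 105 := by
  have hsm : ∀ j ∈ T, sg v {j} ≤ a := by
    intro j hj
    by_contra hc
    have := h.one_med hj (not_le.mp hc)
    omega
  have hl := h.hl
  have hB := h.hB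
  have hA := h.hA
  have hxl := h.xl
  have hlo := h.sumlo
  have hhi := h.hhi
  have h2' : ∀ S ⊆ T, S.card ≤ 2 → sg v S ≤ a := by
    intro S hS hc
    rcases h.dich hS with h1 | h1
    · exact h1
    · exfalso
      have h2 := sg_compl v hS
      have h4 : (T \ S).card + S.card = T.card := Finset.card_sdiff_add_card_eq_card hS
      have h3 := h.many (S := T \ S) Finset.sdiff_subset (k := 2) (by omega)
      push_cast at h3
      linarith
  have h4' : ∀ S ⊆ T, 4 ≤ S.card → x / 2 < sg v S := by
    intro S hS hc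
    have h3 := h.many hS (k := 1) (by omega)
    push_cast at h3
    linarith
  have h3' : ∀ S ⊆ T, S.card ≤ 3 → sg v S ≤ x / 2 := by
    intro S hS hc
    have h4 : (T \ S).card + S.card = T.card := Finset.card_sdiff_add_card_eq_card hS
    have h3 := h4' (T \ S) Finset.sdiff_subset (by omega)
    rw [sg_compl v hS] at h3
    linarith
  have hhi4 : ∀ S ⊆ T, (hiS v x b S ↔ S.card = 4) := by
    intro S hS
    have h4 : (T \ S).card + S.card = T.card := Finset.card_sdiff_add_card_eq_card hS
    rw [h.hi_iff hS]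
    constructor
    · rintro ⟨h1, h2⟩
      have h3 : 4 ≤ S.card := by
        by_contra hc
        linarith [h3' S hS (by omega)]
      by_contra hc
      have := h2' (T \ S) Finset.sdiff_subset (by omega)
      linarith
    · intro hc
      refine ⟨h4' S hS (by omega), ?_⟩
      have := h.three (S := T \ S) Finset.sdiff_subset (by omega)
      linarith
  constructor
  · unfold FS
    have f1 : ∀ S ∈ T.powerset, (if sg v S ≤ x / 2 then (-1 : ℝ) ^ S.card else 0) +
        (if hiS v x b S then cR v x a S else 0) =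
        (fun m => if m = 4 then -2 else if m ≤ 3 then (-1 : ℝ) ^ m else 0) S.card := by
      intro S hS
      have hST := Finset.mem_powerset.mp hS
      simp only
      by_cases hc : S.card = 4
      · have h1 := (hhi4 S hST).mpr hc
        rw [if_pos h1, if_neg (by linarith [h1.1]), cR_small h.hax (sub_small hsm hST), hc]
        norm_num
      · rw [if_neg (fun hi => hc ((hhi4 S hST).mp hi)), if_neg hc, add_zero]
        by_cases hc3 : S.card ≤ 3
        · rw [if_pos hc3, if_pos (h3' S hST hc3)]
        · rw [if_neg hc3, if_neg (by linarith [h4' S hST (by omega)])]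
    rw [Finset.sum_congr rfl f1, Finset.sum_powerset_apply_card
      (fun m => if m = 4 then -2 else if m ≤ 3 then (-1 : ℝ) ^ m else 0), h7]
    simp only [Finset.sum_range_succ, Finset.sum_range_zero, nsmul_eq_mul]
    norm_num [Nat.choose]
  · unfold ES
    have f1 : ∀ S ∈ T.powerset, (if hiS v x b S then cE v x a S else 0) =
        (fun m => if m = 4 then (3 : ℝ) else 0) S.card := by
      intro S hS
      have hST := Finset.mem_powerset.mp hS
      simp only
      by_cases hc : S.card = 4
      · rw [if_pos ((hhi4 S hST).mpr hc), cE_small (sub_small hsm hST), hc]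
        norm_num
      · rw [if_neg (fun hi => hc ((hhi4 S hST).mp hi)), if_neg hc]
    rw [Finset.sum_congr rfl f1, Finset.sum_powerset_apply_card
      (fun m => if m = 4 then (3 : ℝ) else 0), h7]
    simp only [Finset.sum_range_succ, Finset.sum_range_zero, nsmul_eq_mul]
    norm_num [Nat.choose]

/-- five elements in decreasing order -/
theorem sort_five {T : Finset ℕ} (v : ℕ → ℝ) (h5 : T.card = 5) : ∃ p1 p2 p3 p4 p5 : ℕ,
    T = {p1, p2, p3, p4, p5} ∧ p1 ≠ p2 ∧ p1 ≠ p3 ∧ p1 ≠ p4 ∧ p1 ≠ p5 ∧ p2 ≠ p3 ∧ p2 ≠ p4 ∧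
    p2 ≠ p5 ∧ p3 ≠ p4 ∧ p3 ≠ p5 ∧ p4 ≠ p5 ∧ v p2 ≤ v p1 ∧ v p3 ≤ v p2 ∧ v p4 ≤ v p3 ∧
    v p5 ≤ v p4 := by
  obtain ⟨p1, h1, m1⟩ := Finset.exists_max_image T v (Finset.card_pos.mp (by omega))
  have c1 : (T.erase p1).card = 4 := by rw [Finset.card_erase_of_mem h1, h5]
  obtain ⟨p2, h2, m2⟩ := Finset.exists_max_image (T.erase p1) v (Finset.card_pos.mp (by omega))
  have c2 : ((T.erase p1).erase p2).card = 3 := by rw [Finset.card_erase_of_mem h2, c1]
  obtain ⟨p3, h3, m3⟩ := Finset.exists_max_image ((T.erase p1).erase p2) v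
    (Finset.card_pos.mp (by omega))
  have c3 : (((T.erase p1).erase p2).erase p3).card = 2 := by
    rw [Finset.card_erase_of_mem h3, c2]
  obtain ⟨p4, h4, m4⟩ := Finset.exists_max_image (((T.erase p1).erase p2).erase p3) v
    (Finset.card_pos.mp (by omega))
  have c4 : ((((T.erase p1).erase p2).erase p3).erase p4).card = 1 := by
    rw [Finset.card_erase_of_mem h4, c3]
  obtain ⟨p5, h6⟩ := Finset.card_eq_one.mp c4
  have h7 : p5 ∈ (((T.erase p1).erase p2).erase p3).erase p4 := by rw [h6]; simp
  have e2 := Finset.mem_erase.mp h2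
  have e3 := Finset.mem_erase.mp h3
  have e3' := Finset.mem_erase.mp e3.2
  have e4 := Finset.mem_erase.mp h4
  have e4' := Finset.mem_erase.mp e4.2
  have e4'' := Finset.mem_erase.mp e4'.2
  have e5 := Finset.mem_erase.mp h7
  have e5' := Finset.mem_erase.mp e5.2
  have e5'' := Finset.mem_erase.mp e5'.2
  have e5''' := Finset.mem_erase.mp e5''.2
  refine ⟨p1, p2, p3, p4, p5, ?_, e2.1.symm, e3'.1.symm, e4''.1.symm, e5'''.1.symm, e3.1.symm,
    e4'.1.symm, e5''.1.symm, e4.1.symm, e5'.1.symm, e5.1.symm, m1 p2 e2.2, m2 p3 e3.2,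
    m3 p4 e4.2, m4 p5 e5.2⟩
  rw [← Finset.insert_erase h1, ← Finset.insert_erase h2, ← Finset.insert_erase h3,
    ← Finset.insert_erase h4, h6]

open Classical in
theorem nl_two {H : Finset ℕ} {p q : ℕ} (hpq : p ≠ q) (hp : p ∈ H) (hq : q ∈ H)
    (h1 : a < sg v (H.erase p) ∧ sg v (H.erase p) ≤ x / 2)
    (h2 : a < sg v (H.erase q) ∧ sg v (H.erase q) ≤ x / 2) : 2 ≤ nlS v x a H := by
  unfold nlS
  have h3 : 2 ≤ (H.filter (fun p => a < sg v (H.erase p) ∧ sg v (H.erase p) ≤ x / 2)).card := by
    rw [← Finset.card_pair hpq]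
    refine Finset.card_le_card fun j hj => ?_
    rw [Finset.mem_insert, Finset.mem_singleton] at hj
    rcases hj with rfl | rfl
    · exact Finset.mem_filter.mpr ⟨hp, h1⟩
    · exact Finset.mem_filter.mpr ⟨hq, h2⟩
  exact_mod_cast h3

open Classical in
/-- three high sets with contributions at least two -/
theorem ES_three (hsm : ∀ j ∈ T, sg v {j} ≤ a) {S1 S2 S3 : Finset ℕ} (h12 : S1 ≠ S2)
    (h13 : S1 ≠ S3) (h23 : S2 ≠ S3) (h1 : S1 ⊆ T) (h2 : S2 ⊆ T) (h3 : S3 ⊆ T)
    (k1 : hiS v x b S1 ∧ (S1.card = 2 ∨ (S1.card = 3 ∧ 2 ≤ nlS v x a S1)))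
    (k2 : hiS v x b S2 ∧ (S2.card = 2 ∨ (S2.card = 3 ∧ 2 ≤ nlS v x a S2)))
    (k3 : hiS v x b S3 ∧ (S3.card = 2 ∨ (S3.card = 3 ∧ 2 ≤ nlS v x a S3))) :
    6 ≤ ES v x a b T := by
  have key : ∀ S ⊆ T, hiS v x b S ∧ (S.card = 2 ∨ (S.card = 3 ∧ 2 ≤ nlS v x a S)) →
      2 ≤ (if hiS v x b S then cE v x a S else 0) := by
    rintro S hS ⟨hi, hc⟩
    rw [if_pos hi, cE_small (sub_small hsm hS)]
    rcases hc with hc | ⟨hc, hn⟩
    · rw [hc]; norm_num
    · rw [hc]; norm_num; exact hn
  calc (6 : ℝ) ≤ ∑ S ∈ ({S1, S2, S3} : Finset (Finset ℕ)),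
        (if hiS v x b S then cE v x a S else 0) := by
        rw [Finset.sum_insert (by simp [h12, h13]), Finset.sum_pair h23]
        linarith [key S1 h1 k1, key S2 h2 k2, key S3 h3 k3]
    _ ≤ ES v x a b T := by
        unfold ES
        refine Finset.sum_le_sum_of_subset_of_nonneg ?_ ?_
        · intro S hS
          simp only [Finset.mem_insert, Finset.mem_singleton] at hS
          rw [Finset.mem_powerset]
          rcases hS with rfl | rfl | rfl <;> assumption
        · intro S _ _
          have := (cE_nonneg v x a S).1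
          split_ifs
          · exact this
          · exact le_rfl

open Classical in
/-- five small boxes: the error weight is at least six -/
theorem five_small_E (h : BT v κ x a b l T) (hsm : ∀ j ∈ T, sg v {j} ≤ a) (h5 : T.card = 5) :
    6 ≤ ES v x a b T := by
  obtain ⟨p1, p2, p3, p4, p5, hT, n12, n13, n14, n15, n23, n24, n25, n34, n35, n45, m1, m2, m3,
    m4⟩ := sort_five v h5
  have hl := h.hl
  have hB := h.hB
  have hA := h.hA
  have hxl := h.xl
  have hlo := h.sumlo
  have hhi := h.hhi
  have s2 : ∀ i j : ℕ, i ≠ j → sg v ({i, j} : Finset ℕ) = v i + v j := by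
    intro i j hij
    unfold sg
    rw [Finset.sum_pair hij]
  have s3 : ∀ i j k : ℕ, i ≠ j → i ≠ k → j ≠ k →
      sg v ({i, j, k} : Finset ℕ) = v i + v j + v k := by
    intro i j k hij hik hjk
    unfold sg
    rw [Finset.sum_insert (by simp [hij, hik]), Finset.sum_pair hjk]
    ring
  have sT : sg v T = v p1 + v p2 + v p3 + v p4 + v p5 := by
    rw [hT]
    unfold sg
    rw [Finset.sum_insert (by simp [n12, n13, n14, n15]),
      Finset.sum_insert (by simp [n23, n24, n25]),
      Finset.sum_insert (by simp [n34, n35]), Finset.sum_pair n45]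
    ring
  have q1 : p1 ∈ T := by rw [hT]; simp
  have q2 : p2 ∈ T := by rw [hT]; simp
  have q3 : p3 ∈ T := by rw [hT]; simp
  have q4 : p4 ∈ T := by rw [hT]; simp
  have q5 : p5 ∈ T := by rw [hT]; simp
  have u1 : v p1 ≤ a := by rw [← sg_single v p1]; exact hsm p1 q1
  have z5 := h.hz p5 q5
  -- the pair `{2, 5}` is not small
  have k25 : a < v p2 + v p5 := by
    by_contra hc
    rw [not_lt] at hc
    linarith
  have sub2 : ∀ i j : ℕ, i ∈ T → j ∈ T → ({i, j} : Finset ℕ) ⊆ T := by
    intro i j hi hj k hk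
    rw [Finset.mem_insert, Finset.mem_singleton] at hk
    rcases hk with rfl | rfl <;> assumption
  have sub3 : ∀ i j k : ℕ, i ∈ T → j ∈ T → k ∈ T → ({i, j, k} : Finset ℕ) ⊆ T := by
    intro i j k hi hj hk m hm
    rw [Finset.mem_insert, Finset.mem_insert, Finset.mem_singleton] at hm
    rcases hm with rfl | rfl | rfl <;> assumption
  -- high pairs
  have hp : ∀ i j : ℕ, i ∈ T → j ∈ T → i ≠ j → x / 2 < v i + v j →
      hiS v x b {i, j} ∧ (({i, j} : Finset ℕ).card = 2 ∨
        (({i, j} : Finset ℕ).card = 3 ∧ 2 ≤ nlS v x a {i, j})) := by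
    intro i j hi hj hij hx
    refine ⟨?_, Or.inl (Finset.card_pair hij)⟩
    rw [h.hi_iff (sub2 i j hi hj), s2 i j hij]
    refine ⟨hx, ?_⟩
    have := h.three (S := T \ {i, j}) Finset.sdiff_subset (by
      rw [Finset.card_sdiff_of_subset (sub2 i j hi hj), h5, Finset.card_pair hij])
    linarith
  by_cases hc : x / 2 < v p1 + v p4 ∨ x / 2 < v p2 + v p3
  · have c12 : x / 2 < v p1 + v p2 := by rcases hc with hc | hc <;> linarith
    have c13 : x / 2 < v p1 + v p3 := by rcases hc with hc | hc <;> linarith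
    have d1 : ({p1, p2} : Finset ℕ) ≠ {p1, p3} := by
      intro he
      have : p2 ∈ ({p1, p3} : Finset ℕ) := by rw [← he]; simp
      simp only [Finset.mem_insert, Finset.mem_singleton] at this
      rcases this with h6 | h6
      · exact n12 h6.symm
      · exact n23 h6
    rcases hc with hc | hc
    · refine ES_three hsm (S1 := {p1, p2}) (S2 := {p1, p3}) (S3 := {p1, p4}) d1 ?_ ?_
        (sub2 _ _ q1 q2) (sub2 _ _ q1 q3) (sub2 _ _ q1 q4) (hp _ _ q1 q2 n12 c12)
        (hp _ _ q1 q3 n13 c13) (hp _ _ q1 q4 n14 hc)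
      · intro he
        have : p2 ∈ ({p1, p4} : Finset ℕ) := by rw [← he]; simp
        simp only [Finset.mem_insert, Finset.mem_singleton] at this
        rcases this with h6 | h6
        · exact n12 h6.symm
        · exact n24 h6
      · intro he
        have : p3 ∈ ({p1, p4} : Finset ℕ) := by rw [← he]; simp
        simp only [Finset.mem_insert, Finset.mem_singleton] at this
        rcases this with h6 | h6
        · exact n13 h6.symm
        · exact n34 h6
    · refine ES_three hsm (S1 := {p1, p2}) (S2 := {p1, p3}) (S3 := {p2, p3}) d1 ?_ ?_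
        (sub2 _ _ q1 q2) (sub2 _ _ q1 q3) (sub2 _ _ q2 q3) (hp _ _ q1 q2 n12 c12)
        (hp _ _ q1 q3 n13 c13) (hp _ _ q2 q3 n23 hc)
      · intro he
        have : p1 ∈ ({p2, p3} : Finset ℕ) := by rw [← he]; simp
        simp only [Finset.mem_insert, Finset.mem_singleton] at this
        rcases this with h6 | h6
        · exact n12 h6
        · exact n13 h6
      · intro he
        have : p1 ∈ ({p2, p3} : Finset ℕ) := by rw [← he]; simp
        simp only [Finset.mem_insert, Finset.mem_singleton] at this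
        rcases this with h6 | h6
        · exact n12 h6
        · exact n13 h6
  · rw [not_or, not_lt, not_lt] at hc
    obtain ⟨c14, c23⟩ := hc
    -- high triples
    have ht : ∀ i j k : ℕ, i ∈ T → j ∈ T → k ∈ T → i ≠ j → i ≠ k → j ≠ k →
        sg v T - (v i + v j + v k) ≤ x / 2 → a < sg v T - (v i + v j + v k) →
        (a < v i + v j ∧ v i + v j ≤ x / 2) → (a < v i + v k ∧ v i + v k ≤ x / 2) →
        hiS v x b {i, j, k} ∧ (({i, j, k} : Finset ℕ).card = 2 ∨
          (({i, j, k} : Finset ℕ).card = 3 ∧ 2 ≤ nlS v x a {i, j, k})) := by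
      intro i j k hi hj hk hij hik hjk e1 e2 e3 e4
      have hS := sub3 i j k hi hj hk
      have hcard : ({i, j, k} : Finset ℕ).card = 3 := by
        rw [Finset.card_insert_of_notMem (by simp [hij, hik]), Finset.card_pair hjk]
      have hcs := sg_compl v hS
      rw [s3 i j k hij hik hjk] at hcs
      refine ⟨?_, Or.inr ⟨hcard, ?_⟩⟩
      · rw [h.hi_iff hS, hcs, s3 i j k hij hik hjk]
        refine ⟨?_, e2⟩
        by_contra hc'
        have h6 := h.hfl _ hS
        rw [hcs, s3 i j k hij hik hjk] at h6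
        exact (h6.mp (not_lt.mp hc')) e1
      · refine nl_two (p := k) (q := j) hjk.symm (by simp) (by simp) ?_ ?_
        · rw [sg_erase v (by simp), s3 i j k hij hik hjk, sg_single]
          constructor <;> linarith [e3.1, e3.2]
        · rw [sg_erase v (by simp), s3 i j k hij hik hjk, sg_single]
          constructor <;> linarith [e4.1, e4.2]
    refine ES_three hsm (S1 := {p2, p3, p5}) (S2 := {p1, p4, p5}) (S3 := {p2, p3, p4}) ?_ ?_ ?_
      (sub3 _ _ _ q2 q3 q5) (sub3 _ _ _ q1 q4 q5) (sub3 _ _ _ q2 q3 q4)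
      (ht _ _ _ q2 q3 q5 n23 n25 n35 ?_ ?_ ⟨?_, ?_⟩ ⟨?_, ?_⟩)
      (ht _ _ _ q1 q4 q5 n14 n15 n45 ?_ ?_ ⟨?_, ?_⟩ ⟨?_, ?_⟩)
      (ht _ _ _ q2 q3 q4 n23 n24 n34 ?_ ?_ ⟨?_, ?_⟩ ⟨?_, ?_⟩)
    · intro he
      have : p2 ∈ ({p1, p4, p5} : Finset ℕ) := by rw [← he]; simp
      simp only [Finset.mem_insert, Finset.mem_singleton] at this
      rcases this with h6 | h6 | h6
      · exact n12 h6.symm
      · exact n24 h6
      · exact n25 h6
    · intro he
      have : p5 ∈ ({p2, p3, p4} : Finset ℕ) := by rw [← he]; simp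
      simp only [Finset.mem_insert, Finset.mem_singleton] at this
      rcases this with h6 | h6 | h6
      · exact n25 h6.symm
      · exact n35 h6.symm
      · exact n45 h6.symm
    · intro he
      have : p2 ∈ ({p1, p4, p5} : Finset ℕ) := by rw [he]; simp
      simp only [Finset.mem_insert, Finset.mem_singleton] at this
      rcases this with h6 | h6 | h6
      · exact n12 h6.symm
      · exact n24 h6
      · exact n25 h6
    all_goals linarith

open Classical in
/-- five small boxes: the error weight is at most thirty -/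
theorem five_small_E30 (h : BT v κ x a b l T) (hsm : ∀ j ∈ T, sg v {j} ≤ a) (h5 : T.card = 5) :
    ES v x a b T ≤ 30 := by
  have hs : ∀ j ∈ T, sg v {j} ≤ x / 2 := fun j hj => (hsm j hj).trans h.hax
  have hcs : ∀ S ⊆ T, (T \ S).card + S.card = 5 := by
    intro S hS
    rw [← h5]
    exact Finset.card_sdiff_add_card_eq_card hS
  set f : Finset ℕ → ℝ := fun S => if hiS v x b S then cE v x a S else 0 with hf
  have hcard : ∀ S ⊆ T, S.card ≠ 2 → S.card ≠ 3 → f S = 0 := by
    intro S hS n2 n3
    rw [hf]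
    simp only
    rw [if_neg]
    intro hi
    have h1 := hcs S hS
    have h2 := (h.hi_two hs hS hi).1
    have h3 := ((h.hi_iff hS).mp hi).2
    have h7 : (T \ S).card ≤ 1 := by omega
    rcases Nat.le_one_iff_eq_zero_or_eq_one.mp h7 with h0 | h0
    · rw [Finset.card_eq_zero.mp h0, sg_empty] at h3
      linarith [h.ha0]
    · obtain ⟨j, hj⟩ := Finset.card_eq_one.mp h0
      have hjT : j ∈ T := Finset.sdiff_subset (hj ▸ Finset.mem_singleton_self j : j ∈ T \ S)
      rw [hj] at h3
      linarith [hsm j hjT]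
  have hf3 : ∀ S, f S ≤ 3 := by
    intro S
    rw [hf]
    simp only
    have := (cE_nonneg v x a S).2
    split_ifs <;> linarith
  have hfl : ∀ L ∈ T.powersetCard 2, f L + f (T \ L) ≤ 3 := by
    intro L hL
    have hL' := Finset.mem_powersetCard.mp hL
    by_cases hi : hiS v x b L
    · have hn : ¬ hiS v x b (T \ L) := by
        intro hi'
        have h1 := sg_compl v hL'.1
        linarith [hi.1, hi'.1, h.hhi]
      have e : f (T \ L) = 0 := by
        rw [hf]
        simp only
        rw [if_neg hn]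
      linarith [hf3 L]
    · have e : f L = 0 := by
        rw [hf]
        simp only
        rw [if_neg hi]
      linarith [hf3 (T \ L)]
  have e3 : ∑ S ∈ T.powersetCard 3, f S = ∑ L ∈ T.powersetCard 2, f (T \ L) := by
    symm
    refine Finset.sum_nbij' (fun S => T \ S) (fun S => T \ S) ?_ ?_ ?_ ?_ ?_
    · intro S hS
      have hS' := Finset.mem_powersetCard.mp hS
      exact Finset.mem_powersetCard.mpr ⟨Finset.sdiff_subset, by
        have := hcs S hS'.1
        omega⟩
    · intro S hS
      have hS' := Finset.mem_powersetCard.mp hS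
      exact Finset.mem_powersetCard.mpr ⟨Finset.sdiff_subset, by
        have := hcs S hS'.1
        omega⟩
    · intro S hS
      exact Finset.sdiff_sdiff_eq_self (Finset.mem_powersetCard.mp hS).1
    · intro S hS
      exact Finset.sdiff_sdiff_eq_self (Finset.mem_powersetCard.mp hS).1
    · intro S _
      rfl
  have e1 : ES v x a b T = ∑ S ∈ T.powersetCard 2, f S + ∑ S ∈ T.powersetCard 3, f S := by
    unfold ES
    rw [Finset.sum_powerset, h5]
    simp only [Finset.sum_range_succ, Finset.sum_range_zero]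
    have z : ∀ k, k ≠ 2 → k ≠ 3 → ∑ S ∈ T.powersetCard k, (if hiS v x b S then cE v x a S else 0)
        = 0 := by
      intro k hk3 hk4
      refine Finset.sum_eq_zero fun S hS => ?_
      have hS' := Finset.mem_powersetCard.mp hS
      exact hcard S hS'.1 (by omega) (by omega)
    rw [z 0 (by norm_num) (by norm_num), z 1 (by norm_num) (by norm_num),
      z 4 (by norm_num) (by norm_num), z 5 (by norm_num) (by norm_num)]
    ring
  rw [e1, e3, ← Finset.sum_add_distrib]
  refine (Finset.sum_le_sum hfl).trans ?_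
  rw [Finset.sum_const, Finset.card_powersetCard, h5]
  norm_num [Nat.choose]

open Classical in
/-- five small boxes -/
theorem case_five_small (h : BT v κ x a b l T) (hsm : ∀ j ∈ T, sg v {j} ≤ a) (h5 : T.card = 5) :
    FS v x a b T ≤ 0 ∧ FS v x a b T + ES v x a b T = 6 := by
  have hs : ∀ j ∈ T, sg v {j} ≤ x / 2 := fun j hj => (hsm j hj).trans h.hax
  have hE := h.five_small_E hsm h5
  suffices hsum : FS v x a b T + ES v x a b T = 6 from ⟨by linarith, hsum⟩
  have hx0 : 0 ≤ x := by linarith [h.xl, h.hl]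
  set f : Finset ℕ → ℝ := fun S => ((if sg v S ≤ x / 2 then (-1 : ℝ) ^ S.card else 0) +
    (if hiS v x b S then cR v x a S else 0)) + (if hiS v x b S then cE v x a S else 0) with hf
  have e1 : FS v x a b T + ES v x a b T = ∑ S ∈ T.powerset, f S := by
    unfold FS ES
    rw [← Finset.sum_add_distrib]
  have hcs : ∀ S ⊆ T, (T \ S).card + S.card = 5 := by
    intro S hS
    rw [← h5]
    exact Finset.card_sdiff_add_card_eq_card hS
  -- values
  have f0 : ∀ S ∈ T.powersetCard 0, f S = 1 := by
    intro S hS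
    have hS' := Finset.mem_powersetCard.mp hS
    have h0 : S = ∅ := Finset.card_eq_zero.mp hS'.2
    subst h0
    have hnh : ¬ hiS v x b ∅ := fun hi => by
      have := (h.hi_two hs hS'.1 hi).1
      simp at this
    rw [hf]
    simp only
    rw [sg_empty, if_pos (by linarith), if_neg hnh, if_neg hnh]
    norm_num
  have f1 : ∀ S ∈ T.powersetCard 1, f S = -1 := by
    intro S hS
    have hS' := Finset.mem_powersetCard.mp hS
    obtain ⟨j, rfl⟩ := Finset.card_eq_one.mp hS'.2
    have hj := hs j (hS'.1 (by simp))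
    have hnh : ¬ hiS v x b {j} := fun hi => by linarith [hi.1]
    rw [hf]
    simp only
    rw [if_pos hj, if_neg hnh, if_neg hnh]
    norm_num
  have f45 : ∀ S ⊆ T, 4 ≤ S.card → f S = 0 := by
    intro S hS hc
    have h1 := hcs S hS
    have h2 : sg v (T \ S) ≤ a := by
      rcases (by omega : (T \ S).card = 1 ∨ (T \ S).card = 0) with h7 | h7
      · obtain ⟨j, hj⟩ := Finset.card_eq_one.mp h7
        have hjU : j ∈ T := Finset.sdiff_subset (hj ▸ Finset.mem_singleton_self j : j ∈ T \ S)
        rw [hj]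
        exact hsm j hjU
      · rw [Finset.card_eq_zero.mp h7, sg_empty]
        exact h.ha0
    have h3 := h.compl_gt Finset.sdiff_subset h2
    rw [Finset.sdiff_sdiff_eq_self hS] at h3
    rw [hf]
    simp only
    rw [if_neg (by linarith [h3.1]), if_neg h3.2, if_neg h3.2]
    norm_num
  have f23 : ∀ L ∈ T.powersetCard 2, f L + f (T \ L) = 1 := by
    intro L hL
    have hL' := Finset.mem_powersetCard.mp hL
    have hc := hcs L hL'.1
    have hc3 : (T \ L).card = 3 := by omega
    have h3 := h.three (S := T \ L) Finset.sdiff_subset (by omega)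
    have hsmL := sub_small hsm hL'.1
    have hsmC : ∀ p ∈ T \ L, sg v {p} ≤ a := sub_small hsm Finset.sdiff_subset
    have hax := h.hax
    have hB := h.hB
    have hA := h.hA
    have hl := h.hl
    have hxl := h.xl
    rcases lt_or_ge (x / 2) (sg v L) with hx | hx
    · -- high pair
      have hi : hiS v x b L := by
        rw [h.hi_iff hL'.1]
        exact ⟨hx, by linarith⟩
      have hlow : sg v (T \ L) ≤ x / 2 := by
        rw [sg_compl v hL'.1]
        linarith [h.hhi]
      have hnh : ¬ hiS v x b (T \ L) := fun hi' => by linarith [hi'.1]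
      rw [hf]
      simp only
      rw [if_neg (by linarith), if_pos hi, if_pos hi, if_pos hlow, if_neg hnh, if_neg hnh,
        cR_small hax hsmL, cE_small hsmL, hL'.2, hc3]
      norm_num
    · have hnh : ¬ hiS v x b L := fun hi' => by linarith [hi'.1]
      have hhiC : x / 2 < sg v (T \ L) := not_le.mp ((h.hfl L hL'.1).mp hx)
      rcases le_or_gt (sg v L) a with ha | ha
      · have h6 := h.compl_gt hL'.1 ha
        rw [hf]
        simp only
        rw [if_pos hx, if_neg hnh, if_neg hnh, if_neg (by linarith), if_neg h6.2, if_neg h6.2,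
          hL'.2]
        norm_num
      · have hi : hiS v x b (T \ L) := by
          rw [h.hi_iff Finset.sdiff_subset, Finset.sdiff_sdiff_eq_self hL'.1]
          exact ⟨hhiC, ha⟩
        rw [hf]
        simp only
        rw [if_pos hx, if_neg hnh, if_neg hnh, if_neg (by linarith), if_pos hi, if_pos hi,
          cR_small hax hsmC, cE_small hsmC, hL'.2, hc3]
        norm_num
  have e3 : ∑ S ∈ T.powersetCard 3, f S = ∑ L ∈ T.powersetCard 2, f (T \ L) := by
    symm
    refine Finset.sum_nbij' (fun S => T \ S) (fun S => T \ S) ?_ ?_ ?_ ?_ ?_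
    · intro S hS
      have hS' := Finset.mem_powersetCard.mp hS
      exact Finset.mem_powersetCard.mpr ⟨Finset.sdiff_subset, by
        have := hcs S hS'.1
        omega⟩
    · intro S hS
      have hS' := Finset.mem_powersetCard.mp hS
      exact Finset.mem_powersetCard.mpr ⟨Finset.sdiff_subset, by
        have := hcs S hS'.1
        omega⟩
    · intro S hS
      exact Finset.sdiff_sdiff_eq_self (Finset.mem_powersetCard.mp hS).1
    · intro S hS
      exact Finset.sdiff_sdiff_eq_self (Finset.mem_powersetCard.mp hS).1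
    · intro S _
      rfl
  rw [e1, Finset.sum_powerset, h5]
  simp only [Finset.sum_range_succ, Finset.sum_range_zero]
  have g0 : ∑ S ∈ T.powersetCard 0, f S = 1 := by
    rw [Finset.sum_congr rfl f0, Finset.sum_const, Finset.card_powersetCard]
    norm_num
  have g1 : ∑ S ∈ T.powersetCard 1, f S = -5 := by
    rw [Finset.sum_congr rfl f1, Finset.sum_const, Finset.card_powersetCard, h5]
    norm_num
  have g23 : ∑ S ∈ T.powersetCard 2, f S + ∑ S ∈ T.powersetCard 3, f S = 10 := by
    rw [e3, ← Finset.sum_add_distrib, Finset.sum_congr rfl f23, Finset.sum_const,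
      Finset.card_powersetCard, h5]
    norm_num [Nat.choose]
  have g4 : ∑ S ∈ T.powersetCard 4, f S = 0 := by
    refine Finset.sum_eq_zero fun S hS => ?_
    have hS' := Finset.mem_powersetCard.mp hS
    exact f45 S hS'.1 (by omega)
  have g5 : ∑ S ∈ T.powersetCard 5, f S = 0 := by
    refine Finset.sum_eq_zero fun S hS => ?_
    have hS' := Finset.mem_powersetCard.mp hS
    exact f45 S hS'.1 (by omega)
  linarith

/-- the main inequalities for a bad type without edge sets -/
theorem main (h : BT v κ x a b l T) (h2 : 2 ≤ T.card) :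
    FS v x a b T ≤ 0 ∧ 0 ≤ FS v x a b T + ES v x a b T := by
  by_cases hbig : ∃ p ∈ T, x / 2 < sg v {p}
  · obtain ⟨p, hp, hpx⟩ := hbig
    obtain ⟨h1, h3⟩ := h.case_big h2 hp hpx
    rw [h1, h3]
    norm_num
  have hs : ∀ j ∈ T, sg v {j} ≤ x / 2 := by
    intro j hj
    by_contra hc
    exact hbig ⟨j, hj, not_le.mp hc⟩
  have h3 := h.three_le h2 hs
  have h7 := h.card_le
  have hE := ES_nonneg v x a b T
  rcases (by omega : T.card = 3 ∨ T.card = 4 ∨ T.card = 5 ∨ T.card = 6 ∨ T.card = 7)
    with hc | hc | hc | hc | hc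
  · rcases h.case_three hs hc with ⟨h4, h5, _⟩ | ⟨h4, h5, _⟩ <;> rw [h4, h5] <;> norm_num
  · by_cases hm : ∃ q ∈ T, a < sg v {q}
    · obtain ⟨q, hq, hqa⟩ := hm
      have h4 := (h.case_four_med hs hc hq hqa).1
      rw [h4]
      constructor <;> linarith
    · have hsm : ∀ j ∈ T, sg v {j} ≤ a := by
        intro j hj
        by_contra hc
        exact hm ⟨j, hj, not_le.mp hc⟩
      have h4 := (h.case_four_small hsm hc).1
      rw [h4]
      constructor <;> linarith
  · by_cases hm : ∃ q ∈ T, a < sg v {q}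
    · obtain ⟨q, hq, hqa⟩ := hm
      have h4 := (h.case_five_med hs hc hq hqa).1
      rw [h4]
      constructor <;> linarith
    · have hsm : ∀ j ∈ T, sg v {j} ≤ a := by
        intro j hj
        by_contra hc
        exact hm ⟨j, hj, not_le.mp hc⟩
      have h4 := h.case_five_small hsm hc
      constructor <;> linarith [h4.1, h4.2]
  · have h4 := h.case_six hc
    exact ⟨h4.1, h4.2.1⟩
  · have h4 := h.case_seven hc
    rw [h4.1, h4.2]
    norm_num

/-- the type has one medium box `q`, all others are small -/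
def OneMed (v : ℕ → ℝ) (x a : ℝ) (T : Finset ℕ) : Prop :=
  ∃ q ∈ T, a < v q ∧ v q ≤ x / 2 ∧ ∀ p ∈ T, p ≠ q → v p ≤ a

/-- **the values on bad types without edge sets** -/
theorem r2_val (h : BT v κ x a b l T) (h2 : 2 ≤ T.card) :
    (FS v x a b T = 0 ∧ ES v x a b T = 0) ∨
    (T.card = 3 ∧ OneMed v x a T ∧ FS v x a b T = -2 ∧ ES v x a b T = 2) ∨
    (T.card = 4 ∧ OneMed v x a T ∧ FS v x a b T = 0 ∧ ES v x a b T ≤ 2) ∨
    (T.card = 5 ∧ OneMed v x a T ∧ FS v x a b T = 0 ∧ ES v x a b T = 3) ∨
    ((∀ p ∈ T, v p ≤ a) ∧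
      ((T.card = 4 ∧ FS v x a b T = 0 ∧ ES v x a b T = 6) ∨
       (T.card = 5 ∧ -24 ≤ FS v x a b T ∧ FS v x a b T ≤ 0 ∧ FS v x a b T + ES v x a b T = 6) ∨
       (T.card = 6 ∧ -60 ≤ FS v x a b T ∧ FS v x a b T ≤ 0 ∧
          0 ≤ FS v x a b T + ES v x a b T ∧ FS v x a b T + ES v x a b T ≤ 15) ∨
       (T.card = 7 ∧ FS v x a b T = -90 ∧ ES v x a b T = 105))) := by
  classical
  by_cases hbig : ∃ p ∈ T, x / 2 < sg v {p}
  · obtain ⟨p, hp, hpx⟩ := hbig
    exact Or.inl (h.case_big h2 hp hpx)
  have hs : ∀ j ∈ T, sg v {j} ≤ x / 2 := by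
    intro j hj
    by_contra hc
    exact hbig ⟨j, hj, not_le.mp hc⟩
  have h3 := h.three_le h2 hs
  have h7 := h.card_le
  have hOM : ∀ q ∈ T, a < sg v {q} → 4 ≤ T.card → OneMed v x a T := by
    intro q hq hqa h4
    refine ⟨q, hq, by rw [sg_single] at hqa; exact hqa, by
      have := hs q hq
      rw [sg_single] at this
      exact this, fun p hp hpq => ?_⟩
    by_contra hc
    have := h.two_med hq hp hpq.symm hqa (by rw [sg_single]; exact not_le.mp hc)
    omega
  rcases (by omega : T.card = 3 ∨ T.card = 4 ∨ T.card = 5 ∨ T.card = 6 ∨ T.card = 7)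
    with hc | hc | hc | hc | hc
  · rcases h.case_three hs hc with ⟨h4, h5, _⟩ | ⟨h4, h5, h6⟩
    · exact Or.inl ⟨h4, h5⟩
    · refine Or.inr (Or.inl ⟨hc, ?_, h4, h5⟩)
      obtain ⟨q, hq⟩ := Finset.card_eq_one.mp h6
      have hqm : q ∈ T.filter (fun t => a < sg v {t}) := by rw [hq]; simp
      have hq' := Finset.mem_filter.mp hqm
      refine ⟨q, hq'.1, by
        have := hq'.2
        rw [sg_single] at this
        exact this, by
        have := hs q hq'.1
        rw [sg_single] at this
        exact this, fun p hp hpq => ?_⟩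
      by_contra hc'
      have : p ∈ T.filter (fun t => a < sg v {t}) :=
        Finset.mem_filter.mpr ⟨hp, by rw [sg_single]; exact not_le.mp hc'⟩
      rw [hq, Finset.mem_singleton] at this
      exact hpq this
  · by_cases hm : ∃ q ∈ T, a < sg v {q}
    · obtain ⟨q, hq, hqa⟩ := hm
      have h4 := h.case_four_med hs hc hq hqa
      exact Or.inr (Or.inr (Or.inl ⟨hc, hOM q hq hqa (by omega), h4.1, h4.2⟩))
    · have hsm : ∀ j ∈ T, sg v {j} ≤ a := by
        intro j hj
        by_contra hc
        exact hm ⟨j, hj, not_le.mp hc⟩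
      have h4 := h.case_four_small hsm hc
      exact Or.inr (Or.inr (Or.inr (Or.inr ⟨fun p hp => by rw [← sg_single v p]; exact hsm p hp,
        Or.inl ⟨hc, h4.1, h4.2⟩⟩)))
  · by_cases hm : ∃ q ∈ T, a < sg v {q}
    · obtain ⟨q, hq, hqa⟩ := hm
      have h4 := h.case_five_med hs hc hq hqa
      exact Or.inr (Or.inr (Or.inr (Or.inl ⟨hc, hOM q hq hqa (by omega), h4.1, h4.2⟩)))
    · have hsm : ∀ j ∈ T, sg v {j} ≤ a := by
        intro j hj
        by_contra hc
        exact hm ⟨j, hj, not_le.mp hc⟩
      have h4 := h.case_five_small hsm hc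
      have h5 := h.five_small_E30 hsm hc
      exact Or.inr (Or.inr (Or.inr (Or.inr ⟨fun p hp => by rw [← sg_single v p]; exact hsm p hp,
        Or.inr (Or.inl ⟨hc, by linarith [h4.2], h4.1, h4.2⟩)⟩)))
  · have hsm : ∀ j ∈ T, sg v {j} ≤ a := by
      intro j hj
      by_contra hc'
      have := h.one_med hj (not_le.mp hc')
      omega
    have h4 := h.case_six hc
    exact Or.inr (Or.inr (Or.inr (Or.inr ⟨fun p hp => by rw [← sg_single v p]; exact hsm p hp,
      Or.inr (Or.inr (Or.inl ⟨hc, h4.2.2.1, h4.1, h4.2.1, h4.2.2.2⟩))⟩)))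
  · have hsm : ∀ j ∈ T, sg v {j} ≤ a := by
      intro j hj
      by_contra hc'
      have := h.one_med hj (not_le.mp hc')
      omega
    have h4 := h.case_seven hc
    exact Or.inr (Or.inr (Or.inr (Or.inr ⟨fun p hp => by rw [← sg_single v p]; exact hsm p hp,
      Or.inr (Or.inr (Or.inr ⟨hc, h4.1, h4.2⟩))⟩)))

end BT

open Classical in
theorem sum_lamR3 (v : ℕ → ℝ) (x a b l : ℝ) (T : Finset ℕ) :
    ∑ S ∈ T.powerset, lamR3 v x a b l S = FS v x a b T -
      2048 * ((T.powerset.filter (fun S => bdS v x l S)).card : ℝ) := by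
  unfold lamR3 FS
  rw [Finset.sum_sub_distrib, ← Finset.sum_filter (fun S => bdS v x l S), Finset.sum_const,
    nsmul_eq_mul]
  ring

open Classical in
theorem sum_lamE3 (v : ℕ → ℝ) (x a b l : ℝ) (T : Finset ℕ) :
    ∑ S ∈ T.powerset, lamE3 v x a b l S = ES v x a b T +
      4096 * ((T.powerset.filter (fun S => bdS v x l S)).card : ℝ) := by
  unfold lamE3 ES
  rw [Finset.sum_add_distrib, ← Finset.sum_filter (fun S => bdS v x l S), Finset.sum_const,
    nsmul_eq_mul]
  ring

theorem lamE3_nonneg (v : ℕ → ℝ) (x a b l : ℝ) (S : Finset ℕ) : 0 ≤ lamE3 v x a b l S := by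
  unfold lamE3
  have := (cE_nonneg v x a S).1
  split_ifs <;> linarith

/-- all weights are bounded -/
theorem lam3_abs (v : ℕ → ℝ) (x a b l : ℝ) (S : Finset ℕ) :
    |lamR3 v x a b l S| ≤ 2 ^ 13 ∧ |lamE3 v x a b l S| ≤ 2 ^ 13 ∧
      |lamR3 v x a b l S + lamE3 v x a b l S| ≤ 2 ^ 13 := by
  have h1 := cE_nonneg v x a S
  have h2 := cR_bd v x a S
  have h3 : -1 ≤ (-1 : ℝ) ^ S.card ∧ (-1 : ℝ) ^ S.card ≤ 1 := by
    rcases neg_one_pow_eq_or ℝ S.card with h7 | h7 <;> rw [h7] <;> norm_num
  unfold lamR3 lamE3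
  refine ⟨?_, ?_, ?_⟩ <;> rw [abs_le] <;> split_ifs <;> constructor <;>
    linarith [h1.1, h1.2, h2.1, h2.2, h3.1, h3.2]

open Classical in
/-- crude bounds for at most ten boxes -/
theorem FS_crude (v : ℕ → ℝ) (x a b : ℝ) {T : Finset ℕ} (h : T.card ≤ 10) :
    FS v x a b T ≤ 2048 ∧ -2048 ≤ FS v x a b T + ES v x a b T := by
  have hcard : (T.powerset.card : ℝ) ≤ 1024 := by
    rw [Finset.card_powerset]
    push_cast
    calc (2 : ℝ) ^ T.card ≤ 2 ^ 10 := pow_le_pow_right₀ (by norm_num) h
      _ = 1024 := by norm_num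
  constructor
  · unfold FS
    have h1 : ∀ S ∈ T.powerset, ((if sg v S ≤ x / 2 then (-1 : ℝ) ^ S.card else 0) +
        (if hiS v x b S then cR v x a S else 0)) ≤ 2 := by
      intro S _
      have h2 := (cR_bd v x a S).2
      have h3 : (-1 : ℝ) ^ S.card ≤ 1 := by
        rcases neg_one_pow_eq_or ℝ S.card with h7 | h7 <;> rw [h7] <;> norm_num
      split_ifs <;> linarith
    refine (Finset.sum_le_sum h1).trans ?_
    rw [Finset.sum_const, nsmul_eq_mul]
    linarith
  · unfold FS ES
    rw [← Finset.sum_add_distrib]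
    have h1 : ∀ S ∈ T.powerset, (-2 : ℝ) ≤ ((if sg v S ≤ x / 2 then (-1 : ℝ) ^ S.card else 0) +
        (if hiS v x b S then cR v x a S else 0)) + (if hiS v x b S then cE v x a S else 0) := by
      intro S _
      have h2 := cR_cE v x a S
      have h3 : -1 ≤ (-1 : ℝ) ^ S.card := by
        rcases neg_one_pow_eq_or ℝ S.card with h7 | h7 <;> rw [h7] <;> norm_num
      split_ifs <;> linarith
    refine le_trans ?_ (Finset.sum_le_sum h1)
    rw [Finset.sum_const, nsmul_eq_mul]
    linarith

open Classical in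
/-- **Lemma CL with the coefficients `cR`, `cE`** -/
theorem cl_core3 {v : ℕ → ℝ} {κ x a b l : ℝ} {T : Finset ℕ} (hv : ∀ j, 0 ≤ v j)
    (hk : 11 * κ ≤ Real.log (3 / 2)) (hl : 1 ≤ l) (ha0 : 0 ≤ a) (hA : a + 50 * l ≤ 3 * x / 10)
    (hB : 2 * x / 5 + 50 * l ≤ b) (hb2 : b ≤ x / 2) (hz : ∀ j ∈ T, x / 10 - l ≤ v j)
    (hT2 : 2 ≤ T.card) (hT10 : T.card ≤ 10) (hlo : x - (Real.log 2 + 5 * l) ≤ sg v T)
    (hhi : sg v T ≤ x) (hgd : ¬ ∃ S ⊆ T, a < sg v S ∧ sg v S + 11 * κ ≤ b) :
    ∑ S ∈ T.powerset, lamR3 v x a b l S ≤ 0 ∧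
      0 ≤ ∑ S ∈ T.powerset, lamR3 v x a b l S + ∑ S ∈ T.powerset, lamE3 v x a b l S := by
  rw [sum_lamR3, sum_lamE3]
  by_cases hbd : (T.powerset.filter (fun S => bdS v x l S)).Nonempty
  · have h1 : (1 : ℝ) ≤ ((T.powerset.filter (fun S => bdS v x l S)).card : ℝ) := by
      exact_mod_cast Finset.card_pos.mpr hbd
    have h2 := FS_crude v x a b hT10
    constructor <;> linarith [h2.1, h2.2]
  · have hbd0 : ((T.powerset.filter (fun S => bdS v x l S)).card : ℝ) = 0 := by
      rw [Finset.not_nonempty_iff_eq_empty.mp hbd]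
      simp
    have hnb : ∀ S ⊆ T, ¬ bdS v x l S := by
      intro S hS hb
      exact hbd ⟨S, Finset.mem_filter.mpr ⟨Finset.mem_powerset.mpr hS, hb⟩⟩
    have h : BT v κ x a b l T := ⟨hv, hk, hl, ha0, hA, hB, hb2, hz, hlo, hhi, hgd, hnb⟩
    have h3 := h.main hT2
    rw [hbd0]
    constructor <;> linarith [h3.1, h3.2]

end Pool.MP_dd84fd_nt.IY
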