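import Pool.Agent.Lib.MP_dd84fd_nt.IY.BDefs
import Pool.Agent.Lib.MP_dd84fd_nt.HX.DcTS

/-!
# IY-BSm (0.6 h): rough to smooth, general weights

Proof. As `HX.ts_id` (DcTS), simpler: for `m ∣ n` with `lam0 m ≠ 0`: `m` rough, `m < Z`, insert `HX.rg_smo z m (n/m) Z`; the left side becomes a double sum over `m ∣ n` (rough) and `f ∣ n/m` (smooth); put `l = m f` (`HX.ts_swap`, `HX.ts_one`: the only rough × smooth factorization of `l` is `ro z l`, `sm z l`). The condition `Z ≤ m e ∧ m e < Z minFac e ∧ (∀ p ∣ n/m/e, minFac e ≤ p)` becomes the one of `Ac` and `TSg` (`n/m/e = n/l`).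
-/

set_option autoImplicit false

namespace Pool.MP_dd84fd_nt.IY

open Finset Pool.MP_dd84fd_nt.HX

open Classical in
theorem smo_id (z : ℕ) (lam0 : ℕ → ℝ) (Z : ℝ) (n : ℕ) (hn : 1 ≤ n)
    (hr : ∀ m, lam0 m ≠ 0 → Rgh z m ∧ (m : ℝ) < Z) :
    ∑ m ∈ n.divisors, lam0 m * rg z (n / m) =
      ∑ l ∈ n.divisors, (if (l : ℝ) < Z then lam0 (ro z l) * mr (sm z l) else 0) +
      TSg z (Ac z lam0 Z) n := by
  have hn0 : n ≠ 0 := by omega
  obtain ⟨g, hg⟩ : ∃ g : ℕ → ℕ → ℝ, g = fun c f : ℕ => lam0 c *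
        ((if (c : ℝ) * f < Z then mr f else 0) + (if Z ≤ (c : ℝ) * f ∧
          (c : ℝ) * f < Z * (f.minFac : ℝ) ∧ (∀ p ∈ (n / c / f).primeFactors, f.minFac ≤ p)
          then mr f else 0)) := ⟨_, rfl⟩
  have key : ∀ c ∈ n.divisors, lam0 c * rg z (n / c) =
      ∑ f ∈ (n / c).divisors, (if Rgh z c ∧ Smo z f then g c f else 0) := by
    intro c hc
    have hcn : c ∣ n := Nat.dvd_of_mem_divisors hc
    have hc0 : 0 < c := Nat.pos_of_mem_divisors hc
    have hk : n / c ≠ 0 := (Nat.div_pos (Nat.le_of_dvd hn hcn) hc0).ne'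
    by_cases h0 : lam0 c = 0
    · rw [h0, zero_mul]
      symm
      refine sum_eq_zero fun f _ => ?_
      rw [hg]
      simp only
      rw [h0, zero_mul]
      exact ite_self _
    · obtain ⟨hr', hcZ⟩ := hr c h0
      rw [rg_smo z c (n / c) Z hcZ hk, ← sum_add_distrib, mul_sum]
      refine sum_congr rfl fun f _ => ?_
      rw [hg]
      simp only
      by_cases hf : Smo z f
      · simp only [hf, hr', true_and, and_self, if_true]
      · simp only [hf, and_false, false_and, if_false, add_zero, mul_zero]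
  rw [sum_congr rfl key, ts_swap n hn0, TSg, ← sum_add_distrib]
  refine sum_congr rfl fun l hl => ?_
  have hln : l ∣ n := Nat.dvd_of_mem_divisors hl
  have hl0 : l ≠ 0 := (Nat.pos_of_mem_divisors hl).ne'
  rw [ts_one z l hl0 g]
  have h1 := ro_mul_sm z l hl0
  have hlc : ((ro z l : ℕ) : ℝ) * (sm z l : ℕ) = (l : ℝ) := by exact_mod_cast h1
  have hdd : n / ro z l / sm z l = n / l := by rw [Nat.div_div_eq_div_mul, h1]
  rw [hg]
  simp only
  rw [hdd, hlc]
  unfold Ac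
  by_cases hZ : (l : ℝ) < Z
  · have hZ' : ¬ Z ≤ (l : ℝ) := not_le.2 hZ
    rw [if_pos hZ, if_pos hZ, if_neg (fun h => hZ' h.1),
      if_neg (show ¬ (Z ≤ (l : ℝ) ∧ (l : ℝ) < Z * ((sm z l).minFac : ℝ)) from
        fun h => hZ' h.1)]
    simp only [add_zero, ite_self]
  · have hZ' : Z ≤ (l : ℝ) := not_lt.1 hZ
    rw [if_neg hZ, if_neg hZ]
    by_cases hM : (l : ℝ) < Z * ((sm z l).minFac : ℝ)
    · by_cases hP : ∀ p ∈ (n / l).primeFactors, (sm z l).minFac ≤ p
      · rw [if_pos ⟨hZ', hM, hP⟩, if_pos hP, if_pos ⟨hZ', hM⟩]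
        ring
      · rw [if_neg (fun h => hP h.2.2), if_neg hP]
        ring
    · rw [if_neg (fun h => hM h.2.1),
        if_neg (show ¬ (Z ≤ (l : ℝ) ∧ (l : ℝ) < Z * ((sm z l).minFac : ℝ)) from
          fun h => hM h.2)]
      simp only [add_zero, ite_self, mul_zero]

end Pool.MP_dd84fd_nt.IY
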