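import Pool.Agent.Lib.MP_dd84fd_nt.IY.BDefs
import Pool.Agent.Lib.MP_dd84fd_nt.HX.DcDif

/-!
# IY-BTb (0.7 h): `TSg - TBg` is small in mean square

Proof. As `HX.ts_tb_pt`, `HX.ts_tb` (DcDif): the condition of `TSg` implies that of `TBg` (`HX.DcDif_cl_mono`); a term `l` of the difference has `A l ≠ 0`, so `q0 := (sm z l).minFac` is a prime factor of `sm z l`, `q0 < z` (`HX.sm_smo`), `q0 ∣ n`, and there is a prime `p ∣ n/l`, `p < q0`, of the same class: `HX.EEx κ z n`. So `|TSg - TBg| ≤ 2^13 τ(n) [EEx κ z n]`, and by Cauchy-Schwarz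
`Σ ≤ 2^22 (#EEx)^(1/2) (Σ τ^4)^(1/2) ≤ 2^22 (4 κ X (1+L))^(1/2) (X (1+L)^C)^(1/2)` (`HX.ee_card`, `BV.div_mom 4`) `≤ X / L^B` for `κ = L^(-B')`, `B' ≥ 2 B + C + 3`, `X` large.
-/

set_option autoImplicit false

namespace Pool.MP_dd84fd_nt.IY

open Finset Pool.MP_dd84fd_nt.HX

open Classical in
private theorem btbTerm (κ : ℝ) (z : ℕ) (A : ℕ → ℝ) (n l : ℕ) (hn : 1 ≤ n) (h0 : 0 < κ)
    (hl : l ∣ n) (hA : |A l| ≤ 2 ^ 13) (hA1 : A l ≠ 0 → sm z l ≠ 1) :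
    |(if (∀ p ∈ (n / l).primeFactors, (sm z l).minFac ≤ p) then A l else 0) -
      (if (∀ p ∈ (n / l).primeFactors, cl κ (sm z l).minFac ≤ cl κ p) then A l else 0)| ≤
      if EEx κ z n then (2 : ℝ) ^ 13 else 0 := by
  have hrhs : (0 : ℝ) ≤ if EEx κ z n then (2 : ℝ) ^ 13 else 0 := by
    split_ifs
    · positivity
    · exact le_refl _
  by_cases hS : ∀ p ∈ (n / l).primeFactors, (sm z l).minFac ≤ p
  · have hB : ∀ p ∈ (n / l).primeFactors, cl κ (sm z l).minFac ≤ cl κ p :=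
      fun p hp => DcDif_cl_mono κ h0 (hS p hp)
    rw [if_pos hS, if_pos hB, sub_self, abs_zero]
    exact hrhs
  · rw [if_neg hS]
    by_cases hB : ∀ p ∈ (n / l).primeFactors, cl κ (sm z l).minFac ≤ cl κ p
    · rw [if_pos hB, zero_sub, abs_neg]
      by_cases hAl : A l = 0
      · rw [hAl, abs_zero]
        exact hrhs
      have hl0 : 0 < l := Nat.pos_of_dvd_of_pos hl hn
      push Not at hS
      obtain ⟨p, hp, hpq⟩ := hS
      have hpp := Nat.prime_of_mem_primeFactors hp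
      have hsm1 : sm z l ≠ 1 := hA1 hAl
      have hqp : (sm z l).minFac.Prime := Nat.minFac_prime hsm1
      have hq1 : (sm z l).minFac ∈ (sm z l).primeFactors :=
        Nat.mem_primeFactors.2 ⟨hqp, Nat.minFac_dvd _, (sm_pos z l).ne'⟩
      have hqz := sm_smo z l _ hq1
      have hsl : sm z l ∣ l := ⟨ro z l, by rw [mul_comm]; exact (ro_mul_sm z l hl0.ne').symm⟩
      have hqn : (sm z l).minFac ∣ n := ((Nat.minFac_dvd _).trans hsl).trans hl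
      have hpn : p ∣ n := (Nat.dvd_of_mem_primeFactors hp).trans (Nat.div_dvd_of_dvd hl)
      have hEE : EEx κ z n := by
        refine ⟨(sm z l).minFac, Nat.mem_primeFactors.2 ⟨hqp, hqn, by omega⟩, p,
          Nat.mem_primeFactors.2 ⟨hpp, hpn, by omega⟩, hpq, hqz, ?_⟩
        exact le_antisymm (hB p hp) (DcDif_cl_mono κ h0 hpq.le)
      rw [if_pos hEE]
      exact hA
    · rw [if_neg hB, sub_zero, abs_zero]
      exact hrhs

open Classical in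
private theorem btbPt (κ : ℝ) (z : ℕ) (A : ℕ → ℝ) (n : ℕ) (hn : 1 ≤ n) (h0 : 0 < κ)
    (hA : ∀ l, |A l| ≤ 2 ^ 13) (hA1 : ∀ l, A l ≠ 0 → sm z l ≠ 1) :
    |TSg z A n - TBg κ z A n| ≤
      if EEx κ z n then 2 ^ 13 * (n.divisors.card : ℝ) else 0 := by
  unfold TSg TBg
  rw [← Finset.sum_sub_distrib]
  refine (Finset.abs_sum_le_sum_abs _ _).trans ?_
  refine (Finset.sum_le_sum fun l hl =>
    btbTerm κ z A n l hn h0 (Nat.dvd_of_mem_divisors hl) (hA l) (hA1 l)).trans ?_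
  rw [Finset.sum_const, nsmul_eq_mul]
  split_ifs
  · exact le_of_eq (by ring)
  · rw [mul_zero]

theorem tsb_small (B : ℕ) : ∃ B0 : ℕ, ∀ B' : ℕ, B0 ≤ B' → ∃ X0 : ℕ, ∀ X : ℕ, X0 ≤ X →
    ∀ (z : ℕ) (A : ℕ → ℝ), (∀ l, |A l| ≤ 2 ^ 13) → (∀ l, A l ≠ 0 → sm z l ≠ 1) →
    ∑ n ∈ Icc 1 X, (TSg z A n - TBg (kp B' X) z A n) ^ 2 ≤ X / (Real.log X) ^ B := by
  classical
  obtain ⟨C, hC⟩ := Pool.BV.div_mom 4
  obtain ⟨X0, hX0⟩ := exists_nat_ge (Real.exp (2 ^ (C + 28)))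
  refine ⟨2 * (B + C + 2), fun B' hB' => ⟨max X0 1, fun X hX z A hA hA1 => ?_⟩⟩
  have hX1 : 1 ≤ X := (le_max_right _ _).trans hX
  have hXX : X0 ≤ X := (le_max_left _ _).trans hX
  have hXr : (0 : ℝ) < X := by exact_mod_cast hX1
  obtain ⟨L, hLd⟩ : ∃ L, L = Real.log (X : ℝ) := ⟨_, rfl⟩
  have hLbig : 2 ^ (C + 28) ≤ L := by
    rw [hLd, Real.le_log_iff_exp_le hXr]
    exact hX0.trans (by exact_mod_cast hXX)
  have h2p : (1 : ℝ) ≤ 2 ^ (C + 28) := one_le_pow₀ (by norm_num)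
  have hL1 : 1 ≤ L := h2p.trans hLbig
  have hL0 : 0 < L := by linarith
  obtain ⟨κ, hκ⟩ : ∃ κ, κ = kp B' X := ⟨_, rfl⟩
  have hκL : κ = 1 / L ^ B' := by rw [hκ, hLd]; rfl
  have h0 : 0 < κ := by rw [hκL]; positivity
  have h1 : κ ≤ 1 := by
    rw [hκL]
    exact div_le_one_of_le₀ (one_le_pow₀ hL1) (by positivity)
  have hsk : Real.sqrt κ ≤ 1 / L ^ (B + C + 2) := by
    rw [Real.sqrt_le_iff]
    refine ⟨by positivity, ?_⟩
    rw [hκL, div_pow, one_pow, ← pow_mul]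
    exact one_div_le_one_div_of_le (by positivity) (pow_le_pow_right₀ hL1 (by omega))
  rw [← hκ, ← hLd]
  have hEE := ee_card κ z X h0 h1 hX1
  have hM := (hC X hX1).1
  rw [← hLd] at hEE hM
  have hsum : ∑ n ∈ Icc 1 X, (TSg z A n - TBg κ z A n) ^ 2 ≤
      2 ^ 26 * ∑ n ∈ (Icc 1 X).filter (fun n => EEx κ z n), (n.divisors.card : ℝ) ^ 2 := by
    rw [Finset.mul_sum, Finset.sum_filter]
    refine Finset.sum_le_sum fun n hn => ?_
    have hn1 : 1 ≤ n := (mem_Icc.1 hn).1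
    have hpt := btbPt κ z A n hn1 h0 hA hA1
    by_cases hE : EEx κ z n
    · rw [if_pos hE] at hpt
      rw [if_pos hE, ← sq_abs]
      calc |TSg z A n - TBg κ z A n| ^ 2 ≤ (2 ^ 13 * (n.divisors.card : ℝ)) ^ 2 :=
            pow_le_pow_left₀ (abs_nonneg _) hpt 2
        _ = 2 ^ 26 * (n.divisors.card : ℝ) ^ 2 := by ring
    · rw [if_neg hE] at hpt
      rw [if_neg hE]
      have h3 : TSg z A n - TBg κ z A n = 0 :=
        abs_eq_zero.1 (le_antisymm hpt (abs_nonneg _))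
      rw [h3]
      norm_num
  have hCS : (∑ n ∈ (Icc 1 X).filter (fun n => EEx κ z n), (n.divisors.card : ℝ) ^ 2) ^ 2 ≤
      (((Icc 1 X).filter (fun n => EEx κ z n)).card : ℝ) *
        ∑ n ∈ Icc 1 X, (n.divisors.card : ℝ) ^ 4 := by
    refine sq_sum_le_card_mul_sum_sq.trans ?_
    refine mul_le_mul_of_nonneg_left ?_ (Nat.cast_nonneg _)
    calc ∑ n ∈ (Icc 1 X).filter (fun n => EEx κ z n), ((n.divisors.card : ℝ) ^ 2) ^ 2
        = ∑ n ∈ (Icc 1 X).filter (fun n => EEx κ z n), (n.divisors.card : ℝ) ^ 4 :=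
          Finset.sum_congr rfl fun n _ => by ring
      _ ≤ ∑ n ∈ Icc 1 X, (n.divisors.card : ℝ) ^ 4 :=
          Finset.sum_le_sum_of_subset_of_nonneg (filter_subset _ _)
            (fun _ _ _ => by positivity)
  have hb : ∑ n ∈ (Icc 1 X).filter (fun n => EEx κ z n), (n.divisors.card : ℝ) ^ 2 ≤
      2 * Real.sqrt κ * X * (1 + L) ^ (C + 1) := by
    have hnn : 0 ≤ ∑ n ∈ (Icc 1 X).filter (fun n => EEx κ z n), (n.divisors.card : ℝ) ^ 2 :=
      Finset.sum_nonneg fun _ _ => by positivity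
    have hbn : 0 ≤ 2 * Real.sqrt κ * X * (1 + L) ^ (C + 1) := by positivity
    rw [← pow_le_pow_iff_left₀ hnn hbn two_ne_zero]
    have h1L : 1 ≤ 1 + L := by linarith
    calc (∑ n ∈ (Icc 1 X).filter (fun n => EEx κ z n), (n.divisors.card : ℝ) ^ 2) ^ 2
        ≤ (((Icc 1 X).filter (fun n => EEx κ z n)).card : ℝ) *
          ∑ n ∈ Icc 1 X, (n.divisors.card : ℝ) ^ 4 := hCS
      _ ≤ (4 * κ * X * (1 + L)) * (X * (1 + L) ^ C) := by gcongr
      _ = 4 * κ * X ^ 2 * (1 + L) ^ (C + 1) := by ring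
      _ ≤ 4 * κ * X ^ 2 * (1 + L) ^ (2 * (C + 1)) := by
          refine mul_le_mul_of_nonneg_left (pow_le_pow_right₀ h1L (by omega)) (by positivity)
      _ = 4 * (Real.sqrt κ) ^ 2 * X ^ 2 * (1 + L) ^ (2 * (C + 1)) := by
          rw [Real.sq_sqrt h0.le]
      _ = (2 * Real.sqrt κ * X * (1 + L) ^ (C + 1)) ^ 2 := by ring
  calc ∑ n ∈ Icc 1 X, (TSg z A n - TBg κ z A n) ^ 2
      ≤ 2 ^ 26 * ∑ n ∈ (Icc 1 X).filter (fun n => EEx κ z n), (n.divisors.card : ℝ) ^ 2 :=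
        hsum
    _ ≤ 2 ^ 26 * (2 * Real.sqrt κ * X * (1 + L) ^ (C + 1)) := by gcongr
    _ ≤ 2 ^ 26 * (2 * (1 / L ^ (B + C + 2)) * X * (2 * L) ^ (C + 1)) := by
        gcongr
        linarith
    _ = 2 ^ (C + 28) * (X * (L ^ (C + 1) / L ^ (B + C + 2))) := by ring
    _ ≤ L * (X * (L ^ (C + 1) / L ^ (B + C + 2))) := by gcongr
    _ = X / L ^ B := by
        field_simp
        ring

end Pool.MP_dd84fd_nt.IY
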