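import Pool.Agent.Lib.MP_dd84fd_nt.IY.BCl3
import Pool.Agent.Lib.MP_dd84fd_nt.IY.BSm
import Pool.Agent.Lib.MP_dd84fd_nt.IY.BTb
import Pool.Agent.Lib.MP_dd84fd_nt.IY.BTy3

/-!
# IY-BFr (0.6 h): `F` = type I + type II

Proof. `lam0 = lamN κ z lam` (`|lam0| ≤ 2^13`; `lamN_supp`: rough and `< ZI := 2 X^(1-β)`). Split `lam0 = L + M + H` with the indicators of `m < 2 X^α`, `2 X^α ≤ m ≤ X^β`, `X^β < m`. `Ff = Σ_L + Σ_M + Σ_H`. `Σ_L`: `smo_id` with `Z = 2 X^α`; `Σ_H`: `smo_id` with `Z = ZI`; `Σ_M`: `mid_rep`. `al l = [l < 2 X^α] L(ro l) mr(sm l) + [l < ZI] H(ro l) mr(sm l)` (`≤ 2^14`, supported on `l < ZI` as `2 X^α ≤ ZI`).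
The remaining part is `TSg (Ac L ..) + TSg (Ac H ..) + Σ_M`; `TSg = TBg + (TSg - TBg)`: `low_rep`, `high_rep`, `brg_small` with `tsb_small (B+4)` (`ac_abs`, `ac_sm`), `brg_add` several times, `brg_congr`, `brg_mono`.
-/

set_option autoImplicit false

namespace Pool.MP_dd84fd_nt.IY

open Finset Pool.MP_dd84fd_nt.HX

theorem ff_rep (B : ℕ) : ∃ B0 : ℕ, ∀ B' : ℕ, B0 ≤ B' → ∃ C : ℕ, ∀ α β : ℝ, 0 < α →
    α + 1 / 10 < β → β < 1 / 2 → ∃ X0 : ℕ, ∀ X : ℕ, X0 ≤ X → ∀ lam : Finset ℕ → ℝ,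
    AdmL β (kp B' X) X lam → ∃ al : ℕ → ℝ, (∀ l, |al l| ≤ 2 ^ 14) ∧
      (∀ l : ℕ, 2 * (X : ℝ) ^ (1 - β) < l → al l = 0) ∧
      BRepG α β X C B (fun n => Ff (kp B' X) (zt X) lam n - ∑ l ∈ n.divisors, al l) := by
  classical
  obtain ⟨B1, hB1⟩ := tsb_small (B + 3)
  refine ⟨max B1 1, fun B' hB' => ?_⟩
  have hB'1 : 1 ≤ B' := le_trans (le_max_right _ _) hB'
  obtain ⟨C1, hlow0⟩ := low_rep B' hB'1
  obtain ⟨C2, hhigh0⟩ := high_rep B' hB'1
  obtain ⟨C3, X3, hmid⟩ := mid_rep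
  refine ⟨max C1 (max C2 C3) + 3, fun α β h0 h1 h2 => ?_⟩
  obtain ⟨X1, hlow⟩ := hlow0 α β h0 h1 h2
  obtain ⟨X2, hhigh⟩ := hhigh0 α β h0 h1 h2
  obtain ⟨X4, hts⟩ := hB1 B' (le_trans (le_max_left _ _) hB')
  obtain ⟨X6, hpar⟩ := b_par α β h0 h1 h2 0
  obtain ⟨X7, hkp⟩ := kp_par B' hB'1
  refine ⟨X1 + X2 + X3 + X4 + X6 + X7, fun X hX lam hlam => ?_⟩
  obtain ⟨p1, p2, p3, p4, p5, p6, p7, p8, p9, p10, p11, p12, p13⟩ := hpar X (by omega)
  obtain ⟨k1, k2, k3, k4⟩ := hkp X (by omega)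
  rw [pow_zero, mul_one] at p9
  have hL4 : 4 ≤ Real.log X := by
    have : ((0 : ℕ) : ℝ) + 4 ≤ Real.log X := p2
    rw [Nat.cast_zero, zero_add] at this
    exact this
  have hL1 : 1 ≤ Real.log X := by linarith
  have hz1 : (1 : ℝ) ≤ zt X := by
    have : 1 ≤ zt X := by omega
    exact_mod_cast this
  have hXα0 : (0 : ℝ) < (X : ℝ) ^ α := by linarith
  -- the window lies above `2 X^α`
  have hab : 2 * (X : ℝ) ^ α ≤ (X : ℝ) ^ β := by
    refine le_trans ?_ p9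
    exact le_mul_of_one_le_right (by positivity) hz1
  have hb0 : (0 : ℝ) ≤ (X : ℝ) ^ β := by positivity
  have ha1b : 2 * (X : ℝ) ^ α ≤ 2 * (X : ℝ) ^ (1 - β) := by linarith
  set κ : ℝ := kp B' X with hκ
  set z : ℕ := zt X with hz
  set lam0 : ℕ → ℝ := lamN κ z lam with hlam0
  have hbd : ∀ m, |lam0 m| ≤ 2 ^ 13 := by
    intro m
    rw [hlam0]
    unfold lamN
    split_ifs
    · exact hlam.1 _
    · rw [abs_zero]
      norm_num
  have hsup : ∀ m, lam0 m ≠ 0 → Rgh z m ∧ (m : ℝ) < 2 * (X : ℝ) ^ (1 - β) := fun m hm =>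
    lamN_supp p1 k1 (by omega) k4 hlam hm
  set fL : ℕ → ℝ := fun m => if (m : ℝ) < 2 * (X : ℝ) ^ α then lam0 m else 0 with hfL
  set fM : ℕ → ℝ := fun m => if 2 * (X : ℝ) ^ α ≤ (m : ℝ) ∧ (m : ℝ) ≤ (X : ℝ) ^ β then lam0 m
    else 0 with hfM
  set fH : ℕ → ℝ := fun m => if (X : ℝ) ^ β < (m : ℝ) then lam0 m else 0 with hfH
  have hsplit : ∀ m, lam0 m = fL m + fM m + fH m := by
    intro m
    simp only [hfL, hfM, hfH]
    by_cases c1 : (m : ℝ) < 2 * (X : ℝ) ^ α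
    · rw [if_pos c1, if_neg (fun c => absurd c.1 (not_le.2 c1)),
        if_neg (not_lt.2 (c1.le.trans hab))]
      ring
    · by_cases c2 : (m : ℝ) ≤ (X : ℝ) ^ β
      · rw [if_neg c1, if_pos ⟨not_lt.1 c1, c2⟩, if_neg (not_lt.2 c2)]
        ring
      · rw [if_neg c1, if_neg (fun c => c2 c.2), if_pos (not_le.1 c2)]
        ring
  have hbL : ∀ m, |fL m| ≤ 2 ^ 13 := by
    intro m
    simp only [hfL]
    split_ifs
    · exact hbd m
    · rw [abs_zero]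
      norm_num
  have hbM : ∀ m, |fM m| ≤ 2 ^ 13 := by
    intro m
    simp only [hfM]
    split_ifs
    · exact hbd m
    · rw [abs_zero]
      norm_num
  have hbH : ∀ m, |fH m| ≤ 2 ^ 13 := by
    intro m
    simp only [hfH]
    split_ifs
    · exact hbd m
    · rw [abs_zero]
      norm_num
  have hsL : ∀ m, fL m ≠ 0 → Rgh z m ∧ (m : ℝ) < 2 * (X : ℝ) ^ α := by
    intro m hm
    simp only [hfL] at hm
    by_cases c1 : (m : ℝ) < 2 * (X : ℝ) ^ α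
    · rw [if_pos c1] at hm
      exact ⟨(hsup m hm).1, c1⟩
    · rw [if_neg c1] at hm
      exact absurd rfl hm
  have hsM : ∀ m, fM m ≠ 0 → (X : ℝ) ^ α < m ∧ (m : ℝ) ≤ (X : ℝ) ^ β := by
    intro m hm
    simp only [hfM] at hm
    by_cases c1 : 2 * (X : ℝ) ^ α ≤ (m : ℝ) ∧ (m : ℝ) ≤ (X : ℝ) ^ β
    · exact ⟨by linarith [c1.1], c1.2⟩
    · rw [if_neg c1] at hm
      exact absurd rfl hm
  have hsH : ∀ m, fH m ≠ 0 → Rgh z m ∧ (m : ℝ) < 2 * (X : ℝ) ^ (1 - β) := by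
    intro m hm
    simp only [hfH] at hm
    by_cases c1 : (X : ℝ) ^ β < (m : ℝ)
    · rw [if_pos c1] at hm
      exact hsup m hm
    · rw [if_neg c1] at hm
      exact absurd rfl hm
  set al : ℕ → ℝ := fun l => (if (l : ℝ) < 2 * (X : ℝ) ^ α then fL (ro z l) * mr (sm z l) else 0) +
    (if (l : ℝ) < 2 * (X : ℝ) ^ (1 - β) then fH (ro z l) * mr (sm z l) else 0) with hal
  have hone : ∀ (f : ℕ → ℝ) (Z : ℝ), (∀ m, |f m| ≤ 2 ^ 13) → ∀ l : ℕ,
      |if (l : ℝ) < Z then f (ro z l) * mr (sm z l) else 0| ≤ 2 ^ 13 := by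
    intro f Z hf l
    split_ifs
    · rw [abs_mul]
      calc |f (ro z l)| * |mr (sm z l)| ≤ 2 ^ 13 * 1 :=
            mul_le_mul (hf _) (mr_le _) (abs_nonneg _) (by norm_num)
        _ = 2 ^ 13 := mul_one _
    · rw [abs_zero]
      norm_num
  refine ⟨al, ?_, ?_, ?_⟩
  · intro l
    simp only [hal]
    refine (abs_add_le _ _).trans ((add_le_add (hone fL _ hbL l) (hone fH _ hbH l)).trans ?_)
    norm_num
  · intro l hl
    simp only [hal]
    rw [if_neg (not_lt.2 (ha1b.trans hl.le)), if_neg (not_lt.2 hl.le), add_zero]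
  · -- the five pieces
    have hC1 : C1 ≤ max C1 (max C2 C3) := le_max_left _ _
    have hC2 : C2 ≤ max C1 (max C2 C3) := (le_max_left _ _).trans (le_max_right _ _)
    have hC3 : C3 ≤ max C1 (max C2 C3) := (le_max_right _ _).trans (le_max_right _ _)
    have t1 : BRepG α β X (max C1 (max C2 C3)) (B + 3)
        (TBg κ z (Ac z fL (2 * (X : ℝ) ^ α))) :=
      brg_mono hL1 hC1 (hlow X (by omega) fL hbL (B + 3))
    have t3 : BRepG α β X (max C1 (max C2 C3)) (B + 3)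
        (TBg κ z (Ac z fH (2 * (X : ℝ) ^ (1 - β)))) :=
      brg_mono hL1 hC2 (hhigh X (by omega) fH hbH (B + 3))
    have t5 : BRepG α β X (max C1 (max C2 C3)) (B + 1)
        (fun n => ∑ m ∈ n.divisors, fM m * rg z (n / m)) :=
      brg_mono hL1 hC3 (hmid α β X (by omega) fM hbM hsM (B + 1))
    have t2 : BRepG α β X (max C1 (max C2 C3)) (B + 3)
        (fun n => TSg z (Ac z fL (2 * (X : ℝ) ^ α)) n - TBg κ z (Ac z fL (2 * (X : ℝ) ^ α)) n) :=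
      brg_small hL1 (hts X (by omega) z _ (fun l => ac_abs hbL l) (fun l hl => ac_sm hl))
    have t4 : BRepG α β X (max C1 (max C2 C3)) (B + 3)
        (fun n => TSg z (Ac z fH (2 * (X : ℝ) ^ (1 - β))) n -
          TBg κ z (Ac z fH (2 * (X : ℝ) ^ (1 - β))) n) :=
      brg_small hL1 (hts X (by omega) z _ (fun l => ac_abs hbH l) (fun l hl => ac_sm hl))
    have t12 := brg_add hL4 t1 t2
    have t34 := brg_add hL4 t3 t4
    have t14 := brg_add hL4 t12 t34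
    have t15 := brg_add hL4 t14 (brg_mono hL1 (Nat.le_add_right _ 2) t5)
    refine brg_congr (fun n hn hn' => ?_) t15
    have hn1 : 1 ≤ n := by
      have : (1 : ℝ) < n := lt_of_le_of_lt p13 hn
      have h3 : 1 < n := by exact_mod_cast this
      omega
    have e1 : Ff κ z lam n = ∑ m ∈ n.divisors, fL m * rg z (n / m) +
        ∑ m ∈ n.divisors, fM m * rg z (n / m) + ∑ m ∈ n.divisors, fH m * rg z (n / m) := by
      unfold Ff
      rw [← Finset.sum_add_distrib, ← Finset.sum_add_distrib]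
      refine Finset.sum_congr rfl fun m _ => ?_
      rw [← hlam0, hsplit m]
      ring
    have e2 := smo_id z fL (2 * (X : ℝ) ^ α) n hn1 hsL
    have e3 := smo_id z fH (2 * (X : ℝ) ^ (1 - β)) n hn1 hsH
    have e4 : ∑ l ∈ n.divisors, al l =
        ∑ l ∈ n.divisors, (if (l : ℝ) < 2 * (X : ℝ) ^ α then fL (ro z l) * mr (sm z l) else 0) +
        ∑ l ∈ n.divisors, (if (l : ℝ) < 2 * (X : ℝ) ^ (1 - β) then fH (ro z l) * mr (sm z l)
          else 0) := by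
      rw [← Finset.sum_add_distrib]
    rw [e1, e2, e3, e4]
    ring

end Pool.MP_dd84fd_nt.IY
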