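import Pool.Agent.Lib.MP_dd84fd_nt.IY.BTy2

/-!
# IY-BG (0.5 h): the function `G`

Proof. A non-zero term `(T, m)` of `Gg` has `m` simple of type `SX T`, `n/m` simple of type `T \ SX T`; the types are disjoint, so by `simp_mul` `n = m (n/m)` is simple of type `SX T ∪ (T \ SX T) = T` (`SX T ⊆ T`: `SX T` is the chosen witness of `gdT`, `T ∈ TT`). This gives `Gg_not`. For `n` simple only `T = ty n` contributes (if it is in `TT`: subset of `range NJ`, `#T ≤ 10`, `gdT`),
and then the inner sum is `1` (`one_split` with `S = SX T`). `SX_spec`: `Exists.choose_spec` and unfolding `St`, `dif_pos`.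
-/

set_option autoImplicit false

namespace Pool.MP_dd84fd_nt.IY

open Finset Pool.MP_dd84fd_nt.HX

theorem SX_spec {α β : ℝ} {B' X : ℕ} {T : Finset ℕ} (hT : T ∈ TT α β B' X) :
    SX α β B' X T ⊆ T ∧ α * Real.log X < sg (vlog (kp B' X) (zt X)) (SX α β B' X T) ∧
      sg (vlog (kp B' X) (zt X)) (SX α β B' X T) + 11 * kp B' X ≤ β * Real.log X := by
  classical
  unfold TT at hT
  rw [mem_filter] at hT
  have h := hT.2.2
  have e : SX α β B' X T = h.choose := by
    unfold SX St
    rw [dif_pos h]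
  rw [e]
  exact h.choose_spec


/-- a non-zero term of `Gg` belongs to a simple number of type `T` -/
private theorem bg_term {α β : ℝ} {B' X n : ℕ} {T : Finset ℕ} (hT : T ∈ TT α β B' X) (m : ℕ)
    (hm : m ∈ n.divisors) (h : tI (kp B' X) (zt X) (SX α β B' X T) m *
      tI (kp B' X) (zt X) (T \ SX α β B' X T) (n / m) ≠ 0) :
    Simp (kp B' X) (zt X) n ∧ ty (kp B' X) (zt X) n = T := by
  have h1 := left_ne_zero_of_mul h
  have h2 := right_ne_zero_of_mul h
  unfold tI at h1 h2
  have h1' : Simp (kp B' X) (zt X) m ∧ ty (kp B' X) (zt X) m = SX α β B' X T := by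
    by_contra hc
    exact h1 (if_neg hc)
  have h2' : Simp (kp B' X) (zt X) (n / m) ∧ ty (kp B' X) (zt X) (n / m) =
      T \ SX α β B' X T := by
    by_contra hc
    exact h2 (if_neg hc)
  have hd : Disjoint (ty (kp B' X) (zt X) m) (ty (kp B' X) (zt X) (n / m)) := by
    rw [h1'.2, h2'.2]
    exact disjoint_sdiff
  have h3 := simp_mul h1'.1 h2'.1 hd
  have hn : m * (n / m) = n := Nat.mul_div_cancel' (Nat.dvd_of_mem_divisors hm)
  rw [hn, h1'.2, h2'.2, union_sdiff_of_subset (SX_spec hT).1] at h3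
  exact h3

open Classical in
theorem Gg_simple {α β : ℝ} {B' X n : ℕ} {lam : Finset ℕ → ℝ} (h : Simp (kp B' X) (zt X) n)
    (hc : (ty (kp B' X) (zt X) n).card ≤ 10) (hJ : ty (kp B' X) (zt X) n ⊆ range (NJ B' X)) :
    Gg α β B' X lam n = if gdT (vlog (kp B' X) (zt X)) (kp B' X) (α * Real.log X)
      (β * Real.log X) (ty (kp B' X) (zt X) n) then
        ∑ S ∈ (ty (kp B' X) (zt X) n).powerset, lam S else 0 := by
  unfold Gg
  have h0 : ∀ T ∈ TT α β B' X, T ≠ ty (kp B' X) (zt X) n →
      (∑ S ∈ T.powerset, lam S) * ∑ m ∈ n.divisors, tI (kp B' X) (zt X) (SX α β B' X T) m *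
        tI (kp B' X) (zt X) (T \ SX α β B' X T) (n / m) = 0 := by
    intro T hT hne
    refine mul_eq_zero_of_right _ (sum_eq_zero fun m hm => ?_)
    by_contra hc'
    exact hne (bg_term hT m hm hc').2.symm
  split_ifs with hg
  · have hmem : ty (kp B' X) (zt X) n ∈ TT α β B' X := by
      unfold TT
      rw [mem_filter, mem_powerset]
      exact ⟨hJ, hc, hg⟩
    rw [sum_eq_single_of_mem _ hmem (fun T hT hne => h0 T hT hne),
      one_split h (SX_spec hmem).1, mul_one]
  · refine sum_eq_zero fun T hT => ?_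
    refine h0 T hT ?_
    rintro rfl
    unfold TT at hT
    rw [mem_filter] at hT
    exact hg hT.2.2

theorem Gg_not {α β : ℝ} {B' X n : ℕ} {lam : Finset ℕ → ℝ} (hn : n ≠ 0)
    (h : ¬ Simp (kp B' X) (zt X) n) : Gg α β B' X lam n = 0 := by
  unfold Gg
  refine sum_eq_zero fun T hT => ?_
  refine mul_eq_zero_of_right _ (sum_eq_zero fun m hm => ?_)
  by_contra hc'
  exact h (bg_term hT m hm hc').1

end Pool.MP_dd84fd_nt.IY
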