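import Pool.Agent.Lib.MP_dd84fd_nt.IY.BRep
import Pool.Agent.Lib.MP_dd84fd_nt.IY.BG
import Pool.Agent.Lib.MP_dd84fd_nt.IY.BTy3
import Pool.Agent.Lib.MP_dd84fd_nt.IY.BPar

/-!
# IY-BGr (0.6 h): `G` is a short bilinear sum

Proof. `brg_sum` with `s = TT α β B' X`, `a T m = (Σ_{S ⊆ T} lam S) tI (SX T) m`, `c T k = tI (T \ SX T) k`. `|a| ≤ 2^10 2^13 = 2^23 ≤ log X ≤ (log X)^C` (`#T ≤ 10`), `|c| ≤ 1`. Window: `tI (SX T) m ≠ 0`: `m` simple, `ty m = SX T ⊆ T`, `#ty m ≤ 8`, `sg_ty` and `SX_spec`: `log m ≥ sg > α log X`, `log m ≤ sg + 8 κ < β log X`.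
`#TT ≤ Σ_{i ≤ 8} C(NJ, i) ≤ 9 NJ^8` (subsets of `range NJ` with `≤ 8` elements: `Finset.powersetCard`, `Nat.choose_le_pow`...), `NJ ≤ 2 (log X)^(B'+1)`, so `≤ (log X)^(8 B' + 10)` for large `X`. (`powerset.filter (card ≤ 10) ⊆ (range 11).biUnion powersetCard`.)
-/

set_option autoImplicit false

namespace Pool.MP_dd84fd_nt.IY

open Finset Pool.MP_dd84fd_nt.HX

theorem BGr_tI_abs (κ : ℝ) (z : ℕ) (S : Finset ℕ) (m : ℕ) : |tI κ z S m| ≤ 1 := by
  unfold tI
  split_ifs <;> simp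

theorem BGr_tI_ne {κ : ℝ} {z : ℕ} {S : Finset ℕ} {m : ℕ} (h : tI κ z S m ≠ 0) :
    Simp κ z m ∧ ty κ z m = S := by
  unfold tI at h
  split_ifs at h with h'
  · exact h'
  · exact absurd rfl h

theorem BGr_choose (N i : ℕ) (hN : 1 ≤ N) (hi : i ≤ 10) : N.choose i ≤ N ^ 10 :=
  (Nat.choose_le_pow N i).trans (Nat.pow_le_pow_right hN hi)

theorem BGr_card (α β : ℝ) (B' X : ℕ) (hN : 1 ≤ NJ B' X) :
    (TT α β B' X).card ≤ 11 * NJ B' X ^ 10 := by
  classical
  have hsub : TT α β B' X ⊆ (range 11).biUnion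
      (fun i => Finset.powersetCard i (range (NJ B' X))) := by
    intro T hT
    unfold TT at hT
    rw [Finset.mem_filter, Finset.mem_powerset] at hT
    rw [Finset.mem_biUnion]
    exact ⟨T.card, Finset.mem_range.mpr (by omega), Finset.mem_powersetCard.mpr ⟨hT.1, rfl⟩⟩
  calc (TT α β B' X).card ≤ ((range 11).biUnion
        (fun i => Finset.powersetCard i (range (NJ B' X)))).card := Finset.card_le_card hsub
    _ ≤ ∑ i ∈ range 11, (Finset.powersetCard i (range (NJ B' X))).card :=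
        Finset.card_biUnion_le
    _ ≤ ∑ _i ∈ range 11, NJ B' X ^ 10 := by
        refine Finset.sum_le_sum fun i hi => ?_
        rw [Finset.card_powersetCard, Finset.card_range]
        exact BGr_choose _ _ hN (by have := Finset.mem_range.mp hi; omega)
    _ = 11 * NJ B' X ^ 10 := by simp

theorem gg_rep (B' : ℕ) (hB : 1 ≤ B') : ∃ C : ℕ, ∀ α β : ℝ, 0 < α → α + 1 / 10 < β →
    β < 1 / 2 → ∃ X0 : ℕ, ∀ X : ℕ, X0 ≤ X → ∀ lam : Finset ℕ → ℝ,
    (∀ S, |lam S| ≤ 2 ^ 13) → ∀ B : ℕ, BRepG α β X C B (Gg α β B' X lam) := by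
  classical
  obtain ⟨X1, hX1⟩ := kp_par B' hB
  have hlog : Filter.Tendsto (fun n : ℕ => Real.log (n : ℝ)) Filter.atTop Filter.atTop :=
    Real.tendsto_log_atTop.comp tendsto_natCast_atTop_atTop
  obtain ⟨X2, hX2⟩ := Filter.tendsto_atTop_atTop.mp hlog ((2 : ℝ) ^ 24)
  refine ⟨10 * B' + 12, fun α β h0 h1 h2 => ⟨max (max X1 X2) 3, fun X hX lam hlam B => ?_⟩⟩
  have hXX1 : X1 ≤ X := le_trans (le_trans (le_max_left _ _) (le_max_left _ _)) hX
  have hXX2 : X2 ≤ X := le_trans (le_trans (le_max_right _ _) (le_max_left _ _)) hX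
  have hX3 : 3 ≤ X := le_trans (le_max_right _ _) hX
  have hL : (2 : ℝ) ^ 24 ≤ Real.log X := hX2 X hXX2
  have hXpos : (0 : ℝ) < X := by
    have : 0 < X := by omega
    exact_mod_cast this
  obtain ⟨hk0, -, -, -⟩ := hX1 X hXX1
  have hz1 : 1 ≤ zt X := by
    unfold zt
    exact Nat.one_le_iff_ne_zero.mpr (Nat.ceil_pos.mpr (Real.rpow_pos_of_pos hXpos _)).ne'
  have hL1 : (1 : ℝ) ≤ Real.log X := le_trans (by norm_num) hL
  have hL0 : (0 : ℝ) < Real.log X := lt_of_lt_of_le one_pos hL1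
  -- bound for the number of types
  have hNJ1 : 1 ≤ NJ B' X := by unfold NJ; omega
  have hNJ : (NJ B' X : ℝ) ≤ 2 * (Real.log X) ^ (B' + 1) := by
    unfold NJ
    push_cast
    have h3 : ((⌊(Real.log X) ^ (B' + 1)⌋₊ : ℕ) : ℝ) ≤ (Real.log X) ^ (B' + 1) :=
      Nat.floor_le (by positivity)
    have h4 : (1 : ℝ) ≤ (Real.log X) ^ (B' + 1) := one_le_pow₀ hL1
    linarith
  have hcard : ((TT α β B' X).card : ℝ) ≤ (Real.log X) ^ (10 * B' + 12) := by
    have h3 : ((TT α β B' X).card : ℝ) ≤ 11 * (NJ B' X : ℝ) ^ 10 := by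
      exact_mod_cast BGr_card α β B' X hNJ1
    have h4 : (NJ B' X : ℝ) ^ 10 ≤ (2 * (Real.log X) ^ (B' + 1)) ^ 10 :=
      pow_le_pow_left₀ (Nat.cast_nonneg _) hNJ 10
    have h5 : (2 * (Real.log X) ^ (B' + 1)) ^ 10 = 1024 * (Real.log X) ^ (10 * B' + 10) := by
      rw [mul_pow, ← pow_mul]
      norm_num
      ring
    have h6 : (Real.log X) ^ (10 * B' + 12) = (Real.log X) ^ 2 * (Real.log X) ^ (10 * B' + 10) := by
      ring
    have h7 : (11264 : ℝ) ≤ (Real.log X) ^ 2 := by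
      nlinarith
    have h8 : 0 ≤ (Real.log X) ^ (10 * B' + 10) := by positivity
    rw [h6]
    calc ((TT α β B' X).card : ℝ) ≤ 11 * (NJ B' X : ℝ) ^ 10 := h3
      _ ≤ 11 * (1024 * (Real.log X) ^ (10 * B' + 10)) := by rw [← h5]; linarith
      _ = 11264 * (Real.log X) ^ (10 * B' + 10) := by ring
      _ ≤ (Real.log X) ^ 2 * (Real.log X) ^ (10 * B' + 10) :=
          mul_le_mul_of_nonneg_right h7 h8
  have hLC : Real.log X ≤ (Real.log X) ^ (10 * B' + 12) := by
    calc Real.log X = (Real.log X) ^ 1 := (pow_one _).symm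
      _ ≤ (Real.log X) ^ (10 * B' + 12) := pow_le_pow_right₀ hL1 (by omega)
  have hTc : ∀ T ∈ TT α β B' X, T.card ≤ 10 := by
    intro T hT
    unfold TT at hT
    exact (Finset.mem_filter.mp hT).2.1
  -- the bilinear sum
  have key := brg_sum (α := α) (β := β) (B := B) hL1 (TT α β B' X) hcard
    (fun T m => (∑ S ∈ T.powerset, lam S) * tI (kp B' X) (zt X) (SX α β B' X T) m)
    (fun T k => tI (kp B' X) (zt X) (T \ SX α β B' X T) k) ?_ ?_
  · refine brg_congr (fun n _ _ => ?_) key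
    unfold Gg
    refine Finset.sum_congr rfl fun T _ => ?_
    rw [Finset.mul_sum]
    refine Finset.sum_congr rfl fun m _ => ?_
    ring
  · intro T hT n
    constructor
    · have hs : |∑ S ∈ T.powerset, lam S| ≤ 2 ^ 23 := by
        calc |∑ S ∈ T.powerset, lam S| ≤ ∑ S ∈ T.powerset, |lam S| :=
              Finset.abs_sum_le_sum_abs _ _
          _ ≤ ∑ _S ∈ T.powerset, (2 : ℝ) ^ 13 := Finset.sum_le_sum fun S _ => hlam S
          _ = (2 : ℝ) ^ T.card * 2 ^ 13 := by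
              rw [Finset.sum_const, Finset.card_powerset, nsmul_eq_mul]
              push_cast
              ring
          _ ≤ (2 : ℝ) ^ 10 * 2 ^ 13 :=
              mul_le_mul_of_nonneg_right (pow_le_pow_right₀ (by norm_num) (hTc T hT))
                (by norm_num)
          _ = 2 ^ 23 := by norm_num
      have ht := BGr_tI_abs (kp B' X) (zt X) (SX α β B' X T) n
      calc |(∑ S ∈ T.powerset, lam S) * tI (kp B' X) (zt X) (SX α β B' X T) n|
          = |∑ S ∈ T.powerset, lam S| * |tI (kp B' X) (zt X) (SX α β B' X T) n| :=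
            abs_mul _ _
        _ ≤ 2 ^ 23 * 1 := mul_le_mul hs ht (abs_nonneg _) (by norm_num)
        _ ≤ (2 : ℝ) ^ 24 := by norm_num
        _ ≤ Real.log X := hL
        _ ≤ (Real.log X) ^ (10 * B' + 12) := hLC
    · calc |tI (kp B' X) (zt X) (T \ SX α β B' X T) n| ≤ 1 := BGr_tI_abs _ _ _ _
        _ ≤ Real.log X := hL1
        _ ≤ (Real.log X) ^ (10 * B' + 12) := hLC
  · intro T hT m hm
    have ht : tI (kp B' X) (zt X) (SX α β B' X T) m ≠ 0 := right_ne_zero_of_mul hm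
    obtain ⟨hS, hty⟩ := BGr_tI_ne ht
    obtain ⟨hsub, hlo, hhi⟩ := SX_spec hT
    obtain ⟨h3, h4⟩ := sg_ty hk0 hz1 hS
    rw [hty] at h3 h4
    have hc8 : ((SX α β B' X T).card : ℝ) ≤ 10 := by
      have := (Finset.card_le_card hsub).trans (hTc T hT)
      exact_mod_cast this
    have hm0 : (0 : ℝ) < m := by
      have := hS.1.1
      exact_mod_cast Nat.pos_of_ne_zero this
    have hXa : (X : ℝ) ^ α = Real.exp (α * Real.log X) := by
      rw [Real.rpow_def_of_pos hXpos, mul_comm]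
    have hXb : (X : ℝ) ^ β = Real.exp (β * Real.log X) := by
      rw [Real.rpow_def_of_pos hXpos, mul_comm]
    constructor
    · rw [hXa]
      exact (Real.lt_log_iff_exp_lt hm0).mp (lt_of_lt_of_le hlo h3)
    · rw [hXb]
      refine (Real.log_le_iff_le_exp hm0).mp ?_
      have h5 : kp B' X * ((SX α β B' X T).card : ℝ) ≤ kp B' X * 10 :=
        mul_le_mul_of_nonneg_left hc8 hk0.le
      linarith

end Pool.MP_dd84fd_nt.IY
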