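import Pool.Agent.Lib.MP_dd84fd_nt.IY.BF
import Pool.Agent.Lib.MP_dd84fd_nt.IY.BTy3
import Pool.Agent.Lib.MP_dd84fd_nt.IY.BPar
import Pool.Agent.Lib.MP_dd84fd_nt.HX.DcEE
import Pool.Agent.Lib.MP_dd84fd_nt.E2.MinorP

/-!
# IY-BNs (0.7 h): rough numbers which are not simple are rare

Proof. `|Nsf| ≤ 2^13 2^10 = 2^23` (`Ff_abs`, `card_div`) and `Nsf ≠ 0` only if `n` is rough and (a) `p² ∣ n` for a prime `p ≥ z` (not squarefree), or (b) two primes `q < p` dividing `n` lie in the same box, so `log p < log q + κ` (`vlog_bx`). (a): at most `Σ_{p ≥ z} X/p² ≤ 2 X/z` numbers. (b): at most `4 κ X (1 + log X)` numbers: exactly the argument of `HX.ee_card` (DcEE), with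
`HX.cnt_near` and `HX.sum_inv_Icc`: the number of `n ≤ X` with a pair `q < p < q e^κ`, `p q ∣ n`. Total `2^46 (4 κ X (1 + L) + 2 X/z) ≤ X / L^B` for `κ = L^(-B')`, `B' ≥ B + 2`, `X` large.
-/

set_option autoImplicit false

namespace Pool.MP_dd84fd_nt.IY

open Finset Pool.MP_dd84fd_nt.HX

private def BNs_P (κ : ℝ) (n : ℕ) : Prop :=
  ∃ p : ℕ, p ∈ n.primeFactors ∧ ∃ q : ℕ, q ∈ n.primeFactors ∧ q < p ∧ (p : ℝ) < q * Real.exp κ

open Classical in
private theorem BNs_near (κ : ℝ) (X : ℕ) (h0 : 0 < κ) (h1 : κ ≤ 1) :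
    (((Icc 1 X).filter (fun n => BNs_P κ n)).card : ℝ) ≤ 4 * κ * X * (1 + Real.log X) := by
  have hsub : (Icc 1 X).filter (fun n => BNs_P κ n) ⊆
      (Icc 1 X).biUnion fun q => ((Ioc q X).filter (fun p : ℕ => (p : ℝ) < q * Real.exp κ)).biUnion
        fun p => (Ioc 0 X).filter (fun n => p * q ∣ n) := by
    intro n hn
    rw [mem_filter, mem_Icc] at hn
    obtain ⟨⟨hn1, hnX⟩, p, hp, q, hq, hqp, hcl⟩ := hn
    have hpp := Nat.prime_of_mem_primeFactors hp
    have hqq := Nat.prime_of_mem_primeFactors hq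
    have hpn := Nat.dvd_of_mem_primeFactors hp
    have hqn := Nat.dvd_of_mem_primeFactors hq
    have hpX : p ≤ X := (Nat.le_of_dvd (by omega) hpn).trans hnX
    rw [mem_biUnion]
    refine ⟨q, mem_Icc.2 ⟨hqq.one_le, by omega⟩, ?_⟩
    rw [mem_biUnion]
    refine ⟨p, ?_, ?_⟩
    · rw [mem_filter, mem_Ioc]
      exact ⟨⟨hqp, hpX⟩, hcl⟩
    · rw [mem_filter, mem_Ioc]
      refine ⟨⟨by omega, hnX⟩, ?_⟩
      exact Nat.Coprime.mul_dvd_of_dvd_of_dvd ((Nat.coprime_primes hpp hqq).2 (by omega)) hpn hqn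
  have hmul : ∀ p q : ℕ, (((Ioc 0 X).filter (fun n => p * q ∣ n)).card : ℝ) ≤
      X / ((p : ℝ) * q) := by
    intro p q
    rw [Nat.Ioc_filter_dvd_card_eq_div]
    refine Nat.cast_div_le.trans ?_
    push_cast
    exact le_refl _
  have hX0 : (0 : ℝ) ≤ X := Nat.cast_nonneg X
  have h3 : (((Icc 1 X).filter (fun n => BNs_P κ n)).card : ℝ) ≤
      ∑ q ∈ Icc 1 X, ∑ p ∈ (Ioc q X).filter (fun p : ℕ => (p : ℝ) < q * Real.exp κ),
        X / ((p : ℝ) * q) := by
    have h4 := (card_le_card hsub).trans card_biUnion_le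
    have h5 : (((Icc 1 X).filter (fun n => BNs_P κ n)).card : ℝ) ≤
        ∑ q ∈ Icc 1 X, ((((Ioc q X).filter (fun p : ℕ => (p : ℝ) < q * Real.exp κ)).biUnion
        fun p => (Ioc 0 X).filter (fun n => p * q ∣ n)).card : ℝ) := by exact_mod_cast h4
    refine h5.trans (sum_le_sum fun q _ => ?_)
    have h6 : ((((Ioc q X).filter (fun p : ℕ => (p : ℝ) < q * Real.exp κ)).biUnion
        fun p => (Ioc 0 X).filter (fun n => p * q ∣ n)).card : ℝ) ≤
        ∑ p ∈ (Ioc q X).filter (fun p : ℕ => (p : ℝ) < q * Real.exp κ),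
          (((Ioc 0 X).filter (fun n => p * q ∣ n)).card : ℝ) := by exact_mod_cast card_biUnion_le
    exact h6.trans (sum_le_sum fun p _ => hmul p q)
  refine h3.trans ?_
  have h7 : ∀ q ∈ Icc 1 X, ∑ p ∈ (Ioc q X).filter (fun p : ℕ => (p : ℝ) < q * Real.exp κ),
      X / ((p : ℝ) * q) ≤ 2 * κ * X * (1 / (q : ℝ)) := by
    intro q hq
    have hq1 : 1 ≤ q := (mem_Icc.1 hq).1
    have hq0 : (0 : ℝ) < q := by exact_mod_cast hq1
    calc ∑ p ∈ (Ioc q X).filter (fun p : ℕ => (p : ℝ) < q * Real.exp κ), X / ((p : ℝ) * q)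
        ≤ ∑ p ∈ (Ioc q X).filter (fun p : ℕ => (p : ℝ) < q * Real.exp κ), X / ((q : ℝ) * q) := by
          refine sum_le_sum fun p hp => ?_
          rw [mem_filter, mem_Ioc] at hp
          have : (q : ℝ) ≤ p := by exact_mod_cast hp.1.1.le
          gcongr
      _ = (((Ioc q X).filter (fun p : ℕ => (p : ℝ) < q * Real.exp κ)).card : ℝ) *
          (X / ((q : ℝ) * q)) := by rw [sum_const, nsmul_eq_mul]
      _ ≤ (2 * κ * q) * (X / ((q : ℝ) * q)) := by
          gcongr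
          exact cnt_near κ h0 h1 q X
      _ = 2 * κ * X * (1 / (q : ℝ)) := by field_simp
  refine (sum_le_sum h7).trans ?_
  rw [← mul_sum]
  have h8 := sum_inv_Icc X
  have h9 : 0 ≤ ∑ q ∈ Icc 1 X, (1 : ℝ) / q := sum_nonneg fun _ _ => by positivity
  have h10 : 0 ≤ 2 * κ * (X : ℝ) := by positivity
  calc 2 * κ * (X : ℝ) * ∑ q ∈ Icc 1 X, (1 : ℝ) / q ≤ 2 * κ * X * (1 + Real.log X) := by gcongr
    _ ≤ 4 * κ * X * (1 + Real.log X) := by
        have h11 : 0 ≤ 1 + Real.log (X : ℝ) := by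
          have := Real.log_natCast_nonneg X
          linarith
        nlinarith [mul_nonneg h10 h11]

open Classical in
private theorem BNs_sq (z X : ℕ) (hz : 1 ≤ z) :
    (((Icc 1 X).filter (fun n => ∃ p, z ≤ p ∧ p * p ∣ n)).card : ℝ) ≤ X * (2 / z) := by
  have hsub : (Icc 1 X).filter (fun n => ∃ p, z ≤ p ∧ p * p ∣ n) ⊆
      (Ioo (z - 1) (X + 1)).biUnion fun p => (Ioc 0 X).filter (fun n => p * p ∣ n) := by
    intro n hn
    rw [mem_filter, mem_Icc] at hn
    obtain ⟨⟨hn1, hnX⟩, p, hp, hpn⟩ := hn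
    have h1 : p * p ≤ n := Nat.le_of_dvd (by omega) hpn
    have h2 : p ≤ p * p := Nat.le_mul_self p
    rw [mem_biUnion]
    refine ⟨p, mem_Ioo.2 ⟨by omega, by omega⟩, ?_⟩
    rw [mem_filter, mem_Ioc]
    exact ⟨⟨by omega, hnX⟩, hpn⟩
  have h1 := (card_le_card hsub).trans card_biUnion_le
  have h2 : (((Icc 1 X).filter (fun n => ∃ p, z ≤ p ∧ p * p ∣ n)).card : ℝ) ≤
      ∑ p ∈ Ioo (z - 1) (X + 1), (((Ioc 0 X).filter (fun n => p * p ∣ n)).card : ℝ) := by
    exact_mod_cast h1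
  refine h2.trans ?_
  have h3 : ∀ p ∈ Ioo (z - 1) (X + 1), (((Ioc 0 X).filter (fun n => p * p ∣ n)).card : ℝ) ≤
      X * ((p : ℝ) ^ 2)⁻¹ := by
    intro p _
    rw [Nat.Ioc_filter_dvd_card_eq_div]
    refine Nat.cast_div_le.trans ?_
    push_cast
    rw [pow_two, div_eq_mul_inv]
  refine (sum_le_sum h3).trans ?_
  rw [← mul_sum]
  have h4 := sum_Ioo_inv_sq_le (α := ℝ) (z - 1) (X + 1)
  have h5 : (((z - 1 : ℕ) : ℝ) + 1) = z := by
    rw [Nat.cast_sub hz]
    push_cast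
    ring
  rw [h5] at h4
  exact mul_le_mul_of_nonneg_left h4 (Nat.cast_nonneg X)

theorem nsf_small (B : ℕ) : ∃ B0 : ℕ, ∀ B' : ℕ, B0 ≤ B' → ∃ X0 : ℕ, ∀ X : ℕ, X0 ≤ X →
    ∀ lam : Finset ℕ → ℝ, (∀ S, |lam S| ≤ 2 ^ 13) →
    ∑ n ∈ Icc 1 X, Nsf (kp B' X) (zt X) lam n ^ 2 ≤ X / (Real.log X) ^ B := by
  classical
  refine ⟨B + 2, fun B' hB' => ?_⟩
  obtain ⟨X1, hX1⟩ := b_par (1 / 8) (3 / 8) (by norm_num) (by norm_num) (by norm_num) 0
  obtain ⟨X2, hX2⟩ := kp_par B' (by omega)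
  obtain ⟨X3, hX3⟩ := Pool.MP_dd84fd_nt.E2.MP_log_large (2 ^ 50)
  obtain ⟨X4, hX4⟩ := Pool.MP_dd84fd_nt.E2.MP_log_pow (2 ^ 48) B (ε := 1 / 10) (by norm_num)
  refine ⟨max (max X1 X2) (max X3 X4), fun X hX lam hlam => ?_⟩
  have hXX1 : X1 ≤ X := ((le_max_left _ _).trans (le_max_left _ _)).trans hX
  have hXX2 : X2 ≤ X := ((le_max_right _ _).trans (le_max_left _ _)).trans hX
  have hXX3 : X3 ≤ X := ((le_max_left _ _).trans (le_max_right _ _)).trans hX
  have hXX4 : X4 ≤ X := ((le_max_right _ _).trans (le_max_right _ _)).trans hX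
  obtain ⟨hX1', -, -, hz2, hz8, -, hz9, -⟩ := hX1 X hXX1
  obtain ⟨hκ, hκ1, -, -⟩ := hX2 X hXX2
  have hL := hX3 X hXX3
  have hP := hX4 X hXX4
  set L := Real.log (X : ℝ) with hLdef
  set κ := kp B' X with hκdef
  set z := zt X with hzdef
  have hL0 : 0 < L := lt_of_lt_of_le (by norm_num) hL
  have hL1 : 1 ≤ L := le_trans (by norm_num) hL
  have hX0 : (0 : ℝ) < X := by exact_mod_cast hX1'
  have hz1 : 1 ≤ z := by omega
  have hz0 : (0 : ℝ) < z := by exact_mod_cast hz1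
  -- the pointwise bound
  set Sa := (Icc 1 X).filter (fun n => BNs_P κ n) with hSa
  set Sb := (Icc 1 X).filter (fun n => ∃ p, z ≤ p ∧ p * p ∣ n) with hSb
  have hpt : ∀ n ∈ Icc 1 X, Nsf κ z lam n ^ 2 ≤
      if n ∈ Sa ∪ Sb then (2 : ℝ) ^ 46 else 0 := by
    intro n hn
    by_cases h : Rgh z n ∧ ¬ Simp κ z n
    · have hmem : n ∈ Sa ∪ Sb := by
        rw [mem_union]
        by_cases hsq : Squarefree n
        · left
          have h2 : ¬ ∀ p ∈ n.primeFactors, ∀ q ∈ n.primeFactors,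
              bx κ z p = bx κ z q → p = q := fun h3 => h.2 ⟨h.1, hsq, h3⟩
          push Not at h2
          obtain ⟨p, hp, q, hq, hpq, hne⟩ := h2
          have key : ∀ p ∈ n.primeFactors, ∀ q ∈ n.primeFactors, bx κ z p = bx κ z q →
              (p : ℝ) < q * Real.exp κ := by
            intro p hp q hq hpq
            have hpz : (z : ℝ) ≤ p := by exact_mod_cast h.1.2 p hp
            have hqz : (z : ℝ) ≤ q := by exact_mod_cast h.1.2 q hq
            have a1 := (vlog_bx hκ hz1 hpz).2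
            have a2 := (vlog_bx hκ hz1 hqz).1
            rw [hpq] at a1
            have a3 : Real.log p < Real.log q + κ := by linarith
            have hp0 : (0 : ℝ) < p := by linarith
            have hq0 : (0 : ℝ) < q := by linarith
            calc (p : ℝ) = Real.exp (Real.log p) := (Real.exp_log hp0).symm
              _ < Real.exp (Real.log q + κ) := Real.exp_lt_exp.2 a3
              _ = q * Real.exp κ := by rw [Real.exp_add, Real.exp_log hq0]
          rw [hSa, mem_filter]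
          refine ⟨hn, ?_⟩
          rcases lt_or_gt_of_ne hne with h4 | h4
          · exact ⟨q, hq, p, hp, h4, key q hq p hp hpq.symm⟩
          · exact ⟨p, hp, q, hq, h4, key p hp q hq hpq⟩
        · right
          rw [Nat.squarefree_iff_prime_squarefree] at hsq
          push Not at hsq
          obtain ⟨p, hp, hpn⟩ := hsq
          rw [hSb, mem_filter]
          refine ⟨hn, p, ?_, hpn⟩
          refine h.1.2 p ?_
          rw [Nat.mem_primeFactors]
          exact ⟨hp, dvd_of_mul_left_dvd hpn, h.1.1⟩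
      rw [if_pos hmem]
      unfold Nsf
      rw [if_pos h]
      have b1 := Ff_abs (κ := κ) (z := z) (n := n) hlam
      have b2 := card_div hz1 h.1 (mem_Icc.1 hn).2 hz9
      have b3 : |Ff κ z lam n| ≤ 2 ^ 23 := by
        refine b1.trans ?_
        have b4 : (n.divisors.card : ℝ) ≤ 2 ^ 10 := by exact_mod_cast b2
        calc (2 : ℝ) ^ 13 * n.divisors.card ≤ 2 ^ 13 * 2 ^ 10 := by gcongr
          _ = 2 ^ 23 := by norm_num
      calc Ff κ z lam n ^ 2 = |Ff κ z lam n| ^ 2 := (sq_abs _).symm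
        _ ≤ (2 ^ 23) ^ 2 := by gcongr
        _ = 2 ^ 46 := by norm_num
    · unfold Nsf
      rw [if_neg h]
      split_ifs <;> norm_num
  have hsum : ∑ n ∈ Icc 1 X, Nsf κ z lam n ^ 2 ≤ 2 ^ 46 * ((Sa.card : ℝ) + Sb.card) := by
    refine (sum_le_sum hpt).trans ?_
    rw [← sum_filter, sum_const, nsmul_eq_mul, mul_comm]
    have c1 : ((Icc 1 X).filter (fun n => n ∈ Sa ∪ Sb)).card ≤ Sa.card + Sb.card := by
      refine (card_le_card ?_).trans (card_union_le _ _)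
      intro n hn
      exact (mem_filter.1 hn).2
    have c2 : (((Icc 1 X).filter (fun n => n ∈ Sa ∪ Sb)).card : ℝ) ≤ (Sa.card : ℝ) + Sb.card := by
      exact_mod_cast c1
    gcongr
  refine hsum.trans ?_
  have hA := BNs_near κ X hκ (by linarith)
  have hB := BNs_sq z X hz1
  rw [← hSa, ← hLdef] at hA
  rw [← hSb] at hB
  have hLB : 0 < L ^ B := pow_pos hL0 _
  -- the two parts
  have p1 : 2 ^ 46 * (4 * κ * X * (1 + L)) ≤ X / L ^ B / 2 := by
    have q1 : κ ≤ 1 / L ^ (B + 2) := by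
      rw [hκdef]
      unfold kp
      rw [← hLdef]
      exact one_div_le_one_div_of_le (pow_pos hL0 _) (pow_le_pow_right₀ hL1 hB')
    have q2 : 1 + L ≤ 2 * L := by linarith
    calc 2 ^ 46 * (4 * κ * X * (1 + L)) ≤ 2 ^ 46 * (4 * (1 / L ^ (B + 2)) * X * (2 * L)) := by
          gcongr
      _ = X / L ^ B * (2 ^ 49 / L) := by
          rw [pow_add]
          field_simp
          norm_num
      _ ≤ X / L ^ B * (1 / 2) := by
          refine mul_le_mul_of_nonneg_left ?_ (by positivity)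
          rw [div_le_iff₀ hL0]
          linarith
      _ = X / L ^ B / 2 := by ring
  have p2 : 2 ^ 46 * (X * (2 / (z : ℝ))) ≤ X / L ^ B / 2 := by
    have q1 : 2 ^ 48 * L ^ B ≤ z := hP.trans hz8
    have q2 : 1 / (z : ℝ) ≤ 1 / (2 ^ 48 * L ^ B) :=
      one_div_le_one_div_of_le (by positivity) q1
    calc 2 ^ 46 * (X * (2 / (z : ℝ))) = 2 ^ 47 * X * (1 / z) := by ring
      _ ≤ 2 ^ 47 * X * (1 / (2 ^ 48 * L ^ B)) := by gcongr
      _ = X / L ^ B / 2 := by
          field_simp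
  calc 2 ^ 46 * ((Sa.card : ℝ) + Sb.card) ≤ 2 ^ 46 * (4 * κ * X * (1 + L) + X * (2 / (z : ℝ))) := by
        gcongr
    _ = 2 ^ 46 * (4 * κ * X * (1 + L)) + 2 ^ 46 * (X * (2 / (z : ℝ))) := by ring
    _ ≤ X / L ^ B := by linarith

end Pool.MP_dd84fd_nt.IY
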