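import Pool.Agent.Lib.MP_dd84fd_nt.IY.BId
import Pool.Agent.Lib.MP_dd84fd_nt.IY.BNs
import Pool.Agent.Lib.MP_dd84fd_nt.IY.BGr
import Pool.Agent.Lib.MP_dd84fd_nt.IY.BFr
import Pool.Agent.Lib.MP_dd84fd_nt.IY.BBlk
import Pool.Agent.Lib.MP_dd84fd_nt.IY.BTy4

/-!
# IY-BDec (0.6 h): (W2) for the type functions

Proof. `w = [n > X5] (Ff - Gg - Nsf)` (`wty_id`), `Ff = Σ_{l ∣ n} al l + F2`, so `w = γ(n) Σ_{l ∣ n} al l + [n > X5] F3`, `γ(n) = [n > X5]` (`0 ≤ γ ≤ 1`, total variation `≤ 1`), `F3 = F2 - Gg - Nsf`: `BRepG` by `ff_rep (B+5)`, `gg_rep`, `brg_small`/`nsf_small (B+5)`, `brg_neg`, `brg_add`; `blk` gives the blocks. `I` = maximum of `1` and the number of blocks: use `I_blocks + 1` pieces, `γ 0 = γ`, `γ i = 0` for `i ≥ 1` and `al i = 0` for `i ≥ 1`;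
the last block piece is `0` with `M = M_0`... (take `M I = ⌈X^α/2⌉`, `K = 0`, `a = 0`). `|al| ≤ 2^14 ≤ (log X)^C2`.
-/

set_option autoImplicit false

namespace Pool.MP_dd84fd_nt.IY

open Finset Pool.MP_dd84fd_nt.HX

theorem BDec_tv (f : ℕ → ℝ) (h0 : ∀ n, 0 ≤ f n) (h1 : ∀ n, f n ≤ 1) (hm : ∀ n, f n ≤ f (n + 1))
    (X : ℕ) : ∑ n ∈ Ico 1 X, |f (n + 1) - f n| ≤ 1 := by
  have key : ∀ m : ℕ, ∑ n ∈ Ico 1 (m + 1), |f (n + 1) - f n| = f (m + 1) - f 1 := by
    intro m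
    induction m with
    | zero => simp
    | succ m ih =>
      rw [Finset.sum_Ico_succ_top (by omega), ih, abs_of_nonneg (sub_nonneg.2 (hm _))]
      ring
  rcases Nat.eq_zero_or_pos X with rfl | hX
  · simp
  · obtain ⟨m, rfl⟩ : ∃ m, X = m + 1 := ⟨X - 1, by omega⟩
    rw [key]
    linarith [h0 1, h1 (m + 1)]

theorem decG_types (B : ℕ) : ∃ B0 : ℕ, ∀ B' : ℕ, B0 ≤ B' → ∃ C2 : ℕ, ∀ α β : ℝ, 0 < α →
    α + 1 / 10 < β → β < 1 / 2 → ∀ lam : ℕ → Finset ℕ → ℝ,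
    (∃ X1 : ℕ, ∀ X : ℕ, X1 ≤ X → AdmL β (kp B' X) X (lam X)) →
    DecG α β B C2 (fun X => wty (kp B' X) X (Wl α β (kp B' X) X (lam X))) := by
  classical
  obtain ⟨B01, hff⟩ := ff_rep (B + 4)
  obtain ⟨B02, hns⟩ := nsf_small (B + 3)
  refine ⟨B01 + B02 + 1, fun B' hB' => ?_⟩
  obtain ⟨Cf, hff⟩ := hff B' (by omega)
  obtain ⟨Cg, hgg⟩ := gg_rep B' (by omega)
  obtain ⟨Xn, hns⟩ := hns B' (by omega)
  obtain ⟨C', hblk⟩ := blk (Cf + Cg + 2) B
  refine ⟨C' + 1, fun α β h0 h1 h2 lam hlam => ?_⟩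
  obtain ⟨Xf, hff⟩ := hff α β h0 h1 h2
  obtain ⟨Xg, hgg⟩ := hgg α β h0 h1 h2
  obtain ⟨Xi, hid⟩ := wty_id α β h0 h1 h2 B' (by omega)
  obtain ⟨Xb, hblk⟩ := hblk α β h0 h1 h2
  obtain ⟨X1, hlam⟩ := hlam
  obtain ⟨Xe, hXe0⟩ := exists_nat_ge (Real.exp ((2 : ℝ) ^ 14))
  refine ⟨X1 + Xf + Xg + Xn + Xi + Xb + Xe, fun X hX => ?_⟩
  have hXe : Real.exp ((2 : ℝ) ^ 14) ≤ (X : ℝ) := by
    refine hXe0.trans ?_
    exact_mod_cast (show Xe ≤ X by omega)
  have hX0 : (0 : ℝ) < X := lt_of_lt_of_le (Real.exp_pos _) hXe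
  have hL : (2 : ℝ) ^ 14 ≤ Real.log X := (Real.le_log_iff_exp_le hX0).2 hXe
  have hL1 : (1 : ℝ) ≤ Real.log X := by linarith [show (1 : ℝ) ≤ 2 ^ 14 by norm_num]
  have hL4 : (4 : ℝ) ≤ Real.log X := by linarith [show (4 : ℝ) ≤ 2 ^ 14 by norm_num]
  have hpow : ∀ k : ℕ, (1 : ℝ) ≤ (Real.log X) ^ k := fun k => one_le_pow₀ hL1
  have hadm := hlam X (by omega)
  obtain ⟨al, hal1, hal2, hrep⟩ := hff X (by omega) (lam X) hadm
  have hg := brg_neg (hgg X (by omega) (lam X) hadm.1 (B + 3 + 1))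
  have hn := brg_neg (brg_small (α := α) (β := β) (C := Cf + Cg + 1) hL1
    (hns X (by omega) (lam X) hadm.1))
  have hrep' := brg_mono hL1 (show Cf ≤ Cf + Cg by omega) hrep
  have hg' := brg_mono hL1 (show Cg ≤ Cf + Cg by omega) hg
  have h12 := brg_add (B := B + 3) hL4 hrep' hg'
  have h123 := brg_add (B := B + 2) hL4 h12 hn
  obtain ⟨I, M, K, a, c, err, hI, hac, hMK, ha, hidn, herr⟩ := hblk X (by omega) _ h123
  have hbig : ∀ x : ℝ, x ≤ (Real.log X) ^ C' → x ≤ (Real.log X) ^ (C' + 1) := by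
    intro x hx
    refine hx.trans ?_
    exact pow_le_pow_right₀ hL1 (by omega)
  refine ⟨I + 1, fun i n => if i = 0 ∧ X5 X < (n : ℝ) then 1 else 0,
    fun i l => if i = 0 then al l else 0, M, K, fun i m => if i < I then a i m else 0, c, err,
    ?_, ?_, ?_, ?_, ?_, hMK, ?_, ?_, herr⟩
  · push_cast
    rw [pow_succ]
    have h3 := hpow C'
    nlinarith
  · intro i
    constructor
    · intro n
      refine le_trans ?_ (hpow (C' + 1))
      show |if i = 0 ∧ X5 X < (n : ℝ) then (1 : ℝ) else 0| ≤ 1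
      split_ifs <;> simp
    · refine le_trans ?_ (hpow (C' + 1))
      rcases Nat.eq_zero_or_pos i with rfl | hi
      · refine BDec_tv (fun n : ℕ => if (0 : ℕ) = 0 ∧ X5 X < (n : ℝ) then (1 : ℝ) else 0) ?_ ?_ ?_ X
        · intro n
          show (0 : ℝ) ≤ if (0 : ℕ) = 0 ∧ X5 X < (n : ℝ) then 1 else 0
          split_ifs <;> norm_num
        · intro n
          show (if (0 : ℕ) = 0 ∧ X5 X < (n : ℝ) then (1 : ℝ) else 0) ≤ 1
          split_ifs <;> norm_num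
        · intro n
          show (if (0 : ℕ) = 0 ∧ X5 X < (n : ℝ) then (1 : ℝ) else 0) ≤
            if (0 : ℕ) = 0 ∧ X5 X < ((n + 1 : ℕ) : ℝ) then 1 else 0
          by_cases hn : X5 X < (n : ℝ)
          · rw [if_pos ⟨rfl, hn⟩, if_pos ⟨rfl, by push_cast; linarith⟩]
          · rw [if_neg (fun h => hn h.2)]
            split_ifs <;> norm_num
      · have hi' : i ≠ 0 := by omega
        simp [hi']
  · intro i l
    show |if i = 0 then al l else 0| ≤ _
    split_ifs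
    · exact (hal1 l).trans (hL.trans (le_self_pow₀ hL1 (by omega)))
    · rw [abs_zero]
      exact le_trans zero_le_one (hpow _)
  · intro i l hl
    show (if i = 0 then al l else 0) = 0
    rw [hal2 l hl, ite_self]
  · intro i n
    refine ⟨?_, hbig _ (hac i n).2⟩
    show |if i < I then a i n else 0| ≤ _
    split_ifs
    · exact hbig _ (hac i n).1
    · rw [abs_zero]
      exact le_trans zero_le_one (hpow _)
  · intro i m hm
    have hm' : (if i < I then a i m else 0) ≠ 0 := hm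
    by_cases hi : i < I
    · rw [if_pos hi] at hm'
      exact ha i m hm'
    · rw [if_neg hi] at hm'
      exact absurd rfl hm'
  · intro n hn
    have e1 := hid X (by omega) (lam X) n hn
    have e2 := hidn n hn
    have s1 : ∑ i ∈ range (I + 1), (if i = 0 ∧ X5 X < (n : ℝ) then (1 : ℝ) else 0) *
        ∑ l ∈ n.divisors, (if i = 0 then al l else 0) =
        if X5 X < (n : ℝ) then ∑ l ∈ n.divisors, al l else 0 := by
      rw [Finset.sum_range_succ']
      simp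
    have s2 : ∑ i ∈ range (I + 1), ∑ m ∈ n.divisors,
        (if n / m ≤ K i then (if i < I then a i m else 0) * c i (n / m) else 0) =
        ∑ i ∈ range I, ∑ m ∈ n.divisors, (if n / m ≤ K i then a i m * c i (n / m) else 0) := by
      rw [Finset.sum_range_succ]
      have z : ∑ m ∈ n.divisors,
          (if n / m ≤ K I then (if I < I then a I m else 0) * c I (n / m) else 0) = 0 := by
        simp
      rw [z, add_zero]
      refine Finset.sum_congr rfl fun i hi => Finset.sum_congr rfl fun m _ => ?_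
      rw [if_pos (Finset.mem_range.1 hi)]
    show wty (kp B' X) X (Wl α β (kp B' X) X (lam X)) n = ∑ i ∈ range (I + 1),
      (if i = 0 ∧ X5 X < (n : ℝ) then (1 : ℝ) else 0) *
        ∑ l ∈ n.divisors, (if i = 0 then al l else 0) + ∑ i ∈ range (I + 1), ∑ m ∈ n.divisors,
        (if n / m ≤ K i then (if i < I then a i m else 0) * c i (n / m) else 0) + err n
    rw [s1, s2, e1, add_assoc, ← e2]
    by_cases h5 : X5 X < (n : ℝ)
    · rw [if_pos h5, if_pos h5, if_pos h5]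
      ring
    · rw [if_neg h5, if_neg h5, if_neg h5]
      ring

theorem decG_fam (B : ℕ) : ∃ B0 : ℕ, ∀ B' : ℕ, B0 ≤ B' → ∃ C2 : ℕ, ∀ α β : ℝ, 0 < α →
    α + 1 / 10 < β → β < 1 / 2 →
    DecG α β B C2 (fun X => wty (kp B' X) X (rmT α β (kp B' X) X)) ∧
    DecG α β B C2 (fun X => wty (kp B' X) X (epT α β (kp B' X) X)) ∧
    DecG α β B C2 (fun X => wty (kp B' X) X (spT α β (kp B' X) X)) := by
  obtain ⟨B0, h⟩ := decG_types B
  refine ⟨B0, fun B' hB' => ?_⟩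
  obtain ⟨C2, h⟩ := h B' hB'
  refine ⟨C2, fun α β h0 h1 h2 => ⟨?_, ?_, ?_⟩⟩
  · obtain ⟨X1, hX1⟩ := adm_R α β h2
    exact h α β h0 h1 h2 (fun X => lamR3 (vlog (kp B' X) (zt X)) (Real.log X) (α * Real.log X)
      (β * Real.log X) (Real.log (Real.log X))) ⟨X1, fun X hX => hX1 X hX _⟩
  · obtain ⟨X1, hX1⟩ := adm_E α β h2
    exact h α β h0 h1 h2 (fun X => lamE3 (vlog (kp B' X) (zt X)) (Real.log X) (α * Real.log X)
      (β * Real.log X) (Real.log (Real.log X))) ⟨X1, fun X hX => hX1 X hX _⟩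
  · obtain ⟨X1, hX1⟩ := adm_S α β h2
    have h5 := h α β h0 h1 h2 (fun X S => lamR3 (vlog (kp B' X) (zt X)) (Real.log X)
      (α * Real.log X) (β * Real.log X) (Real.log (Real.log X)) S +
      lamE3 (vlog (kp B' X) (zt X)) (Real.log X) (α * Real.log X) (β * Real.log X)
      (Real.log (Real.log X)) S) ⟨X1, fun X hX => hX1 X hX _⟩
    have h6 : (fun X => wty (kp B' X) X (spT α β (kp B' X) X)) = fun X => wty (kp B' X) X
        (Wl α β (kp B' X) X (fun S => lamR3 (vlog (kp B' X) (zt X)) (Real.log X)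
        (α * Real.log X) (β * Real.log X) (Real.log (Real.log X)) S +
        lamE3 (vlog (kp B' X) (zt X)) (Real.log X) (α * Real.log X) (β * Real.log X)
        (Real.log (Real.log X)) S)) := by
      funext X
      rw [spT_eq]
    rw [h6]
    exact h5

end Pool.MP_dd84fd_nt.IY
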