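import Pool.Agent.Lib.MP_dd84fd_nt.IY.CDefs
import Pool.Agent.Lib.MP_dd84fd_nt.IY.BCz3
import Pool.Agent.Lib.MP_dd84fd_nt.HX.DcRg

/-!
# Theorem I, part B: definitions (helper33)

Type II window `(X^α, X^β]`, `0 < α`, `α + 1/10 < β < 1/2`; type I level `2 X^(1-β)`. `z = zt X`, `κ = kp B' X`.
-/

set_option autoImplicit false

namespace Pool.MP_dd84fd_nt.IY

open Finset Pool.MP_dd84fd_nt.HX

/-- logarithm of the left end point of box `j` -/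
noncomputable def vlog (κ : ℝ) (z j : ℕ) : ℝ := Real.log (ub κ z j)

/-- the type function `[#T ≤ 10, T without window set] Σ_{S ⊆ T} lam S` -/
noncomputable def Wl (α β κ : ℝ) (X : ℕ) (lam : Finset ℕ → ℝ) (T : Finset ℕ) : ℝ :=
  if T.card ≤ 10 then wT (vlog κ (zt X)) κ (α * Real.log X) (β * Real.log X) lam T else 0

/-- the minorant -/
noncomputable def rmT (α β κ : ℝ) (X : ℕ) : Finset ℕ → ℝ :=
  Wl α β κ X (lamR3 (vlog κ (zt X)) (Real.log X) (α * Real.log X) (β * Real.log X)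
    (Real.log (Real.log X)))

/-- the majorant of the error -/
noncomputable def epT (α β κ : ℝ) (X : ℕ) : Finset ℕ → ℝ :=
  Wl α β κ X (lamE3 (vlog κ (zt X)) (Real.log X) (α * Real.log X) (β * Real.log X)
    (Real.log (Real.log X)))

/-- the majorant `rm + ep` -/
noncomputable def spT (α β κ : ℝ) (X : ℕ) : Finset ℕ → ℝ :=
  fun T => rmT α β κ X T + epT α β κ X T

/-- admissible weights -/
def AdmL (β κ : ℝ) (X : ℕ) (lam : Finset ℕ → ℝ) : Prop :=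
  (∀ S, |lam S| ≤ 2 ^ 13) ∧
    ∀ S, lam S ≠ 0 → sg (vlog κ (zt X)) S ≤ (1 - β) * Real.log X + Real.log (3 / 2)

/-- the weight as a function of simple numbers -/
noncomputable def lamN (κ : ℝ) (z : ℕ) (lam : Finset ℕ → ℝ) (m : ℕ) : ℝ :=
  open Classical in if Simp κ z m ∧ (ty κ z m).card ≤ 10 then lam (ty κ z m) else 0

/-- `F(n) = Σ_{m k = n} lam(m) rg(k)` -/
noncomputable def Ff (κ : ℝ) (z : ℕ) (lam : Finset ℕ → ℝ) (n : ℕ) : ℝ :=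
  ∑ m ∈ n.divisors, lamN κ z lam m * rg z (n / m)

/-- the part of `F` on the rough numbers which are not simple -/
noncomputable def Nsf (κ : ℝ) (z : ℕ) (lam : Finset ℕ → ℝ) (n : ℕ) : ℝ :=
  open Classical in if Rgh z n ∧ ¬ Simp κ z n then Ff κ z lam n else 0

/-- a window set of the type `T` -/
noncomputable def St (v : ℕ → ℝ) (κ a b : ℝ) (T : Finset ℕ) : Finset ℕ :=
  open Classical in if h : gdT v κ a b T then h.choose else ∅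

/-- the types with a window set -/
noncomputable def TT (α β : ℝ) (B' X : ℕ) : Finset (Finset ℕ) :=
  open Classical in (range (NJ B' X)).powerset.filter (fun T => T.card ≤ 10 ∧
    gdT (vlog (kp B' X) (zt X)) (kp B' X) (α * Real.log X) (β * Real.log X) T)

/-- the window set used for `T` -/
noncomputable def SX (α β : ℝ) (B' X : ℕ) (T : Finset ℕ) : Finset ℕ :=
  St (vlog (kp B' X) (zt X)) (kp B' X) (α * Real.log X) (β * Real.log X) T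

/-- indicator of the simple numbers of type `S` -/
noncomputable def tI (κ : ℝ) (z : ℕ) (S : Finset ℕ) (m : ℕ) : ℝ :=
  open Classical in if Simp κ z m ∧ ty κ z m = S then 1 else 0

/-- the part of `F` on the types with a window set -/
noncomputable def Gg (α β : ℝ) (B' X : ℕ) (lam : Finset ℕ → ℝ) (n : ℕ) : ℝ :=
  ∑ T ∈ TT α β B' X, (∑ S ∈ T.powerset, lam S) * ∑ m ∈ n.divisors,
    tI (kp B' X) (zt X) (SX α β B' X T) m * tI (kp B' X) (zt X) (T \ SX α β B' X T) (n / m)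

/-- coefficient of the type II part of the rough-to-smooth identity -/
noncomputable def Ac (z : ℕ) (lam0 : ℕ → ℝ) (Z : ℝ) (l : ℕ) : ℝ :=
  open Classical in if Z ≤ (l : ℝ) ∧ (l : ℝ) < Z * ((sm z l).minFac : ℝ) then
    lam0 (ro z l) * mr (sm z l) else 0

/-- `Σ_{l s = n, P^-(s) ≥ P^-(e(l))} A(l)` -/
noncomputable def TSg (z : ℕ) (A : ℕ → ℝ) (n : ℕ) : ℝ :=
  open Classical in ∑ l ∈ n.divisors,
    if (∀ p ∈ (n / l).primeFactors, (sm z l).minFac ≤ p) then A l else 0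

/-- the same with classes -/
noncomputable def TBg (κ : ℝ) (z : ℕ) (A : ℕ → ℝ) (n : ℕ) : ℝ :=
  open Classical in ∑ l ∈ n.divisors,
    if (∀ p ∈ (n / l).primeFactors, cl κ (sm z l).minFac ≤ cl κ p) then A l else 0

/-- on `(X5, X]` the function `F` is, up to a small error in mean square, a short sum of bilinear
terms with the first variable in the window `(X^α, X^β]` -/
def BRepG (α β : ℝ) (X C B : ℕ) (F : ℕ → ℝ) : Prop :=
  ∃ (I : ℕ) (a c : ℕ → ℕ → ℝ) (err : ℕ → ℝ),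
    (I : ℝ) ≤ (Real.log X) ^ C ∧
    (∀ i n, |a i n| ≤ (Real.log X) ^ C ∧ |c i n| ≤ (Real.log X) ^ C) ∧
    (∀ i m, a i m ≠ 0 → (X : ℝ) ^ α < m ∧ (m : ℝ) ≤ (X : ℝ) ^ β) ∧
    (∀ n : ℕ, X5 X < n → n ≤ X →
      F n = ∑ i ∈ range I, ∑ m ∈ n.divisors, a i m * c i (n / m) + err n) ∧
    ∑ n ∈ Icc 1 X, err n ^ 2 ≤ X / (Real.log X) ^ B

/-- on `[1, X]`, `[n > X5] F(n)` is a short sum of blocks up to a small error -/
def BlkG (α β : ℝ) (X C B : ℕ) (F : ℕ → ℝ) : Prop :=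
  ∃ (I : ℕ) (M K : ℕ → ℕ) (a c : ℕ → ℕ → ℝ) (err : ℕ → ℝ),
    (I : ℝ) ≤ (Real.log X) ^ C ∧
    (∀ i n, |a i n| ≤ (Real.log X) ^ C ∧ |c i n| ≤ (Real.log X) ^ C) ∧
    (∀ i, (X : ℝ) ^ α / 2 ≤ M i ∧ (M i : ℝ) ≤ (X : ℝ) ^ β ∧ K i * M i ≤ X) ∧
    (∀ i m, a i m ≠ 0 → M i < m ∧ m ≤ 2 * M i ∧ (m : ℝ) ≤ (X : ℝ) ^ β ∧ m * K i ≤ X) ∧
    (∀ n ∈ Icc 1 X, (if X5 X < (n : ℝ) then F n else 0) =
      ∑ i ∈ range I, ∑ m ∈ n.divisors, (if n / m ≤ K i then a i m * c i (n / m) else 0) +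
      err n) ∧
    ∑ n ∈ Icc 1 X, err n ^ 2 ≤ X / (Real.log X) ^ B

/-- (W2) for the window `(X^α, X^β]` and the type I level `2 X^(1-β)` -/
def DecG (α β : ℝ) (B C2 : ℕ) (ww : ℕ → ℕ → ℝ) : Prop := ∃ X0 : ℕ, ∀ X : ℕ, X0 ≤ X →
  ∃ (I : ℕ) (γ al : ℕ → ℕ → ℝ) (M K : ℕ → ℕ) (a c : ℕ → ℕ → ℝ) (err : ℕ → ℝ),
    (I : ℝ) ≤ (Real.log X) ^ C2 ∧
    (∀ i, (∀ n, |γ i n| ≤ (Real.log X) ^ C2) ∧
      ∑ n ∈ Ico 1 X, |γ i (n + 1) - γ i n| ≤ (Real.log X) ^ C2) ∧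
    (∀ i l, |al i l| ≤ (Real.log X) ^ C2) ∧
    (∀ i (l : ℕ), 2 * (X : ℝ) ^ (1 - β) < l → al i l = 0) ∧
    (∀ i n, |a i n| ≤ (Real.log X) ^ C2 ∧ |c i n| ≤ (Real.log X) ^ C2) ∧
    (∀ i, (X : ℝ) ^ α / 2 ≤ M i ∧ (M i : ℝ) ≤ (X : ℝ) ^ β ∧ K i * M i ≤ X) ∧
    (∀ i m, a i m ≠ 0 → M i < m ∧ m ≤ 2 * M i ∧ (m : ℝ) ≤ (X : ℝ) ^ β ∧ m * K i ≤ X) ∧
    (∀ n ∈ Icc 1 X, ww X n = ∑ i ∈ range I, γ i n * ∑ l ∈ n.divisors, al i l +
      ∑ i ∈ range I, ∑ m ∈ n.divisors, (if n / m ≤ K i then a i m * c i (n / m) else 0) +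
      err n) ∧
    ∑ n ∈ Icc 1 X, err n ^ 2 ≤ X / (Real.log X) ^ B

end Pool.MP_dd84fd_nt.IY
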