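import Pool.Agent.Lib.MP_dd84fd_nt.IY.BDec
import Pool.Agent.Lib.MP_dd84fd_nt.IX.Defs

/-!
# Theorem I, part B: the three families for the exponent `th` (helper33)

`α = (1-th)/2 + 4e`, `β = th - 3e`: `yA = X^α`, `yB = X^β`, `ZI = 2 X^(1-β)`.
-/

set_option autoImplicit false

namespace Pool.MP_dd84fd_nt.IY

open Finset Pool.MP_dd84fd_nt.HX

/-- lower end of the type II window (exponent) -/
noncomputable def aI (th e : ℝ) : ℝ := (1 - th) / 2 + 4 * e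

/-- upper end of the type II window (exponent) -/
noncomputable def bI (th e : ℝ) : ℝ := th - 3 * e

theorem aI_bI {th e : ℝ} (h : IX.Adm th e) : 0 < aI th e ∧ aI th e < 3 / 10 ∧
    2 / 5 < bI th e ∧ bI th e < 1 / 2 ∧ aI th e + 1 / 10 < bI th e := by
  obtain ⟨h1, h2, h3, h4⟩ := h
  unfold aI bI
  refine ⟨?_, ?_, ?_, ?_, ?_⟩ <;> linarith

theorem decI_of_decG {B C2 : ℕ} {th e : ℝ} {ww : ℕ → ℕ → ℝ}
    (h : DecG (aI th e) (bI th e) B C2 ww) : IX.DecI B C2 th e ww := by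
  have e1 : ∀ X : ℕ, IX.ZI th e X = 2 * (X : ℝ) ^ (1 - bI th e) := by
    intro X
    unfold IX.ZI bI
    congr 2
    ring
  have e2 : ∀ X : ℕ, IX.yA th e X = (X : ℝ) ^ aI th e := fun X => rfl
  have e3 : ∀ X : ℕ, IX.yB th e X = (X : ℝ) ^ bI th e := fun X => rfl
  unfold IX.DecI
  unfold DecG at h
  simp only [e1, e2, e3]
  exact h

/-- the three families: minorant, error, majorant -/
noncomputable def rmW (th e : ℝ) (B' X : ℕ) : ℕ → ℝ :=
  wty (kp B' X) X (rmT (aI th e) (bI th e) (kp B' X) X)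

/-- the error -/
noncomputable def epW (th e : ℝ) (B' X : ℕ) : ℕ → ℝ :=
  wty (kp B' X) X (epT (aI th e) (bI th e) (kp B' X) X)

/-- the majorant -/
noncomputable def spW (th e : ℝ) (B' X : ℕ) : ℕ → ℝ :=
  wty (kp B' X) X (spT (aI th e) (bI th e) (kp B' X) X)

/-- (W2) for the three families; `C2` does not depend on `th`, `e` -/
theorem decI_fam (B : ℕ) : ∃ B0 : ℕ, ∀ B' : ℕ, B0 ≤ B' → ∃ C2 : ℕ, ∀ th e : ℝ, IX.Adm th e →
    IX.DecI B C2 th e (rmW th e B') ∧ IX.DecI B C2 th e (epW th e B') ∧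
    IX.DecI B C2 th e (spW th e B') := by
  obtain ⟨B0, h⟩ := decG_fam B
  refine ⟨B0, fun B' hB' => ?_⟩
  obtain ⟨C2, h⟩ := h B' hB'
  refine ⟨C2, fun th e hA => ?_⟩
  obtain ⟨a1, a2, a3, a4, a5⟩ := aI_bI hA
  obtain ⟨b1, b2, b3⟩ := h (aI th e) (bI th e) a1 a5 a4
  exact ⟨decI_of_decG b1, decI_of_decG b2, decI_of_decG b3⟩

/-- Lemma CL for the types -/
theorem tyclI (th e : ℝ) (hA : IX.Adm th e) (B' : ℕ) (hB : 1 ≤ B') : ∃ X0 : ℕ, ∀ X : ℕ,
    X0 ≤ X → TyCL (kp B' X) X (rmT (aI th e) (bI th e) (kp B' X) X)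
      (epT (aI th e) (bI th e) (kp B' X) X) := by
  obtain ⟨a1, a2, a3, a4, _⟩ := aI_bI hA
  exact tycl _ _ a1 a2 a3 a4 B' hB

theorem spW_eq (th e : ℝ) (B' X n : ℕ) : spW th e B' X n = rmW th e B' X n + epW th e B' X n := by
  unfold spW rmW epW wty
  split_ifs
  · rfl
  · rw [add_zero]

end Pool.MP_dd84fd_nt.IY
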