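import Pool.Agent.Lib.MP_dd84fd_nt.IY.BF
import Pool.Agent.Lib.MP_dd84fd_nt.IY.BG
import Pool.Agent.Lib.MP_dd84fd_nt.IY.BTy3
import Pool.Agent.Lib.MP_dd84fd_nt.IY.BPar

/-!
# IY-BId (0.4 h): the identity `w = [n > X5] (F - G - Nsf)`

Proof. `n ≤ X5`: both sides `0`. `n > X5`: `n` simple: `#ty n ≤ 8` (`card_ty`), `ty n ⊆ range NJ` (`ty_lt`), `Nsf = 0`, `Ff_simple`, `Gg_simple`, `Wl`, `wT`: both sides are `[not gdT] Σ lam`. `n` rough, not simple: `wty = 0`, `Gg = 0`, `Nsf = Ff`. `n` not rough (so not simple): `Ff = 0`, `Gg = 0`, `Nsf = 0`, `wty = 0`.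
-/

set_option autoImplicit false

namespace Pool.MP_dd84fd_nt.IY

open Finset Pool.MP_dd84fd_nt.HX

theorem wty_id (α β : ℝ) (h0 : 0 < α) (h1 : α + 1 / 10 < β) (h2 : β < 1 / 2) (B' : ℕ)
    (hB : 1 ≤ B') : ∃ X0 : ℕ, ∀ X : ℕ, X0 ≤ X → ∀ lam : Finset ℕ → ℝ, ∀ n ∈ Icc 1 X,
    wty (kp B' X) X (Wl α β (kp B' X) X lam) n =
      if X5 X < (n : ℝ) then Ff (kp B' X) (zt X) lam n - Gg α β B' X lam n -
        Nsf (kp B' X) (zt X) lam n else 0 := by
  have _ := hB
  obtain ⟨X1, hX1⟩ := ty_lt B'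
  obtain ⟨X2, hX2⟩ := b_par α β h0 h1 h2 1
  refine ⟨max X1 X2, fun X hX lam n hn => ?_⟩
  have hty := hX1 X (le_trans (le_max_left _ _) hX)
  obtain ⟨-, -, -, hz2, -, -, hz9, -⟩ := hX2 X (le_trans (le_max_right _ _) hX)
  rw [Finset.mem_Icc] at hn
  obtain ⟨hn1, hnX⟩ := hn
  have hn0 : n ≠ 0 := by omega
  by_cases h5 : X5 X < (n : ℝ)
  · rw [if_pos h5]
    by_cases hs : Simp (kp B' X) (zt X) n
    · have hc : (ty (kp B' X) (zt X) n).card ≤ 10 := card_ty (by omega) hs hnX hz9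
      have hJ := hty n hnX hs
      have e1 : wty (kp B' X) X (Wl α β (kp B' X) X lam) n =
          Wl α β (kp B' X) X lam (ty (kp B' X) (zt X) n) := by
        unfold wty
        rw [if_pos ⟨h5, hnX, hs⟩]
      have e2 : Nsf (kp B' X) (zt X) lam n = 0 := by
        unfold Nsf
        rw [if_neg (fun h => h.2 hs)]
      rw [e1, e2, Ff_simple hs hc, Gg_simple hs hc hJ]
      unfold Wl wT
      rw [if_pos hc]
      by_cases hg : gdT (vlog (kp B' X) (zt X)) (kp B' X) (α * Real.log X)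
          (β * Real.log X) (ty (kp B' X) (zt X) n)
      · rw [if_pos hg, if_pos hg]; ring
      · rw [if_neg hg, if_neg hg]; ring
    · have e1 : wty (kp B' X) X (Wl α β (kp B' X) X lam) n = 0 := by
        unfold wty
        rw [if_neg (fun h => hs h.2.2)]
      rw [e1, Gg_not hn0 hs]
      by_cases hr : Rgh (zt X) n
      · have e2 : Nsf (kp B' X) (zt X) lam n = Ff (kp B' X) (zt X) lam n := by
          unfold Nsf
          rw [if_pos ⟨hr, hs⟩]
        rw [e2]; ring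
      · have e2 : Nsf (kp B' X) (zt X) lam n = 0 := by
          unfold Nsf
          rw [if_neg (fun h => hr h.1)]
        rw [e2, Ff_rough hn0 hr]; ring
  · rw [if_neg h5]
    unfold wty
    rw [if_neg (fun h => h5 h.1)]

end Pool.MP_dd84fd_nt.IY
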