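import Pool.Agent.Lib.MP_dd84fd_nt.IY.BDefs

/-!
# IY-BRep (0.6 h): closure properties of `BRepG`

Proof. Adapt `HX/DcRep.lean` (`brep_add`, `brep_small`, `brep_cls`; there the bounds are `(log X)^2`, here `(log X)^C`). `brg_sum`: a finite sum of single bilinear terms over a finite set `s` with at most `(log X)^C` elements: `I = #s`, enumerate `s` by `s.equivFin` (or induct: `∃ e : ℕ → ι, Σ_{i < #s} f (e i) = Σ_{t ∈ s} f t`). `brg_cls'`: the class version with the window variable second: `n ↦ Σ_{l ∣ n} [Q (τ l) (n/l)] b(l) g(n/l)`,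
where `n/l` is in the window: pieces `i < I`: `a_i(s) = if Q i s then g s else 0`, `c_i(l) = if τ l = i then b l else 0`, and `Σ_{l ∣ n} u(l) v(n/l) = Σ_{s ∣ n} v(s) u(n/s)` (`Nat.sum_div_divisors`). The window condition is only needed for `X5 X < n ≤ X`, so `a_i` is multiplied by the indicator of the window.
-/

set_option autoImplicit false

namespace Pool.MP_dd84fd_nt.IY

open Finset Pool.MP_dd84fd_nt.HX

private theorem ixBRep_enum {ι : Type*} (s : Finset ι) (g : ι → ℝ) :
    ∑ i ∈ range s.card, (if h : i < s.card then g ((s.equivFin.symm ⟨i, h⟩ : s) : ι) else 0) =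
      ∑ t ∈ s, g t := by
  rw [Finset.sum_range]
  have h1 : ∀ i : Fin s.card,
      (if h : (i : ℕ) < s.card then g ((s.equivFin.symm ⟨i, h⟩ : s) : ι) else 0) =
        g ((s.equivFin.symm i : s) : ι) := by
    intro i
    rw [dif_pos i.2]
  rw [Finset.sum_congr rfl (fun i _ => h1 i),
    Equiv.sum_comp s.equivFin.symm (fun t : s => g (t : ι)), Finset.sum_coe_sort s g]

theorem brg_mono {α β : ℝ} {X C C' B : ℕ} {F : ℕ → ℝ} (hL : 1 ≤ Real.log X) (h : C ≤ C')
    (hF : BRepG α β X C B F) : BRepG α β X C' B F := by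
  obtain ⟨I, a, c, err, h1, h2, h3, h4, h5⟩ := hF
  have h6 : Real.log X ^ C ≤ Real.log X ^ C' := pow_le_pow_right₀ hL h
  exact ⟨I, a, c, err, h1.trans h6, fun i n => ⟨(h2 i n).1.trans h6, (h2 i n).2.trans h6⟩,
    h3, h4, h5⟩

theorem brg_congr {α β : ℝ} {X C B : ℕ} {F F' : ℕ → ℝ}
    (h : ∀ n : ℕ, X5 X < n → n ≤ X → F n = F' n) (hF : BRepG α β X C B F) :
    BRepG α β X C B F' := by
  obtain ⟨I, a, c, err, h1, h2, h3, h4, h5⟩ := hF
  exact ⟨I, a, c, err, h1, h2, h3, fun n hn hn' => by rw [← h n hn hn']; exact h4 n hn hn', h5⟩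

theorem brg_add {α β : ℝ} {X C B : ℕ} {F F' : ℕ → ℝ} (hL : 4 ≤ Real.log X)
    (hF : BRepG α β X C (B + 1) F) (hF' : BRepG α β X C (B + 1) F') :
    BRepG α β X (C + 1) B (fun n => F n + F' n) := by
  obtain ⟨I, a, c, err, h1, h2, h3, h4, h5⟩ := hF
  obtain ⟨I', a', c', err', h1', h2', h3', h4', h5'⟩ := hF'
  have hL0 : (0 : ℝ) < Real.log X := by linarith
  have hLC : Real.log X ^ C ≤ Real.log X ^ (C + 1) :=
    pow_le_pow_right₀ (by linarith) (Nat.le_succ C)
  refine ⟨I + I', fun i => if i < I then a i else a' (i - I),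
    fun i => if i < I then c i else c' (i - I), fun n => err n + err' n, ?_, ?_, ?_, ?_, ?_⟩
  · push_cast
    have h6 : (0 : ℝ) ≤ Real.log X ^ C := by positivity
    calc (I : ℝ) + (I' : ℝ) ≤ Real.log X ^ C + Real.log X ^ C := add_le_add h1 h1'
      _ ≤ Real.log X ^ C * Real.log X := by nlinarith
      _ = Real.log X ^ (C + 1) := (pow_succ _ _).symm
  · intro i n
    by_cases hi : i < I
    · simp only [hi, if_true]
      exact ⟨(h2 i n).1.trans hLC, (h2 i n).2.trans hLC⟩
    · simp only [hi, if_false]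
      exact ⟨(h2' (i - I) n).1.trans hLC, (h2' (i - I) n).2.trans hLC⟩
  · intro i m
    by_cases hi : i < I
    · simp only [hi, if_true]
      exact h3 i m
    · simp only [hi, if_false]
      exact h3' (i - I) m
  · intro n hn hn'
    rw [Finset.sum_range_add]
    have e1 : ∑ i ∈ range I, ∑ m ∈ n.divisors,
        (if i < I then a i else a' (i - I)) m * (if i < I then c i else c' (i - I)) (n / m) =
        ∑ i ∈ range I, ∑ m ∈ n.divisors, a i m * c i (n / m) := by
      refine Finset.sum_congr rfl fun i hi => ?_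
      have hi' : i < I := mem_range.1 hi
      simp only [hi', if_true]
    have e2 : ∑ i ∈ range I', ∑ m ∈ n.divisors,
        (if I + i < I then a (I + i) else a' (I + i - I)) m *
          (if I + i < I then c (I + i) else c' (I + i - I)) (n / m) =
        ∑ i ∈ range I', ∑ m ∈ n.divisors, a' i m * c' i (n / m) := by
      refine Finset.sum_congr rfl fun i hi => ?_
      have hi' : ¬ (I + i < I) := by omega
      have hi2 : I + i - I = i := by omega
      simp only [hi', if_false, hi2]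
    rw [e1, e2]
    have h6 := h4 n hn hn'
    have h7 := h4' n hn hn'
    simp only [h6, h7]
    ring
  · have h6 : ∑ n ∈ Icc 1 X, (err n + err' n) ^ 2 ≤
        2 * (∑ n ∈ Icc 1 X, err n ^ 2) + 2 * (∑ n ∈ Icc 1 X, err' n ^ 2) := by
      rw [Finset.mul_sum, Finset.mul_sum, ← Finset.sum_add_distrib]
      refine Finset.sum_le_sum fun n _ => ?_
      nlinarith [sq_nonneg (err n - err' n)]
    have h7 : 4 * ((X : ℝ) / Real.log X ^ (B + 1)) ≤ (X : ℝ) / Real.log X ^ B := by
      rw [pow_succ, ← mul_div_assoc, div_le_div_iff₀ (by positivity) (by positivity)]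
      have h8 : (0 : ℝ) ≤ (X : ℝ) * Real.log X ^ B := by positivity
      nlinarith
    linarith

theorem brg_neg {α β : ℝ} {X C B : ℕ} {F : ℕ → ℝ} (hF : BRepG α β X C B F) :
    BRepG α β X C B (fun n => - F n) := by
  obtain ⟨I, a, c, err, h1, h2, h3, h4, h5⟩ := hF
  refine ⟨I, a, fun i n => - c i n, fun n => - err n, h1, ?_, h3, ?_, ?_⟩
  · intro i n
    rw [abs_neg]
    exact h2 i n
  · intro n hn hn'
    beta_reduce
    rw [h4 n hn hn']
    simp only [mul_neg, Finset.sum_neg_distrib]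
    ring
  · simpa only [neg_sq] using h5

theorem brg_small {α β : ℝ} {X C B : ℕ} {F : ℕ → ℝ} (hL : 1 ≤ Real.log X)
    (h : ∑ n ∈ Icc 1 X, F n ^ 2 ≤ X / (Real.log X) ^ B) : BRepG α β X C B F := by
  have hL0 : (0 : ℝ) < Real.log X := by linarith
  refine ⟨0, fun _ _ => 0, fun _ _ => 0, F, ?_, ?_, ?_, ?_, h⟩
  · simp only [Nat.cast_zero]
    positivity
  · intro i n
    simp only [abs_zero]
    exact ⟨by positivity, by positivity⟩
  · intro i m hm
    exact absurd rfl hm
  · intro n _ _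
    simp

theorem brg_sum {ι : Type*} {α β : ℝ} {X C B : ℕ} (hL : 1 ≤ Real.log X) (s : Finset ι)
    (hs : (s.card : ℝ) ≤ (Real.log X) ^ C) (a c : ι → ℕ → ℝ)
    (hb : ∀ t ∈ s, ∀ n, |a t n| ≤ (Real.log X) ^ C ∧ |c t n| ≤ (Real.log X) ^ C)
    (hw : ∀ t ∈ s, ∀ m, a t m ≠ 0 → (X : ℝ) ^ α < m ∧ (m : ℝ) ≤ (X : ℝ) ^ β) :
    BRepG α β X C B (fun n => ∑ t ∈ s, ∑ m ∈ n.divisors, a t m * c t (n / m)) := by
  have hL0 : (0 : ℝ) < Real.log X := by linarith
  refine ⟨s.card, fun i => if h : i < s.card then a ((s.equivFin.symm ⟨i, h⟩ : s) : ι) else 0,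
    fun i => if h : i < s.card then c ((s.equivFin.symm ⟨i, h⟩ : s) : ι) else 0,
    fun _ => 0, hs, ?_, ?_, ?_, ?_⟩
  · intro i n
    beta_reduce
    by_cases h : i < s.card
    · rw [dif_pos h, dif_pos h]
      exact hb _ (s.equivFin.symm ⟨i, h⟩ : s).2 n
    · rw [dif_neg h, dif_neg h]
      simp only [Pi.zero_apply, abs_zero]
      exact ⟨by positivity, by positivity⟩
  · intro i m hm
    beta_reduce at hm
    by_cases h : i < s.card
    · rw [dif_pos h] at hm
      exact hw _ (s.equivFin.symm ⟨i, h⟩ : s).2 m hm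
    · rw [dif_neg h] at hm
      exact absurd rfl hm
  · intro n _ _
    beta_reduce
    rw [add_zero, ← ixBRep_enum s (fun t => ∑ m ∈ n.divisors, a t m * c t (n / m))]
    refine Finset.sum_congr rfl fun i hi => ?_
    have h : i < s.card := mem_range.1 hi
    simp only [dif_pos h]
  · simp only [ne_eq, OfNat.ofNat_ne_zero, not_false_eq_true, zero_pow, Finset.sum_const_zero]
    positivity

open Classical in
/-- window variable first -/
theorem brg_cls {α β : ℝ} {X C B I : ℕ} (hL : 1 ≤ Real.log X) (hI : (I : ℝ) ≤ (Real.log X) ^ C)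
    (a : ℕ → ℝ) (τ : ℕ → ℕ) (Q : ℕ → ℕ → Prop) (ha : ∀ n, |a n| ≤ (Real.log X) ^ C)
    (hs : ∀ m, a m ≠ 0 → (X : ℝ) ^ α < m ∧ (m : ℝ) ≤ (X : ℝ) ^ β ∧ τ m < I) :
    BRepG α β X C B (fun n => ∑ l ∈ n.divisors, if Q (τ l) (n / l) then a l else 0) := by
  have hL0 : (0 : ℝ) < Real.log X := by linarith
  have hLC : (1 : ℝ) ≤ Real.log X ^ C := one_le_pow₀ hL
  refine ⟨I, fun i m => if τ m = i then a m else 0, fun i s => if Q i s then 1 else 0,
    fun _ => 0, hI, ?_, ?_, ?_, ?_⟩
  · intro i n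
    constructor
    · by_cases h : τ n = i
      · simp only [h, if_true]
        exact ha n
      · simp only [h, if_false, abs_zero]
        positivity
    · by_cases h : Q i n
      · simp only [h, if_true, abs_one]
        exact hLC
      · simp only [h, if_false, abs_zero]
        positivity
  · intro i m hm
    have h1 : a m ≠ 0 := by
      intro h0
      apply hm
      simp only [h0, ite_self]
    exact ⟨(hs m h1).1, (hs m h1).2.1⟩
  · intro n _ _
    rw [add_zero, Finset.sum_comm]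
    refine Finset.sum_congr rfl fun m _ => ?_
    by_cases h0 : a m = 0
    · simp [h0]
    · have h1 : τ m ∈ range I := mem_range.2 (hs m h0).2.2
      rw [Finset.sum_eq_single (τ m)]
      · by_cases h2 : Q (τ m) (n / m)
        · simp only [h2, if_true, mul_one]
        · simp only [h2, if_false, mul_zero]
      · intro i _ hi
        have h3 : ¬ (τ m = i) := fun h => hi h.symm
        simp only [h3, if_false, zero_mul]
      · intro h
        exact absurd h1 h
  · simp only [ne_eq, OfNat.ofNat_ne_zero, not_false_eq_true, zero_pow, Finset.sum_const_zero]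
    positivity

open Classical in
/-- window variable second -/
theorem brg_cls' {α β : ℝ} {X C B I : ℕ} (hL : 1 ≤ Real.log X) (hI : (I : ℝ) ≤ (Real.log X) ^ C)
    (b : ℕ → ℝ) (τ : ℕ → ℕ) (Q : ℕ → ℕ → Prop) (hb : ∀ n, |b n| ≤ (Real.log X) ^ C)
    (hs : ∀ l n : ℕ, b l ≠ 0 → l ∣ n → X5 X < n → n ≤ X →
      (X : ℝ) ^ α < ((n / l : ℕ) : ℝ) ∧ ((n / l : ℕ) : ℝ) ≤ (X : ℝ) ^ β ∧ τ l < I) :
    BRepG α β X C B (fun n => ∑ l ∈ n.divisors, if Q (τ l) (n / l) then b l else 0) := by
  have hL0 : (0 : ℝ) < Real.log X := by linarith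
  have hLC : (1 : ℝ) ≤ Real.log X ^ C := one_le_pow₀ hL
  refine ⟨I, fun i s => if ((X : ℝ) ^ α < s ∧ (s : ℝ) ≤ (X : ℝ) ^ β) ∧ Q i s then 1 else 0,
    fun i l => if τ l = i then b l else 0, fun _ => 0, hI, ?_, ?_, ?_, ?_⟩
  · intro i n
    constructor
    · by_cases h : ((X : ℝ) ^ α < n ∧ (n : ℝ) ≤ (X : ℝ) ^ β) ∧ Q i n
      · simp only [h, and_self, if_true, abs_one]
        exact hLC
      · beta_reduce
        rw [if_neg h, abs_zero]
        positivity
    · by_cases h : τ n = i
      · simp only [h, if_true]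
        exact hb n
      · simp only [h, if_false, abs_zero]
        positivity
  · intro i m hm
    by_contra h
    apply hm
    exact if_neg (fun h1 => h h1.1)
  · intro n hn hn'
    rw [add_zero]
    have e1 : ∀ i ∈ range I, ∑ m ∈ n.divisors,
        (if ((X : ℝ) ^ α < m ∧ (m : ℝ) ≤ (X : ℝ) ^ β) ∧ Q i m then (1 : ℝ) else 0) *
          (if τ (n / m) = i then b (n / m) else 0) =
        ∑ l ∈ n.divisors, (if ((X : ℝ) ^ α < ((n / l : ℕ) : ℝ) ∧
          ((n / l : ℕ) : ℝ) ≤ (X : ℝ) ^ β) ∧ Q i (n / l) then (1 : ℝ) else 0) *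
          (if τ l = i then b l else 0) := by
      intro i _
      rw [← Nat.sum_div_divisors n (fun m =>
        (if ((X : ℝ) ^ α < m ∧ (m : ℝ) ≤ (X : ℝ) ^ β) ∧ Q i m then (1 : ℝ) else 0) *
          (if τ (n / m) = i then b (n / m) else 0))]
      refine Finset.sum_congr rfl fun l hl => ?_
      have hn0 : n ≠ 0 := (Nat.mem_divisors.1 hl).2
      have hd : l ∣ n := (Nat.mem_divisors.1 hl).1
      rw [Nat.div_div_self hd hn0]
    rw [Finset.sum_congr rfl e1, Finset.sum_comm]
    refine Finset.sum_congr rfl fun l hl => ?_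
    have hd : l ∣ n := (Nat.mem_divisors.1 hl).1
    by_cases h0 : b l = 0
    · simp [h0]
    · obtain ⟨w1, w2, w3⟩ := hs l n h0 hd hn hn'
      have h1 : τ l ∈ range I := mem_range.2 w3
      rw [Finset.sum_eq_single (τ l)]
      · rw [if_pos rfl]
        by_cases h2 : Q (τ l) (n / l)
        · rw [if_pos h2, if_pos ⟨⟨w1, w2⟩, h2⟩, one_mul]
        · rw [if_neg h2, if_neg (fun h3 => h2 h3.2), zero_mul]
      · intro i _ hi
        have h3 : ¬ (τ l = i) := fun h => hi h.symm
        rw [if_neg h3, mul_zero]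
      · intro h
        exact absurd h1 h
  · simp only [ne_eq, OfNat.ofNat_ne_zero, not_false_eq_true, zero_pow, Finset.sum_const_zero]
    positivity

end Pool.MP_dd84fd_nt.IY
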