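import Pool.Agent.Lib.MP_dd84fd_nt.HX.MjE

/-!
# IY-CE (0.2 h): from residue classes to the major arcs, without the weight `1/log`

Proof. Copy of `class_exp` in HX/MjE.lean (with its private lemmas), without `MP_abel`.
-/

set_option autoImplicit false

namespace Pool.MP_dd84fd_nt.IY

open Finset Pool.MP_67663b_nt.Odd Pool.MP_dd84fd_nt.En Pool.MP_dd84fd_nt.E2 Pool.MP_dd84fd_nt.HX

private lemma CE_partial (a : ℕ → ℝ) (B : ℝ) (X : ℕ)
    (hB : ∀ t ≤ X, |∑ n ∈ Icc 1 t, a n| ≤ B) (β : ℝ) :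
    ‖∑ n ∈ Icc 1 X, (a n : ℂ) * ee ((n : ℝ) * β)‖ ≤ B * (1 + 2 * Real.pi * |β| * X) := by
  have hid : ∀ X : ℕ, ∑ n ∈ Icc 1 X, (a n : ℂ) * ee ((n : ℝ) * β) =
      ((∑ n ∈ Icc 1 X, a n : ℝ) : ℂ) * ee ((X : ℝ) * β) -
      ∑ t ∈ range X, ((∑ n ∈ Icc 1 t, a n : ℝ) : ℂ) *
        (ee (((t + 1 : ℕ) : ℝ) * β) - ee ((t : ℝ) * β)) := by
    intro X
    induction X with
    | zero => simp
    | succ X ih =>
      rw [Finset.sum_Icc_succ_top (by omega), ih, Finset.sum_range_succ,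
        Finset.sum_Icc_succ_top (by omega)]
      push_cast
      ring
  rw [hid]
  have hB0 : 0 ≤ B := (abs_nonneg _).trans (hB 0 (Nat.zero_le _))
  have h1 : ‖((∑ n ∈ Icc 1 X, a n : ℝ) : ℂ) * ee ((X : ℝ) * β)‖ ≤ B := by
    rw [norm_mul, norm_ee, mul_one, Complex.norm_real, Real.norm_eq_abs]
    exact hB X le_rfl
  have h2 : ‖∑ t ∈ range X, ((∑ n ∈ Icc 1 t, a n : ℝ) : ℂ) *
      (ee (((t + 1 : ℕ) : ℝ) * β) - ee ((t : ℝ) * β))‖ ≤ X * (B * (2 * Real.pi * |β|)) := by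
    refine (norm_sum_le _ _).trans ?_
    calc ∑ t ∈ range X, ‖((∑ n ∈ Icc 1 t, a n : ℝ) : ℂ) *
          (ee (((t + 1 : ℕ) : ℝ) * β) - ee ((t : ℝ) * β))‖
        ≤ ∑ _t ∈ range X, B * (2 * Real.pi * |β|) := by
          refine sum_le_sum fun t ht => ?_
          rw [norm_mul, Complex.norm_real, Real.norm_eq_abs]
          refine mul_le_mul (hB t (by rw [mem_range] at ht; omega)) ?_ (norm_nonneg _) hB0
          refine (norm_ee_sub_ee_le _ _).trans (le_of_eq ?_)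
          congr 2
          push_cast
          ring
      _ = _ := by rw [sum_const, card_range, nsmul_eq_mul]
  refine (norm_sub_le _ _).trans ?_
  nlinarith

private lemma CE_ee {n c q : ℕ} (hq : 0 < q) (h : n ≡ c [MOD q]) (a : ℤ) (β : ℝ) :
    ee ((n : ℝ) * ((a : ℝ) / q + β)) = ee ((c : ℝ) * ((a : ℝ) / q)) * ee ((n : ℝ) * β) := by
  have hq0 : (q : ℝ) ≠ 0 := by exact_mod_cast hq.ne'
  have h1 : (q : ℤ) ∣ (n : ℤ) - c := (Nat.modEq_iff_dvd.mp h.symm)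
  obtain ⟨k, hk⟩ := h1
  have h2 : (n : ℝ) = c + q * k := by
    have : (n : ℤ) = c + q * k := by linarith
    exact_mod_cast this
  have h3 : (n : ℝ) * ((a : ℝ) / q + β) = ((c : ℝ) * ((a : ℝ) / q) + (n : ℝ) * β) + ((k * a : ℤ) : ℝ) := by
    have h4 : (n : ℝ) * ((a : ℝ) / q) = (c : ℝ) * ((a : ℝ) / q) + ((k * a : ℤ) : ℝ) := by
      rw [h2]
      push_cast
      field_simp
    rw [mul_add, h4]
    ring
  rw [h3, ee_add_int, ee_add]

private lemma CE_split (q : ℕ) (hq : 0 < q) (S : Finset ℕ) (f : ℕ → ℂ) :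
    ∑ n ∈ S, f n = ∑ c ∈ range q, ∑ n ∈ S.filter (fun n => n ≡ c [MOD q]), f n := by
  classical
  rw [← Finset.sum_fiberwise_of_maps_to (s := S) (t := range q) (g := fun n => n % q)
    (fun n _ => mem_range.mpr (Nat.mod_lt _ hq))]
  refine sum_congr rfl fun c hc => ?_
  rw [mem_range] at hc
  refine sum_congr ?_ fun _ _ => rfl
  ext n
  simp only [mem_filter, Nat.ModEq, Nat.mod_eq_of_lt hc]

theorem class_exp0 (A B : ℕ) : ∃ X0 : ℕ, ∀ X : ℕ, X0 ≤ X → ∀ u : ℕ → ℝ,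
    (∀ q b t : ℕ, 1 ≤ q → (q : ℝ) ≤ (Real.log X) ^ B → t ≤ X →
      |∑ n ∈ (Icc 1 t).filter (fun n => n ≡ b [MOD q]), u n| ≤
        X / (Real.log X) ^ (A + B + 1)) →
    ∀ θ : ℝ, Ht ((Real.log X) ^ B) X θ →
    ‖∑ n ∈ Icc 1 X, ((u n : ℝ) : ℂ) * ee ((n : ℝ) * θ)‖ ≤ X / (Real.log X) ^ A := by
  obtain ⟨X1, hX1⟩ := MP_log_large 7
  refine ⟨max X1 1, fun X hX u hu θ hHt => ?_⟩
  simp only [max_le_iff] at hX
  obtain ⟨g1, g2⟩ := hX
  have hL21 := hX1 X g1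
  set L := Real.log (X : ℝ) with hLd
  have hL0 : 0 < L := by linarith
  have hL1 : 1 ≤ L := by linarith
  have hXR : (0 : ℝ) < X := by exact_mod_cast g2
  obtain ⟨q, a, hq, hgcd, hle⟩ := hHt
  set β : ℝ := θ - (a : ℝ) / q with hβ
  have hθ : θ = (a : ℝ) / q + β := by rw [hβ]; ring
  have hqR : (1 : ℝ) ≤ q := by exact_mod_cast hq
  have hXβ : 0 ≤ (X : ℝ) * |β| := by positivity
  have hqH : (q : ℝ) ≤ L ^ B := by nlinarith
  set Q : ℝ := X / L ^ (A + B + 1) with hQ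
  have hQ0 : 0 ≤ Q := by positivity
  have hpart : ∀ t ≤ X, ‖∑ n ∈ Icc 1 t, (u n : ℂ) * ee ((n : ℝ) * θ)‖ ≤ 7 * L ^ B * Q := by
    intro t ht
    rw [CE_split q hq]
    have hcl : ∀ c ∈ range q,
        ‖∑ n ∈ (Icc 1 t).filter (fun n => n ≡ c [MOD q]), (u n : ℂ) * ee ((n : ℝ) * θ)‖ ≤
        Q * (1 + 2 * Real.pi * |β| * X) := by
      intro c _
      have e1 : ∑ n ∈ (Icc 1 t).filter (fun n => n ≡ c [MOD q]), (u n : ℂ) *
          ee ((n : ℝ) * θ) = ee ((c : ℝ) * ((a : ℝ) / q)) *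
          ∑ n ∈ Icc 1 t, ((if n ≡ c [MOD q] then u n else 0 : ℝ) : ℂ) *
            ee ((n : ℝ) * β) := by
        rw [Finset.mul_sum, Finset.sum_filter]
        refine sum_congr rfl fun n _ => ?_
        split_ifs with h
        · rw [hθ, CE_ee hq h]
          ring
        · simp
      rw [e1, norm_mul, norm_ee, one_mul]
      have hB : ∀ t' ≤ t, |∑ n ∈ Icc 1 t', (if n ≡ c [MOD q] then u n else 0)| ≤ Q := by
        intro t' ht'
        rw [← Finset.sum_filter]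
        exact hu q c t' hq hqH (ht'.trans ht)
      refine (CE_partial _ _ t hB β).trans ?_
      apply mul_le_mul_of_nonneg_left _ hQ0
      have h1 : (t : ℝ) ≤ X := by exact_mod_cast ht
      have h2 : 0 ≤ 2 * Real.pi * |β| := by positivity
      nlinarith
    refine (norm_sum_le _ _).trans ?_
    refine (sum_le_sum hcl).trans ?_
    rw [sum_const, card_range, nsmul_eq_mul]
    have h3 : (q : ℝ) * (1 + 2 * Real.pi * |β| * X) ≤ 7 * L ^ B := by
      have h4 := Real.pi_lt_d2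
      have h5 := Real.pi_gt_three
      have h6 : (q : ℝ) * (1 + 2 * Real.pi * |β| * X) ≤ 7 * (q * (1 + X * |β|)) := by
        have h7 : 0 ≤ (q : ℝ) * (X * |β|) := by positivity
        have h8 : (q : ℝ) * (1 + 2 * Real.pi * |β| * X) =
          q + 2 * Real.pi * (q * (X * |β|)) := by ring
        rw [h8]
        nlinarith
      linarith
    calc (q : ℝ) * (Q * (1 + 2 * Real.pi * |β| * X)) =
        q * (1 + 2 * Real.pi * |β| * X) * Q := by ring
      _ ≤ 7 * L ^ B * Q := mul_le_mul_of_nonneg_right h3 hQ0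
  refine (hpart X le_rfl).trans ?_
  have h11 : 7 * L ^ B * Q = 7 / L * (X / L ^ A) := by
    rw [hQ, pow_succ, pow_add]
    field_simp
  rw [h11]
  have h12 : 7 / L ≤ 1 := by
    rw [div_le_one hL0]
    exact hL21
  have h13 : 0 ≤ (X : ℝ) / L ^ A := by positivity
  nlinarith

end Pool.MP_dd84fd_nt.IY
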