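import Pool.Agent.Lib.MP_dd84fd_nt.IY.CMn

/-!
# IY-CMn2 (0.5 h): the main terms, general constants

Same proof as `IY/CMn.lean` (`main_i`; copy its private lemmas `CMn_f2_nonneg CMn_f2_le CMn_low CMn_split CMn_point CMn_num` with general constants).
`filt_asym`: `F := Σ_{m, n - m > X5} f2 m f2 (n-m)` satisfies `conv2 - 2 Σ_{m ≤ ⌊X5⌋} f2 m f2 (n-m) ≤ F ≤ conv2` (`CMn_split`, terms `≥ 0`), `conv2_ss 12`: `|conv2 - SS JJ| ≤ X/L^12`, `Σ_{m ≤ ⌊X5⌋} ≤ 4 (X5 (SS n + 1) + X^(1-η'))` (`conv_rough`, `sing_rate`); `SS ≥ c := 2 C2`, `JJ ≥ X/(16 L²)` (`JJ_ge`), so every error is `≤ (η/3) SS JJ` for `X` large (`CMn_num` has this with `η/3 = 1/30`: constants `384/(ηc) L² P ≤ X`, `384(1+1/c)/η ≤ L`, `48/(ηc) ≤ L` up to a factor).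
`main_lo`: with `η := δ/(a² + b² + 1)`: pointwise on the filter `log m log(n-m) (gr gr - ge ge) ≥ a² - b²` (`CMn_point`), so `cvv - cvv ≥ (a² - b²) F`, and `(a² - b²) F ≥ (a² - b²) SS JJ - |a² - b²| η SS JJ ≥ (a² - b² - δ) SS JJ` (`SS JJ ≥ 0`).
`main_up`: `η := δ/(c² + 1)`; outside the filter the products are `0`, on it `h m h (n-m) ≤ c²/(log m log(n-m))`: `cvv ≤ c² F ≤ c² (1 + η) SS JJ`.
-/

set_option autoImplicit false

namespace Pool.MP_dd84fd_nt.IY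

open Finset Pool.MP_67663b_nt.Odd Pool.MP_dd84fd_nt.En Pool.MP_dd84fd_nt.E2 Pool.MP_dd84fd_nt.HX

private theorem CMn2_f2_nonneg (w n : ℕ) : 0 ≤ f2 w n :=
  div_nonneg (f1_nonneg w n) (Real.log_natCast_nonneg n)

private theorem CMn2_f2_le (w n : ℕ) : f2 w n ≤ 2 * f1 w n := by
  have h0 := f1_nonneg w n
  unfold f2
  rcases Nat.lt_or_ge n 2 with h | h
  · have h1 : Real.log (n : ℝ) = 0 := by
      have : n = 0 ∨ n = 1 := by omega
      rcases this with rfl | rfl <;> simp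
    rw [h1, div_zero]
    positivity
  · have h2 : (1 / 2 : ℝ) ≤ Real.log (n : ℝ) := by
      have h3 : Real.log 2 ≤ Real.log (n : ℝ) :=
        Real.log_le_log (by norm_num) (by exact_mod_cast h)
      have := Real.log_two_gt_d9
      linarith
    rw [div_le_iff₀ (by linarith)]
    nlinarith

/-- the part with `m ≤ T` -/
private theorem CMn2_low (w n t : ℕ) :
    ∑ m ∈ Icc 1 t, f2 w m * f2 w (n - m) ≤ 4 * ∑ m ∈ Icc 1 t, f1 w m * f1 w (n - m) := by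
  rw [Finset.mul_sum]
  refine Finset.sum_le_sum fun m _ => ?_
  have h1 := CMn2_f2_le w m
  have h2 := CMn2_f2_le w (n - m)
  calc f2 w m * f2 w (n - m) ≤ (2 * f1 w m) * (2 * f1 w (n - m)) :=
        mul_le_mul h1 h2 (CMn2_f2_nonneg _ _) (by have := f1_nonneg w m; positivity)
    _ = 4 * (f1 w m * f1 w (n - m)) := by ring

/-- removing the small `m` and `n - m` -/
private theorem CMn2_split (w n : ℕ) (Y : ℝ) (hY : 0 ≤ Y) (hYn : Y < n) :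
    conv2 w n - 2 * ∑ m ∈ Icc 1 ⌊Y⌋₊, f2 w m * f2 w (n - m) ≤
      ∑ m ∈ (Icc 1 (n - 1)).filter (fun m : ℕ => Y < m ∧ Y < ((n - m : ℕ) : ℝ)),
        f2 w m * f2 w (n - m) := by
  classical
  have h0 : ∀ m, 0 ≤ f2 w m * f2 w (n - m) := fun m =>
    mul_nonneg (CMn2_f2_nonneg _ _) (CMn2_f2_nonneg _ _)
  have h1 : conv2 w n = ∑ m ∈ (Icc 1 (n - 1)).filter (fun m : ℕ => Y < m ∧ Y < ((n - m : ℕ) : ℝ)),
        f2 w m * f2 w (n - m) +
      ∑ m ∈ (Icc 1 (n - 1)).filter (fun m : ℕ => ¬ (Y < m ∧ Y < ((n - m : ℕ) : ℝ))),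
        f2 w m * f2 w (n - m) := (Finset.sum_filter_add_sum_filter_not _ _ _).symm
  have h2 : (Icc 1 (n - 1)).filter (fun m : ℕ => ¬ (Y < m ∧ Y < ((n - m : ℕ) : ℝ))) ⊆
      (Icc 1 ⌊Y⌋₊) ∪ (Icc 1 ⌊Y⌋₊).image (fun m => n - m) := by
    intro m hm
    rw [Finset.mem_filter, Finset.mem_Icc] at hm
    obtain ⟨⟨h3, h4⟩, h5⟩ := hm
    rw [Finset.mem_union, Finset.mem_image]
    by_cases h6 : Y < m
    · right
      have h7 : ((n - m : ℕ) : ℝ) ≤ Y := by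
        by_contra h8
        exact h5 ⟨h6, not_le.1 h8⟩
      refine ⟨n - m, ?_, by omega⟩
      rw [Finset.mem_Icc]
      exact ⟨by omega, Nat.le_floor h7⟩
    · left
      rw [Finset.mem_Icc]
      exact ⟨h3, Nat.le_floor (not_lt.1 h6)⟩
  have hfl : ⌊Y⌋₊ < n := (Nat.floor_lt hY).2 hYn
  have h3 : ∑ m ∈ (Icc 1 ⌊Y⌋₊).image (fun m => n - m), f2 w m * f2 w (n - m) =
      ∑ m ∈ Icc 1 ⌊Y⌋₊, f2 w m * f2 w (n - m) := by
    rw [Finset.sum_image]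
    · refine Finset.sum_congr rfl fun m hm => ?_
      rw [Finset.mem_Icc] at hm
      have : n - (n - m) = m := by omega
      rw [this, mul_comm]
    · intro a ha b hb hab
      rw [Finset.mem_coe, Finset.mem_Icc] at ha hb
      have : n - a = n - b := hab
      omega
  have h4 := Finset.sum_le_sum_of_subset_of_nonneg h2 (f := fun m => f2 w m * f2 w (n - m))
    fun m _ _ => h0 m
  have h5 : ∑ m ∈ (Icc 1 ⌊Y⌋₊) ∪ (Icc 1 ⌊Y⌋₊).image (fun m => n - m), f2 w m * f2 w (n - m) ≤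
      ∑ m ∈ Icc 1 ⌊Y⌋₊, f2 w m * f2 w (n - m) +
        ∑ m ∈ (Icc 1 ⌊Y⌋₊).image (fun m => n - m), f2 w m * f2 w (n - m) := by
    have h6 := Finset.sum_union_inter (s₁ := Icc 1 ⌊Y⌋₊)
      (s₂ := (Icc 1 ⌊Y⌋₊).image (fun m => n - m)) (f := fun m => f2 w m * f2 w (n - m))
    have h7 : 0 ≤ ∑ m ∈ (Icc 1 ⌊Y⌋₊) ∩ (Icc 1 ⌊Y⌋₊).image (fun m => n - m),
        f2 w m * f2 w (n - m) := Finset.sum_nonneg fun m _ => h0 m
    linarith
  rw [h3] at h5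
  linarith

/-- the numerical estimate -/
private theorem CMn2_num {c η X L S J Y P E Z : ℝ} (hc : 0 < c) (hη : 0 < η) (hX : 0 < X)
    (hL : 1 ≤ L)
    (hS : c ≤ S) (hJ : X / (16 * L ^ 2) ≤ J) (hY : Y ≤ X / L ^ 5) (hY0 : 0 ≤ Y)
    (hE : E ≤ X / L ^ 12) (hP : 384 / (η * c) * L ^ 2 * P ≤ X)
    (hL1 : 384 * (1 + 1 / c) / η ≤ L) (hL2 : 48 / (η * c) ≤ L)
    (hZ : Z ≤ 4 * (Y * (S + 1) + P)) :
    2 * Z + E ≤ η * (S * J) := by
  have hL0 : 0 < L := by linarith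
  have hS0 : 0 < S := lt_of_lt_of_le hc hS
  have hSJ : S * (X / (16 * L ^ 2)) ≤ S * J := mul_le_mul_of_nonneg_left hJ hS0.le
  have hU : 0 < X / (16 * L ^ 2) := by positivity
  have hkey : η / 3 * (c * (X / (16 * L ^ 2))) = X / (48 / (η * c) * L ^ 2) := by
    field_simp
    norm_num
  have hkey2 : η / 3 * (c * (X / (16 * L ^ 2))) ≤ η / 3 * (S * (X / (16 * L ^ 2))) := by
    gcongr
  -- P
  have h1 : 8 * P ≤ η / 3 * (S * (X / (16 * L ^ 2))) := by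
    refine le_trans ?_ hkey2
    rw [hkey, le_div_iff₀ (by positivity)]
    have h4 : 384 / (η * c) * L ^ 2 * P = 8 * P * (48 / (η * c) * L ^ 2) := by
      ring
    linarith
  -- E
  have h2 : E ≤ η / 3 * (S * (X / (16 * L ^ 2))) := by
    refine hE.trans (le_trans ?_ hkey2)
    rw [hkey]
    refine div_le_div_of_nonneg_left hX.le (by positivity) ?_
    calc 48 / (η * c) * L ^ 2 ≤ L * L ^ 2 := by gcongr
      _ = L ^ 3 := by ring
      _ ≤ L ^ 12 := pow_le_pow_right₀ hL (by norm_num)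
  -- Y
  have h3 : 8 * (Y * (S + 1)) ≤ η / 3 * (S * (X / (16 * L ^ 2))) := by
    have h4 : S + 1 ≤ S * (1 + 1 / c) := by
      have h5 : 1 ≤ S * (1 / c) := by
        rw [mul_one_div, le_div_iff₀ hc]
        linarith
      linarith
    have h5 : 8 * (Y * (S + 1)) ≤ 8 * (X / L ^ 5 * (S * (1 + 1 / c))) := by
      have : 0 ≤ S + 1 := by linarith
      gcongr
    refine h5.trans ?_
    have h6 : (384 * (1 + 1 / c) / η) * (η * X / (48 * L ^ 5)) ≤ L ^ 3 * (η * X / (48 * L ^ 5)) := by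
      have h7 : L ≤ L ^ 3 := by
        calc L = L ^ 1 := (pow_one L).symm
          _ ≤ L ^ 3 := pow_le_pow_right₀ hL (by norm_num)
      have : 384 * (1 + 1 / c) / η ≤ L ^ 3 := hL1.trans h7
      gcongr
    have h7 : 8 * (X / L ^ 5 * (S * (1 + 1 / c))) =
        S * ((384 * (1 + 1 / c) / η) * (η * X / (48 * L ^ 5))) := by
      field_simp
      norm_num
    have h8 : η / 3 * (S * (X / (16 * L ^ 2))) = S * (L ^ 3 * (η * X / (48 * L ^ 5))) := by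
      field_simp
      norm_num
    rw [h7, h8]
    exact mul_le_mul_of_nonneg_left h6 hS0.le
  have h4 : η * (S * (X / (16 * L ^ 2))) ≤ η * (S * J) := mul_le_mul_of_nonneg_left hSJ hη.le
  linarith

theorem filt_asym (η : ℝ) (hη : 0 < η) : ∃ D0 : ℕ, ∀ D' : ℕ, D0 ≤ D' → ∃ X0 : ℕ, ∀ X : ℕ,
    X0 ≤ X → ∀ n : ℕ, X < 2 * n → n ≤ X → Even n →
    |∑ m ∈ (Icc 1 (n - 1)).filter (fun m : ℕ => X5 X < m ∧ X5 X < ((n - m : ℕ) : ℝ)),
        f2 (wX D' X) m * f2 (wX D' X) (n - m) - SS n * JJ n| ≤ η * (SS n * JJ n) ∧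
      0 ≤ SS n * JJ n := by
  obtain ⟨Cs, hCs0, hCs⟩ := sing_rate
  obtain ⟨D1, hD1, hconv⟩ := conv2_ss 12
  refine ⟨max D1 4, fun D' hD' => ?_⟩
  have hD'1 : D1 ≤ D' := (le_max_left _ _).trans hD'
  have hD'4 : 4 ≤ D' := (le_max_right _ _).trans hD'
  obtain ⟨X1, hX1⟩ := hconv D' hD'1
  obtain ⟨ζ, hζ0, hζ1, X2, hX2⟩ := conv_rough D' (by omega)
  obtain ⟨X3, hX3⟩ := JJ_ge
  set c : ℝ := 2 * C2 with hc
  have hc0 : 0 < c := by have := C2_pos; positivity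
  obtain ⟨X4, hX4⟩ := MP_log_pow (384 / (η * c)) 2 hζ0
  obtain ⟨X5', hX5'⟩ := MP_log_large (384 * (1 + 1 / c) / η + 48 / (η * c) + 8 * Cs + 32)
  obtain ⟨X6, hX6⟩ := X5_ge
  refine ⟨max (max (max X1 X2) (max X3 X4)) (max (max X5' X6) 16),
    fun X hX n hn hnX hne => ?_⟩
  simp only [max_le_iff] at hX
  obtain ⟨⟨⟨hXX1, hXX2⟩, hXX3, hXX4⟩, ⟨hXX5, hXX6⟩, hX16⟩ := hX
  have hX0 : (0 : ℝ) < X := by exact_mod_cast (by omega : 0 < X)
  have hn0 : 0 < n := by omega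
  have hLL := hX5' X hXX5
  have hpow := hX4 X hXX4
  obtain ⟨hz, hX5X⟩ := hX6 X hXX6
  set L := Real.log X with hL
  have e1 : 0 < 384 * (1 + 1 / c) / η := by positivity
  have e2 : 0 < 48 / (η * c) := by positivity
  have hL32 : 32 ≤ L := by nlinarith
  have hL1 : 1 ≤ L := by linarith
  have hL0 : 0 < L := by linarith
  set w : ℕ := wX D' X with hw
  have hwle : (w : ℝ) ≤ L ^ D' := Nat.floor_le (pow_nonneg hL0.le _)
  have hwlt : L ^ D' < (w : ℝ) + 1 := Nat.lt_floor_add_one _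
  have hLD : L ^ 4 ≤ L ^ D' := pow_le_pow_right₀ hL1 hD'4
  have hL4 : 32 * L ^ 3 ≤ L ^ 4 := by
    have : L ^ 4 = L * L ^ 3 := by ring
    rw [this]
    gcongr
  have hL31 : L ≤ L ^ 3 := by
    calc L = L ^ 1 := (pow_one L).symm
      _ ≤ L ^ 3 := pow_le_pow_right₀ hL1 (by norm_num)
  have hL3' : L ^ 3 = L * L ^ 2 := by ring
  have hw3 : L ^ 3 ≤ w := by nlinarith
  have hwL : 8 * L ≤ w := by nlinarith
  have hwN : 2 ≤ w := by
    have : (2 : ℝ) ≤ w := by linarith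
    exact_mod_cast this
  have hw0 : (0 : ℝ) < w := by linarith
  have hnr : (n : ℝ) ≤ X := by exact_mod_cast hnX
  have hn1r : (1 : ℝ) ≤ n := by exact_mod_cast hn0
  have hlogn : Real.log n ≤ L := Real.log_le_log (by linarith) hnr
  have hlogn0 : 0 ≤ Real.log n := Real.log_nonneg hn1r
  -- singular series
  have h1 : |SS n - SW w n| ≤ Cs * (1 + Real.log n) ^ 2 / w := hCs n hn0 w (by linarith)
  have h2 : Cs * (1 + Real.log n) ^ 2 / w ≤ 1 := by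
    rw [div_le_one hw0]
    have h5 : (1 + Real.log n) ^ 2 ≤ (2 * L) ^ 2 :=
      pow_le_pow_left₀ (by linarith) (by linarith) 2
    calc Cs * (1 + Real.log n) ^ 2 ≤ Cs * (2 * L) ^ 2 := by gcongr
      _ = 4 * Cs * L ^ 2 := by ring
      _ ≤ L * L ^ 2 := by
          have : 4 * Cs ≤ L := by nlinarith
          gcongr
      _ = L ^ 3 := by ring
      _ ≤ w := hw3
  have h3 : SW w n ≤ SS n + 1 := by
    have := (abs_le.1 (h1.trans h2)).1
    linarith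
  -- the low part
  have hzt : (1 : ℝ) ≤ X5 X := by
    have : (0 : ℝ) ≤ (zt X : ℝ) := Nat.cast_nonneg _
    linarith
  have hX5n : X5 X < n := by
    have h4 : X5 X ≤ X / 4 := by
      unfold X5
      rw [← hL]
      refine div_le_div_of_nonneg_left hX0.le (by norm_num) ?_
      calc (4 : ℝ) ≤ L := by linarith
        _ = L ^ 1 := (pow_one L).symm
        _ ≤ L ^ 5 := pow_le_pow_right₀ hL1 (by norm_num)
    have h5 : (X : ℝ) < 2 * n := by exact_mod_cast hn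
    linarith
  have hfl : ⌊X5 X⌋₊ < n := (Nat.floor_lt (by linarith)).2 hX5n
  have h4 := hX2 X hXX2 w hwN hwle n hnX hne hn0 ⌊X5 X⌋₊ hfl
  have h5 := CMn2_low w n ⌊X5 X⌋₊
  have h6 : (⌊X5 X⌋₊ : ℝ) ≤ X5 X := Nat.floor_le (by linarith)
  have hSS : c ≤ SS n := SS_ge n
  have h7 : ∑ m ∈ Icc 1 ⌊X5 X⌋₊, f2 w m * f2 w (n - m) ≤
      4 * (X5 X * (SS n + 1) + (X : ℝ) ^ (1 - ζ)) := by
    refine h5.trans ?_
    have h8 := (abs_le.1 h4).2
    have h9 : (⌊X5 X⌋₊ : ℝ) * SW w n ≤ X5 X * (SS n + 1) := by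
      calc (⌊X5 X⌋₊ : ℝ) * SW w n ≤ (⌊X5 X⌋₊ : ℝ) * (SS n + 1) :=
            mul_le_mul_of_nonneg_left h3 (Nat.cast_nonneg _)
        _ ≤ X5 X * (SS n + 1) := mul_le_mul_of_nonneg_right h6 (by linarith)
    linarith
  have h8 := CMn2_split w n (X5 X) (by linarith) hX5n
  have hup : ∑ m ∈ (Icc 1 (n - 1)).filter (fun m : ℕ => X5 X < m ∧ X5 X < ((n - m : ℕ) : ℝ)),
      f2 w m * f2 w (n - m) ≤ conv2 w n :=
    Finset.sum_le_sum_of_subset_of_nonneg (Finset.filter_subset _ _)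
      (f := fun m => f2 w m * f2 w (n - m))
      fun m _ _ => mul_nonneg (CMn2_f2_nonneg _ _) (CMn2_f2_nonneg _ _)
  have h10 := abs_le.1 (hX1 X hXX1 n hn0 hnX hne)
  have h11 : X / (16 * L ^ 2) ≤ JJ n := by
    refine le_trans ?_ (hX3 X hXX3 n hn hnX)
    rw [div_le_div_iff₀ (by positivity) (by positivity)]
    have h5 : (X : ℝ) < 2 * n := by exact_mod_cast hn
    have h12 : 0 < L ^ 2 := by positivity
    nlinarith
  have h12 : 384 / (η * c) * L ^ 2 * (X : ℝ) ^ (1 - ζ) ≤ X := by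
    calc 384 / (η * c) * L ^ 2 * (X : ℝ) ^ (1 - ζ) ≤ (X : ℝ) ^ ζ * (X : ℝ) ^ (1 - ζ) :=
          mul_le_mul_of_nonneg_right hpow (Real.rpow_nonneg hX0.le _)
      _ = X := by rw [← Real.rpow_add hX0]; norm_num
  have h13 := CMn2_num (c := c) (η := η) (X := X) (L := L) (S := SS n) (J := JJ n) (Y := X5 X)
    (P := (X : ℝ) ^ (1 - ζ)) (E := X / L ^ 12)
    (Z := ∑ m ∈ Icc 1 ⌊X5 X⌋₊, f2 w m * f2 w (n - m)) hc0 hη hX0 hL1 hSS h11 le_rfl
    (by linarith) le_rfl h12 (by linarith) (by linarith) h7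
  have hZ0 : 0 ≤ ∑ m ∈ Icc 1 ⌊X5 X⌋₊, f2 w m * f2 w (n - m) :=
    Finset.sum_nonneg fun m _ => mul_nonneg (CMn2_f2_nonneg _ _) (CMn2_f2_nonneg _ _)
  refine ⟨?_, mul_nonneg (hc0.le.trans hSS) (le_trans (by positivity) h11)⟩
  rw [abs_le]
  constructor
  · linarith [h10.1]
  · linarith [h10.2]

/-- the pointwise lower bound -/
private theorem CMn2_point (X w n : ℕ) (Y a b : ℝ) (hY : 1 ≤ Y) (ha : 0 ≤ a) (hb : 0 ≤ b)
    (hnX : n ≤ X) (gr ge : ℕ → ℝ)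
    (h1 : ∀ n : ℕ, Y < n → n ≤ X → a ≤ Real.log n * gr n ∧ 0 ≤ ge n ∧
      Real.log n * ge n ≤ b)
    (h2 : ∀ n : ℕ, (n : ℝ) ≤ Y → gr n = 0 ∧ ge n = 0) :
    (a ^ 2 - b ^ 2) *
      ∑ m ∈ (Icc 1 (n - 1)).filter (fun m : ℕ => Y < m ∧ Y < ((n - m : ℕ) : ℝ)),
        f2 w m * f2 w (n - m) ≤
      cvv (fun m => gr m * f1 w m) (fun m => gr m * f1 w m) n -
        cvv (fun m => ge m * f1 w m) (fun m => ge m * f1 w m) n := by
  classical
  unfold cvv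
  rw [← Finset.sum_sub_distrib, Finset.mul_sum]
  have h3 : ∑ m ∈ Icc 1 (n - 1), (gr m * f1 w m * (gr (n - m) * f1 w (n - m)) -
      ge m * f1 w m * (ge (n - m) * f1 w (n - m))) =
      ∑ m ∈ (Icc 1 (n - 1)).filter (fun m : ℕ => Y < m ∧ Y < ((n - m : ℕ) : ℝ)),
        (gr m * f1 w m * (gr (n - m) * f1 w (n - m)) -
          ge m * f1 w m * (ge (n - m) * f1 w (n - m))) := by
    rw [Finset.sum_filter_of_ne]
    intro m _ hne
    by_contra hcon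
    apply hne
    by_cases h4 : Y < m
    · have h5 : ((n - m : ℕ) : ℝ) ≤ Y := by
        by_contra h8
        exact hcon ⟨h4, not_le.1 h8⟩
      rw [(h2 _ h5).1, (h2 _ h5).2]
      ring
    · rw [(h2 _ (not_lt.1 h4)).1, (h2 _ (not_lt.1 h4)).2]
      ring
  rw [h3]
  refine Finset.sum_le_sum fun m hm => ?_
  rw [Finset.mem_filter, Finset.mem_Icc] at hm
  obtain ⟨⟨h4, h5⟩, h6, h7⟩ := hm
  obtain ⟨a1, a2, a3⟩ := h1 m h6 (by omega)
  obtain ⟨b1, b2, b3⟩ := h1 (n - m) h7 (by omega)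
  have hl1 : 0 < Real.log (m : ℝ) := Real.log_pos (by linarith)
  have hl2 : 0 < Real.log ((n - m : ℕ) : ℝ) := Real.log_pos (by linarith)
  unfold f2
  have hf1 := f1_nonneg w m
  have hf2 := f1_nonneg w (n - m)
  set l1 := Real.log (m : ℝ) with hl1d
  set l2 := Real.log ((n - m : ℕ) : ℝ) with hl2d
  have hprod : a ^ 2 - b ^ 2 ≤
      (l1 * gr m) * (l2 * gr (n - m)) - (l1 * ge m) * (l2 * ge (n - m)) := by
    have c1 : a * a ≤ (l1 * gr m) * (l2 * gr (n - m)) :=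
      mul_le_mul a1 b1 ha (by linarith)
    have c2 : (l1 * ge m) * (l2 * ge (n - m)) ≤ b * b :=
      mul_le_mul a3 b3 (mul_nonneg hl2.le b2) hb
    nlinarith
  have hd : (a ^ 2 - b ^ 2) / (l1 * l2) ≤ gr m * gr (n - m) - ge m * ge (n - m) := by
    rw [div_le_iff₀ (mul_pos hl1 hl2)]
    linarith
  calc (a ^ 2 - b ^ 2) * (f1 w m / l1 * (f1 w (n - m) / l2)) =
        (a ^ 2 - b ^ 2) / (l1 * l2) * (f1 w m * f1 w (n - m)) := by
        field_simp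
    _ ≤ (gr m * gr (n - m) - ge m * ge (n - m)) * (f1 w m * f1 w (n - m)) :=
        mul_le_mul_of_nonneg_right hd (mul_nonneg hf1 hf2)
    _ = _ := by ring

theorem main_lo (a b δ : ℝ) (hδ : 0 < δ) (ha : 0 ≤ a) (hb : 0 ≤ b) : ∃ D0 : ℕ, ∀ D' : ℕ,
    D0 ≤ D' → ∃ X0 : ℕ, ∀ X : ℕ, X0 ≤ X → ∀ gr ge : ℕ → ℝ,
    (∀ n : ℕ, X5 X < n → n ≤ X → a ≤ Real.log n * gr n ∧ 0 ≤ ge n ∧ Real.log n * ge n ≤ b) →
    (∀ n : ℕ, (n : ℝ) ≤ X5 X → gr n = 0 ∧ ge n = 0) → ∀ n : ℕ, X < 2 * n → n ≤ X → Even n →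
    (a ^ 2 - b ^ 2 - δ) * (SS n * JJ n) ≤
      cvv (fun m => gr m * f1 (wX D' X) m) (fun m => gr m * f1 (wX D' X) m) n -
      cvv (fun m => ge m * f1 (wX D' X) m) (fun m => ge m * f1 (wX D' X) m) n := by
  have hη : 0 < δ / (a ^ 2 + b ^ 2 + 1) := by positivity
  obtain ⟨D0, hD0⟩ := filt_asym _ hη
  refine ⟨D0, fun D' hD' => ?_⟩
  obtain ⟨X1, hX1⟩ := hD0 D' hD'
  obtain ⟨X6, hX6⟩ := X5_ge
  refine ⟨max X1 X6, fun X hX gr ge hg1 hg2 n hn hnX hne => ?_⟩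
  simp only [max_le_iff] at hX
  obtain ⟨hXX1, hXX6⟩ := hX
  obtain ⟨hz, hX5X⟩ := hX6 X hXX6
  have hzt : (1 : ℝ) ≤ X5 X := by
    have : (0 : ℝ) ≤ (zt X : ℝ) := Nat.cast_nonneg _
    linarith
  obtain ⟨h1, h2⟩ := hX1 X hXX1 n hn hnX hne
  refine le_trans ?_ (CMn2_point X (wX D' X) n (X5 X) a b hzt ha hb hnX gr ge hg1 hg2)
  set F : ℝ := ∑ m ∈ (Icc 1 (n - 1)).filter (fun m : ℕ => X5 X < m ∧ X5 X < ((n - m : ℕ) : ℝ)),
    f2 (wX D' X) m * f2 (wX D' X) (n - m) with hF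
  set V : ℝ := SS n * JJ n with hV
  have h3 : |(a ^ 2 - b ^ 2) * (F - V)| ≤ δ * V := by
    rw [abs_mul]
    have h4 : |a ^ 2 - b ^ 2| ≤ a ^ 2 + b ^ 2 + 1 := by
      rw [abs_le]
      constructor <;> nlinarith [sq_nonneg a, sq_nonneg b]
    calc |a ^ 2 - b ^ 2| * |F - V| ≤
        (a ^ 2 + b ^ 2 + 1) * (δ / (a ^ 2 + b ^ 2 + 1) * V) :=
          mul_le_mul h4 h1 (abs_nonneg _) (by positivity)
      _ = δ * V := by
          field_simp
  have h5 := (abs_le.1 h3).1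
  nlinarith

theorem main_up (c δ : ℝ) (hδ : 0 < δ) : ∃ D0 : ℕ, ∀ D' : ℕ,
    D0 ≤ D' → ∃ X0 : ℕ, ∀ X : ℕ, X0 ≤ X → ∀ h : ℕ → ℝ,
    (∀ n : ℕ, X5 X < n → n ≤ X → 0 ≤ h n ∧ Real.log n * h n ≤ c) →
    (∀ n : ℕ, (n : ℝ) ≤ X5 X → h n = 0) → ∀ n : ℕ, X < 2 * n → n ≤ X → Even n →
    cvv (fun m => h m * f1 (wX D' X) m) (fun m => h m * f1 (wX D' X) m) n ≤
      (c ^ 2 + δ) * (SS n * JJ n) := by
  classical
  have hη : 0 < δ / (c ^ 2 + 1) := by positivity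
  obtain ⟨D0, hD0⟩ := filt_asym _ hη
  refine ⟨D0, fun D' hD' => ?_⟩
  obtain ⟨X1, hX1⟩ := hD0 D' hD'
  obtain ⟨X6, hX6⟩ := X5_ge
  refine ⟨max X1 X6, fun X hX h hg1 hg2 n hn hnX hne => ?_⟩
  simp only [max_le_iff] at hX
  obtain ⟨hXX1, hXX6⟩ := hX
  obtain ⟨hz, hX5X⟩ := hX6 X hXX6
  have hzt : (1 : ℝ) ≤ X5 X := by
    have : (0 : ℝ) ≤ (zt X : ℝ) := Nat.cast_nonneg _
    linarith
  obtain ⟨h1, h2⟩ := hX1 X hXX1 n hn hnX hne
  set w : ℕ := wX D' X with hw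
  set V : ℝ := SS n * JJ n with hV
  have hpt : cvv (fun m => h m * f1 w m) (fun m => h m * f1 w m) n ≤
      c ^ 2 * ∑ m ∈ (Icc 1 (n - 1)).filter
        (fun m : ℕ => X5 X < m ∧ X5 X < ((n - m : ℕ) : ℝ)), f2 w m * f2 w (n - m) := by
    unfold cvv
    rw [Finset.mul_sum]
    have h3 : ∑ m ∈ Icc 1 (n - 1), (h m * f1 w m * (h (n - m) * f1 w (n - m))) =
        ∑ m ∈ (Icc 1 (n - 1)).filter (fun m : ℕ => X5 X < m ∧ X5 X < ((n - m : ℕ) : ℝ)),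
          (h m * f1 w m * (h (n - m) * f1 w (n - m))) := by
      rw [Finset.sum_filter_of_ne]
      intro m _ hne
      by_contra hcon
      apply hne
      by_cases h4 : X5 X < m
      · have h5 : ((n - m : ℕ) : ℝ) ≤ X5 X := by
          by_contra h8
          exact hcon ⟨h4, not_le.1 h8⟩
        rw [hg2 _ h5]
        ring
      · rw [hg2 _ (not_lt.1 h4)]
        ring
    rw [h3]
    refine Finset.sum_le_sum fun m hm => ?_
    rw [Finset.mem_filter, Finset.mem_Icc] at hm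
    obtain ⟨⟨h4, h5⟩, h6, h7⟩ := hm
    obtain ⟨a1, a2⟩ := hg1 m h6 (by omega)
    obtain ⟨b1, b2⟩ := hg1 (n - m) h7 (by omega)
    have hl1 : 0 < Real.log (m : ℝ) := Real.log_pos (by linarith)
    have hl2 : 0 < Real.log ((n - m : ℕ) : ℝ) := Real.log_pos (by linarith)
    unfold f2
    have hf1 := f1_nonneg w m
    have hf2 := f1_nonneg w (n - m)
    set l1 := Real.log (m : ℝ) with hl1d
    set l2 := Real.log ((n - m : ℕ) : ℝ) with hl2d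
    have hprod : (l1 * h m) * (l2 * h (n - m)) ≤ c ^ 2 := by
      rw [sq]
      exact mul_le_mul a2 b2 (mul_nonneg hl2.le b1) ((mul_nonneg hl1.le a1).trans a2)
    have hd : h m * h (n - m) ≤ c ^ 2 / (l1 * l2) := by
      rw [le_div_iff₀ (mul_pos hl1 hl2)]
      linarith
    calc h m * f1 w m * (h (n - m) * f1 w (n - m)) =
          (h m * h (n - m)) * (f1 w m * f1 w (n - m)) := by ring
      _ ≤ c ^ 2 / (l1 * l2) * (f1 w m * f1 w (n - m)) :=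
          mul_le_mul_of_nonneg_right hd (mul_nonneg hf1 hf2)
      _ = c ^ 2 * (f1 w m / l1 * (f1 w (n - m) / l2)) := by
          field_simp
  refine hpt.trans ?_
  set F : ℝ := ∑ m ∈ (Icc 1 (n - 1)).filter (fun m : ℕ => X5 X < m ∧ X5 X < ((n - m : ℕ) : ℝ)),
    f2 w m * f2 w (n - m) with hF
  have h3 : F ≤ V + δ / (c ^ 2 + 1) * V := by
    have := (abs_le.1 h1).2
    linarith
  calc c ^ 2 * F ≤ c ^ 2 * (V + δ / (c ^ 2 + 1) * V) :=
        mul_le_mul_of_nonneg_left h3 (sq_nonneg c)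
    _ = c ^ 2 * V + (c ^ 2 / (c ^ 2 + 1)) * (δ * V) := by
        field_simp
    _ ≤ c ^ 2 * V + 1 * (δ * V) := by
        have h4 : c ^ 2 / (c ^ 2 + 1) ≤ 1 := by
          rw [div_le_one (by positivity)]
          linarith
        have h5 : 0 ≤ δ * V := mul_nonneg hδ.le h2
        have := mul_le_mul_of_nonneg_right h4 h5
        linarith
    _ = (c ^ 2 + δ) * V := by ring

end Pool.MP_dd84fd_nt.IY
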