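import Pool.Agent.Lib.MP_dd84fd_nt.IY.CDen
import Pool.Agent.Lib.MP_dd84fd_nt.IY.CCl
import Pool.Agent.Lib.MP_dd84fd_nt.IY.CMn2
import Pool.Agent.Lib.MP_dd84fd_nt.IY.FabDefs

/-!
# IY-CFab (0.5 h): the two-sided bound for `g`

Same proof as `IY/CFin.lean` (`final_c`). Lower bound: `main_lo a b (δ/2)` for `gr = gty R`, `ge = gty E` (`≥ 0` by `gty_nonneg`, `0` for `n ≤ X5`), `Clo R`, `Clo E`: `cvv (wty R) (wty R) - cvv (wty E) (wty E) ≥ (a² - b² - δ/2) SS JJ - 2 X/L^5`, `cl_num`, `vec_sieve`, `pI_le_g`; `2 X/L^5 ≤ (δ/2) SS JJ` for `X` large (`JJ_ge`, `SS_ge`; as `herr` in CFin).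
Upper bound: `main_up c (δ/2)` for `h = gty (R + E)`: `h = gty R + gty E` (`gty_add`) `≥ 0`, because `gty_lower` gives `gty R ≥ 1/log n - gty E` or similar and `log n > 0`; `Clo (R+E)`: `cvv (wty (R+E)) (wty (R+E)) ≤ (c² + δ/2) SS JJ + X/L^5`. Pointwise `0 ≤ pI ≤ wty R + wty E = wty (R+E)` (`cl_num`), so `cvv pI pI ≤ cvv (wty (R+E)) (wty (R+E))`.
`g_le_pI`: a representation `n = m + (n-m)` counted by `g` and not by `cvv pI pI` has `m ≤ X5` or `n - m ≤ X5` (`1 ≤ m ≤ n - 1` since both are primes): at most `2 (X5 + 1)`; `2 (X/L^5 + 1) + X/L^5 ≤ (δ/2) SS JJ` for `X` large.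
-/

set_option autoImplicit false

namespace Pool.MP_dd84fd_nt.IY

open Finset Pool.MP_67663b_nt.Odd Pool.MP_dd84fd_nt.En Pool.MP_dd84fd_nt.E2 Pool.MP_dd84fd_nt.HX

theorem g_le_pI (X n : ℕ) (hnX : n ≤ X) (hX : 0 ≤ X5 X) :
    (g n : ℝ) ≤ cvv (pI X) (pI X) n + 2 * (X5 X + 1) := by
  classical
  set A : Finset ℕ := (Icc 1 (n - 1)).filter (fun m : ℕ => (X5 X < m ∧ m.Prime) ∧
    (X5 X < ((n - m : ℕ) : ℝ) ∧ (n - m).Prime)) with hA
  set B : Finset ℕ := range (⌊X5 X⌋₊ + 1) with hB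
  have hsub : (range (n + 1)).filter (fun p => Nat.Prime p ∧ Nat.Prime (n - p)) ⊆
      A ∪ (B ∪ B.image (fun m => n - m)) := by
    intro m hm
    rw [mem_filter, mem_range] at hm
    obtain ⟨h1, h2, h3⟩ := hm
    rw [mem_union, mem_union, mem_image]
    by_cases h4 : X5 X < m
    · by_cases h5 : X5 X < ((n - m : ℕ) : ℝ)
      · left
        rw [hA, mem_filter, mem_Icc]
        have := h2.two_le
        have := h3.two_le
        exact ⟨⟨by omega, by omega⟩, ⟨h4, h2⟩, h5, h3⟩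
      · right
        right
        refine ⟨n - m, ?_, by omega⟩
        rw [hB, mem_range]
        have := Nat.le_floor (not_lt.1 h5)
        omega
    · right
      left
      rw [hB, mem_range]
      have := Nat.le_floor (not_lt.1 h4)
      omega
  have h1 : g n ≤ A.card + (B.card + B.card) := by
    unfold g
    refine (card_le_card hsub).trans ((card_union_le _ _).trans ?_)
    refine Nat.add_le_add_left ((card_union_le _ _).trans ?_) _
    exact Nat.add_le_add_left card_image_le _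
  have h2 : (B.card : ℝ) ≤ X5 X + 1 := by
    rw [hB, card_range]
    push_cast
    have := Nat.floor_le hX
    linarith
  have h3 : (A.card : ℝ) ≤ cvv (pI X) (pI X) n := by
    unfold cvv
    have h4 : (A.card : ℝ) = ∑ m ∈ A, pI X m * pI X (n - m) := by
      rw [card_eq_sum_ones]
      push_cast
      refine sum_congr rfl fun m hm => ?_
      rw [hA, mem_filter, mem_Icc] at hm
      obtain ⟨⟨a1, a2⟩, ⟨a3, a4⟩, a5, a6⟩ := hm
      unfold pI
      rw [if_pos ⟨a3, by omega, a4⟩, if_pos ⟨a5, by omega, a6⟩, one_mul]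
    rw [h4]
    refine sum_le_sum_of_subset_of_nonneg (filter_subset _ _) fun m _ _ => ?_
    refine mul_nonneg ?_ ?_
    · unfold pI
      split_ifs <;> norm_num
    · unfold pI
      split_ifs <;> norm_num
  have h4 : (g n : ℝ) ≤ A.card + (B.card + B.card) := by exact_mod_cast h1
  linarith

theorem final_ab : FinalAB := by
  classical
  intro B' hB a b c δ hδ ha hb
  obtain ⟨D1, hD1⟩ := main_lo a b (δ / 2) (by linarith) ha hb
  obtain ⟨D2, hD2⟩ := main_up c (δ / 2) (by linarith)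
  refine ⟨max D1 D2, fun D' hD' => ?_⟩
  obtain ⟨X1, hX1⟩ := hD1 D' ((le_max_left _ _).trans hD')
  obtain ⟨X1b, hX1b⟩ := hD2 D' ((le_max_right _ _).trans hD')
  obtain ⟨X2, hX2⟩ := gty_nonneg B' hB
  obtain ⟨X3, hX3⟩ := gty_lower B' hB
  obtain ⟨X4, hX4⟩ := cl_num B' hB
  obtain ⟨X5', hX5'⟩ := JJ_ge
  obtain ⟨X6, hX6⟩ := X5_ge
  set c0 : ℝ := 2 * C2 with hc
  have hc0 : 0 < c0 := by have := C2_pos; positivity
  obtain ⟨X7, hX7⟩ := MP_log_large (160 / (δ * c0) + 1)
  refine ⟨max (max (max X1 X2) (max X3 X4)) (max (max X5' X6) (max (max X7 X1b) 2)),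
    fun X hX R E hT hden n hn hnX hne hr he hs => ?_⟩
  simp only [max_le_iff] at hX
  obtain ⟨⟨⟨h1, h2⟩, h3, h4⟩, ⟨h5, h6⟩, ⟨h7, h1b⟩, h2X⟩ := hX
  have hX0 : (0 : ℝ) < X := by exact_mod_cast (by omega : 0 < X)
  obtain ⟨hz, hX5X⟩ := hX6 X h6
  have hz1 : (1 : ℝ) ≤ X5 X := by
    have : (0 : ℝ) ≤ (zt X : ℝ) := Nat.cast_nonneg _
    linarith
  unfold Clo at hr he hs
  -- the main inequality
  have hmain := hX1 X h1 (gty (kp B' X) X R) (gty (kp B' X) X E)
    (fun m hm hmX => by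
      obtain ⟨d1, d2, d3⟩ := hden m hm hmX
      exact ⟨d1, hX2 X h2 R E hT m, d2⟩)
    (fun m hm => by
      have hcon : ¬ (X5 X < m ∧ m ≤ X) := fun h => absurd h.1 (not_lt.2 hm)
      constructor
      · unfold gty
        rw [if_neg hcon]
      · unfold gty
        rw [if_neg hcon])
    n hn hnX hne
  have hmain2 := hX1b X h1b (gty (kp B' X) X (fun T => R T + E T))
    (fun m hm hmX => by
      have hlog : 0 < Real.log (m : ℝ) := Real.log_pos (lt_of_le_of_lt hz1 hm)
      obtain ⟨d1, d2, d3⟩ := hden m hm hmX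
      have a1 := hX3 X h3 R E hT m hm hmX
      refine ⟨?_, d3⟩
      rw [gty_add]
      exact le_trans (by positivity) a1)
    (fun m hm => by
      have hcon : ¬ (X5 X < m ∧ m ≤ X) := fun h => absurd h.1 (not_lt.2 hm)
      unfold gty
      rw [if_neg hcon])
    n hn hnX hne
  -- the vector sieve
  have hcl := hX4 X h4 R E hT
  have hP : ∀ m, 0 ≤ pI X m := by
    intro m
    unfold pI
    split_ifs <;> norm_num
  have hvs := vec_sieve (pI X) (wty (kp B' X) X R) (wty (kp B' X) X E) hP hcl n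
  have hg := pI_le_g X n
  have hg2 := g_le_pI X n hnX (by linarith)
  have hwadd : ∀ m, wty (kp B' X) X (fun T => R T + E T) m =
      wty (kp B' X) X R m + wty (kp B' X) X E m := by
    intro m
    unfold wty
    split_ifs
    · rfl
    · rw [add_zero]
  have hup : cvv (pI X) (pI X) n ≤ cvv (wty (kp B' X) X (fun T => R T + E T))
      (wty (kp B' X) X (fun T => R T + E T)) n := by
    unfold cvv
    refine sum_le_sum fun m _ => ?_
    have e1 : pI X m ≤ wty (kp B' X) X (fun T => R T + E T) m := by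
      rw [hwadd]
      exact (hcl m).2.1
    have e2 : pI X (n - m) ≤ wty (kp B' X) X (fun T => R T + E T) (n - m) := by
      rw [hwadd]
      exact (hcl (n - m)).2.1
    exact mul_le_mul e1 e2 (hP _) ((hP _).trans e1)
  -- the error term
  have hL := hX7 X h7
  have hSS : c0 ≤ SS n := SS_ge n
  have hJJ := hX5' X h5 n hn hnX
  have hX5e : X5 X = X / (Real.log (X : ℝ)) ^ 5 := rfl
  rw [hX5e] at hg2 hz1
  set L := Real.log (X : ℝ) with hLd
  have h1600 : 0 < 160 / (δ * c0) := by positivity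
  have hL1 : 1 ≤ L := by linarith
  have hL0 : 0 < L := by linarith
  have hnr : (X : ℝ) < 2 * n := by exact_mod_cast hn
  have hJ2 : X / (16 * L ^ 2) ≤ JJ n := by
    refine le_trans ?_ hJJ
    rw [div_le_div_iff₀ (by positivity) (by positivity)]
    have h12 : 0 < L ^ 2 := by positivity
    nlinarith
  have hJ0 : 0 ≤ JJ n := le_trans (by positivity) hJ2
  have herr : 5 * (X / L ^ 5) ≤ δ / 2 * (SS n * JJ n) := by
    have e1 : c0 * (X / (16 * L ^ 2)) ≤ SS n * JJ n :=
      mul_le_mul hSS hJ2 (by positivity) (hc0.le.trans hSS)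
    have e2 : 5 * (X / L ^ 5) ≤ δ / 2 * (c0 * (X / (16 * L ^ 2))) := by
      have e3 : δ / 2 * (c0 * (X / (16 * L ^ 2))) =
          (δ * c0 * L ^ 3 / 160) * (5 * (X / L ^ 5)) := by
        field_simp
        norm_num
      rw [e3]
      have e4 : 1 ≤ δ * c0 * L ^ 3 / 160 := by
        rw [le_div_iff₀ (by norm_num), one_mul]
        have e5 : 160 / (δ * c0) ≤ L ^ 3 := by
          calc 160 / (δ * c0) ≤ L := by linarith
            _ = L ^ 1 := (pow_one L).symm
            _ ≤ L ^ 3 := pow_le_pow_right₀ hL1 (by norm_num)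
        rw [div_le_iff₀ (by positivity)] at e5
        linarith
      exact le_mul_of_one_le_left (by positivity) e4
    have e6 : δ / 2 * (c0 * (X / (16 * L ^ 2))) ≤ δ / 2 * (SS n * JJ n) :=
      mul_le_mul_of_nonneg_left e1 (by linarith)
    linarith
  have hXL : 0 ≤ (X : ℝ) / L ^ 5 := by positivity
  have b1 := (abs_le.1 hr).1
  have b2 := (abs_le.1 he).2
  have b3 := (abs_le.1 hs).2
  constructor
  · have f1 : (a ^ 2 - b ^ 2 - δ) * (SS n * JJ n) =
      (a ^ 2 - b ^ 2 - δ / 2) * (SS n * JJ n) - δ / 2 * (SS n * JJ n) := by ring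
    rw [f1]
    linarith
  · have f1 : (c ^ 2 + δ) * (SS n * JJ n) =
      (c ^ 2 + δ / 2) * (SS n * JJ n) + δ / 2 * (SS n * JJ n) := by ring
    rw [f1]
    linarith

end Pool.MP_dd84fd_nt.IY
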