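import Pool.Agent.Lib.MP_dd84fd_nt.IY.CDefs

/-!
# IY-CLi (0.6 h): sums of `1/log` and integrals

Proof. `u ↦ 1/log u` is positive and decreasing on `(1, ∞)`. `li_sum`: for integers `2 ≤ N1 ≤ N2` the sum `Σ_{N1 < m ≤ N2} 1/log m` and `∫_{N1}^{N2} du/log u` differ by at most `1/log 2 ≤ 2`
(`AntitoneOn.sum_le_integral`, `AntitoneOn.integral_le_sum`). `li_sumk`: the same for `u ↦ 1/(k log(u/k))` on `[n1, n2]`, `n1 ≥ 2k`, and substitution `u = x/k` (`intervalIntegral.integral_comp_div`).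
`li_lip`: `a, a', b, b' ≥ 2`, `|1/log| ≤ 2` there; `li a b` changes by at most `2 |a - a'| + 2 |b - b'|` (also when the interval becomes empty: `li a b = ∫_a^max(a,b)`). `li_nonneg`, `li_le`: `0 ≤ li a b ≤ 2 (b - a)` or `0`.
-/

set_option autoImplicit false

namespace Pool.MP_dd84fd_nt.IY

open Finset Pool.MP_67663b_nt.Odd Pool.MP_dd84fd_nt.En Pool.MP_dd84fd_nt.E2 Pool.MP_dd84fd_nt.HX

private lemma li_half_lt_log {u : ℝ} (hu : 2 ≤ u) : 1 / 2 < Real.log u := by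
  have h1 : Real.log 2 ≤ Real.log u := Real.log_le_log (by norm_num) hu
  have h2 := Real.log_two_gt_d9
  linarith

private lemma li_inv_le {u : ℝ} (hu : 2 ≤ u) : 1 / Real.log u ≤ 2 := by
  have h := li_half_lt_log hu
  rw [div_le_iff₀ (by linarith)]
  linarith

private lemma li_inv_pos {u : ℝ} (hu : 2 ≤ u) : 0 < 1 / Real.log u := by
  have h := li_half_lt_log hu
  positivity

private lemma li_anti : AntitoneOn (fun u : ℝ => 1 / Real.log u) (Set.Ici 2) := by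
  intro x hx y hy hxy
  have h := li_half_lt_log (u := x) hx
  exact one_div_le_one_div_of_le (by linarith)
    (Real.log_le_log (by have : (2 : ℝ) ≤ x := hx; linarith) hxy)

private lemma li_anti_sum {f : ℝ → ℝ} {N1 N2 : ℕ} {C : ℝ} (h2 : N1 ≤ N2)
    (hf : AntitoneOn f (Set.Icc (N1 : ℝ) (N2 : ℝ))) (h0 : 0 ≤ f N2) (hC : f N1 ≤ C) :
    |∑ m ∈ Ioc N1 N2, f m - ∫ u in (N1 : ℝ)..(N2 : ℝ), f u| ≤ C := by
  have e1 := AntitoneOn.sum_le_integral_Ico h2 hf
  have e2 := AntitoneOn.integral_le_sum_Ico h2 hf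
  have e3 : ∑ i ∈ Ico N1 N2, f ((i + 1 : ℕ) : ℝ) = ∑ m ∈ Ioc N1 N2, f m := by
    rw [Finset.sum_Ico_add' (fun i : ℕ => f (i : ℝ)) N1 N2 1]
    apply Finset.sum_congr _ (fun _ _ => rfl)
    ext m
    simp only [mem_Ico, mem_Ioc]
    omega
  have e4 : ∑ x ∈ Ico N1 N2, f x + f N2 = f N1 + ∑ m ∈ Ioc N1 N2, f m := by
    have a1 : ∑ x ∈ Ico N1 (N2 + 1), f x = ∑ x ∈ Ico N1 N2, f x + f N2 :=
      Finset.sum_Ico_succ_top h2 (fun i : ℕ => f (i : ℝ))
    have a2 : ∑ x ∈ Ico N1 (N2 + 1), f x = f N1 + ∑ x ∈ Ico (N1 + 1) (N2 + 1), f x :=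
      Finset.sum_eq_sum_Ico_succ_bot (by omega) (fun i : ℕ => f (i : ℝ))
    have a3 : ∑ x ∈ Ico (N1 + 1) (N2 + 1), f x = ∑ m ∈ Ioc N1 N2, f m := by
      apply Finset.sum_congr _ (fun _ _ => rfl)
      ext m
      simp only [mem_Ico, mem_Ioc]
      omega
    rw [← a1, a2, a3]
  rw [e3] at e1
  rw [abs_le]
  constructor <;> linarith

theorem li_sum (N1 N2 : ℕ) (h1 : 2 ≤ N1) (h2 : N1 ≤ N2) :
    |∑ m ∈ Ioc N1 N2, 1 / Real.log m - li N1 N2| ≤ 2 := by
  have h1' : (2 : ℝ) ≤ (N1 : ℝ) := by exact_mod_cast h1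
  have h2' : (N1 : ℝ) ≤ (N2 : ℝ) := by exact_mod_cast h2
  unfold li
  rw [if_pos h2']
  refine li_anti_sum (f := fun u : ℝ => 1 / Real.log u) h2 (li_anti.mono ?_) ?_ ?_
  · intro x hx
    exact h1'.trans hx.1
  · exact (li_inv_pos (h1'.trans h2')).le
  · exact li_inv_le h1'

theorem li_sumk (k n1 n2 : ℕ) (hk : 1 ≤ k) (h1 : 2 * k ≤ n1) (h2 : n1 ≤ n2) :
    |∑ n ∈ Ioc n1 n2, 1 / ((k : ℝ) * Real.log ((n : ℝ) / k)) -
      li ((n1 : ℝ) / k) ((n2 : ℝ) / k)| ≤ 2 / k := by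
  have hk0 : (0 : ℝ) < k := by exact_mod_cast hk
  have h1' : 2 * (k : ℝ) ≤ (n1 : ℝ) := by exact_mod_cast h1
  have h2' : (n1 : ℝ) ≤ (n2 : ℝ) := by exact_mod_cast h2
  have hq : ∀ {x : ℝ}, (n1 : ℝ) ≤ x → 2 ≤ x / k := by
    intro x hx
    rw [le_div_iff₀ hk0]
    linarith
  have e1 : li ((n1 : ℝ) / k) ((n2 : ℝ) / k) =
      ∫ x in (n1 : ℝ)..(n2 : ℝ), 1 / ((k : ℝ) * Real.log (x / k)) := by
    unfold li
    rw [if_pos (div_le_div_of_nonneg_right h2' hk0.le)]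
    have h := intervalIntegral.integral_comp_div (a := (n1 : ℝ)) (b := (n2 : ℝ))
      (fun u : ℝ => 1 / Real.log u) hk0.ne'
    have e2 : (fun x : ℝ => 1 / ((k : ℝ) * Real.log (x / k))) =
        fun x : ℝ => (1 / (k : ℝ)) * (1 / Real.log (x / k)) := by
      funext x
      rw [one_div_mul_one_div]
    rw [e2, intervalIntegral.integral_const_mul, h, smul_eq_mul, ← mul_assoc,
      one_div_mul_cancel hk0.ne', one_mul]
  rw [e1]
  refine li_anti_sum (f := fun x : ℝ => 1 / ((k : ℝ) * Real.log (x / k))) h2 ?_ ?_ ?_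
  · intro x hx y hy hxy
    have a1 := li_half_lt_log (hq hx.1)
    have a2 := hq hx.1
    refine one_div_le_one_div_of_le (mul_pos hk0 (by linarith)) ?_
    refine mul_le_mul_of_nonneg_left ?_ hk0.le
    exact Real.log_le_log (by linarith) (div_le_div_of_nonneg_right hxy hk0.le)
  · have a1 := li_half_lt_log (hq h2')
    have : 0 < (k : ℝ) * Real.log ((n2 : ℝ) / k) := mul_pos hk0 (by linarith)
    exact (one_div_pos.2 this).le
  · have a1 := li_inv_le (hq (le_refl (n1 : ℝ)))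
    change 1 / ((k : ℝ) * Real.log ((n1 : ℝ) / k)) ≤ 2 / k
    rw [← one_div_mul_one_div]
    calc (1 / (k : ℝ)) * (1 / Real.log ((n1 : ℝ) / k)) ≤ (1 / (k : ℝ)) * 2 :=
          mul_le_mul_of_nonneg_left a1 (by positivity)
      _ = 2 / k := by ring

private lemma li_intble {a b : ℝ} (ha : 2 ≤ a) (hb : 2 ≤ b) :
    IntervalIntegrable (fun u : ℝ => 1 / Real.log u) MeasureTheory.volume a b := by
  apply AntitoneOn.intervalIntegrable
  apply li_anti.mono
  intro x hx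
  exact (le_min ha hb).trans hx.1

private lemma li_sub {a b : ℝ} (ha : 2 ≤ a) (hb : 2 ≤ b) :
    (∫ u in (2 : ℝ)..b, 1 / Real.log u) - ∫ u in (2 : ℝ)..a, 1 / Real.log u =
      ∫ u in a..b, 1 / Real.log u :=
  intervalIntegral.integral_interval_sub_left (li_intble le_rfl hb) (li_intble le_rfl ha)

private lemma li_int_nonneg {a b : ℝ} (ha : 2 ≤ a) (hab : a ≤ b) :
    0 ≤ ∫ u in a..b, 1 / Real.log u := by
  apply intervalIntegral.integral_nonneg hab
  intro u hu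
  exact (li_inv_pos (ha.trans hu.1)).le

private lemma li_abs {a b : ℝ} (ha : 2 ≤ a) (hb : 2 ≤ b) :
    |∫ u in a..b, 1 / Real.log u| ≤ 2 * |b - a| := by
  have h := intervalIntegral.norm_integral_le_of_norm_le_const (a := a) (b := b) (C := 2)
    (f := fun u : ℝ => 1 / Real.log u) (by
      intro u hu
      have hu2 : 2 ≤ u := by
        have := hu.1
        exact (le_min ha hb).trans this.le
      rw [Real.norm_eq_abs, abs_of_pos (li_inv_pos hu2)]
      exact li_inv_le hu2)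
  rwa [Real.norm_eq_abs] at h

private lemma li_eq_max {a b : ℝ} (ha : 2 ≤ a) (hb : 2 ≤ b) :
    li a b = max 0 ((∫ u in (2 : ℝ)..b, 1 / Real.log u) - ∫ u in (2 : ℝ)..a, 1 / Real.log u) := by
  rw [li_sub ha hb]
  unfold li
  split_ifs with h
  · rw [max_eq_right (li_int_nonneg ha h)]
  · rw [max_eq_left]
    rw [intervalIntegral.integral_symm]
    have := li_int_nonneg hb (le_of_lt (not_le.1 h))
    linarith

theorem li_lip (a a' b b' : ℝ) (ha : 2 ≤ a) (ha' : 2 ≤ a') (hb : 2 ≤ b) (hb' : 2 ≤ b') :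
    |li a b - li a' b'| ≤ 2 * |a - a'| + 2 * |b - b'| := by
  rw [li_eq_max ha hb, li_eq_max ha' hb']
  refine (abs_max_sub_max_le_max _ _ _ _).trans ?_
  rw [sub_self, abs_zero]
  apply max_le (by positivity)
  have e1 := li_abs ha ha'
  have e2 := li_abs hb' hb
  rw [← li_sub ha ha'] at e1
  rw [← li_sub hb' hb] at e2
  rw [abs_sub_comm a' a] at e1
  set A := ∫ u in (2 : ℝ)..a, 1 / Real.log u
  set A' := ∫ u in (2 : ℝ)..a', 1 / Real.log u
  set B := ∫ u in (2 : ℝ)..b, 1 / Real.log u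
  set B' := ∫ u in (2 : ℝ)..b', 1 / Real.log u
  have e3 : B - A - (B' - A') = (A' - A) + (B - B') := by ring
  rw [e3]
  exact (abs_add_le _ _).trans (add_le_add e1 e2)

theorem li_nonneg (a b : ℝ) (ha : 2 ≤ a) : 0 ≤ li a b := by
  unfold li
  split_ifs with h
  · exact li_int_nonneg ha h
  · exact le_rfl

end Pool.MP_dd84fd_nt.IY
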