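import Pool.Agent.Lib.MP_dd84fd_nt.IY.CLi
import Pool.Agent.Lib.MP_dd84fd_nt.IY.CBx
import Pool.Agent.Lib.MP_dd84fd_nt.E2.RoughClass

/-!
# IY-CMo (0.8 h): the model over intervals in residue classes

Proof. The conditions say `n ∈ (n1, n2]` or `[..]` with `n1 = max(⌊s⌋, ⌈k a⌉ - 1)`, `n2 = min(t, ⌈k b⌉ - 1)` (an interval of integers; empty if `n2 ≤ n1`). `h(n) = 1/(k log(n/k))` is positive and decreasing for `n/k ≥ a ≥ z`, `h ≤ 1/k`. `rough_class (D := D')` (`wX D' X ≤ L^D'`; every prime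
`p ∣ q` is `≤ L^B ≤ L^D'`, so `≤ wX D' X`; `q ≤ X`): `Σ_{n ≤ u, n ≡ c} f1 n = u/φ(q) + O(X^(1-η))` for `u ≤ X`; Abel summation with `h` on `(n1, n2]` (see `pi_abel` in E2/PiSW, `FC_abel` in E2/F2Class): `Σ f1 h = (1/φ(q)) Σ_{n1 < n ≤ n2} h(n) + O(2 X^(1-η)/k)`.
`li_sumk` and `li_lip` (`|n1/k - max(a, s/k)| ≤ 2/k` ...): the sum of `h` is `li (max a (s/k)) (min b (t/k)) + O(12/k)`. If the interval is empty `li ≤ 4/k`. Final `η' = η/2`.
-/

set_option autoImplicit false

namespace Pool.MP_dd84fd_nt.IY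

open Finset Pool.MP_67663b_nt.Odd Pool.MP_dd84fd_nt.En Pool.MP_dd84fd_nt.E2 Pool.MP_dd84fd_nt.HX

/-- partial summation against a nonnegative decreasing weight -/
private theorem mo_abel (a b : ℕ → ℝ) (m T : ℕ) (M : ℝ) (hb : ∀ n, m ≤ n → 0 ≤ b n)
    (hanti : ∀ n, m ≤ n → b (n + 1) ≤ b n)
    (hS : ∀ u, m ≤ u → u ≤ T → |∑ n ∈ Icc m u, a n| ≤ M)
    (t : ℕ) (ht : m ≤ t) (htT : t ≤ T) : |∑ n ∈ Icc m t, a n * b n| ≤ M * b m := by
  have key : ∀ t, m ≤ t → t ≤ T →
      |∑ n ∈ Icc m t, a n * b n - (∑ n ∈ Icc m t, a n) * b t| ≤ M * (b m - b t) := by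
    intro t ht
    induction t, ht using Nat.le_induction with
    | base => intro _; simp
    | succ t ht ih =>
      intro htT
      have ih := ih (by omega)
      rw [sum_Icc_succ_top (by omega), sum_Icc_succ_top (by omega)]
      have h1 : ∑ n ∈ Icc m t, a n * b n + a (t + 1) * b (t + 1) -
          (∑ n ∈ Icc m t, a n + a (t + 1)) * b (t + 1) =
          (∑ n ∈ Icc m t, a n * b n - (∑ n ∈ Icc m t, a n) * b t) +
          (∑ n ∈ Icc m t, a n) * (b t - b (t + 1)) := by ring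
      rw [h1]
      refine (abs_add_le _ _).trans ?_
      have h2 : |(∑ n ∈ Icc m t, a n) * (b t - b (t + 1))| ≤ M * (b t - b (t + 1)) := by
        rw [abs_mul, abs_of_nonneg (sub_nonneg.2 (hanti t ht))]
        exact mul_le_mul_of_nonneg_right (hS t ht (by omega)) (sub_nonneg.2 (hanti t ht))
      have h3 : M * (b m - b (t + 1)) = M * (b m - b t) + M * (b t - b (t + 1)) := by ring
      rw [h3]
      exact add_le_add ih h2
  have h1 := key t ht htT
  have h2 : |(∑ n ∈ Icc m t, a n) * b t| ≤ M * b t := by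
    rw [abs_mul, abs_of_nonneg (hb t ht)]
    exact mul_le_mul_of_nonneg_right (hS t ht htT) (hb t ht)
  have h3 : ∑ n ∈ Icc m t, a n * b n = (∑ n ∈ Icc m t, a n * b n - (∑ n ∈ Icc m t, a n) * b t) +
      (∑ n ∈ Icc m t, a n) * b t := by ring
  rw [h3]
  refine (abs_add_le _ _).trans ?_
  have h4 : M * b m = M * (b m - b t) + M * b t := by ring
  rw [h4]
  exact add_le_add h1 h2

private theorem mo_n1 (k : ℕ) (s a : ℝ) (hk : 1 ≤ k) (hs : 0 ≤ s) (ha : 1 ≤ a) :
    |((max ⌊s⌋₊ (⌈(k : ℝ) * a⌉₊ - 1) : ℕ) : ℝ) / k - max a (s / k)| ≤ 1 / k := by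
  have hk' : (1 : ℝ) ≤ k := by exact_mod_cast hk
  have hk0 : (0 : ℝ) < k := by linarith
  have hka : 1 ≤ (k : ℝ) * a := by nlinarith
  have hc1 : 1 ≤ ⌈(k : ℝ) * a⌉₊ := Nat.one_le_ceil_iff.2 (by linarith)
  have hf1 : (⌊s⌋₊ : ℝ) ≤ s := Nat.floor_le hs
  have hf2 : s < (⌊s⌋₊ : ℝ) + 1 := Nat.lt_floor_add_one s
  have hg1 : (k : ℝ) * a ≤ ⌈(k : ℝ) * a⌉₊ := Nat.le_ceil _
  have hg2 : (⌈(k : ℝ) * a⌉₊ : ℝ) < k * a + 1 := Nat.ceil_lt_add_one (by linarith)
  have e1 : max a (s / k) = max (k * a) s / k := by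
    rw [← max_div_div_right hk0.le, mul_div_cancel_left₀ _ hk0.ne']
  rw [e1, ← sub_div, abs_div, abs_of_pos hk0]
  refine div_le_div_of_nonneg_right ?_ hk0.le
  rw [Nat.cast_max, Nat.cast_sub hc1, Nat.cast_one, abs_le]
  constructor
  · rcases le_total (k * a) s with h | h
    · rw [max_eq_right h]
      have := le_max_left (⌊s⌋₊ : ℝ) ((⌈(k : ℝ) * a⌉₊ : ℝ) - 1)
      linarith
    · rw [max_eq_left h]
      have := le_max_right (⌊s⌋₊ : ℝ) ((⌈(k : ℝ) * a⌉₊ : ℝ) - 1)
      linarith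
  · have h1 : max (⌊s⌋₊ : ℝ) ((⌈(k : ℝ) * a⌉₊ : ℝ) - 1) ≤ max (k * a) s :=
      max_le (hf1.trans (le_max_right _ _)) ((by linarith : _ ≤ (k : ℝ) * a).trans (le_max_left _ _))
    linarith

private theorem mo_n2 (k t : ℕ) (b : ℝ) (hk : 1 ≤ k) (hb : 0 < b) :
    |((min t (⌈(k : ℝ) * b⌉₊ - 1) : ℕ) : ℝ) / k - min b ((t : ℝ) / k)| ≤ 1 / k := by
  have hk' : (1 : ℝ) ≤ k := by exact_mod_cast hk
  have hk0 : (0 : ℝ) < k := by linarith
  have hkb : 0 < (k : ℝ) * b := by positivity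
  have hc1 : 1 ≤ ⌈(k : ℝ) * b⌉₊ := Nat.one_le_ceil_iff.2 hkb
  have hg1 : (k : ℝ) * b ≤ ⌈(k : ℝ) * b⌉₊ := Nat.le_ceil _
  have hg2 : (⌈(k : ℝ) * b⌉₊ : ℝ) < k * b + 1 := Nat.ceil_lt_add_one hkb.le
  have e1 : min b ((t : ℝ) / k) = min (k * b) t / k := by
    rw [← min_div_div_right hk0.le, mul_div_cancel_left₀ _ hk0.ne']
  rw [e1, ← sub_div, abs_div, abs_of_pos hk0]
  refine div_le_div_of_nonneg_right ?_ hk0.le
  rw [Nat.cast_min, Nat.cast_sub hc1, Nat.cast_one, abs_le]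
  constructor
  · have h1 : min ((k : ℝ) * b) t - 1 ≤ min (t : ℝ) ((⌈(k : ℝ) * b⌉₊ : ℝ) - 1) := by
      refine le_min ?_ ?_
      · have := min_le_right ((k : ℝ) * b) t
        linarith
      · have := min_le_left ((k : ℝ) * b) t
        linarith
    linarith
  · rcases le_total ((k : ℝ) * b) t with h | h
    · rw [min_eq_left h]
      have := min_le_right (t : ℝ) ((⌈(k : ℝ) * b⌉₊ : ℝ) - 1)
      linarith
    · rw [min_eq_right h]
      have := min_le_left (t : ℝ) ((⌈(k : ℝ) * b⌉₊ : ℝ) - 1)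
      linarith

private theorem mo_filter (q c t k : ℕ) (s a b : ℝ) (hk : 1 ≤ k) (hs : 0 ≤ s) :
    (Icc 1 t).filter (fun n : ℕ => n ≡ c [MOD q] ∧ s < (n : ℝ) ∧ a ≤ (n : ℝ) / k ∧
        (n : ℝ) / k < b) =
    (Icc (max ⌊s⌋₊ (⌈(k : ℝ) * a⌉₊ - 1) + 1) (min t (⌈(k : ℝ) * b⌉₊ - 1))).filter
      (fun n => n ≡ c [MOD q]) := by
  have hk' : (1 : ℝ) ≤ k := by exact_mod_cast hk
  have hk0 : (0 : ℝ) < k := by linarith
  ext n
  rw [mem_filter, mem_filter, mem_Icc, mem_Icc, ← Nat.floor_lt hs, le_div_iff₀ hk0, div_lt_iff₀ hk0,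
    mul_comm a, mul_comm b, ← Nat.ceil_le, ← Nat.lt_ceil]
  constructor
  · rintro ⟨⟨h1, h2⟩, h3, h4, h5, h6⟩
    refine ⟨⟨?_, ?_⟩, h3⟩ <;> omega
  · rintro ⟨⟨h1, h2⟩, h3⟩
    refine ⟨⟨?_, ?_⟩, h3, ?_, ?_, ?_⟩ <;> omega

private theorem mo_li_self (a : ℝ) : li a a = 0 := by
  unfold li
  simp

private theorem mo_logpow (B : ℕ) : ∃ X0 : ℕ, ∀ X : ℕ, X0 ≤ X → (Real.log X) ^ B ≤ X := by
  have h1 : (fun x : ℝ => Real.log x ^ (B : ℝ)) =o[Filter.atTop] fun x : ℝ => x ^ (1 : ℝ) :=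
    isLittleO_log_rpow_rpow_atTop _ (by norm_num)
  have h2 := (h1.bound one_pos)
  have h3 : ∀ᶠ x : ℝ in Filter.atTop, Real.log x ^ B ≤ x := by
    filter_upwards [h2, Filter.eventually_ge_atTop (1 : ℝ)] with x hx hx1
    have h4 : 0 ≤ Real.log x := Real.log_nonneg hx1
    rw [Real.rpow_natCast, Real.norm_of_nonneg (by positivity), one_mul,
      Real.norm_of_nonneg (by positivity), Real.rpow_one] at hx
    exact hx
  exact Filter.eventually_atTop.1 (tendsto_natCast_atTop_atTop.eventually h3)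

theorem mo_class (D' B : ℕ) (hD : 1 ≤ D') (hB : B ≤ D') : ∃ η : ℝ, 0 < η ∧ ∃ X0 : ℕ, ∀ X : ℕ,
    X0 ≤ X → ∀ q c : ℕ, 1 ≤ q → (q : ℝ) ≤ (Real.log X) ^ B → Nat.Coprime c q →
    ∀ (t k : ℕ) (s a b : ℝ), t ≤ X → 1 ≤ k → 0 ≤ s → (zt X : ℝ) ≤ a →
    |∑ n ∈ (Icc 1 t).filter (fun n : ℕ => n ≡ c [MOD q] ∧ s < (n : ℝ) ∧ a ≤ (n : ℝ) / k ∧
        (n : ℝ) / k < b), f1 (wX D' X) n / ((k : ℝ) * Real.log ((n : ℝ) / k)) -
      li (max a (s / k)) (min b ((t : ℝ) / k)) / (Nat.totient q : ℝ)| ≤ (X : ℝ) ^ (1 - η) / k := by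
  obtain ⟨η, hη, hη4, X1, hX1⟩ := rough_class D' hD
  obtain ⟨X2, hX2⟩ := mo_logpow B
  have hev : ∀ᶠ X : ℕ in Filter.atTop, (10 : ℝ) ≤ (X : ℝ) ^ (η / 2) :=
    ((tendsto_rpow_atTop (by positivity : 0 < η / 2)).comp
      tendsto_natCast_atTop_atTop).eventually_ge_atTop 10
  have hev2 : ∀ᶠ X : ℕ in Filter.atTop, (3 : ℝ) ≤ (X : ℝ) ^ (1 / 10 : ℝ) :=
    ((tendsto_rpow_atTop (by norm_num : (0 : ℝ) < 1 / 10)).comp
      tendsto_natCast_atTop_atTop).eventually_ge_atTop 3
  obtain ⟨X3, hX3⟩ := Filter.eventually_atTop.1 (hev.and hev2)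
  refine ⟨η / 2, by positivity, max (max X1 X2) (max X3 3), ?_⟩
  intro X hX q c hq hqL hc t k s a b htX hk hs ha
  have hXa : X1 ≤ X := (le_max_left _ _).trans ((le_max_left _ _).trans hX)
  have hXb : X2 ≤ X := (le_max_right _ _).trans ((le_max_left _ _).trans hX)
  have hXc : X3 ≤ X := (le_max_left _ _).trans ((le_max_right _ _).trans hX)
  have hXd : 3 ≤ X := (le_max_right _ _).trans ((le_max_right _ _).trans hX)
  have hX3' : (3 : ℝ) ≤ X := by exact_mod_cast hXd
  have hXpos : (0 : ℝ) < X := by linarith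
  obtain ⟨h8, hz3⟩ := hX3 X hXc
  have ha3 : 3 ≤ a := (hz3.trans (zt_ge X)).trans ha
  have hL1 : 1 ≤ Real.log X := by
    rw [Real.le_log_iff_exp_le hXpos]
    have := Real.exp_one_lt_d9
    linarith
  have hk' : (1 : ℝ) ≤ k := by exact_mod_cast hk
  have hk0 : (0 : ℝ) < k := by linarith
  have hφ : (1 : ℝ) ≤ (Nat.totient q : ℝ) := by
    have : 1 ≤ Nat.totient q := Nat.totient_pos.2 hq
    exact_mod_cast this
  have hqX : q ≤ X := by
    have : (q : ℝ) ≤ X := hqL.trans (hX2 X hXb)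
    exact_mod_cast this
  have hqw : ∀ p : ℕ, p.Prime → p ∣ q → p ≤ wX D' X := by
    intro p _ hp
    have h1 : p ≤ q := Nat.le_of_dvd hq hp
    have h2 : (p : ℝ) ≤ q := by exact_mod_cast h1
    refine Nat.le_floor ?_
    exact (h2.trans hqL).trans (pow_le_pow_right₀ hL1 hB)
  have hwL : ((wX D' X : ℕ) : ℝ) ≤ (Real.log X) ^ D' := Nat.floor_le (by positivity)
  set w := wX D' X with hw
  have hR := hX1 X hXa w hwL q hq hqX hqw c hc
  set M : ℝ := (X : ℝ) ^ (1 - η) with hM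
  have hM0 : 0 ≤ M := by positivity
  have hM1 : 1 ≤ M := Real.one_le_rpow (by linarith) (by linarith)
  have hfin : (10 : ℝ) * M ≤ (X : ℝ) ^ (1 - η / 2) := by
    calc 10 * M ≤ (X : ℝ) ^ (η / 2) * (X : ℝ) ^ (1 - η) := by gcongr
      _ = (X : ℝ) ^ (1 - η / 2) := by
          rw [← Real.rpow_add hXpos]
          congr 1
          ring
  rw [mo_filter q c t k s a b hk hs]
  have hn1 := mo_n1 k s a hk hs (by linarith)
  set n1 := max ⌊s⌋₊ (⌈(k : ℝ) * a⌉₊ - 1) with hn1d
  set A := max a (s / k) with hA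
  set Bb := min b ((t : ℝ) / k) with hBb
  have hA3 : 3 ≤ A := ha3.trans (le_max_left _ _)
  have hgoal : ∀ x : ℝ, x ≤ 10 * M / k → x ≤ (X : ℝ) ^ (1 - η / 2) / k := fun x hx =>
    hx.trans (div_le_div_of_nonneg_right hfin hk0.le)
  apply hgoal
  rcases lt_or_ge Bb A with hAB | hAB
  · -- the interval is empty
    have hli : li A Bb = 0 := by
      unfold li
      rw [if_neg (not_le.2 hAB)]
    have hemp : min t (⌈(k : ℝ) * b⌉₊ - 1) ≤ n1 := by
      rw [hBb, min_lt_iff] at hAB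
      have hfl : ∀ x : ℝ, x < k * A → ∀ m : ℕ, (m : ℝ) ≤ x → m ≤ n1 := by
        intro x hx m hm
        have h1 : (m : ℝ) < k * A := hm.trans_lt hx
        rw [hA, mul_max_of_nonneg _ _ hk0.le, mul_div_cancel₀ _ hk0.ne', lt_max_iff] at h1
        rw [hn1d]
        rcases h1 with h1 | h1
        · have : m < ⌈(k : ℝ) * a⌉₊ := Nat.lt_ceil.2 h1
          omega
        · have : m ≤ ⌊s⌋₊ := Nat.le_floor h1.le
          omega
      rcases hAB with h | h
      · refine (min_le_right _ _).trans ?_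
        rcases Nat.eq_zero_or_pos ⌈(k : ℝ) * b⌉₊ with h0 | h0
        · rw [h0]
          omega
        · refine hfl (k * b) (by nlinarith) _ ?_
          rw [Nat.cast_sub h0, Nat.cast_one]
          have hkb : 0 < (k : ℝ) * b := Nat.ceil_pos.1 h0
          have := Nat.ceil_lt_add_one hkb.le
          linarith
      · refine (min_le_left _ _).trans ?_
        refine hfl t ?_ _ le_rfl
        rw [div_lt_iff₀ hk0] at h
        linarith
    rw [Icc_eq_empty (by omega), filter_empty, sum_empty, hli, zero_div, sub_zero, abs_zero]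
    positivity
  · have hb3 : 3 ≤ b := hA3.trans (hAB.trans (min_le_left _ _))
    have hB3 : 3 ≤ Bb := hA3.trans hAB
    have hn2 := mo_n2 k t b hk (by linarith)
    set n2 := min t (⌈(k : ℝ) * b⌉₊ - 1) with hn2d
    rw [← hBb] at hn2
    rcases Nat.lt_or_ge n1 n2 with h12 | h12
    · -- main case
      have hn1k : 2 * k ≤ n1 := by
        have h1 := (abs_le.1 hn1).1
        have h2 : A - 1 / k ≤ (n1 : ℝ) / k := by linarith
        rw [le_div_iff₀ hk0, sub_mul, one_div, inv_mul_cancel₀ hk0.ne'] at h2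
        have h3 : (2 * k : ℝ) ≤ n1 := by nlinarith
        exact_mod_cast h3
      have hn1k' : (2 : ℝ) * k ≤ n1 := by exact_mod_cast hn1k
      have hn12' : (n1 : ℝ) ≤ n2 := by exact_mod_cast h12.le
      have hn2t : n2 ≤ t := min_le_left _ _
      set h : ℕ → ℝ := fun n => 1 / ((k : ℝ) * Real.log ((n : ℝ) / k)) with hh
      have hs1 := li_sumk k n1 n2 hk hn1k h12.le
      have hlip := li_lip ((n1 : ℝ) / k) A ((n2 : ℝ) / k) Bb
        (by rw [le_div_iff₀ hk0]; linarith) (by linarith)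
        (by rw [le_div_iff₀ hk0]; linarith) (by linarith)
      set α : ℕ → ℝ := fun n => (if n ≡ c [MOD q] then f1 w n else 0) - 1 / (Nat.totient q : ℝ)
        with hα
      have hsum : ∀ u : ℕ, ∑ n ∈ Icc 1 u, α n =
          ∑ n ∈ (Icc 1 u).filter (fun n => n ≡ c [MOD q]), f1 w n -
            (u : ℝ) / (Nat.totient q : ℝ) := by
        intro u
        rw [hα, sum_sub_distrib, sum_filter, sum_const, Nat.card_Icc, nsmul_eq_mul]
        congr 1
        simp [div_eq_mul_inv]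
      have hu : ∀ u ≤ X, |∑ n ∈ Icc 1 u, α n| ≤ M := by
        intro u hu
        rw [hsum]
        exact hR u hu
      have hdiff : ∀ u, n1 + 1 ≤ u → u ≤ n2 → |∑ n ∈ Icc (n1 + 1) u, α n| ≤ 2 * M := by
        intro u hu1 hu2
        have e1 : ∑ n ∈ Icc (n1 + 1) u, α n = ∑ n ∈ Icc 1 u, α n - ∑ n ∈ Icc 1 n1, α n := by
          have : Icc 1 u = Icc 1 n1 ∪ Icc (n1 + 1) u := by
            ext n
            simp only [mem_union, mem_Icc]
            omega
          rw [this, sum_union]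
          · ring
          · rw [disjoint_left]
            intro n hn hn'
            simp only [mem_Icc] at hn hn'
            omega
        rw [e1]
        have h1 := hu u (by omega)
        have h2 := hu n1 (by omega)
        rw [abs_le] at h1 h2 ⊢
        constructor <;> linarith
      have hlp : ∀ n : ℕ, n1 + 1 ≤ n → 0 < Real.log ((n : ℝ) / k) := by
        intro n hn
        apply Real.log_pos
        rw [lt_div_iff₀ hk0]
        have : (n1 : ℝ) + 1 ≤ n := by exact_mod_cast hn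
        linarith
      have habel := mo_abel α h (n1 + 1) n2 (2 * M)
        (fun n hn => by
          have := hlp n hn
          rw [hh]
          positivity)
        (fun n hn => by
          rw [hh]
          have h1 := hlp n hn
          have hn0 : 0 < n := by omega
          have hn0' : (0 : ℝ) < n := by exact_mod_cast hn0
          apply one_div_le_one_div_of_le (by positivity)
          apply mul_le_mul_of_nonneg_left _ hk0.le
          apply Real.log_le_log (by positivity)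
          apply div_le_div_of_nonneg_right _ hk0.le
          push_cast
          linarith) hdiff n2 (by omega) le_rfl
      have hh1 : h (n1 + 1) ≤ 2 / k := by
        rw [hh]
        have h1 := hlp (n1 + 1) le_rfl
        have h2 : Real.log 2 ≤ Real.log (((n1 + 1 : ℕ) : ℝ) / k) := by
          apply Real.log_le_log (by norm_num)
          rw [le_div_iff₀ hk0]
          push_cast
          linarith
        have h3 := Real.log_two_gt_d9
        simp only
        rw [div_le_div_iff₀ (by positivity) hk0]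
        nlinarith
      have heq : ∑ n ∈ (Icc (n1 + 1) n2).filter (fun n => n ≡ c [MOD q]),
          f1 w n / ((k : ℝ) * Real.log ((n : ℝ) / k)) =
          ∑ n ∈ Icc (n1 + 1) n2, α n * h n +
            (∑ n ∈ Ioc n1 n2, h n) / (Nat.totient q : ℝ) := by
        have e0 : Ioc n1 n2 = Icc (n1 + 1) n2 := by
          ext n
          simp only [mem_Ioc, mem_Icc]
          omega
        rw [e0, sum_div, ← sum_add_distrib, sum_filter]
        refine sum_congr rfl fun n _ => ?_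
        rw [hα, hh]
        simp only
        split_ifs <;> ring
      rw [heq]
      have e5 : ∑ n ∈ Icc (n1 + 1) n2, α n * h n +
          (∑ n ∈ Ioc n1 n2, h n) / (Nat.totient q : ℝ) - li A Bb / (Nat.totient q : ℝ) =
          ∑ n ∈ Icc (n1 + 1) n2, α n * h n +
          ((∑ n ∈ Ioc n1 n2, h n - li ((n1 : ℝ) / k) ((n2 : ℝ) / k)) +
            (li ((n1 : ℝ) / k) ((n2 : ℝ) / k) - li A Bb)) / (Nat.totient q : ℝ) := by ring
      rw [e5]
      have h6 : |∑ n ∈ Icc (n1 + 1) n2, α n * h n| ≤ 2 * M * (2 / k) :=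
        habel.trans (mul_le_mul_of_nonneg_left hh1 (by positivity))
      have h7 : |((∑ n ∈ Ioc n1 n2, h n - li ((n1 : ℝ) / k) ((n2 : ℝ) / k)) +
            (li ((n1 : ℝ) / k) ((n2 : ℝ) / k) - li A Bb)) / (Nat.totient q : ℝ)| ≤ 6 / k := by
        rw [abs_div, abs_of_pos (by linarith : (0 : ℝ) < (Nat.totient q : ℝ))]
        refine (div_le_self (abs_nonneg _) hφ).trans ?_
        refine (abs_add_le _ _).trans ?_
        have h8' : 2 * |(n1 : ℝ) / k - A| + 2 * |(n2 : ℝ) / k - Bb| ≤ 4 / k := by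
          have : (4 : ℝ) / k = 2 * (1 / k) + 2 * (1 / k) := by ring
          rw [this]
          linarith
        have h9 : (6 : ℝ) / k = 2 / k + 4 / k := by ring
        rw [h9]
        exact add_le_add hs1 (hlip.trans h8')
      refine (abs_add_le _ _).trans ((add_le_add h6 h7).trans ?_)
      have h10 : 2 * M * (2 / k) + 6 / k = (4 * M + 6) / k := by ring
      rw [h10]
      exact div_le_div_of_nonneg_right (by linarith) hk0.le
    · -- empty sum, short interval
      rw [Icc_eq_empty (by omega), filter_empty, sum_empty, zero_sub, abs_neg, abs_div,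
        abs_of_pos (by linarith : (0 : ℝ) < (Nat.totient q : ℝ))]
      refine (div_le_self (abs_nonneg _) hφ).trans ?_
      have hlip := li_lip A A Bb A (by linarith) (by linarith) (by linarith) (by linarith)
      rw [mo_li_self, sub_zero, sub_self, abs_zero, mul_zero, zero_add] at hlip
      refine hlip.trans ?_
      have h1 := abs_le.1 hn1
      have h2 := abs_le.1 hn2
      have h3 : (n2 : ℝ) / k ≤ (n1 : ℝ) / k :=
        div_le_div_of_nonneg_right (by exact_mod_cast h12) hk0.le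
      rw [abs_of_nonneg (by linarith)]
      have h4 : 2 * (Bb - A) ≤ 4 * (1 / k) := by linarith
      refine h4.trans ?_
      rw [mul_one_div]
      exact div_le_div_of_nonneg_right (by linarith) hk0.le

end Pool.MP_dd84fd_nt.IY
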