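import Pool.Agent.Lib.MP_dd84fd_nt.HX.Defs
import Pool.Agent.Lib.MP_dd84fd_nt.E2.MinorP

/-!
# Theorem I: sum over the scales

`ScaleI κ`: the theorem at one scale, with the bound `κ (1 - 2θ)²`. `fin_of_scale`: the final form.
Scales `Y_i = X / 2^i` (ℕ division) with `X^(θ - e/10) ≤ Y_i`; the other `n` are few.
-/

set_option autoImplicit false

namespace Pool.MP_dd84fd_nt.IY

open Finset Pool.MP_67663b_nt.Odd Pool.MP_dd84fd_nt.En Pool.MP_dd84fd_nt.E2 Pool.MP_dd84fd_nt.LS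
  Pool.MP_dd84fd_nt.GX Pool.MP_dd84fd_nt.HX

/-- `n` is exceptional at level `η` -/
def Bad (η : ℝ) (n : ℕ) : Prop := η * (SS n * JJ n) < |(g n : ℝ) - SS n * JJ n|

open Classical in
/-- the theorem at one scale -/
def ScaleI (κ : ℝ) : Prop := ∃ C : ℕ, ∀ th : ℝ, 2 / 5 < th → th < 1 / 2 → ∃ e0 : ℝ, 0 < e0 ∧
  ∀ e : ℝ, 0 < e → e ≤ e0 → ∀ K : ℕ, ∃ X0 : ℕ, ∀ X : ℕ, X0 ≤ X → ∃ D : Finset ℕ,
    (D.card : ℝ) ≤ (Real.log X) ^ C ∧
    (∀ d ∈ D, (Real.log X) ^ K ≤ (d : ℝ) ∧ (d : ℝ) ≤ (X : ℝ) ^ (1 - th + 3 * e)) ∧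
    (((Icc 1 X).filter (fun n => X < 2 * n ∧ Even n ∧ (∀ d ∈ D, ¬ d ∣ n) ∧
      Bad (κ * (1 - 2 * th) ^ 2) n)).card : ℝ) ≤ (X : ℝ) ^ (th - e / 5)

private theorem fin_scale (X n : ℕ) (hn : 1 ≤ n) (hnX : n ≤ X) :
    ∃ i, i ≤ Nat.log 2 X ∧ n ≤ X / 2 ^ i ∧ X / 2 ^ i < 2 * n := by
  have h0 : X / n ≠ 0 := by
    have := Nat.div_pos hnX hn
    omega
  refine ⟨Nat.log 2 (X / n), ?_, ?_, ?_⟩
  · exact Nat.log_mono_right (Nat.div_le_self _ _)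
  · rw [Nat.le_div_iff_mul_le (by positivity)]
    have h1 := Nat.pow_log_le_self 2 h0
    have h2 : n * 2 ^ Nat.log 2 (X / n) ≤ n * (X / n) := Nat.mul_le_mul_left _ h1
    exact h2.trans (Nat.mul_div_le _ _)
  · rw [Nat.div_lt_iff_lt_mul (by positivity)]
    have h1 := Nat.lt_pow_succ_log_self (b := 2) (by norm_num) (X / n)
    rw [Nat.div_lt_iff_lt_mul hn, pow_succ] at h1
    calc X < 2 ^ Nat.log 2 (X / n) * 2 * n := h1
      _ = 2 * n * 2 ^ Nat.log 2 (X / n) := by ring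

private theorem fin_log2 (X : ℕ) (hL : 1 ≤ Real.log X) :
    ((Nat.log 2 X : ℕ) : ℝ) + 1 ≤ 3 * Real.log X := by
  have h1 := Real.natLog_le_logb X 2
  have h2 : (0.6931471803 : ℝ) < Real.log 2 := Real.log_two_gt_d9
  have h3 : Real.logb 2 X ≤ 2 * Real.log X := by
    rw [Real.logb, div_le_iff₀ (by linarith)]
    nlinarith
  push_cast at h1 h3
  linarith

open Classical in
/-- from one scale to all `n ≤ X` -/
theorem core_i (th e η : ℝ) (hth : 2 / 5 < th) (hth2 : th < 1 / 2) (he : 0 < e)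
    (he2 : e ≤ 1 / 1000) (C' K : ℕ)
    (hs : ∃ Y0 : ℕ, ∀ Y : ℕ, Y0 ≤ Y → ∃ D : Finset ℕ, (D.card : ℝ) ≤ (Real.log Y) ^ C' ∧
      (∀ d ∈ D, (Real.log Y) ^ (K + 1) ≤ (d : ℝ) ∧ (d : ℝ) ≤ (Y : ℝ) ^ (1 - th + 3 * e)) ∧
      (((Icc 1 Y).filter (fun n => Y < 2 * n ∧ Even n ∧ (∀ d ∈ D, ¬ d ∣ n) ∧ Bad η n)).card : ℝ) ≤
        (Y : ℝ) ^ (th - e / 5)) :
    ∃ X0 : ℕ, ∀ X : ℕ, X0 ≤ X → ∃ D : Finset ℕ, (D.card : ℝ) ≤ (Real.log X) ^ (C' + 2) ∧
      (∀ d ∈ D, (Real.log X) ^ K ≤ (d : ℝ) ∧ (d : ℝ) ≤ (X : ℝ) ^ (1 - th + 4 * e)) ∧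
      ∀ P : ℕ → Prop, ∀ _ : DecidablePred P,
        (∀ n, P n → Even n ∧ (∀ d ∈ D, d ∣ n → (n : ℝ) ^ (1 - th + 4 * e) < d) ∧ Bad η n) →
        (((Icc 1 X).filter P).card : ℝ) ≤ (X : ℝ) ^ th := by
  obtain ⟨Y0, hY0⟩ := hs
  obtain ⟨X1, hX1⟩ := MP_log_large (max 10 (3 ^ (K + 1)))
  obtain ⟨X2, hX2⟩ := MP_log_pow 4 1 (ε := e / 10) (by positivity)
  obtain ⟨X3, hX3⟩ : ∃ X3 : ℕ, ∀ X : ℕ, X3 ≤ X → (2 : ℝ) ≤ (X : ℝ) ^ (e / 3) := by
    have h := ((tendsto_rpow_atTop (by positivity : (0 : ℝ) < e / 3)).comp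
      (tendsto_natCast_atTop_atTop (R := ℝ))).eventually_ge_atTop 2
    obtain ⟨X0, h1⟩ := Filter.eventually_atTop.1 h
    exact ⟨X0, fun X hX => h1 X hX⟩
  refine ⟨max (max (Y0 ^ 3) X1) (max X2 X3), fun X hX => ?_⟩
  have hXY : Y0 ^ 3 ≤ X := (le_max_left _ _).trans ((le_max_left _ _).trans hX)
  have hX1' : X1 ≤ X := (le_max_right _ _).trans ((le_max_left _ _).trans hX)
  have hX2' : X2 ≤ X := (le_max_left _ _).trans ((le_max_right _ _).trans hX)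
  have hX3' : X3 ≤ X := (le_max_right _ _).trans ((le_max_right _ _).trans hX)
  have hL := hX1 X hX1'
  have hL10 : 10 ≤ Real.log X := (le_max_left _ _).trans hL
  have hLK : 3 ^ (K + 1) ≤ Real.log X := (le_max_right _ _).trans hL
  have e4 := hX2 X hX2'
  rw [pow_one] at e4
  have h2X := hX3 X hX3'
  clear hX hX1 hX2 hX3
  have hXpos : (0 : ℝ) < X := by
    rcases Nat.eq_zero_or_pos X with h | h
    · exfalso
      subst h
      simp at hL10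
      linarith
    · exact_mod_cast h
  have hX1R : (1 : ℝ) ≤ X := by
    have : 1 ≤ X := by
      have : 0 < X := by exact_mod_cast hXpos
      omega
    exact_mod_cast this
  -- the scales
  obtain ⟨I, hI⟩ : ∃ I : Finset ℕ, I = (range (Nat.log 2 X + 1)).filter
    (fun i => (X : ℝ) ^ (th - e / 10) ≤ (X / 2 ^ i : ℕ)) := ⟨_, rfl⟩
  have hIcard : (I.card : ℝ) ≤ 3 * Real.log X := by
    have h1 : I.card ≤ Nat.log 2 X + 1 := by
      rw [hI]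
      exact (card_filter_le _ _).trans (by rw [card_range])
    have h2 := fin_log2 X (by linarith)
    have h3 : (I.card : ℝ) ≤ (Nat.log 2 X : ℝ) + 1 := by exact_mod_cast h1
    linarith
  have hthird : (X : ℝ) ^ (1 / 3 : ℝ) ≤ (X : ℝ) ^ (th - e / 10) :=
    Real.rpow_le_rpow_of_exponent_le hX1R (by linarith)
  have hcube : ((X : ℝ) ^ (1 / 3 : ℝ)) ^ 3 = X := by
    rw [← Real.rpow_natCast, ← Real.rpow_mul hXpos.le]
    norm_num
  have hYi : ∀ i ∈ I, (X : ℝ) ^ (1 / 3 : ℝ) ≤ (X / 2 ^ i : ℕ) := by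
    intro i hi
    rw [hI, mem_filter] at hi
    exact hthird.trans hi.2
  have hex : ∀ i ∈ I, ∃ D : Finset ℕ, (D.card : ℝ) ≤ (Real.log (X / 2 ^ i : ℕ)) ^ C' ∧
      (∀ d ∈ D, (Real.log (X / 2 ^ i : ℕ)) ^ (K + 1) ≤ (d : ℝ) ∧
        (d : ℝ) ≤ ((X / 2 ^ i : ℕ) : ℝ) ^ (1 - th + 3 * e)) ∧
      (((Icc 1 (X / 2 ^ i)).filter (fun n => X / 2 ^ i < 2 * n ∧ Even n ∧ (∀ d ∈ D, ¬ d ∣ n) ∧
        Bad η n)).card : ℝ) ≤ ((X / 2 ^ i : ℕ) : ℝ) ^ (th - e / 5) := by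
    intro i hi
    refine hY0 (X / 2 ^ i) ?_
    have h1 : (Y0 : ℝ) ^ 3 ≤ ((X / 2 ^ i : ℕ) : ℝ) ^ 3 := by
      have h2 := pow_le_pow_left₀ (by positivity) (hYi i hi) 3
      rw [hcube] at h2
      have h3 : (Y0 : ℝ) ^ 3 ≤ X := by exact_mod_cast hXY
      exact h3.trans h2
    have h2 := le_of_pow_le_pow_left₀ (by norm_num) (by positivity) h1
    exact_mod_cast h2
  choose! f hf1 hf2 hf3 using hex
  have hsc : ∀ i ∈ I, (1 : ℝ) ≤ (X / 2 ^ i : ℕ) ∧ ((X / 2 ^ i : ℕ) : ℝ) ≤ X ∧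
      Real.log X / 3 ≤ Real.log (X / 2 ^ i : ℕ) ∧ Real.log (X / 2 ^ i : ℕ) ≤ Real.log X := by
    intro i hi
    have h1 := hYi i hi
    have h2 : (1 : ℝ) ≤ (X / 2 ^ i : ℕ) := (Real.one_le_rpow hX1R (by norm_num)).trans h1
    have h3 : ((X / 2 ^ i : ℕ) : ℝ) ≤ X := by exact_mod_cast Nat.div_le_self _ _
    refine ⟨h2, h3, ?_, Real.log_le_log (by linarith) h3⟩
    have h4 := Real.log_le_log (by positivity) h1
    rw [Real.log_rpow hXpos] at h4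
    linarith
  obtain ⟨L, hLdef⟩ : ∃ L : ℝ, L = Real.log X := ⟨_, rfl⟩
  rw [← hLdef] at hL10 hLK hIcard e4 hsc
  have hL0 : 0 < L := by linarith
  refine ⟨I.biUnion f, ?_, ?_, ?_⟩
  · rw [← hLdef]
    have hci : ∀ i ∈ I, ((f i).card : ℝ) ≤ L ^ C' := by
      intro i hi
      obtain ⟨s1, s2, s3, s4⟩ := hsc i hi
      exact (hf1 i hi).trans (pow_le_pow_left₀ (by linarith) s4 _)
    have h1 : ((I.biUnion f).card : ℝ) ≤ ∑ i ∈ I, ((f i).card : ℝ) := by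
      exact_mod_cast card_biUnion_le
    have h2 := sum_le_card_nsmul I _ _ hci
    rw [nsmul_eq_mul] at h2
    have h3 : 0 < L ^ C' := by positivity
    calc ((I.biUnion f).card : ℝ) ≤ I.card * L ^ C' := h1.trans h2
      _ ≤ 3 * L * L ^ C' := mul_le_mul_of_nonneg_right hIcard h3.le
      _ ≤ L * L * L ^ C' := by
          refine mul_le_mul_of_nonneg_right ?_ h3.le
          exact mul_le_mul_of_nonneg_right (by linarith) hL0.le
      _ = L ^ (C' + 2) := by ring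
  · intro d hd
    rw [mem_biUnion] at hd
    obtain ⟨i, hi, hd⟩ := hd
    obtain ⟨s1, s2, s3, s4⟩ := hsc i hi
    obtain ⟨d1, d2⟩ := hf2 i hi d hd
    rw [← hLdef]
    refine ⟨?_, d2.trans ?_⟩
    · refine le_trans ?_ d1
      calc L ^ K = L ^ K * 1 := (mul_one _).symm
        _ ≤ L ^ K * (L / 3 ^ (K + 1)) := by
            refine mul_le_mul_of_nonneg_left ?_ (by positivity)
            rw [le_div_iff₀ (by positivity), one_mul]
            exact hLK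
        _ = (L / 3) ^ (K + 1) := by
            rw [_root_.div_pow, pow_succ L K]
            ring
        _ ≤ (Real.log (X / 2 ^ i : ℕ)) ^ (K + 1) := pow_le_pow_left₀ (by positivity) s3 _
    · calc ((X / 2 ^ i : ℕ) : ℝ) ^ (1 - th + 3 * e) ≤ (X : ℝ) ^ (1 - th + 3 * e) :=
            Real.rpow_le_rpow (by linarith) s2 (by linarith)
        _ ≤ (X : ℝ) ^ (1 - th + 4 * e) :=
            Real.rpow_le_rpow_of_exponent_le hX1R (by linarith)
  · intro P _ hP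
    have hsub : (Icc 1 X).filter P ⊆
        Icc 1 ⌊(X : ℝ) ^ (th - e / 10)⌋₊ ∪ I.biUnion (fun i => (Icc 1 (X / 2 ^ i)).filter
          (fun n => X / 2 ^ i < 2 * n ∧ Even n ∧ (∀ d ∈ f i, ¬ d ∣ n) ∧ Bad η n)) := by
      intro n hn
      rw [mem_filter, mem_Icc] at hn
      obtain ⟨⟨hn1, hnX⟩, hPn⟩ := hn
      rw [mem_union]
      by_cases hsq : n ≤ ⌊(X : ℝ) ^ (th - e / 10)⌋₊
      · exact Or.inl (mem_Icc.2 ⟨hn1, hsq⟩)
      · right
        have hbig : (X : ℝ) ^ (th - e / 10) < n :=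
          (Nat.floor_lt (by positivity)).1 (not_le.1 hsq)
        obtain ⟨i, hi1, hi2, hi3⟩ := fin_scale X n hn1 hnX
        have hi2' : (n : ℝ) ≤ (X / 2 ^ i : ℕ) := by exact_mod_cast hi2
        have hiI : i ∈ I := by
          rw [hI, mem_filter, mem_range]
          exact ⟨by omega, hbig.le.trans hi2'⟩
        rw [mem_biUnion]
        refine ⟨i, hiI, ?_⟩
        rw [mem_filter, mem_Icc]
        obtain ⟨hev, hdiv, hbad⟩ := hP n hPn
        refine ⟨⟨hn1, hi2⟩, hi3, hev, fun d hd hdn => ?_, hbad⟩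
        obtain ⟨s1, s2, s3, s4⟩ := hsc i hiI
        obtain ⟨d1, d2⟩ := hf2 i hiI d hd
        have hnR : (1 : ℝ) ≤ n := by exact_mod_cast hn1
        have hn0 : (0 : ℝ) < n := by linarith
        have hi3' : ((X / 2 ^ i : ℕ) : ℝ) ≤ 2 * n := by exact_mod_cast hi3.le
        have h6 := hdiv d (mem_biUnion.2 ⟨i, hiI, hd⟩) hdn
        have h7 : ((X / 2 ^ i : ℕ) : ℝ) ^ (1 - th + 3 * e) ≤ (2 * (n : ℝ)) ^ (1 - th + 3 * e) :=
          Real.rpow_le_rpow (by linarith) hi3' (by linarith)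
        rw [Real.mul_rpow (by norm_num) hn0.le] at h7
        have h8 : (2 : ℝ) ^ (1 - th + 3 * e) ≤ (n : ℝ) ^ e := by
          calc (2 : ℝ) ^ (1 - th + 3 * e) ≤ (2 : ℝ) ^ (1 : ℝ) :=
                Real.rpow_le_rpow_of_exponent_le (by norm_num) (by linarith)
            _ = 2 := by norm_num
            _ ≤ (X : ℝ) ^ (e / 3) := h2X
            _ = ((X : ℝ) ^ (1 / 3 : ℝ)) ^ e := by
                rw [← Real.rpow_mul hXpos.le]
                congr 1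
                ring
            _ ≤ (n : ℝ) ^ e := Real.rpow_le_rpow (by positivity) (hthird.trans hbig.le) he.le
        have h9 : (n : ℝ) ^ (1 - th + 4 * e) = (n : ℝ) ^ e * (n : ℝ) ^ (1 - th + 3 * e) := by
          rw [← Real.rpow_add hn0]
          congr 1
          ring
        rw [h9] at h6
        have h10 := mul_le_mul_of_nonneg_right h8
          (by positivity : 0 ≤ (n : ℝ) ^ (1 - th + 3 * e))
        linarith
    have h1 : (((Icc 1 X).filter P).card : ℝ) ≤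
        (⌊(X : ℝ) ^ (th - e / 10)⌋₊ : ℝ) + ∑ i ∈ I, (((Icc 1 (X / 2 ^ i)).filter
          (fun n => X / 2 ^ i < 2 * n ∧ Even n ∧ (∀ d ∈ f i, ¬ d ∣ n) ∧ Bad η n)).card : ℝ) := by
      have h2 := (card_le_card hsub).trans ((card_union_le _ _).trans
        (Nat.add_le_add_left card_biUnion_le _))
      rw [Nat.card_Icc, Nat.add_sub_cancel] at h2
      exact_mod_cast h2
    have h6 : (0 : ℝ) < (X : ℝ) ^ (th - e / 10) := by positivity
    have h2 : ∀ i ∈ I, (((Icc 1 (X / 2 ^ i)).filter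
          (fun n => X / 2 ^ i < 2 * n ∧ Even n ∧ (∀ d ∈ f i, ¬ d ∣ n) ∧ Bad η n)).card : ℝ) ≤
        (X : ℝ) ^ (th - e / 10) := by
      intro i hi
      obtain ⟨s1, s2, s3, s4⟩ := hsc i hi
      refine (hf3 i hi).trans ?_
      calc ((X / 2 ^ i : ℕ) : ℝ) ^ (th - e / 5) ≤ (X : ℝ) ^ (th - e / 5) :=
            Real.rpow_le_rpow (by linarith) s2 (by linarith)
        _ ≤ (X : ℝ) ^ (th - e / 10) :=
            Real.rpow_le_rpow_of_exponent_le hX1R (by linarith)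
    have h3 := sum_le_card_nsmul I _ _ h2
    rw [nsmul_eq_mul] at h3
    have h4 : ((⌊(X : ℝ) ^ (th - e / 10)⌋₊ : ℕ) : ℝ) ≤ (X : ℝ) ^ (th - e / 10) :=
      Nat.floor_le (by positivity)
    have h5 : (X : ℝ) ^ th = (X : ℝ) ^ (e / 10) * (X : ℝ) ^ (th - e / 10) := by
      rw [← Real.rpow_add hXpos]
      congr 1
      ring
    rw [h5]
    have h11 : (I.card : ℝ) * (X : ℝ) ^ (th - e / 10) ≤ 3 * L * (X : ℝ) ^ (th - e / 10) :=
      mul_le_mul_of_nonneg_right hIcard h6.le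
    have h12 : 4 * L * (X : ℝ) ^ (th - e / 10) ≤ (X : ℝ) ^ (e / 10) * (X : ℝ) ^ (th - e / 10) :=
      mul_le_mul_of_nonneg_right e4 h6.le
    have h13 : (X : ℝ) ^ (th - e / 10) ≤ L * (X : ℝ) ^ (th - e / 10) :=
      le_mul_of_one_le_left h6.le (by linarith)
    linarith

open Classical in
/-- the final form -/
theorem fin_of_scale (κ : ℝ) (hS : ScaleI κ) : ∃ C : ℕ, ∀ th : ℝ, 2 / 5 < th → th < 1 / 2 →
    ∀ ε : ℝ, 0 < ε → ∀ K : ℕ, ∃ X0 : ℕ, ∀ X : ℕ, X0 ≤ X → ∃ D : Finset ℕ,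
      (D.card : ℝ) ≤ (Real.log X) ^ C ∧
      (∀ d ∈ D, (Real.log X) ^ K ≤ (d : ℝ) ∧ (d : ℝ) ≤ (X : ℝ) ^ (1 - th + ε)) ∧
      ∀ P : ℕ → Prop, ∀ _ : DecidablePred P,
        (∀ n, P n → Even n ∧ (∀ d ∈ D, d ∣ n → (n : ℝ) ^ (1 - th + ε) < d) ∧
          Bad (κ * (1 - 2 * th) ^ 2) n) →
        (((Icc 1 X).filter P).card : ℝ) ≤ (X : ℝ) ^ th := by
  obtain ⟨C', hC'⟩ := hS
  refine ⟨C' + 2, fun th hth hth2 ε hε K => ?_⟩
  obtain ⟨e0, he0, hsc⟩ := hC' th hth hth2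
  obtain ⟨e, he1, he2, he3, he4⟩ : ∃ e : ℝ, 0 < e ∧ e ≤ e0 ∧ e ≤ 1 / 1000 ∧ 4 * e ≤ ε := by
    refine ⟨min (min e0 (1 / 1000)) (ε / 4), lt_min (lt_min he0 (by norm_num)) (by positivity),
      (min_le_left _ _).trans (min_le_left _ _), (min_le_left _ _).trans (min_le_right _ _), ?_⟩
    have := min_le_right (min e0 (1 / 1000)) (ε / 4)
    linarith
  obtain ⟨X0, hX0⟩ := core_i th e (κ * (1 - 2 * th) ^ 2) hth hth2 he1 he3 C' K (by
    obtain ⟨Y0, hY0⟩ := hsc e he1 he2 (K + 1)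
    exact ⟨Y0, fun Y hY => hY0 Y hY⟩)
  refine ⟨max X0 1, fun X hX => ?_⟩
  obtain ⟨D, h1, h2, h3⟩ := hX0 X ((le_max_left _ _).trans hX)
  have hX1 : (1 : ℝ) ≤ X := by exact_mod_cast (le_max_right _ _).trans hX
  refine ⟨D, h1, fun d hd => ⟨(h2 d hd).1, (h2 d hd).2.trans ?_⟩, fun P hPd hP => h3 P hPd ?_⟩
  · exact Real.rpow_le_rpow_of_exponent_le hX1 (by linarith)
  · intro n hPn
    obtain ⟨a1, a2, a3⟩ := hP n hPn
    refine ⟨a1, fun d hd hdn => lt_of_le_of_lt ?_ (a2 d hd hdn), a3⟩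
    rcases Nat.eq_zero_or_pos n with h0 | h0
    · rw [h0, Nat.cast_zero, Real.zero_rpow (by linarith), Real.zero_rpow (by linarith)]
    · exact Real.rpow_le_rpow_of_exponent_le (by exact_mod_cast h0) (by linarith)

end Pool.MP_dd84fd_nt.IY
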