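import Pool.Agent.Lib.MP_dd84fd_nt.IY.NMe
import Pool.Agent.Lib.MP_dd84fd_nt.E2.MinorP

/-!
# IY-NBd (0.6 h): numbers with a divisor near `√X`

Proof. `Σ_{k rough} nbd k/k ≤ Σ_{d rough, d near √X} (1/d) Σ_{k' rough ≤ X} 1/k' ≤ C Σ_d 1/d` (`rs_all`; `Rgh (zt X) k → Rgh (zz X) k` for `X` large since `zt X ≥ X^(1/8) ≥ zz X`). `d > 1`: `p = minFac d ≥ zt X ≥ X^(1/8)`, `d' = d/p` rough. For fixed `d'` the prime `p` lies in `[Y1/d', Y2/d']`, `Y1 = √X/L^12`, `Y2 = L^12 √X`; put `y1 = max (Y1/d') X^(1/8)`, `y2 = 2 Y2/d'`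
(if `y2 < y1` there is no `p`): `y2 ≤ 2 L^24 y1`, so by `mert_up` `Σ 1/p ≤ log (1 + log (2 L^24)/log y1) + L^(-2) ≤ 8 log (2 L^24)/L + L^(-2)`. Total `≤ C² (8 log(2 L^24)/L + L^(-2)) → 0`.
-/

set_option autoImplicit false

namespace Pool.MP_dd84fd_nt.IY

open Finset Pool.MP_67663b_nt.Odd Pool.MP_dd84fd_nt.En Pool.MP_dd84fd_nt.E2 Pool.MP_dd84fd_nt.HX

private theorem NBd_conv (X : ℕ) (F : ℕ → ℕ → ℝ) (hF : ∀ a b, 0 ≤ F a b) :
    ∑ k ∈ Icc 1 X, ∑ d ∈ k.divisors, F d (k / d) ≤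
      ∑ d ∈ Icc 1 X, ∑ m ∈ Icc 1 X, F d m := by
  classical
  rw [Finset.sum_sigma', ← Finset.sum_product']
  have h : ∑ x ∈ (Icc 1 X).sigma (fun k => k.divisors), F x.2 (x.1 / x.2) =
      ∑ y ∈ ((Icc 1 X).sigma (fun k => k.divisors)).image
        (fun x : (_ : ℕ) × ℕ => (x.2, x.1 / x.2)), F y.1 y.2 := by
    rw [Finset.sum_image]
    rintro ⟨k, d⟩ hx ⟨k', d'⟩ hx' hxx
    rw [Finset.mem_coe, Finset.mem_sigma] at hx hx'
    have h1 : d ∣ k := Nat.dvd_of_mem_divisors hx.2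
    have h2 : d' ∣ k' := Nat.dvd_of_mem_divisors hx'.2
    have h3 : d = d' := congrArg Prod.fst hxx
    have h4 : k / d = k' / d' := congrArg Prod.snd hxx
    subst h3
    have h5 : k = k' := by
      rw [← Nat.mul_div_cancel' h1, h4, Nat.mul_div_cancel' h2]
    subst h5
    rfl
  rw [h]
  refine Finset.sum_le_sum_of_subset_of_nonneg ?_ fun _ _ _ => hF _ _
  intro y hy
  rw [Finset.mem_image] at hy
  obtain ⟨⟨k, d⟩, hx, rfl⟩ := hy
  rw [Finset.mem_sigma, Finset.mem_Icc] at hx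
  obtain ⟨⟨hk1, hkX⟩, hd⟩ := hx
  change 1 ≤ k at hk1
  change k ≤ X at hkX
  have h1 : d ∣ k := Nat.dvd_of_mem_divisors hd
  have hd0 : 0 < d := Nat.pos_of_mem_divisors hd
  have hdk : d ≤ k := Nat.le_of_dvd (by omega) h1
  rw [Finset.mem_product, Finset.mem_Icc, Finset.mem_Icc]
  exact ⟨⟨hd0, hdk.trans hkX⟩, Nat.div_pos hdk hd0, (Nat.div_le_self _ _).trans hkX⟩

private theorem NBd_rs : ∃ (C : ℝ) (X0 : ℕ), 0 < C ∧ ∀ X : ℕ, X0 ≤ X →
    ∑ k ∈ Icc 1 X, rg (zt X) k / k ≤ C := by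
  obtain ⟨C, X0, hC, h⟩ := rs_all
  refine ⟨C, max X0 1, hC, fun X hX => ?_⟩
  have hX1 : (1 : ℝ) ≤ X := by exact_mod_cast (le_max_right _ _).trans hX
  refine le_trans (Finset.sum_le_sum fun k _ => ?_) (h X ((le_max_left _ _).trans hX))
  refine div_le_div_of_nonneg_right ?_ (Nat.cast_nonneg _)
  unfold rg
  by_cases hr : Rgh (zt X) k
  · have hr' : Rgh (zz X) k := by
      refine ⟨hr.1, fun p hp => le_trans ?_ (hr.2 p hp)⟩
      unfold zz zt
      exact Nat.ceil_mono (Real.rpow_le_rpow_of_exponent_le hX1 (by norm_num))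
    rw [if_pos hr, if_pos hr']
  · rw [if_neg hr]
    split_ifs <;> norm_num

/-- the sum over the primes -/
private theorem NBd_p (ε : ℝ) (hε : 0 < ε) : ∃ X0 : ℕ, ∀ X : ℕ, X0 ≤ X → ∀ m ∈ Icc 1 X,
    ∑ p ∈ (Icc 1 X).filter (fun p : ℕ => p.Prime ∧ (X : ℝ) ^ (1 / 10 : ℝ) ≤ p ∧
      Real.sqrt X / (Real.log X) ^ 12 ≤ (p : ℝ) * m ∧
      (p : ℝ) * m ≤ (Real.log X) ^ 12 * Real.sqrt X), 1 / (p : ℝ) ≤ ε := by
  obtain ⟨X1, hX1⟩ := mert_up
  obtain ⟨X2, hX2⟩ := MP_log_large ((500 / ε) ^ 2 + 1)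
  obtain ⟨X3, hX3⟩ := MP_log_pow 2 12 (by norm_num : (0 : ℝ) < 1 / 2)
  refine ⟨max (max X1 X2) (max X3 2), fun X hX m hm => ?_⟩
  simp only [max_le_iff] at hX
  obtain ⟨⟨hXX1, hXX2⟩, hXX3, hX2'⟩ := hX
  rw [Finset.mem_Icc] at hm
  have hXr : (2 : ℝ) ≤ X := by exact_mod_cast hX2'
  have hX0 : (0 : ℝ) < X := by linarith
  have hmr : (1 : ℝ) ≤ m := by exact_mod_cast hm.1
  have hm0 : (0 : ℝ) < m := by linarith
  have hLL := hX2 X hXX2
  have hpow := hX3 X hXX3
  rw [← Real.sqrt_eq_rpow] at hpow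
  set L := Real.log X with hL
  have e1 : 0 < 500 / ε := by positivity
  have hL1 : 1 ≤ L := by nlinarith
  have hL0 : 0 < L := by linarith
  set s := Real.sqrt X with hs
  have hs0 : 0 < s := Real.sqrt_pos.2 hX0
  have hss : s * s = X := Real.mul_self_sqrt hX0.le
  set y1 : ℝ := max (s / L ^ 12 / m) ((X : ℝ) ^ (1 / 10 : ℝ)) with hy1
  set y2 : ℝ := 2 * (L ^ 12 * s) / m with hy2
  have hp8 : (1 : ℝ) < (X : ℝ) ^ (1 / 10 : ℝ) := Real.one_lt_rpow (by linarith) (by norm_num)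
  have hy1g : (X : ℝ) ^ (1 / 10 : ℝ) ≤ y1 := le_max_right _ _
  have hy11 : 1 < y1 := lt_of_lt_of_le hp8 hy1g
  have hy10 : 0 < y1 := by linarith
  have hlog1 : L / 10 ≤ Real.log y1 := by
    have h1 : Real.log ((X : ℝ) ^ (1 / 10 : ℝ)) = L / 10 := by
      rw [Real.log_rpow hX0]
      ring
    rw [← h1]
    exact Real.log_le_log (by linarith) hy1g
  have hlog10 : 0 < Real.log y1 := by linarith
  have hy21 : y2 ≤ 2 * L ^ 24 * y1 := by
    have h1 : y2 = 2 * L ^ 24 * (s / L ^ 12 / m) := by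
      rw [hy2]
      field_simp
    rw [h1]
    have : s / L ^ 12 / m ≤ y1 := le_max_left _ _
    gcongr
  -- the sum is over primes in `[y1, y2)`
  have hsub : (Icc 1 X).filter (fun p : ℕ => p.Prime ∧ (X : ℝ) ^ (1 / 10 : ℝ) ≤ p ∧
      s / L ^ 12 ≤ (p : ℝ) * m ∧ (p : ℝ) * m ≤ L ^ 12 * s) ⊆
      (Icc 1 X).filter (fun p : ℕ => p.Prime ∧ y1 ≤ (p : ℝ) ∧ (p : ℝ) < y2) := by
    intro p hp
    rw [Finset.mem_filter] at hp ⊢
    obtain ⟨h1, h2, h3, h4, h5⟩ := hp
    refine ⟨h1, h2, max_le ?_ h3, ?_⟩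
    · rw [div_le_iff₀ hm0]
      exact h4
    · have h6 : 0 < L ^ 12 * s := by positivity
      rw [hy2, lt_div_iff₀ hm0]
      linarith
  have h1 := Finset.sum_le_sum_of_subset_of_nonneg hsub (f := fun p : ℕ => 1 / (p : ℝ))
    fun p _ _ => by positivity
  refine h1.trans ?_
  by_cases hyy : y1 ≤ y2
  · have hy2X : y2 ≤ X := by
      rw [hy2, div_le_iff₀ hm0]
      calc 2 * (L ^ 12 * s) = 2 * L ^ 12 * s := by ring
        _ ≤ s * s := by gcongr
        _ = X * 1 := by rw [hss, mul_one]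
        _ ≤ X * m := by gcongr
    have h20 : (X : ℝ) ^ (1 / 20 : ℝ) ≤ y1 :=
      (Real.rpow_le_rpow_of_exponent_le (by linarith) (by norm_num)).trans hy1g
    refine (hX1 X hXX1 y1 y2 h20 hyy hy2X).trans ?_
    have hy20 : 0 < y2 := by linarith
    have h2 : Real.log y2 ≤ Real.log (2 * L ^ 24) + Real.log y1 := by
      rw [← Real.log_mul (by positivity) (by positivity)]
      exact Real.log_le_log hy20 hy21
    have hlog20 : 0 < Real.log y2 := lt_of_lt_of_le hlog10 (Real.log_le_log hy10 hyy)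
    have h3 : Real.log (Real.log y2 / Real.log y1) ≤ Real.log (2 * L ^ 24) / Real.log y1 := by
      have h4 := Real.log_le_sub_one_of_pos (div_pos hlog20 hlog10)
      refine h4.trans ?_
      rw [sub_le_iff_le_add, div_add_one hlog10.ne']
      exact div_le_div_of_nonneg_right h2 hlog10.le
    have hsq : Real.sqrt L * Real.sqrt L = L := Real.mul_self_sqrt hL0.le
    have hsq0 : 0 < Real.sqrt L := Real.sqrt_pos.2 hL0
    have hsq1 : 1 ≤ Real.sqrt L := by
      rw [Real.one_le_sqrt]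
      exact hL1
    have h4 : Real.log (2 * L ^ 24) ≤ 49 * Real.sqrt L := by
      rw [Real.log_mul (by norm_num) (by positivity), Real.log_pow]
      have h5 : Real.log L ≤ 2 * Real.sqrt L := by
        have h6 : Real.log L = 2 * Real.log (Real.sqrt L) := by
          conv_lhs => rw [← hsq]
          rw [Real.log_mul hsq0.ne' hsq0.ne']
          ring
        have h7 := Real.log_le_sub_one_of_pos hsq0
        rw [h6]
        linarith
      have h8 : Real.log 2 ≤ 1 := by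
        have := Real.log_two_lt_d9
        linarith
      push_cast
      linarith
    have h5 : Real.log (2 * L ^ 24) / Real.log y1 ≤ 490 / Real.sqrt L := by
      rw [div_le_div_iff₀ hlog10 hsq0]
      calc Real.log (2 * L ^ 24) * Real.sqrt L ≤ 49 * Real.sqrt L * Real.sqrt L := by gcongr
        _ = 49 * L := by rw [mul_assoc, hsq]
        _ ≤ 490 * Real.log y1 := by linarith
    have h6 : 1 / L ^ 2 ≤ 1 / Real.sqrt L := by
      refine one_div_le_one_div_of_le hsq0 ?_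
      have h7 : Real.sqrt L ≤ L := by nlinarith
      have h8 : L ≤ L ^ 2 := by nlinarith
      linarith
    have h7 : 500 / ε ≤ Real.sqrt L := by
      refine Real.le_sqrt_of_sq_le ?_
      linarith
    have h8 : 491 / Real.sqrt L ≤ ε := by
      rw [div_le_iff₀ hsq0]
      rw [div_le_iff₀ hε] at h7
      linarith
    have h9 : 491 / Real.sqrt L = 490 / Real.sqrt L + 1 / Real.sqrt L := by ring
    linarith
  · rw [Finset.filter_false_of_mem]
    · rw [Finset.sum_empty]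
      exact hε.le
    · rintro p _ ⟨_, h2, h3⟩
      exact hyy (h2.trans h3.le)

theorem bd_sum (ε : ℝ) (hε : 0 < ε) : ∃ X0 : ℕ, ∀ X : ℕ, X0 ≤ X →
    ∑ k ∈ Icc 1 X, rg (zt X) k * nbd X k / k ≤ ε := by
  classical
  obtain ⟨C, X1, hC, hX1⟩ := NBd_rs
  obtain ⟨X2, hX2⟩ := NBd_p (ε / (C * C)) (by positivity)
  obtain ⟨X3, hX3⟩ := MP_log_pow 2 12 (by norm_num : (0 : ℝ) < 1 / 2)
  obtain ⟨X4, hX4⟩ := MP_log_large 1
  refine ⟨max (max X1 X2) (max X3 (max X4 2)), fun X hX => ?_⟩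
  simp only [max_le_iff] at hX
  obtain ⟨⟨hXX1, hXX2⟩, hXX3, hXX4, hX2'⟩ := hX
  have hXr : (2 : ℝ) ≤ X := by exact_mod_cast hX2'
  have hX0 : (0 : ℝ) < X := by linarith
  have hpow := hX3 X hXX3
  rw [← Real.sqrt_eq_rpow] at hpow
  have hL1 := hX4 X hXX4
  have hrs := hX1 X hXX1
  set L := Real.log X with hL
  have hL0 : 0 < L := by linarith
  set s := Real.sqrt X with hs
  set z := zt X with hz
  have hzr : (X : ℝ) ^ (1 / 10 : ℝ) ≤ z := Nat.le_ceil _
  set near : ℕ → Prop := fun d => s / L ^ 12 ≤ d ∧ (d : ℝ) ≤ L ^ 12 * s with hnear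
  have hrg : ∀ n, 0 ≤ rg z n := fun n => (rg_nonneg z n).1
  -- first step
  have h1 : ∑ k ∈ Icc 1 X, rg z k * nbd X k / k ≤
      ∑ d ∈ Icc 1 X, ∑ m ∈ Icc 1 X,
        (if near d then rg z d / d * (rg z m / m) else 0) := by
    refine le_trans (le_of_eq ?_) (NBd_conv X
      (fun d m => if near d then rg z d / d * (rg z m / m) else 0) fun a b => by
        split_ifs
        · exact mul_nonneg (div_nonneg (hrg _) (Nat.cast_nonneg _))
            (div_nonneg (hrg _) (Nat.cast_nonneg _))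
        · exact le_rfl)
    refine Finset.sum_congr rfl fun k hk => ?_
    rw [Finset.mem_Icc] at hk
    rw [← Finset.sum_filter]
    have h2 : ∀ d ∈ k.divisors.filter near, rg z d / d * (rg z (k / d) / ((k / d : ℕ) : ℝ)) =
        rg z k / k := by
      intro d hd
      rw [Finset.mem_filter] at hd
      have hdk : d ∣ k := Nat.dvd_of_mem_divisors hd.1
      have h3 : d * (k / d) = k := Nat.mul_div_cancel' hdk
      have h4 : (d : ℝ) * ((k / d : ℕ) : ℝ) = k := by exact_mod_cast h3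
      have h5 : rg z d * rg z (k / d) = rg z k := by rw [← rg_mul, h3]
      rw [div_mul_div_comm, h4, h5]
    rw [Finset.sum_congr rfl h2, Finset.sum_const, nsmul_eq_mul]
    have h3 : nbd X k = (k.divisors.filter near).card := by
      unfold nbd
      congr 1
    rw [h3]
    ring
  -- split of the product
  have h2 : ∑ d ∈ Icc 1 X, ∑ m ∈ Icc 1 X,
        (if near d then rg z d / d * (rg z m / m) else 0) =
      (∑ d ∈ Icc 1 X, if near d then rg z d / (d : ℝ) else 0) * ∑ m ∈ Icc 1 X, rg z m / m := by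
    rw [Finset.sum_mul]
    refine Finset.sum_congr rfl fun d _ => ?_
    rw [Finset.mul_sum]
    refine Finset.sum_congr rfl fun m _ => ?_
    split_ifs
    · rfl
    · rw [zero_mul]
  -- second step
  have h3 : ∑ d ∈ Icc 1 X, (if near d then rg z d / (d : ℝ) else 0) ≤
      ∑ p ∈ Icc 1 X, ∑ m ∈ Icc 1 X,
        (if near (p * m) ∧ p.Prime ∧ (X : ℝ) ^ (1 / 10 : ℝ) ≤ p then
          1 / (p : ℝ) * (rg z m / m) else 0) := by
    have hF : ∀ a b : ℕ, 0 ≤ (if near (a * b) ∧ a.Prime ∧ (X : ℝ) ^ (1 / 10 : ℝ) ≤ a then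
          1 / (a : ℝ) * (rg z b / b) else 0) := fun a b => by
      split_ifs
      · exact mul_nonneg (by positivity) (div_nonneg (hrg _) (Nat.cast_nonneg _))
      · exact le_rfl
    refine le_trans ?_ (NBd_conv X (fun p m => if near (p * m) ∧ p.Prime ∧
      (X : ℝ) ^ (1 / 10 : ℝ) ≤ p then 1 / (p : ℝ) * (rg z m / m) else 0) hF)
    refine Finset.sum_le_sum fun d hd => ?_
    rw [Finset.mem_Icc] at hd
    by_cases hn : near d
    · rw [if_pos hn]
      by_cases hr : Rgh z d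
      · have hd1 : d ≠ 1 := by
          intro h
          rw [h] at hn
          have h4 : s / L ^ 12 ≤ 1 := by simpa using hn.1
          rw [div_le_one (by positivity)] at h4
          have h5 : 1 ≤ L ^ 12 := one_le_pow₀ hL1
          linarith
        have hp := Nat.minFac_prime hd1
        have hpd : d.minFac ∣ d := Nat.minFac_dvd d
        have hzp : z ≤ d.minFac := hr.2 _ (Nat.mem_primeFactors.2 ⟨hp, hpd, hr.1⟩)
        have h4 : d.minFac * (d / d.minFac) = d := Nat.mul_div_cancel' hpd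
        have h5 : (d.minFac : ℝ) * ((d / d.minFac : ℕ) : ℝ) = d := by exact_mod_cast h4
        have h6 : rg z d ≤ rg z (d / d.minFac) := by
          have h7 : rg z d = rg z d.minFac * rg z (d / d.minFac) := by rw [← rg_mul, h4]
          rw [h7]
          exact mul_le_of_le_one_left (hrg _) (rg_nonneg z _).2
        have h7 : rg z d / (d : ℝ) ≤
            (if near (d.minFac * (d / d.minFac)) ∧ d.minFac.Prime ∧
              (X : ℝ) ^ (1 / 10 : ℝ) ≤ d.minFac then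
              1 / (d.minFac : ℝ) * (rg z (d / d.minFac) / ((d / d.minFac : ℕ) : ℝ)) else 0) := by
          rw [if_pos ⟨by rw [h4]; exact hn, hp, hzr.trans (by exact_mod_cast hzp)⟩,
            div_mul_div_comm, h5, one_mul]
          exact div_le_div_of_nonneg_right h6 (Nat.cast_nonneg _)
        refine h7.trans ?_
        exact Finset.single_le_sum (f := fun p => if near (p * (d / p)) ∧ p.Prime ∧
          (X : ℝ) ^ (1 / 10 : ℝ) ≤ p then 1 / (p : ℝ) * (rg z (d / p) / ((d / p : ℕ) : ℝ)) else 0)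
          (fun p _ => hF p (d / p)) (Nat.mem_divisors.2 ⟨hpd, by omega⟩)
      · have h4 : rg z d = 0 := by
          unfold rg
          rw [if_neg hr]
        rw [h4, zero_div]
        exact Finset.sum_nonneg fun p _ => hF p (d / p)
    · rw [if_neg hn]
      exact Finset.sum_nonneg fun p _ => hF p (d / p)
  have h4 : ∑ p ∈ Icc 1 X, ∑ m ∈ Icc 1 X,
        (if near (p * m) ∧ p.Prime ∧ (X : ℝ) ^ (1 / 10 : ℝ) ≤ p then
          1 / (p : ℝ) * (rg z m / m) else 0) ≤ C * (ε / (C * C)) := by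
    rw [Finset.sum_comm]
    have h5 : ∀ m ∈ Icc 1 X, ∑ p ∈ Icc 1 X,
        (if near (p * m) ∧ p.Prime ∧ (X : ℝ) ^ (1 / 10 : ℝ) ≤ p then
          1 / (p : ℝ) * (rg z m / m) else 0) ≤ rg z m / m * (ε / (C * C)) := by
      intro m hm
      rw [← Finset.sum_filter, ← Finset.sum_mul, mul_comm]
      refine mul_le_mul_of_nonneg_left ?_ (div_nonneg (hrg _) (Nat.cast_nonneg _))
      refine le_trans (le_of_eq ?_) (hX2 X hXX2 m hm)
      refine Finset.sum_congr ?_ fun _ _ => rfl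
      ext p
      simp only [Finset.mem_filter, hnear]
      push_cast
      tauto
    refine (Finset.sum_le_sum h5).trans ?_
    rw [← Finset.sum_mul]
    exact mul_le_mul_of_nonneg_right hrs (by positivity)
  refine h1.trans ?_
  rw [h2]
  have h5 : 0 ≤ ∑ m ∈ Icc 1 X, rg z m / (m : ℝ) :=
    Finset.sum_nonneg fun m _ => div_nonneg (hrg _) (Nat.cast_nonneg _)
  calc (∑ d ∈ Icc 1 X, if near d then rg z d / (d : ℝ) else 0) * ∑ m ∈ Icc 1 X, rg z m / m ≤
        (C * (ε / (C * C))) * C :=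
        mul_le_mul (h3.trans h4) hrs h5 (by positivity)
    _ = ε := by
        field_simp

end Pool.MP_dd84fd_nt.IY
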