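import Pool.Agent.Lib.MP_dd84fd_nt.IY.NHp

/-!
# IY-NLg: the quotient `log n / log (n/k)` in cells (helper5, from IX/NWb)
-/

set_option autoImplicit false

namespace Pool.MP_dd84fd_nt.IY

open Finset Pool.MP_67663b_nt.Odd Pool.MP_dd84fd_nt.En Pool.MP_dd84fd_nt.E2 Pool.MP_dd84fd_nt.HX

theorem log_one (P : Prm) (hG : 20 ≤ P.G) (B' : ℕ) : ∃ X0 : ℕ, ∀ X : ℕ, X0 ≤ X →
    ∀ n k : ℕ, X5 X < n → n ≤ X → 1 ≤ k → Simp (kp B' X) (zt X) k → (zt X : ℝ) ≤ (n : ℝ) / k →
    (∀ j ∈ ty (kp B' X) (zt X) k, j < bx (kp B' X) (zt X) ((n : ℝ) / k)) →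
    0 < yl P (cL P X k).reverse ∧ 0 < Real.log ((n : ℝ) / k) ∧
    Real.log n / Real.log ((n : ℝ) / k) ≤ P.G / yl P (cL P X k).reverse ∧
    Real.log n / Real.log ((n : ℝ) / k) ≤ 10 := by
  obtain ⟨X7, hX7⟩ := MP_log_large ((100 * (P.G : ℝ) + 100) ^ 2)
  have hG0 : (20 : ℝ) ≤ P.G := by exact_mod_cast hG
  obtain ⟨X8, hX8⟩ := zt_log
  refine ⟨max X7 (max X8 1), ?_⟩
  intro X hX n k hn hnX hk hS hz hj
  simp only [max_le_iff] at hX
  obtain ⟨g7, g8, g9⟩ := hX
  have hLb := hX7 X g7
  obtain ⟨hz2, hzl⟩ := hX8 X g8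
  set L := Real.log (X : ℝ) with hLd
  have hL1 : 1 ≤ L := by nlinarith
  have hL0 : 0 < L := by linarith
  have hκ0 : 0 < kp B' X := by
    unfold kp
    rw [← hLd]
    positivity
  have hsq : Squarefree k := hS.2.1
  obtain ⟨hnd, htf, hlist, hlen, hsum⟩ := n_list P (X := X) hsq
  have hz1 : 1 ≤ zt X := by omega
  have hzR : (0 : ℝ) < zt X := by exact_mod_cast hz1
  have hXR : (0 : ℝ) < X := by exact_mod_cast g9
  have hk0 : (0 : ℝ) < k := by exact_mod_cast hk
  have hL5 : 0 < L ^ 5 := by positivity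
  have hX5 : 0 < X5 X := by
    unfold X5
    rw [← hLd]
    positivity
  have hn0 : (0 : ℝ) < n := hX5.trans hn
  have hnk : 0 < (n : ℝ) / k := div_pos hn0 hk0
  have hlz : L / 10 ≤ Real.log ((n : ℝ) / k) := hzl.trans (Real.log_le_log hzR hz)
  have hpos : 0 < Real.log ((n : ℝ) / k) := by linarith
  have hlogn : Real.log n ≤ L := Real.log_le_log hn0 (by exact_mod_cast hnX)
  have hlogn0 : 0 ≤ Real.log (n : ℝ) := Real.log_natCast_nonneg n
  have hlogn1 : L - 5 * Real.log L ≤ Real.log n := by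
    have h1 := Real.log_le_log hX5 hn.le
    unfold X5 at h1
    rw [← hLd, Real.log_div hXR.ne' hL5.ne', Real.log_pow, ← hLd] at h1
    push_cast at h1
    exact h1
  have hsmall : (5 * (P.G : ℝ) + 5) * Real.log L ≤ L := by
    have h5 : Real.log L ≤ 2 * Real.sqrt L := by
      have h6 : Real.log L = 2 * Real.log (Real.sqrt L) := by
        rw [Real.log_sqrt hL0.le]
        ring
      have h7 : Real.log (Real.sqrt L) ≤ Real.sqrt L - 1 :=
        Real.log_le_sub_one_of_pos (Real.sqrt_pos.2 hL0)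
      rw [h6]
      linarith
    have h8 : 100 * (P.G : ℝ) + 100 ≤ Real.sqrt L := by
      rw [Real.le_sqrt (by positivity) hL0.le]
      linarith
    have h10 : 0 ≤ Real.sqrt L := Real.sqrt_nonneg _
    have h9 : Real.sqrt L * Real.sqrt L = L := Real.mul_self_sqrt hL0.le
    calc (5 * (P.G : ℝ) + 5) * Real.log L ≤ (5 * (P.G : ℝ) + 5) * (2 * Real.sqrt L) :=
          mul_le_mul_of_nonneg_left h5 (by positivity)
      _ = (10 * (P.G : ℝ) + 10) * Real.sqrt L := by ring
      _ ≤ Real.sqrt L * Real.sqrt L := mul_le_mul_of_nonneg_right (by linarith) h10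
      _ = L := h9
  have hlogL : 0 ≤ Real.log L := Real.log_nonneg hL1
  have hple : ∀ p ∈ k.primeFactors, Real.log p ≤ Real.log ((n : ℝ) / k) := by
    intro p hp
    have hp0 : (0 : ℝ) < p := by exact_mod_cast (Nat.prime_of_mem_primeFactors hp).pos
    exact Real.log_le_log hp0 (n_le hκ0 hz1 hS hz hj hp)
  have hpge : ∀ p ∈ k.primeFactors, 1 ≤ cel P X p := by
    intro p hp
    have h1 : (zt X : ℝ) ≤ p := by exact_mod_cast hS.1.2 p hp
    have h2 : L / 10 ≤ Real.log p := hzl.trans (Real.log_le_log hzR h1)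
    have h3 := (n_cel P hL0 p).2
    rw [← hLd] at h3
    have h4 : (P.G : ℝ) * (L / 10) ≤ P.G * Real.log p :=
      mul_le_mul_of_nonneg_left h2 (by linarith)
    have h7 : (20 : ℝ) * (L / 10) ≤ P.G * (L / 10) :=
      mul_le_mul_of_nonneg_right hG0 (by positivity)
    have h8 : (1 : ℝ) * L < ((cel P X p : ℝ) + 1) * L := by linarith
    have h5 : (1 : ℝ) < (cel P X p : ℝ) + 1 := lt_of_mul_lt_mul_right h8 hL0.le
    have h6 : 1 < cel P X p + 1 := by exact_mod_cast h5
    omega
  have hmem : ∀ c ∈ (cL P X k).reverse, ∃ p ∈ k.primeFactors, c = cel P X p := by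
    intro c hc
    rw [hlist, List.mem_map] at hc
    obtain ⟨p, hp, rfl⟩ := hc
    refine ⟨p, ?_, rfl⟩
    rw [← htf]
    exact List.mem_toFinset.2 hp
  have hyl0 : 0 < yl P (cL P X k).reverse := by
    unfold yl
    rcases n_head (cL P X k).reverse with ⟨h1, _⟩ | h1
    · rw [h1]
      simp only [List.headD_nil, List.sum_nil, List.length_nil]
      omega
    · obtain ⟨p, hp, hc⟩ := hmem _ h1
      have := hpge p hp
      rw [hc]
      exact lt_of_lt_of_le (by omega) (le_max_left _ _)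
  have hylR : (0 : ℝ) < (yl P (cL P X k).reverse : ℕ) := by exact_mod_cast hyl0
  -- the logarithm of `k`
  have hlk : Real.log ((n : ℝ) / k) = Real.log n - Real.log k :=
    Real.log_div hn0.ne' hk0.ne'
  have hk2 : (P.G : ℝ) * Real.log k ≤
      (((cL P X k).reverse.sum : ℕ) + ((cL P X k).reverse.length : ℕ) : ℝ) * L := by
    rw [hsum, hlen, n_logk hsq, Nat.cast_sum, Finset.mul_sum, add_mul, Finset.sum_mul,
      Finset.card_eq_sum_ones, Nat.cast_sum, Finset.sum_mul, ← Finset.sum_add_distrib]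
    refine Finset.sum_le_sum fun q _ => ?_
    have := (n_cel P hL0 q).2
    rw [← hLd] at this
    push_cast
    linarith
  refine ⟨hyl0, hpos, ?_, ?_⟩
  · rw [div_le_div_iff₀ hpos hylR]
    unfold yl
    rw [Nat.cast_max, mul_max_of_nonneg _ _ hlogn0]
    refine max_le ?_ ?_
    · rcases n_head (cL P X k).reverse with ⟨_, h1⟩ | h1
      · rw [h1]
        push_cast
        rw [mul_zero]
        positivity
      · obtain ⟨p, hp, hc⟩ := hmem _ h1
        rw [hc]
        have h2 := (n_cel P hL0 p).1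
        have h3 := hple p hp
        have h4 : Real.log n * (cel P X p : ℝ) ≤ L * (cel P X p : ℝ) :=
          mul_le_mul_of_nonneg_right hlogn (Nat.cast_nonneg _)
        have h5 : (P.G : ℝ) * Real.log p ≤ P.G * Real.log ((n : ℝ) / k) :=
          mul_le_mul_of_nonneg_left h3 (by linarith)
        rw [← hLd] at h2
        linarith
    · set s := (cL P X k).reverse.sum
      set m := (cL P X k).reverse.length
      by_cases hsm : s + m + 1 ≤ P.G
      · have e : ((P.G - s - m - 1 : ℕ) : ℝ) = P.G - ((s : ℝ) + m) - 1 := by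
          have h1 : P.G - s - m - 1 = P.G - (s + m + 1) := by omega
          rw [h1, Nat.cast_sub hsm]
          push_cast
          ring
        rw [e, hlk]
        have h2 : ((s : ℝ) + m) ≤ P.G := by
          have : s + m ≤ P.G := by omega
          exact_mod_cast this
        have h3 : (0 : ℝ) ≤ (s : ℝ) + m := by positivity
        have h4 : ((s : ℝ) + m) * (L - Real.log n) ≤ P.G * (5 * Real.log L) := by
          have h5 : L - Real.log n ≤ 5 * Real.log L := by linarith
          exact mul_le_mul h2 h5 (by linarith) (by linarith)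
        nlinarith
      · have e : P.G - s - m - 1 = 0 := by omega
        rw [e]
        push_cast
        rw [mul_zero]
        positivity
  · rw [div_le_iff₀ hpos]
    linarith

end Pool.MP_dd84fd_nt.IY
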