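import Pool.Agent.Lib.MP_dd84fd_nt.IY.NCe
import Pool.Agent.Lib.MP_dd84fd_nt.IY.NSb

/-!
# IY-NTr (0.8 h): the tree bound

Proof. For `f`, `h ≥ 35`, a list `l` put `S f h l = Σ_{k ≤ X squarefree, ω(k) ≤ f, all primes of k have cell ≥ h} HR P ((cL P X k).reverse ++ l)/k`. Claim `S f h l ≤ nodeR P ε f h l` by induction on `f`. `k = 1` gives `HR P l`. `k ≥ 2`: `p = minFac k`, `k = p k'`, `c = cel P X p ≥ h`: `cL P X k = c :: cL P X k'` (`Nat.primeFactorsList`: `primeFactorsList k = minFac k :: primeFactorsList (k / minFac k)`),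
`(cL P X k).reverse ++ l = (cL P X k').reverse ++ (c :: l)`, `k'` squarefree with `ω(k') ≤ f - 1` and all primes `≥ p` (so cell `≥ c`, `cel` monotone). `k ↦ (p, k')` is injective. If `c ≥ 141` the term is `0` (`top_ext`). So `S f h l ≤ HR P l + Σ_{c = h}^{140} (Σ_{p in cell c} 1/p) S (f-1) c (c :: l)`, `cell_sum`, induction (`HR ≥ 0`, `muc c + ε ≥ 0`).
The theorem is the case `f = 7`, `h = 35`, `l = []`: `Rgh (z8 X) k` gives `p ≥ z8 X ≥ X^(1/8)`, `281/8 = 35.1`, cell `≥ 35`.
-/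

set_option autoImplicit false

namespace Pool.MP_dd84fd_nt.IY

open Finset Pool.MP_67663b_nt.Odd Pool.MP_dd84fd_nt.En Pool.MP_dd84fd_nt.E2 Pool.MP_dd84fd_nt.HX

theorem HR_nonneg (P : Prm) (l : List ℕ) : 0 ≤ HR P l := by
  unfold HR
  positivity

open Classical in
private noncomputable def trS (P : Prm) (X f h : ℕ) : Finset ℕ :=
  (Icc 1 X).filter (fun k => Squarefree k ∧ k.primeFactors.card ≤ f ∧
    ∀ p ∈ k.primeFactors, h ≤ cel P X p)

private theorem tr_memS {P : Prm} {X f h k : ℕ} : k ∈ trS P X f h ↔ (1 ≤ k ∧ k ≤ X) ∧ Squarefree k ∧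
    k.primeFactors.card ≤ f ∧ ∀ p ∈ k.primeFactors, h ≤ cel P X p := by
  unfold trS
  rw [mem_filter, mem_Icc]

private theorem tr_one (P : Prm) (X : ℕ) (l : List ℕ) : HR P ((cL P X 1).reverse ++ l) / ((1 : ℕ) : ℝ) = HR P l := by
  unfold cL
  rw [Nat.primeFactorsList_one]
  simp

private theorem tr_list (P : Prm) (X : ℕ) (l : List ℕ) {k : ℕ} (hk : 2 ≤ k) :
    (cL P X k).reverse ++ l = (cL P X (k / k.minFac)).reverse ++ (cel P X k.minFac :: l) := by
  unfold cL
  obtain ⟨m, rfl⟩ : ∃ m, k = m + 2 := ⟨k - 2, by omega⟩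
  rw [Nat.primeFactorsList]
  simp

private theorem tr_cel_mono {P : Prm} {X p q : ℕ} (hX : 2 ≤ X) (hp : 1 ≤ p) (h : p ≤ q) :
    cel P X p ≤ cel P X q := by
  unfold cel
  have hL : 0 < Real.log X := Real.log_pos (by exact_mod_cast hX)
  have h1 : Real.log p ≤ Real.log q :=
    Real.log_le_log (by exact_mod_cast hp) (by exact_mod_cast h)
  apply Nat.floor_le_floor
  gcongr

private theorem tr_step {P : Prm} {X f h k : ℕ} (hX : 2 ≤ X) (hk : k ∈ trS P X (f + 1) h) (h1 : k ≠ 1) :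
    k / k.minFac ∈ trS P X f (cel P X k.minFac) ∧ h ≤ cel P X k.minFac ∧ k.minFac.Prime ∧
      k.minFac ≤ X ∧ k = k.minFac * (k / k.minFac) := by
  rw [tr_memS] at hk
  obtain ⟨⟨a1, a2⟩, a3, a4, a5⟩ := hk
  have hp : k.minFac.Prime := Nat.minFac_prime h1
  have hd : k.minFac ∣ k := Nat.minFac_dvd k
  have he : k = k.minFac * (k / k.minFac) := (Nat.mul_div_cancel' hd).symm
  have hk0 : 0 < k := by omega
  have hle : k.minFac ≤ k := Nat.minFac_le hk0
  have hpm : k.minFac ∈ k.primeFactors := Nat.mem_primeFactors.2 ⟨hp, hd, by omega⟩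
  refine ⟨?_, a5 _ hpm, hp, hle.trans a2, he⟩
  have hdd : k / k.minFac ∣ k := Nat.div_dvd_of_dvd hd
  have hk' : 1 ≤ k / k.minFac := Nat.div_pos hle hp.pos
  rw [tr_memS]
  refine ⟨⟨hk', (Nat.div_le_self _ _).trans a2⟩, a3.squarefree_of_dvd hdd, ?_, ?_⟩
  · have hnot : k.minFac ∉ (k / k.minFac).primeFactors := by
      intro hm
      have h2 := Nat.dvd_of_mem_primeFactors hm
      have h3 : k.minFac * k.minFac ∣ k := by
        conv_rhs => rw [he]
        exact mul_dvd_mul_left _ h2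
      have h4 := a3 _ h3
      rw [Nat.isUnit_iff] at h4
      exact hp.one_lt.ne' h4
    have hsub : insert k.minFac (k / k.minFac).primeFactors ⊆ k.primeFactors := by
      intro q hq
      rw [mem_insert] at hq
      rcases hq with rfl | hq
      · exact hpm
      · exact Nat.primeFactors_mono hdd (by omega) hq
    have h2 := card_le_card hsub
    rw [card_insert_of_notMem hnot] at h2
    omega
  · intro q hq
    have hq1 : q.Prime := Nat.prime_of_mem_primeFactors hq
    have hq2 : q ∣ k := (Nat.dvd_of_mem_primeFactors hq).trans hdd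
    exact tr_cel_mono hX hp.pos (Nat.minFac_le_of_dvd hq1.two_le hq2)

private theorem tr_main (P : Prm) (hG : 20 ≤ P.G) (hsm : P.sm < P.G) (ε : ℝ) (hε : 0 < ε) (X : ℕ) (hX : 2 ≤ X)
    (hcell : ∀ c : ℕ, P.G ≤ 20 * c → c < P.G →
      ∑ p ∈ (Icc 1 X).filter (fun p : ℕ => p.Prime ∧ cel P X p = c), 1 / (p : ℝ) ≤ muc c + ε)
    (f : ℕ) : ∀ (h : ℕ) (l : List ℕ), P.G ≤ 20 * h →
      ∑ k ∈ trS P X f h, HR P ((cL P X k).reverse ++ l) / k ≤ nodeR P ε f h l := by
  classical
  induction f with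
  | zero =>
    intro h l _
    have hsub : trS P X 0 h ⊆ {1} := by
      intro k hk
      rw [tr_memS] at hk
      obtain ⟨⟨a1, a2⟩, a3, a4, a5⟩ := hk
      rw [mem_singleton]
      have h2 : k.primeFactors = ∅ := card_eq_zero.1 (by omega)
      rw [Nat.primeFactors_eq_empty] at h2
      omega
    refine (sum_le_sum_of_subset_of_nonneg hsub fun k _ _ => ?_).trans ?_
    · exact div_nonneg (HR_nonneg P _) (Nat.cast_nonneg _)
    · rw [sum_singleton, tr_one]
      exact le_of_eq rfl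
  | succ f ih =>
    intro h l hh
    have hT0 : ∀ (l : List ℕ) (k : ℕ), 0 ≤ HR P ((cL P X k).reverse ++ l) / (k : ℝ) := fun l k =>
      div_nonneg (HR_nonneg P _) (Nat.cast_nonneg _)
    -- the terms with small first cell
    set S2 := (trS P X (f + 1) h).filter (fun k => k ≠ 1 ∧ cel P X k.minFac ≤ P.sm) with hS2
    have e1 : ∑ k ∈ trS P X (f + 1) h, HR P ((cL P X k).reverse ++ l) / k ≤
        HR P l + ∑ k ∈ S2, HR P ((cL P X k).reverse ++ l) / k := by
      rw [← tr_one P X l]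
      have hz : ∀ k ∈ trS P X (f + 1) h, k ∉ insert 1 S2 → HR P ((cL P X k).reverse ++ l) / (k : ℝ) = 0 := by
        intro k hk hk'
        rw [mem_insert, not_or, hS2, mem_filter, not_and, not_and] at hk'
        have h1 := hk'.2 hk hk'.1
        have hk2 : 2 ≤ k := by
          have := (tr_memS.1 hk).1.1
          have := hk'.1
          omega
        rw [tr_list P X l hk2, sm_ext _ _ _ _ (by omega), zero_div]
      have h1 : ∑ k ∈ trS P X (f + 1) h, HR P ((cL P X k).reverse ++ l) / (k : ℝ) ≤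
          ∑ k ∈ insert 1 S2, HR P ((cL P X k).reverse ++ l) / (k : ℝ) := by
        rw [← sum_filter_add_sum_filter_not (trS P X (f + 1) h) (fun k => k ∈ insert 1 S2)]
        have h2 : ∑ k ∈ (trS P X (f + 1) h).filter (fun k => ¬ k ∈ insert 1 S2),
            HR P ((cL P X k).reverse ++ l) / (k : ℝ) = 0 := by
          refine sum_eq_zero fun k hk => ?_
          rw [mem_filter] at hk
          exact hz k hk.1 hk.2
        rw [h2, add_zero]
        refine sum_le_sum_of_subset_of_nonneg ?_ fun k _ _ => hT0 l k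
        intro k hk
        exact (mem_filter.1 hk).2
      refine h1.trans (le_of_eq ?_)
      rw [sum_insert]
      rw [hS2, mem_filter]
      exact fun h => h.2.1 rfl
    refine e1.trans ?_
    show HR P l + _ ≤ HR P l + ∑ c ∈ Icc h P.sm, (muc c + ε) * nodeR P ε f c (c :: l)
    refine add_le_add (le_refl _) ?_
    have hmaps : ∀ k ∈ S2, cel P X k.minFac ∈ Icc h P.sm := by
      intro k hk
      rw [hS2, mem_filter] at hk
      exact mem_Icc.2 ⟨(tr_step hX hk.1 hk.2.1).2.1, hk.2.2⟩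
    rw [← sum_fiberwise_of_maps_to hmaps]
    refine sum_le_sum fun c hc => ?_
    rw [mem_Icc] at hc
    set Pc := (Icc 1 X).filter (fun p : ℕ => p.Prime ∧ cel P X p = c) with hPc
    have hmaps2 : ∀ k ∈ S2.filter (fun k => cel P X k.minFac = c), k.minFac ∈ Pc := by
      intro k hk
      rw [mem_filter, hS2, mem_filter] at hk
      obtain ⟨-, -, b3, b4, -⟩ := tr_step hX hk.1.1 hk.1.2.1
      rw [hPc, mem_filter, mem_Icc]
      exact ⟨⟨b3.pos, b4⟩, b3, hk.2⟩
    rw [← sum_fiberwise_of_maps_to hmaps2]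
    have hfib : ∀ p ∈ Pc, ∑ k ∈ (S2.filter (fun k => cel P X k.minFac = c)).filter
        (fun k => k.minFac = p), HR P ((cL P X k).reverse ++ l) / (k : ℝ) ≤
        (1 / (p : ℝ)) * ∑ k ∈ trS P X f c, HR P ((cL P X k).reverse ++ (c :: l)) / (k : ℝ) := by
      intro p hp
      set A := (S2.filter (fun k => cel P X k.minFac = c)).filter (fun k => k.minFac = p) with hA
      have hmemA : ∀ k ∈ A, k ∈ trS P X (f + 1) h ∧ k ≠ 1 ∧ cel P X k.minFac = c ∧ k.minFac = p := by
        intro k hk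
        rw [hA, mem_filter, mem_filter, hS2, mem_filter] at hk
        exact ⟨hk.1.1.1, hk.1.1.2.1, hk.1.2, hk.2⟩
      have hp0 : (p : ℝ) ≠ 0 := by
        rw [hPc, mem_filter] at hp
        exact_mod_cast hp.2.1.pos.ne'
      have g1 : ∑ k ∈ A, HR P ((cL P X k).reverse ++ l) / (k : ℝ) =
          ∑ k ∈ A, (1 / (p : ℝ)) *
            (HR P ((cL P X (k / p)).reverse ++ (c :: l)) / ((k / p : ℕ) : ℝ)) := by
        refine sum_congr rfl fun k hk => ?_
        obtain ⟨b1, b2, b3, b4⟩ := hmemA k hk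
        have hk2 : 2 ≤ k := by
          have := (tr_memS.1 b1).1.1
          omega
        obtain ⟨c1, -, -, -, c5⟩ := tr_step hX b1 b2
        rw [tr_list P X l hk2, b3, b4]
        have h3 : (k : ℝ) = p * ((k / p : ℕ) : ℝ) := by
          rw [b4] at c5
          exact_mod_cast c5
        conv_lhs => rw [h3]
        have hk'0 : (((k / p : ℕ) : ℕ) : ℝ) ≠ 0 := by
          rw [b4] at c1
          have := (tr_memS.1 c1).1.1
          have h4 : (k / p : ℕ) ≠ 0 := by omega
          exact_mod_cast h4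
        field_simp
      rw [g1, ← mul_sum]
      refine mul_le_mul_of_nonneg_left ?_ (by positivity)
      have hinj : Set.InjOn (fun k => k / p) (A : Set ℕ) := by
        intro k hk k' hk' hkk
        obtain ⟨b1, b2, b3, b4⟩ := hmemA k hk
        obtain ⟨b1', b2', b3', b4'⟩ := hmemA k' hk'
        have c5 := (tr_step hX b1 b2).2.2.2.2
        have c5' := (tr_step hX b1' b2').2.2.2.2
        rw [b4] at c5
        rw [b4'] at c5'
        have hkk' : k / p = k' / p := hkk
        rw [c5, c5', hkk']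
      rw [← sum_image (f := fun k' => HR P ((cL P X k').reverse ++ (c :: l)) / (k' : ℝ)) hinj]
      refine sum_le_sum_of_subset_of_nonneg ?_ fun k _ _ => hT0 _ k
      intro k' hk'
      rw [mem_image] at hk'
      obtain ⟨k, hk, rfl⟩ := hk'
      obtain ⟨b1, b2, b3, b4⟩ := hmemA k hk
      have c1 := (tr_step hX b1 b2).1
      rw [b3, b4] at c1
      exact c1
    refine (sum_le_sum hfib).trans ?_
    rw [← sum_mul]
    have h5 : 0 ≤ ∑ k ∈ trS P X f c, HR P ((cL P X k).reverse ++ (c :: l)) / (k : ℝ) :=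
      sum_nonneg fun k _ => hT0 _ k
    have h6 := hcell c (by omega) (by omega)
    have h7 : 0 ≤ muc c + ε := by
      have : 0 ≤ muc c := by unfold muc; positivity
      linarith
    calc (∑ p ∈ Pc, 1 / (p : ℝ)) * ∑ k ∈ trS P X f c, HR P ((cL P X k).reverse ++ (c :: l)) / (k : ℝ)
        ≤ (muc c + ε) * ∑ k ∈ trS P X f c, HR P ((cL P X k).reverse ++ (c :: l)) / (k : ℝ) :=
          mul_le_mul_of_nonneg_right h6 h5
      _ ≤ (muc c + ε) * nodeR P ε f c (c :: l) :=
          mul_le_mul_of_nonneg_left (ih c (c :: l) (by omega)) h7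

theorem tree_sum (P : Prm) (hG : 20 ≤ P.G) (hsm : P.sm < P.G) (h0 : ℕ) (hh1 : 10 * h0 ≤ P.G)
    (hh2 : P.G ≤ 20 * h0) (hw : ∀ s t, 6 < s → P.w s t = 0) (ε : ℝ) (hε : 0 < ε) :
    ∃ X0 : ℕ, ∀ X : ℕ, X0 ≤ X → ∀ K : Finset ℕ,
    (∀ k ∈ K, k ∈ Icc 1 X ∧ Squarefree k ∧ Rgh (zt X) k) →
    ∑ k ∈ K, HR P (cL P X k).reverse / k ≤ nodeR P ε 6 h0 [] := by
  classical
  obtain ⟨X1, hX1⟩ := cell_sum P hG ε hε
  refine ⟨max X1 3, fun X hX K hK => ?_⟩
  have hX3 : 3 ≤ X := (le_max_right _ _).trans hX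
  have h1 := tr_main P hG hsm ε hε X (by omega) (hX1 X ((le_max_left _ _).trans hX)) 6 h0 [] hh2
  simp only [List.append_nil] at h1
  have hz : ∀ k ∈ K, ¬ k.primeFactors.card ≤ 6 → HR P (cL P X k).reverse / (k : ℝ) = 0 := by
    intro k hk hc
    obtain ⟨a1, a2, a3⟩ := hK k hk
    have hnd : k.primeFactorsList.Nodup :=
      (Nat.squarefree_iff_nodup_primeFactorsList a2.ne_zero).1 a2
    have hlen : (cL P X k).reverse.length = k.primeFactors.card := by
      unfold cL
      rw [List.length_reverse, List.length_map, ← List.toFinset_card_of_nodup hnd]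
      rfl
    have hwc : wc P (cL P X k).reverse = 0 := by
      unfold wc
      rw [hlen, hw _ _ (by omega), ite_self]
    unfold HR
    rw [hwc, Nat.cast_zero, zero_mul, zero_div, zero_div]
  have h2 : ∑ k ∈ K, HR P (cL P X k).reverse / (k : ℝ) =
      ∑ k ∈ K.filter (fun k => k.primeFactors.card ≤ 6), HR P (cL P X k).reverse / (k : ℝ) := by
    rw [Finset.sum_filter_of_ne]
    intro k hk hne
    by_contra hc
    exact hne (hz k hk hc)
  rw [h2]
  refine le_trans (sum_le_sum_of_subset_of_nonneg ?_ fun k _ _ =>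
    div_nonneg (HR_nonneg P _) (Nat.cast_nonneg _)) h1
  intro k hk
  rw [mem_filter] at hk
  obtain ⟨a1, a2, a4⟩ := hK k hk.1
  rw [tr_memS]
  refine ⟨mem_Icc.1 a1, a2, hk.2, fun p hp => ?_⟩
  have h2 : zt X ≤ p := a4.2 p hp
  have h3 : (X : ℝ) ^ (1 / 10 : ℝ) ≤ p := (zt_ge X).trans (by exact_mod_cast h2)
  have hX0 : (0 : ℝ) < X := by
    have : 0 < X := by omega
    exact_mod_cast this
  have hL : 0 < Real.log X := Real.log_pos (by
    have : 1 < X := by omega
    exact_mod_cast this)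
  have h4 : Real.log X / 10 ≤ Real.log p := by
    have h5 := Real.log_le_log (Real.rpow_pos_of_pos hX0 _) h3
    rw [Real.log_rpow hX0] at h5
    linarith
  unfold cel
  apply Nat.le_floor
  have h5 : 1 / 10 ≤ Real.log p / Real.log X := by
    rw [div_le_div_iff₀ (by norm_num) hL]
    linarith
  have h6 : (10 : ℝ) * h0 ≤ P.G := by exact_mod_cast hh1
  have h7 : (0 : ℝ) ≤ P.G := Nat.cast_nonneg _
  nlinarith

end Pool.MP_dd84fd_nt.IY
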