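import Pool.Agent.Lib.MP_dd84fd_nt.IY.NWb
import Pool.Agent.Lib.MP_dd84fd_nt.IY.NLg
import Pool.Agent.Lib.MP_dd84fd_nt.IY.NTr
import Pool.Agent.Lib.MP_dd84fd_nt.IY.NBd
import Pool.Agent.Lib.MP_dd84fd_nt.IY.CDen

/-!
# IY-NFi (0.6 h): the densities of the families from the values of the trees

Compare `IX/NFi.lean` (`ep_num`, complete proof of a similar statement there). `P = pF G sm mb` resp. `pS G sm mb`; `P.w s t = 0` for `s > 6`. For `X5 < n ≤ X`: `log n gty W n = Σ_{k ≤ X} r_k vty(n/k, k)/k`, `r_k = log n/log (n/k)`.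
`k = 1`: `1` is simple, `ty 1 = ∅`, `vty n 1 = W {bx n} = 1` for `W = rmT` (`TyCL` from `tycl` in BTy4/BDec: `R T = 1`, `E T = 0` for one box; `US` in the range by `us_v` with `k = 1`; see the proof of `gty_lower` in CDen) and for `W = spT = rmT + epT`; `r_1 = 1`: the term is `1`.
`k ≥ 2`: the term is `0` or `k ∈ K` (simple, `z ≤ n/k`, boxes below `bx (n/k)`) and `w_one`, `log_one` (`0 ≤ r ≤ P.G/yl`, `r ≤ 10`) give `r rmT ≥ -HR (pF) - 10 2^25 nbd`, `r spT ≤ HR (pS) + 10 2^25 nbd` (`HR P l = wc P l P.G/yl P l`). Sum: `tree_sum (ε = 1/10^6)`, `bd_sum (ε = δ/2^30)` with `δ = min (f - nodeR pF) (s - nodeR pS) > 0`.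
The third claim: `gty spT = gty rmT + gty epT` (`gty_add`, `spT` unfolds to `fun T => rmT T + epT T`).
-/

set_option autoImplicit false

namespace Pool.MP_dd84fd_nt.IY

open Finset Pool.MP_67663b_nt.Odd Pool.MP_dd84fd_nt.En Pool.MP_dd84fd_nt.E2 Pool.MP_dd84fd_nt.HX

/-- one side, for a family `W` -/
private theorem NFi_side (P : Prm) (hG : 20 ≤ P.G) (hsm : P.sm < P.G) (h0 : ℕ)
    (hh1 : 10 * h0 ≤ P.G) (hh2 : P.G ≤ 20 * h0) (hw : ∀ s t, 6 < s → P.w s t = 0) (g : ℝ)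
    (hg : nodeR P (1 / 10 ^ 6) 6 h0 [] < g) (B' : ℕ) :
    ∃ X0 : ℕ, ∀ X : ℕ, X0 ≤ X → ∀ W : Finset ℕ → ℝ, ∀ n : ℕ, X5 X < n → n ≤ X →
      (∀ k : ℕ, 2 ≤ k →
        Simp (kp B' X) (zt X) k → (zt X : ℝ) ≤ (n : ℝ) / k →
        (∀ j ∈ ty (kp B' X) (zt X) k, j < bx (kp B' X) (zt X) ((n : ℝ) / k)) →
        W (insert (bx (kp B' X) (zt X) ((n : ℝ) / k)) (ty (kp B' X) (zt X) k)) ≤
          (wc P (cL P X k).reverse : ℝ) + 2 ^ 25 * nbd X k) →
      Real.log n * gty (kp B' X) X W n ≤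
        W (insert (bx (kp B' X) (zt X) ((n : ℝ) / (1 : ℕ))) (ty (kp B' X) (zt X) 1)) + g := by
  classical
  obtain ⟨X1, hl⟩ := log_one P hG B'
  obtain ⟨X2, ht⟩ := tree_sum P hG hsm h0 hh1 hh2 hw (1 / 10 ^ 6) (by norm_num)
  set δ := g - nodeR P (1 / 10 ^ 6) 6 h0 [] with hδ
  have hδ0 : 0 < δ := by linarith
  obtain ⟨X3, hb⟩ := bd_sum (δ / 2 ^ 30) (by positivity)
  obtain ⟨X4, h5⟩ := X5_ge
  obtain ⟨X6, hz6⟩ := zt_log
  refine ⟨X1 + X2 + X3 + X4 + X6 + 1, fun X hX W n hn1 hn2 hW => ?_⟩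
  set κ := kp B' X with hκ
  set z := zt X with hz
  obtain ⟨h51, -⟩ := h5 X (by omega)
  obtain ⟨hz2, -⟩ := hz6 X (by omega)
  have hz2' : (2 : ℝ) ≤ zt X := by exact_mod_cast hz2
  have hnz : (zt X : ℝ) ≤ n := by linarith
  have hlogn : 0 < Real.log (n : ℝ) := Real.log_pos (by linarith)
  have hlogn' : 0 ≤ Real.log (n : ℝ) := hlogn.le
  set K : Finset ℕ := (Icc 2 X).filter (fun k : ℕ => Simp κ z k ∧ (z : ℝ) ≤ (n : ℝ) / k ∧
    ∀ j ∈ ty κ z k, j < bx κ z ((n : ℝ) / k)) with hK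
  have hKm : ∀ k ∈ K, k ∈ Icc 1 X ∧ Squarefree k ∧ Rgh (zt X) k := by
    intro k hk
    rw [hK, Finset.mem_filter] at hk
    obtain ⟨hk1, hk2, hk3, hk4⟩ := hk
    rw [Finset.mem_Icc] at hk1
    exact ⟨Finset.mem_Icc.2 ⟨by omega, hk1.2⟩, hk2.2.1, hk2.1⟩
  have htree := ht X (by omega) K hKm
  have hbd := hb X (by omega)
  have hterm : ∀ k ∈ Icc 2 X, Real.log n * (vty κ z W ((n : ℝ) / k) k /
      (k * Real.log ((n : ℝ) / k))) ≤
      (if k ∈ K then HR P (cL P X k).reverse / k else 0) + 2 ^ 29 * (rg z k * nbd X k / k) := by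
    intro k hk
    have hk2' : 2 ≤ k := (Finset.mem_Icc.1 hk).1
    have hk1 : 1 ≤ k := by omega
    have hk0 : (0 : ℝ) < k := by exact_mod_cast hk1
    by_cases hkK : k ∈ K
    · rw [if_pos hkK]
      rw [hK, Finset.mem_filter] at hkK
      obtain ⟨-, hk2, hk3, hk4⟩ := hkK
      have hv : vty κ z W ((n : ℝ) / k) k =
          W (insert (bx κ z ((n : ℝ) / k)) (ty κ z k)) := by
        unfold vty
        rw [if_pos ⟨hk2, hk3, hk4⟩]
      have hrg : rg z k = 1 := by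
        unfold rg
        rw [if_pos hk2.1]
      rw [hv, hrg]
      have hW' := hW k hk2' hk2 hk3 hk4
      obtain ⟨hy, hlk, hr1, hr2⟩ := hl X (by omega) n k hn1 hn2 hk1 hk2 hk3 hk4
      set V := W (insert (bx κ z ((n : ℝ) / k)) (ty κ z k)) with hVd
      set r := Real.log n / Real.log ((n : ℝ) / k) with hr
      have hr0 : 0 ≤ r := div_nonneg hlogn' hlk.le
      have e : Real.log n * (V / (k * Real.log ((n : ℝ) / k))) = r * V / k := by
        rw [hr]
        field_simp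
      rw [e]
      have hnb : (0 : ℝ) ≤ nbd X k := Nat.cast_nonneg _
      have hA : r * (wc P (cL P X k).reverse : ℝ) ≤ HR P (cL P X k).reverse := by
        unfold HR
        have hwl : (0 : ℝ) ≤ wc P (cL P X k).reverse := Nat.cast_nonneg _
        calc r * (wc P (cL P X k).reverse : ℝ) ≤ P.G / yl P (cL P X k).reverse *
            (wc P (cL P X k).reverse : ℝ) := mul_le_mul_of_nonneg_right hr1 hwl
          _ = (wc P (cL P X k).reverse : ℝ) * P.G / yl P (cL P X k).reverse := by ring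
      have hB2 : r * (2 ^ 25 * (nbd X k : ℝ)) ≤ 2 ^ 29 * (nbd X k : ℝ) := by
        have := mul_le_mul_of_nonneg_right hr2 (show (0 : ℝ) ≤ 2 ^ 25 * (nbd X k : ℝ) by positivity)
        linarith
      have h5 : r * V ≤ HR P (cL P X k).reverse + 2 ^ 29 * (nbd X k : ℝ) := by
        refine (mul_le_mul_of_nonneg_left hW' hr0).trans ?_
        rw [mul_add]
        exact add_le_add hA hB2
      have h6 := div_le_div_of_nonneg_right h5 hk0.le
      refine h6.trans (le_of_eq ?_)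
      ring
    · have hv : vty κ z W ((n : ℝ) / k) k = 0 := by
        unfold vty
        rw [if_neg]
        intro hcon
        apply hkK
        rw [hK, Finset.mem_filter]
        exact ⟨hk, hcon⟩
      rw [hv, if_neg hkK, zero_div, mul_zero, zero_add]
      have h7 : 0 ≤ rg z k := by
        unfold rg
        split_ifs <;> norm_num
      positivity
  have hsplit : Icc 1 X = insert 1 (Icc 2 X) := by
    ext k
    simp only [Finset.mem_Icc, Finset.mem_insert]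
    omega
  have h1n : (1 : ℕ) ∉ Icc 2 X := by
    simp
  have hg2 : gty κ X W n =
      vty κ z W ((n : ℝ) / (1 : ℕ)) 1 / ((1 : ℕ) * Real.log ((n : ℝ) / (1 : ℕ))) +
      ∑ k ∈ Icc 2 X, vty κ z W ((n : ℝ) / k) k / (k * Real.log ((n : ℝ) / k)) := by
    unfold gty
    rw [if_pos ⟨hn1, hn2⟩, hsplit, Finset.sum_insert h1n]
  have hsimp : Simp κ z 1 := by
    refine ⟨⟨one_ne_zero, ?_⟩, squarefree_one, ?_⟩
    · intro p hp
      simp at hp
    · intro p hp
      simp at hp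
  have hty : ty κ z 1 = ∅ := by
    unfold ty
    simp
  have hone : Real.log n * (vty κ z W ((n : ℝ) / (1 : ℕ)) 1 /
      ((1 : ℕ) * Real.log ((n : ℝ) / (1 : ℕ)))) =
      W (insert (bx κ z ((n : ℝ) / (1 : ℕ))) (ty κ z 1)) := by
    unfold vty
    rw [if_pos ⟨hsimp, by rw [Nat.cast_one, div_one]; exact hnz, by
      rw [hty]
      intro j hj
      simp at hj⟩]
    rw [Nat.cast_one, div_one, one_mul]
    field_simp
  rw [hg2, mul_add, hone, Finset.mul_sum]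
  refine add_le_add le_rfl ?_
  refine (Finset.sum_le_sum hterm).trans ?_
  rw [Finset.sum_add_distrib, ← Finset.mul_sum]
  have hK2 : ∑ k ∈ Icc 2 X, (if k ∈ K then HR P (cL P X k).reverse / (k : ℝ) else 0) =
      ∑ k ∈ K, HR P (cL P X k).reverse / (k : ℝ) := by
    rw [← Finset.sum_filter]
    congr 1
    ext k
    rw [Finset.mem_filter]
    constructor
    · exact fun h => h.2
    · intro h
      refine ⟨?_, h⟩
      rw [hK, Finset.mem_filter] at h
      exact h.1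
  rw [hK2]
  have hsub : ∑ k ∈ Icc 2 X, rg z k * nbd X k / (k : ℝ) ≤
      ∑ k ∈ Icc 1 X, rg z k * nbd X k / (k : ℝ) := by
    refine Finset.sum_le_sum_of_subset_of_nonneg ?_ fun k _ _ => ?_
    · rw [hsplit]
      exact Finset.subset_insert _ _
    · have h7 : 0 ≤ rg z k := by
        unfold rg
        split_ifs <;> norm_num
      positivity
  have h8 : (2 : ℝ) ^ 29 * ∑ k ∈ Icc 2 X, rg z k * nbd X k / (k : ℝ) ≤ δ := by
    have h9 := hsub.trans hbd
    have h10 := mul_le_mul_of_nonneg_left h9 (show (0 : ℝ) ≤ 2 ^ 29 by norm_num)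
    have h11 : (2 : ℝ) ^ 29 * (δ / 2 ^ 30) = δ / 2 := by ring
    linarith
  linarith

theorem num_fam {G sm mb h0 : ℕ} {α β f s : ℝ} (hP : NPar G sm mb α β) (hsm : sm < G)
    (hh1 : 10 * h0 ≤ G) (hh2 : G ≤ 20 * h0)
    (hf : nodeR (pF G sm mb) (1 / 10 ^ 6) 6 h0 [] < f)
    (hs : nodeR (pS G sm mb) (1 / 10 ^ 6) 6 h0 [] < s) (B' : ℕ) (hB : 1 ≤ B') :
    ∃ X0 : ℕ, ∀ X : ℕ, X0 ≤ X → ∀ n : ℕ, X5 X < n → n ≤ X →
      1 - f ≤ Real.log n * gty (kp B' X) X (rmT α β (kp B' X) X) n ∧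
      Real.log n * gty (kp B' X) X (spT α β (kp B' X) X) n ≤ 1 + s ∧
      Real.log n * gty (kp B' X) X (epT α β (kp B' X) X) n ≤ f + s := by
  classical
  obtain ⟨hG, ha0, ha1, -, hb0, hb1, -⟩ := id hP
  obtain ⟨X1, h1⟩ := NFi_side (pF G sm mb) hG hsm h0 hh1 hh2 (by
    intro s t hst
    show wtF G sm mb s t = 0
    unfold wtF
    have e1 : s ≠ 2 := by omega
    have e2 : s ≠ 4 := by omega
    have e3 : s ≠ 5 := by omega
    have e4 : s ≠ 6 := by omega
    simp only [e1, e2, e3, e4, if_false, ite_self]) f hf B'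
  obtain ⟨X2, h2⟩ := NFi_side (pS G sm mb) hG hsm h0 hh1 hh2 (by
    intro s t hst
    show wtS G sm mb s t = 0
    unfold wtS
    have e1 : s ≠ 3 := by omega
    have e2 : s ≠ 4 := by omega
    have e3 : s ≠ 5 := by omega
    have e4 : s ≠ 6 := by omega
    simp only [e1, e2, e3, e4, if_false, ite_self]) s hs B'
  obtain ⟨X3, h3⟩ := w_one hP B' hB
  obtain ⟨X4, h4⟩ := tycl α β ha0 ha1 hb0 hb1 B' hB
  obtain ⟨X5', h5⟩ := us_v B' hB
  obtain ⟨X6, h6⟩ := X5_ge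
  obtain ⟨X7, h7⟩ := zt_log
  refine ⟨X1 + X2 + X3 + X4 + X5' + X6 + X7, fun X hX n hn1 hn2 => ?_⟩
  set κ := kp B' X with hκ
  have hz2 : (2 : ℝ) ≤ zt X := by exact_mod_cast (h7 X (by omega)).1
  have hX5 := (h6 X (by omega)).1
  have hsimp : Simp κ (zt X) 1 := by
    refine ⟨⟨one_ne_zero, ?_⟩, squarefree_one, ?_⟩
    · intro p hp
      simp at hp
    · intro p hp
      simp at hp
  have hty : ty κ (zt X) 1 = ∅ := by
    unfold ty
    simp
  have hn1' : (zt X : ℝ) ≤ (n : ℝ) / (1 : ℕ) := by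
    rw [Nat.cast_one, div_one]
    linarith
  have hall : ∀ j ∈ ty κ (zt X) 1, j < bx κ (zt X) ((n : ℝ) / (1 : ℕ)) := by
    rw [hty]
    intro j hj
    simp at hj
  obtain ⟨g1, g2, g3⟩ := h5 X (by omega) n 1 hn1 hn2 le_rfl hsimp hn1' hall
  have g3' : (insert (bx κ (zt X) ((n : ℝ) / (1 : ℕ))) (ty κ (zt X) 1)).card = 1 := by
    rw [g3]
    simp
  obtain ⟨hR', hE'⟩ := ((h4 X (by omega)) _ g1 g2).1 g3'
  have hR : rmT α β κ X (insert (bx κ (zt X) ((n : ℝ) / (1 : ℕ))) (ty κ (zt X) 1)) = 1 := hR'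
  have hE : epT α β κ X (insert (bx κ (zt X) ((n : ℝ) / (1 : ℕ))) (ty κ (zt X) 1)) = 0 := hE'
  have hneg : gty κ X (fun T => -rmT α β κ X T) n = - gty κ X (rmT α β κ X) n := by
    unfold gty
    rw [if_pos ⟨hn1, hn2⟩, if_pos ⟨hn1, hn2⟩, ← Finset.sum_neg_distrib]
    refine Finset.sum_congr rfl fun k _ => ?_
    unfold vty
    split_ifs
    · rw [neg_div]
    · rw [zero_div, neg_zero]
  have k1 : Real.log n * gty κ X (fun T => -rmT α β κ X T) n ≤
      -rmT α β κ X (insert (bx κ (zt X) ((n : ℝ) / (1 : ℕ))) (ty κ (zt X) 1)) + f :=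
    h1 X (by omega) (fun T => -rmT α β κ X T) n hn1 hn2 (by
    intro k hk e1 e2 e3
    have := (h3 X (by omega) n k hn1 hn2 hk e1 e2 e3).1
    change -rmT α β (kp B' X) X _ ≤ _
    linarith)
  have k2 : Real.log n * gty κ X (spT α β κ X) n ≤
      spT α β κ X (insert (bx κ (zt X) ((n : ℝ) / (1 : ℕ))) (ty κ (zt X) 1)) + s :=
    h2 X (by omega) (spT α β κ X) n hn1 hn2 (by
    intro k hk e1 e2 e3
    exact (h3 X (by omega) n k hn1 hn2 hk e1 e2 e3).2)
  rw [hneg, hR] at k1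
  have hsp : spT α β κ X (insert (bx κ (zt X) ((n : ℝ) / (1 : ℕ))) (ty κ (zt X) 1)) = 1 := by
    unfold spT
    simp only [hR, hE, add_zero]
  rw [hsp] at k2
  have hadd : gty κ X (spT α β κ X) n = gty κ X (rmT α β κ X) n + gty κ X (epT α β κ X) n := by
    unfold spT
    exact gty_add κ X _ _ n
  refine ⟨by linarith, k2, ?_⟩
  have k3 : Real.log n * gty κ X (epT α β κ X) n =
      Real.log n * gty κ X (spT α β κ X) n - Real.log n * gty κ X (rmT α β κ X) n := by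
    rw [hadd]
    ring
  rw [k3]
  linarith

end Pool.MP_dd84fd_nt.IY
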