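import Pool.Agent.Lib.MP_dd84fd_nt.IY.NBt

/-!
# IY-NK3S: value of the cell tree `pS 401 120 161` (helper5)
-/

set_option autoImplicit false

namespace Pool.MP_dd84fd_nt.IY

private theorem msk : Msk (pS 401 120 161) (maskOf (pS 401 120 161)) :=
  msk_of (N := 7168) (by decide +kernel) (by decide +kernel)

set_option maxRecDepth 1000000 in
private theorem part1 : rootB (pS 401 120 161) (maskOf (pS 401 120 161)) 40 0 5 ≤ 13872530 := by
  decide +kernel

set_option maxRecDepth 1000000 in
private theorem part2 : rootB (pS 401 120 161) (maskOf (pS 401 120 161)) 40 5 3 ≤ 13492676 := by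
  decide +kernel

set_option maxRecDepth 1000000 in
private theorem part3 : rootB (pS 401 120 161) (maskOf (pS 401 120 161)) 40 8 2 ≤ 10050759 := by
  decide +kernel

set_option maxRecDepth 1000000 in
private theorem part4 : rootB (pS 401 120 161) (maskOf (pS 401 120 161)) 40 10 2 ≤ 10315719 := by
  decide +kernel

set_option maxRecDepth 1000000 in
private theorem part5 : rootB (pS 401 120 161) (maskOf (pS 401 120 161)) 40 12 3 ≤ 14405779 := by
  decide +kernel

set_option maxRecDepth 1000000 in
private theorem part6 : rootB (pS 401 120 161) (maskOf (pS 401 120 161)) 40 15 66 ≤ 150623223 := by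
  decide +kernel

theorem node_pS_401 : nodeR (pS 401 120 161) (1 / 10 ^ 6) 6 40 [] ≤ 213000000 / 10 ^ 9 := by
  have h := node_valR (pS 401 120 161) (h0 := 40) (v := 213000000) msk
    (by show 401 < 1024; norm_num) (by norm_num) (by show 40 + 1 ≤ 401; norm_num)
    (by show min 120 ((401 - 0) / 2) + 1 - 40 = _; norm_num)
    (root_comb (root_comb (root_comb (root_comb (root_comb part1 part2) part3) part4) part5) part6) (by decide +kernel)
  exact_mod_cast h

end Pool.MP_dd84fd_nt.IY
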