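import Pool.Agent.Lib.MP_dd84fd_nt.IY.NBt

/-!
# IY-NK4S: value of the cell tree `pS 381 113 155` (helper5)
-/

set_option autoImplicit false

namespace Pool.MP_dd84fd_nt.IY

private theorem msk : Msk (pS 381 113 155) (maskOf (pS 381 113 155)) :=
  msk_of (N := 7168) (by decide +kernel) (by decide +kernel)

set_option maxRecDepth 1000000 in
private theorem part1 : rootB (pS 381 113 155) (maskOf (pS 381 113 155)) 38 0 8 ≤ 12565979 := by
  decide +kernel

set_option maxRecDepth 1000000 in
private theorem part2 : rootB (pS 381 113 155) (maskOf (pS 381 113 155)) 38 8 4 ≤ 14845670 := by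
  decide +kernel

set_option maxRecDepth 1000000 in
private theorem part3 : rootB (pS 381 113 155) (maskOf (pS 381 113 155)) 38 12 32 ≤ 111300838 := by
  decide +kernel

set_option maxRecDepth 1000000 in
private theorem part4 : rootB (pS 381 113 155) (maskOf (pS 381 113 155)) 38 44 32 ≤ 30899459 := by
  decide +kernel

theorem node_pS_381 : nodeR (pS 381 113 155) (1 / 10 ^ 6) 6 38 [] ≤ 170000000 / 10 ^ 9 := by
  have h := node_valR (pS 381 113 155) (h0 := 38) (v := 170000000) msk
    (by show 381 < 1024; norm_num) (by norm_num) (by show 38 + 1 ≤ 381; norm_num)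
    (by show min 113 ((381 - 0) / 2) + 1 - 38 = _; norm_num)
    (root_comb (root_comb (root_comb part1 part2) part3) part4) (by decide +kernel)
  exact_mod_cast h

end Pool.MP_dd84fd_nt.IY
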