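import Pool.Agent.Lib.MP_dd84fd_nt.IY.NBt

/-!
# IY-NK5F: value of the cell tree `pF 371 108 154` (helper5)
-/

set_option autoImplicit false

namespace Pool.MP_dd84fd_nt.IY

private theorem msk : Msk (pF 371 108 154) (maskOf (pF 371 108 154)) :=
  msk_of (N := 7168) (by decide +kernel) (by decide +kernel)

set_option maxRecDepth 1000000 in
private theorem part1 : rootB (pF 371 108 154) (maskOf (pF 371 108 154)) 37 0 23 ≤ 4374554 := by
  decide +kernel

set_option maxRecDepth 1000000 in
private theorem part2 : rootB (pF 371 108 154) (maskOf (pF 371 108 154)) 37 23 49 ≤ 130292067 := by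
  decide +kernel

theorem node_pF_371 : nodeR (pF 371 108 154) (1 / 10 ^ 6) 6 37 [] ≤ 134700000 / 10 ^ 9 := by
  have h := node_valR (pF 371 108 154) (h0 := 37) (v := 134700000) msk
    (by show 371 < 1024; norm_num) (by norm_num) (by show 37 + 1 ≤ 371; norm_num)
    (by show min 108 ((371 - 0) / 2) + 1 - 37 = _; norm_num)
    (root_comb part1 part2) (by decide +kernel)
  exact_mod_cast h

end Pool.MP_dd84fd_nt.IY
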