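import Pool.Agent.Lib.MP_dd84fd_nt.IY.Scale
import Pool.Agent.Lib.MP_dd84fd_nt.IY.NFi
import Pool.Agent.Lib.MP_dd84fd_nt.IY.NK3F
import Pool.Agent.Lib.MP_dd84fd_nt.IY.NK3S
import Pool.Agent.Lib.MP_dd84fd_nt.IY.NK4F
import Pool.Agent.Lib.MP_dd84fd_nt.IY.NK4S
import Pool.Agent.Lib.MP_dd84fd_nt.IY.NK5F
import Pool.Agent.Lib.MP_dd84fd_nt.IY.NK5S

/-!
# IY-N1: the numerics for `2/5 < th ≤ 43/100` (helper5)

Cells `G = 401` (`th ≤ 406/1000`), `G = 381` (`th ≤ 4125/10000`), `G = 371`; constant `16`.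
-/

set_option autoImplicit false

namespace Pool.MP_dd84fd_nt.IY

open Finset Pool.MP_67663b_nt.Odd Pool.MP_dd84fd_nt.En Pool.MP_dd84fd_nt.E2 Pool.MP_dd84fd_nt.HX

private theorem numI_of {G sm mb h0 : ℕ} {th e f s : ℝ} (hP : NPar G sm mb (aI th e) (bI th e))
    (hsm : sm < G) (hh1 : 10 * h0 ≤ G) (hh2 : G ≤ 20 * h0)
    (hf : nodeR (pF G sm mb) (1 / 10 ^ 6) 6 h0 [] < f)
    (hs : nodeR (pS G sm mb) (1 / 10 ^ 6) 6 h0 [] < s) : NumI th e f s := by
  intro B' hB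
  obtain ⟨X0, h⟩ := num_fam hP hsm hh1 hh2 hf hs B' hB
  exact ⟨X0, fun X hX n h1 h2 => ⟨(h X hX n h1 h2).1, (h X hX n h1 h2).2.1⟩⟩

theorem num1_16 (th : ℝ) (h1 : 2 / 5 < th) (h2 : th ≤ 43 / 100) : ∃ e0 f s : ℝ, 0 < e0 ∧ f ≤ 1 ∧
    0 ≤ f + s ∧ 2 * f - f ^ 2 + (f + s) ^ 2 < 16 * (1 - 2 * th) ^ 2 ∧
    (1 + s) ^ 2 - 1 < 16 * (1 - 2 * th) ^ 2 ∧ ∀ e : ℝ, 0 < e → e ≤ e0 → NumI th e f s := by
  rcases le_or_gt th (406 / 1000) with h3 | h3
  · have hq : (188 / 1000 : ℝ) ^ 2 ≤ (1 - 2 * th) ^ 2 :=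
      pow_le_pow_left₀ (by norm_num) (by linarith) 2
    refine ⟨(th - 2 / 5) / 100, 2131 / 10000, 2131 / 10000, by linarith, by norm_num,
      by norm_num, by nlinarith, by nlinarith, fun e he1 he2 => ?_⟩
    refine numI_of (G := 401) (sm := 120) (mb := 161) (h0 := 40) ?_ (by norm_num) (by norm_num)
      (by norm_num) (lt_of_le_of_lt node_pF_401 (by norm_num))
      (lt_of_le_of_lt node_pS_401 (by norm_num))
    unfold NPar aI bI
    refine ⟨by norm_num, by linarith, by linarith, ?_, by linarith, by linarith, ?_⟩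
    · rw [lt_div_iff₀ (by norm_num)]
      push_cast
      linarith
    · rw [div_lt_iff₀ (by norm_num)]
      push_cast
      linarith
  rcases le_or_gt th (4125 / 10000) with h4 | h4
  · have hq : (175 / 1000 : ℝ) ^ 2 ≤ (1 - 2 * th) ^ 2 :=
      pow_le_pow_left₀ (by norm_num) (by linarith) 2
    refine ⟨(th - 406 / 1000) / 100, 1821 / 10000, 1701 / 10000, by linarith, by norm_num,
      by norm_num, by nlinarith, by nlinarith, fun e he1 he2 => ?_⟩
    refine numI_of (G := 381) (sm := 113) (mb := 155) (h0 := 38) ?_ (by norm_num) (by norm_num)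
      (by norm_num) (lt_of_le_of_lt node_pF_381 (by norm_num))
      (lt_of_le_of_lt node_pS_381 (by norm_num))
    unfold NPar aI bI
    refine ⟨by norm_num, by linarith, by linarith, ?_, by linarith, by linarith, ?_⟩
    · rw [lt_div_iff₀ (by norm_num)]
      push_cast
      linarith
    · rw [div_lt_iff₀ (by norm_num)]
      push_cast
      linarith
  · have hq : (14 / 100 : ℝ) ^ 2 ≤ (1 - 2 * th) ^ 2 :=
      pow_le_pow_left₀ (by norm_num) (by linarith) 2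
    refine ⟨(th - 4125 / 10000) / 100, 1348 / 10000, 1087 / 10000, by linarith, by norm_num,
      by norm_num, by nlinarith, by nlinarith, fun e he1 he2 => ?_⟩
    refine numI_of (G := 371) (sm := 108) (mb := 154) (h0 := 37) ?_ (by norm_num) (by norm_num)
      (by norm_num) (lt_of_le_of_lt node_pF_371 (by norm_num))
      (lt_of_le_of_lt node_pS_371 (by norm_num))
    unfold NPar aI bI
    refine ⟨by norm_num, by linarith, by linarith, ?_, by linarith, by linarith, ?_⟩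
    · rw [lt_div_iff₀ (by norm_num)]
      push_cast
      linarith
    · rw [div_lt_iff₀ (by norm_num)]
      push_cast
      linarith

theorem num1 (th : ℝ) (h1 : 2 / 5 < th) (h2 : th ≤ 43 / 100) : ∃ e0 f s : ℝ, 0 < e0 ∧ f ≤ 1 ∧
    0 ≤ f + s ∧ 2 * f - f ^ 2 + (f + s) ^ 2 < 20 * (1 - 2 * th) ^ 2 ∧
    (1 + s) ^ 2 - 1 < 20 * (1 - 2 * th) ^ 2 ∧ ∀ e : ℝ, 0 < e → e ≤ e0 → NumI th e f s := by
  obtain ⟨e0, f, s, h3, h4, h5, h6, h7, h8⟩ := num1_16 th h1 h2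
  have hq : 0 ≤ (1 - 2 * th) ^ 2 := sq_nonneg _
  exact ⟨e0, f, s, h3, h4, h5, by linarith, by linarith, h8⟩

end Pool.MP_dd84fd_nt.IY
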