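import Pool.Agent.Lib.MP_dd84fd_nt.IY.NHd
import Pool.Agent.Lib.MP_dd84fd_nt.IY.CUs
import Pool.Agent.Lib.MP_dd84fd_nt.IY.Scale

/-!
# Theorem I, numerics for `43/100 ≤ th < 1/2` (helper88)

With `δ = 1 - 2 th ≤ 14/100`: `f = 6.2 δ²`, `s = 6.4 δ²`.
-/

set_option autoImplicit false

namespace Pool.MP_dd84fd_nt.IY

open Finset Pool.MP_67663b_nt.Odd Pool.MP_dd84fd_nt.En Pool.MP_dd84fd_nt.E2 Pool.MP_dd84fd_nt.HX

/-- the two densities from the two sums -/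
theorem num_side (α β ρ A τ f s : ℝ) (hα0 : 0 < α) (hα1 : α < 3 / 10) (hβ : 3 / 7 < β)
    (hβ2 : β < 1 / 2) (hαβ : 3 * α / 2 < β) (hαA : α < A) (hA : 1 / 4 < A)
    (hA2 : A ≤ 3 / 10) (hρ : 0 < ρ) (hρβ : ρ < β) (hτ : 0 < τ)
    (hf : 2 / ρ * (9 / 2 * (A - 1 / 4) ^ 2 / (1 / 2 - A)) < f)
    (hs : 24 * ((4 * A - 1 + τ) ^ 3 / (12 * (1 - A) * (1 - 2 * A) * (1 - 3 * A))) < s)
    (B' : ℕ) (hB : 1 ≤ B') :
    ∃ X0 : ℕ, ∀ X : ℕ, X0 ≤ X → ∀ n : ℕ, X5 X < n → n ≤ X →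
      1 - f ≤ Real.log n * gty (kp B' X) X (rmT α β (kp B' X) X) n ∧
      Real.log n * gty (kp B' X) X (spT α β (kp B' X) X) n ≤ 1 + s := by
  classical
  obtain ⟨X1, h1⟩ := NHd_side α β ρ A τ 2 0 f hα0 hαA hA hA2 hρ hρβ hτ (by norm_num) le_rfl
    (by linarith) B' hB
  obtain ⟨X2, h2⟩ := NHd_side α β ρ A τ 0 6 s hα0 hαA hA hA2 hρ hρβ hτ le_rfl (by norm_num)
    (by
      rw [zero_div, zero_mul, zero_add]
      linarith) B' hB
  obtain ⟨X3, h3⟩ := nhc α β hα0 hα1 hβ hβ2 hαβ B' hB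
  obtain ⟨X4, h4⟩ := tycl α β hα0 hα1 (by linarith) hβ2 B' hB
  obtain ⟨X5', h5⟩ := us_v B' hB
  obtain ⟨X6, h6⟩ := X5_ge
  obtain ⟨X7, h7⟩ := zt_log
  refine ⟨X1 + X2 + X3 + X4 + X5' + X6 + X7, fun X hX n hn1 hn2 => ?_⟩
  set κ := kp B' X with hκ
  have hz2 : (2 : ℝ) ≤ zt X := by exact_mod_cast (h7 X (by omega)).1
  have hX5 := (h6 X (by omega)).1
  have hsimp : Simp κ (zt X) 1 := by
    refine ⟨⟨one_ne_zero, ?_⟩, squarefree_one, ?_⟩
    · intro p hp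
      simp at hp
    · intro p hp
      simp at hp
  have hty : ty κ (zt X) 1 = ∅ := by
    unfold ty
    simp
  have hn1' : (zt X : ℝ) ≤ (n : ℝ) / (1 : ℕ) := by
    rw [Nat.cast_one, div_one]
    linarith
  have hall : ∀ j ∈ ty κ (zt X) 1, j < bx κ (zt X) ((n : ℝ) / (1 : ℕ)) := by
    rw [hty]
    intro j hj
    simp at hj
  obtain ⟨g1, g2, g3⟩ := h5 X (by omega) n 1 hn1 hn2 le_rfl hsimp hn1' hall
  have g3' : (insert (bx κ (zt X) ((n : ℝ) / (1 : ℕ))) (ty κ (zt X) 1)).card = 1 := by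
    rw [g3]
    simp
  obtain ⟨hR', hE'⟩ := ((h4 X (by omega)) _ g1 g2).1 g3'
  have hR : rmT α β κ X (insert (bx κ (zt X) ((n : ℝ) / (1 : ℕ))) (ty κ (zt X) 1)) = 1 := hR'
  have hE : epT α β κ X (insert (bx κ (zt X) ((n : ℝ) / (1 : ℕ))) (ty κ (zt X) 1)) = 0 := hE'
  have hneg : gty κ X (fun T => -rmT α β κ X T) n = - gty κ X (rmT α β κ X) n := by
    unfold gty
    rw [if_pos ⟨hn1, hn2⟩, if_pos ⟨hn1, hn2⟩, ← Finset.sum_neg_distrib]
    refine Finset.sum_congr rfl fun k _ => ?_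
    unfold vty
    split_ifs
    · rw [neg_div]
    · rw [zero_div, neg_zero]
  have k1 : Real.log n * gty κ X (fun T => -rmT α β κ X T) n ≤
      -rmT α β κ X (insert (bx κ (zt X) ((n : ℝ) / (1 : ℕ))) (ty κ (zt X) 1)) + f :=
    h1 X (by omega) (fun T => -rmT α β κ X T) n hn1 hn2 (by
    intro k hk e1 e2 e3
    have := (h3 X (by omega) n k hn1 hn2 hk e1 e2 e3 _ rfl).1
    change -rmT α β (kp B' X) X _ ≤ _
    have hnb : (0 : ℝ) ≤ nbd X k := Nat.cast_nonneg _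
    rw [zero_mul, add_zero]
    refine this.trans ?_
    have : (2 : ℝ) ^ 24 * nbd X k ≤ 2 ^ 25 * nbd X k :=
      mul_le_mul_of_nonneg_right (by norm_num) hnb
    convert add_le_add le_rfl this using 2)
  have k2 : Real.log n * gty κ X (spT α β κ X) n ≤
      spT α β κ X (insert (bx κ (zt X) ((n : ℝ) / (1 : ℕ))) (ty κ (zt X) 1)) + s :=
    h2 X (by omega) (spT α β κ X) n hn1 hn2 (by
    intro k hk e1 e2 e3
    have := (h3 X (by omega) n k hn1 hn2 hk e1 e2 e3 _ rfl).2.2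
    have hnb : (0 : ℝ) ≤ nbd X k := Nat.cast_nonneg _
    rw [zero_mul, zero_add]
    refine this.trans ?_
    have : (2 : ℝ) ^ 24 * nbd X k ≤ 2 ^ 25 * nbd X k :=
      mul_le_mul_of_nonneg_right (by norm_num) hnb
    convert add_le_add le_rfl this using 2)
  rw [hneg, hR] at k1
  have hsp : spT α β κ X (insert (bx κ (zt X) ((n : ℝ) / (1 : ℕ))) (ty κ (zt X) 1)) = 1 := by
    unfold spT
    simp only [hR, hE, add_zero]
  rw [hsp] at k2
  exact ⟨by linarith, k2⟩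

/-- **the numerics for `43/100 ≤ th < 1/2`** -/
theorem num2_16 (th : ℝ) (h1 : 43 / 100 ≤ th) (h2 : th < 1 / 2) : ∃ e0 f s : ℝ, 0 < e0 ∧ f ≤ 1 ∧
    0 ≤ f + s ∧ 2 * f - f ^ 2 + (f + s) ^ 2 < 16 * (1 - 2 * th) ^ 2 ∧
    (1 + s) ^ 2 - 1 < 16 * (1 - 2 * th) ^ 2 ∧ ∀ e : ℝ, 0 < e → e ≤ e0 → NumI th e f s := by
  set δ : ℝ := 1 - 2 * th with hδ
  have hδ0 : 0 < δ := by rw [hδ]; linarith
  have hδ1 : δ ≤ 14 / 100 := by rw [hδ]; linarith
  have hth : th = (1 - δ) / 2 := by rw [hδ]; ring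
  have hδ2 : δ ^ 2 ≤ 196 / 10000 := by nlinarith
  have hδ20 : 0 < δ ^ 2 := by positivity
  refine ⟨δ / 100000, 62 / 10 * δ ^ 2, 64 / 10 * δ ^ 2, by positivity, by nlinarith,
    by positivity, ?_, ?_, ?_⟩
  · have : (62 / 10 * δ ^ 2 + 64 / 10 * δ ^ 2) ^ 2 ≤ 1588 / 10 * (196 / 10000) * δ ^ 2 := by
      nlinarith
    nlinarith
  · nlinarith
  intro e he he2 B' hB
  have hex : e ≤ 14 / 10000000 := by linarith
  have haI : aI th e = (1 + δ) / 4 + 4 * e := by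
    unfold aI
    rw [hth]
    ring
  have hbI : bI th e = (1 - δ) / 2 - 3 * e := by
    unfold bI
    rw [hth]
  have hA4 : 4 * ((1 + δ) / 4 + 5 * e) - 1 = δ + 20 * e := by ring
  refine num_side (aI th e) (bI th e) ((1 - δ) / 2 - 4 * e) ((1 + δ) / 4 + 5 * e) (δ / 1000)
    (62 / 10 * δ ^ 2) (64 / 10 * δ ^ 2) ?_ ?_ ?_ ?_ ?_ ?_ ?_ ?_ ?_ ?_ ?_ ?_ ?_ B' hB
  · rw [haI]; linarith
  · rw [haI]; linarith
  · rw [hbI]; linarith
  · rw [hbI]; linarith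
  · rw [haI, hbI]; linarith
  · rw [haI]; linarith
  · linarith
  · linarith
  · linarith
  · rw [hbI]; linarith
  · positivity
  · -- the first sum
    have hρ : 4299 / 10000 ≤ (1 - δ) / 2 - 4 * e := by linarith
    have hA1 : 2149 / 10000 ≤ 1 / 2 - ((1 + δ) / 4 + 5 * e) := by linarith
    have e1 : (1 + δ) / 4 + 5 * e - 1 / 4 = δ / 4 + 5 * e := by ring
    have e2 : (δ / 4 + 5 * e) ^ 2 ≤ (δ / 4 * (1002 / 1000)) ^ 2 :=
      pow_le_pow_left₀ (by positivity) (by linarith) 2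
    rw [e1]
    have e3 : 2 / ((1 - δ) / 2 - 4 * e) ≤ 2 / (4299 / 10000) :=
      div_le_div_of_nonneg_left (by norm_num) (by norm_num) hρ
    have e4 : 9 / 2 * (δ / 4 + 5 * e) ^ 2 / (1 / 2 - ((1 + δ) / 4 + 5 * e)) ≤
        9 / 2 * (δ / 4 * (1002 / 1000)) ^ 2 / (2149 / 10000) := by
      have := mul_le_mul_of_nonneg_left e2 (show (0 : ℝ) ≤ 9 / 2 by norm_num)
      exact div_le_div₀ (by positivity) this (by norm_num) hA1
    calc 2 / ((1 - δ) / 2 - 4 * e) *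
          (9 / 2 * (δ / 4 + 5 * e) ^ 2 / (1 / 2 - ((1 + δ) / 4 + 5 * e)))
        ≤ 2 / (4299 / 10000) * (9 / 2 * (δ / 4 * (1002 / 1000)) ^ 2 / (2149 / 10000)) := by
          refine mul_le_mul e3 e4 ?_ (by norm_num)
          have : 0 < 1 / 2 - ((1 + δ) / 4 + 5 * e) := by linarith
          positivity
      _ < 62 / 10 * δ ^ 2 := by
          nlinarith
  · -- the second sum
    rw [hA4]
    have hA1 : 7149 / 10000 ≤ 1 - ((1 + δ) / 4 + 5 * e) := by linarith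
    have hA2 : 4299 / 10000 ≤ 1 - 2 * ((1 + δ) / 4 + 5 * e) := by linarith
    have hA3 : 1449 / 10000 ≤ 1 - 3 * ((1 + δ) / 4 + 5 * e) := by linarith
    have e2 : (δ + 20 * e + δ / 1000) ^ 3 ≤ (δ * (1002 / 1000)) ^ 3 :=
      pow_le_pow_left₀ (by positivity) (by linarith) 3
    have e3 : 12 * (7149 / 10000) * (4299 / 10000) * (1449 / 10000) ≤
        12 * (1 - ((1 + δ) / 4 + 5 * e)) * (1 - 2 * ((1 + δ) / 4 + 5 * e)) *
          (1 - 3 * ((1 + δ) / 4 + 5 * e)) := by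
      refine mul_le_mul (mul_le_mul (by linarith) hA2 (by norm_num) (by linarith)) hA3
        (by norm_num) ?_
      exact mul_nonneg (by linarith) (by linarith)
    have e4 : (δ + 20 * e + δ / 1000) ^ 3 / (12 * (1 - ((1 + δ) / 4 + 5 * e)) *
        (1 - 2 * ((1 + δ) / 4 + 5 * e)) * (1 - 3 * ((1 + δ) / 4 + 5 * e))) ≤
        (δ * (1002 / 1000)) ^ 3 / (12 * (7149 / 10000) * (4299 / 10000) * (1449 / 10000)) :=
      div_le_div₀ (by positivity) e2 (by norm_num) e3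
    calc 24 * ((δ + 20 * e + δ / 1000) ^ 3 / (12 * (1 - ((1 + δ) / 4 + 5 * e)) *
          (1 - 2 * ((1 + δ) / 4 + 5 * e)) * (1 - 3 * ((1 + δ) / 4 + 5 * e))))
        ≤ 24 * ((δ * (1002 / 1000)) ^ 3 /
          (12 * (7149 / 10000) * (4299 / 10000) * (1449 / 10000))) :=
          mul_le_mul_of_nonneg_left e4 (by norm_num)
      _ = 24 * (1002 / 1000) ^ 3 / (12 * (7149 / 10000) * (4299 / 10000) * (1449 / 10000)) *
          δ * δ ^ 2 := by ring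
      _ < 64 / 10 * δ ^ 2 := by
          refine mul_lt_mul_of_pos_right ?_ hδ20
          have e5 : 24 * (1002 / 1000 : ℝ) ^ 3 /
              (12 * (7149 / 10000) * (4299 / 10000) * (1449 / 10000)) ≤ 4535 / 100 := by
            norm_num
          calc 24 * (1002 / 1000 : ℝ) ^ 3 /
                (12 * (7149 / 10000) * (4299 / 10000) * (1449 / 10000)) * δ
              ≤ 4535 / 100 * (14 / 100) := mul_le_mul e5 hδ1 hδ0.le (by norm_num)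
            _ < 64 / 10 := by norm_num

/-- the same with the constant `20` -/
theorem num2 (th : ℝ) (h1 : 43 / 100 ≤ th) (h2 : th < 1 / 2) : ∃ e0 f s : ℝ, 0 < e0 ∧ f ≤ 1 ∧
    0 ≤ f + s ∧ 2 * f - f ^ 2 + (f + s) ^ 2 < 20 * (1 - 2 * th) ^ 2 ∧
    (1 + s) ^ 2 - 1 < 20 * (1 - 2 * th) ^ 2 ∧ ∀ e : ℝ, 0 < e → e ≤ e0 → NumI th e f s := by
  obtain ⟨e0, f, s, h3, h4, h5, h6, h7, h8⟩ := num2_16 th h1 h2
  have h9 : 16 * (1 - 2 * th) ^ 2 ≤ 20 * (1 - 2 * th) ^ 2 := by nlinarith [sq_nonneg (1 - 2 * th)]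
  exact ⟨e0, f, s, h3, h4, h5, by linarith, by linarith, h8⟩

end Pool.MP_dd84fd_nt.IY
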