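import Pool.Agent.Lib.MP_dd84fd_nt.IX.GenAll
import Pool.Agent.Lib.MP_dd84fd_nt.IY.Fin
import Pool.Agent.Lib.MP_dd84fd_nt.IY.Scale
import Pool.Agent.Lib.MP_dd84fd_nt.IY.CFab
import Pool.Agent.Lib.MP_dd84fd_nt.IY.N1
import Pool.Agent.Lib.MP_dd84fd_nt.IY.NHe

/-!
# Theorem I
-/

set_option autoImplicit false

namespace Pool.MP_dd84fd_nt.IY

open Finset Pool.MP_67663b_nt.Odd Pool.MP_dd84fd_nt.En Pool.MP_dd84fd_nt.E2 Pool.MP_dd84fd_nt.LS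
  Pool.MP_dd84fd_nt.GX Pool.MP_dd84fd_nt.HX

theorem num_a : NumA 16 := fun th h1 h2 =>
  (le_total th (43 / 100)).elim (fun h => num1_16 th h1 h) (fun h => num2_16 th h h2)

theorem scale_i : ScaleI 16 := scale_of 16 Pool.MP_dd84fd_nt.IX.gen_all final_ab num_a

open Classical in
/-- Theorem I -/
theorem fin_i : ∃ C : ℕ, ∀ th : ℝ, 2 / 5 < th → th < 1 / 2 →
    ∀ ε : ℝ, 0 < ε → ∀ K : ℕ, ∃ X0 : ℕ, ∀ X : ℕ, X0 ≤ X → ∃ D : Finset ℕ,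
      (D.card : ℝ) ≤ (Real.log X) ^ C ∧
      (∀ d ∈ D, (Real.log X) ^ K ≤ (d : ℝ) ∧ (d : ℝ) ≤ (X : ℝ) ^ (1 - th + ε)) ∧
      ∀ P : ℕ → Prop, ∀ _ : DecidablePred P,
        (∀ n, P n → Even n ∧ (∀ d ∈ D, d ∣ n → (n : ℝ) ^ (1 - th + ε) < d) ∧
          Bad (16 * (1 - 2 * th) ^ 2) n) →
        (((Icc 1 X).filter P).card : ℝ) ≤ (X : ℝ) ^ th :=
  fin_of_scale 16 scale_i

end Pool.MP_dd84fd_nt.IY
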