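import Pool.Agent.Lib.MP_dd84fd_nt.IY.NTr

/-!
# IY-NBt: the value of a cell tree in integer arithmetic (helper5)

`nodeB` = the tree in integers (scale `10^9`, rounded up), with pruning. The sublist sums are kept as the
bits `x.1 + 1024 x.2` of a number `b`; `mask` = the bits of sums in the window.
-/

set_option autoImplicit false

namespace Pool.MP_dd84fd_nt.IY

open Finset Pool.MP_67663b_nt.Odd Pool.MP_dd84fd_nt.En Pool.MP_dd84fd_nt.E2 Pool.MP_dd84fd_nt.HX

/-- upper bound for `10^9 (muc c + 10^(-6))` -/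
def muN (c : ℕ) : ℕ := (10 ^ 9 * (2 * c + 1)) / (2 * c * (c + 1)) + 1001

/-- upper bound for `10^9 HR l`: `h = head`, `t = sum`, `s = length` -/
def HB (P : Prm) (h t s : ℕ) : ℕ := (P.w s t * P.G * 10 ^ 9) / (max h (P.G - t - s - 1)) + 1

/-- the tree in integers -/
def nodeB (P : Prm) (mask : ℕ) : ℕ → ℕ → ℕ → ℕ → ℕ → ℕ
  | 0, _, h, t, s => HB P h t s
  | f + 1, b, h, t, s =>
    HB P h t s + ((List.range (min P.sm ((P.G - t) / 2) + 1 - h)).map (fun i =>
      if (b <<< (h + i + 1024)) &&& mask = 0 then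
        muN (h + i) * nodeB P mask f (b ||| (b <<< (h + i + 1024))) (h + i) (t + (h + i)) (s + 1) /
          10 ^ 9 + 1
      else 0)).sum

/-- the bits of `b` are sums and lengths of sublists of `l` -/
def Enc (b : ℕ) (l : List ℕ) : Prop :=
  ∀ i, b.testBit i = true → ∃ x ∈ subs l, x.1 + 1024 * x.2 = i

/-- the bits of `mask` are in the window -/
def Msk (P : Prm) (mask : ℕ) : Prop := ∀ i, mask.testBit i = true → inw P (i % 1024, i / 1024) = true

private theorem subs_le (l : List ℕ) : ∀ x ∈ subs l, x.1 ≤ l.sum := by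
  induction l with
  | nil =>
    intro x hx
    simp only [subs, List.mem_singleton] at hx
    rw [hx]
    simp
  | cons c l ih =>
    intro x hx
    rw [subs, List.mem_append, List.mem_map] at hx
    rw [List.sum_cons]
    rcases hx with hx | ⟨y, hy, rfl⟩
    · have := ih x hx
      omega
    · have := ih y hy
      show y.1 + c ≤ _
      omega

theorem enc_nil : Enc 1 [] := by
  intro i hi
  refine ⟨(0, 0), by simp [subs], ?_⟩
  rcases Nat.eq_zero_or_pos i with h | h
  · rw [h, Nat.mul_zero]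
  · exfalso
    have h1 : 1 < 2 ^ i := Nat.one_lt_two_pow (by omega)
    rw [Nat.testBit_lt_two_pow h1] at hi
    exact absurd hi (by decide)

private theorem enc_cons {b : ℕ} {l : List ℕ} (c : ℕ) (h : Enc b l) :
    Enc (b ||| (b <<< (c + 1024))) (c :: l) := by
  intro i hi
  rw [Nat.testBit_or, Bool.or_eq_true, Nat.testBit_shiftLeft, Bool.and_eq_true,
    decide_eq_true_eq] at hi
  rw [subs]
  rcases hi with hi | ⟨h1, hi⟩
  · obtain ⟨x, hx, hxi⟩ := h i hi
    exact ⟨x, List.mem_append.2 (Or.inl hx), hxi⟩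
  · obtain ⟨x, hx, hxi⟩ := h _ hi
    refine ⟨(x.1 + c, x.2 + 1), List.mem_append.2 (Or.inr (List.mem_map.2 ⟨x, hx, rfl⟩)), ?_⟩
    show x.1 + c + 1024 * (x.2 + 1) = i
    omega

private theorem prune {P : Prm} {mask b : ℕ} {l : List ℕ} (hM : Msk P mask) (c : ℕ) (h : Enc b l)
    (hs : l.sum + c < 1024) (hne : ¬ (b <<< (c + 1024)) &&& mask = 0) :
    (subs (c :: l)).any (inw P) = true := by
  obtain ⟨i, hi⟩ := Nat.exists_testBit_of_ne_zero hne
  rw [Nat.testBit_and, Bool.and_eq_true, Nat.testBit_shiftLeft, Bool.and_eq_true,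
    decide_eq_true_eq] at hi
  obtain ⟨⟨h1, h2⟩, h3⟩ := hi
  obtain ⟨x, hx, hxi⟩ := h _ h2
  have h4 := subs_le l x hx
  have h5 := hM i h3
  have e1 : i % 1024 = x.1 + c := by omega
  have e2 : i / 1024 = x.2 + 1 := by omega
  rw [e1, e2] at h5
  refine List.any_eq_true.2 ⟨(x.1 + c, x.2 + 1), ?_, h5⟩
  rw [subs]
  exact List.mem_append.2 (Or.inr (List.mem_map.2 ⟨x, hx, rfl⟩))

private theorem div_up (a b : ℕ) : (a : ℝ) / b ≤ ((a / b : ℕ) : ℝ) + 1 := by
  rw [← Nat.floor_div_eq_div (K := ℝ)]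
  exact (Nat.lt_floor_add_one _).le

private theorem muN_le (c : ℕ) (hc : 1 ≤ c) : (muc c + 1 / 10 ^ 6) * 10 ^ 9 ≤ muN c := by
  have h := div_up (10 ^ 9 * (2 * c + 1)) (2 * c * (c + 1))
  unfold muc muN
  have h0 : (0 : ℝ) < c := by exact_mod_cast hc
  push_cast at h ⊢
  have e : (2 * (c : ℝ) + 1) / (2 * c * (c + 1)) * 10 ^ 9 =
      10 ^ 9 * (2 * (c : ℝ) + 1) / (2 * c * (c + 1)) := by ring
  rw [add_mul, e]
  linarith

private theorem node_nonneg (P : Prm) (ε : ℝ) (hε : 0 ≤ ε) : ∀ (f h : ℕ) (l : List ℕ),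
    0 ≤ nodeR P ε f h l
  | 0, _, l => HR_nonneg P l
  | f + 1, h, l => by
    unfold nodeR
    refine add_nonneg (HR_nonneg P l) (Finset.sum_nonneg fun c _ => mul_nonneg ?_
      (node_nonneg P ε hε f c _))
    unfold muc
    positivity

private theorem node_gd (P : Prm) (ε : ℝ) : ∀ (f h : ℕ) (l : List ℕ),
    (subs l).any (inw P) = true → nodeR P ε f h l = 0
  | 0, _, l, hl => gd_ext P [] l hl
  | f + 1, h, l, hl => by
    unfold nodeR
    have h0 : HR P l = 0 := gd_ext P [] l hl
    rw [h0, zero_add]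
    refine Finset.sum_eq_zero fun c _ => ?_
    rw [node_gd P ε f c (c :: l) (by
      unfold subs
      rw [List.any_append, hl, Bool.true_or]), mul_zero]

private theorem node_top (P : Prm) (ε : ℝ) (l : List ℕ) (c : ℕ) (hc : P.G < l.sum + 2 * c) :
    ∀ (f h : ℕ) (l' : List ℕ), nodeR P ε f h (l' ++ c :: l) = 0
  | 0, _, l' => top_ext P l' l c hc
  | f + 1, h, l' => by
    unfold nodeR
    rw [top_ext P l' l c hc, zero_add]
    refine Finset.sum_eq_zero fun d _ => ?_
    rw [← List.cons_append, node_top P ε l c hc f d (d :: l'), mul_zero]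

private theorem HB_le (P : Prm) (l : List ℕ) (h : ℕ)
    (hh : max h (P.G - l.sum - l.length - 1) = yl P l) :
    HR P l * 10 ^ 9 ≤ HB P h l.sum l.length := by
  unfold HR HB
  rw [hh]
  have h1 := div_up (P.w l.length l.sum * P.G * 10 ^ 9) (yl P l)
  have h2 : (wc P l : ℝ) ≤ P.w l.length l.sum := by
    have : wc P l ≤ P.w l.length l.sum := by
      unfold wc
      split_ifs
      · exact le_rfl
      · exact Nat.zero_le _
    exact_mod_cast this
  push_cast at h1 ⊢
  refine le_trans ?_ h1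
  have e : (wc P l : ℝ) * P.G / (yl P l : ℝ) * 10 ^ 9 =
      (wc P l : ℝ) * P.G * 1000000000 / (yl P l : ℝ) := by ring
  rw [e]
  gcongr

private theorem list_range (N : ℕ) (g : ℕ → ℕ) :
    (((List.range N).map g).sum : ℕ) = ∑ i ∈ range N, g i := by
  simp [Finset.sum, Finset.range, Multiset.range]

theorem node_cmp (P : Prm) {mask : ℕ} (hM : Msk P mask) (hG : P.G < 1024) :
    ∀ (f h b : ℕ) (l : List ℕ), 1 ≤ h → Enc b l → l.sum ≤ P.G →
    max h (P.G - l.sum - l.length - 1) = yl P l →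
    nodeR P (1 / 10 ^ 6) f h l * 10 ^ 9 ≤ nodeB P mask f b h l.sum l.length
  | 0, h, b, l, _, _, _, hh => by
    unfold nodeR nodeB
    exact HB_le P l h hh
  | f + 1, h, b, l, h1, hE, hs, hh => by
    unfold nodeR nodeB
    rw [add_mul, Nat.cast_add, list_range, Nat.cast_sum]
    refine add_le_add (HB_le P l h hh) ?_
    rw [Finset.sum_mul]
    set N := min P.sm ((P.G - l.sum) / 2) + 1 - h with hN
    have hsub : ∑ c ∈ Icc h P.sm, (muc c + 1 / 10 ^ 6) * nodeR P (1 / 10 ^ 6) f c (c :: l) *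
        10 ^ 9 ≤ ∑ c ∈ Ico h (h + N), (muc c + 1 / 10 ^ 6) *
          nodeR P (1 / 10 ^ 6) f c (c :: l) * 10 ^ 9 := by
      rw [← Finset.sum_filter_of_ne (s := Icc h P.sm) (p := fun c => l.sum + 2 * c ≤ P.G)]
      · refine Finset.sum_le_sum_of_subset_of_nonneg ?_ fun c _ _ => ?_
        · intro c hc
          rw [Finset.mem_filter, Finset.mem_Icc] at hc
          rw [Finset.mem_Ico]
          omega
        · refine mul_nonneg (mul_nonneg ?_ (node_nonneg P _ (by positivity) f c _))
            (by positivity)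
          unfold muc
          positivity
      · intro c hc hne
        by_contra hcon
        apply hne
        have h3 := node_top P (1 / 10 ^ 6) l c (not_le.1 hcon) f c []
        rw [List.nil_append] at h3
        rw [h3, mul_zero, zero_mul]
    refine hsub.trans ?_
    rw [Finset.sum_Ico_eq_sum_range, Nat.add_sub_cancel_left]
    refine Finset.sum_le_sum fun i hi => ?_
    rw [Finset.mem_range] at hi
    have hsi : l.sum + (h + i) ≤ P.G := by omega
    have hg := node_nonneg P (1 / 10 ^ 6) (by positivity) f (h + i) ((h + i) :: l)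
    by_cases hb : (b <<< (h + i + 1024)) &&& mask = 0
    · rw [if_pos hb]
      have ih := node_cmp P hM hG f (h + i) (b ||| (b <<< (h + i + 1024))) ((h + i) :: l)
        (by omega) (enc_cons (h + i) hE) (by rw [List.sum_cons]; omega) (by
          unfold yl
          rw [List.headD_cons])
      have hm := muN_le (h + i) (by omega)
      have e2 : ((h + i) :: l).sum = l.sum + (h + i) := by
        rw [List.sum_cons, add_comm]
      rw [e2, List.length_cons] at ih
      set nn := nodeB P mask f (b ||| (b <<< (h + i + 1024))) (h + i)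
        (l.sum + (h + i)) (l.length + 1) with hnn
      have h3 := div_up (muN (h + i) * nn) (10 ^ 9)
      push_cast at h3 ⊢
      refine le_trans ?_ h3
      rw [le_div_iff₀ (by positivity)]
      have h4 : (muc (h + i) + 1 / 10 ^ 6) * nodeR P (1 / 10 ^ 6) f (h + i) ((h + i) :: l) *
          10 ^ 9 * 1000000000 = ((muc (h + i) + 1 / 10 ^ 6) * 10 ^ 9) *
          (nodeR P (1 / 10 ^ 6) f (h + i) ((h + i) :: l) * 10 ^ 9) := by ring
      rw [h4]
      exact mul_le_mul hm ih (mul_nonneg hg (by positivity)) (Nat.cast_nonneg _)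
    · rw [if_neg hb, node_gd P _ f _ _ (prune hM (h + i) hE (by omega) hb), mul_zero, zero_mul]
      simp

/-- the value of a tree from the integer computation -/
theorem node_val (P : Prm) {mask h0 v : ℕ} (hM : Msk P mask) (hG : P.G < 1024) (hh : 1 ≤ h0)
    (hh0 : h0 + 1 ≤ P.G) (hv : nodeB P mask 6 1 h0 0 0 ≤ v) :
    nodeR P (1 / 10 ^ 6) 6 h0 [] ≤ v / 10 ^ 9 := by
  have h := node_cmp P hM hG 6 h0 1 [] hh enc_nil (by simp) (by
    unfold yl
    simp only [List.sum_nil, List.length_nil, List.headD_nil]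
    omega)
  have h2 : (nodeB P mask 6 1 h0 ([] : List ℕ).sum ([] : List ℕ).length : ℝ) ≤ v := by
    exact_mod_cast hv
  rw [le_div_iff₀ (by positivity)]
  exact h.trans h2

/-- a part of the sum at the root: first cells `h0 + a + i`, `i < n` -/
def rootB (P : Prm) (mask h0 a n : ℕ) : ℕ :=
  ((List.range n).map (fun i =>
      if (1 <<< (h0 + (a + i) + 1024)) &&& mask = 0 then
        muN (h0 + (a + i)) * nodeB P mask 5 (1 ||| (1 <<< (h0 + (a + i) + 1024))) (h0 + (a + i))
          (0 + (h0 + (a + i))) (0 + 1) / 10 ^ 9 + 1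
      else 0)).sum

theorem rootB_add (P : Prm) (mask h0 a n m : ℕ) :
    rootB P mask h0 a (n + m) = rootB P mask h0 a n + rootB P mask h0 (a + n) m := by
  unfold rootB
  rw [list_range, list_range, list_range, Finset.sum_range_add]
  simp only [Nat.add_assoc]

theorem root_eq (P : Prm) (mask h0 : ℕ) : nodeB P mask 6 1 h0 0 0 =
    HB P h0 0 0 + rootB P mask h0 0 (min P.sm ((P.G - 0) / 2) + 1 - h0) := by
  unfold rootB
  rw [nodeB]
  simp only [Nat.zero_add]

theorem root_comb {P : Prm} {mask h0 a n m u v : ℕ} (h1 : rootB P mask h0 a n ≤ u)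
    (h2 : rootB P mask h0 (a + n) m ≤ v) : rootB P mask h0 a (n + m) ≤ u + v := by
  rw [rootB_add]
  exact Nat.add_le_add h1 h2

/-- the value of a tree from the sum at the root -/
theorem node_valR (P : Prm) {mask h0 v u n : ℕ} (hM : Msk P mask) (hG : P.G < 1024)
    (hh : 1 ≤ h0) (hh0 : h0 + 1 ≤ P.G) (hN : min P.sm ((P.G - 0) / 2) + 1 - h0 = n)
    (h1 : rootB P mask h0 0 n ≤ u) (hv : HB P h0 0 0 + u ≤ v) :
    nodeR P (1 / 10 ^ 6) 6 h0 [] ≤ v / 10 ^ 9 := by
  refine node_val P hM hG hh hh0 (v := v) ?_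
  rw [root_eq, hN]
  omega

/-- block of ones -/
def mk1 (lo hi : ℕ) : ℕ := if lo ≤ hi then 2 ^ (hi + 1) - 2 ^ lo else 0

/-- the mask -/
def maskOf (P : Prm) : ℕ :=
  ((List.range 7).map (fun m => (mk1 (P.sm + 1) (P.mb - 1 - m) |||
    mk1 (P.G + 1 - P.mb) (P.G - P.sm - 1 - m)) <<< (1024 * m))).foldl (· ||| ·) 0

/-- check of a mask -/
theorem msk_of {P : Prm} {mask N : ℕ} (h1 : mask < 2 ^ N)
    (h2 : (List.range N).all (fun i => !mask.testBit i || inw P (i % 1024, i / 1024)) = true) :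
    Msk P mask := by
  intro i hi
  by_cases h : i < N
  · rw [List.all_eq_true] at h2
    have h3 := h2 i (List.mem_range.2 h)
    rw [hi] at h3
    simpa using h3
  · exfalso
    have h3 : mask < 2 ^ i := lt_of_lt_of_le h1 (Nat.pow_le_pow_right (by norm_num) (by omega))
    rw [Nat.testBit_lt_two_pow h3] at hi
    exact absurd hi (by decide)

end Pool.MP_dd84fd_nt.IY
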