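import Pool.Agent.Lib.MP_dd84fd_nt.IY.NMe

/-!
# IY-NCe (0.4 h): the sum of `1/p` over a cell

Proof. `cel P X p = c` (`c ≥ 14`) iff `X^(c/281) ≤ p < X^((c+1)/281)`. `mert_up` with `y1 = X^(c/281)`, `y2 = X^((c+1)/281)`: `≤ log ((c+1)/c) + 1/L^2`. `log (1 + x) ≤ x (2 + x)/(2 (1 + x))` for `x ≥ 0` (monotonicity: the derivative of the right side is `(x²+2x+2)/(2(1+x)²) ≥ 1/(1+x)`), `x = 1/c`:
`x (2+x)/(2(1+x)) = (2c+1)/(2c(c+1)) = muc c`. (`X0` from `mert_up` and `1/L^2 ≤ ε`: uniform in `c`.)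
-/

set_option autoImplicit false

namespace Pool.MP_dd84fd_nt.IY

open Finset Pool.MP_67663b_nt.Odd Pool.MP_dd84fd_nt.En Pool.MP_dd84fd_nt.E2 Pool.MP_dd84fd_nt.HX

private lemma nce_log_le {t : ℝ} (ht : 1 ≤ t) : Real.log t ≤ (t - t⁻¹) / 2 := by
  rw [← Real.sinh_log (by linarith)]
  exact Real.self_le_sinh_iff.2 (Real.log_nonneg ht)

private lemma nce_log_muc {c : ℕ} (hc : 1 ≤ c) :
    Real.log (((c : ℝ) + 1) / c) ≤ muc c := by
  have hc0 : (0 : ℝ) < c := by exact_mod_cast hc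
  have h1 : (1 : ℝ) ≤ ((c : ℝ) + 1) / c := by
    rw [le_div_iff₀ hc0]; linarith
  refine (nce_log_le h1).trans (le_of_eq ?_)
  unfold muc
  rw [inv_div]
  field_simp
  ring

theorem cell_sum (P : Prm) (hG : 20 ≤ P.G) (ε : ℝ) (hε : 0 < ε) : ∃ X0 : ℕ, ∀ X : ℕ, X0 ≤ X →
    ∀ c : ℕ, P.G ≤ 20 * c → c < P.G →
    ∑ p ∈ (Icc 1 X).filter (fun p : ℕ => p.Prime ∧ cel P X p = c), 1 / (p : ℝ) ≤ muc c + ε := by
  obtain ⟨X1, hX1⟩ := mert_up
  have hlim : Filter.Tendsto (fun X : ℕ => 1 / (Real.log X) ^ 2) Filter.atTop (nhds 0) := by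
    have h1 : Filter.Tendsto (fun X : ℕ => (Real.log X) ^ 2) Filter.atTop Filter.atTop :=
      (Filter.tendsto_pow_atTop (by norm_num)).comp
        (Real.tendsto_log_atTop.comp tendsto_natCast_atTop_atTop)
    simp only [one_div]
    exact h1.inv_tendsto_atTop
  have hev : ∀ᶠ X : ℕ in Filter.atTop, 1 / (Real.log X) ^ 2 < ε :=
    hlim.eventually_lt_const hε
  obtain ⟨X2, hX2⟩ := Filter.eventually_atTop.1 hev
  refine ⟨max 3 (max X1 X2), fun X hX c hc hc' => ?_⟩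
  have hX3 : 3 ≤ X := le_trans (le_max_left _ _) hX
  have hXa : X1 ≤ X := le_trans (le_trans (le_max_left _ _) (le_max_right _ _)) hX
  have hXb : X2 ≤ X := le_trans (le_trans (le_max_right _ _) (le_max_right _ _)) hX
  have hX0 : (0 : ℝ) < X := by
    have : 0 < X := by omega
    exact_mod_cast this
  have hX1' : (1 : ℝ) < X := by
    have : 1 < X := by omega
    exact_mod_cast this
  have hL : 0 < Real.log X := Real.log_pos hX1'
  have hc0 : (0 : ℝ) < c := by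
    have : 0 < c := by omega
    exact_mod_cast this
  have hcc : (P.G : ℝ) ≤ 20 * c := by exact_mod_cast hc
  have hG0 : (0 : ℝ) < P.G := by exact_mod_cast (by omega : 0 < P.G)
  have hcc' : (c : ℝ) + 1 ≤ P.G := by exact_mod_cast hc'
  have key := hX1 X hXa ((X : ℝ) ^ ((c : ℝ) / P.G)) ((X : ℝ) ^ (((c : ℝ) + 1) / P.G))
    (Real.rpow_le_rpow_of_exponent_le hX1'.le (by
      rw [div_le_div_iff₀ (by norm_num) hG0]; linarith))
    (Real.rpow_le_rpow_of_exponent_le hX1'.le (by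
      rw [div_le_div_iff₀ hG0 hG0]; nlinarith))
    (by
      calc (X : ℝ) ^ (((c : ℝ) + 1) / P.G) ≤ (X : ℝ) ^ (1 : ℝ) :=
            Real.rpow_le_rpow_of_exponent_le hX1'.le (by
              rw [div_le_one hG0]; exact hcc')
        _ = X := Real.rpow_one _)
  rw [Real.log_rpow hX0, Real.log_rpow hX0] at key
  have e1 : ((c : ℝ) + 1) / P.G * Real.log X / ((c : ℝ) / P.G * Real.log X) =
      ((c : ℝ) + 1) / c := by
    field_simp
  rw [e1] at key
  have hsub : ∑ p ∈ (Icc 1 X).filter (fun p : ℕ => p.Prime ∧ cel P X p = c), 1 / (p : ℝ) ≤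
      ∑ p ∈ (Icc 1 X).filter (fun p : ℕ => p.Prime ∧ (X : ℝ) ^ ((c : ℝ) / P.G) ≤ (p : ℝ) ∧
        (p : ℝ) < (X : ℝ) ^ (((c : ℝ) + 1) / P.G)), 1 / (p : ℝ) := by
    apply Finset.sum_le_sum_of_subset_of_nonneg
    · intro p hp
      rw [mem_filter] at hp ⊢
      obtain ⟨h1, h2, h3⟩ := hp
      have hp0 : (0 : ℝ) < p := by exact_mod_cast h2.pos
      have hlp : 0 ≤ Real.log p := Real.log_natCast_nonneg p
      have hq0 : 0 ≤ (P.G : ℝ) * (Real.log p / Real.log X) := by positivity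
      unfold cel at h3
      have a1 : (c : ℝ) ≤ (P.G : ℝ) * (Real.log p / Real.log X) := by
        rw [← h3]; exact Nat.floor_le hq0
      have a2 : (P.G : ℝ) * (Real.log p / Real.log X) < (c : ℝ) + 1 := by
        rw [← h3]; exact Nat.lt_floor_add_one _
      have a3 : Real.log p = Real.log p / Real.log X * Real.log X := by
        field_simp
      refine ⟨h1, h2, ?_, ?_⟩
      · rw [← Real.log_le_log_iff (Real.rpow_pos_of_pos hX0 _) hp0, Real.log_rpow hX0, a3]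
        apply mul_le_mul_of_nonneg_right _ hL.le
        rw [div_le_iff₀ hG0]
        linarith
      · rw [← Real.log_lt_log_iff hp0 (Real.rpow_pos_of_pos hX0 _), Real.log_rpow hX0, a3]
        apply mul_lt_mul_of_pos_right _ hL
        rw [lt_div_iff₀ hG0]
        linarith
    · intro p _ _
      positivity
  have h5 := nce_log_muc (c := c) (by omega)
  have h6 := hX2 X hXb
  linarith

end Pool.MP_dd84fd_nt.IY
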