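import Pool.Agent.Lib.MP_dd84fd_nt.IY.BFm
import Pool.Agent.Lib.MP_dd84fd_nt.IY.CBx
import Pool.Agent.Lib.MP_dd84fd_nt.HX.SvRs
import Pool.Agent.Lib.MP_dd84fd_nt.HX.Iface

/-!
# Theorem I, numerics: definitions (helper5)

Cells of width `1/G` in the exponent `log p / log X`. A number `k = p_1 ... p_s` (`p_1 < ... < p_s`) has
the list of cells `cL P X k`; lists are used in reversed order (largest prime first). `subs l` = sums and
lengths of the sublists of `l`. `inw`: the sum is certainly in the window or certainly complementary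
to a window sum. `sm` = largest cell of a small box, `mb` = bound for a medium box. `w s t` = weight
of a number with `s` primes and sum of cells `t`. `HR P l` = upper bound for the contribution of `k` to
`log n g(n)`, without the factor `1/k`.
-/

set_option autoImplicit false

namespace Pool.MP_dd84fd_nt.IY

open Finset Pool.MP_67663b_nt.Odd Pool.MP_dd84fd_nt.En Pool.MP_dd84fd_nt.E2 Pool.MP_dd84fd_nt.HX

/-- the parameters of a cell tree -/
structure Prm where
  G : ℕ
  sm : ℕ
  mb : ℕ
  w : ℕ → ℕ → ℕ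

/-- the cell of `p` -/
noncomputable def cel (P : Prm) (X p : ℕ) : ℕ := ⌊(P.G : ℝ) * (Real.log p / Real.log X)⌋₊

/-- upper bound for the sum of `1/p` over the cell `c` (up to `o(1)`) -/
noncomputable def muc (c : ℕ) : ℝ := (2 * c + 1) / (2 * c * (c + 1))

/-- the cells of the prime factors of `k`, in increasing order of the primes -/
noncomputable def cL (P : Prm) (X k : ℕ) : List ℕ := k.primeFactorsList.map (cel P X)

/-- sums and lengths of the sublists -/
def subs : List ℕ → List (ℕ × ℕ)
  | [] => [(0, 0)]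
  | c :: l => subs l ++ (subs l).map (fun x => (x.1 + c, x.2 + 1))

/-- certainly in the window, or the complement is -/
def inw (P : Prm) (x : ℕ × ℕ) : Bool :=
  (P.sm + 1 ≤ x.1 && x.1 + x.2 + 1 ≤ P.mb) ||
    (P.G + 1 ≤ x.1 + P.mb && x.1 + x.2 + P.sm + 1 ≤ P.G)

/-- the weight of a list of cells -/
def wc (P : Prm) (l : List ℕ) : ℕ :=
  if (subs l).any (inw P) = false ∧ ∀ c ∈ l, c ≤ P.sm ∧ l.sum + c ≤ P.G then
    P.w l.length l.sum else 0

/-- lower bound for `G log (n/k) / log X` -/
def yl (P : Prm) (l : List ℕ) : ℕ := max (l.headD 0) (P.G - l.sum - l.length - 1)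

/-- the bound for one list -/
noncomputable def HR (P : Prm) (l : List ℕ) : ℝ := (wc P l : ℝ) * P.G / yl P l

/-- the tree: `f` = number of primes that can still be added, `h` = least admissible cell -/
noncomputable def nodeR (P : Prm) (ε : ℝ) : ℕ → ℕ → List ℕ → ℝ
  | 0, _, l => HR P l
  | f + 1, h, l => HR P l + ∑ c ∈ Icc h P.sm, (muc c + ε) * nodeR P ε f c (c :: l)

/-- weights for the minorant: `- F` -/
def wtF (G sm mb s t : ℕ) : ℕ :=
  if s = 2 then (if G ≤ 2 * (t + s) ∧ t + mb ≤ G then 2 else 0)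
  else if G ≤ t + s + sm then (if s = 4 then 24 else if s = 5 then 75 else if s = 6 then 90 else 0)
  else 0

/-- weights for the majorant: `F + E` -/
def wtS (G sm mb s t : ℕ) : ℕ :=
  if G ≤ t + s + sm then
    (if s = 3 then 6 else if s = 4 then 6 else if s = 5 then 30 else if s = 6 then 15 else 0)
  else if G ≤ 2 * (t + s) ∧ t + mb ≤ G then (if s = 3 then 2 else if s = 4 then 3 else 0)
  else 0

/-- the parameters for the minorant -/
def pF (G sm mb : ℕ) : Prm := ⟨G, sm, mb, wtF G sm mb⟩

/-- the parameters for the majorant -/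
def pS (G sm mb : ℕ) : Prm := ⟨G, sm, mb, wtS G sm mb⟩

/-- the rough divisors of `k` near `√X` -/
noncomputable def nbd (X k : ℕ) : ℕ :=
  open Classical in (k.divisors.filter (fun d : ℕ => Real.sqrt X / (Real.log X) ^ 12 ≤ d ∧
    (d : ℝ) ≤ (Real.log X) ^ 12 * Real.sqrt X)).card

/-- the conditions on the parameters of a cell tree -/
def NPar (G sm mb : ℕ) (α β : ℝ) : Prop :=
  20 ≤ G ∧ 0 < α ∧ α < 3 / 10 ∧ α < ((sm : ℝ) + 1) / G ∧ 2 / 5 < β ∧ β < 1 / 2 ∧
    ((mb : ℝ) - 1) / G < β

end Pool.MP_dd84fd_nt.IY
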