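import Pool.Agent.Lib.MP_dd84fd_nt.IY.BCz3

/-!
# Theorem I, numerics for `th ≥ 0.43`: the values on bad types (helper88)

If `3 a / 2 < b` and `3 x < 7 b` (up to `O(l)`), only three types carry weight.
-/

set_option autoImplicit false

namespace Pool.MP_dd84fd_nt.IY

open Finset

namespace BT

variable {v : ℕ → ℝ} {κ x a b l : ℝ} {T : Finset ℕ}

/-- a medium and three small boxes: no error weight -/
theorem four_med_zero (h : BT v κ x a b l T) (hV : 3 * a / 2 + 40 * l ≤ b)
    (hS : 3 * x + 80 * l ≤ 7 * b) (h4 : T.card = 4) (hO : OneMed v x a T) :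
    ES v x a b T = 0 := by
  classical
  obtain ⟨q, hq, hqa, hqx, hsm'⟩ := hO
  have hl := h.hl
  have hB := h.hB
  have hA := h.hA
  have hxl := h.xl
  have hlo := h.sumlo
  have hhi := h.hhi
  have hax := h.hax
  set U := T.erase q with hU
  have hUT : U ⊆ T := Finset.erase_subset _ _
  have hsm : ∀ p ∈ U, sg v {p} ≤ a := by
    intro p hp
    have hp' := Finset.mem_erase.mp hp
    rw [sg_single]
    exact hsm' p hp'.2 hp'.1
  have hU3 : U.card = 3 := by
    rw [hU, Finset.card_erase_of_mem hq, h4]
  have hqb : b - 1 / 2 < v q := by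
    rcases h.dich (S := {q}) (by simpa using hq) with h1 | h1
    · rw [sg_single] at h1
      linarith
    · rw [sg_single] at h1
      exact h1
  have hs : ∀ j ∈ T, sg v {j} ≤ x / 2 := by
    intro j hj
    by_cases hjq : j = q
    · rw [hjq, sg_single]
      exact hqx
    · linarith [hsm j (Finset.mem_erase.mpr ⟨hjq, hj⟩)]
  have hUs : sg v U = sg v T - v q := by rw [hU, sg_erase v hq, sg_single]
  -- no pair of `U` is a middle set
  have hpair : ∀ p ∈ U, sg v (U.erase p) ≤ a := by
    intro p hp
    rcases h.dich ((Finset.erase_subset p U).trans hUT) with h1 | h1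
    · exact h1
    · exfalso
      have e1 := sg_erase v hp
      rw [sg_single] at e1
      have hp1 : v p < x - 2 * b + 1 := by linarith
      have hpz := h.hz p (hUT hp)
      -- the other two
      have hother : ∀ r ∈ U.erase p, v r ≤ a - (x / 10 - l) := by
        intro r hr
        have hr' := Finset.mem_erase.mp hr
        have e2 : sg v ({r, p} : Finset ℕ) = v r + v p := by
          unfold sg
          rw [Finset.sum_pair hr'.1]
        have hra := hsm r hr'.2
        rw [sg_single] at hra
        have hsub : ({r, p} : Finset ℕ) ⊆ T := by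
          intro j hj
          rw [Finset.mem_insert, Finset.mem_singleton] at hj
          rcases hj with rfl | rfl
          · exact hUT hr'.2
          · exact hUT hp
        rcases h.dich hsub with h2 | h2
        · rw [e2] at h2
          linarith
        · rw [e2] at h2
          exfalso
          linarith
      have h5 : sg v (U.erase p) ≤ 2 * (a - (x / 10 - l)) := by
        calc sg v (U.erase p) = ∑ r ∈ U.erase p, v r := rfl
          _ ≤ ∑ r ∈ U.erase p, (a - (x / 10 - l)) := Finset.sum_le_sum hother
          _ = 2 * (a - (x / 10 - l)) := by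
              rw [Finset.sum_const, Finset.card_erase_of_mem hp, hU3, nsmul_eq_mul]
              norm_num
      linarith
  unfold ES
  refine Finset.sum_eq_zero fun S hS => ?_
  have hST := Finset.mem_powerset.mp hS
  by_cases hi : hiS v x b S
  · rw [if_pos hi]
    by_cases hqS : q ∈ S
    · unfold cE
      rw [if_pos ⟨q, hqS, by rw [sg_single]; exact hqa⟩]
    · have hSU : S ⊆ U := fun j hj => Finset.mem_erase.mpr ⟨fun he => hqS (he ▸ hj), hST hj⟩
      have h6 := (h.hi_two hs hST hi).1
      have h7 := Finset.card_le_card hSU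
      rw [cE_small (sub_small hsm hSU)]
      rcases (by omega : S.card = 2 ∨ S.card = 3) with h8 | h8
      · exfalso
        have h9 : (U \ S).card + S.card = U.card := Finset.card_sdiff_add_card_eq_card hSU
        obtain ⟨p, hp⟩ := Finset.card_eq_one.mp (by omega : (U \ S).card = 1)
        have hpm : p ∈ U \ S := by rw [hp]; simp
        have hpU := (Finset.mem_sdiff.mp hpm).1
        have hSe : S ⊆ U.erase p := fun j hj => Finset.mem_erase.mpr
          ⟨fun he => (Finset.mem_sdiff.mp hpm).2 (he ▸ hj), hSU hj⟩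
        have := sg_mono h.hv hSe
        linarith [hpair p hpU, hi.1]
      · have hSe : S = U := Finset.eq_of_subset_of_card_le hSU (by omega)
        rw [if_neg (by omega), if_pos h8, hSe]
        unfold nlS
        rw [Finset.card_eq_zero.mpr, Nat.cast_zero]
        rw [Finset.filter_eq_empty_iff]
        rintro p hp ⟨h9, _⟩
        linarith [hpair p hp]
  · rw [if_neg hi]

/-- a medium and four small boxes is impossible -/
theorem no_five_med (h : BT v κ x a b l T) (hS : 3 * x + 80 * l ≤ 7 * b) (h5 : T.card = 5)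
    (hO : OneMed v x a T) : False := by
  classical
  obtain ⟨q, hq, hqa, hqx, hsm'⟩ := hO
  have hl := h.hl
  have hB := h.hB
  have hhi := h.hhi
  set U := T.erase q with hU
  have hUT : U ⊆ T := Finset.erase_subset _ _
  have hU4 : U.card = 4 := by
    rw [hU, Finset.card_erase_of_mem hq, h5]
  have hqb : b - 1 / 2 < v q := by
    rcases h.dich (S := {q}) (by simpa using hq) with h1 | h1
    · rw [sg_single] at h1
      linarith
    · rw [sg_single] at h1
      exact h1
  have hUs : sg v U = sg v T - v q := by rw [hU, sg_erase v hq, sg_single]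
  have h1' : ∀ p ∈ U, b - 1 / 2 < sg v U - v p := by
    intro p hp
    have h1 := h.three (S := U.erase p) ((Finset.erase_subset _ _).trans hUT) (by
      rw [Finset.card_erase_of_mem hp, hU4])
    rw [sg_erase v hp, sg_single] at h1
    exact h1
  have h7 : ∑ p ∈ U, (b - 1 / 2) ≤ ∑ p ∈ U, (sg v U - v p) :=
    Finset.sum_le_sum fun p hp => (h1' p hp).le
  rw [Finset.sum_const, Finset.sum_sub_distrib, Finset.sum_const, hU4, nsmul_eq_mul,
    nsmul_eq_mul] at h7
  have h8 : ∑ p ∈ U, v p = sg v U := rfl
  rw [h8] at h7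
  push_cast at h7
  linarith

/-- five small boxes are impossible -/
theorem no_five_small (h : BT v κ x a b l T) (hV : 3 * a / 2 + 40 * l ≤ b)
    (hS : 3 * x + 80 * l ≤ 7 * b) (h5 : T.card = 5) (hsm : ∀ p ∈ T, v p ≤ a) : False := by
  classical
  obtain ⟨p1, p2, p3, p4, p5, hT, n12, n13, n14, n15, n23, n24, n25, n34, n35, n45, m1, m2, m3,
    m4⟩ := sort_five v h5
  have hl := h.hl
  have hB := h.hB
  have hA := h.hA
  have hxl := h.xl
  have hlo := h.sumlo
  have hhi := h.hhi
  have s2 : ∀ i j : ℕ, i ≠ j → sg v ({i, j} : Finset ℕ) = v i + v j := by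
    intro i j hij
    unfold sg
    rw [Finset.sum_pair hij]
  have sT : sg v T = v p1 + v p2 + v p3 + v p4 + v p5 := by
    rw [hT]
    unfold sg
    rw [Finset.sum_insert (by simp [n12, n13, n14, n15]),
      Finset.sum_insert (by simp [n23, n24, n25]),
      Finset.sum_insert (by simp [n34, n35]), Finset.sum_pair n45]
    ring
  have q1 : p1 ∈ T := by rw [hT]; simp
  have q2 : p2 ∈ T := by rw [hT]; simp
  have q5 : p5 ∈ T := by rw [hT]; simp
  have u1 : v p1 ≤ a := hsm p1 q1
  have u2 : v p2 ≤ a := hsm p2 q2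
  have z5 := h.hz p5 q5
  have k25 : b - 1 / 2 < v p2 + v p5 := by
    have hsub : ({p2, p5} : Finset ℕ) ⊆ T := by
      intro j hj
      rw [Finset.mem_insert, Finset.mem_singleton] at hj
      rcases hj with rfl | rfl <;> assumption
    rcases h.dich hsub with h1 | h1
    · rw [s2 _ _ n25] at h1
      exfalso
      linarith
    · rw [s2 _ _ n25] at h1
      exact h1
  linarith

/-- six boxes are impossible -/
theorem no_six (h : BT v κ x a b l T) (hV : 3 * a / 2 + 40 * l ≤ b) (h6 : T.card = 6) :
    False := by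
  classical
  have hsm : ∀ j ∈ T, sg v {j} ≤ a := by
    intro j hj
    by_contra hc
    have := h.one_med hj (not_le.mp hc)
    omega
  have hl := h.hl
  have hB := h.hB
  have hhi := h.hhi
  -- the largest box and the others
  obtain ⟨p6, h6m, m6⟩ := Finset.exists_min_image T v (Finset.card_pos.mp (by omega))
  have c5 : (T.erase p6).card = 5 := by rw [Finset.card_erase_of_mem h6m, h6]
  obtain ⟨p1, p2, p3, p4, p5, hT, n12, n13, n14, n15, n23, n24, n25, n34, n35, n45, m1, m2, m3,
    m4⟩ := sort_five v c5
  have hsub5 : ∀ j, j ∈ ({p1, p2, p3, p4, p5} : Finset ℕ) → j ∈ T ∧ j ≠ p6 := by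
    intro j hj
    rw [← hT] at hj
    have := Finset.mem_erase.mp hj
    exact ⟨this.2, this.1⟩
  have q1 := hsub5 p1 (by simp)
  have q2 := hsub5 p2 (by simp)
  have q3 := hsub5 p3 (by simp)
  have q4 := hsub5 p4 (by simp)
  have q5 := hsub5 p5 (by simp)
  have m5 : v p6 ≤ v p5 := m6 p5 q5.1
  have s2 : ∀ i j : ℕ, i ≠ j → sg v ({i, j} : Finset ℕ) = v i + v j := by
    intro i j hij
    unfold sg
    rw [Finset.sum_pair hij]
  have s3 : ∀ i j k : ℕ, i ≠ j → i ≠ k → j ≠ k →
      sg v ({i, j, k} : Finset ℕ) = v i + v j + v k := by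
    intro i j k hij hik hjk
    unfold sg
    rw [Finset.sum_insert (by simp [hij, hik]), Finset.sum_pair hjk]
    ring
  have sT : sg v T = v p1 + v p2 + v p3 + v p4 + v p5 + v p6 := by
    have e1 := sg_erase v h6m
    rw [hT, sg_single] at e1
    have e2 : sg v ({p1, p2, p3, p4, p5} : Finset ℕ) = v p1 + v p2 + v p3 + v p4 + v p5 := by
      unfold sg
      rw [Finset.sum_insert (by simp [n12, n13, n14, n15]),
        Finset.sum_insert (by simp [n23, n24, n25]),
        Finset.sum_insert (by simp [n34, n35]), Finset.sum_pair n45]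
      ring
    linarith
  have z5 := h.hz p5 q5.1
  have z6 := h.hz p6 h6m
  -- the triple `4, 5, 6` is above `b`
  have t456 : b - 1 / 2 < v p4 + v p5 + v p6 := by
    rw [← s3 p4 p5 p6 n45 q4.2 q5.2]
    refine h.three ?_ ?_
    · intro j hj
      rw [Finset.mem_insert, Finset.mem_insert, Finset.mem_singleton] at hj
      rcases hj with rfl | rfl | rfl
      · exact q4.1
      · exact q5.1
      · exact h6m
    · rw [Finset.card_insert_of_notMem (by simp [n45, q4.2]), Finset.card_pair q5.2]
  have k34 : v p3 + v p4 ≤ a := by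
    have hsub : ({p3, p4} : Finset ℕ) ⊆ T := by
      intro j hj
      rw [Finset.mem_insert, Finset.mem_singleton] at hj
      rcases hj with rfl | rfl
      · exact q3.1
      · exact q4.1
    rcases h.dich hsub with h1 | h1
    · rw [s2 _ _ n34] at h1
      exact h1
    · rw [s2 _ _ n34] at h1
      exfalso
      linarith
  linarith

/-- seven boxes are impossible -/
theorem no_seven (h : BT v κ x a b l T) (hS : 3 * x + 80 * l ≤ 7 * b) (h7 : T.card = 7) :
    False := by
  classical
  have hl := h.hl
  have hhi := h.hhi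
  have hB := h.hB
  obtain ⟨p, hp, mp⟩ := Finset.exists_max_image T v (Finset.card_pos.mp (by omega))
  have c6 : (T.erase p).card = 6 := by rw [Finset.card_erase_of_mem hp, h7]
  obtain ⟨U, hU, hU3⟩ := Finset.exists_subset_card_eq (show 3 ≤ (T.erase p).card by omega)
  have h1 := h.three (hU.trans (Finset.erase_subset _ _)) (by omega)
  have c3 : ((T.erase p) \ U).card = 3 := by
    rw [Finset.card_sdiff_of_subset hU, c6, hU3]
  have h2 := h.three (S := (T.erase p) \ U)
    (Finset.sdiff_subset.trans (Finset.erase_subset _ _)) (by omega)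
  have h3 := sg_compl v hU
  have h4 := sg_erase v hp
  rw [sg_single] at h4
  -- the maximum is at least a third of a triple
  have h5 : b - 1 / 2 < 3 * v p := by
    have h6 : sg v U ≤ ∑ j ∈ U, v p := Finset.sum_le_sum fun j hj =>
      mp j (Finset.erase_subset _ _ (hU hj))
    rw [Finset.sum_const, hU3, nsmul_eq_mul] at h6
    push_cast at h6
    linarith
  linarith

/-- **the values on bad types for `th ≥ 0.43`** -/
theorem r2_hi (h : BT v κ x a b l T) (hV : 3 * a / 2 + 40 * l ≤ b)
    (hS : 3 * x + 80 * l ≤ 7 * b) (h2 : 2 ≤ T.card) :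
    (FS v x a b T = 0 ∧ ES v x a b T = 0) ∨
    (T.card = 3 ∧ OneMed v x a T ∧ FS v x a b T = -2 ∧ ES v x a b T = 2) ∨
    (T.card = 4 ∧ (∀ p ∈ T, v p ≤ a) ∧ FS v x a b T = 0 ∧ ES v x a b T = 6) := by
  rcases h.r2_val h2 with h3 | h3 | h3 | h3 | ⟨h3, h4 | h4 | h4 | h4⟩
  · exact Or.inl h3
  · exact Or.inr (Or.inl h3)
  · exact Or.inl ⟨h3.2.2.1, h.four_med_zero hV hS h3.1 h3.2.1⟩
  · exact (h.no_five_med hS h3.1 h3.2.1).elim
  · exact Or.inr (Or.inr ⟨h4.1, h3, h4.2⟩)
  · exact (h.no_five_small hV hS h4.1 h3).elim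
  · exact (h.no_six hV h4.1).elim
  · exact (h.no_seven hS h4.1).elim

end BT

end Pool.MP_dd84fd_nt.IY
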