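import Pool.Agent.Lib.MP_dd84fd_nt.IY.NMe

/-!
# Theorem I, numerics for `th ≥ 0.43`: two sums over products of primes (helper88)

`PS X u w` = primes in `[X^u, X^w)`. `K3 X A` = products `p q` of primes `q < p < X^A` with `p q ≥ X^(1/2)`;
`K4 X A` = products `p q r` of primes `r < q < p < X^A` with `p q r ≥ X^(1-A)`, `p² q r ≤ X`.
-/

set_option autoImplicit false

namespace Pool.MP_dd84fd_nt.IY

open Finset

/-- primes in `[X^u, X^w)` -/
noncomputable def PS (X : ℕ) (u w : ℝ) : Finset ℕ :=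
  open Classical in (Icc 1 X).filter (fun p : ℕ => p.Prime ∧ (X : ℝ) ^ u ≤ (p : ℝ) ∧ (p : ℝ) < (X : ℝ) ^ w)

theorem mem_PS {X : ℕ} {u w : ℝ} {p : ℕ} (hX : 1 < X) (hp : p.Prime) (hpX : p ≤ X)
    (hu : u * Real.log X ≤ Real.log p) (hw : Real.log p < w * Real.log X) : p ∈ PS X u w := by
  classical
  have hX0 : (0 : ℝ) < X := by exact_mod_cast (by omega : 0 < X)
  have hp0 : (0 : ℝ) < p := by exact_mod_cast hp.pos
  unfold PS
  rw [Finset.mem_filter]
  refine ⟨Finset.mem_Icc.mpr ⟨hp.one_lt.le, hpX⟩, hp, ?_, ?_⟩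
  · rw [← Real.log_le_log_iff (Real.rpow_pos_of_pos hX0 _) hp0, Real.log_rpow hX0]
    exact hu
  · rw [← Real.log_lt_log_iff hp0 (Real.rpow_pos_of_pos hX0 _), Real.log_rpow hX0]
    exact hw

theorem of_mem_PS {X : ℕ} {u w : ℝ} {p : ℕ} (hX : 1 < X) (h : p ∈ PS X u w) :
    p.Prime ∧ p ≤ X ∧ u * Real.log X ≤ Real.log p ∧ Real.log p < w * Real.log X := by
  classical
  have hX0 : (0 : ℝ) < X := by exact_mod_cast (by omega : 0 < X)
  unfold PS at h
  rw [Finset.mem_filter, Finset.mem_Icc] at h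
  obtain ⟨⟨h1, h2⟩, h3, h4, h5⟩ := h
  have hp0 : (0 : ℝ) < p := by exact_mod_cast h3.pos
  refine ⟨h3, h2, ?_, ?_⟩
  · rw [← Real.log_rpow hX0]
    exact Real.log_le_log (Real.rpow_pos_of_pos hX0 _) h4
  · rw [← Real.log_rpow hX0]
    exact Real.log_lt_log hp0 h5

/-- Mertens for `PS` -/
theorem mp (ε : ℝ) (hε : 0 < ε) : ∃ X0 : ℕ, ∀ X : ℕ, X0 ≤ X → ∀ u w : ℝ, 1 / 20 ≤ u → w ≤ 1 →
    ∑ p ∈ PS X u w, 1 / (p : ℝ) ≤ max 0 (w - u) / u + ε := by
  classical
  obtain ⟨X1, hX1⟩ := mert_up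
  have hlim : Filter.Tendsto (fun X : ℕ => Real.log (X : ℝ)) Filter.atTop Filter.atTop :=
    Real.tendsto_log_atTop.comp tendsto_natCast_atTop_atTop
  obtain ⟨X2, hX2⟩ := Filter.eventually_atTop.mp (hlim.eventually_ge_atTop (1 / ε + 1))
  refine ⟨max (max X1 X2) 2, fun X hX u w hu hw => ?_⟩
  simp only [max_le_iff] at hX
  obtain ⟨⟨h1, h2⟩, h3⟩ := hX
  have hu0 : 0 < u := by linarith
  have hXr : (1 : ℝ) < X := by exact_mod_cast (by omega : 1 < X)
  have hX0 : (0 : ℝ) < X := by linarith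
  have hL : 1 / ε + 1 ≤ Real.log X := hX2 X h2
  have hL1 : 1 ≤ Real.log X := by
    have : 0 < 1 / ε := by positivity
    linarith
  have hLe : 1 / (Real.log X) ^ 2 ≤ ε := by
    have h4 : 1 / ε ≤ (Real.log X) ^ 2 := by nlinarith
    rw [div_le_iff₀ (by positivity)]
    rw [div_le_iff₀ hε] at h4
    linarith
  by_cases huw : u ≤ w
  · have h5 := hX1 X h1 ((X : ℝ) ^ u) ((X : ℝ) ^ w)
      (Real.rpow_le_rpow_of_exponent_le hXr.le hu)
      (Real.rpow_le_rpow_of_exponent_le hXr.le huw)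
      (by
        calc (X : ℝ) ^ w ≤ (X : ℝ) ^ (1 : ℝ) := Real.rpow_le_rpow_of_exponent_le hXr.le hw
          _ = X := Real.rpow_one _)
    rw [Real.log_rpow hX0, Real.log_rpow hX0] at h5
    have h6 : w * Real.log X / (u * Real.log X) = w / u := by
      have : Real.log X ≠ 0 := by linarith
      field_simp
    rw [h6] at h5
    have h7 : Real.log (w / u) ≤ w / u - 1 :=
      Real.log_le_sub_one_of_pos (div_pos (by linarith) hu0)
    have h8 : w / u - 1 = max 0 (w - u) / u := by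
      rw [max_eq_right (by linarith)]
      field_simp
    unfold PS
    linarith
  · have h9 : PS X u w = ∅ := by
      unfold PS
      rw [Finset.filter_eq_empty_iff]
      rintro p _ ⟨_, a1, a2⟩
      have a3 : (X : ℝ) ^ w ≤ (X : ℝ) ^ u :=
        Real.rpow_le_rpow_of_exponent_le hXr.le (by linarith)
      linarith
    rw [h9, Finset.sum_empty]
    positivity

/-- products of two primes near `√X` -/
noncomputable def K3 (X : ℕ) (A : ℝ) : Finset ℕ :=
  open Classical in (Icc 1 X).filter (fun k : ℕ => ∃ p q : ℕ, p.Prime ∧ q.Prime ∧ q < p ∧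
    k = p * q ∧ Real.log p < A * Real.log X ∧ Real.log X / 2 ≤ Real.log k)

/-- products of three primes -/
noncomputable def K4 (X : ℕ) (A : ℝ) : Finset ℕ :=
  open Classical in (Icc 1 X).filter (fun k : ℕ => ∃ p q r : ℕ, p.Prime ∧ q.Prime ∧ r.Prime ∧
    q < p ∧ r < q ∧ k = p * q * r ∧ Real.log p < A * Real.log X ∧
    (1 - A) * Real.log X ≤ Real.log k ∧ Real.log p + Real.log k ≤ Real.log X)

/-- sum over an image -/
theorem sum_image_le' {α : Type*} [DecidableEq α] {β : Type*} (T : Finset α) (g : α → β)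
    [DecidableEq β] (f : β → ℝ) (hf : ∀ b, 0 ≤ f b) :
    ∑ b ∈ T.image g, f b ≤ ∑ t ∈ T, f (g t) := by
  have h : ∀ t ∈ T, g t ∈ T.image g := fun t ht => Finset.mem_image_of_mem g ht
  rw [← Finset.sum_fiberwise_of_maps_to h]
  refine Finset.sum_le_sum fun b hb => ?_
  obtain ⟨t, ht, hgt⟩ := Finset.mem_image.mp hb
  have h1 : ∑ t' ∈ T.filter (fun t' => g t' = b), f (g t') =
      ∑ t' ∈ T.filter (fun t' => g t' = b), f b := Finset.sum_congr rfl fun t' ht' => by
    rw [(Finset.mem_filter.mp ht').2]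
  rw [h1, Finset.sum_const, nsmul_eq_mul]
  have h2 : (1 : ℝ) ≤ ((T.filter (fun t' => g t' = b)).card : ℝ) := by
    exact_mod_cast Finset.card_pos.mpr ⟨t, Finset.mem_filter.mpr ⟨ht, hgt⟩⟩
  nlinarith [hf b]

/-- sum over a union -/
theorem sum_biUnion_le'' {α : Type*} [DecidableEq α] (s : Finset ℕ) (f : ℕ → Finset α)
    (g : α → ℝ) (hg : ∀ b, 0 ≤ g b) :
    ∑ t ∈ s.biUnion f, g t ≤ ∑ i ∈ s, ∑ t ∈ f i, g t := by
  have h1 : s.biUnion f = (s.sigma f).image (fun x => x.2) := by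
    ext b
    simp only [Finset.mem_biUnion, Finset.mem_image, Finset.mem_sigma]
    constructor
    · rintro ⟨i, hi, hb⟩
      exact ⟨⟨i, b⟩, ⟨hi, hb⟩, rfl⟩
    · rintro ⟨⟨i, b'⟩, ⟨hi, hb⟩, rfl⟩
      exact ⟨i, hi, hb⟩
  have h2 := sum_image_le' (s.sigma f) (fun x => x.2) g hg
  have h3 : ∑ i ∈ s, ∑ t ∈ f i, g t = ∑ x ∈ s.sigma f, g x.2 := Finset.sum_sigma' s f fun _ t => g t
  rw [h1, h3]
  exact h2

/-- the sum over `K3`, eight slices -/
theorem S3_sum (A ε : ℝ) (hA : 1 / 4 < A) (hA2 : A ≤ 3 / 10) (hε : 0 < ε) :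
    ∃ X0 : ℕ, ∀ X : ℕ, X0 ≤ X →
      ∑ k ∈ K3 X A, 1 / (k : ℝ) ≤ 9 / 2 * (A - 1 / 4) ^ 2 / (1 / 2 - A) + ε := by
  classical
  set ε1 : ℝ := min (ε / 16) 1 with hε1
  have hε10 : 0 < ε1 := lt_min (by positivity) one_pos
  have hε1a : ε1 ≤ ε / 16 := min_le_left _ _
  have hε1b : ε1 ≤ 1 := min_le_right _ _
  obtain ⟨X1, hX1⟩ := mp ε1 hε10
  refine ⟨max X1 2, fun X hX => ?_⟩
  simp only [max_le_iff] at hX
  have hX1' : 1 < X := by omega
  have hXr : (1 : ℝ) < X := by exact_mod_cast hX1'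
  have hL : 0 < Real.log X := Real.log_pos hXr
  set L := Real.log (X : ℝ) with hLd
  set D := A - 1 / 4 with hD
  have hD0 : 0 < D := by rw [hD]; linarith
  set η := D / 8 with hη
  have hη0 : 0 < η := by rw [hη]; positivity
  set u : ℕ → ℝ := fun i => 1 / 4 + i * η with hu
  have hu1 : ∀ i : ℕ, i < 8 → u (i + 1) ≤ A := by
    intro i hi
    rw [hu]
    simp only
    have : ((i + 1 : ℕ) : ℝ) ≤ 8 := by exact_mod_cast hi
    have h2 : ((i + 1 : ℕ) : ℝ) * η ≤ 8 * η := mul_le_mul_of_nonneg_right this hη0.le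
    rw [hη] at h2 ⊢
    linarith
  -- the pairs
  set P : Finset (ℕ × ℕ) := (range 8).biUnion (fun i =>
    (PS X (u i) (u (i + 1))) ×ˢ (PS X (1 / 2 - u (i + 1)) (u (i + 1)))) with hP
  have hsub : K3 X A ⊆ P.image (fun t : ℕ × ℕ => (t.1 * t.2 : ℕ)) := by
    intro k hk
    unfold K3 at hk
    rw [Finset.mem_filter, Finset.mem_Icc] at hk
    obtain ⟨⟨hk1, hkX⟩, p, q, hp, hq, hqp, hkpq, hpA, hkL⟩ := hk
    have hp0 : (0 : ℝ) < p := by exact_mod_cast hp.pos
    have hq0 : (0 : ℝ) < q := by exact_mod_cast hq.pos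
    have hlk : Real.log k = Real.log p + Real.log q := by
      rw [hkpq]
      push_cast
      rw [Real.log_mul hp0.ne' hq0.ne']
    have hlqp : Real.log q < Real.log p := Real.log_lt_log hq0 (by exact_mod_cast hqp)
    have hpX : p ≤ X := by
      refine le_trans ?_ hkX
      rw [hkpq]
      exact Nat.le_mul_of_pos_right p hq.pos
    have hqX : q ≤ X := hqp.le.trans hpX
    have hp4 : 1 / 4 * L < Real.log p := by rw [hlk] at hkL; linarith
    -- the slice
    set y : ℝ := (Real.log p / L - 1 / 4) / η with hy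
    have hy0 : 0 ≤ y := by
      rw [hy]
      apply div_nonneg _ hη0.le
      rw [sub_nonneg, le_div_iff₀ hL]
      exact hp4.le
    have hy8 : y < 8 := by
      rw [hy, div_lt_iff₀ hη0, hη]
      have : Real.log p / L < A := by rw [div_lt_iff₀ hL]; exact hpA
      rw [hD]
      linarith
    set i := ⌊y⌋₊ with hi
    have hi8 : i < 8 := by
      have := Nat.floor_le hy0
      have h2 : (i : ℝ) < 8 := lt_of_le_of_lt this hy8
      exact_mod_cast h2
    have hlo : u i * L ≤ Real.log p := by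
      have h3 : (i : ℝ) ≤ y := Nat.floor_le hy0
      rw [hy, le_div_iff₀ hη0] at h3
      have h4 : u i ≤ Real.log p / L := by rw [hu]; simp only; linarith
      rwa [le_div_iff₀ hL] at h4
    have hhi : Real.log p < u (i + 1) * L := by
      have h3 : y < (i : ℝ) + 1 := Nat.lt_floor_add_one y
      rw [hy, div_lt_iff₀ hη0] at h3
      have h4 : Real.log p / L < u (i + 1) := by
        rw [hu]
        simp only
        push_cast
        linarith
      rwa [div_lt_iff₀ hL] at h4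
    refine Finset.mem_image.mpr ⟨(p, q), ?_, hkpq.symm⟩
    rw [hP, Finset.mem_biUnion]
    refine ⟨i, Finset.mem_range.mpr hi8, Finset.mem_product.mpr ⟨?_, ?_⟩⟩
    · exact mem_PS hX1' hp hpX hlo hhi
    · refine mem_PS hX1' hq hqX ?_ (hlqp.trans hhi)
      change (1 / 2 - u (i + 1)) * L ≤ Real.log q
      rw [hlk] at hkL
      linarith
  have hsl : ∀ i ∈ range 8, ∑ t ∈ (PS X (u i) (u (i + 1))) ×ˢ
      (PS X (1 / 2 - u (i + 1)) (u (i + 1))), 1 / ((t.1 * t.2 : ℕ) : ℝ) ≤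
      (4 * η + ε1) * (2 * (i + 1) * η / (1 / 2 - A) + ε1) := by
    intro i hi
    have hi8 := Finset.mem_range.mp hi
    have hui := hu1 i hi8
    rw [Finset.sum_product]
    have e1 : ∑ p ∈ PS X (u i) (u (i + 1)), ∑ q ∈ PS X (1 / 2 - u (i + 1)) (u (i + 1)),
        1 / ((p * q : ℕ) : ℝ) = (∑ p ∈ PS X (u i) (u (i + 1)), 1 / (p : ℝ)) *
        (∑ q ∈ PS X (1 / 2 - u (i + 1)) (u (i + 1)), 1 / (q : ℝ)) := by
      rw [Finset.sum_mul_sum]
      refine Finset.sum_congr rfl fun p _ => Finset.sum_congr rfl fun q _ => ?_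
      push_cast
      rw [one_div_mul_one_div]
    rw [e1]
    have hui0 : 1 / 4 ≤ u i := by
      rw [hu]
      simp only
      have : 0 ≤ (i : ℝ) * η := by positivity
      linarith
    have hstep : u (i + 1) - u i = η := by
      rw [hu]
      simp only
      push_cast
      ring
    have hui1 : u (i + 1) = 1 / 4 + (i + 1) * η := by
      rw [hu]
      simp only
      push_cast
      ring
    have m1 := hX1 X hX.1 (u i) (u (i + 1)) (by linarith) (by linarith)
    have m2 := hX1 X hX.1 (1 / 2 - u (i + 1)) (u (i + 1)) (by linarith) (by linarith)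
    rw [hstep, max_eq_right hη0.le] at m1
    have h5 : η / u i ≤ 4 * η := by
      rw [div_le_iff₀ (by linarith)]
      nlinarith
    have h6 : max 0 (u (i + 1) - (1 / 2 - u (i + 1))) = 2 * (i + 1) * η := by
      rw [max_eq_right, hui1]
      · ring
      · rw [hui1]
        have : 0 ≤ ((i : ℝ) + 1) * η := by positivity
        linarith
    rw [h6] at m2
    have h7 : 2 * ((i : ℝ) + 1) * η / (1 / 2 - u (i + 1)) ≤ 2 * (i + 1) * η / (1 / 2 - A) :=
      div_le_div_of_nonneg_left (by positivity) (by linarith) (by linarith)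
    have n2 : 0 ≤ ∑ q ∈ PS X (1 / 2 - u (i + 1)) (u (i + 1)), 1 / (q : ℝ) :=
      Finset.sum_nonneg fun q _ => by positivity
    exact mul_le_mul (by linarith) (by linarith) n2 (by positivity)
  calc ∑ k ∈ K3 X A, 1 / (k : ℝ)
      ≤ ∑ k ∈ P.image (fun t : ℕ × ℕ => (t.1 * t.2 : ℕ)), 1 / (k : ℝ) :=
        Finset.sum_le_sum_of_subset_of_nonneg hsub fun k _ _ =>
          div_nonneg zero_le_one (Nat.cast_nonneg k)
    _ ≤ ∑ t ∈ P, 1 / ((t.1 * t.2 : ℕ) : ℝ) :=
        sum_image_le' P (fun t : ℕ × ℕ => (t.1 * t.2 : ℕ)) (fun k : ℕ => 1 / (k : ℝ)) fun k =>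
          div_nonneg zero_le_one (Nat.cast_nonneg k)
    _ ≤ ∑ i ∈ range 8, ∑ t ∈ (PS X (u i) (u (i + 1))) ×ˢ
          (PS X (1 / 2 - u (i + 1)) (u (i + 1))), 1 / ((t.1 * t.2 : ℕ) : ℝ) := by
        rw [hP]
        exact sum_biUnion_le'' _ _ _ fun t => div_nonneg zero_le_one (Nat.cast_nonneg _)
    _ ≤ ∑ i ∈ range 8, (4 * η + ε1) * (2 * (i + 1) * η / (1 / 2 - A) + ε1) :=
        Finset.sum_le_sum hsl
    _ = (4 * η + ε1) * (72 * η / (1 / 2 - A) + 8 * ε1) := by
        simp only [Finset.sum_range_succ, Finset.sum_range_zero]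
        push_cast
        ring
    _ ≤ 9 / 2 * D ^ 2 / (1 / 2 - A) + ε := by
        have h20 : 0 < 1 / 2 - A := by linarith
        have hDA : D ≤ 1 / 20 := by rw [hD]; linarith
        have h8 : 72 * η / (1 / 2 - A) = 9 * D / (1 / 2 - A) := by rw [hη]; ring
        have h9 : 4 * η = D / 2 := by rw [hη]; ring
        rw [h8, h9]
        have h10 : 9 * D / (1 / 2 - A) ≤ 9 / 4 := by
          rw [div_le_iff₀ h20]
          linarith
        have h11 : D / 2 * (9 * D / (1 / 2 - A)) = 9 / 2 * D ^ 2 / (1 / 2 - A) := by ring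
        have h12 : 0 ≤ 9 * D / (1 / 2 - A) := by positivity
        nlinarith

/-- the sum over `K4`, nested -/
theorem S4_sum (A τ : ℝ) (hA : 1 / 4 < A) (hA2 : A ≤ 3 / 10) (hτ : 0 < τ) :
    ∃ X0 : ℕ, ∀ X : ℕ, X0 ≤ X →
      ∑ k ∈ K4 X A, 1 / (k : ℝ) ≤
        (4 * A - 1 + τ) ^ 3 / (12 * (1 - A) * (1 - 2 * A) * (1 - 3 * A)) := by
  classical
  set ε : ℝ := min (τ / 10) (1 / 100) with hε
  have hε0 : 0 < ε := lt_min (by positivity) (by norm_num)
  have hεa : ε ≤ τ / 10 := min_le_left _ _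
  have hεb : ε ≤ 1 / 100 := min_le_right _ _
  obtain ⟨X1, hX1⟩ := mp ε hε0
  refine ⟨max X1 2, fun X hX => ?_⟩
  simp only [max_le_iff] at hX
  have hX1' : 1 < X := by omega
  have hXr : (1 : ℝ) < X := by exact_mod_cast hX1'
  have hL : 0 < Real.log X := Real.log_pos hXr
  have hmp := hX1 X hX.1
  set L := Real.log (X : ℝ) with hLd
  -- exponents
  set w : ℕ → ℝ := fun p => Real.log p / L with hw
  have hwl : ∀ p : ℕ, w p * L = Real.log p := by
    intro p
    rw [hw]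
    simp only
    exact div_mul_cancel₀ _ hL.ne'
  set I3 : ℕ → ℕ → Finset ℕ := fun p q =>
    PS X (1 - A - w p - w q) (1 - 2 * w p - w q + ε) with hI3
  set I2 : ℕ → Finset ℕ := fun p => PS X ((1 - A - w p) / 2) (w p) with hI2
  set I1 : Finset ℕ := PS X ((1 - A) / 3) A with hI1
  set P : Finset (ℕ × ℕ × ℕ) := (Icc 1 X ×ˢ Icc 1 X ×ˢ Icc 1 X).filter (fun t =>
    t.1 ∈ I1 ∧ t.2.1 ∈ I2 t.1 ∧ t.2.2 ∈ I3 t.1 t.2.1) with hP
  have hPSX : ∀ u v : ℝ, PS X u v ⊆ Icc 1 X := by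
    intro u v
    unfold PS
    exact Finset.filter_subset _ _
  have hsub : K4 X A ⊆ P.image (fun t : ℕ × ℕ × ℕ => (t.1 * t.2.1 * t.2.2 : ℕ)) := by
    intro k hk
    unfold K4 at hk
    rw [Finset.mem_filter, Finset.mem_Icc] at hk
    obtain ⟨⟨hk1, hkX⟩, p, q, r, hp, hq, hr, hqp, hrq, hkp, hpA, hkL, hpk⟩ := hk
    have hp0 : (0 : ℝ) < p := by exact_mod_cast hp.pos
    have hq0 : (0 : ℝ) < q := by exact_mod_cast hq.pos
    have hr0 : (0 : ℝ) < r := by exact_mod_cast hr.pos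
    have hlk : Real.log k = Real.log p + Real.log q + Real.log r := by
      rw [hkp]
      push_cast
      rw [Real.log_mul (by positivity) hr0.ne', Real.log_mul hp0.ne' hq0.ne']
    have hlqp : Real.log q < Real.log p := Real.log_lt_log hq0 (by exact_mod_cast hqp)
    have hlrq : Real.log r < Real.log q := Real.log_lt_log hr0 (by exact_mod_cast hrq)
    have hpX : p ≤ X := by
      refine le_trans ?_ hkX
      rw [hkp, mul_assoc]
      exact Nat.le_mul_of_pos_right p (Nat.mul_pos hq.pos hr.pos)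
    have hqX : q ≤ X := hqp.le.trans hpX
    have hrX : r ≤ X := hrq.le.trans hqX
    have m1 : p ∈ I1 := mem_PS hX1' hp hpX (by linarith) hpA
    have m2 : q ∈ I2 p := by
      refine mem_PS hX1' hq hqX ?_ ?_
      · change (1 - A - w p) / 2 * L ≤ Real.log q
        have := hwl p
        nlinarith
      · change Real.log q < w p * L
        rw [hwl p]
        exact hlqp
    have m3 : r ∈ I3 p q := by
      refine mem_PS hX1' hr hrX ?_ ?_
      · change (1 - A - w p - w q) * L ≤ Real.log r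
        have h1 := hwl p
        have h2 := hwl q
        nlinarith
      · change Real.log r < (1 - 2 * w p - w q + ε) * L
        have h1 := hwl p
        have h2 := hwl q
        nlinarith [mul_pos hε0 hL]
    refine Finset.mem_image.mpr ⟨(p, q, r), ?_, hkp.symm⟩
    rw [hP, Finset.mem_filter, Finset.mem_product, Finset.mem_product]
    exact ⟨⟨hPSX _ _ m1, hPSX _ _ m2, hPSX _ _ m3⟩, m1, m2, m3⟩
  have hPs : ∑ t ∈ P, 1 / ((t.1 * t.2.1 * t.2.2 : ℕ) : ℝ) ≤
      ∑ p ∈ I1, 1 / (p : ℝ) * ∑ q ∈ I2 p, 1 / (q : ℝ) * ∑ r ∈ I3 p q, 1 / (r : ℝ) := by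
    have e1 : P = (I1.sigma (fun p => (I2 p).sigma (fun q => I3 p q))).image
        (fun x => (x.1, x.2.1, x.2.2)) := by
      ext ⟨p, q, r⟩
      rw [hP]
      simp only [Finset.mem_filter, Finset.mem_product, Finset.mem_image, Finset.mem_sigma]
      constructor
      · rintro ⟨_, m1, m2, m3⟩
        exact ⟨⟨p, ⟨q, r⟩⟩, ⟨m1, m2, m3⟩, rfl⟩
      · rintro ⟨⟨p', ⟨q', r'⟩⟩, ⟨m1, m2, m3⟩, h⟩
        simp only [Prod.mk.injEq] at h
        obtain ⟨rfl, rfl, rfl⟩ := h
        exact ⟨⟨hPSX _ _ m1, hPSX _ _ m2, hPSX _ _ m3⟩, m1, m2, m3⟩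
    rw [e1]
    refine (sum_image_le' _ _ (fun t : ℕ × ℕ × ℕ => 1 / ((t.1 * t.2.1 * t.2.2 : ℕ) : ℝ))
      fun t => div_nonneg zero_le_one (Nat.cast_nonneg _)).trans (le_of_eq ?_)
    rw [Finset.sum_sigma]
    refine Finset.sum_congr rfl fun p _ => ?_
    rw [Finset.sum_sigma, Finset.mul_sum]
    refine Finset.sum_congr rfl fun q _ => ?_
    simp only
    rw [Finset.mul_sum, Finset.mul_sum]
    refine Finset.sum_congr rfl fun r _ => ?_
    push_cast
    rw [one_div_mul_one_div, one_div_mul_one_div, mul_assoc]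
  -- the bounds
  have h3A : 0 < 1 - 3 * A := by linarith
  have h2A : 0 < 1 - 2 * A := by linarith
  have h1A : 0 < 1 - A := by linarith
  have hB3 : ∀ p ∈ I1, ∀ q ∈ I2 p, ∑ r ∈ I3 p q, 1 / (r : ℝ) ≤
      (A - w p + 2 * ε) / (1 - 3 * A) := by
    intro p hp q hq
    obtain ⟨_, _, p1, p2⟩ := of_mem_PS hX1' hp
    obtain ⟨_, _, q1, q2⟩ := of_mem_PS hX1' hq
    have hp' := hwl p
    have hq' := hwl q
    have wp : w p < A := by
      rw [← hp'] at p2
      exact lt_of_mul_lt_mul_right p2 hL.le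
    have wq : w q < w p := by
      rw [← hq'] at q2
      exact lt_of_mul_lt_mul_right q2 hL.le
    have wp3 : (1 - A) / 3 ≤ w p := by
      rw [← hp'] at p1
      exact le_of_mul_le_mul_right p1 hL
    have wq2 : (1 - A - w p) / 2 ≤ w q := by
      rw [← hq'] at q1
      exact le_of_mul_le_mul_right q1 hL
    have m := hmp (1 - A - w p - w q) (1 - 2 * w p - w q + ε) (by linarith) (by linarith)
    have e1 : 1 - 2 * w p - w q + ε - (1 - A - w p - w q) = A - w p + ε := by ring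
    rw [e1, max_eq_right (by linarith)] at m
    have h5 : (A - w p + ε) / (1 - A - w p - w q) ≤ (A - w p + ε) / (1 - 3 * A) :=
      div_le_div_of_nonneg_left (by linarith) h3A (by linarith)
    have h6 : ε ≤ ε / (1 - 3 * A) := by
      rw [le_div_iff₀ h3A]
      nlinarith
    have h7 : (A - w p + 2 * ε) / (1 - 3 * A) = (A - w p + ε) / (1 - 3 * A) + ε / (1 - 3 * A) := by
      ring
    rw [h7]
    linarith
  have hB2 : ∀ p ∈ I1, ∑ q ∈ I2 p, 1 / (q : ℝ) ≤ (3 * w p - 1 + A + ε) / (1 - 2 * A) := by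
    intro p hp
    obtain ⟨_, _, p1, p2⟩ := of_mem_PS hX1' hp
    have hp' := hwl p
    have wp : w p < A := by
      rw [← hp'] at p2
      exact lt_of_mul_lt_mul_right p2 hL.le
    have wp3 : (1 - A) / 3 ≤ w p := by
      rw [← hp'] at p1
      exact le_of_mul_le_mul_right p1 hL
    have m := hmp ((1 - A - w p) / 2) (w p) (by linarith) (by linarith)
    rw [max_eq_right (by linarith)] at m
    have h5 : (w p - (1 - A - w p) / 2) / ((1 - A - w p) / 2) =
        (3 * w p - 1 + A) / (1 - A - w p) := by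
      have : 1 - A - w p ≠ 0 := by linarith
      field_simp
      ring
    rw [h5] at m
    have h6 : (3 * w p - 1 + A) / (1 - A - w p) ≤ (3 * w p - 1 + A) / (1 - 2 * A) :=
      div_le_div_of_nonneg_left (by linarith) h2A (by linarith)
    have h7 : ε ≤ ε / (1 - 2 * A) := by
      rw [le_div_iff₀ h2A]
      nlinarith
    have h8 : (3 * w p - 1 + A + ε) / (1 - 2 * A) =
        (3 * w p - 1 + A) / (1 - 2 * A) + ε / (1 - 2 * A) := by ring
    rw [h8]
    linarith
  set M : ℝ := (4 * A - 1 + 7 * ε) ^ 2 / (12 * (1 - 2 * A) * (1 - 3 * A)) with hM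
  have hM0 : 0 ≤ M := by
    rw [hM]
    positivity
  have hB23 : ∀ p ∈ I1, ∑ q ∈ I2 p, 1 / (q : ℝ) * ∑ r ∈ I3 p q, 1 / (r : ℝ) ≤ M := by
    intro p hp
    obtain ⟨_, _, p1, p2⟩ := of_mem_PS hX1' hp
    have hp' := hwl p
    have wp : w p < A := by
      rw [← hp'] at p2
      exact lt_of_mul_lt_mul_right p2 hL.le
    have wp3 : (1 - A) / 3 ≤ w p := by
      rw [← hp'] at p1
      exact le_of_mul_le_mul_right p1 hL
    have c0 : 0 ≤ (A - w p + 2 * ε) / (1 - 3 * A) := div_nonneg (by linarith) h3A.le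
    calc ∑ q ∈ I2 p, 1 / (q : ℝ) * ∑ r ∈ I3 p q, 1 / (r : ℝ)
        ≤ ∑ q ∈ I2 p, 1 / (q : ℝ) * ((A - w p + 2 * ε) / (1 - 3 * A)) := by
          refine Finset.sum_le_sum fun q hq => ?_
          exact mul_le_mul_of_nonneg_left (hB3 p hp q hq)
            (div_nonneg zero_le_one (Nat.cast_nonneg q))
      _ = (∑ q ∈ I2 p, 1 / (q : ℝ)) * ((A - w p + 2 * ε) / (1 - 3 * A)) := by
          rw [Finset.sum_mul]
      _ ≤ (3 * w p - 1 + A + ε) / (1 - 2 * A) * ((A - w p + 2 * ε) / (1 - 3 * A)) :=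
          mul_le_mul_of_nonneg_right (hB2 p hp) c0
      _ = (3 * w p - 1 + A + ε) * (A - w p + 2 * ε) / ((1 - 2 * A) * (1 - 3 * A)) := by
          rw [div_mul_div_comm]
      _ ≤ M := by
          rw [hM, div_le_div_iff₀ (by positivity) (by positivity)]
          have h9 : 12 * ((3 * w p - 1 + A + ε) * (A - w p + 2 * ε)) ≤
              (4 * A - 1 + 7 * ε) ^ 2 := by
            nlinarith [sq_nonneg (3 * (A - w p + 2 * ε) - (3 * w p - 1 + A + ε))]
          have h10 : 0 ≤ (1 - 2 * A) * (1 - 3 * A) := by positivity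
          nlinarith
  have hB1 : ∑ p ∈ I1, 1 / (p : ℝ) ≤ (4 * A - 1 + ε) / (1 - A) := by
    have m := hmp ((1 - A) / 3) A (by linarith) (by linarith)
    rw [max_eq_right (by linarith)] at m
    have h5 : (A - (1 - A) / 3) / ((1 - A) / 3) = (4 * A - 1) / (1 - A) := by
      field_simp
      ring
    rw [h5] at m
    have h7 : ε ≤ ε / (1 - A) := by
      rw [le_div_iff₀ h1A]
      nlinarith
    have h8 : (4 * A - 1 + ε) / (1 - A) = (4 * A - 1) / (1 - A) + ε / (1 - A) := by ring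
    rw [h8]
    linarith
  calc ∑ k ∈ K4 X A, 1 / (k : ℝ)
      ≤ ∑ k ∈ P.image (fun t : ℕ × ℕ × ℕ => (t.1 * t.2.1 * t.2.2 : ℕ)), 1 / (k : ℝ) :=
        Finset.sum_le_sum_of_subset_of_nonneg hsub fun k _ _ =>
          div_nonneg zero_le_one (Nat.cast_nonneg k)
    _ ≤ ∑ t ∈ P, 1 / ((t.1 * t.2.1 * t.2.2 : ℕ) : ℝ) :=
        sum_image_le' P (fun t : ℕ × ℕ × ℕ => (t.1 * t.2.1 * t.2.2 : ℕ))
          (fun k : ℕ => 1 / (k : ℝ)) fun k => div_nonneg zero_le_one (Nat.cast_nonneg k)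
    _ ≤ ∑ p ∈ I1, 1 / (p : ℝ) * ∑ q ∈ I2 p, 1 / (q : ℝ) * ∑ r ∈ I3 p q, 1 / (r : ℝ) := hPs
    _ ≤ ∑ p ∈ I1, 1 / (p : ℝ) * M := by
        refine Finset.sum_le_sum fun p hp => ?_
        exact mul_le_mul_of_nonneg_left (hB23 p hp) (div_nonneg zero_le_one (Nat.cast_nonneg p))
    _ = (∑ p ∈ I1, 1 / (p : ℝ)) * M := by rw [Finset.sum_mul]
    _ ≤ (4 * A - 1 + ε) / (1 - A) * M := mul_le_mul_of_nonneg_right hB1 hM0
    _ = (4 * A - 1 + ε) * (4 * A - 1 + 7 * ε) ^ 2 /
          (12 * (1 - A) * (1 - 2 * A) * (1 - 3 * A)) := by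
        rw [hM, div_mul_div_comm]
        congr 1
        ring
    _ ≤ (4 * A - 1 + τ) ^ 3 / (12 * (1 - A) * (1 - 2 * A) * (1 - 3 * A)) := by
        refine div_le_div_of_nonneg_right ?_ (by positivity)
        have h11 : 0 ≤ 4 * A - 1 + ε := by linarith
        have h12 : 4 * A - 1 + ε ≤ 4 * A - 1 + τ := by linarith
        have h13 : 4 * A - 1 + 7 * ε ≤ 4 * A - 1 + τ := by linarith
        have h14 : (4 * A - 1 + 7 * ε) ^ 2 ≤ (4 * A - 1 + τ) ^ 2 :=
          pow_le_pow_left₀ (by linarith) h13 2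
        calc (4 * A - 1 + ε) * (4 * A - 1 + 7 * ε) ^ 2 ≤ (4 * A - 1 + τ) * (4 * A - 1 + τ) ^ 2 :=
              mul_le_mul h12 h14 (by positivity) (by linarith)
          _ = (4 * A - 1 + τ) ^ 3 := by ring

end Pool.MP_dd84fd_nt.IY
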