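import Pool.Agent.Lib.MP_dd84fd_nt.IY.NHb
import Pool.Agent.Lib.MP_dd84fd_nt.IY.NHc
import Pool.Agent.Lib.MP_dd84fd_nt.IY.NLg
import Pool.Agent.Lib.MP_dd84fd_nt.IY.NBd
import Pool.Agent.Lib.MP_dd84fd_nt.IY.CDen

/-!
# Theorem I, numerics for `th ≥ 0.43`: the densities (helper88)

`log n gty W n = W {box of n} + Σ_{k ≥ 2}`; the terms `k ≥ 2` are bounded with `nhc` (values), `S3_sum`, `S4_sum` (sums over `K3`, `K4`) and
`bd_sum`.
-/

set_option autoImplicit false

namespace Pool.MP_dd84fd_nt.IY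

open Finset Pool.MP_67663b_nt.Odd Pool.MP_dd84fd_nt.En Pool.MP_dd84fd_nt.E2 Pool.MP_dd84fd_nt.HX

/-- `P3` numbers are in `K3` -/
theorem mem_K3 {α β A : ℝ} {X n k : ℕ} (hk1 : 1 ≤ k) (hkX : k ≤ X) (hsq : Squarefree k)
    (hP : P3 α β X n k) (hA : α * Real.log X + 1 < A * Real.log X) : k ∈ K3 X A := by
  classical
  obtain ⟨h1, h2, h3, _⟩ := hP
  obtain ⟨p, q, hpq, hpf⟩ := Finset.card_eq_two.mp h1
  have hprod : ∏ p ∈ k.primeFactors, p = k := Nat.prod_primeFactors_of_squarefree hsq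
  rw [hpf, Finset.prod_pair hpq] at hprod
  have hpm : p ∈ k.primeFactors := by rw [hpf]; simp
  have hqm : q ∈ k.primeFactors := by rw [hpf]; simp
  have hp := Nat.prime_of_mem_primeFactors hpm
  have hq := Nat.prime_of_mem_primeFactors hqm
  unfold K3
  rw [Finset.mem_filter]
  refine ⟨Finset.mem_Icc.mpr ⟨hk1, hkX⟩, ?_⟩
  rcases lt_or_gt_of_ne hpq with h | h
  · exact ⟨q, p, hq, hp, h, by rw [← hprod, mul_comm], lt_of_le_of_lt (h2 q hqm) hA, h3⟩
  · exact ⟨p, q, hp, hq, h, hprod.symm, lt_of_le_of_lt (h2 p hpm) hA, h3⟩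

/-- three elements in decreasing order -/
theorem sort_three {S : Finset ℕ} (h3 : S.card = 3) : ∃ p q r : ℕ, S = {p, q, r} ∧ q < p ∧
    r < q := by
  classical
  obtain ⟨x, y, z, hxy, hxz, hyz, rfl⟩ := Finset.card_eq_three.mp h3
  rcases lt_or_gt_of_ne hxy with h1 | h1 <;> rcases lt_or_gt_of_ne hxz with h2 | h2 <;>
    rcases lt_or_gt_of_ne hyz with h4 | h4
  · exact ⟨z, y, x, by ext j; simp; tauto, h4, h1⟩
  · exact ⟨y, z, x, by ext j; simp; tauto, h4, h2⟩
  · omega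
  · exact ⟨y, x, z, by ext j; simp; tauto, h1, h2⟩
  · exact ⟨z, x, y, by ext j; simp; tauto, h2, h1⟩
  · omega
  · exact ⟨x, z, y, by ext j; simp; tauto, h2, h4⟩
  · exact ⟨x, y, z, by ext j; simp, h1, h4⟩

/-- `P4` numbers are in `K4` -/
theorem mem_K4 {α A : ℝ} {X n k : ℕ} (hk1 : 1 ≤ k) (hkX : k ≤ X) (hn1 : 1 ≤ n) (hnX : n ≤ X)
    (hsq : Squarefree k) (hP : P4 α X n k) (hA : α * Real.log X + 1 < A * Real.log X)
    (hle : ∀ p ∈ k.primeFactors, (p : ℝ) ≤ (n : ℝ) / k)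
    (hlow : (1 - A) * Real.log X ≤ Real.log n - (α * Real.log X + 1)) : k ∈ K4 X A := by
  classical
  obtain ⟨h1, h2, h3⟩ := hP
  obtain ⟨p, q, r, hpf, hqp, hrq⟩ := sort_three h1
  have hprod : ∏ p ∈ k.primeFactors, p = k := Nat.prod_primeFactors_of_squarefree hsq
  have hpq : p ≠ q := hqp.ne'
  have hpr : p ≠ r := (hrq.trans hqp).ne'
  have hqr : q ≠ r := hrq.ne'
  rw [hpf, Finset.prod_insert (by simp [hpq, hpr]), Finset.prod_pair hqr] at hprod
  have hpm : p ∈ k.primeFactors := by rw [hpf]; simp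
  have hqm : q ∈ k.primeFactors := by rw [hpf]; simp
  have hrm : r ∈ k.primeFactors := by rw [hpf]; simp
  have hp := Nat.prime_of_mem_primeFactors hpm
  have hq := Nat.prime_of_mem_primeFactors hqm
  have hr := Nat.prime_of_mem_primeFactors hrm
  have hk0 : (0 : ℝ) < k := by exact_mod_cast hk1
  have hn0 : (0 : ℝ) < n := by exact_mod_cast hn1
  have hp0 : (0 : ℝ) < p := by exact_mod_cast hp.pos
  have hlnk : Real.log ((n : ℝ) / k) = Real.log n - Real.log k := Real.log_div hn0.ne' hk0.ne'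
  unfold K4
  rw [Finset.mem_filter]
  refine ⟨Finset.mem_Icc.mpr ⟨hk1, hkX⟩, p, q, r, hp, hq, hr, hqp, hrq, ?_,
    lt_of_le_of_lt (h2 p hpm) hA, ?_, ?_⟩
  · rw [← hprod, mul_assoc]
  · rw [hlnk] at h3
    linarith
  · have h4 := Real.log_le_log hp0 (hle p hpm)
    rw [hlnk] at h4
    have h5 : Real.log n ≤ Real.log X := Real.log_le_log hn0 (by exact_mod_cast hnX)
    linarith

open Classical in
/-- one side, for a family `W` -/
theorem NHd_side (α β ρ A τ c3 c4 g : ℝ) (hα0 : 0 < α) (hαA : α < A) (hA : 1 / 4 < A)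
    (hA2 : A ≤ 3 / 10) (hρ : 0 < ρ) (hρβ : ρ < β) (hτ : 0 < τ) (hc3 : 0 ≤ c3) (hc4 : 0 ≤ c4)
    (hg : c3 / ρ * (9 / 2 * (A - 1 / 4) ^ 2 / (1 / 2 - A)) +
      4 * c4 * ((4 * A - 1 + τ) ^ 3 / (12 * (1 - A) * (1 - 2 * A) * (1 - 3 * A))) < g)
    (B' : ℕ) (hB : 1 ≤ B') :
    ∃ X0 : ℕ, ∀ X : ℕ, X0 ≤ X → ∀ W : Finset ℕ → ℝ, ∀ n : ℕ, X5 X < n → n ≤ X →
      (∀ k : ℕ, 2 ≤ k →
        Simp (kp B' X) (zt X) k → (zt X : ℝ) ≤ (n : ℝ) / k →
        (∀ j ∈ ty (kp B' X) (zt X) k, j < bx (kp B' X) (zt X) ((n : ℝ) / k)) →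
        W (insert (bx (kp B' X) (zt X) ((n : ℝ) / k)) (ty (kp B' X) (zt X) k)) ≤
          c3 * (if P3 α β X n k then 1 else 0) + c4 * (if P4 α X n k then 1 else 0) +
            2 ^ 25 * nbd X k) →
      Real.log n * gty (kp B' X) X W n ≤
        W (insert (bx (kp B' X) (zt X) ((n : ℝ) / (1 : ℕ))) (ty (kp B' X) (zt X) 1)) + g := by
  obtain ⟨X1, hl⟩ := log_one ⟨20, 0, 0, fun _ _ => 0⟩ (by norm_num) B'
  set δ := g - (c3 / ρ * (9 / 2 * (A - 1 / 4) ^ 2 / (1 / 2 - A)) +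
      4 * c4 * ((4 * A - 1 + τ) ^ 3 / (12 * (1 - A) * (1 - 2 * A) * (1 - 3 * A)))) with hδ
  have hδ0 : 0 < δ := by linarith
  have hcρ : 0 ≤ c3 / ρ := div_nonneg hc3 hρ.le
  obtain ⟨X2, hS3⟩ := S3_sum A (δ / (4 * (c3 / ρ + 1))) hA hA2 (by positivity)
  obtain ⟨X2', hS4⟩ := S4_sum A τ hA hA2 hτ
  obtain ⟨X3, hb⟩ := bd_sum (δ / 2 ^ 31) (by positivity)
  obtain ⟨X4, h5⟩ := X5_ge
  obtain ⟨X6, hz6⟩ := zt_log
  have hcm : 0 < min (A - α) (β - ρ) := lt_min (by linarith) (by linarith)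
  obtain ⟨X7, h7⟩ := nhc_big _ hcm B' hB
  refine ⟨X1 + X2 + X2' + X3 + X4 + X6 + X7 + 1, fun X hX W n hn1 hn2 hW => ?_⟩
  obtain ⟨b1, b2, b3, b4, b5, b6, b7, b8, b9⟩ := h7 X (by omega)
  set κ := kp B' X with hκ
  set z := zt X with hz
  set L := Real.log (X : ℝ) with hL
  obtain ⟨h51, -⟩ := h5 X (by omega)
  have hz2' : (2 : ℝ) ≤ zt X := by exact_mod_cast b4
  have hnz : (zt X : ℝ) ≤ n := by linarith
  have hlogn : 0 < Real.log (n : ℝ) := Real.log_pos (by linarith)
  have hlogn' : 0 ≤ Real.log (n : ℝ) := hlogn.le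
  have hL0 : 0 < L := by linarith
  have hXR : (0 : ℝ) < X := by exact_mod_cast b1
  have hn0 : (0 : ℝ) < n := by linarith
  have hnn1 : 1 ≤ n := by
    have : (0 : ℝ) < n := hn0
    exact_mod_cast this
  have hnL : Real.log n ≤ L := Real.log_le_log hn0 (by exact_mod_cast hn2)
  have hnlow : L - 5 * Real.log L ≤ Real.log n := by
    have h6 : Real.log (X5 X) ≤ Real.log n :=
      Real.log_le_log (div_pos hXR (pow_pos hL0 5)) hn1.le
    unfold X5 at h6
    rw [Real.log_div hXR.ne' (pow_pos hL0 5).ne', Real.log_pow] at h6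
    push_cast at h6
    exact h6
  have hm1 : min (A - α) (β - ρ) * L ≤ (A - α) * L :=
    mul_le_mul_of_nonneg_right (min_le_left _ _) hL0.le
  have hm2 : min (A - α) (β - ρ) * L ≤ (β - ρ) * L :=
    mul_le_mul_of_nonneg_right (min_le_right _ _) hL0.le
  have hAL : α * L + 1 < A * L := by linarith
  have hlow : (1 - A) * L ≤ Real.log n - (α * L + 1) ∨ True := Or.inr trivial
  set K : Finset ℕ := (Icc 2 X).filter (fun k : ℕ => Simp κ z k ∧ (z : ℝ) ≤ (n : ℝ) / k ∧
    ∀ j ∈ ty κ z k, j < bx κ z ((n : ℝ) / k)) with hK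
  have hbd := hb X (by omega)
  have hS3' := hS3 X (by omega)
  have hS4' := hS4 X (by omega)
  have hterm : ∀ k ∈ Icc 2 X, Real.log n * (vty κ z W ((n : ℝ) / k) k /
      (k * Real.log ((n : ℝ) / k))) ≤
      c3 / ρ * (if k ∈ K3 X A then 1 / (k : ℝ) else 0) +
      4 * c4 * (if k ∈ K4 X A then 1 / (k : ℝ) else 0) + 2 ^ 29 * (rg z k * nbd X k / k) := by
    intro k hk
    have hk2' : 2 ≤ k := (Finset.mem_Icc.1 hk).1
    have hkX : k ≤ X := (Finset.mem_Icc.1 hk).2
    have hk1 : 1 ≤ k := by omega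
    have hk0 : (0 : ℝ) < k := by exact_mod_cast hk1
    have hi3 : (0 : ℝ) ≤ (if k ∈ K3 X A then 1 / (k : ℝ) else 0) := by
      split_ifs <;> positivity
    have hi4 : (0 : ℝ) ≤ (if k ∈ K4 X A then 1 / (k : ℝ) else 0) := by
      split_ifs <;> positivity
    by_cases hkK : k ∈ K
    · rw [hK, Finset.mem_filter] at hkK
      obtain ⟨-, hk2, hk3, hk4⟩ := hkK
      have hv : vty κ z W ((n : ℝ) / k) k =
          W (insert (bx κ z ((n : ℝ) / k)) (ty κ z k)) := by
        unfold vty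
        rw [if_pos ⟨hk2, hk3, hk4⟩]
      have hrg : rg z k = 1 := by
        unfold rg
        rw [if_pos hk2.1]
      rw [hv, hrg]
      have hW' := hW k hk2' hk2 hk3 hk4
      obtain ⟨-, hlk, -, hr2⟩ := hl X (by omega) n k hn1 hn2 hk1 hk2 hk3 hk4
      set V := W (insert (bx κ z ((n : ℝ) / k)) (ty κ z k)) with hVd
      set r := Real.log n / Real.log ((n : ℝ) / k) with hr
      have hr0 : 0 ≤ r := div_nonneg hlogn' hlk.le
      have e : Real.log n * (V / (k * Real.log ((n : ℝ) / k))) = r * V / k := by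
        rw [hr]
        field_simp
      rw [e]
      have hsq : Squarefree k := hk2.2.1
      have hz1 : 1 ≤ z := by omega
      have hple : ∀ p ∈ k.primeFactors, (p : ℝ) ≤ (n : ℝ) / k := fun p hp =>
        n_le b7 hz1 hk2 hk3 hk4 hp
      have hnb : (0 : ℝ) ≤ nbd X k := Nat.cast_nonneg _
      have hB2 : r * (2 ^ 25 * (nbd X k : ℝ)) ≤ 2 ^ 29 * (nbd X k : ℝ) := by
        have := mul_le_mul_of_nonneg_right hr2 (show (0 : ℝ) ≤ 2 ^ 25 * (nbd X k : ℝ) by positivity)
        linarith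
      have hlnk : Real.log ((n : ℝ) / k) = Real.log n - Real.log k :=
        Real.log_div hn0.ne' hk0.ne'
      -- the weights
      have hA3 : r * (c3 * (if P3 α β X n k then 1 else 0)) ≤
          c3 / ρ * (if k ∈ K3 X A then 1 else 0) := by
        by_cases h3 : P3 α β X n k
        · rw [if_pos h3, if_pos (mem_K3 hk1 hkX hsq h3 hAL), mul_one, mul_one]
          have h8 : ρ * L ≤ Real.log ((n : ℝ) / k) := by
            have := h3.2.2.2
            linarith
          have h9 : r ≤ 1 / ρ := by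
            rw [hr, div_le_div_iff₀ hlk hρ]
            nlinarith
          calc r * c3 ≤ 1 / ρ * c3 := mul_le_mul_of_nonneg_right h9 hc3
            _ = c3 / ρ := by ring
        · rw [if_neg h3, mul_zero, mul_zero]
          split_ifs <;> linarith
      have hA4 : r * (c4 * (if P4 α X n k then 1 else 0)) ≤
          4 * c4 * (if k ∈ K4 X A then 1 else 0) := by
        by_cases h4 : P4 α X n k
        · have h9 : r ≤ 4 := by
            rw [hr, div_le_iff₀ hlk]
            have h10 : Real.log k ≤ 3 * Real.log ((n : ℝ) / k) := by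
              rw [n_logk hsq]
              calc ∑ p ∈ k.primeFactors, Real.log (p : ℝ)
                  ≤ ∑ p ∈ k.primeFactors, Real.log ((n : ℝ) / k) := by
                    refine Finset.sum_le_sum fun p hp => ?_
                    have hp0 : (0 : ℝ) < p := by
                      exact_mod_cast (Nat.prime_of_mem_primeFactors hp).pos
                    exact Real.log_le_log hp0 (hple p hp)
                _ = 3 * Real.log ((n : ℝ) / k) := by
                    rw [Finset.sum_const, h4.1, nsmul_eq_mul]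
                    norm_num
            linarith
          have hmem : k ∈ K4 X A := mem_K4 hk1 hkX hnn1 hn2 hsq h4 hAL hple (by linarith)
          rw [if_pos h4, if_pos hmem, mul_one, mul_one]
          exact mul_le_mul_of_nonneg_right h9 hc4
        · rw [if_neg h4, mul_zero, mul_zero]
          split_ifs <;> linarith
      have h5 : r * V ≤ c3 / ρ * (if k ∈ K3 X A then 1 else 0) +
          4 * c4 * (if k ∈ K4 X A then 1 else 0) + 2 ^ 29 * (nbd X k : ℝ) := by
        refine (mul_le_mul_of_nonneg_left hW' hr0).trans ?_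
        rw [mul_add, mul_add]
        exact add_le_add (add_le_add hA3 hA4) hB2
      have h6 := div_le_div_of_nonneg_right h5 hk0.le
      refine h6.trans (le_of_eq ?_)
      split_ifs <;> ring
    · have hv : vty κ z W ((n : ℝ) / k) k = 0 := by
        unfold vty
        rw [if_neg]
        intro hcon
        apply hkK
        rw [hK, Finset.mem_filter]
        exact ⟨hk, hcon⟩
      rw [hv, zero_div, mul_zero]
      have h7 : 0 ≤ rg z k := by
        unfold rg
        split_ifs <;> norm_num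
      positivity
  have hsplit : Icc 1 X = insert 1 (Icc 2 X) := by
    ext k
    simp only [Finset.mem_Icc, Finset.mem_insert]
    omega
  have h1n : (1 : ℕ) ∉ Icc 2 X := by
    simp
  have hg2 : gty κ X W n =
      vty κ z W ((n : ℝ) / (1 : ℕ)) 1 / ((1 : ℕ) * Real.log ((n : ℝ) / (1 : ℕ))) +
      ∑ k ∈ Icc 2 X, vty κ z W ((n : ℝ) / k) k / (k * Real.log ((n : ℝ) / k)) := by
    unfold gty
    rw [if_pos ⟨hn1, hn2⟩, hsplit, Finset.sum_insert h1n]
  have hsimp : Simp κ z 1 := by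
    refine ⟨⟨one_ne_zero, ?_⟩, squarefree_one, ?_⟩
    · intro p hp
      simp at hp
    · intro p hp
      simp at hp
  have hty : ty κ z 1 = ∅ := by
    unfold ty
    simp
  have hone : Real.log n * (vty κ z W ((n : ℝ) / (1 : ℕ)) 1 /
      ((1 : ℕ) * Real.log ((n : ℝ) / (1 : ℕ)))) =
      W (insert (bx κ z ((n : ℝ) / (1 : ℕ))) (ty κ z 1)) := by
    unfold vty
    rw [if_pos ⟨hsimp, by rw [Nat.cast_one, div_one]; exact hnz, by
      rw [hty]
      intro j hj
      simp at hj⟩]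
    rw [Nat.cast_one, div_one, one_mul]
    field_simp
  rw [hg2, mul_add, hone, Finset.mul_sum]
  refine add_le_add le_rfl ?_
  refine (Finset.sum_le_sum hterm).trans ?_
  rw [Finset.sum_add_distrib, Finset.sum_add_distrib, ← Finset.mul_sum, ← Finset.mul_sum,
    ← Finset.mul_sum]
  have hkk : ∀ S : Finset ℕ, (∀ k ∈ S, True) →
      ∑ k ∈ Icc 2 X, (if k ∈ S then 1 / (k : ℝ) else 0) ≤ ∑ k ∈ S, 1 / (k : ℝ) := by
    intro S _
    rw [← Finset.sum_filter]
    refine Finset.sum_le_sum_of_subset_of_nonneg (fun k hk => (Finset.mem_filter.mp hk).2)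
      fun k _ _ => div_nonneg zero_le_one (Nat.cast_nonneg k)
  have k3 := (hkk (K3 X A) fun _ _ => trivial).trans hS3'
  have k4 := (hkk (K4 X A) fun _ _ => trivial).trans hS4'
  have hsub : ∑ k ∈ Icc 2 X, rg z k * nbd X k / (k : ℝ) ≤
      ∑ k ∈ Icc 1 X, rg z k * nbd X k / (k : ℝ) := by
    refine Finset.sum_le_sum_of_subset_of_nonneg ?_ fun k _ _ => ?_
    · rw [hsplit]
      exact Finset.subset_insert _ _
    · have h7 : 0 ≤ rg z k := by
        unfold rg
        split_ifs <;> norm_num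
      positivity
  have h8 : (2 : ℝ) ^ 29 * ∑ k ∈ Icc 2 X, rg z k * nbd X k / (k : ℝ) ≤ δ / 4 := by
    have h9 := hsub.trans hbd
    have h10 := mul_le_mul_of_nonneg_left h9 (show (0 : ℝ) ≤ 2 ^ 29 by norm_num)
    have h11 : (2 : ℝ) ^ 29 * (δ / 2 ^ 31) = δ / 4 := by ring
    linarith
  have h12 := mul_le_mul_of_nonneg_left k3 hcρ
  have h13 := mul_le_mul_of_nonneg_left k4 (show 0 ≤ 4 * c4 by positivity)
  have h14 : c3 / ρ * (δ / (4 * (c3 / ρ + 1))) ≤ δ / 4 := by
    have h15 : c3 / ρ * (δ / (4 * (c3 / ρ + 1))) = c3 / ρ / (c3 / ρ + 1) * (δ / 4) := by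
      have : c3 / ρ + 1 ≠ 0 := by positivity
      field_simp
    rw [h15]
    have h16 : c3 / ρ / (c3 / ρ + 1) ≤ 1 := by
      rw [div_le_one (by positivity)]
      linarith
    calc c3 / ρ / (c3 / ρ + 1) * (δ / 4) ≤ 1 * (δ / 4) :=
          mul_le_mul_of_nonneg_right h16 (by positivity)
      _ = δ / 4 := one_mul _
  rw [mul_add] at h12
  linarith

end Pool.MP_dd84fd_nt.IY
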