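import Pool.Agent.Lib.MP_dd84fd_nt.IY.NDefs
import Pool.Agent.Lib.MP_dd84fd_nt.E2.PiSW

/-!
# IY-NMe (0.6 h): Mertens from the prime number theorem, uniform upper bound

Proof. `M t = #{p ≤ t} - Li t`; `pi_sw (A := 5) (B := 1)` with `r = 1`, `c = 0` (or `1`), at the scale `X' = t`: `|M t| ≤ t/(log t)^5 ≤ 20^5 t/L^5 ≤ t/(8 L^3)` for integers `X^(1/20)/2 ≤ t ≤ X` (`log t ≥ L/21`; adjust constants). `N1 = ⌈y1⌉ - 1`, `N2 = ⌈y2⌉ - 1`: the primes are in `Ioc N1 N2`.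
`Σ_{m ∈ Ioc N1 N2} (1_P(m) - 1/log m)/m = Σ (M m - M (m-1))/m = M N2/N2 - M N1/(N1+1) + Σ_{N1 < m < N2} M m (1/m - 1/(m+1))`, in absolute value `≤ (1/(8 L^3))(2 + Σ 1/(m+1)) ≤ 1/(2 L^2)`.
`Σ_{m ∈ Ioc N1 N2} 1/(m log m)`: first term `≤ 1/y1`; for `m ≥ ⌈y1⌉ + 1`: `1/(m log m) ≤ log log m - log log (m-1)` (derivative `1/(u log u)` decreasing; mean value theorem or `AntitoneOn.sum_le_integral`), telescoping: `≤ log log y2 - log log y1 = log (log y2/log y1)`.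
-/

set_option autoImplicit false

namespace Pool.MP_dd84fd_nt.IY

open Finset Pool.MP_67663b_nt.Odd Pool.MP_dd84fd_nt.En Pool.MP_dd84fd_nt.E2 Pool.MP_dd84fd_nt.HX

private theorem NMe_log {x y : ℝ} (hx : 0 < x) (hy : 0 < y) :
    (x - y) / x ≤ Real.log x - Real.log y := by
  have h := Real.log_le_sub_one_of_pos (div_pos hy hx)
  rw [Real.log_div hy.ne' hx.ne'] at h
  have h2 : (x - y) / x = 1 - y / x := by field_simp
  linarith

private theorem NMe_term (m : ℕ) (hm : 2 ≤ m) :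
    1 / (((m + 1 : ℕ) : ℝ) * Real.log ((m + 1 : ℕ) : ℝ)) ≤
      Real.log (Real.log ((m + 1 : ℕ) : ℝ)) - Real.log (Real.log (m : ℝ)) := by
  have hm2 : (2 : ℝ) ≤ (m : ℝ) := by exact_mod_cast hm
  have h1 : 0 < Real.log (m : ℝ) := Real.log_pos (by linarith)
  have h2 : 0 < Real.log ((m + 1 : ℕ) : ℝ) := Real.log_pos (by push_cast; linarith)
  have h3 := NMe_log h2 h1
  have h4 : (((m + 1 : ℕ) : ℝ) - (m : ℝ)) / ((m + 1 : ℕ) : ℝ) ≤
      Real.log ((m + 1 : ℕ) : ℝ) - Real.log (m : ℝ) :=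
    NMe_log (by positivity) (by linarith)
  have h5 : (((m + 1 : ℕ) : ℝ) - (m : ℝ)) = 1 := by push_cast; ring
  rw [h5] at h4
  refine le_trans ?_ h3
  rw [← div_div]
  exact div_le_div_of_nonneg_right h4 h2.le

private theorem NMe_ll (N0 N : ℕ) (h0 : 2 ≤ N0) (h : N0 ≤ N) :
    ∑ m ∈ Ioc N0 N, 1 / ((m : ℝ) * Real.log (m : ℝ)) ≤
      Real.log (Real.log (N : ℝ)) - Real.log (Real.log (N0 : ℝ)) := by
  induction N, h using Nat.le_induction with
  | base => simp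
  | succ N hN ih =>
    rw [Finset.sum_Ioc_succ_top hN]
    have := NMe_term N (h0.trans hN)
    linarith

private theorem NMe_harm (N0 N : ℕ) (h0 : 1 ≤ N0) (h : N0 ≤ N) :
    ∑ m ∈ Ioc N0 N, 1 / ((m : ℝ) + 1) ≤ Real.log ((N : ℝ) + 1) - Real.log ((N0 : ℝ) + 1) := by
  induction N, h using Nat.le_induction with
  | base => simp
  | succ N hN ih =>
    rw [Finset.sum_Ioc_succ_top hN]
    have h1 : (((N + 1 : ℕ) : ℝ) + 1 - ((N : ℝ) + 1)) / (((N + 1 : ℕ) : ℝ) + 1) ≤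
        Real.log (((N + 1 : ℕ) : ℝ) + 1) - Real.log ((N : ℝ) + 1) :=
      NMe_log (by positivity) (by positivity)
    have h5 : (((N + 1 : ℕ) : ℝ) + 1 - ((N : ℝ) + 1)) = 1 := by push_cast; ring
    rw [h5] at h1
    linarith

private theorem NMe_abel (M : ℕ → ℝ) (N0 N : ℕ) (h : N0 ≤ N) :
    ∑ m ∈ Ioc N0 N, (M m - M (m - 1)) / (m : ℝ) =
      M N / ((N : ℝ) + 1) - M N0 / ((N0 : ℝ) + 1) +
        ∑ m ∈ Ioc N0 N, M m * (1 / (m : ℝ) - 1 / ((m : ℝ) + 1)) := by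
  induction N, h using Nat.le_induction with
  | base => simp
  | succ N hN ih =>
    rw [Finset.sum_Ioc_succ_top hN, Finset.sum_Ioc_succ_top hN, ih, Nat.add_sub_cancel]
    push_cast
    ring

private theorem NMe_abel_le (M : ℕ → ℝ) (N0 N : ℕ) (h0 : 1 ≤ N0) (h : N0 ≤ N) (e : ℝ) (he : 0 ≤ e)
    (hM : ∀ m, N0 ≤ m → m ≤ N → |M m| ≤ e * m) :
    ∑ m ∈ Ioc N0 N, (M m - M (m - 1)) / (m : ℝ) ≤ e * (2 + Real.log ((N : ℝ) + 1)) := by
  rw [NMe_abel M N0 N h]
  have h1 : M N / ((N : ℝ) + 1) ≤ e := by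
    have := (le_abs_self _).trans (hM N h le_rfl)
    rw [div_le_iff₀ (by positivity)]
    nlinarith
  have h2 : -(M N0 / ((N0 : ℝ) + 1)) ≤ e := by
    have := (neg_le_abs _).trans (hM N0 le_rfl h)
    rw [← neg_div, div_le_iff₀ (by positivity)]
    nlinarith
  have h3 : ∑ m ∈ Ioc N0 N, M m * (1 / (m : ℝ) - 1 / ((m : ℝ) + 1)) ≤
      ∑ m ∈ Ioc N0 N, e * (1 / ((m : ℝ) + 1)) := by
    refine Finset.sum_le_sum fun m hm => ?_
    rw [Finset.mem_Ioc] at hm
    have hm0 : (0 : ℝ) < (m : ℝ) := by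
      have : 0 < m := by omega
      exact_mod_cast this
    have h4 := (le_abs_self _).trans (hM m hm.1.le hm.2)
    have h5 : (1 / (m : ℝ) - 1 / ((m : ℝ) + 1)) = 1 / (m * ((m : ℝ) + 1)) := by
      field_simp
      ring
    rw [h5]
    calc M m * (1 / (m * ((m : ℝ) + 1))) ≤ (e * m) * (1 / (m * ((m : ℝ) + 1))) :=
          mul_le_mul_of_nonneg_right h4 (by positivity)
      _ = e * (1 / ((m : ℝ) + 1)) := by field_simp
  rw [← Finset.mul_sum] at h3
  have h6 := NMe_harm N0 N h0 h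
  have h7 : 0 ≤ Real.log ((N0 : ℝ) + 1) := Real.log_nonneg (by linarith [Nat.cast_nonneg (α := ℝ) N0])
  have h8 : e * ∑ m ∈ Ioc N0 N, 1 / ((m : ℝ) + 1) ≤ e * Real.log ((N : ℝ) + 1) :=
    mul_le_mul_of_nonneg_left (by linarith) he
  linarith

theorem mert_up : ∃ X0 : ℕ, ∀ X : ℕ, X0 ≤ X → ∀ y1 y2 : ℝ, (X : ℝ) ^ (1 / 20 : ℝ) ≤ y1 →
    y1 ≤ y2 → y2 ≤ X →
    ∑ p ∈ (Icc 1 X).filter (fun p : ℕ => p.Prime ∧ y1 ≤ (p : ℝ) ∧ (p : ℝ) < y2), 1 / (p : ℝ) ≤
      Real.log (Real.log y2 / Real.log y1) + 1 / (Real.log X) ^ 2 := by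
  classical
  obtain ⟨T0, hT0⟩ := pi_sw 5 1
  have hloglim : Filter.Tendsto (fun X : ℕ => Real.log (X : ℝ)) Filter.atTop Filter.atTop :=
    Real.tendsto_log_atTop.comp tendsto_natCast_atTop_atTop
  have hpow : ∀ᶠ X : ℕ in Filter.atTop, (Real.log (X : ℝ)) ^ 2 * 2 ≤ (X : ℝ) ^ (1 / 20 : ℝ) := by
    have h1 : (fun x : ℝ => Real.log x ^ (2 : ℝ)) =o[Filter.atTop]
        fun x : ℝ => x ^ (1 / 20 : ℝ) := isLittleO_log_rpow_rpow_atTop _ (by norm_num)
    have h2 := h1.bound (show (0 : ℝ) < 1 / 2 by norm_num)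
    have h3 : ∀ᶠ x : ℝ in Filter.atTop, Real.log x ^ 2 * 2 ≤ x ^ (1 / 20 : ℝ) := by
      filter_upwards [h2, Filter.eventually_ge_atTop (1 : ℝ)] with x hx hx1
      have h4 : 0 ≤ Real.log x := Real.log_nonneg hx1
      rw [Real.norm_of_nonneg (by positivity), Real.norm_of_nonneg (by positivity)] at hx
      have h5 : Real.log x ^ (2 : ℝ) = Real.log x ^ 2 := by
        rw [← Real.rpow_natCast]; norm_num
      rw [h5] at hx
      linarith
    exact tendsto_natCast_atTop_atTop.eventually h3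
  have hbig : ∀ᶠ X : ℕ in Filter.atTop, 2 * ((T0 : ℝ) + 5) ≤ (X : ℝ) ^ (1 / 20 : ℝ) := by
    have h1 : Filter.Tendsto (fun x : ℝ => x ^ (1 / 20 : ℝ)) Filter.atTop Filter.atTop :=
      tendsto_rpow_atTop (by norm_num)
    exact (h1.comp tendsto_natCast_atTop_atTop).eventually_ge_atTop _
  obtain ⟨X0, hX0⟩ := Filter.eventually_atTop.1
    (hpow.and (hbig.and (hloglim.eventually_ge_atTop 6000)))
  refine ⟨X0 + 2, fun X hX y1 y2 hy1 hy12 hy2 => ?_⟩
  obtain ⟨hP, hB, hL⟩ := hX0 X (by omega)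
  set L := Real.log (X : ℝ) with hLd
  set Y : ℝ := (X : ℝ) ^ (1 / 20 : ℝ) with hY
  have hX1 : (1 : ℝ) ≤ (X : ℝ) := by
    have : 1 ≤ X := by omega
    exact_mod_cast this
  have hT0' : (0 : ℝ) ≤ (T0 : ℝ) := by positivity
  have hY10 : (10 : ℝ) ≤ Y := by linarith
  have hlogY : Real.log Y = L / 20 := by
    rw [hY, Real.log_rpow (by linarith)]
    ring
  have hy1pos : 0 < y1 := by linarith
  have hy2pos : 0 < y2 := by linarith
  have hly1 : L / 20 ≤ Real.log y1 := by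
    rw [← hlogY]
    exact Real.log_le_log (by linarith) hy1
  have hly12 : Real.log y1 ≤ Real.log y2 := Real.log_le_log hy1pos hy12
  set N1 : ℕ := ⌈y1⌉₊ - 1 with hN1
  set N2 : ℕ := ⌈y2⌉₊ - 1 with hN2
  have hc1 : 1 ≤ ⌈y1⌉₊ := Nat.one_le_ceil_iff.2 hy1pos
  have hc2 : 1 ≤ ⌈y2⌉₊ := Nat.one_le_ceil_iff.2 hy2pos
  have hN1' : N1 + 1 = ⌈y1⌉₊ := by omega
  have hN2' : N2 + 1 = ⌈y2⌉₊ := by omega
  have hN12 : N1 ≤ N2 := by
    have := Nat.ceil_mono hy12
    omega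
  have hN1y : y1 ≤ ((N1 + 1 : ℕ) : ℝ) := by rw [hN1']; exact Nat.le_ceil _
  have hN2y : (N2 : ℝ) < y2 := by
    have h1 : N2 < ⌈y2⌉₊ := by omega
    exact Nat.lt_ceil.1 h1
  have hN2X : N2 + 1 ≤ X := by
    rw [hN2', Nat.ceil_le]
    exact hy2
  have hN1Y : Y / 2 ≤ (N1 : ℝ) := by
    have h1 : y1 ≤ (N1 : ℝ) + 1 := by
      have := hN1y
      push_cast at this
      exact this
    linarith
  have hN1b : 5 ≤ N1 := by
    have : (5 : ℝ) ≤ (N1 : ℝ) := by linarith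
    exact_mod_cast this
  -- the logarithmic integral
  have hll : ∑ m ∈ Ioc N1 N2, 1 / ((m : ℝ) * Real.log (m : ℝ)) ≤
      Real.log (Real.log y2 / Real.log y1) + 1 / y1 := by
    have hr0 : 0 ≤ Real.log (Real.log y2 / Real.log y1) := by
      apply Real.log_nonneg
      rw [le_div_iff₀ (by linarith), one_mul]
      exact hly12
    rcases Nat.eq_or_lt_of_le hN12 with h | h
    · rw [← h, Finset.Ioc_self, Finset.sum_empty]
      positivity
    · rw [← Finset.sum_Ioc_consecutive _ (Nat.le_succ N1) h]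
      have h1 : ∑ m ∈ Ioc N1 (N1 + 1), 1 / ((m : ℝ) * Real.log (m : ℝ)) ≤ 1 / y1 := by
        rw [Finset.sum_Ioc_succ_top le_rfl, Finset.Ioc_self, Finset.sum_empty, zero_add]
        apply one_div_le_one_div_of_le hy1pos
        have h2 : Real.log y1 ≤ Real.log ((N1 + 1 : ℕ) : ℝ) := Real.log_le_log hy1pos hN1y
        have h3 : (1 : ℝ) ≤ Real.log ((N1 + 1 : ℕ) : ℝ) := by linarith
        have h4 : (0 : ℝ) ≤ ((N1 + 1 : ℕ) : ℝ) := by positivity
        nlinarith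
      have h2 := NMe_ll (N1 + 1) N2 (by omega) h
      have h3 : Real.log (Real.log (N2 : ℝ)) ≤ Real.log (Real.log y2) := by
        have h5 : (6 : ℝ) ≤ (N2 : ℝ) := by
          have : 6 ≤ N2 := by omega
          exact_mod_cast this
        exact Real.log_le_log (Real.log_pos (by linarith))
          (Real.log_le_log (by linarith) hN2y.le)
      have h4 : Real.log (Real.log y1) ≤ Real.log (Real.log ((N1 + 1 : ℕ) : ℝ)) :=
        Real.log_le_log (by linarith) (Real.log_le_log hy1pos hN1y)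
      rw [Real.log_div (by linarith) (by linarith)]
      have h5 : ∑ m ∈ Ioc (N1 + 1) N2, 1 / ((m : ℝ) * Real.log (m : ℝ)) ≤
          Real.log (Real.log y2) - Real.log (Real.log y1) := by linarith
      have h6 := add_le_add h1 h5
      calc _ ≤ _ := h6
        _ = _ := by ring
  -- the prime number theorem
  set M : ℕ → ℝ := fun t => (((Icc 1 t).filter (fun n : ℕ => n.Prime)).card : ℝ) - Li t with hM
  have hMs : ∀ m : ℕ, 2 ≤ m → M m - M (m - 1) =
      (if m.Prime then (1 : ℝ) else 0) - 1 / Real.log (m : ℝ) := by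
    intro m hm
    obtain ⟨n, rfl⟩ : ∃ n, m = n + 1 := ⟨m - 1, by omega⟩
    simp only [hM, Nat.add_sub_cancel, Finset.card_filter, Li]
    rw [Finset.sum_Icc_succ_top (by omega), Finset.sum_Icc_succ_top (by omega)]
    push_cast
    split_ifs <;> ring
  have hMb : ∀ m : ℕ, N1 ≤ m → m ≤ N2 → |M m| ≤ (1 / (8 * L ^ 3)) * m := by
    intro m hm _
    have hmY : Y / 2 ≤ (m : ℝ) := hN1Y.trans (by exact_mod_cast hm)
    have hmT : T0 ≤ m := by
      have : (T0 : ℝ) ≤ (m : ℝ) := by linarith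
      exact_mod_cast this
    have hm0 : (0 : ℝ) < (m : ℝ) := by linarith
    have hlm : L / 21 ≤ Real.log (m : ℝ) := by
      have h1 := Real.log_le_log (by linarith) hmY
      rw [Real.log_div (by linarith) (by norm_num), hlogY] at h1
      have h2 := Real.log_two_lt_d9
      linarith
    have h1 := hT0 m hmT 1 0 le_rfl (by
      rw [pow_one]
      push_cast
      linarith) (Nat.coprime_zero_left 1 |>.2 rfl) m le_rfl
    have h2 : ((Icc 1 m).filter (fun n => n.Prime ∧ n ≡ 0 [MOD 1])) =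
        (Icc 1 m).filter (fun n : ℕ => n.Prime) := by
      refine Finset.filter_congr fun n _ => ?_
      exact and_iff_left Nat.modEq_one
    rw [h2, Nat.totient_one, Nat.cast_one, div_one] at h1
    refine h1.trans ?_
    have h3 : (L / 21) ^ 5 ≤ Real.log (m : ℝ) ^ 5 := pow_le_pow_left₀ (by positivity) hlm 5
    have h4 : 8 * L ^ 3 ≤ (L / 21) ^ 5 := by
      have h5 : (6000 : ℝ) ^ 2 ≤ L ^ 2 := pow_le_pow_left₀ (by norm_num) hL 2
      have h6 : 0 < L ^ 3 := by positivity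
      have h7 : (L / 21) ^ 5 = L ^ 3 * L ^ 2 / 4084101 := by ring
      rw [h7, le_div_iff₀ (by norm_num)]
      nlinarith
    rw [one_div, inv_mul_eq_div]
    exact div_le_div_of_nonneg_left hm0.le (by positivity) (h4.trans h3)
  have hab := NMe_abel_le M N1 N2 (by omega) hN12 (1 / (8 * L ^ 3)) (by positivity) hMb
  have hlogN : Real.log ((N2 : ℝ) + 1) ≤ L := by
    apply Real.log_le_log (by positivity)
    exact_mod_cast hN2X
  have hab2 : ∑ m ∈ Ioc N1 N2, (M m - M (m - 1)) / (m : ℝ) ≤ 1 / (4 * L ^ 2) := by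
    refine hab.trans ?_
    calc 1 / (8 * L ^ 3) * (2 + Real.log ((N2 : ℝ) + 1)) ≤ 1 / (8 * L ^ 3) * (2 * L) :=
          mul_le_mul_of_nonneg_left (by linarith) (by positivity)
      _ = 1 / (4 * L ^ 2) := by
          field_simp
          ring
  have hset : (Icc 1 X).filter (fun p : ℕ => p.Prime ∧ y1 ≤ (p : ℝ) ∧ (p : ℝ) < y2) =
      (Ioc N1 N2).filter (fun p : ℕ => p.Prime) := by
    ext p
    simp only [Finset.mem_filter, Finset.mem_Icc, Finset.mem_Ioc]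
    constructor
    · rintro ⟨⟨h1, h2⟩, h3, h4, h5⟩
      have h6 := Nat.ceil_le.2 h4
      have h7 := Nat.lt_ceil.2 h5
      exact ⟨⟨by omega, by omega⟩, h3⟩
    · rintro ⟨⟨h1, h2⟩, h3⟩
      refine ⟨⟨by omega, by omega⟩, h3, ?_, ?_⟩
      · exact Nat.ceil_le.1 (by omega)
      · exact Nat.lt_ceil.1 (by omega)
  rw [hset, Finset.sum_filter]
  have hfin : ∑ m ∈ Ioc N1 N2, (if m.Prime then 1 / (m : ℝ) else 0) =
      ∑ m ∈ Ioc N1 N2, (M m - M (m - 1)) / (m : ℝ) +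
        ∑ m ∈ Ioc N1 N2, 1 / ((m : ℝ) * Real.log (m : ℝ)) := by
    rw [← Finset.sum_add_distrib]
    refine Finset.sum_congr rfl fun m hm => ?_
    rw [Finset.mem_Ioc] at hm
    rw [hMs m (by omega)]
    have hm1 : (1 : ℝ) < (m : ℝ) := by
      have : 1 < m := by omega
      exact_mod_cast this
    have h1 := Real.log_pos hm1
    split_ifs
    · field_simp
      ring
    · field_simp
      ring
  rw [hfin]
  have hy1i : 1 / y1 ≤ 1 / (2 * L ^ 2) := by
    apply one_div_le_one_div_of_le (by positivity)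
    linarith
  have h9 : 1 / (4 * L ^ 2) + 1 / (2 * L ^ 2) ≤ 1 / L ^ 2 := by
    have : 1 / (4 * L ^ 2) + 1 / (2 * L ^ 2) = (3 / 4) * (1 / L ^ 2) := by
      field_simp
      ring
    rw [this]
    have h10 : 0 < 1 / L ^ 2 := by positivity
    linarith
  linarith

end Pool.MP_dd84fd_nt.IY
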