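import Pool.Agent.Lib.MP_dd84fd_nt.IY.NSb
import Pool.Agent.Lib.MP_dd84fd_nt.IY.CBx

/-!
# IY-NSg (0.6 h): logarithms of products of box end points, in terms of cells

Proof. `0 < κ = kp B' X`. For a prime `p ≥ z = zt X`: `ub (bx p) ≤ p < ub (bx p) e^κ` (`bx_iff`, `ub_succ` in `CBx`), so `log p - κ < vlog (bx p) ≤ log p`; `cel p/281 ≤ log p/L < (cel p + 1)/281`. `Q ⊆ k.primeFactors`, `k` simple: `bx` is injective on `Q`, so `sg vlog (image bx Q) = Σ_{p ∈ Q} vlog (bx p)` (`Finset.sum_image`), `card (image) = card Q`. `sg_n`: `sg vlog (insert j0 (ty k)) = log ub(j0) + Σ_{p | k} log ub(bx p)`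
is `≤ log (n/k) + log k = log n ≤ L` and `≥ log n - 8 κ ≥ L - 5 log L - 8 κ ≥ L - log 2 - 5 log L` (at most `7` primes of `k`: `z^8 ≥ X`, `z ≤ n/k`).
-/

set_option autoImplicit false

namespace Pool.MP_dd84fd_nt.IY

open Finset Pool.MP_67663b_nt.Odd Pool.MP_dd84fd_nt.En Pool.MP_dd84fd_nt.E2 Pool.MP_dd84fd_nt.HX

private theorem NSg_vlog (κ : ℝ) {z : ℕ} (hz : 1 ≤ z) (j : ℕ) :
    vlog κ z j = Real.log z + κ * j := by
  have hz0 : (0 : ℝ) < z := by exact_mod_cast hz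
  unfold vlog ub
  rw [Real.log_mul hz0.ne' (Real.exp_pos _).ne', Real.log_exp]

private theorem NSg_bd {κ : ℝ} (hκ : 0 < κ) {z : ℕ} (hz : 1 ≤ z) {m : ℝ} (hm : (z : ℝ) ≤ m) :
    vlog κ z (bx κ z m) ≤ Real.log m ∧ Real.log m ≤ vlog κ z (bx κ z m) + κ := by
  have hz0 : (0 : ℝ) < z := by exact_mod_cast hz
  have hm0 : 0 < m := hz0.trans_le hm
  obtain ⟨h1, h2⟩ := (bx_iff hκ hz hm (bx κ z m)).mp rfl
  have hu : 0 < ub κ z (bx κ z m) := mul_pos hz0 (Real.exp_pos _)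
  refine ⟨Real.log_le_log hu h1, ?_⟩
  have h3 := Real.log_le_log hm0 h2.le
  have h4 : Real.log (ub κ z (bx κ z m + 1)) = vlog κ z (bx κ z m) + κ := by
    have := NSg_vlog κ hz (bx κ z m + 1)
    unfold vlog at this
    rw [this, NSg_vlog κ hz]
    push_cast
    ring
  rwa [h4] at h3

private theorem NSg_zt {X : ℕ} (hX : 1 ≤ X) : 1 ≤ zt X := by
  have h1 : (1 : ℝ) ≤ (X : ℝ) ^ (1 / 10 : ℝ) :=
    Real.one_le_rpow (by exact_mod_cast hX) (by norm_num)
  have h2 : (1 : ℝ) ≤ zt X := h1.trans (zt_ge X)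
  exact_mod_cast h2

private theorem NSg_kp (B' : ℕ) {X : ℕ} (hL : 1 ≤ Real.log X) : 0 < kp B' X := by
  unfold kp
  exact one_div_pos.mpr (pow_pos (by linarith) _)

private theorem NSg_inj {κ : ℝ} {z k : ℕ} (hk : Simp κ z k) {Q : Finset ℕ}
    (hQ : Q ⊆ k.primeFactors) : Set.InjOn (fun p : ℕ => bx κ z p) (Q : Set ℕ) :=
  fun p hp q hq h => hk.2.2 p (hQ hp) q (hQ hq) h

private theorem NSg_sum {κ : ℝ} {z k : ℕ} (hk : Simp κ z k) {Q : Finset ℕ}
    (hQ : Q ⊆ k.primeFactors) : sg (vlog κ z) (Q.image (fun p : ℕ => bx κ z p)) =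
      ∑ p ∈ Q, vlog κ z (bx κ z p) := by
  unfold sg
  exact Finset.sum_image (NSg_inj hk hQ)

theorem sg_cells (P : Prm) (hG : 0 < P.G) (B' : ℕ) : ∃ X0 : ℕ, ∀ X : ℕ, X0 ≤ X → ∀ k : ℕ, Simp (kp B' X) (zt X) k →
    ∀ Q ⊆ k.primeFactors,
    (Q.image (fun p : ℕ => bx (kp B' X) (zt X) p)).card = Q.card ∧
    Real.log X * ((∑ p ∈ Q, cel P X p : ℕ) : ℝ) / P.G - Q.card * kp B' X ≤
      sg (vlog (kp B' X) (zt X)) (Q.image (fun p : ℕ => bx (kp B' X) (zt X) p)) ∧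
    sg (vlog (kp B' X) (zt X)) (Q.image (fun p : ℕ => bx (kp B' X) (zt X) p)) ≤
      Real.log X * ((∑ p ∈ Q, cel P X p + Q.card : ℕ) : ℝ) / P.G ∧
    |∑ p ∈ Q, Real.log p -
      sg (vlog (kp B' X) (zt X)) (Q.image (fun p : ℕ => bx (kp B' X) (zt X) p))| ≤
      Q.card * kp B' X := by
  obtain ⟨X1, hX1⟩ := MP_log_large 1
  have hG0 : (0 : ℝ) < P.G := by exact_mod_cast hG
  refine ⟨max X1 1, fun X hX k hk Q hQ => ?_⟩
  have hL : 1 ≤ Real.log X := hX1 X ((le_max_left _ _).trans hX)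
  have hL0 : 0 < Real.log X := by linarith
  have hz : 1 ≤ zt X := NSg_zt ((le_max_right _ _).trans hX)
  have hκ : 0 < kp B' X := NSg_kp B' hL
  have hp : ∀ p ∈ Q, vlog (kp B' X) (zt X) (bx (kp B' X) (zt X) (p : ℝ)) ≤ Real.log p ∧
      Real.log p ≤ vlog (kp B' X) (zt X) (bx (kp B' X) (zt X) (p : ℝ)) + kp B' X :=
    fun p hp => NSg_bd hκ hz (by exact_mod_cast hk.1.2 p (hQ hp))
  have hlp : ∀ p ∈ Q, 0 ≤ Real.log (p : ℝ) := fun p hp => by
    have h1 := (Nat.prime_of_mem_primeFactors (hQ hp)).one_lt.le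
    exact Real.log_nonneg (by exact_mod_cast h1)
  have hc1 : ∀ p ∈ Q, Real.log X * (cel P X p : ℝ) / P.G ≤ Real.log p := fun p hp => by
    have h1 : (0 : ℝ) ≤ (P.G : ℝ) * (Real.log p / Real.log X) :=
      mul_nonneg hG0.le (div_nonneg (hlp p hp) hL0.le)
    have h2 : (cel P X p : ℝ) ≤ (P.G : ℝ) * (Real.log p / Real.log X) := Nat.floor_le h1
    rw [div_le_iff₀ hG0]
    calc Real.log X * (cel P X p : ℝ) ≤ Real.log X * ((P.G : ℝ) * (Real.log p / Real.log X)) :=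
          mul_le_mul_of_nonneg_left h2 hL0.le
      _ = Real.log p * P.G := by field_simp
  have hc2 : ∀ p ∈ Q, Real.log p ≤ Real.log X * ((cel P X p : ℝ) + 1) / P.G := fun p hp => by
    have h2 : (P.G : ℝ) * (Real.log p / Real.log X) ≤ (cel P X p : ℝ) + 1 := (Nat.lt_floor_add_one _).le
    rw [le_div_iff₀ hG0]
    calc Real.log p * P.G = Real.log X * ((P.G : ℝ) * (Real.log p / Real.log X)) := by field_simp
      _ ≤ Real.log X * ((cel P X p : ℝ) + 1) := mul_le_mul_of_nonneg_left h2 hL0.le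
  refine ⟨Finset.card_image_of_injOn (NSg_inj hk hQ), ?_, ?_, ?_⟩
  · rw [NSg_sum hk hQ]
    have h1 := Finset.sum_le_sum fun p hpQ => (hc1 p hpQ).trans (hp p hpQ).2
    rw [Finset.sum_add_distrib, Finset.sum_const, nsmul_eq_mul, ← Finset.sum_div,
      ← Finset.mul_sum] at h1
    push_cast
    linarith
  · rw [NSg_sum hk hQ]
    have h1 := Finset.sum_le_sum fun p hpQ => (hp p hpQ).1.trans (hc2 p hpQ)
    rw [← Finset.sum_div, ← Finset.mul_sum, Finset.sum_add_distrib, Finset.sum_const,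
      nsmul_eq_mul, mul_one] at h1
    push_cast
    exact h1
  · rw [NSg_sum hk hQ, ← Finset.sum_sub_distrib]
    refine (Finset.abs_sum_le_sum_abs _ _).trans ?_
    refine (Finset.sum_le_card_nsmul _ _ (kp B' X) fun p hpQ => ?_).trans (le_of_eq ?_)
    · obtain ⟨h1, h2⟩ := hp p hpQ
      rw [abs_le]
      constructor <;> linarith
    · rw [nsmul_eq_mul]

theorem sg_n (B' : ℕ) (hB : 1 ≤ B') : ∃ X0 : ℕ, ∀ X : ℕ, X0 ≤ X → ∀ n k : ℕ, X5 X < n →
    n ≤ X → 1 ≤ k → Simp (kp B' X) (zt X) k → (zt X : ℝ) ≤ (n : ℝ) / k →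
    (∀ j ∈ ty (kp B' X) (zt X) k, j < bx (kp B' X) (zt X) ((n : ℝ) / k)) →
    k.primeFactors.card ≤ 9 ∧
    Real.log X - (Real.log 2 + 5 * Real.log (Real.log X)) ≤ sg (vlog (kp B' X) (zt X))
        (insert (bx (kp B' X) (zt X) ((n : ℝ) / k)) (ty (kp B' X) (zt X) k)) ∧
      sg (vlog (kp B' X) (zt X))
        (insert (bx (kp B' X) (zt X) ((n : ℝ) / k)) (ty (kp B' X) (zt X) k)) ≤ Real.log X := by
  obtain ⟨X1, hX1⟩ := MP_log_large 15
  refine ⟨max X1 1, fun X hX n k hn5 hnX hk1 hk hzn hj => ?_⟩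
  have hL : 15 ≤ Real.log X := hX1 X ((le_max_left _ _).trans hX)
  have hL0 : 0 < Real.log X := by linarith
  have hX1' : 1 ≤ X := (le_max_right _ _).trans hX
  have hX0 : (0 : ℝ) < X := by exact_mod_cast hX1'
  have hz : 1 ≤ zt X := NSg_zt hX1'
  have hz0 : (0 : ℝ) < zt X := by exact_mod_cast hz
  have hκ : 0 < kp B' X := NSg_kp B' (by linarith)
  have hκ8 : 10 * kp B' X ≤ Real.log 2 := by
    have h1 : Real.log X ≤ (Real.log X) ^ B' := by
      calc Real.log X = (Real.log X) ^ 1 := (pow_one _).symm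
        _ ≤ (Real.log X) ^ B' := pow_le_pow_right₀ (by linarith) hB
    have h2 : kp B' X ≤ 1 / 15 := by
      unfold kp
      exact one_div_le_one_div_of_le (by norm_num) (by linarith)
    have h3 := Real.log_two_gt_d9
    linarith
  have hk0 : (0 : ℝ) < k := by exact_mod_cast hk1
  have hn0 : (0 : ℝ) < n := by
    have h1 : 0 < (n : ℝ) / k := hz0.trans_le hzn
    by_contra h
    have h2 : (n : ℝ) / k ≤ 0 := div_nonpos_of_nonpos_of_nonneg (not_lt.mp h) hk0.le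
    linarith
  have hnX' : (n : ℝ) ≤ X := by exact_mod_cast hnX
  have hprod : ∏ p ∈ k.primeFactors, p = k := Nat.prod_primeFactors_of_squarefree hk.2.1
  have hcard : k.primeFactors.card ≤ 9 := by
    by_contra hc
    push Not at hc
    have h1 : zt X ^ k.primeFactors.card ≤ k := by
      calc zt X ^ k.primeFactors.card ≤ ∏ p ∈ k.primeFactors, p :=
            Finset.pow_card_le_prod _ _ _ fun p hp => hk.1.2 p hp
        _ = k := hprod
    have h2 : ((zt X : ℝ)) ^ 10 ≤ k := by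
      calc ((zt X : ℝ)) ^ 10 ≤ (zt X : ℝ) ^ k.primeFactors.card :=
            pow_le_pow_right₀ (by exact_mod_cast hz) hc
        _ ≤ k := by exact_mod_cast h1
    have h3 : (X : ℝ) ≤ (zt X : ℝ) ^ 10 := by
      calc (X : ℝ) = ((X : ℝ) ^ (1 / 10 : ℝ)) ^ 10 := by
            rw [← Real.rpow_natCast, ← Real.rpow_mul hX0.le]
            norm_num
        _ ≤ (zt X : ℝ) ^ 10 := pow_le_pow_left₀ (Real.rpow_nonneg hX0.le _) (zt_ge X) 10
    have h4 : (zt X : ℝ) * k ≤ n := (le_div_iff₀ hk0).mp hzn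
    have h5 : 1 < (zt X : ℝ) := by
      have h6 : 1 < (X : ℝ) ^ (1 / 10 : ℝ) := by
        refine Real.one_lt_rpow ?_ (by norm_num)
        by_contra h7
        have h8 := Real.log_nonpos hX0.le (not_lt.mp h7)
        linarith
      exact h6.trans_le (zt_ge X)
    have h6 : (k : ℝ) < (zt X : ℝ) * k := by nlinarith
    linarith
  have hnot : bx (kp B' X) (zt X) ((n : ℝ) / k) ∉ ty (kp B' X) (zt X) k :=
    fun h => lt_irrefl _ (hj _ h)
  have hty : sg (vlog (kp B' X) (zt X)) (ty (kp B' X) (zt X) k) =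
      ∑ p ∈ k.primeFactors, vlog (kp B' X) (zt X) (bx (kp B' X) (zt X) (p : ℝ)) :=
    NSg_sum hk (Finset.Subset.refl _)
  have hsg : sg (vlog (kp B' X) (zt X))
      (insert (bx (kp B' X) (zt X) ((n : ℝ) / k)) (ty (kp B' X) (zt X) k)) =
      vlog (kp B' X) (zt X) (bx (kp B' X) (zt X) ((n : ℝ) / k)) +
      ∑ p ∈ k.primeFactors, vlog (kp B' X) (zt X) (bx (kp B' X) (zt X) (p : ℝ)) := by
    rw [← hty]
    unfold sg
    exact Finset.sum_insert hnot
  obtain ⟨ha, hb⟩ := NSg_bd hκ hz hzn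
  have hp : ∀ p ∈ k.primeFactors,
      vlog (kp B' X) (zt X) (bx (kp B' X) (zt X) (p : ℝ)) ≤ Real.log p ∧
      Real.log p ≤ vlog (kp B' X) (zt X) (bx (kp B' X) (zt X) (p : ℝ)) + kp B' X :=
    fun p hp => NSg_bd hκ hz (by exact_mod_cast hk.1.2 p hp)
  have hlogk : ∑ p ∈ k.primeFactors, Real.log (p : ℝ) = Real.log k := by
    rw [← Real.log_prod fun p hp => ?_]
    · congr 1
      rw [← Nat.cast_prod, hprod]
    · have h1 := (Nat.prime_of_mem_primeFactors hp).ne_zero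
      exact_mod_cast h1
  have h1 := Finset.sum_le_sum fun p hpQ => (hp p hpQ).1
  have h2 := Finset.sum_le_sum fun p hpQ => (hp p hpQ).2
  rw [hlogk] at h1 h2
  rw [Finset.sum_add_distrib, Finset.sum_const, nsmul_eq_mul] at h2
  have h3 : Real.log ((n : ℝ) / k) = Real.log n - Real.log k := Real.log_div hn0.ne' hk0.ne'
  rw [h3] at ha hb
  have h4 : Real.log n ≤ Real.log X := Real.log_le_log hn0 hnX'
  have h5 : Real.log X - 5 * Real.log (Real.log X) ≤ Real.log n := by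
    have h6 : Real.log (X5 X) ≤ Real.log n :=
      Real.log_le_log (div_pos hX0 (pow_pos hL0 5)) hn5.le
    unfold X5 at h6
    rw [Real.log_div hX0.ne' (pow_pos hL0 5).ne', Real.log_pow] at h6
    push_cast at h6
    exact h6
  have h7 : (k.primeFactors.card : ℝ) ≤ 9 := by exact_mod_cast hcard
  have h8 : (k.primeFactors.card : ℝ) * kp B' X ≤ 9 * kp B' X :=
    mul_le_mul_of_nonneg_right h7 hκ.le
  refine ⟨hcard, ?_, ?_⟩
  · rw [hsg]
    linarith
  · rw [hsg]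
    linarith

end Pool.MP_dd84fd_nt.IY
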