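import Pool.Agent.Lib.MP_dd84fd_nt.IY.NDefs
import Pool.Agent.Lib.MP_dd84fd_nt.E2.MinorP

/-!
# IY-NWa (0.5 h): inequalities between logarithms and cells

Compare `IX/NWa.lean` (same shape, complete proof there). `L = log X`, `l = log log X`, `κ = kp B' X = 1/L^B'` tiny. All statements: the difference of the two sides is a positive constant times `L`, the errors are `O(log L + 1)`.
`n_big`: `log log X / log X → 0`, `log X → ∞`, `1/L^B' ≤ 1/L`.
`med_cell`: `s = (s + q) - q ≤ L - β L + 1/2` and `s ≥ L t/G - 10 κ`; if `t + mb ≥ G + 1` then `t/G ≥ 1 - (mb-1)/G > 1 - β`: contradiction for large `X` (`c = β - (mb-1)/G > 0`). `s ≥ L - log 2 - 5 l - L/2`; if `2 (t+m) ≤ G - 1` then `s ≤ L (t+m)/G ≤ L/2 - L/(2G)`: contradiction.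
`small_top`: `s ≥ L - log 2 - 5 l - α L`; if `t + m + sm ≤ G - 1`, then `s ≤ L (G - sm - 1)/G = L - L (sm+1)/G`: contradiction (`c = (sm+1)/G - α > 0`).
`small_cell`: if `c ≥ sm + 1` then `v ≥ L (sm+1)/G - κ > α L`.
`gd_low`: `s ≥ L (sm+1)/G - 10 κ > α L`; `s + 11 κ ≤ L (mb-1)/G + 11 κ ≤ β L`.
`gd_comp`: `t - s ≥ L - log 2 - 5 l - L (G - sm - 1)/G = L (sm+1)/G - log 2 - 5 l > α L`; `t - s + 11 κ ≤ L - L σ/G + 21 κ ≤ L (mb-1)/G + 21 κ ≤ β L` (`σ ≥ G + 1 - mb`).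
-/

set_option autoImplicit false

namespace Pool.MP_dd84fd_nt.IY

open Finset Pool.MP_67663b_nt.Odd Pool.MP_dd84fd_nt.En Pool.MP_dd84fd_nt.E2 Pool.MP_dd84fd_nt.HX

theorem n_big (B' : ℕ) (hB : 1 ≤ B') (c : ℝ) (hc : 0 < c) : ∃ X0 : ℕ, ∀ X : ℕ, X0 ≤ X →
    100 ≤ Real.log X ∧ 1 ≤ Real.log (Real.log X) ∧ 0 < kp B' X ∧ kp B' X ≤ 1 / 100 ∧
    100 * Real.log (Real.log X) ≤ c * Real.log X := by
  have ht : Filter.Tendsto (fun n : ℕ => Real.log (n : ℝ)) Filter.atTop Filter.atTop :=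
    Real.tendsto_log_atTop.comp tendsto_natCast_atTop_atTop
  have h1 : ∀ᶠ n : ℕ in Filter.atTop, 100 ≤ Real.log (n : ℝ) := ht.eventually_ge_atTop 100
  have h4 : ∀ᶠ n : ℕ in Filter.atTop, 1 ≤ Real.log (Real.log (n : ℝ)) :=
    (Real.tendsto_log_atTop.comp ht).eventually_ge_atTop 1
  have h2 : ∀ᶠ x : ℝ in Filter.atTop, ‖Real.log x‖ ≤ (c / 100) * ‖x‖ :=
    Real.isLittleO_log_id_atTop.bound (by positivity : (0 : ℝ) < c / 100)
  have h3 : ∀ᶠ n : ℕ in Filter.atTop,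
      ‖Real.log (Real.log (n : ℝ))‖ ≤ (c / 100) * ‖Real.log (n : ℝ)‖ := ht.eventually h2
  obtain ⟨X0, hX0⟩ := Filter.eventually_atTop.1 ((h1.and h4).and h3)
  refine ⟨X0, fun X hX => ?_⟩
  obtain ⟨⟨ha, hd⟩, hb⟩ := hX0 X hX
  have hL : 0 < Real.log X := by linarith
  have hk : kp B' X = 1 / (Real.log X) ^ B' := rfl
  have hp : Real.log X ≤ (Real.log X) ^ B' := by
    calc Real.log X = (Real.log X) ^ 1 := (pow_one _).symm
      _ ≤ (Real.log X) ^ B' := pow_le_pow_right₀ (by linarith) hB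
  refine ⟨ha, hd, ?_, ?_, ?_⟩
  · rw [hk]
    positivity
  · rw [hk]
    exact one_div_le_one_div_of_le (by norm_num) (by linarith)
  · rw [Real.norm_eq_abs, Real.norm_eq_abs, abs_of_pos hL] at hb
    have := le_abs_self (Real.log (Real.log (X : ℝ)))
    linarith

private theorem nwa_mk {κ : ℝ} (_hκ : 0 < κ) (hκ1 : κ ≤ 1 / 100) {m : ℕ} (hm : m ≤ 10) :
    (m : ℝ) * κ ≤ 1 / 10 := by
  have h1 : (m : ℝ) ≤ 10 := by exact_mod_cast hm
  nlinarith

private theorem nwa_log2 : Real.log 2 ≤ 1 := by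
  have := Real.log_le_sub_one_of_pos (show (0 : ℝ) < 2 by norm_num)
  linarith

/-- `L a / G` as `L` times a fixed quotient -/
private theorem nwa_eq (L a G : ℝ) : L * a / G = a / G * L := by ring

private theorem nwa_le {L G a b : ℝ} (hL : 0 < L) (hG : 0 < G) (h : a ≤ b) :
    L * a / G ≤ b / G * L := by
  rw [nwa_eq]
  exact mul_le_mul_of_nonneg_right (div_le_div_of_nonneg_right h hG.le) hL.le

private theorem nwa_ge {L G a b : ℝ} (hL : 0 < L) (hG : 0 < G) (h : a ≤ b) :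
    a / G * L ≤ L * b / G := by
  rw [nwa_eq]
  exact mul_le_mul_of_nonneg_right (div_le_div_of_nonneg_right h hG.le) hL.le

theorem med_cell {G sm mb : ℕ} {α β : ℝ} (hP : NPar G sm mb α β) (B' : ℕ) (hB : 1 ≤ B') :
    ∃ X0 : ℕ, ∀ X : ℕ, X0 ≤ X → ∀ (s q : ℝ) (t m : ℕ), m ≤ 10 →
    Real.log X * t / G - m * kp B' X ≤ s → s ≤ Real.log X * ((t + m : ℕ) : ℝ) / G →
    Real.log X - (Real.log 2 + 5 * Real.log (Real.log X)) ≤ s + q → s + q ≤ Real.log X →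
    β * Real.log X - 1 / 2 < q → q ≤ Real.log X / 2 → G ≤ 2 * (t + m) ∧ t + mb ≤ G := by
  obtain ⟨hG, hα, hα3, hsm, hβ2, hβ, hmb⟩ := hP
  have hG0 : (0 : ℝ) < G := by
    have : 0 < G := by omega
    exact_mod_cast this
  obtain ⟨X1, hX1⟩ := n_big B' hB (1 / (2 * G)) (by positivity)
  obtain ⟨X2, hX2⟩ := n_big B' hB (β - ((mb : ℝ) - 1) / G) (by linarith)
  refine ⟨max X1 X2, fun X hX s q t m hm h1 h2 h3 h4 h5 h6 => ?_⟩
  obtain ⟨hL, hl, hk, hk1, hc1⟩ := hX1 X (le_trans (le_max_left _ _) hX)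
  obtain ⟨-, -, -, -, hc2⟩ := hX2 X (le_trans (le_max_right _ _) hX)
  have hL0 : 0 < Real.log X := by linarith
  have hl2 := nwa_log2
  have hmk := nwa_mk hk hk1 hm
  constructor
  · by_contra hcon
    have h7 : 2 * (t + m) + 1 ≤ G := by omega
    have h8 : (((t + m : ℕ) : ℝ)) ≤ ((G : ℝ) - 1) / 2 := by
      have : ((2 * (t + m) + 1 : ℕ) : ℝ) ≤ G := by exact_mod_cast h7
      push_cast at this ⊢
      linarith
    have h9 := nwa_le hL0 hG0 h8
    have h10 : (((G : ℝ) - 1) / 2) / G * Real.log X =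
        Real.log X / 2 - 1 / (2 * G) * Real.log X := by
      field_simp
    rw [h10] at h9
    linarith
  · by_contra hcon
    have h7 : G + 1 ≤ t + mb := by omega
    have h8 : (G : ℝ) - ((mb : ℝ) - 1) ≤ t := by
      have : ((G + 1 : ℕ) : ℝ) ≤ ((t + mb : ℕ) : ℝ) := by exact_mod_cast h7
      push_cast at this
      linarith
    have h9 := nwa_ge hL0 hG0 h8
    have h10 : ((G : ℝ) - ((mb : ℝ) - 1)) / G * Real.log X =
        Real.log X - ((mb : ℝ) - 1) / G * Real.log X := by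
      rw [sub_div, div_self hG0.ne']
      ring
    rw [h10] at h9
    have h11 : (β - ((mb : ℝ) - 1) / G) * Real.log X =
        β * Real.log X - ((mb : ℝ) - 1) / G * Real.log X := by ring
    linarith

theorem small_top {G sm mb : ℕ} {α β : ℝ} (hP : NPar G sm mb α β) (B' : ℕ) (hB : 1 ≤ B') :
    ∃ X0 : ℕ, ∀ X : ℕ, X0 ≤ X → ∀ (s q : ℝ) (t m : ℕ),
    s ≤ Real.log X * ((t + m : ℕ) : ℝ) / G →
    Real.log X - (Real.log 2 + 5 * Real.log (Real.log X)) ≤ s + q → q ≤ α * Real.log X →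
    G ≤ t + m + sm := by
  obtain ⟨hG, hα, hα3, hsm, hβ2, hβ, hmb⟩ := hP
  have hG0 : (0 : ℝ) < G := by
    have : 0 < G := by omega
    exact_mod_cast this
  obtain ⟨X1, hX1⟩ := n_big B' hB (((sm : ℝ) + 1) / G - α) (by linarith)
  refine ⟨X1, fun X hX s q t m h1 h2 h3 => ?_⟩
  obtain ⟨hL, hl, hk, hk1, hc1⟩ := hX1 X hX
  have hL0 : 0 < Real.log X := by linarith
  have hl2 := nwa_log2
  by_contra hcon
  have h7 : t + m + (sm + 1) ≤ G := by omega
  have h8 : (((t + m : ℕ) : ℝ)) ≤ (G : ℝ) - ((sm : ℝ) + 1) := by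
    have : ((t + m + (sm + 1) : ℕ) : ℝ) ≤ G := by exact_mod_cast h7
    push_cast at this ⊢
    linarith
  have h9 := nwa_le hL0 hG0 h8
  have h10 : ((G : ℝ) - ((sm : ℝ) + 1)) / G * Real.log X =
      Real.log X - ((sm : ℝ) + 1) / G * Real.log X := by
    rw [sub_div, div_self hG0.ne']
    ring
  rw [h10] at h9
  have h11 : (((sm : ℝ) + 1) / G - α) * Real.log X =
      ((sm : ℝ) + 1) / G * Real.log X - α * Real.log X := by ring
  linarith

theorem small_cell {G sm mb : ℕ} {α β : ℝ} (hP : NPar G sm mb α β) (B' : ℕ) (hB : 1 ≤ B') :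
    ∃ X0 : ℕ, ∀ X : ℕ, X0 ≤ X → ∀ (v : ℝ) (c : ℕ),
    Real.log X * c / G - kp B' X ≤ v → v ≤ α * Real.log X → c ≤ sm := by
  obtain ⟨hG, hα, hα3, hsm, hβ2, hβ, hmb⟩ := hP
  have hG0 : (0 : ℝ) < G := by
    have : 0 < G := by omega
    exact_mod_cast this
  obtain ⟨X1, hX1⟩ := n_big B' hB (((sm : ℝ) + 1) / G - α) (by linarith)
  refine ⟨X1, fun X hX v c h1 h2 => ?_⟩
  obtain ⟨hL, hl, hk, hk1, hc1⟩ := hX1 X hX
  have hL0 : 0 < Real.log X := by linarith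
  by_contra hcon
  have h7 : sm + 1 ≤ c := by omega
  have h8 : (sm : ℝ) + 1 ≤ (c : ℝ) := by exact_mod_cast h7
  have h9 := nwa_ge hL0 hG0 h8
  have h11 : (((sm : ℝ) + 1) / G - α) * Real.log X =
      ((sm : ℝ) + 1) / G * Real.log X - α * Real.log X := by ring
  linarith

theorem gd_low {G sm mb : ℕ} {α β : ℝ} (hP : NPar G sm mb α β) (B' : ℕ) (hB : 1 ≤ B') :
    ∃ X0 : ℕ, ∀ X : ℕ, X0 ≤ X → ∀ (s : ℝ) (σ m : ℕ), m ≤ 10 →
    Real.log X * σ / G - m * kp B' X ≤ s → s ≤ Real.log X * ((σ + m : ℕ) : ℝ) / G →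
    sm + 1 ≤ σ → σ + m + 1 ≤ mb →
    α * Real.log X < s ∧ s + 11 * kp B' X ≤ β * Real.log X := by
  obtain ⟨hG, hα, hα3, hsm, hβ2, hβ, hmb⟩ := hP
  have hG0 : (0 : ℝ) < G := by
    have : 0 < G := by omega
    exact_mod_cast this
  obtain ⟨X1, hX1⟩ := n_big B' hB (((sm : ℝ) + 1) / G - α) (by linarith)
  obtain ⟨X2, hX2⟩ := n_big B' hB (β - ((mb : ℝ) - 1) / G) (by linarith)
  refine ⟨max X1 X2, fun X hX s σ m hm h1 h2 h3 h4 => ?_⟩
  obtain ⟨hL, hl, hk, hk1, hc1⟩ := hX1 X (le_trans (le_max_left _ _) hX)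
  obtain ⟨-, -, -, -, hc2⟩ := hX2 X (le_trans (le_max_right _ _) hX)
  have hL0 : 0 < Real.log X := by linarith
  have hmk := nwa_mk hk hk1 hm
  have h11 : (((sm : ℝ) + 1) / G - α) * Real.log X =
      ((sm : ℝ) + 1) / G * Real.log X - α * Real.log X := by ring
  have h12 : (β - ((mb : ℝ) - 1) / G) * Real.log X =
      β * Real.log X - ((mb : ℝ) - 1) / G * Real.log X := by ring
  constructor
  · have h8 : (sm : ℝ) + 1 ≤ (σ : ℝ) := by exact_mod_cast h3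
    have h9 := nwa_ge hL0 hG0 h8
    linarith
  · have h8 : (((σ + m : ℕ) : ℝ)) ≤ (mb : ℝ) - 1 := by
      have : ((σ + m + 1 : ℕ) : ℝ) ≤ mb := by exact_mod_cast h4
      push_cast at this ⊢
      linarith
    have h9 := nwa_le hL0 hG0 h8
    linarith

theorem gd_comp {G sm mb : ℕ} {α β : ℝ} (hP : NPar G sm mb α β) (B' : ℕ) (hB : 1 ≤ B') :
    ∃ X0 : ℕ, ∀ X : ℕ, X0 ≤ X → ∀ (s t : ℝ) (σ m : ℕ), m ≤ 10 →
    Real.log X * σ / G - m * kp B' X ≤ s → s ≤ Real.log X * ((σ + m : ℕ) : ℝ) / G →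
    Real.log X - (Real.log 2 + 5 * Real.log (Real.log X)) ≤ t → t ≤ Real.log X →
    G + 1 ≤ σ + mb → σ + m + sm + 1 ≤ G →
    α * Real.log X < t - s ∧ t - s + 11 * kp B' X ≤ β * Real.log X := by
  obtain ⟨hG, hα, hα3, hsm, hβ2, hβ, hmb⟩ := hP
  have hG0 : (0 : ℝ) < G := by
    have : 0 < G := by omega
    exact_mod_cast this
  obtain ⟨X1, hX1⟩ := n_big B' hB (((sm : ℝ) + 1) / G - α) (by linarith)
  obtain ⟨X2, hX2⟩ := n_big B' hB (β - ((mb : ℝ) - 1) / G) (by linarith)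
  refine ⟨max X1 X2, fun X hX s t σ m hm h1 h2 h3 h4 h5 h6 => ?_⟩
  obtain ⟨hL, hl, hk, hk1, hc1⟩ := hX1 X (le_trans (le_max_left _ _) hX)
  obtain ⟨-, -, -, -, hc2⟩ := hX2 X (le_trans (le_max_right _ _) hX)
  have hL0 : 0 < Real.log X := by linarith
  have hl2 := nwa_log2
  have hmk := nwa_mk hk hk1 hm
  have h11 : (((sm : ℝ) + 1) / G - α) * Real.log X =
      ((sm : ℝ) + 1) / G * Real.log X - α * Real.log X := by ring
  have h12 : (β - ((mb : ℝ) - 1) / G) * Real.log X =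
      β * Real.log X - ((mb : ℝ) - 1) / G * Real.log X := by ring
  constructor
  · have h8 : (((σ + m : ℕ) : ℝ)) ≤ (G : ℝ) - ((sm : ℝ) + 1) := by
      have : ((σ + m + sm + 1 : ℕ) : ℝ) ≤ G := by exact_mod_cast h6
      push_cast at this ⊢
      linarith
    have h9 := nwa_le hL0 hG0 h8
    have h10 : ((G : ℝ) - ((sm : ℝ) + 1)) / G * Real.log X =
        Real.log X - ((sm : ℝ) + 1) / G * Real.log X := by
      rw [sub_div, div_self hG0.ne']
      ring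
    rw [h10] at h9
    linarith
  · have h8 : (G : ℝ) - ((mb : ℝ) - 1) ≤ σ := by
      have : ((G + 1 : ℕ) : ℝ) ≤ ((σ + mb : ℕ) : ℝ) := by exact_mod_cast h5
      push_cast at this
      linarith
    have h9 := nwa_ge hL0 hG0 h8
    have h10 : ((G : ℝ) - ((mb : ℝ) - 1)) / G * Real.log X =
        Real.log X - ((mb : ℝ) - 1) / G * Real.log X := by
      rw [sub_div, div_self hG0.ne']
      ring
    rw [h10] at h9
    linarith

end Pool.MP_dd84fd_nt.IY
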