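import Pool.Agent.Lib.MP_dd84fd_nt.IY.BCz3

/-!
# IY-R2v: the values on bad types without edge sets (from helper88's `BT.r2_val`)
-/

set_option autoImplicit false

namespace Pool.MP_dd84fd_nt.IY

open Finset

namespace BT

variable {v : ℕ → ℝ} {κ x a b l : ℝ} {T : Finset ℕ}

theorem r2_v (h : BT v κ x a b l T) (h2 : 2 ≤ T.card) :
    (FS v x a b T = 0 ∧ ES v x a b T = 0) ∨
    ((∃ q ∈ T, b - 1 / 2 < v q ∧ v q ≤ x / 2 ∧ ∀ j ∈ T, j ≠ q → v j ≤ a) ∧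
      ((T.card = 3 ∧ FS v x a b T = -2 ∧ ES v x a b T = 2) ∨
       (T.card = 4 ∧ FS v x a b T = 0 ∧ ES v x a b T ≤ 2) ∨
       (T.card = 5 ∧ FS v x a b T = 0 ∧ ES v x a b T = 3))) ∨
    ((∀ j ∈ T, v j ≤ a) ∧
      ((T.card = 4 ∧ FS v x a b T = 0 ∧ ES v x a b T ≤ 6) ∨
       (T.card = 5 ∧ -24 ≤ FS v x a b T ∧ FS v x a b T + ES v x a b T = 6) ∨
       (T.card = 6 ∧ -75 ≤ FS v x a b T ∧ FS v x a b T + ES v x a b T ≤ 30) ∨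
       (T.card = 7 ∧ FS v x a b T = -90 ∧ ES v x a b T = 105))) := by
  have hm : OneMed v x a T →
      ∃ q ∈ T, b - 1 / 2 < v q ∧ v q ≤ x / 2 ∧ ∀ j ∈ T, j ≠ q → v j ≤ a := by
    rintro ⟨q, hq, h3, h4, h5⟩
    refine ⟨q, hq, ?_, h4, h5⟩
    rcases h.dich (S := {q}) (by simpa using hq) with h6 | h6
    · rw [sg_single] at h6
      linarith
    · rwa [sg_single] at h6
  rcases h.r2_val h2 with h3 | ⟨h3, h4, h5, h6⟩ | ⟨h3, h4, h5, h6⟩ | ⟨h3, h4, h5, h6⟩ |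
    ⟨h3, ⟨h4, h5, h6⟩ | ⟨h4, h5, h6, h7⟩ | ⟨h4, h5, h6, h7, h8⟩ | ⟨h4, h5, h6⟩⟩
  · exact Or.inl h3
  · exact Or.inr (Or.inl ⟨hm h4, Or.inl ⟨h3, h5, h6⟩⟩)
  · exact Or.inr (Or.inl ⟨hm h4, Or.inr (Or.inl ⟨h3, h5, h6⟩)⟩)
  · exact Or.inr (Or.inl ⟨hm h4, Or.inr (Or.inr ⟨h3, h5, h6⟩)⟩)
  · exact Or.inr (Or.inr ⟨h3, Or.inl ⟨h4, h5, h6.le⟩⟩)
  · exact Or.inr (Or.inr ⟨h3, Or.inr (Or.inl ⟨h4, h5, h7⟩)⟩)
  · exact Or.inr (Or.inr ⟨h3, Or.inr (Or.inr (Or.inl ⟨h4, by linarith, by linarith⟩))⟩)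
  · exact Or.inr (Or.inr ⟨h3, Or.inr (Or.inr (Or.inr ⟨h4, h5, h6⟩))⟩)

/-- the same under the other name -/
theorem r2_val2 (h : BT v κ x a b l T) (h2 : 2 ≤ T.card) :
    (FS v x a b T = 0 ∧ ES v x a b T = 0) ∨
    ((∃ q ∈ T, b - 1 / 2 < v q ∧ v q ≤ x / 2 ∧ ∀ j ∈ T, j ≠ q → v j ≤ a) ∧
      ((T.card = 3 ∧ FS v x a b T = -2 ∧ ES v x a b T = 2) ∨
       (T.card = 4 ∧ FS v x a b T = 0 ∧ ES v x a b T ≤ 2) ∨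
       (T.card = 5 ∧ FS v x a b T = 0 ∧ ES v x a b T = 3))) ∨
    ((∀ j ∈ T, v j ≤ a) ∧
      ((T.card = 4 ∧ FS v x a b T = 0 ∧ ES v x a b T ≤ 6) ∨
       (T.card = 5 ∧ -24 ≤ FS v x a b T ∧ FS v x a b T + ES v x a b T = 6) ∨
       (T.card = 6 ∧ -75 ≤ FS v x a b T ∧ FS v x a b T + ES v x a b T ≤ 30) ∨
       (T.card = 7 ∧ FS v x a b T = -90 ∧ ES v x a b T = 105))) := h.r2_v h2

end BT

end Pool.MP_dd84fd_nt.IY
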