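import Pool.Agent.Lib.MP_dd84fd_nt.IY.NWa
import Pool.Agent.Lib.MP_dd84fd_nt.IY.NHp
import Pool.Agent.Lib.MP_dd84fd_nt.IY.NHc
import Pool.Agent.Lib.MP_dd84fd_nt.IY.R2v

/-!
# IY-NWb (0.8 h): the values of `rm`, `sp` at one `k`

Compare `IX/NWb.lean`, `w_one` (complete proof of a similar statement there; the helper lemmas `n_inj n_le n_cel n_logk n_list n_nbd` of it are in `IY/NHp.lean`).
Notation `κ = kp B' X`, `z = zt X`, `v = vlog κ z`, `L = log X`, `l = log log X`, `x = L`, `a = α L`, `b = β L`, `T0 = ty κ z k`, `j0 = bx κ z (n/k)`, not in `T0`, `T = insert j0 T0`, `r = #T = #primeFactors k + 1 ≥ 2` (`k ≥ 2`), `≤ 10` (`sg_n`), `c = cel P`, `P = pF G sm mb` (`pS` has the same `G`, so the same `cel`, `cL`, `inw` by `rfl`).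
(1) `gdT v κ a b T`: `rmT T = epT T = 0` (unfold `Wl wT`); both claims are clear (`wc`, `nbd ≥ 0`). Otherwise `rmT T = Σ lamR3`, `epT T = Σ lamE3`.
(2) some `S ⊆ T` with `bdS v L l S`: `S` or `T \ S` is a subset of `T0` (according to `j0 ∈ S` or not), i.e. the image of some `Q ⊆ k.primeFactors` (`Finset.subset_image_iff`), and `|sg (image Q) - L/2| ≤ 6 l` or `|sg T - sg (image Q) - L/2| ≤ 6 l`; with `sg_n` and `sg_cells` (last part) `|Σ_{p ∈ Q} log p - L/2| ≤ 12 l`: `n_nbd` (with the property `P Q' := Q' = Q`) gives `1 ≤ nbd X k`; `|rmT|, |epT| ≤ 2^23` (`rmT_bd`): both claims.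
(3) otherwise `h : BT v κ L (α L) (β L) l T` (`v ≥ 0`: `ub ≥ z ≥ 1`; `11 κ ≤ log (3/2)`, `1 ≤ l`, `α L + 50 l ≤ 3 L/10`, `2L/5 + 50 l ≤ β L` for large `X` (`n_big` with small `c`); `L/10 - l ≤ v j`: `v j ≥ log z - ..`: `ub j ≥ z`, `zt_ge`, so `v j ≥ log z ≥ L/10`; `sg_n`; `gdT` false). `rmT T = FS` , `epT T = ES` (`sum_lamR3`, `sum_lamE3`, no edge sets). Use `h.r2_v` (R2v):
 (a) `F = E = 0`: clear. In the other cases the condition in `wc` holds: `(subs l).any inw = false` (`subs_any`, `gd_low`, `gd_comp` as in `IX/NWb`), `l.sum + c ≤ G` (as in `IX/NWb`), and `c ≤ sm` for every cell: `c = cel p`, the box `bx p ∈ T0` has `v ≤ a` (in case (b) because it is not the box `q`: see below), `small_cell` with `sg_cells` for `Q = {p}`.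
 (b) a medium box `q ∈ T`, all others `≤ a`: `q = j0`: otherwise `j0 ≠ q`, so `v j0 ≤ a`, but `j0 > q` (all boxes of `T0` are below `j0`) gives `v j0 ≥ v q > b - 1/2 ≥ a` for large `X`. `med_cell` with `s = sg T0 = sg (image of primeFactors)`, `q = v j0`, `s + q = sg T`: so the test in `wtF`, `wtS` holds. `#primeFactors = 2`: `F = -2 ≥ -wtF`, `F + E = 0`; `3`: `F = 0`, `E ≤ 2 ≤ wtS` (both branches); `4`: `F = 0`, `E = 3 ≤ wtS`.
 (c) all boxes `≤ a`: `small_top` gives `G ≤ t + m + sm`; `#primeFactors = 3`: `F = 0`, `E ≤ 6`; `4`: `-24 ≤ F`, `F + E = 6`; `5`: `-75 ≤ F`, `F + E ≤ 30`; `6`: `F = -90`, `F + E = 15`: exactly the weights `wtF`, `wtS`.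
-/

set_option autoImplicit false

namespace Pool.MP_dd84fd_nt.IY

open Finset Pool.MP_67663b_nt.Odd Pool.MP_dd84fd_nt.En Pool.MP_dd84fd_nt.E2 Pool.MP_dd84fd_nt.HX

/-- the weight of a list which satisfies the condition -/
private theorem nwb_wc (P : Prm) (l : List ℕ) (h : (subs l).any (inw P) = false ∧
    ∀ c ∈ l, c ≤ P.sm ∧ l.sum + c ≤ P.G) : wc P l = P.w l.length l.sum := by
  unfold wc
  rw [if_pos h]

private theorem nwb_wtF_med {G sm mb t : ℕ} (h1 : G ≤ 2 * (t + 2)) (h2 : t + mb ≤ G) :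
    wtF G sm mb 2 t = 2 := by
  unfold wtF
  rw [if_pos rfl, if_pos ⟨h1, h2⟩]

private theorem nwb_wtF_sm {G sm mb s t : ℕ} (h1 : G ≤ t + s + sm) (h2 : s ≠ 2) :
    wtF G sm mb s t = if s = 4 then 24 else if s = 5 then 75 else if s = 6 then 90 else 0 := by
  unfold wtF
  rw [if_neg h2, if_pos h1]

private theorem nwb_wtS_sm {G sm mb s t : ℕ} (h1 : G ≤ t + s + sm) :
    wtS G sm mb s t = if s = 3 then 6 else if s = 4 then 6 else if s = 5 then 30 else
      if s = 6 then 15 else 0 := by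
  unfold wtS
  rw [if_pos h1]

private theorem nwb_wtS_med3 {G sm mb t : ℕ} (h1 : G ≤ 2 * (t + 3)) (h2 : t + mb ≤ G) :
    2 ≤ wtS G sm mb 3 t := by
  unfold wtS
  by_cases h : G ≤ t + 3 + sm
  · rw [if_pos h]
    norm_num
  · rw [if_neg h, if_pos ⟨h1, h2⟩]
    norm_num

private theorem nwb_wtS_med4 {G sm mb t : ℕ} (h1 : G ≤ 2 * (t + 4)) (h2 : t + mb ≤ G) :
    3 ≤ wtS G sm mb 4 t := by
  unfold wtS
  by_cases h : G ≤ t + 4 + sm
  · rw [if_pos h]
    norm_num
  · rw [if_neg h, if_pos ⟨h1, h2⟩]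
    norm_num

theorem w_one {G sm mb : ℕ} {α β : ℝ} (hP : NPar G sm mb α β) (B' : ℕ) (hB : 1 ≤ B') :
    ∃ X0 : ℕ, ∀ X : ℕ, X0 ≤ X → ∀ n k : ℕ, X5 X < n → n ≤ X → 2 ≤ k →
    Simp (kp B' X) (zt X) k → (zt X : ℝ) ≤ (n : ℝ) / k →
    (∀ j ∈ ty (kp B' X) (zt X) k, j < bx (kp B' X) (zt X) ((n : ℝ) / k)) →
    -(wc (pF G sm mb) (cL (pF G sm mb) X k).reverse : ℝ) - 2 ^ 25 * nbd X k ≤
      rmT α β (kp B' X) X
        (insert (bx (kp B' X) (zt X) ((n : ℝ) / k)) (ty (kp B' X) (zt X) k)) ∧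
    spT α β (kp B' X) X
        (insert (bx (kp B' X) (zt X) ((n : ℝ) / k)) (ty (kp B' X) (zt X) k)) ≤
      (wc (pS G sm mb) (cL (pS G sm mb) X k).reverse : ℝ) + 2 ^ 25 * nbd X k := by
  classical
  obtain ⟨hG20, hα0, hα1, _, hβ0, hβ1, _⟩ := id hP
  obtain ⟨X1, hX1⟩ := sg_cells (pF G sm mb) (show 0 < G by omega) B'
  obtain ⟨X2, hX2⟩ := tri α β hα0 hα1 hβ0 hβ1 B' hB
  obtain ⟨X3, hX3⟩ := nhc_big 1 one_pos B' hB
  obtain ⟨X4, hX4⟩ := med_cell hP B' hB
  obtain ⟨X5', hX5⟩ := small_top hP B' hB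
  obtain ⟨X6, hX6⟩ := small_cell hP B' hB
  obtain ⟨X7, hX7⟩ := gd_low hP B' hB
  obtain ⟨X8, hX8⟩ := gd_comp hP B' hB
  refine ⟨max (max (max X1 X2) (max X3 X4)) (max (max X5' X6) (max X7 X8)), ?_⟩
  intro X hX n k hn hnX hk hS hz hj
  simp only [max_le_iff] at hX
  obtain ⟨⟨⟨g1, g2⟩, g3, g4⟩, ⟨g5, g6⟩, g7, g8⟩ := hX
  have hcells : ∀ Q ⊆ k.primeFactors,
      (Q.image (fun p : ℕ => bx (kp B' X) (zt X) p)).card = Q.card ∧
      Real.log X * ((∑ p ∈ Q, cel (pF G sm mb) X p : ℕ) : ℝ) / G - Q.card * kp B' X ≤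
        sg (vlog (kp B' X) (zt X)) (Q.image (fun p : ℕ => bx (kp B' X) (zt X) p)) ∧
      sg (vlog (kp B' X) (zt X)) (Q.image (fun p : ℕ => bx (kp B' X) (zt X) p)) ≤
        Real.log X * ((∑ p ∈ Q, cel (pF G sm mb) X p + Q.card : ℕ) : ℝ) / G := fun Q hQ =>
    ⟨(hX1 X g1 k hS Q hQ).1, (hX1 X g1 k hS Q hQ).2.1, (hX1 X g1 k hS Q hQ).2.2.1⟩
  obtain ⟨⟨hTc, hcard⟩, htri⟩ := hX2 X g2 n k hn hnX (by omega) hS hz hj _ rfl
  obtain ⟨b1, b2, b3, b4, b5, b6, b7, b8, b9⟩ := hX3 X g3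
  have hmed := hX4 X g4
  have htop := hX5 X g5
  have hcl := hX6 X g6
  have hgl := hX7 X g7
  have hgc := hX8 X g8
  have hnb : (0 : ℝ) ≤ (nbd X k : ℝ) := Nat.cast_nonneg _
  have hw1 : (0 : ℝ) ≤ (wc (pF G sm mb) (cL (pF G sm mb) X k).reverse : ℝ) := Nat.cast_nonneg _
  have hw2 : (0 : ℝ) ≤ (wc (pS G sm mb) (cL (pS G sm mb) X k).reverse : ℝ) := Nat.cast_nonneg _
  have hsp : spT α β (kp B' X) X
      (insert (bx (kp B' X) (zt X) ((n : ℝ) / k)) (ty (kp B' X) (zt X) k)) =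
      rmT α β (kp B' X) X
        (insert (bx (kp B' X) (zt X) ((n : ℝ) / k)) (ty (kp B' X) (zt X) k)) +
      epT α β (kp B' X) X
        (insert (bx (kp B' X) (zt X) ((n : ℝ) / k)) (ty (kp B' X) (zt X) k)) := rfl
  rw [hsp]
  rcases htri with ⟨e1, e2⟩ | h5 | ⟨hBT, e1, e2⟩
  · rw [e1, e2]
    constructor <;> linarith
  · obtain ⟨c1, c2⟩ := rmT_bd α β (kp B' X) X
      (insert (bx (kp B' X) (zt X) ((n : ℝ) / k)) (ty (kp B' X) (zt X) k))
    have c3 := abs_le.1 c1
    have c4 := abs_le.1 c2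
    constructor <;> linarith
  rw [e1, e2]
  set L := Real.log (X : ℝ) with hLd
  set l := Real.log L with hld
  set κ := kp B' X with hκd
  set z := zt X with hzd
  have hz1 : 1 ≤ z := by omega
  have hL0 : 0 < L := by linarith
  have hL200 : 200 ≤ L := by linarith
  have hsq : Squarefree k := hS.2.1
  set v := vlog κ z with hv
  set T0 := ty κ z k with hT0
  set j0 := bx κ z ((n : ℝ) / k) with hj0
  have hj0T' : j0 ∉ T0 := fun h => lt_irrefl _ (hj j0 h)
  set T := insert j0 T0 with hT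
  have hj0T : j0 ∈ T := Finset.mem_insert_self _ _
  have hbT0 : ∀ p ∈ k.primeFactors, bx κ z p ∈ T0 := fun p hp => mem_image_of_mem _ hp
  have hbT : ∀ p ∈ k.primeFactors, bx κ z p ∈ T := fun p hp =>
    Finset.mem_insert_of_mem (hbT0 p hp)
  have hbne : ∀ p ∈ k.primeFactors, bx κ z p ≠ j0 := fun p hp he => hj0T' (he ▸ hbT0 p hp)
  have h2c : 2 ≤ T.card := by
    have h6 : k.primeFactors.Nonempty := by
      rw [Nat.nonempty_primeFactors]
      omega
    have := Finset.card_pos.2 h6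
    omega
  obtain ⟨hnd, htf, hlist, hlen, hsum⟩ := n_list (pF G sm mb) (X := X) hsq
  have him : ∀ Q ⊆ k.primeFactors, Q.image (fun p : ℕ => bx κ z p) ⊆ T := fun Q hQ =>
    (Finset.image_subset_image hQ).trans (Finset.subset_insert _ _)
  have hm10 : ∀ Q ⊆ k.primeFactors, Q.card ≤ 10 := fun Q hQ =>
    (Finset.card_le_card hQ).trans (by omega)
  have ht1 := hBT.hlo
  have ht2 := hBT.hhi
  have hgdn := hBT.hgd
  -- the condition on the list of cells
  have hcond : (∀ p ∈ k.primeFactors, v (bx κ z p) ≤ α * L) →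
      (subs (cL (pF G sm mb) X k).reverse).any (inw (pF G sm mb)) = false ∧
      ∀ c ∈ (cL (pF G sm mb) X k).reverse, c ≤ sm ∧
        (cL (pF G sm mb) X k).reverse.sum + c ≤ G := by
    intro hall
    constructor
    · by_contra hc
      rw [Bool.not_eq_false, hlist] at hc
      obtain ⟨Q, hQ, hQi⟩ := subs_any (cel (pF G sm mb) X) _ hnd (inw (pF G sm mb)) hc
      rw [htf, Finset.mem_powerset] at hQ
      obtain ⟨c1, c2, c3⟩ := hcells Q hQ
      unfold inw at hQi
      simp only [Bool.or_eq_true, Bool.and_eq_true, decide_eq_true_eq] at hQi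
      rcases hQi with ⟨i1, i2⟩ | ⟨i1, i2⟩
      · have := hgl _ _ _ (hm10 Q hQ) c2 c3 i1 i2
        exact hgdn ⟨_, him Q hQ, this.1, this.2⟩
      · have := hgc _ (sg v T) _ _ (hm10 Q hQ) c2 c3 ht1 ht2 i1 i2
        rw [← sg_compl v (him Q hQ)] at this
        exact hgdn ⟨_, Finset.sdiff_subset, this.1, this.2⟩
    · intro c hc
      rw [hlist, List.mem_map] at hc
      obtain ⟨p, hp, rfl⟩ := hc
      have hp' : p ∈ k.primeFactors := by
        rw [← htf]
        exact List.mem_toFinset.2 hp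
      constructor
      · obtain ⟨_, c2, _⟩ := hcells {p} (Finset.singleton_subset_iff.2 hp')
        rw [Finset.sum_singleton, Finset.card_singleton, Finset.image_singleton] at c2
        have e3 : sg v {bx κ z (p : ℝ)} = v (bx κ z p) := by
          unfold sg
          rw [Finset.sum_singleton]
        rw [e3] at c2
        refine hcl _ _ ?_ (hall p hp')
        push_cast at c2
        linarith
      · rw [hsum]
        have hple : (p : ℝ) ≤ (n : ℝ) / k := n_le b7 hz1 hS hz hj hp'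
        have hk0 : (0 : ℝ) < k := by exact_mod_cast (by omega : 0 < k)
        rw [le_div_iff₀ hk0] at hple
        have hp0 : (0 : ℝ) < p := by exact_mod_cast (Nat.prime_of_mem_primeFactors hp').pos
        have hnXR : (n : ℝ) ≤ X := by exact_mod_cast hnX
        have h5 : Real.log p + Real.log k ≤ L := by
          rw [← Real.log_mul hp0.ne' hk0.ne']
          exact Real.log_le_log (mul_pos hp0 hk0) (hple.trans hnXR)
        have h6 : ((∑ q ∈ k.primeFactors, cel (pF G sm mb) X q : ℕ) : ℝ) * L ≤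
            (G : ℝ) * Real.log k := by
          rw [n_logk hsq, Nat.cast_sum, Finset.sum_mul, Finset.mul_sum]
          exact Finset.sum_le_sum fun q _ => (n_cel (pF G sm mb) hL0 q).1
        have h7 : (cel (pF G sm mb) X p : ℝ) * L ≤ (G : ℝ) * Real.log p :=
          (n_cel (pF G sm mb) hL0 p).1
        have h8 : (((∑ q ∈ k.primeFactors, cel (pF G sm mb) X q : ℕ) : ℝ) +
            (cel (pF G sm mb) X p : ℕ)) * L ≤ (G : ℝ) * L := by
          have hG0 : (0 : ℝ) ≤ G := Nat.cast_nonneg _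
          have := mul_le_mul_of_nonneg_left h5 hG0
          linarith
        have h9 := le_of_mul_le_mul_right h8 hL0
        exact_mod_cast h9
  have hwF : (∀ p ∈ k.primeFactors, v (bx κ z p) ≤ α * L) →
      wc (pF G sm mb) (cL (pF G sm mb) X k).reverse =
        wtF G sm mb k.primeFactors.card (∑ p ∈ k.primeFactors, cel (pF G sm mb) X p) := by
    intro hall
    rw [nwb_wc _ _ (hcond hall), hlen, hsum]
    rfl
  have hwS : (∀ p ∈ k.primeFactors, v (bx κ z p) ≤ α * L) →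
      wc (pS G sm mb) (cL (pS G sm mb) X k).reverse =
        wtS G sm mb k.primeFactors.card (∑ p ∈ k.primeFactors, cel (pF G sm mb) X p) := by
    intro hall
    have h6 : wc (pS G sm mb) (cL (pF G sm mb) X k).reverse =
        wtS G sm mb (cL (pF G sm mb) X k).reverse.length (cL (pF G sm mb) X k).reverse.sum :=
      nwb_wc (pS G sm mb) _ (hcond hall)
    rw [hlen, hsum] at h6
    exact h6
  obtain ⟨_, c2, c3⟩ := hcells k.primeFactors (Finset.Subset.refl _)
  have hsgT : sg v T = v j0 + sg v T0 := by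
    rw [hT]
    unfold sg
    exact Finset.sum_insert hj0T'
  have hImg : k.primeFactors.image (fun p : ℕ => bx κ z p) = T0 := rfl
  rw [hImg] at c2 c3
  set t := ∑ p ∈ k.primeFactors, cel (pF G sm mb) X p with ht
  have hvn := hBT.hv
  rcases hBT.r2_v h2c with ⟨f1, f2⟩ | ⟨⟨q, hq, hqa, hqx, hqs⟩, hcase⟩ | ⟨hsm, hcase⟩
  · rw [f1, f2]
    constructor <;> linarith
  · -- a medium box
    have hαβ : α * L < β * L - 1 / 2 := by nlinarith
    have hq0 : q = j0 := by
      by_contra hne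
      have h6 := hqs j0 hj0T (fun h => hne h.symm)
      have h7 : q ∈ T0 := by
        rcases Finset.mem_insert.1 hq with h8 | h8
        · exact absurd h8 hne
        · exact h8
      have h8 := hj q h7
      have h9 : v q ≤ v j0 := by
        rw [hv, vlog_eq κ z q hz1, vlog_eq κ z j0 hz1]
        have h10 : (q : ℝ) ≤ j0 := by exact_mod_cast h8.le
        have := mul_le_mul_of_nonneg_left h10 b7.le
        linarith
      linarith
    rw [hq0] at hqa hqx hqs
    have hall : ∀ p ∈ k.primeFactors, v (bx κ z p) ≤ α * L := fun p hp =>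
      hqs _ (hbT p hp) (hbne p hp)
    obtain ⟨m1, m2⟩ := hmed (sg v T0) (v j0) t k.primeFactors.card (by omega) c2 c3
      (by linarith) (by linarith) hqa hqx
    rw [hwF hall, hwS hall]
    rcases hcase with ⟨hc, f1, f2⟩ | ⟨hc, f1, f2⟩ | ⟨hc, f1, f2⟩
    · have hs : k.primeFactors.card = 2 := by omega
      rw [hs] at m1 ⊢
      rw [nwb_wtF_med m1 m2, f1, f2]
      have : (0 : ℝ) ≤ (wtS G sm mb 2 t : ℝ) := Nat.cast_nonneg _
      push_cast
      constructor <;> linarith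
    · have hs : k.primeFactors.card = 3 := by omega
      rw [hs] at m1 ⊢
      have h6 : (2 : ℝ) ≤ (wtS G sm mb 3 t : ℝ) := by exact_mod_cast nwb_wtS_med3 m1 m2
      have : (0 : ℝ) ≤ (wtF G sm mb 3 t : ℝ) := Nat.cast_nonneg _
      rw [f1]
      constructor <;> linarith
    · have hs : k.primeFactors.card = 4 := by omega
      rw [hs] at m1 ⊢
      have h6 : (3 : ℝ) ≤ (wtS G sm mb 4 t : ℝ) := by exact_mod_cast nwb_wtS_med4 m1 m2
      have : (0 : ℝ) ≤ (wtF G sm mb 4 t : ℝ) := Nat.cast_nonneg _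
      rw [f1, f2]
      constructor <;> linarith
  · -- all boxes small
    have hall : ∀ p ∈ k.primeFactors, v (bx κ z p) ≤ α * L := fun p hp => hsm _ (hbT p hp)
    have m1 := htop (sg v T0) (v j0) t k.primeFactors.card c3 (by linarith) (hsm _ hj0T)
    rw [hwF hall, hwS hall]
    rcases hcase with ⟨hc, f1, f2⟩ | ⟨hc, f1, f2⟩ | ⟨hc, f1, f2⟩ | ⟨hc, f1, f2⟩
    · have hs : k.primeFactors.card = 3 := by omega
      rw [hs] at m1 ⊢
      have e3 : (wtS G sm mb 3 t : ℝ) = 6 := by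
        rw [nwb_wtS_sm m1]
        norm_num
      have : (0 : ℝ) ≤ (wtF G sm mb 3 t : ℝ) := Nat.cast_nonneg _
      rw [e3, f1]
      constructor <;> linarith
    · have hs : k.primeFactors.card = 4 := by omega
      rw [hs] at m1 ⊢
      have e3 : (wtS G sm mb 4 t : ℝ) = 6 := by
        rw [nwb_wtS_sm m1]
        norm_num
      have e4 : (wtF G sm mb 4 t : ℝ) = 24 := by
        rw [nwb_wtF_sm m1 (by norm_num)]
        norm_num
      rw [e3, e4, f2]
      constructor <;> linarith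
    · have hs : k.primeFactors.card = 5 := by omega
      rw [hs] at m1 ⊢
      have e3 : (wtS G sm mb 5 t : ℝ) = 30 := by
        rw [nwb_wtS_sm m1]
        norm_num
      have e4 : (wtF G sm mb 5 t : ℝ) = 75 := by
        rw [nwb_wtF_sm m1 (by norm_num)]
        norm_num
      rw [e3, e4]
      constructor <;> linarith
    · have hs : k.primeFactors.card = 6 := by omega
      rw [hs] at m1 ⊢
      have e3 : (wtS G sm mb 6 t : ℝ) = 15 := by
        rw [nwb_wtS_sm m1]
        norm_num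
      have e4 : (wtF G sm mb 6 t : ℝ) = 90 := by
        rw [nwb_wtF_sm m1 (by norm_num)]
        norm_num
      rw [e3, e4, f1, f2]
      constructor <;> linarith

end Pool.MP_dd84fd_nt.IY
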