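import Pool.Agent.Lib.MP_dd84fd_nt.IY.BDec
import Pool.Agent.Lib.MP_dd84fd_nt.IY.NHc

/-!
# The indicator function of the primes as a type function (helper33)

For `β > 1/3` the indicator function of the primes in `(X5, X]` is exactly a type function with
weights of level `(1-β) log X`: a box is small if `vlog j ≤ α log X`; `lam S` is `(-1)^#(small boxes)`
times `1` if no large box, `-1/2` if one large box, `0` otherwise, for `sg S ≤ (1-β) log X + 11 κ`.
A type without set in the window has only small boxes (sum `≤ α log X`) and boxes above `β log X`, at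
most two.
-/

set_option autoImplicit false

namespace Pool.MP_dd84fd_nt.IY

open Finset Pool.MP_dd84fd_nt.HX

open Classical in
/-- `1`, `-1/2`, `0` -/
noncomputable def cP (k : ℕ) : ℝ := if k = 0 then 1 else if k = 1 then -(1 / 2) else 0

open Classical in
/-- the weight of the primes (`x = log X`, `a = α x`, `b = β x`) -/
noncomputable def lamP (v : ℕ → ℝ) (κ x a b : ℝ) (S : Finset ℕ) : ℝ :=
  if sg v S ≤ x - b + 11 * κ then
    (-1) ^ (S.filter (fun j => v j ≤ a)).card * cP (S.filter (fun j => ¬ v j ≤ a)).card else 0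

theorem cP_bd (k : ℕ) : |cP k| ≤ 1 := by
  unfold cP
  split_ifs
  · simp
  · rw [abs_le]
    constructor <;> norm_num
  · simp

theorem lamP_bd (v : ℕ → ℝ) (κ x a b : ℝ) (S : Finset ℕ) : |lamP v κ x a b S| ≤ 1 := by
  unfold lamP
  split_ifs
  · rw [abs_mul, abs_pow, abs_neg, abs_one, one_pow, one_mul]
    exact cP_bd _
  · simp

theorem adm_P (α β : ℝ) (B' : ℕ) (hB : 1 ≤ B') : ∃ X0 : ℕ, ∀ X : ℕ, X0 ≤ X →
    AdmL β (kp B' X) X (lamP (vlog (kp B' X) (zt X)) (kp B' X) (Real.log X) (α * Real.log X)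
      (β * Real.log X)) := by
  classical
  obtain ⟨X1, hX1⟩ := kp_par B' hB
  refine ⟨X1, fun X hX => ?_⟩
  obtain ⟨g7, g8, g9, _⟩ := hX1 X hX
  refine ⟨fun S => (lamP_bd _ _ _ _ _ S).trans (by norm_num), fun S hS => ?_⟩
  unfold lamP at hS
  split_ifs at hS with hc
  · linarith
  · exact absurd rfl hS

/-- subsets of small boxes -/
theorem pr_small {v : ℕ → ℝ} {κ x a b : ℝ} {A : Finset ℕ} (hv : ∀ j, 0 ≤ v j)
    (hA : ∀ j ∈ A, v j ≤ a) (hs : sg v A ≤ x - b + 11 * κ) :
    ∑ S ∈ A.powerset, lamP v κ x a b S = if A = ∅ then 1 else 0 := by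
  classical
  have h1 : ∀ S ∈ A.powerset, lamP v κ x a b S = (-1 : ℝ) ^ S.card := by
    intro S hS
    rw [Finset.mem_powerset] at hS
    unfold lamP
    have h2 : S.filter (fun j => v j ≤ a) = S :=
      Finset.filter_true_of_mem fun j hj => hA j (hS hj)
    have h3 : S.filter (fun j => ¬ v j ≤ a) = ∅ :=
      Finset.filter_false_of_mem fun j hj => not_not.2 (hA j (hS hj))
    rw [if_pos ((sg_mono hv hS).trans hs), h2, h3, Finset.card_empty]
    simp [cP]
  rw [Finset.sum_congr rfl h1]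
  split_ifs with h
  · rw [h]
    simp
  · exact alt_sum (Finset.nonempty_iff_ne_empty.2 h)

/-- small boxes and one large box -/
theorem pr_one {v : ℕ → ℝ} {κ x a b : ℝ} {A : Finset ℕ} {q : ℕ} (hv : ∀ j, 0 ≤ v j)
    (hA : ∀ j ∈ A, v j ≤ a) (hq : a < v q) (hs : sg v A + v q ≤ x - b + 11 * κ) :
    ∑ S ∈ A.powerset, lamP v κ x a b (insert q S) = if A = ∅ then -(1 / 2) else 0 := by
  classical
  have hqA : q ∉ A := fun h => not_lt.2 (hA q h) hq
  have h1 : ∀ S ∈ A.powerset, lamP v κ x a b (insert q S) = (-1 : ℝ) ^ S.card * (-(1 / 2)) := by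
    intro S hS
    rw [Finset.mem_powerset] at hS
    unfold lamP
    have hqS : q ∉ S := fun h => hqA (hS h)
    have h2 : (insert q S).filter (fun j => v j ≤ a) = S := by
      rw [Finset.filter_insert, if_neg (not_le.2 hq)]
      exact Finset.filter_true_of_mem fun j hj => hA j (hS hj)
    have h3 : (insert q S).filter (fun j => ¬ v j ≤ a) = {q} := by
      rw [Finset.filter_insert, if_pos (not_le.2 hq),
        Finset.filter_false_of_mem fun j hj => not_not.2 (hA j (hS hj))]
      rfl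
    have h4 : sg v (insert q S) ≤ x - b + 11 * κ := by
      have h5 : sg v (insert q S) = v q + sg v S := by
        unfold sg
        rw [Finset.sum_insert hqS]
      rw [h5]
      linarith [sg_mono hv hS]
    rw [if_pos h4, h2, h3, Finset.card_singleton]
    simp [cP]
  rw [Finset.sum_congr rfl h1, ← Finset.sum_mul]
  split_ifs with h
  · rw [h]
    simp
  · rw [alt_sum (Finset.nonempty_iff_ne_empty.2 h), zero_mul]

/-- sets above the level -/
theorem pr_high {v : ℕ → ℝ} {κ x a b : ℝ} {A : Finset ℕ} {q : ℕ} (hv : ∀ j, 0 ≤ v j)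
    (hs : x - b + 11 * κ < v q) :
    ∑ S ∈ A.powerset, lamP v κ x a b (insert q S) = 0 := by
  classical
  refine Finset.sum_eq_zero fun S _ => ?_
  unfold lamP
  rw [if_neg]
  rw [not_le]
  refine lt_of_lt_of_le hs ?_
  unfold sg
  exact Finset.single_le_sum (f := v) (fun j _ => hv j) (Finset.mem_insert_self q S)

/-- two large boxes -/
theorem pr_two {v : ℕ → ℝ} {κ x a b : ℝ} {A : Finset ℕ} {q q' : ℕ} (hqq : q ≠ q')
    (hq : a < v q) (hq' : a < v q') :
    ∑ S ∈ A.powerset, lamP v κ x a b (insert q (insert q' S)) = 0 := by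
  classical
  refine Finset.sum_eq_zero fun S _ => ?_
  unfold lamP
  split_ifs
  · have h2 : 2 ≤ ((insert q (insert q' S)).filter (fun j => ¬ v j ≤ a)).card := by
      rw [← Finset.card_pair hqq]
      refine Finset.card_le_card ?_
      intro j hj
      rw [Finset.mem_insert, Finset.mem_singleton] at hj
      rw [Finset.mem_filter]
      rcases hj with rfl | rfl
      · exact ⟨by simp, not_le.2 hq⟩
      · exact ⟨by simp, not_le.2 hq'⟩
    unfold cP
    rw [if_neg (by omega), if_neg (by omega), mul_zero]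
  · rfl

/-- the small boxes of a type without window set have a small sum -/
theorem pr_smallsum {v : ℕ → ℝ} {κ a b : ℝ} {T : Finset ℕ} (ha : 0 ≤ a)
    (hab : 2 * a + 11 * κ ≤ b) (hg : ¬ gdT v κ a b T) :
    ∀ A : Finset ℕ, A ⊆ T → (∀ j ∈ A, v j ≤ a) → sg v A ≤ a := by
  classical
  intro A
  induction A using Finset.induction_on with
  | empty =>
    intro _ _
    simpa [sg] using ha
  | insert q A hq ih =>
    intro hA hs
    have h1 := ih (fun j hj => hA (Finset.mem_insert_of_mem hj))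
      (fun j hj => hs j (Finset.mem_insert_of_mem hj))
    by_contra hcon
    apply hg
    refine ⟨insert q A, hA, not_le.1 hcon, ?_⟩
    have h2 : sg v (insert q A) = v q + sg v A := by
      unfold sg
      rw [Finset.sum_insert hq]
    rw [h2]
    linarith [hs q (Finset.mem_insert_self q A)]

/-- the value of the type function -/
theorem pr_val {v : ℕ → ℝ} {κ x a b : ℝ} {T : Finset ℕ} (hv : ∀ j, 0 ≤ v j) (ha : 0 ≤ a)
    (hκ : 0 ≤ κ) (hab : 2 * a + 11 * κ ≤ b)
    (h3 : x < 3 * (b - 11 * κ)) (hbx : 2 * b ≤ x) (hT1 : x - b + 11 * κ + a < sg v T)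
    (hT2 : sg v T ≤ x) (hg : ¬ gdT v κ a b T) :
    ∑ S ∈ T.powerset, lamP v κ x a b S = if T.card = 1 then 1 else 0 := by
  classical
  set A := T.filter (fun j => v j ≤ a) with hA
  set Q := T.filter (fun j => ¬ v j ≤ a) with hQ
  have hAT : A ⊆ T := Finset.filter_subset _ _
  have hQT : Q ⊆ T := Finset.filter_subset _ _
  have hAs : ∀ j ∈ A, v j ≤ a := fun j hj => (Finset.mem_filter.1 hj).2
  have hsA := pr_smallsum ha hab hg A hAT hAs
  have hQl : ∀ j ∈ Q, a < v j ∧ b - 11 * κ < v j := by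
    intro j hj
    have h4 : a < v j := not_le.1 (Finset.mem_filter.1 hj).2
    refine ⟨h4, ?_⟩
    by_contra hcon
    apply hg
    refine ⟨{j}, Finset.singleton_subset_iff.2 (hQT hj), ?_, ?_⟩
    · simpa [sg] using h4
    · have : sg v {j} = v j := by simp [sg]
      rw [this]
      linarith
  have hsum : sg v A + sg v Q = sg v T := by
    unfold sg
    rw [hA, hQ]
    exact Finset.sum_filter_add_sum_filter_not T (fun j => v j ≤ a) v
  have hsA0 : 0 ≤ sg v A := sg_nonneg hv A
  have hcQ : Q.card < 3 := by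
    by_contra hcon
    have h7 : (Q.card : ℝ) * (b - 11 * κ) ≤ sg v Q := by
      unfold sg
      rw [← nsmul_eq_mul]
      exact Finset.card_nsmul_le_sum _ _ _ fun j hj => (hQl j hj).2.le
    have h8 : (3 : ℝ) ≤ Q.card := by exact_mod_cast not_lt.1 hcon
    have h9 : 0 ≤ b - 11 * κ := by linarith
    have h10 := mul_le_mul_of_nonneg_right h8 h9
    linarith
  have hTd : T = Q ∪ A := by
    rw [hQ, hA, Finset.union_comm]
    exact (Finset.filter_union_filter_not_eq _ T).symm
  have hQ0 : Q.card ≠ 0 := by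
    intro h
    rw [Finset.card_eq_zero] at h
    rw [h] at hsum
    have : sg v (∅ : Finset ℕ) = 0 := by simp [sg]
    linarith
  rcases (by omega : Q.card = 1 ∨ Q.card = 2) with h1 | h2
  · obtain ⟨q, hq⟩ := Finset.card_eq_one.1 h1
    have hqQ := hQl q (by rw [hq]; simp)
    have hqA : q ∉ A := fun h => not_lt.2 (hAs q h) hqQ.1
    have hT : T = insert q A := by
      rw [hTd, hq]
      rfl
    have hsq : sg v Q = v q := by
      rw [hq]
      simp [sg]
    rw [hT, Finset.sum_powerset_insert hqA, pr_small hv hAs (by linarith),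
      pr_high hv (by linarith), add_zero, Finset.card_insert_of_notMem hqA]
    by_cases h0 : A = ∅
    · rw [if_pos h0, if_pos (by rw [h0]; rfl)]
    · rw [if_neg h0, if_neg]
      intro h5
      apply h0
      rw [← Finset.card_eq_zero]
      omega
  · obtain ⟨q, q', hqq, hq⟩ := Finset.card_eq_two.1 h2
    have hqQ := hQl q (by rw [hq]; simp)
    have hqQ' := hQl q' (by rw [hq]; simp)
    have hqA : q ∉ A := fun h => not_lt.2 (hAs q h) hqQ.1
    have hqA' : q' ∉ A := fun h => not_lt.2 (hAs q' h) hqQ'.1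
    have hT : T = insert q (insert q' A) := by
      rw [hTd, hq]
      ext j
      simp
    have hsq : sg v Q = v q + v q' := by
      rw [hq]
      unfold sg
      rw [Finset.sum_pair hqq]
    have hqi : q ∉ insert q' A := by
      rw [Finset.mem_insert, not_or]
      exact ⟨hqq, hqA⟩
    rw [hT, Finset.sum_powerset_insert hqi, Finset.sum_powerset_insert hqA',
      Finset.sum_powerset_insert hqA', pr_small hv hAs (by linarith),
      pr_one hv hAs hqQ'.1 (by linarith), pr_one hv hAs hqQ.1 (by linarith),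
      pr_two hqq hqQ.1 hqQ'.1]
    have hc : ¬ (insert q (insert q' A)).card = 1 := by
      rw [Finset.card_insert_of_notMem hqi, Finset.card_insert_of_notMem hqA']
      omega
    rw [if_neg hc]
    split_ifs <;> norm_num

theorem wty_P (α β : ℝ) (h0 : 0 < α) (h1 : 2 * α < β) (h2 : 1 / 3 < β) (h3 : β < 1 / 2)
    (B' : ℕ) (hB : 1 ≤ B') : ∃ X0 : ℕ, ∀ X : ℕ, X0 ≤ X → ∀ n : ℕ,
    wty (kp B' X) X (Wl α β (kp B' X) X (lamP (vlog (kp B' X) (zt X)) (kp B' X) (Real.log X)
      (α * Real.log X) (β * Real.log X))) n = pI X n := by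
  classical
  obtain ⟨X1, hX1⟩ := nhc_big (min (β - 2 * α) (min (3 * β - 1) (1 - 2 * β)))
    (by
      refine lt_min (by linarith) (lt_min (by linarith) (by linarith))) B' hB
  obtain ⟨X2, hX2⟩ := X5_ge
  obtain ⟨X3, hX3⟩ := b_par (1 / 8) (3 / 8) (by norm_num) (by norm_num) (by norm_num) 0
  refine ⟨max X1 (max X2 X3), fun X hX n => ?_⟩
  simp only [max_le_iff] at hX
  obtain ⟨b1, b2, b3⟩ := hX
  obtain ⟨g1, g2, g3, g4, g5, g6, g7, g8, g9⟩ := hX1 X b1
  obtain ⟨x1, x2⟩ := hX2 X b2
  obtain ⟨_, _, _, _, _, _, g10, _⟩ := hX3 X b3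
  set L := Real.log (X : ℝ) with hLd
  set l := Real.log L with hld
  set κ := kp B' X with hκd
  set z := zt X with hzd
  have hL0 : 0 < L := by linarith
  have hz1 : 1 ≤ z := by omega
  have hzr : (1 : ℝ) ≤ z := by exact_mod_cast hz1
  have hXp : (0 : ℝ) < X := by exact_mod_cast g1
  have e1 : min (β - 2 * α) (min (3 * β - 1) (1 - 2 * β)) * L ≤ (β - 2 * α) * L :=
    mul_le_mul_of_nonneg_right (min_le_left _ _) hL0.le
  have e2 : min (β - 2 * α) (min (3 * β - 1) (1 - 2 * β)) * L ≤ (3 * β - 1) * L :=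
    mul_le_mul_of_nonneg_right ((min_le_right _ _).trans (min_le_left _ _)) hL0.le
  have e3 : min (β - 2 * α) (min (3 * β - 1) (1 - 2 * β)) * L ≤ (1 - 2 * β) * L :=
    mul_le_mul_of_nonneg_right ((min_le_right _ _).trans (min_le_right _ _)) hL0.le
  have haL : 0 < α * L := by positivity
  have hlz : ∀ j, 0 ≤ vlog κ z j := by
    intro j
    rw [vlog_eq κ _ j hz1]
    have h4 : 0 ≤ κ * (j : ℝ) := by positivity
    have h5 := Real.log_nonneg hzr
    linarith
  -- primes are simple
  have hsimp : X5 X < n → n.Prime → Simp κ z n := by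
    intro hn hp
    have hzn : z ≤ n := by
      have : (z : ℝ) ≤ n := by linarith
      exact_mod_cast this
    refine ⟨⟨hp.ne_zero, ?_⟩, hp.prime.squarefree, ?_⟩
    · intro p hp'
      rw [hp.primeFactors, Finset.mem_singleton] at hp'
      rw [hp']
      exact hzn
    · intro p hp' q hq _
      rw [hp.primeFactors, Finset.mem_singleton] at hp' hq
      rw [hp', hq]
  unfold wty pI
  by_cases hn : X5 X < n ∧ n ≤ X
  swap
  · rw [if_neg (fun h => hn ⟨h.1, h.2.1⟩), if_neg (fun h => hn ⟨h.1, h.2.1⟩)]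
  obtain ⟨hn1, hn2⟩ := hn
  by_cases hS : Simp κ z n
  swap
  · rw [if_neg (fun h => hS h.2.2), if_neg (fun h => hS (hsimp hn1 h.2.2))]
  rw [if_pos ⟨hn1, hn2, hS⟩]
  have hn0 : (0 : ℝ) < n := by linarith
  have hnl : Real.log n ≤ L := Real.log_le_log hn0 (by exact_mod_cast hn2)
  have hnlo : L - 5 * l ≤ Real.log n := by
    have h4 : Real.log (X5 X) = L - 5 * l := by
      unfold X5
      rw [Real.log_div hXp.ne' (by positivity), Real.log_pow]
      push_cast
      ring
    rw [← h4]
    exact Real.log_le_log (by linarith) hn1.le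
  have hc10 : (ty κ z n).card ≤ 10 := card_ty hz1 hS hn2 g10
  obtain ⟨t1, t2⟩ := sg_ty g7 hz1 hS
  have hc10r : ((ty κ z n).card : ℝ) ≤ 10 := by exact_mod_cast hc10
  have t3 := mul_le_mul_of_nonneg_left hc10r g7.le
  have hpc : n.Prime ↔ (ty κ z n).card = 1 := by
    rw [card_ty_eq hS]
    constructor
    · intro hp
      rw [hp.primeFactors, Finset.card_singleton]
    · intro h
      obtain ⟨p, hp'⟩ := Finset.card_eq_one.1 h
      have h6 := Nat.prod_primeFactors_of_squarefree hS.2.1
      rw [hp', Finset.prod_singleton] at h6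
      rw [← h6]
      exact Nat.prime_of_mem_primeFactors (by rw [hp']; exact Finset.mem_singleton_self p)
  unfold Wl wT
  rw [if_pos hc10]
  by_cases hg : gdT (vlog κ z) κ (α * L) (β * L) (ty κ z n)
  · rw [if_pos hg, if_neg]
    rintro ⟨_, _, hp⟩
    obtain ⟨j, hj⟩ := Finset.card_eq_one.1 (hpc.1 hp)
    obtain ⟨S, hS', hS1, hS2⟩ := hg
    rw [hj] at hS' t2
    rw [hj, Finset.card_singleton, Nat.cast_one] at hc10r
    rw [Finset.card_singleton, Nat.cast_one, mul_one] at t2
    rcases Finset.subset_singleton_iff.1 hS' with rfl | rfl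
    · have hs0 : sg (vlog κ z) (∅ : Finset ℕ) = 0 := by simp [sg]
      linarith
    · linarith
  · rw [if_neg hg, pr_val hlz haL.le g7.le (by linarith) (by linarith)
      (by linarith) (by linarith) (by linarith) hg]
    by_cases hp : n.Prime
    · rw [if_pos (hpc.1 hp), if_pos ⟨hn1, hn2, hp⟩]
    · rw [if_neg (fun h => hp (hpc.2 h)), if_neg (fun h => hp h.2.2)]

/-- the primes in `(X5, X]` -/
theorem dec_pI (B : ℕ) : ∃ C2 : ℕ, ∀ α β : ℝ, 0 < α → α + 1 / 10 < β → 2 * α < β →
    1 / 3 < β → β < 1 / 2 → DecG α β B C2 (fun X => pI X) := by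
  obtain ⟨B0, h⟩ := decG_types B
  obtain ⟨C2, h⟩ := h (B0 + 1) (by omega)
  refine ⟨C2, fun α β h0 h1 h1' h2 h3 => ?_⟩
  obtain ⟨X0, hX0⟩ := h α β h0 h1 h3
    (fun X => lamP (vlog (kp (B0 + 1) X) (zt X)) (kp (B0 + 1) X) (Real.log X) (α * Real.log X)
      (β * Real.log X)) (adm_P α β (B0 + 1) (by omega))
  obtain ⟨X1, hX1⟩ := wty_P α β h0 h1' h2 h3 (B0 + 1) (by omega)
  refine ⟨max X0 X1, fun X hX => ?_⟩
  have e1 : wty (kp (B0 + 1) X) X (Wl α β (kp (B0 + 1) X) X
      (lamP (vlog (kp (B0 + 1) X) (zt X)) (kp (B0 + 1) X) (Real.log X) (α * Real.log X)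
      (β * Real.log X))) = pI X :=
    funext fun n => hX1 X (le_trans (le_max_right _ _) hX) n
  have h4 := hX0 X (le_trans (le_max_left _ _) hX)
  simp only [e1] at h4
  exact h4

end Pool.MP_dd84fd_nt.IY
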