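import Pool.Agent.Lib.MP_dd84fd_nt.HX.Defs

/-!
# Theorem I: boxes, simple numbers, types, type functions and their densities (helper5)

`κ > 0` (final `κ = (log X)^(-B')`), `z = zt X = ⌈X^(1/10)⌉`. Box `j` = `[z e^(κ j), z e^(κ (j+1)))`;
`bx κ z m` = box of the real number `m ≥ z`. `ub κ z j` = left end point of box `j`, `US κ z S` = product
of the left end points. `Simp κ z n`: `n` is `z`-rough, squarefree, with prime factors in different
boxes. `ty κ z n` = set of the boxes of the prime factors. `wty κ X W` = the function on `(X5, X]` with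
the value `W T` at the simple numbers of type `T`. `vty` = its coefficient `v(m, k)` (`m` real, the
place of the largest prime factor). `gty` = its density relative to `f1`.
-/

set_option autoImplicit false

namespace Pool.MP_dd84fd_nt.IY

open Finset Pool.MP_dd84fd_nt.HX

/-- the sifting level `⌈X^(1/10)⌉` -/
noncomputable def zt (X : ℕ) : ℕ := ⌈(X : ℝ) ^ (1 / 10 : ℝ)⌉₊

/-- `X / (log X)^5` -/
noncomputable def X5 (X : ℕ) : ℝ := X / (Real.log X) ^ 5

/-- the box of the real number `m ≥ z` -/
noncomputable def bx (κ : ℝ) (z : ℕ) (m : ℝ) : ℕ := ⌊Real.log (m / z) / κ⌋₊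

/-- the left end point of box `j` -/
noncomputable def ub (κ : ℝ) (z j : ℕ) : ℝ := z * Real.exp (κ * j)

/-- the product of the left end points of the boxes in `S` -/
noncomputable def US (κ : ℝ) (z : ℕ) (S : Finset ℕ) : ℝ := ∏ j ∈ S, ub κ z j

/-- `n` is rough, squarefree and its prime factors are in different boxes -/
def Simp (κ : ℝ) (z n : ℕ) : Prop :=
  Rgh z n ∧ Squarefree n ∧
    ∀ p ∈ n.primeFactors, ∀ q ∈ n.primeFactors, bx κ z p = bx κ z q → p = q

/-- the type of `n` -/
noncomputable def ty (κ : ℝ) (z n : ℕ) : Finset ℕ := n.primeFactors.image (fun p : ℕ => bx κ z p)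

/-- the function on `(X5, X]` with the value `W T` at the simple numbers of type `T` -/
noncomputable def wty (κ : ℝ) (X : ℕ) (W : Finset ℕ → ℝ) (n : ℕ) : ℝ :=
  open Classical in if X5 X < n ∧ n ≤ X ∧ Simp κ (zt X) n then W (ty κ (zt X) n) else 0

/-- the coefficient `v(m, k)`: `k` simple, `m ≥ z` in a higher box than the prime factors of `k` -/
noncomputable def vty (κ : ℝ) (z : ℕ) (W : Finset ℕ → ℝ) (m : ℝ) (k : ℕ) : ℝ :=
  open Classical in if Simp κ z k ∧ (z : ℝ) ≤ m ∧ ∀ j ∈ ty κ z k, j < bx κ z m then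
    W (insert (bx κ z m) (ty κ z k)) else 0

/-- the density of `wty` relative to `f1` -/
noncomputable def gty (κ : ℝ) (X : ℕ) (W : Finset ℕ → ℝ) (n : ℕ) : ℝ :=
  open Classical in if X5 X < n ∧ n ≤ X then
    ∑ k ∈ Icc 1 X, vty κ (zt X) W ((n : ℝ) / k) k / (k * Real.log ((n : ℝ) / k)) else 0

end Pool.MP_dd84fd_nt.IY
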